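import Pool.Agent.Lib.MP_291b24_nt.Sm.ABa

/-! Lemma AB: bounds for the reciprocal of a function without zeros -/

set_option autoImplicit false

open Complex Metric

namespace Pool.Agent.MP_291b24_nt.Sm

/-- `B y ^ κ ≤ δ y + C` for `y ≥ 1`, `κ < 1` -/
private lemma ab_young {B κ δ : ℝ} (hB : 0 < B) (hκ0 : 0 ≤ κ) (hκ : κ < 1) (hδ : 0 < δ) :
    ∃ C : ℝ, 0 ≤ C ∧ ∀ y : ℝ, 1 ≤ y → B * y ^ κ ≤ δ * y + C := by
  refine ⟨B * (B / δ) ^ (1 / (1 - κ)), by positivity, ?_⟩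
  intro y hy
  have hy0 : 0 < y := by linarith
  have hk : 0 < 1 - κ := by linarith
  by_cases h : B / δ ≤ y ^ (1 - κ)
  · have h1 : B ≤ δ * y ^ (1 - κ) := by
      rw [div_le_iff₀ hδ] at h
      linarith
    have h2 : B * y ^ κ ≤ δ * y ^ (1 - κ) * y ^ κ :=
      mul_le_mul_of_nonneg_right h1 (Real.rpow_nonneg hy0.le _)
    have h3 : δ * y ^ (1 - κ) * y ^ κ = δ * y := by
      rw [mul_assoc, ← Real.rpow_add hy0]
      norm_num
    have h4 : 0 ≤ B * (B / δ) ^ (1 / (1 - κ)) := by positivity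
    linarith
  · push Not at h
    have h1 : y ≤ (B / δ) ^ (1 / (1 - κ)) := by
      have h2 : (y ^ (1 - κ)) ^ (1 / (1 - κ)) ≤ (B / δ) ^ (1 / (1 - κ)) :=
        Real.rpow_le_rpow (Real.rpow_nonneg hy0.le _) h.le (by positivity)
      rwa [← Real.rpow_mul hy0.le, mul_one_div_cancel hk.ne', Real.rpow_one] at h2
    have h2 : y ^ κ ≤ y := by
      calc y ^ κ ≤ y ^ (1 : ℝ) := Real.rpow_le_rpow_of_exponent_le hy hκ.le
        _ = y := Real.rpow_one y
    have h3 : B * y ^ κ ≤ B * (B / δ) ^ (1 / (1 - κ)) :=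
      mul_le_mul_of_nonneg_left (h2.trans h1) hB.le
    have h4 : 0 ≤ δ * y := by positivity
    linarith

/-- `f = log F`, `g = f - f z₀`. On `closedBall z₀ (ρ₁/2)`: `|g| ≤ C` (`bc_disc`, `Re g ≤ log M₁ - log c₁`); on `closedBall z₀ ((ρ₂+ρ₃)/2)`:
`|g| ≤ C (1 + log M)`; `three_circles`: `|g| ≤ C (1 + log M) ^ κ`, `κ < 1`, on `closedBall z₀ ρ₂`; and
`‖F z‖⁻¹ = exp (-Re f z) ≤ c₁⁻¹ exp |g z| ≤ C M ^ δ`. -/
theorem AB {ρ₁ ρ₂ ρ₃ M₁ c₁ δ : ℝ} (h1 : 0 < ρ₁) (h2 : 0 < ρ₂) (h23 : ρ₂ < ρ₃) (hM₁ : 0 < M₁) (hc₁ : 0 < c₁) (hδ : 0 < δ) :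
    ∃ C : ℝ, 0 < C ∧ ∀ (F : ℂ → ℂ) (z₀ : ℂ) (M : ℝ), 1 ≤ M → DifferentiableOn ℂ F (ball z₀ ρ₃) →
      (∀ z ∈ ball z₀ ρ₃, F z ≠ 0) → (∀ z ∈ ball z₀ ρ₃, ‖F z‖ ≤ M) → (∀ z ∈ ball z₀ ρ₁, ‖F z‖ ≤ M₁) → c₁ ≤ ‖F z₀‖ →
      ∀ z ∈ closedBall z₀ ρ₂, ‖(F z)⁻¹‖ ≤ C * M ^ δ := by
  set r₀ := min ρ₁ ρ₂ with hr₀
  have hr₀p : 0 < r₀ := lt_min h1 h2
  have hr₀1 : r₀ ≤ ρ₁ := min_le_left _ _
  have hr₀2 : r₀ ≤ ρ₂ := min_le_right _ _
  set r₃ := (ρ₂ + ρ₃) / 2 with hr₃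
  have hr₃2 : ρ₂ < r₃ := by rw [hr₃]; linarith
  have hr₃3 : r₃ < ρ₃ := by rw [hr₃]; linarith
  have hr₃p : 0 < r₃ := h2.trans hr₃2
  set A₁ := |Real.log M₁ - Real.log c₁| + 1 with hA₁
  have hA₁p : 0 < A₁ := by rw [hA₁]; positivity
  set B := 2 * (|Real.log c₁| + 1) * r₃ / (ρ₃ - r₃) with hB
  have hd3 : 0 < ρ₃ - r₃ := by linarith
  have hBp : 0 < B := by rw [hB]; positivity
  set B' := 2 * A₁ + B with hB'
  have hB'p : 0 < B' := by rw [hB']; positivity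
  set κ := Real.log (ρ₂ / (r₀ / 2)) / Real.log (r₃ / (r₀ / 2)) with hκ
  have hr2 : r₀ / 2 < ρ₂ := by linarith
  have hlog3 : 0 < Real.log (r₃ / (r₀ / 2)) := by
    apply Real.log_pos
    rw [one_lt_div (by positivity)]
    linarith
  have hκ0 : 0 ≤ κ := by
    rw [hκ]
    refine div_nonneg (Real.log_nonneg ?_) hlog3.le
    rw [one_le_div (by positivity)]
    linarith
  have hκ1 : κ < 1 := by
    rw [hκ, div_lt_one hlog3]
    refine Real.log_lt_log (by positivity) ?_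
    gcongr
  obtain ⟨R, hR0, hR⟩ := ab_young hB'p hκ0 hκ1 hδ
  refine ⟨c₁⁻¹ * Real.exp (δ + R), by positivity, ?_⟩
  intro F z₀ M hM hF h0 hFM hFM₁ hc z hz
  obtain ⟨f, hf, hfe, hf0⟩ := exists_log (h2.trans h23) hF h0
  have hlM : 0 ≤ Real.log M := Real.log_nonneg hM
  have hnorm : ∀ w ∈ ball z₀ ρ₃, ‖F w‖ = Real.exp (f w).re := by
    intro w hw
    rw [← hfe w hw, Complex.norm_exp]
  have hlog : ∀ w ∈ ball z₀ ρ₃, (f w).re = Real.log ‖F w‖ := by
    intro w hw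
    rw [hnorm w hw, Real.log_exp]
  have hz₀ : z₀ ∈ ball z₀ ρ₃ := mem_ball_self (h2.trans h23)
  have hlc : Real.log c₁ ≤ (f z₀).re := by
    rw [hlog z₀ hz₀]
    exact Real.log_le_log hc₁ hc
  have hpos : ∀ w ∈ ball z₀ ρ₃, 0 < ‖F w‖ := fun w hw => norm_pos_iff.2 (h0 w hw)
  -- the small disc
  have hsmall : ∀ w ∈ closedBall z₀ (r₀ / 2), ‖f w - f z₀‖ ≤ 2 * A₁ := by
    intro w hw
    have := bc_disc (f := f) (z₀ := z₀) (ρ := r₀) (ρ' := r₀ / 2) (A := A₁) (by positivity) (by linarith)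
      (hf.mono (ball_subset_ball (by linarith))) hA₁p ?_ w hw
    · refine this.trans (le_of_eq ?_)
      field_simp
      ring
    · intro y hy
      have hy3 : y ∈ ball z₀ ρ₃ := ball_subset_ball (by linarith) hy
      have hy1 : y ∈ ball z₀ ρ₁ := ball_subset_ball hr₀1 hy
      rw [Complex.sub_re, hlog y hy3]
      have h5 : Real.log ‖F y‖ ≤ Real.log M₁ := Real.log_le_log (hpos y hy3) (hFM₁ y hy1)
      have h6 : Real.log M₁ - Real.log c₁ ≤ |Real.log M₁ - Real.log c₁| := le_abs_self _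
      rw [hA₁]
      linarith
  have hbig : ∀ w ∈ closedBall z₀ r₃, ‖f w - f z₀‖ ≤ B * (1 + Real.log M) := by
    intro w hw
    have := bc_disc (f := f) (z₀ := z₀) (ρ := ρ₃) (ρ' := r₃) (A := (|Real.log c₁| + 1) * (1 + Real.log M)) hr₃p hr₃3 hf
      (by positivity) ?_ w hw
    · refine this.trans (le_of_eq ?_)
      rw [hB]
      ring
    · intro y hy
      rw [Complex.sub_re, hlog y hy]
      have h5 : Real.log ‖F y‖ ≤ Real.log M := Real.log_le_log (hpos y hy) (hFM y hy)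
      have h6 : -Real.log c₁ ≤ |Real.log c₁| := neg_le_abs _
      have h7 : 0 ≤ |Real.log c₁| * Real.log M := by positivity
      nlinarith
  have hmem3 : closedBall z₀ r₃ ⊆ ball z₀ ρ₃ := closedBall_subset_ball hr₃3
  have hthree := three_circles (g := fun w => f w - f z₀) (z₀ := z₀) (r₁ := r₀ / 2) (r₂ := ρ₂) (r₃ := r₃)
    (M₁ := 2 * A₁) (M₃ := B' * (1 + Real.log M)) (by positivity) hr2.le hr₃2
    ((hf.sub_const _).mono (ball_subset_closedBall.trans hmem3)) ((hf.sub_const _).continuousOn.mono hmem3)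
    (by positivity) (by positivity) hsmall ?_ z hz ?_
  · rw [← hκ] at hthree
    have hz3 : z ∈ ball z₀ ρ₃ := closedBall_subset_ball h23 hz
    have hg : ‖f z - f z₀‖ ≤ B' * (1 + Real.log M) ^ κ := by
      refine hthree.trans ?_
      rw [Real.mul_rpow hB'p.le (by positivity), ← mul_assoc]
      refine mul_le_mul_of_nonneg_right ?_ (by positivity)
      calc (2 * A₁) ^ (1 - κ) * B' ^ κ ≤ B' ^ (1 - κ) * B' ^ κ := by
            refine mul_le_mul_of_nonneg_right ?_ (by positivity)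
            refine Real.rpow_le_rpow (by positivity) ?_ (by linarith)
            rw [hB']
            linarith
        _ = B' := by
            rw [← Real.rpow_add hB'p]
            norm_num
    have h5 := hR (1 + Real.log M) (by linarith)
    have h6 : -(f z).re ≤ -Real.log c₁ + (δ * (1 + Real.log M) + R) := by
      have h7 : -((f z - f z₀).re) ≤ ‖f z - f z₀‖ := (neg_le_abs _).trans (Complex.abs_re_le_norm _)
      rw [Complex.sub_re] at h7
      linarith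
    rw [norm_inv, hnorm z hz3, ← Real.exp_neg]
    calc Real.exp (-(f z).re) ≤ Real.exp (-Real.log c₁ + (δ * (1 + Real.log M) + R)) := Real.exp_le_exp.2 h6
      _ = c₁⁻¹ * Real.exp (δ + R) * M ^ δ := by
        rw [Real.exp_add, Real.exp_neg, Real.exp_log hc₁, Real.rpow_def_of_pos (by linarith), mul_assoc, ← Real.exp_add]
        congr 2
        ring
  · intro w hw
    refine (hbig w hw).trans ?_
    refine mul_le_mul_of_nonneg_right ?_ (by positivity)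
    rw [hB']
    linarith
  · have h8 : B' ≤ B' * (1 + Real.log M) := by nlinarith
    have h9 : 2 * A₁ ≤ B' := by rw [hB']; linarith
    linarith

end Pool.Agent.MP_291b24_nt.Sm
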