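import Pool.Agent.Lib.MP_291b24_nt.Sm.Lb
import Pool.Agent.Lib.MP_291b24_nt.Sm.AB

/-! Bound of `1 / L(s, χ_n)` -/

set_option autoImplicit false

open Complex Metric

namespace Pool.Agent.MP_291b24_nt.Sm

private theorem ic_eq {n : ℕ} [NeZero n] (s : ℂ) : Lchi n s = (chi n).LFunction s := by
  simp [Lchi, NeZero.ne n]

private theorem ic_val {n : ℕ} [NeZero n] (m : ℕ) :
    chi n (m : ZMod n) = ((jacobiSym (m : ℤ) n : ℤ) : ℂ) := by
  change ((jacobiSym (((m : ZMod n)).val : ℤ) n : ℤ) : ℂ) = _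
  rw [ZMod.val_natCast, Int.natCast_mod, ← jacobiSym.mod_left]

theorem Lchi_ne_zero (hG : GRH) {n : ℕ} (hn : Odd n) (hs : Squarefree n) {s : ℂ} (h : 1 / 2 < s.re) (h1 : s ≠ 1 ∨ n ≠ 1) :
    Lchi n s ≠ 0 := by
  rcases lt_or_ge s.re 1 with h2 | h2
  · exact hG n hn hs s h h2
  · have : NeZero n := ⟨hs.ne_zero⟩
    rw [ic_eq]
    refine DirichletCharacter.LFunction_ne_zero_of_one_le_re _ ?_ h2
    rcases h1 with h1 | h1
    · exact Or.inr h1
    · exact Or.inl (chi_ne_one h1 hn hs)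

private theorem ic_term (g : ℕ → ℂ) {s : ℂ} (hs : 1 < s.re) (m : ℕ) :
    LSeries.term g s m = g m * (m : ℂ) ^ (-s) := by
  rcases Nat.eq_zero_or_pos m with rfl | hm
  · have h0 : -s ≠ 0 := by
      rw [neg_ne_zero]
      rintro rfl
      simp at hs
      linarith
    rw [LSeries.term_zero, Nat.cast_zero, Complex.zero_cpow h0, mul_zero]
  · rw [LSeries.term_of_ne_zero hm.ne', Complex.cpow_neg, div_eq_mul_inv]

theorem hasSum_Lchi {n : ℕ} (hn : Odd n) {s : ℂ} (hs : 1 < s.re) :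
    HasSum (fun m : ℕ => ((jacobiSym (m : ℤ) n : ℤ) : ℂ) * (m : ℂ) ^ (-s)) (Lchi n s) := by
  have : NeZero n := ⟨hn.pos.ne'⟩
  have h1 := (DirichletCharacter.LSeriesSummable_of_one_lt_re (chi n) hs).LSeriesHasSum
  rw [← DirichletCharacter.LFunction_eq_LSeries _ hs, ← ic_eq] at h1
  refine HasSum.congr_fun h1 fun m => ?_
  rw [ic_term _ hs, ic_val]

theorem hasSum_mu_chi {n : ℕ} (hn : Odd n) {s : ℂ} (hs : 1 < s.re) :
    HasSum (fun m : ℕ => ((ArithmeticFunction.moebius m : ℤ) : ℂ) * ((jacobiSym (m : ℤ) n : ℤ) : ℂ) * (m : ℂ) ^ (-s))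
      (Lchi n s)⁻¹ := by
  have : NeZero n := ⟨hn.pos.ne'⟩
  have h1 := (DirichletCharacter.LSeriesSummable_mul (chi n)
    (ArithmeticFunction.LSeriesSummable_moebius_iff.mpr hs)).LSeriesHasSum
  have h2 := DirichletCharacter.LSeries.mul_mu_eq_one (chi n) hs
  rw [← DirichletCharacter.LFunction_eq_LSeries _ hs, ← ic_eq] at h2
  rw [eq_inv_of_mul_eq_one_right h2] at h1
  refine HasSum.congr_fun h1 fun m => ?_
  rw [ic_term _ hs, Pi.mul_apply, ic_val]
  ring

theorem norm_Lchi_le' {x : ℝ} (hx : 1 < x) : ∃ C : ℝ, 0 < C ∧ ∀ n : ℕ, Odd n → ∀ s : ℂ, x ≤ s.re →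
    ‖Lchi n s‖ ≤ C ∧ ‖(Lchi n s)⁻¹‖ ≤ C := by
  have hS : Summable fun m : ℕ => (m : ℝ) ^ (-x) := by
    simpa using Real.summable_nat_rpow.2 (by linarith : -x < -1)
  have h0 : 0 ≤ ∑' m : ℕ, (m : ℝ) ^ (-x) := tsum_nonneg fun m => Real.rpow_nonneg (Nat.cast_nonneg m) _
  refine ⟨(∑' m : ℕ, (m : ℝ) ^ (-x)) + 1, by linarith, fun n hn s hs => ?_⟩
  have hm : ∀ (m : ℕ) (z : ℂ), ‖z‖ ≤ 1 → ‖z * (m : ℂ) ^ (-s)‖ ≤ (m : ℝ) ^ (-x) := by
    intro m z hz
    rw [norm_mul]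
    rcases Nat.eq_zero_or_pos m with rfl | hm
    · have h1 : -s ≠ 0 := by
        rw [neg_ne_zero]
        rintro rfl
        simp at hs
        linarith
      rw [Nat.cast_zero, Complex.zero_cpow h1, norm_zero, mul_zero]
      exact Real.rpow_nonneg (Nat.cast_nonneg 0) _
    · rw [Complex.norm_natCast_cpow_of_pos hm]
      calc ‖z‖ * (m : ℝ) ^ (-s).re ≤ 1 * (m : ℝ) ^ (-s).re :=
            mul_le_mul_of_nonneg_right hz (Real.rpow_nonneg (Nat.cast_nonneg m) _)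
        _ ≤ (m : ℝ) ^ (-x) := by
            rw [one_mul]
            refine Real.rpow_le_rpow_of_exponent_le (by exact_mod_cast hm) ?_
            rw [Complex.neg_re]
            linarith
  have hJ : ∀ m : ℕ, ‖((jacobiSym (m : ℤ) n : ℤ) : ℂ)‖ ≤ 1 := by
    intro m
    rcases jacobiSym.trichotomy (m : ℤ) n with h | h | h <;> rw [h] <;> simp
  have hM : ∀ m : ℕ, ‖((ArithmeticFunction.moebius m : ℤ) : ℂ)‖ ≤ 1 := by
    intro m
    rw [Complex.norm_intCast]
    exact_mod_cast ArithmeticFunction.abs_moebius_le_one (n := m)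
  have hs1 : 1 < s.re := lt_of_lt_of_le hx hs
  constructor
  · have := (hasSum_Lchi hn hs1).norm_le_of_bounded hS.hasSum fun m => hm m _ (hJ m)
    linarith
  · have := (hasSum_mu_chi hn hs1).norm_le_of_bounded hS.hasSum fun m => hm m _ (by
      rw [norm_mul]
      exact mul_le_one₀ (hM m) (norm_nonneg _) (hJ m))
    linarith

/-- `AB` with `δ = 1` for `Lchi n` (`n ≠ 1`), `z₀ = 2 + i t`, `ρ₃ = 3/2`, `ρ₂ = 3/2 - r`, and for `(s - 1) ζ(s) / (s + 1)` in the case `n = 1`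
(`norm_sub_mul_zeta_le`); for `Re s ≥ 2`: `norm_Lchi_le'`. -/
theorem inv_Lchi (hG : GRH) {r : ℝ} (hr : 0 < r) (hr1 : r < 1 / 2) : ∃ A C : ℝ, 0 < A ∧ 0 < C ∧ ∀ n : ℕ, Odd n → Squarefree n →
    ∀ s : ℂ, 1 / 2 + r ≤ s.re → ‖(Lchi n s)⁻¹‖ ≤ C * (n * (|s.im| + 2)) ^ A := by
  obtain ⟨C₁, hC₁, hL⟩ := norm_Lchi_le' (x := 3 / 2) (by norm_num)
  obtain ⟨C₂, hC₂, hAB⟩ := AB (ρ₁ := 1 / 2) (ρ₂ := 3 / 2 - r) (ρ₃ := 3 / 2) (M₁ := C₁)
    (c₁ := (3 * C₁)⁻¹) (δ := 1) (by norm_num) (by linarith) (by linarith) hC₁ (by positivity)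
    one_pos
  have hmem : ∀ {z z₀ : ℂ} {ρ : ℝ}, z₀.re = 2 → z ∈ ball z₀ ρ →
      2 - ρ < z.re ∧ ‖z‖ < 2 + |z₀.im| + ρ := by
    intro z z₀ ρ h2 hz
    rw [mem_ball, dist_eq_norm] at hz
    have h3 := (Complex.abs_re_le_norm (z - z₀)).trans_lt hz
    rw [Complex.sub_re, h2, abs_lt] at h3
    refine ⟨by linarith [h3.1], ?_⟩
    have h4 : ‖z‖ ≤ ‖z - z₀‖ + ‖z₀‖ := by
      have := norm_add_le (z - z₀) z₀
      rwa [sub_add_cancel] at this
    have h5 := Complex.norm_le_abs_re_add_abs_im z₀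
    rw [h2, abs_of_pos (by norm_num : (0 : ℝ) < 2)] at h5
    linarith
  refine ⟨2, C₁ + 90 * C₂ + ‖(riemannZeta 1)⁻¹‖, by norm_num, by positivity, ?_⟩
  intro n hn hs s hre
  have hn1 : (1 : ℝ) ≤ n := by exact_mod_cast hn.pos
  have hB : (1 : ℝ) ≤ n * (|s.im| + 2) := by nlinarith [abs_nonneg s.im]
  have hB2 : (n * (|s.im| + 2) : ℝ) ≤ (n * (|s.im| + 2)) ^ (2 : ℝ) := by
    rw [Real.rpow_two]
    nlinarith
  have hB3 : (1 : ℝ) ≤ (n * (|s.im| + 2)) ^ (2 : ℝ) := hB.trans hB2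
  have hz0 : 0 ≤ ‖(riemannZeta 1)⁻¹‖ := norm_nonneg _
  -- the final comparison
  have fin1 : ∀ {u : ℝ}, u ≤ C₁ + 90 * C₂ + ‖(riemannZeta 1)⁻¹‖ →
      u ≤ (C₁ + 90 * C₂ + ‖(riemannZeta 1)⁻¹‖) * (n * (|s.im| + 2)) ^ (2 : ℝ) := by
    intro u hu
    refine hu.trans (le_mul_of_one_le_right (by positivity) hB3)
  rcases le_or_gt 2 s.re with h2 | h2
  · refine fin1 ?_
    have := (hL n hn s (by linarith)).2
    linarith
  set z₀ : ℂ := ⟨2, s.im⟩ with hz₀
  have hz₀re : z₀.re = 2 := rfl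
  have hz₀im : z₀.im = s.im := rfl
  have hsz : s ∈ closedBall z₀ (3 / 2 - r) := by
    rw [mem_closedBall, dist_eq_norm]
    have h3 : s - z₀ = ((s.re - 2 : ℝ) : ℂ) := by
      apply Complex.ext
      · simp [hz₀]
      · simp [hz₀]
    rw [h3, Complex.norm_real, Real.norm_eq_abs, abs_of_neg (by linarith)]
    linarith
  by_cases h1 : n = 1
  · subst h1
    by_cases hs1 : s = 1
    · refine fin1 ?_
      rw [Lchi_one, hs1]
      have := hC₁
      linarith
    -- the function `(z - 1) ζ(z) / (z + 1)`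
    set H : ℂ → ℂ := DirichletCharacter.LFunctionTrivChar₁ 1 with hH
    have hH1 : H 1 = 1 := by simp [hH]
    have hHz : ∀ z : ℂ, z ≠ 1 → H z = (z - 1) * riemannZeta z := by
      intro z hz
      rw [hH, DirichletCharacter.LFunctionTrivChar₁, Function.update_of_ne hz]
      rw [DirichletCharacter.LFunctionTrivChar, DirichletCharacter.LFunction_modOne_eq]
    have hHd : Differentiable ℂ H := DirichletCharacter.differentiable_LFunctionTrivChar₁ 1
    have hζ : ∀ z : ℂ, Lchi 1 z = riemannZeta z := fun z => congrFun Lchi_one z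
    have hadd : ∀ z : ℂ, 0 < z.re → 1 < ‖z + 1‖ := by
      intro z hz
      have h3 := Complex.abs_re_le_norm (z + 1)
      rw [Complex.add_re, Complex.one_re, abs_of_pos (by linarith)] at h3
      linarith
    have hdiv : ∀ z : ℂ, 0 < z.re → ‖z - 1‖ ≤ ‖z + 1‖ := by
      intro z hz
      rw [← sq_le_sq₀ (norm_nonneg _) (norm_nonneg _), Complex.sq_norm, Complex.sq_norm,
        Complex.normSq_apply, Complex.normSq_apply]
      simp only [Complex.sub_re, Complex.add_re, Complex.one_re, Complex.sub_im, Complex.add_im,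
        Complex.one_im]
      nlinarith
    have hM1 : (1 : ℝ) ≤ 51 * (|s.im| + 2) ^ 2 := by nlinarith [abs_nonneg s.im]
    have key := hAB (fun z => H z / (z + 1)) z₀ (51 * (|s.im| + 2) ^ 2) hM1 ?_ ?_ ?_ ?_ ?_ s hsz
    · rw [Real.rpow_one] at key
      have hs0 : 0 < s.re := by linarith
      have hne : s - 1 ≠ 0 := sub_ne_zero.2 hs1
      have hne2 : s + 1 ≠ 0 := fun h => by
        have := hadd s hs0
        rw [h, norm_zero] at this
        linarith
      have e1 : (Lchi 1 s)⁻¹ = (H s / (s + 1))⁻¹ * ((s - 1) / (s + 1)) := by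
        rw [hζ, hHz s hs1]
        by_cases h0 : riemannZeta s = 0
        · rw [h0]
          simp
        · field_simp
      have e2 : ‖(s - 1) / (s + 1)‖ ≤ 1 := by
        rw [norm_div]
        exact div_le_one_of_le₀ (hdiv s hs0) (norm_nonneg _)
      have e3 : ‖(Lchi 1 s)⁻¹‖ ≤ C₂ * (51 * (|s.im| + 2) ^ 2) := by
        rw [e1, norm_mul]
        calc ‖(H s / (s + 1))⁻¹‖ * ‖(s - 1) / (s + 1)‖
            ≤ (C₂ * (51 * (|s.im| + 2) ^ 2)) * 1 :=
              mul_le_mul key e2 (norm_nonneg _) (by positivity)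
          _ = C₂ * (51 * (|s.im| + 2) ^ 2) := mul_one _
      refine e3.trans ?_
      rw [Nat.cast_one, one_mul, Real.rpow_two]
      calc C₂ * (51 * (|s.im| + 2) ^ 2) = (51 * C₂) * (|s.im| + 2) ^ 2 := by ring
        _ ≤ (C₁ + 90 * C₂ + ‖(riemannZeta 1)⁻¹‖) * (|s.im| + 2) ^ 2 :=
            mul_le_mul_of_nonneg_right (by linarith) (by positivity)
    · refine DifferentiableOn.div hHd.differentiableOn (by fun_prop) fun z hz h => ?_
      have := hadd z (by linarith [(hmem hz₀re hz).1])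
      rw [h, norm_zero] at this
      linarith
    · intro z hz
      have h3 := (hmem hz₀re hz).1
      have h4 := hadd z (by linarith)
      refine div_ne_zero ?_ (fun h => by rw [h, norm_zero] at h4; linarith)
      by_cases hz1 : z = 1
      · rw [hz1, hH1]
        exact one_ne_zero
      · rw [hHz z hz1, ← hζ]
        exact mul_ne_zero (sub_ne_zero.2 hz1)
          (Lchi_ne_zero hG hn hs (by linarith) (Or.inl hz1))
    · intro z hz
      obtain ⟨h3, h4⟩ := hmem hz₀re hz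
      have h5 := hadd z (by linarith)
      have h6 : ‖H z‖ ≤ 10 * (‖z‖ + 1) ^ 2 := by
        by_cases hz1 : z = 1
        · rw [hz1, hH1, norm_one]
          norm_num
        · rw [hHz z hz1]
          exact norm_sub_mul_zeta_le z (by linarith)
      rw [norm_div]
      calc ‖H z‖ / ‖z + 1‖ ≤ ‖H z‖ / 1 :=
            div_le_div_of_nonneg_left (norm_nonneg _) one_pos h5.le
        _ ≤ 10 * (‖z‖ + 1) ^ 2 := by rw [div_one]; exact h6
        _ ≤ 51 * (|s.im| + 2) ^ 2 := by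
            rw [hz₀im] at h4
            have h7 : (‖z‖ + 1) ^ 2 ≤ (9 / 4 * (|s.im| + 2)) ^ 2 :=
              pow_le_pow_left₀ (by positivity) (by linarith [abs_nonneg s.im]) 2
            nlinarith [sq_nonneg (|s.im| + 2)]
    · intro z hz
      have h3 := (hmem hz₀re hz).1
      have hz1 : z ≠ 1 := by
        rintro rfl
        rw [Complex.one_re] at h3
        linarith
      have h4 := hadd z (by linarith)
      have h5 := hdiv z (by linarith)
      have h6 := (hL 1 hn z (by linarith)).1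
      rw [hζ] at h6
      change ‖H z / (z + 1)‖ ≤ C₁
      rw [hHz z hz1, norm_div, norm_mul, div_le_iff₀ (by linarith)]
      calc ‖z - 1‖ * ‖riemannZeta z‖ ≤ ‖z + 1‖ * C₁ :=
            mul_le_mul h5 h6 (norm_nonneg _) (norm_nonneg _)
        _ = C₁ * ‖z + 1‖ := mul_comm _ _
    · have hz1 : z₀ ≠ 1 := by
        intro h
        have := congrArg Complex.re h
        rw [hz₀re, Complex.one_re] at this
        norm_num at this
      have h3 := (hL 1 hn z₀ (by rw [hz₀re]; norm_num)).2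
      have h4 : Lchi 1 z₀ ≠ 0 := Lchi_ne_zero hG hn hs (by rw [hz₀re]; norm_num) (Or.inl hz1)
      rw [norm_inv] at h3
      have h5 : 0 < ‖Lchi 1 z₀‖ := norm_pos_iff.2 h4
      rw [inv_le_comm₀ h5 hC₁, hζ] at h3
      have h6 := hadd z₀ (by rw [hz₀re]; norm_num)
      have h7 : ‖z₀ + 1‖ ≤ 3 * ‖z₀ - 1‖ := by
        rw [← sq_le_sq₀ (norm_nonneg _) (by positivity), mul_pow, Complex.sq_norm, Complex.sq_norm,
          Complex.normSq_apply, Complex.normSq_apply]
        simp only [Complex.sub_re, Complex.add_re, Complex.one_re, Complex.sub_im, Complex.add_im,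
          Complex.one_im, hz₀re, hz₀im]
        nlinarith [sq_nonneg s.im]
      change (3 * C₁)⁻¹ ≤ ‖H z₀ / (z₀ + 1)‖
      rw [hHz z₀ hz1, norm_div, norm_mul, le_div_iff₀ (by linarith), mul_inv]
      calc (3 : ℝ)⁻¹ * C₁⁻¹ * ‖z₀ + 1‖ ≤ (3 : ℝ)⁻¹ * C₁⁻¹ * (3 * ‖z₀ - 1‖) :=
            mul_le_mul_of_nonneg_left h7 (by positivity)
        _ = ‖z₀ - 1‖ * C₁⁻¹ := by ring
        _ ≤ ‖z₀ - 1‖ * ‖riemannZeta z₀‖ := mul_le_mul_of_nonneg_left h3 (norm_nonneg _)
  · have hM1 : (1 : ℝ) ≤ 7 * (n * (|s.im| + 2)) := by linarith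
    have key := hAB (Lchi n) z₀ (7 * (n * (|s.im| + 2))) hM1 ?_ ?_ ?_ ?_ ?_ s hsz
    · rw [Real.rpow_one] at key
      refine key.trans ?_
      calc C₂ * (7 * (n * (|s.im| + 2))) = (7 * C₂) * (n * (|s.im| + 2)) := by ring
        _ ≤ (7 * C₂) * (n * (|s.im| + 2)) ^ (2 : ℝ) :=
            mul_le_mul_of_nonneg_left hB2 (by positivity)
        _ ≤ (C₁ + 90 * C₂ + ‖(riemannZeta 1)⁻¹‖) * (n * (|s.im| + 2)) ^ (2 : ℝ) :=
            mul_le_mul_of_nonneg_right (by linarith) (by linarith)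
    · have : NeZero n := ⟨hs.ne_zero⟩
      have e : Lchi n = (chi n).LFunction := funext fun z => ic_eq z
      rw [e]
      exact (DirichletCharacter.differentiable_LFunction (chi_ne_one h1 hn hs)).differentiableOn
    · intro z hz
      exact Lchi_ne_zero hG hn hs (by linarith [(hmem hz₀re hz).1]) (Or.inr h1)
    · intro z hz
      obtain ⟨h3, h4⟩ := hmem hz₀re hz
      have h5 := norm_Lchi_le_of_ne hn hs h1 z (by linarith)
      refine h5.trans ?_
      rw [div_le_iff₀ (by linarith), hz₀im] at *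
      have h6 : (n : ℝ) * ‖z‖ ≤ n * (2 + |s.im| + 3 / 2) :=
        mul_le_mul_of_nonneg_left h4.le (by linarith)
      have h7 : 7 * (n * (|s.im| + 2)) * (1 / 2) ≤ 7 * (n * (|s.im| + 2)) * z.re :=
        mul_le_mul_of_nonneg_left (by linarith) (by linarith)
      nlinarith [abs_nonneg s.im]
    · intro z hz
      exact (hL n hn z (by linarith [(hmem hz₀re hz).1])).1
    · have h3 := (hL n hn z₀ (by rw [hz₀re]; norm_num)).2
      have h4 : Lchi n z₀ ≠ 0 := Lchi_ne_zero hG hn hs (by rw [hz₀re]; norm_num) (Or.inr h1)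
      rw [norm_inv] at h3
      have h5 : 0 < ‖Lchi n z₀‖ := norm_pos_iff.2 h4
      rw [inv_le_comm₀ (by positivity) h5]
      refine h3.trans ?_
      linarith

end Pool.Agent.MP_291b24_nt.Sm
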