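import Mathlib

/-! Shift of a vertical line -/

set_option autoImplicit false

open Complex MeasureTheory

namespace Pool.Agent.MP_291b24_nt.Sm

open Filter Topology in
private theorem shift_gen {f : ℂ → ℂ} {σ₁ σ₂ : ℝ} {g : ℝ → ℝ} (h12 : σ₁ ≤ σ₂)
    (hf : DifferentiableOn ℂ f {s : ℂ | σ₁ ≤ s.re ∧ s.re ≤ σ₂})
    (hg : Integrable g) (hg0 : Tendsto g atTop (𝓝 0)) (hgn : ∀ t, g (-t) = g t)
    (hB : ∀ s : ℂ, σ₁ ≤ s.re → s.re ≤ σ₂ → ‖f s‖ ≤ g s.im) :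
    Integrable (fun t : ℝ => f (σ₁ + t * I)) ∧ Integrable (fun t : ℝ => f (σ₂ + t * I)) ∧
    ∫ t : ℝ, f (σ₁ + t * I) = ∫ t : ℝ, f (σ₂ + t * I) := by
  have hre : ∀ a b : ℝ, ((a : ℂ) + b * I).re = a := by intro a b; simp
  have him : ∀ a b : ℝ, ((a : ℂ) + b * I).im = b := by intro a b; simp
  have hint : ∀ σ : ℝ, σ₁ ≤ σ → σ ≤ σ₂ → Integrable (fun t : ℝ => f (σ + t * I)) := by
    intro σ h1 h2
    have hc : Continuous (fun t : ℝ => f (σ + t * I)) := by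
      refine hf.continuousOn.comp_continuous (by fun_prop) fun t => ?_
      change σ₁ ≤ (_ : ℂ).re ∧ (_ : ℂ).re ≤ σ₂
      rw [hre]
      exact ⟨h1, h2⟩
    refine hg.mono' hc.aestronglyMeasurable (ae_of_all _ fun t => ?_)
    have := hB (σ + t * I) (by rw [hre]; exact h1) (by rw [hre]; exact h2)
    rwa [him] at this
  have i1 := hint σ₁ le_rfl h12
  have i2 := hint σ₂ h12 le_rfl
  refine ⟨i1, i2, ?_⟩
  have hbox : ∀ T : ℝ, (∫ x in σ₁..σ₂, f (x + (-T : ℝ) * I)) - (∫ x in σ₁..σ₂, f (x + (T : ℝ) * I)) +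
      I • (∫ y in (-T)..T, f (σ₂ + y * I)) - I • (∫ y in (-T)..T, f (σ₁ + y * I)) = 0 := by
    intro T
    have h := Complex.integral_boundary_rect_eq_zero_of_differentiableOn f
      ((σ₁ : ℂ) + (-T : ℝ) * I) ((σ₂ : ℂ) + (T : ℝ) * I) (by
        refine hf.mono fun s hs => ?_
        rw [hre, hre, him, him, mem_reProdIm, Set.uIcc_of_le h12] at hs
        exact hs.1)
    rw [hre, hre, him, him] at h
    exact h
  have hz : ∀ s : ℝ → ℝ, (∀ T, g (s T) = g T) →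
      Tendsto (fun T : ℝ => ∫ x in σ₁..σ₂, f (x + (s T : ℝ) * I)) atTop (𝓝 0) := by
    intro s hs
    rw [tendsto_zero_iff_norm_tendsto_zero]
    have h1 : Tendsto (fun T : ℝ => g T * |σ₂ - σ₁|) atTop (𝓝 0) := by
      have := hg0.mul_const |σ₂ - σ₁|
      rwa [zero_mul] at this
    refine squeeze_zero (fun _ => norm_nonneg _) (fun T => ?_) h1
    refine intervalIntegral.norm_integral_le_of_norm_le_const fun x hx => ?_
    rw [Set.uIoc_of_le h12] at hx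
    have := hB (x + (s T : ℝ) * I) (by rw [hre]; exact hx.1.le) (by rw [hre]; exact hx.2)
    rwa [him, hs] at this
  have h1 := hz (fun T => -T) hgn
  have h2 := hz (fun T => T) fun _ => rfl
  have h3 := intervalIntegral_tendsto_integral i2 tendsto_neg_atTop_atBot tendsto_id
  have h4 := intervalIntegral_tendsto_integral i1 tendsto_neg_atTop_atBot tendsto_id
  have h5 := ((h1.sub h2).add (h3.const_smul I)).sub (h4.const_smul I)
  have h6 : (fun T : ℝ => (∫ x in σ₁..σ₂, f (x + (-T : ℝ) * I)) - (∫ x in σ₁..σ₂, f (x + (T : ℝ) * I)) +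
      I • (∫ y in (-T)..id T, f (σ₂ + y * I)) - I • (∫ y in (-T)..id T, f (σ₁ + y * I))) =
      fun _ => 0 := by
    funext T
    exact hbox T
  have h7 : Tendsto (fun _ : ℝ => (0 : ℂ)) atTop
      (𝓝 (0 - 0 + I • (∫ t : ℝ, f (σ₂ + t * I)) - I • (∫ t : ℝ, f (σ₁ + t * I)))) := by
    rw [← h6]
    exact h5
  have h8 := tendsto_nhds_unique h7 tendsto_const_nhds
  rw [sub_zero, zero_add, sub_eq_zero] at h8
  exact (smul_right_injective ℂ I_ne_zero h8).symm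

/-- `Complex.integral_boundary_rect_eq_zero_of_differentiableOn` on `[σ₁, σ₂] × [-T, T]`, `T → ∞`: the horizontal sides are
`≤ (σ₂ - σ₁) B / (1 + T²)`. -/
theorem shift_line {f : ℂ → ℂ} {σ₁ σ₂ B : ℝ} (h12 : σ₁ ≤ σ₂)
    (hf : DifferentiableOn ℂ f {s : ℂ | σ₁ ≤ s.re ∧ s.re ≤ σ₂})
    (hB : ∀ s : ℂ, σ₁ ≤ s.re → s.re ≤ σ₂ → ‖f s‖ * (1 + s.im ^ 2) ≤ B) :
    Integrable (fun t : ℝ => f (σ₁ + t * I)) ∧ Integrable (fun t : ℝ => f (σ₂ + t * I)) ∧
    ∫ t : ℝ, f (σ₁ + t * I) = ∫ t : ℝ, f (σ₂ + t * I) := by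
  refine shift_gen (g := fun t => B * (1 + t ^ 2)⁻¹) h12 hf (integrable_inv_one_add_sq.const_mul B)
    ?_ (fun t => by rw [neg_sq]) fun s h1 h2 => ?_
  · have h1 : Filter.Tendsto (fun t : ℝ => 1 + t ^ 2) Filter.atTop Filter.atTop :=
      Filter.tendsto_atTop_add_const_left _ _ (Filter.tendsto_pow_atTop (by norm_num))
    have h2 := h1.inv_tendsto_atTop.const_mul B
    rwa [mul_zero] at h2
  · have h3 : 0 < 1 + s.im ^ 2 := by positivity
    rw [← div_eq_mul_inv, le_div_iff₀ h3]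
    exact hB s h1 h2

/-- the same with the weaker decay `(1 + |Im s|)^(3/2)` -/
theorem shift_line' {f : ℂ → ℂ} {σ₁ σ₂ B : ℝ} (h12 : σ₁ ≤ σ₂)
    (hf : DifferentiableOn ℂ f {s : ℂ | σ₁ ≤ s.re ∧ s.re ≤ σ₂})
    (hB : ∀ s : ℂ, σ₁ ≤ s.re → s.re ≤ σ₂ → ‖f s‖ * (1 + |s.im|) ^ (3 / 2 : ℝ) ≤ B) :
    Integrable (fun t : ℝ => f (σ₁ + t * I)) ∧ Integrable (fun t : ℝ => f (σ₂ + t * I)) ∧
    ∫ t : ℝ, f (σ₁ + t * I) = ∫ t : ℝ, f (σ₂ + t * I) := by
  have hi : Integrable (fun t : ℝ => (1 + ‖t‖) ^ (-(3 / 2 : ℝ))) :=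
    integrable_one_add_norm (by rw [Module.finrank_self]; norm_num)
  refine shift_gen (g := fun t => B * (1 + ‖t‖) ^ (-(3 / 2 : ℝ))) h12 hf (hi.const_mul B)
    ?_ (fun t => by rw [norm_neg]) fun s h1 h2 => ?_
  · have h1 : Filter.Tendsto (fun t : ℝ => 1 + ‖t‖) Filter.atTop Filter.atTop :=
      Filter.tendsto_atTop_add_const_left _ _ Filter.tendsto_abs_atTop_atTop
    have h2 := ((tendsto_rpow_neg_atTop (by norm_num : (0 : ℝ) < 3 / 2)).comp h1).const_mul B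
    rwa [mul_zero] at h2
  · have h3 : 0 < 1 + ‖s.im‖ := by positivity
    rw [Real.rpow_neg h3.le, ← div_eq_mul_inv, le_div_iff₀ (Real.rpow_pos_of_pos h3 _)]
    exact hB s h1 h2

end Pool.Agent.MP_291b24_nt.Sm
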