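import Pool.Agent.Lib.MP_291b24_nt.Sm.WMel
import Pool.Agent.Lib.MP_291b24_nt.Sm.Shift
import Pool.Agent.Lib.MP_291b24_nt.Sm.InvChi

/-! The sum over `k` -/

set_option autoImplicit false

open Complex MeasureTheory

namespace Pool.Agent.MP_291b24_nt.Sm

private theorem a1a_gauss {c : ℝ} (hc : 0 < c) (a E : ℝ) : ∃ B : ℝ, 0 < B ∧ ∀ t : ℝ,
    Real.exp (-(c * (t - a) ^ 2)) * (|t| + 2) ^ E ≤ B := by
  obtain ⟨N, hN⟩ := exists_nat_ge E
  refine ⟨(N.factorial : ℝ) * Real.exp (2 + |a| + 1 / (4 * c)), by positivity, fun t => ?_⟩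
  have h1 : (|t| + 2) ^ E ≤ (|t| + 2) ^ (N : ℝ) :=
    Real.rpow_le_rpow_of_exponent_le (by have := abs_nonneg t; linarith) hN
  rw [Real.rpow_natCast] at h1
  have h2 : (|t| + 2) ^ N ≤ (N.factorial : ℝ) * Real.exp (|t| + 2) := by
    have h3 := Real.pow_div_factorial_le_exp (|t| + 2) (by positivity) N
    rwa [div_le_iff₀ (by positivity), mul_comm] at h3
  have h3 : |t| ≤ |t - a| + |a| := by
    calc |t| = |(t - a) + a| := by rw [sub_add_cancel]
      _ ≤ |t - a| + |a| := abs_add_le _ _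
  have h4 : |t - a| ≤ c * (t - a) ^ 2 + 1 / (4 * c) := by
    rw [← sq_abs (t - a)]
    have h5 : c * |t - a| ^ 2 + 1 / (4 * c) - |t - a| = c * (|t - a| - 1 / (2 * c)) ^ 2 := by
      field_simp
      ring
    have h6 : 0 ≤ c * (|t - a| - 1 / (2 * c)) ^ 2 := by positivity
    linarith
  calc Real.exp (-(c * (t - a) ^ 2)) * (|t| + 2) ^ E
      ≤ Real.exp (-(c * (t - a) ^ 2)) * ((N.factorial : ℝ) * Real.exp (|t| + 2)) :=
        mul_le_mul_of_nonneg_left (h1.trans h2) (Real.exp_pos _).le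
    _ = (N.factorial : ℝ) * Real.exp (-(c * (t - a) ^ 2) + (|t| + 2)) := by
        rw [Real.exp_add (-(c * (t - a) ^ 2)) (|t| + 2)]
        ring
    _ ≤ (N.factorial : ℝ) * Real.exp (2 + |a| + 1 / (4 * c)) := by
        refine mul_le_mul_of_nonneg_left (Real.exp_le_exp.2 (by linarith)) (by positivity)

private theorem a1a_decay {K : ℕ} (hK : 1 ≤ K) (E : ℝ) : ∃ B : ℝ, 0 < B ∧ ∀ s : ℂ,
    0 ≤ s.re → s.re ≤ 2 → ‖pM K s‖ * (|s.im| + 2) ^ E ≤ B := by
  have hK0 : (0 : ℝ) < K := by exact_mod_cast hK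
  obtain ⟨B, hB, h⟩ := a1a_gauss (c := 1 / (2 * K)) (by positivity) (2 * Real.pi * K) E
  refine ⟨(Real.sqrt (2 * Real.pi / K) + 1) * Real.exp (4 / (2 * K)) * B, by positivity,
    fun s hs0 hs2 => ?_⟩
  rw [norm_pM K hK]
  have h1 : (s.re ^ 2 - (s.im - 2 * Real.pi * K) ^ 2) / (2 * K) ≤
      4 / (2 * K) + -(1 / (2 * K) * (s.im - 2 * Real.pi * K) ^ 2) := by
    have h2 : s.re ^ 2 ≤ 4 := by nlinarith
    have h3 : (s.re ^ 2 - (s.im - 2 * Real.pi * K) ^ 2) / (2 * K) =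
      s.re ^ 2 / (2 * K) + -(1 / (2 * K) * (s.im - 2 * Real.pi * K) ^ 2) := by ring
    rw [h3]
    have h4 : s.re ^ 2 / (2 * K) ≤ 4 / (2 * K) := div_le_div_of_nonneg_right h2 (by positivity)
    linarith
  have h2 := Real.exp_le_exp.2 h1
  rw [Real.exp_add] at h2
  have hs := Real.sqrt_nonneg (2 * Real.pi / K)
  have hp : 0 ≤ (|s.im| + 2) ^ E := Real.rpow_nonneg (by positivity) _
  calc Real.sqrt (2 * Real.pi / K) * Real.exp ((s.re ^ 2 - (s.im - 2 * Real.pi * K) ^ 2) / (2 * K)) *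
        (|s.im| + 2) ^ E
      ≤ (Real.sqrt (2 * Real.pi / K) + 1) * (Real.exp (4 / (2 * K)) *
          Real.exp (-(1 / (2 * K) * (s.im - 2 * Real.pi * K) ^ 2))) * (|s.im| + 2) ^ E := by
        refine mul_le_mul_of_nonneg_right ?_ hp
        exact mul_le_mul (by linarith) h2 (Real.exp_pos _).le (by linarith)
    _ = (Real.sqrt (2 * Real.pi / K) + 1) * Real.exp (4 / (2 * K)) *
          (Real.exp (-(1 / (2 * K) * (s.im - 2 * Real.pi * K) ^ 2)) * (|s.im| + 2) ^ E) := by ring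
    _ ≤ _ := mul_le_mul_of_nonneg_left (h s.im) (by positivity)

private theorem a1a_pM_diff (K : ℕ) : Differentiable ℂ (pM K) := by
  unfold pM
  fun_prop

/-- the reciprocal without the singular value -/
private theorem a1a_recip (hG : GRH) {n : ℕ} (hn : Odd n) (hs : Squarefree n) : ∃ G : ℂ → ℂ,
    DifferentiableOn ℂ G {s : ℂ | 0 < s.re} ∧
      ∀ s : ℂ, 0 < s.re → s ≠ 1 / 2 → G s = (Lchi n (1 / 2 + s))⁻¹ := by
  by_cases h1 : n = 1
  · subst h1
    have hL : ∀ s : ℂ, s ≠ 1 →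
        DirichletCharacter.LFunctionTrivChar₁ 1 s = (s - 1) * Lchi 1 s := by
      intro s hs1
      rw [DirichletCharacter.LFunctionTrivChar₁, Function.update_of_ne hs1, Lchi_one]
      congr 1
      exact congrFun (DirichletCharacter.LFunction_modOne_eq) s
    refine ⟨fun s => (s - 1 / 2) / DirichletCharacter.LFunctionTrivChar₁ 1 (1 / 2 + s), ?_, ?_⟩
    · intro s hs0
      have hne : DirichletCharacter.LFunctionTrivChar₁ 1 (1 / 2 + s) ≠ 0 := by
        by_cases h2 : (1 / 2 + s) = 1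
        · rw [h2]
          exact DirichletCharacter.LFunctionTrivChar₁_apply_one_ne_zero 1
        · rw [hL _ h2]
          refine mul_ne_zero (sub_ne_zero.2 h2) ?_
          refine Lchi_ne_zero hG odd_one squarefree_one ?_ (Or.inl h2)
          have h3 : (0 : ℝ) < s.re := hs0
          rw [Complex.add_re]
          norm_num
          exact h3
      refine DifferentiableAt.differentiableWithinAt ?_
      refine DifferentiableAt.div (by fun_prop) ?_ hne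
      exact ((DirichletCharacter.differentiable_LFunctionTrivChar₁ 1) _).comp s (by fun_prop)
    · intro s hs0 hs1
      have h2 : (1 / 2 + s) ≠ 1 := by
        intro h
        apply hs1
        rw [← sub_eq_zero] at h ⊢
        rw [← h]
        ring
      change (s - 1 / 2) / DirichletCharacter.LFunctionTrivChar₁ 1 (1 / 2 + s) = _
      rw [hL _ h2]
      have h3 : (1 / 2 + s - 1 : ℂ) = s - 1 / 2 := by ring
      have h4 : s - 1 / 2 ≠ 0 := sub_ne_zero.2 hs1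
      rw [h3, div_mul_eq_div_div, div_self h4, one_div]
  · refine ⟨fun s => (Lchi n (1 / 2 + s))⁻¹, ?_, fun s _ _ => rfl⟩
    intro s hs0
    refine DifferentiableAt.differentiableWithinAt ?_
    have hn0 : n ≠ 0 := hs.ne_zero
    have : NeZero n := ⟨hn0⟩
    have e : Lchi n = (chi n).LFunction := by
      funext s; simp [Lchi, hn0]
    have hd : Differentiable ℂ (Lchi n) := by
      rw [e]
      exact DirichletCharacter.differentiable_LFunction (chi_ne_one h1 hn hs)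
    refine DifferentiableAt.inv ((hd _).comp s (by fun_prop)) ?_
    refine Lchi_ne_zero hG hn hs ?_ (Or.inr h1)
    have h3 : (0 : ℝ) < s.re := hs0
    rw [Complex.add_re]
    norm_num
    exact h3

private theorem a1a_bd (hG : GRH) {r : ℝ} (hr : 0 < r) (hr1 : r < 1 / 4) {K n : ℕ} (hK : 2 ≤ K)
    (hn : Odd n) (hs : Squarefree n) (E : ℝ) : ∃ B : ℝ, 0 < B ∧ ∀ s : ℂ, r ≤ s.re → s.re ≤ 2 →
    ‖pM K s‖ * ‖(Lchi n (1 / 2 + s))⁻¹‖ * (|s.im| + 2) ^ E ≤ B := by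
  obtain ⟨A, C, hA, hC, h⟩ := inv_Lchi hG hr (by linarith)
  obtain ⟨B, hB, hd⟩ := a1a_decay (K := K) (by omega) (A + E)
  refine ⟨C * (n : ℝ) ^ A * B + 1, by positivity, fun s h1 h2 => ?_⟩
  have h3 := h n hn hs (1 / 2 + s) (by
    rw [Complex.add_re]
    norm_num
    exact h1)
  have him : ((1 / 2 : ℂ) + s).im = s.im := by
    rw [Complex.add_im]
    norm_num
  rw [him, Real.mul_rpow (by positivity) (by positivity)] at h3
  have h4 := hd s (by linarith) h2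
  have h5 : 0 ≤ (|s.im| + 2) ^ E := Real.rpow_nonneg (by positivity) _
  have h6 : (|s.im| + 2) ^ A * (|s.im| + 2) ^ E = (|s.im| + 2) ^ (A + E) := by
    rw [Real.rpow_add (by positivity)]
  calc ‖pM K s‖ * ‖(Lchi n (1 / 2 + s))⁻¹‖ * (|s.im| + 2) ^ E
      ≤ ‖pM K s‖ * (C * ((n : ℝ) ^ A * (|s.im| + 2) ^ A)) * (|s.im| + 2) ^ E :=
        mul_le_mul_of_nonneg_right (mul_le_mul_of_nonneg_left h3 (norm_nonneg _)) h5
    _ = C * (n : ℝ) ^ A * (‖pM K s‖ * ((|s.im| + 2) ^ A * (|s.im| + 2) ^ E)) := by ring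
    _ = C * (n : ℝ) ^ A * (‖pM K s‖ * (|s.im| + 2) ^ (A + E)) := by rw [h6]
    _ ≤ C * (n : ℝ) ^ A * B := mul_le_mul_of_nonneg_left h4 (by positivity)
    _ ≤ _ := by linarith

private theorem a1a_inv_sq {x : ℝ} : 1 + x ^ 2 ≤ (|x| + 2) ^ (2 : ℝ) := by
  rw [Real.rpow_two]
  have := sq_abs x
  have h := abs_nonneg x
  nlinarith

private theorem a1a_line (σ y : ℝ) : ((σ : ℂ) + y * I).re = σ ∧ ((σ : ℂ) + y * I).im = y := by
  constructor <;> simp

theorem k_integrable (hG : GRH) {r : ℝ} (hr : 0 < r) (hr1 : r < 1 / 4) {K n : ℕ} (hK : 2 ≤ K) (hn : Odd n) (hs : Squarefree n) :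
    Integrable (fun y : ℝ => ‖pM K (r + y * I)‖ * ‖(Lchi n (1 / 2 + (r + y * I)))⁻¹‖ * (|y| + 2) ^ 3) := by
  obtain ⟨B, hB, h⟩ := a1a_bd hG hr hr1 hK hn hs 5
  have hcont : Continuous (fun y : ℝ => ‖pM K (r + y * I)‖ *
      ‖(Lchi n (1 / 2 + (r + y * I)))⁻¹‖ * (|y| + 2) ^ 3) := by
    refine Continuous.mul (Continuous.mul ?_ ?_) (by fun_prop)
    · exact ((a1a_pM_diff K).continuous.comp (by fun_prop)).norm
    · refine Continuous.norm ?_
      rw [continuous_iff_continuousAt]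
      intro y
      have hre : ((1 / 2 : ℂ) + (r + y * I)).re = 1 / 2 + r := by
        rw [Complex.add_re, (a1a_line r y).1]
        norm_num
      have hne : ((1 / 2 : ℂ) + (r + y * I)) ≠ 1 := by
        intro h0
        rw [h0, Complex.one_re] at hre
        linarith
      refine ContinuousAt.inv₀ ?_ ?_
      · exact ContinuousAt.comp (g := Lchi n) (f := fun y : ℝ => (1 / 2 : ℂ) + (r + y * I))
          (differentiableAt_Lchi hs hne).continuousAt (by fun_prop)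
      · refine Lchi_ne_zero hG hn hs ?_ (Or.inl hne)
        rw [hre]
        linarith
  refine (integrable_inv_one_add_sq.const_mul B).mono' hcont.aestronglyMeasurable
    (Filter.Eventually.of_forall fun y => ?_)
  have h1 := h (r + y * I) (by rw [(a1a_line r y).1]) (by rw [(a1a_line r y).1]; linarith)
  rw [(a1a_line r y).2] at h1
  have h2 : 0 ≤ ‖pM K (r + y * I)‖ * ‖(Lchi n (1 / 2 + (r + y * I)))⁻¹‖ := by positivity
  rw [Real.norm_of_nonneg (by positivity), ← div_eq_mul_inv, le_div_iff₀ (by positivity)]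
  have h3 : (|y| + 2) ^ (5 : ℝ) = (|y| + 2) ^ 3 * (|y| + 2) ^ (2 : ℝ) := by
    rw [Real.rpow_two, ← pow_add]
    norm_cast
  rw [h3, ← mul_assoc] at h1
  refine le_trans (mul_le_mul_of_nonneg_left a1a_inv_sq (by positivity)) h1

private theorem a1a_cpow {k : ℕ} (hk : 1 ≤ k) {Y : ℝ} (hY : 0 < Y) (s : ℂ) :
    (k : ℂ) ^ (-(1 / 2 + s)) * (Y : ℂ) ^ s =
      (((Real.sqrt k)⁻¹ : ℝ) : ℂ) * (((k / Y : ℝ)) : ℂ) ^ (-s) := by
  have hk0 : (0 : ℝ) < k := by exact_mod_cast hk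
  have hkY : (0 : ℝ) < k / Y := by positivity
  have h1 : (k : ℂ) = ((k : ℝ) : ℂ) := by norm_cast
  have h2 : ((Real.sqrt k)⁻¹ : ℝ) = Real.exp (-(1 / 2) * Real.log k) := by
    rw [Real.sqrt_eq_rpow, ← Real.rpow_neg hk0.le, Real.rpow_def_of_pos hk0]
    congr 1
    ring
  rw [h1, Complex.cpow_def_of_ne_zero (by exact_mod_cast hk0.ne'),
    Complex.cpow_def_of_ne_zero (by exact_mod_cast hY.ne'),
    Complex.cpow_def_of_ne_zero (by exact_mod_cast hkY.ne'), h2, Complex.ofReal_exp,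
    ← Complex.ofReal_log hk0.le, ← Complex.ofReal_log hY.le, ← Complex.ofReal_log hkY.le,
    Real.log_div hk0.ne' hY.ne', ← Complex.exp_add, ← Complex.exp_add]
  congr 1
  push_cast
  ring

private theorem a1a_fub {K n : ℕ} (hK : 2 ≤ K) (hn : Odd n) {Y : ℝ} (hY : 0 < Y) :
    ∑' k : ℕ, ((ArithmeticFunction.moebius k : ℤ) : ℂ) * ((jacobiSym (k : ℤ) n : ℤ) : ℂ) * (((Real.sqrt k)⁻¹ : ℝ) : ℂ) *
      ph K (Real.log (k / Y)) = (1 / (2 * Real.pi) : ℂ) * ∫ y : ℝ, pM K ((2 : ℝ) + y * I) *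
        (Y : ℂ) ^ ((2 : ℝ) + y * I) * (Lchi n (1 / 2 + ((2 : ℝ) + y * I)))⁻¹ := by
  obtain ⟨u, hu⟩ : ∃ u : ℝ → ℂ, u = fun y : ℝ => pM K ((2 : ℝ) + y * I) *
    (Y : ℂ) ^ ((2 : ℝ) + y * I) := ⟨_, rfl⟩
  have hu' : ∀ y : ℝ, u y = pM K ((2 : ℝ) + y * I) * (Y : ℂ) ^ ((2 : ℝ) + y * I) := fun y => by
    rw [hu]
  have hYC : (Y : ℂ) ≠ 0 := by exact_mod_cast hY.ne'
  have hucont : Continuous u := by
    rw [hu]
    refine Continuous.mul ((a1a_pM_diff K).continuous.comp (by fun_prop)) ?_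
    exact Continuous.const_cpow (by fun_prop) (Or.inl hYC)
  obtain ⟨B, hB, hd⟩ := a1a_decay (K := K) (by omega) 2
  have hunorm : ∀ y, ‖u y‖ ≤ B * Y ^ 2 * (1 + y ^ 2)⁻¹ := by
    intro y
    have h1 := hd ((2 : ℝ) + y * I) (by rw [(a1a_line 2 y).1]; norm_num)
      (by rw [(a1a_line 2 y).1])
    rw [(a1a_line 2 y).2] at h1
    have h2 : ‖(Y : ℂ) ^ ((2 : ℝ) + y * I)‖ = Y ^ 2 := by
      rw [Complex.norm_cpow_eq_rpow_re_of_pos hY, (a1a_line 2 y).1, Real.rpow_two]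
    have h3 : ‖pM K ((2 : ℝ) + y * I)‖ * (1 + y ^ 2) ≤ B :=
      le_trans (mul_le_mul_of_nonneg_left a1a_inv_sq (norm_nonneg _)) h1
    rw [hu', norm_mul, h2]
    have h4 : ‖pM K ((2 : ℝ) + y * I)‖ ≤ B * (1 + y ^ 2)⁻¹ := by
      rw [← div_eq_mul_inv, le_div_iff₀ (by positivity)]
      exact h3
    calc ‖pM K ((2 : ℝ) + y * I)‖ * Y ^ 2 ≤ (B * (1 + y ^ 2)⁻¹) * Y ^ 2 :=
          mul_le_mul_of_nonneg_right h4 (by positivity)
      _ = _ := by ring
  have huint : Integrable u :=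
    (integrable_inv_one_add_sq.const_mul (B * Y ^ 2)).mono' hucont.aestronglyMeasurable
      (Filter.Eventually.of_forall hunorm)
  obtain ⟨F, hF⟩ : ∃ F : ℕ → ℝ → ℂ, F = fun k (y : ℝ) => ((ArithmeticFunction.moebius k : ℤ) : ℂ) *
    ((jacobiSym (k : ℤ) n : ℤ) : ℂ) * (k : ℂ) ^ (-(1 / 2 + ((2 : ℝ) + y * I))) * u y := ⟨_, rfl⟩
  have hF' : ∀ (k : ℕ) (y : ℝ), F k y = ((ArithmeticFunction.moebius k : ℤ) : ℂ) *
    ((jacobiSym (k : ℤ) n : ℤ) : ℂ) * (k : ℂ) ^ (-(1 / 2 + ((2 : ℝ) + y * I))) * u y := fun k y => by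
    rw [hF]
  have hre : ∀ y : ℝ, ((1 / 2 : ℂ) + ((2 : ℝ) + y * I)).re = 5 / 2 := by
    intro y
    rw [Complex.add_re, (a1a_line 2 y).1]
    norm_num
  have hF0 : ∀ y, F 0 y = 0 := by
    intro y
    rw [hF']
    simp
  have hFnorm : ∀ k y, ‖F k y‖ ≤ (k : ℝ) ^ (-(5 / 2) : ℝ) * ‖u y‖ := by
    intro k y
    rcases Nat.eq_zero_or_pos k with hk | hk
    · subst hk
      rw [hF0, norm_zero]
      positivity
    · rw [hF', norm_mul, norm_mul, norm_mul]
      refine mul_le_mul_of_nonneg_right ?_ (norm_nonneg _)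
      have h1 : ‖((ArithmeticFunction.moebius k : ℤ) : ℂ)‖ ≤ 1 := by
        rw [Complex.norm_intCast]
        exact_mod_cast ArithmeticFunction.abs_moebius_le_one
      have h2 : ‖((jacobiSym (k : ℤ) n : ℤ) : ℂ)‖ ≤ 1 := by
        rw [Complex.norm_intCast]
        rcases jacobiSym.trichotomy (k : ℤ) n with h | h | h <;> rw [h] <;> norm_num
      have h3 : ‖(k : ℂ) ^ (-(1 / 2 + ((2 : ℝ) + y * I)))‖ = (k : ℝ) ^ (-(5 / 2) : ℝ) := by
        rw [Complex.norm_natCast_cpow_of_pos hk, Complex.neg_re, hre]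
      rw [h3]
      have h4 : 0 ≤ (k : ℝ) ^ (-(5 / 2) : ℝ) := by positivity
      calc ‖((ArithmeticFunction.moebius k : ℤ) : ℂ)‖ * ‖((jacobiSym (k : ℤ) n : ℤ) : ℂ)‖ *
            (k : ℝ) ^ (-(5 / 2) : ℝ) ≤ 1 * 1 * (k : ℝ) ^ (-(5 / 2) : ℝ) := by
            refine mul_le_mul_of_nonneg_right ?_ h4
            exact mul_le_mul h1 h2 (norm_nonneg _) zero_le_one
        _ = _ := by ring
  have hFint : ∀ k, Integrable (F k) := by
    intro k
    rcases Nat.eq_zero_or_pos k with hk | hk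
    · subst hk
      have h1 : F 0 = fun _ => 0 := funext hF0
      rw [h1]
      exact integrable_zero _ _ _
    · refine (huint.norm.const_mul ((k : ℝ) ^ (-(5 / 2) : ℝ))).mono' ?_
        (Filter.Eventually.of_forall (hFnorm k))
      refine Continuous.aestronglyMeasurable ?_
      have h1 : F k = fun y : ℝ => ((ArithmeticFunction.moebius k : ℤ) : ℂ) *
        ((jacobiSym (k : ℤ) n : ℤ) : ℂ) * (k : ℂ) ^ (-(1 / 2 + ((2 : ℝ) + y * I))) * u y :=
        funext (hF' k)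
      rw [h1]
      refine Continuous.mul (Continuous.mul continuous_const ?_) hucont
      refine Continuous.const_cpow (by fun_prop) (Or.inl ?_)
      exact_mod_cast hk.ne'
  have hFsum : Summable (fun k => ∫ y, ‖F k y‖) := by
    have h1 : Summable (fun k : ℕ => (k : ℝ) ^ (-(5 / 2) : ℝ) * ∫ y, ‖u y‖) :=
      (Real.summable_nat_rpow.2 (by norm_num)).mul_right _
    refine Summable.of_nonneg_of_le (fun k => integral_nonneg fun y => norm_nonneg _)
      (fun k => ?_) h1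
    rw [← integral_const_mul]
    exact integral_mono (hFint k).norm (huint.norm.const_mul _) (hFnorm k)
  have hHS := hasSum_integral_of_summable_integral_norm hFint hFsum
  have h1 : ∀ y, ∑' k, F k y = pM K ((2 : ℝ) + y * I) * (Y : ℂ) ^ ((2 : ℝ) + y * I) *
      (Lchi n (1 / 2 + ((2 : ℝ) + y * I)))⁻¹ := by
    intro y
    have h2 := (hasSum_mu_chi hn (s := 1 / 2 + ((2 : ℝ) + y * I)) (by rw [hre]; norm_num)).mul_right
      (u y)
    have h3 : (fun k => F k y) = fun m : ℕ => ((ArithmeticFunction.moebius m : ℤ) : ℂ) *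
        ((jacobiSym (m : ℤ) n : ℤ) : ℂ) * (m : ℂ) ^ (-(1 / 2 + ((2 : ℝ) + y * I))) * u y :=
      funext fun k => hF' k y
    rw [h3, h2.tsum_eq, hu', mul_comm]
  have h2 : ∀ k, ∫ y, F k y = (2 * Real.pi : ℂ) * (((ArithmeticFunction.moebius k : ℤ) : ℂ) *
      ((jacobiSym (k : ℤ) n : ℤ) : ℂ) * (((Real.sqrt k)⁻¹ : ℝ) : ℂ) * ph K (Real.log (k / Y))) := by
    intro k
    rcases Nat.eq_zero_or_pos k with hk | hk
    · subst hk
      have h3 : F 0 = fun _ => 0 := funext hF0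
      rw [h3, integral_zero]
      simp
    · have hk0 : (0 : ℝ) < k := by exact_mod_cast hk
      have h3 := ph_inv (K := K) (by omega) 2 (y := k / Y) (by positivity)
      rw [h3]
      have h4 : ∀ y, F k y = (((ArithmeticFunction.moebius k : ℤ) : ℂ) *
        ((jacobiSym (k : ℤ) n : ℤ) : ℂ) * (((Real.sqrt k)⁻¹ : ℝ) : ℂ)) *
          (pM K ((2 : ℝ) + y * I) * (((k / Y : ℝ)) : ℂ) ^ (-(((2 : ℝ) : ℂ) + y * I))) := by
        intro y
        have h5 := a1a_cpow hk hY (((2 : ℝ) : ℂ) + y * I)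
        rw [hF', hu']
        calc _ = ((ArithmeticFunction.moebius k : ℤ) : ℂ) * ((jacobiSym (k : ℤ) n : ℤ) : ℂ) *
              pM K ((2 : ℝ) + y * I) * ((k : ℂ) ^ (-(1 / 2 + (((2 : ℝ) : ℂ) + y * I))) *
                (Y : ℂ) ^ (((2 : ℝ) : ℂ) + y * I)) := by ring
          _ = _ := by
              rw [h5]
              ring
      rw [integral_congr_ae (Filter.Eventually.of_forall h4), integral_const_mul]
      have hpi : (2 * Real.pi : ℂ) ≠ 0 := by
        have := Real.pi_ne_zero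
        exact mul_ne_zero two_ne_zero (by exact_mod_cast this)
      have h6 : ∀ a b : ℂ, a * b = 2 * Real.pi * (a * (1 / (2 * Real.pi) * b)) := by
        intro a b
        field_simp
      exact h6 _ _
  have h3 : ∫ y, ∑' k, F k y = ∫ y : ℝ, pM K ((2 : ℝ) + y * I) * (Y : ℂ) ^ ((2 : ℝ) + y * I) *
      (Lchi n (1 / 2 + ((2 : ℝ) + y * I)))⁻¹ :=
    integral_congr_ae (Filter.Eventually.of_forall h1)
  rw [h3] at hHS
  have h4 := hHS.mul_left (1 / (2 * Real.pi) : ℂ)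
  have h5 : (fun k => (1 / (2 * Real.pi) : ℂ) * ∫ y, F k y) = fun k : ℕ =>
      ((ArithmeticFunction.moebius k : ℤ) : ℂ) *
      ((jacobiSym (k : ℤ) n : ℤ) : ℂ) * (((Real.sqrt k)⁻¹ : ℝ) : ℂ) * ph K (Real.log (k / Y)) := by
    funext k
    rw [h2]
    have hpi : (Real.pi : ℂ) ≠ 0 := by exact_mod_cast Real.pi_ne_zero
    rw [← mul_assoc]
    have h6 : (1 / (2 * Real.pi) : ℂ) * (2 * Real.pi) = 1 := by
      field_simp
    rw [h6, one_mul]
  rw [h5] at h4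
  exact h4.tsum_eq

/-- `ph_inv` with `σ = 2`, `hasSum_mu_chi`, Fubini; shift to the line `r` (`shift_line`, `inv_Lchi`, `norm_pM`: Gaussian decay) -/
theorem k_sum (hG : GRH) {r : ℝ} (hr : 0 < r) (hr1 : r < 1 / 4) {K n : ℕ} (hK : 2 ≤ K) (hn : Odd n) (hs : Squarefree n) {Y : ℝ} (hY : 0 < Y) :
    ∑' k : ℕ, ((ArithmeticFunction.moebius k : ℤ) : ℂ) * ((jacobiSym (k : ℤ) n : ℤ) : ℂ) * (((Real.sqrt k)⁻¹ : ℝ) : ℂ) *
      ph K (Real.log (k / Y)) = (1 / (2 * Real.pi) : ℂ) * ∫ y : ℝ, pM K (r + y * I) * (Y : ℂ) ^ (r + y * I) *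
        (Lchi n (1 / 2 + (r + y * I)))⁻¹ := by
  rw [a1a_fub hK hn hY]
  congr 1
  obtain ⟨G, hGd, hGe⟩ := a1a_recip hG hn hs
  obtain ⟨B, hB, hbd⟩ := a1a_bd hG hr hr1 hK hn hs 2
  have hYC : (Y : ℂ) ≠ 0 := by exact_mod_cast hY.ne'
  have hne : ∀ (σ y : ℝ), σ ≠ 1 / 2 → ((σ : ℂ) + y * I) ≠ 1 / 2 := by
    intro σ y hσ h
    have h1 := (a1a_line σ y).1
    rw [h] at h1
    apply hσ
    rw [← h1]
    norm_num
  obtain ⟨f, hf⟩ : ∃ f : ℂ → ℂ, f = fun s => pM K s * (Y : ℂ) ^ s * G s := ⟨_, rfl⟩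
  have hf' : ∀ s, f s = pM K s * (Y : ℂ) ^ s * G s := fun s => by rw [hf]
  have hdiff : DifferentiableOn ℂ f {s : ℂ | r ≤ s.re ∧ s.re ≤ 2} := by
    rw [hf]
    refine DifferentiableOn.mul (Differentiable.differentiableOn ?_) (hGd.mono ?_)
    · refine (a1a_pM_diff K).mul ?_
      exact Differentiable.const_cpow differentiable_id (Or.inl hYC)
    · intro s h
      exact lt_of_lt_of_le hr h.1
  have hnorm : ∀ s : ℂ, r ≤ s.re → s.re ≤ 2 → ‖f s‖ * (1 + s.im ^ 2) ≤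
      B * (1 + Y) ^ 2 + ‖f (1 / 2)‖ := by
    intro s h1 h2
    by_cases h3 : s = 1 / 2
    · subst h3
      have h4 : ((1 / 2 : ℂ)).im = 0 := by norm_num
      rw [h4]
      have h5 : 0 ≤ B * (1 + Y) ^ 2 := by positivity
      norm_num
      exact h5
    · have h4 := hbd s h1 h2
      have h5 : ‖(Y : ℂ) ^ s‖ ≤ (1 + Y) ^ 2 := by
        rw [Complex.norm_cpow_eq_rpow_re_of_pos hY]
        calc Y ^ s.re ≤ (1 + Y) ^ s.re := Real.rpow_le_rpow hY.le (by linarith) (by linarith)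
          _ ≤ (1 + Y) ^ (2 : ℝ) := Real.rpow_le_rpow_of_exponent_le (by linarith) h2
          _ = (1 + Y) ^ 2 := Real.rpow_two _
      rw [hf', hGe s (by linarith) h3, norm_mul, norm_mul]
      calc ‖pM K s‖ * ‖(Y : ℂ) ^ s‖ * ‖(Lchi n (1 / 2 + s))⁻¹‖ * (1 + s.im ^ 2)
          = (‖pM K s‖ * ‖(Lchi n (1 / 2 + s))⁻¹‖ * (1 + s.im ^ 2)) * ‖(Y : ℂ) ^ s‖ := by ring
        _ ≤ (‖pM K s‖ * ‖(Lchi n (1 / 2 + s))⁻¹‖ * (|s.im| + 2) ^ (2 : ℝ)) * (1 + Y) ^ 2 := by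
            refine mul_le_mul (mul_le_mul_of_nonneg_left a1a_inv_sq (by positivity)) h5
              (norm_nonneg _) (by positivity)
        _ ≤ B * (1 + Y) ^ 2 := mul_le_mul_of_nonneg_right h4 (by positivity)
        _ ≤ _ := by
            have := norm_nonneg (f (1 / 2))
            linarith
  obtain ⟨_, _, h3⟩ := shift_line (f := f) (σ₁ := r) (σ₂ := 2) (by linarith) hdiff hnorm
  have e1 : ∀ y : ℝ, f (((2 : ℝ) : ℂ) + y * I) = pM K ((2 : ℝ) + y * I) *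
      (Y : ℂ) ^ ((2 : ℝ) + y * I) * (Lchi n (1 / 2 + ((2 : ℝ) + y * I)))⁻¹ := by
    intro y
    rw [hf', hGe _ (by rw [(a1a_line 2 y).1]; norm_num) (hne 2 y (by norm_num))]
  have e2 : ∀ y : ℝ, f ((r : ℂ) + y * I) = pM K (r + y * I) *
      (Y : ℂ) ^ (r + y * I) * (Lchi n (1 / 2 + (r + y * I)))⁻¹ := by
    intro y
    rw [hf', hGe _ (by rw [(a1a_line r y).1]; exact hr) (hne r y (by linarith))]
  rw [← integral_congr_ae (Filter.Eventually.of_forall e1),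
    ← integral_congr_ae (Filter.Eventually.of_forall e2)]
  exact h3.symm

end Pool.Agent.MP_291b24_nt.Sm
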