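import Pool.Agent.Lib.MP_291b24_nt.Sm.WMel
import Pool.Agent.Lib.MP_291b24_nt.Sm.Shift
import Pool.Agent.Lib.MP_291b24_nt.Sm.InvChi

/-! The sum over `m`, `l` -/

set_option autoImplicit false

open Complex MeasureTheory

namespace Pool.Agent.MP_291b24_nt.Sm

private theorem ml_cpow {r : ℝ} (hr : 0 < r) (w : ℂ) : (r : ℂ) ^ w = cexp (Real.log r * w) := by
  rw [cpow_def_of_ne_zero (by exact_mod_cast hr.ne'), Complex.ofReal_log hr.le]

private theorem ml_lin (σ t : ℝ) : ((σ : ℂ) + t * I).re = σ ∧ ((σ : ℂ) + t * I).im = t := by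
  constructor <;> simp

/-- polynomials against the exponential decay -/
private theorem ml_dec {c : ℝ} (hc : 0 < c) (t : ℝ) :
    (1 + |t|) ^ 4 * Real.exp (-(c * |t|)) ≤ Real.exp c * (24 / c ^ 4) := by
  have h1 := Real.pow_div_factorial_le_exp (c * (1 + |t|)) (by positivity) 4
  have h2 : ((4 : ℕ).factorial : ℝ) = 24 := by norm_num [Nat.factorial]
  rw [h2, mul_pow] at h1
  have h3 : Real.exp (-(c * |t|)) = Real.exp c * (Real.exp (c * (1 + |t|)))⁻¹ := by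
    rw [← Real.exp_neg, ← Real.exp_add]
    congr 1
    ring
  rw [h3]
  have h4 : (1 + |t|) ^ 4 ≤ 24 / c ^ 4 * Real.exp (c * (1 + |t|)) := by
    have h5 : (1 + |t|) ^ 4 = 24 / c ^ 4 * (c ^ 4 * (1 + |t|) ^ 4 / 24) := by
      field_simp
    rw [h5]
    exact mul_le_mul_of_nonneg_left h1 (by positivity)
  calc (1 + |t|) ^ 4 * (Real.exp c * (Real.exp (c * (1 + |t|)))⁻¹)
      ≤ 24 / c ^ 4 * Real.exp (c * (1 + |t|)) * (Real.exp c * (Real.exp (c * (1 + |t|)))⁻¹) :=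
        mul_le_mul_of_nonneg_right h4 (by positivity)
    _ = Real.exp c * (24 / c ^ 4) * (Real.exp (c * (1 + |t|)) * (Real.exp (c * (1 + |t|)))⁻¹) := by
        ring
    _ = Real.exp c * (24 / c ^ 4) := by rw [mul_inv_cancel₀ (Real.exp_pos _).ne', mul_one]

/-- the coefficient of `m` -/
private noncomputable def mlA (n : ℕ) (z s : ℂ) (m : ℕ) : ℂ :=
  ((jacobiSym (m : ℤ) n : ℤ) : ℂ) * (m : ℂ) ^ (-(1 / 2 + z + 2 * s))

/-- the coefficient of `l` -/
private noncomputable def mlB (s : ℂ) (l : ℕ) : ℂ := ((hw l : ℤ) : ℂ) * (l : ℂ) ^ (-(2 * s))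

/-- the remaining factor -/
private noncomputable def mlG (K n : ℕ) (X : ℝ) (s : ℂ) : ℂ :=
  wM K s * (X : ℂ) ^ s * (n : ℂ) ^ (-s)

private theorem ml_norm_pow {m : ℕ} {w w' : ℂ} (h : w.re = w'.re) (hw : w.re ≠ 0) :
    ‖(m : ℂ) ^ w‖ = ‖(m : ℂ) ^ w'‖ := by
  rcases Nat.eq_zero_or_pos m with rfl | hm
  · have h1 : w ≠ 0 := by
      rintro rfl
      exact hw rfl
    have h2 : w' ≠ 0 := by
      rintro rfl
      rw [h] at hw
      exact hw rfl
    rw [Nat.cast_zero, zero_cpow h1, zero_cpow h2]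
  · rw [norm_natCast_cpow_of_pos hm, norm_natCast_cpow_of_pos hm, h]

private theorem ml_normA (n : ℕ) {z : ℂ} (hz : 0 < z.re) (t : ℝ) (m : ℕ) :
    ‖mlA n z ((2 : ℝ) + t * I) m‖ = ‖mlA n z ((2 : ℝ) + (0 : ℝ) * I) m‖ := by
  unfold mlA
  rw [norm_mul, norm_mul]
  congr 1
  refine ml_norm_pow ?_ ?_
  · simp
  · simp
    linarith

private theorem ml_normB (t : ℝ) (l : ℕ) :
    ‖mlB ((2 : ℝ) + t * I) l‖ = ‖mlB ((2 : ℝ) + (0 : ℝ) * I) l‖ := by
  unfold mlB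
  rw [norm_mul, norm_mul]
  congr 1
  refine ml_norm_pow ?_ ?_
  · simp
  · simp

private theorem ml_contA (n : ℕ) {z : ℂ} (hz : 0 < z.re) (m : ℕ) :
    Continuous fun t : ℝ => mlA n z ((2 : ℝ) + t * I) m := by
  unfold mlA
  refine continuous_const.mul (Continuous.const_cpow (by fun_prop) (Or.inr fun t h => ?_))
  have h1 := congrArg Complex.re h
  simp at h1
  linarith

private theorem ml_contB (l : ℕ) : Continuous fun t : ℝ => mlB ((2 : ℝ) + t * I) l := by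
  unfold mlB
  refine continuous_const.mul (Continuous.const_cpow (by fun_prop) (Or.inr fun t h => ?_))
  have h1 := congrArg Complex.re h
  simp at h1

private theorem ml_contG {K n : ℕ} (hK : 2 ≤ K) (hn : n ≠ 0) {X : ℝ} (hX : 0 < X) :
    Continuous fun t : ℝ => mlG K n X ((2 : ℝ) + t * I) := by
  unfold mlG
  have h1 : Continuous fun t : ℝ => wM K ((2 : ℝ) + t * I) := by
    refine (differentiableOn_wM (by omega : 1 ≤ K)).continuousOn.comp_continuous (by fun_prop)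
      fun t => ?_
    change 0 < (((2 : ℝ) : ℂ) + t * I).re
    rw [(ml_lin 2 t).1]
    norm_num
  refine (h1.mul (Continuous.const_cpow (by fun_prop) (Or.inl (by exact_mod_cast hX.ne')))).mul
    (Continuous.const_cpow (by fun_prop) (Or.inl (by exact_mod_cast hn)))

private theorem ml_intG {K n : ℕ} (hK : 2 ≤ K) (hn : n ≠ 0) {X : ℝ} (hX : 0 < X) :
    Integrable fun t : ℝ => mlG K n X ((2 : ℝ) + t * I) := by
  obtain ⟨c, C, hc, hC, hd⟩ := norm_wM_decay hK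
  have hi : Integrable fun t : ℝ => C * X ^ (2 : ℝ) * Real.exp c * (24 / c ^ 4) *
      (1 + t ^ 2)⁻¹ := integrable_inv_one_add_sq.const_mul _
  refine hi.mono' (ml_contG hK hn hX).aestronglyMeasurable (ae_of_all _ fun t => ?_)
  obtain ⟨h1, h2⟩ := ml_lin 2 t
  have h3 := hd ((2 : ℝ) + t * I) (by rw [h1]; norm_num) (by rw [h1])
  rw [h2] at h3
  unfold mlG
  rw [norm_mul, norm_mul, norm_cpow_eq_rpow_re_of_pos hX, h1,
    norm_natCast_cpow_of_pos (Nat.pos_of_ne_zero hn)]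
  have h4 : (n : ℝ) ^ (-(((2 : ℝ) : ℂ) + t * I)).re ≤ 1 := by
    rw [neg_re, h1]
    exact Real.rpow_le_one_of_one_le_of_nonpos (by exact_mod_cast Nat.pos_of_ne_zero hn)
      (by norm_num)
  have h5 := ml_dec hc t
  have h6 : Real.exp (-(c * |t|)) ≤ Real.exp c * (24 / c ^ 4) * (1 + t ^ 2)⁻¹ := by
    have h7 : 0 < 1 + t ^ 2 := by positivity
    rw [← div_eq_mul_inv, le_div_iff₀ h7]
    refine le_trans ?_ h5
    rw [mul_comm]
    refine mul_le_mul_of_nonneg_right ?_ (Real.exp_pos _).le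
    have h8 : 1 + t ^ 2 ≤ (1 + |t|) ^ 2 := by
      have := sq_abs t
      nlinarith [abs_nonneg t]
    have h9 : (1 + |t|) ^ 2 ≤ (1 + |t|) ^ 4 :=
      pow_le_pow_right₀ (by linarith [abs_nonneg t]) (by norm_num)
    exact h8.trans h9
  calc ‖wM K (((2 : ℝ) : ℂ) + t * I)‖ * X ^ (2 : ℝ) * (n : ℝ) ^ (-(((2 : ℝ) : ℂ) + t * I)).re
      ≤ C * Real.exp (-(c * |t|)) * X ^ (2 : ℝ) * 1 := by gcongr
    _ ≤ C * (Real.exp c * (24 / c ^ 4) * (1 + t ^ 2)⁻¹) * X ^ (2 : ℝ) * 1 := by gcongr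
    _ = _ := by ring

/-- one term -/
private theorem ml_term {K n : ℕ} (hK : 2 ≤ K) (hn : n ≠ 0) {z : ℂ} (hz : 0 < z.re) {X : ℝ}
    (hX : 0 < X) (q : ℕ × ℕ) :
    ((jacobiSym (q.1 : ℤ) n : ℤ) : ℂ) * (q.1 : ℂ) ^ (-(1 / 2 + z)) * ((hw q.2 : ℤ) : ℂ) *
      wk K ((n : ℝ) * (q.1 : ℝ) ^ 2 * (q.2 : ℝ) ^ 2 / X) = (1 / (2 * Real.pi) : ℂ) *
      ∫ t : ℝ, mlA n z ((2 : ℝ) + t * I) q.1 * mlB ((2 : ℝ) + t * I) q.2 *
        mlG K n X ((2 : ℝ) + t * I) := by
  have hz0 : ((0 : ℕ) : ℂ) = 0 := Nat.cast_zero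
  rcases Nat.eq_zero_or_pos q.1 with h | h
  · have h1 : -(1 / 2 + z) ≠ 0 := by
      intro h0
      have := congrArg Complex.re h0
      simp at this
      linarith
    have h2 : ∀ t : ℝ, mlA n z ((2 : ℝ) + t * I) q.1 = 0 := by
      intro t
      unfold mlA
      rw [h, hz0, zero_cpow, mul_zero]
      intro h0
      have := congrArg Complex.re h0
      simp at this
      linarith
    simp only [h2, zero_mul, integral_zero, mul_zero]
    rw [h, hz0, zero_cpow h1, mul_zero, zero_mul, zero_mul]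
  rcases Nat.eq_zero_or_pos q.2 with h' | h'
  · have h1 : hw q.2 = 0 := by
      rw [h']
      rfl
    have h2 : ∀ t : ℝ, mlB ((2 : ℝ) + t * I) q.2 = 0 := by
      intro t
      unfold mlB
      rw [h1, Int.cast_zero, zero_mul]
    simp only [h2, mul_zero, zero_mul, integral_zero]
    rw [h1, Int.cast_zero, mul_zero, zero_mul]
  have hn' : (0 : ℝ) < n := by exact_mod_cast Nat.pos_of_ne_zero hn
  have hq1 : (0 : ℝ) < q.1 := by exact_mod_cast h
  have hq2 : (0 : ℝ) < q.2 := by exact_mod_cast h'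
  have hy : 0 < (n : ℝ) * (q.1 : ℝ) ^ 2 * (q.2 : ℝ) ^ 2 / X := by positivity
  rw [wk_inv hK (by norm_num : (0 : ℝ) < 2) le_rfl hy, mul_left_comm, ← integral_const_mul]
  congr 2
  funext t
  have hlog : Real.log ((n : ℝ) * (q.1 : ℝ) ^ 2 * (q.2 : ℝ) ^ 2 / X) =
      Real.log n + 2 * Real.log q.1 + 2 * Real.log q.2 - Real.log X := by
    rw [Real.log_div (by positivity) hX.ne', Real.log_mul (by positivity) (by positivity),
      Real.log_mul (by positivity) (by positivity), Real.log_pow, Real.log_pow]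
    push_cast
    ring
  unfold mlA mlB mlG
  obtain ⟨s, hs⟩ : ∃ s : ℂ, s = (2 : ℝ) + t * I := ⟨_, rfl⟩
  rw [← hs]
  have c1 : (n : ℂ) ^ (-s) = cexp (Real.log n * (-s)) := by
    rw [← ml_cpow hn', Complex.ofReal_natCast]
  have c2 : (q.1 : ℂ) ^ (-(1 / 2 + z)) = cexp (Real.log q.1 * (-(1 / 2 + z))) := by
    rw [← ml_cpow hq1, Complex.ofReal_natCast]
  have c3 : (q.1 : ℂ) ^ (-(1 / 2 + z + 2 * s)) =
      cexp (Real.log q.1 * (-(1 / 2 + z + 2 * s))) := by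
    rw [← ml_cpow hq1, Complex.ofReal_natCast]
  have c4 : (q.2 : ℂ) ^ (-(2 * s)) = cexp (Real.log q.2 * (-(2 * s))) := by
    rw [← ml_cpow hq2, Complex.ofReal_natCast]
  rw [ml_cpow hy, hlog, ml_cpow hX, c1, c2, c3, c4]
  have key : cexp (Real.log q.1 * (-(1 / 2 + z))) *
      cexp (((Real.log n + 2 * Real.log q.1 + 2 * Real.log q.2 - Real.log X : ℝ) : ℂ) * (-s)) =
      cexp (Real.log q.1 * (-(1 / 2 + z + 2 * s))) * cexp (Real.log q.2 * (-(2 * s))) *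
        cexp (Real.log X * s) * cexp (Real.log n * (-s)) := by
    rw [← Complex.exp_add, ← Complex.exp_add, ← Complex.exp_add, ← Complex.exp_add]
    congr 1
    push_cast
    ring
  linear_combination ((jacobiSym (q.1 : ℤ) n : ℤ) : ℂ) * ((hw q.2 : ℤ) : ℂ) * wM K s * key

/-- the sum on the line `2` -/
private theorem ml_two {K n : ℕ} (hK : 2 ≤ K) (hn : Odd n) {z : ℂ} (hz : 0 < z.re) {X : ℝ}
    (hX : 0 < X) :
    ∑' q : ℕ × ℕ, ((jacobiSym (q.1 : ℤ) n : ℤ) : ℂ) * (q.1 : ℂ) ^ (-(1 / 2 + z)) *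
      ((hw q.2 : ℤ) : ℂ) * wk K ((n : ℝ) * (q.1 : ℝ) ^ 2 * (q.2 : ℝ) ^ 2 / X) =
      (1 / (2 * Real.pi) : ℂ) * ∫ t : ℝ, wM K ((2 : ℝ) + t * I) *
        (X : ℂ) ^ (((2 : ℝ) : ℂ) + t * I) * (n : ℂ) ^ (-(((2 : ℝ) : ℂ) + t * I)) *
        HH (2 * ((2 : ℝ) + t * I)) * Lchi n (1 / 2 + z + 2 * ((2 : ℝ) + t * I)) := by
  have hn0 : n ≠ 0 := by
    rintro rfl
    simp at hn
  simp only [ml_term hK hn0 hz hX]
  rw [tsum_mul_left]
  congr 1
  have hsA : ∀ t : ℝ, HasSum (mlA n z ((2 : ℝ) + t * I))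
      (Lchi n (1 / 2 + z + 2 * ((2 : ℝ) + t * I))) := fun t => by
    refine hasSum_Lchi hn ?_
    simp
    linarith
  have hsB : ∀ t : ℝ, HasSum (mlB ((2 : ℝ) + t * I)) (HH (2 * ((2 : ℝ) + t * I))) := fun t => by
    refine hasSum_HH ?_
    simp
    norm_num
  have hsum : Summable fun q : ℕ × ℕ => ‖mlA n z ((2 : ℝ) + (0 : ℝ) * I) q.1‖ *
      ‖mlB ((2 : ℝ) + (0 : ℝ) * I) q.2‖ :=
    (hsA 0).summable.norm.mul_of_nonneg (hsB 0).summable.norm (fun _ => norm_nonneg _)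
      (fun _ => norm_nonneg _)
  have hnorm : ∀ (q : ℕ × ℕ) (t : ℝ), ‖mlA n z ((2 : ℝ) + t * I) q.1 *
      mlB ((2 : ℝ) + t * I) q.2 * mlG K n X ((2 : ℝ) + t * I)‖ =
      ‖mlA n z ((2 : ℝ) + (0 : ℝ) * I) q.1‖ * ‖mlB ((2 : ℝ) + (0 : ℝ) * I) q.2‖ *
        ‖mlG K n X ((2 : ℝ) + t * I)‖ := fun q t => by
    rw [norm_mul, norm_mul, ml_normA n hz t, ml_normB t]
  have hG := ml_intG hK hn0 hX
  have h1 : ∀ q : ℕ × ℕ, Integrable fun t : ℝ => mlA n z ((2 : ℝ) + t * I) q.1 *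
      mlB ((2 : ℝ) + t * I) q.2 * mlG K n X ((2 : ℝ) + t * I) := by
    intro q
    refine (hG.norm.const_mul (‖mlA n z ((2 : ℝ) + (0 : ℝ) * I) q.1‖ *
      ‖mlB ((2 : ℝ) + (0 : ℝ) * I) q.2‖)).mono'
      (((ml_contA n hz q.1).mul (ml_contB q.2)).mul (ml_contG hK hn0 hX)).aestronglyMeasurable
      (ae_of_all _ fun t => ?_)
    exact (hnorm q t).le
  have h2 : Summable fun q : ℕ × ℕ => ∫ t : ℝ, ‖mlA n z ((2 : ℝ) + t * I) q.1 *
      mlB ((2 : ℝ) + t * I) q.2 * mlG K n X ((2 : ℝ) + t * I)‖ := by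
    simp only [hnorm, integral_const_mul]
    exact hsum.mul_right _
  have h3 := (hasSum_integral_of_summable_integral_norm h1 h2).tsum_eq
  rw [h3]
  congr 1
  funext t
  rw [tsum_mul_right, ← tsum_mul_tsum_of_summable_norm (hsA t).summable.norm
    (hsB t).summable.norm, (hsA t).tsum_eq, (hsB t).tsum_eq]
  unfold mlG
  ring

/-- `wk_inv` with `σ = 2`, `hasSum_Lchi`, `hasSum_HH`, Fubini; shift to the line `σ` (`shift_line`, `norm_wM_decay`, `norm_HH_le`; for `n ≠ 1` `norm_Lchi_le_of_ne`,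
for `n = 1` the argument of `ζ` has real part `> 1`). -/
theorem ml_sum {K n : ℕ} (hK : 2 ≤ K) (hn : Odd n) (hs : Squarefree n) {z : ℂ} (hz : 0 < z.re) (hz1 : z.re < 1 / 4) {X : ℝ} (hX : 0 < X)
    {σ : ℝ} (h0 : 0 < σ) (h2 : σ ≤ 2) (h1 : n = 1 → 1 / 2 < z.re + 2 * σ) :
    ∑' q : ℕ × ℕ, ((jacobiSym (q.1 : ℤ) n : ℤ) : ℂ) * (q.1 : ℂ) ^ (-(1 / 2 + z)) * ((hw q.2 : ℤ) : ℂ) *
      wk K ((n : ℝ) * (q.1 : ℝ) ^ 2 * (q.2 : ℝ) ^ 2 / X) = (1 / (2 * Real.pi) : ℂ) * ∫ t : ℝ, wM K (σ + t * I) *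
        (X : ℂ) ^ (σ + t * I) * (n : ℂ) ^ (-(σ + t * I)) * HH (2 * (σ + t * I)) * Lchi n (1 / 2 + z + 2 * (σ + t * I)) := by
  rw [ml_two hK hn hz hX]
  congr 1
  have hn0 : n ≠ 0 := hs.ne_zero
  have hn1 : (1 : ℝ) ≤ n := by exact_mod_cast Nat.pos_of_ne_zero hn0
  have hX0 : (X : ℂ) ≠ 0 := by exact_mod_cast hX.ne'
  have hnC : (n : ℂ) ≠ 0 := by exact_mod_cast hn0
  have hre : ∀ s : ℂ, (1 / 2 + z + 2 * s).re = 1 / 2 + z.re + 2 * s.re := fun s => by simp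
  let f : ℂ → ℂ := fun s => wM K s * (X : ℂ) ^ s * (n : ℂ) ^ (-s) * HH (2 * s) *
    Lchi n (1 / 2 + z + 2 * s)
  -- differentiability
  have hdiff : DifferentiableOn ℂ f {s : ℂ | σ ≤ s.re ∧ s.re ≤ 2} := by
    have d1 : DifferentiableOn ℂ (wM K) {s : ℂ | σ ≤ s.re ∧ s.re ≤ 2} :=
      (differentiableOn_wM (by omega)).mono fun s hs => lt_of_lt_of_le h0 hs.1
    have d2 : Differentiable ℂ fun s : ℂ => (X : ℂ) ^ s :=
      differentiable_id.const_cpow (Or.inl hX0)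
    have d3 : Differentiable ℂ fun s : ℂ => (n : ℂ) ^ (-s) :=
      differentiable_id.neg.const_cpow (Or.inl hnC)
    have d4 : Differentiable ℂ fun s : ℂ => HH (2 * s) :=
      differentiable_HH.comp (differentiable_id.const_mul 2)
    have d5 : DifferentiableOn ℂ (fun s : ℂ => Lchi n (1 / 2 + z + 2 * s))
        {s : ℂ | σ ≤ s.re ∧ s.re ≤ 2} := by
      intro s hs'
      refine DifferentiableAt.differentiableWithinAt ?_
      have hc : DifferentiableAt ℂ (fun s : ℂ => 1 / 2 + z + 2 * s) s := by fun_prop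
      have hd : DifferentiableAt ℂ (Lchi n) (1 / 2 + z + 2 * s) := by
        by_cases h : n = 1
        · refine differentiableAt_Lchi hs fun h3 => ?_
          have h4 := congrArg Complex.re h3
          rw [hre, one_re] at h4
          have := h1 h
          have := hs'.1
          linarith
        · have : NeZero n := ⟨hn0⟩
          have e : Lchi n = (chi n).LFunction := by
            funext s
            simp [Lchi, hn0]
          rw [e]
          exact (DirichletCharacter.differentiable_LFunction (chi_ne_one h hn hs)) _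
      exact DifferentiableAt.comp (g := Lchi n) (f := fun s : ℂ => 1 / 2 + z + 2 * s) s hd hc
    exact (((d1.mul d2.differentiableOn).mul d3.differentiableOn).mul d4.differentiableOn).mul d5
  -- decay
  obtain ⟨c, C, hc, hC, hd⟩ := norm_wM_decay hK
  obtain ⟨M, hM, hL⟩ : ∃ M : ℝ, 0 < M ∧ ∀ s : ℂ, σ ≤ s.re → s.re ≤ 2 →
      ‖Lchi n (1 / 2 + z + 2 * s)‖ ≤ M * (1 + |s.im|) := by
    by_cases h : n = 1
    · obtain ⟨C', hC', hL⟩ := norm_Lchi_le' (x := 1 / 2 + z.re + 2 * σ) (by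
        have := h1 h
        linarith)
      refine ⟨C', hC', fun s h3 h4 => ?_⟩
      refine ((hL n hn _ (by rw [hre]; linarith)).1).trans ?_
      nlinarith [abs_nonneg s.im]
    · refine ⟨2 * n * (5 + ‖z‖), by positivity, fun s h3 h4 => ?_⟩
      have h5 : 1 / 2 ≤ (1 / 2 + z + 2 * s).re := by
        rw [hre]
        linarith
      refine (norm_Lchi_le_of_ne hn hs h _ (by linarith)).trans ?_
      have h6 : ‖s‖ ≤ 2 + |s.im| := by
        refine (norm_le_abs_re_add_abs_im s).trans ?_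
        rw [abs_of_pos (by linarith)]
        linarith
      have h7 : ‖1 / 2 + z + 2 * s‖ ≤ (5 + ‖z‖) * (1 + |s.im|) := by
        refine (norm_add_le _ _).trans ?_
        have h8 : ‖(1 / 2 : ℂ) + z‖ ≤ 1 / 2 + ‖z‖ := by
          refine (norm_add_le _ _).trans ?_
          norm_num
        have h9 : ‖2 * s‖ = 2 * ‖s‖ := by
          rw [norm_mul]
          norm_num
        rw [h9]
        nlinarith [norm_nonneg z, abs_nonneg s.im, mul_nonneg (norm_nonneg z) (abs_nonneg s.im)]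
      rw [div_le_iff₀ (by linarith)]
      have h10 : (n : ℝ) * ‖1 / 2 + z + 2 * s‖ ≤ n * ((5 + ‖z‖) * (1 + |s.im|)) :=
        mul_le_mul_of_nonneg_left h7 (by positivity)
      have h11 : (0 : ℝ) ≤ n * ((5 + ‖z‖) * (1 + |s.im|)) := by positivity
      nlinarith [mul_le_mul_of_nonneg_left h5 h11]
  have hB : ∀ s : ℂ, σ ≤ s.re → s.re ≤ 2 → ‖f s‖ * (1 + s.im ^ 2) ≤
      C * Real.exp (2 * |Real.log X|) * (8 / σ) * M * (Real.exp c * (24 / c ^ 4)) := by
    intro s h3 h4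
    have hs0 : 0 < s.re := lt_of_lt_of_le h0 h3
    have b1 := hd s hs0 h4
    have b2 : ‖(X : ℂ) ^ s‖ ≤ Real.exp (2 * |Real.log X|) := by
      rw [norm_cpow_eq_rpow_re_of_pos hX, Real.rpow_def_of_pos hX]
      apply Real.exp_le_exp.2
      have h5 : Real.log X * s.re ≤ |Real.log X| * s.re :=
        mul_le_mul_of_nonneg_right (le_abs_self _) hs0.le
      nlinarith [abs_nonneg (Real.log X)]
    have b3 : ‖(n : ℂ) ^ (-s)‖ ≤ 1 := by
      rw [norm_natCast_cpow_of_pos (Nat.pos_of_ne_zero hn0), neg_re]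
      exact Real.rpow_le_one_of_one_le_of_nonpos hn1 (by linarith)
    have b4 : ‖HH (2 * s)‖ ≤ 8 / σ * (1 + |s.im|) := by
      have h5 : (2 * s).re = 2 * s.re := by simp
      refine (norm_HH_le (2 * s) (by rw [h5]; linarith)).trans ?_
      rw [h5]
      have h6 : ‖s‖ ≤ 2 + |s.im| := by
        refine (norm_le_abs_re_add_abs_im s).trans ?_
        rw [abs_of_pos hs0]
        linarith
      have h7 : ‖2 * s‖ = 2 * ‖s‖ := by
        rw [norm_mul]
        norm_num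
      rw [h7, div_le_iff₀ (by linarith)]
      have h8 : 8 / σ * (1 + |s.im|) * (2 * s.re) = 16 * (1 + |s.im|) * (s.re / σ) := by
        field_simp
        ring
      rw [h8]
      have h9 : 1 ≤ s.re / σ := by
        rw [le_div_iff₀ h0]
        linarith
      nlinarith [abs_nonneg s.im, mul_le_mul_of_nonneg_left h9
        (by positivity : (0 : ℝ) ≤ 16 * (1 + |s.im|))]
    have b5 := hL s h3 h4
    have b6 : 1 + s.im ^ 2 ≤ (1 + |s.im|) ^ 2 := by
      have := sq_abs s.im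
      nlinarith [abs_nonneg s.im]
    change ‖wM K s * (X : ℂ) ^ s * (n : ℂ) ^ (-s) * HH (2 * s) * Lchi n (1 / 2 + z + 2 * s)‖ *
      (1 + s.im ^ 2) ≤ _
    rw [norm_mul, norm_mul, norm_mul, norm_mul]
    calc ‖wM K s‖ * ‖(X : ℂ) ^ s‖ * ‖(n : ℂ) ^ (-s)‖ * ‖HH (2 * s)‖ *
          ‖Lchi n (1 / 2 + z + 2 * s)‖ * (1 + s.im ^ 2)
        ≤ C * Real.exp (-(c * |s.im|)) * Real.exp (2 * |Real.log X|) * 1 *
          (8 / σ * (1 + |s.im|)) * (M * (1 + |s.im|)) * (1 + |s.im|) ^ 2 := by gcongr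
      _ = C * Real.exp (2 * |Real.log X|) * (8 / σ) * M *
          ((1 + |s.im|) ^ 4 * Real.exp (-(c * |s.im|))) := by ring
      _ ≤ _ := mul_le_mul_of_nonneg_left (ml_dec hc s.im) (by positivity)
  exact (shift_line h2 hdiff hB).2.2.symm

end Pool.Agent.MP_291b24_nt.Sm
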