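import Pool.Agent.Lib.MP_291b24_nt.Sm.KerF

/-! Absolute convergence and crude bound of `T_n` -/

set_option autoImplicit false

open Complex

namespace Pool.Agent.MP_291b24_nt.Sm

/-- The majorant. -/
private noncomputable def tnF (q : ℕ × ℕ × ℕ) : ℝ :=
  ((q.1 : ℝ) ^ (3 / 2 : ℝ))⁻¹ * (((q.2.1 : ℝ) ^ (3 / 2 : ℝ))⁻¹ * ((q.2.2 : ℝ) ^ 2)⁻¹)

private theorem tnF_nonneg (q : ℕ × ℕ × ℕ) : 0 ≤ tnF q := by
  unfold tnF
  positivity

private theorem tnF_summable : Summable tnF := by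
  have h1 : Summable fun n : ℕ => ((n : ℝ) ^ (3 / 2 : ℝ))⁻¹ :=
    Real.summable_nat_rpow_inv.2 (by norm_num)
  have h2 : Summable fun n : ℕ => ((n : ℝ) ^ 2)⁻¹ := Real.summable_nat_pow_inv.2 (by norm_num)
  have h3 : Summable fun q : ℕ × ℕ => ((q.1 : ℝ) ^ (3 / 2 : ℝ))⁻¹ * ((q.2 : ℝ) ^ 2)⁻¹ :=
    h1.mul_of_nonneg h2 (fun n => by positivity) (fun n => by positivity)
  exact h1.mul_of_nonneg h3 (fun n => by positivity) (fun n => by positivity)

private theorem tn_wk {K : ℕ} (hK : 1 ≤ K) {u : ℝ} (hu : 0 < u) :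
    ‖wk K u‖ ≤ 8 * K * Real.sqrt K / u := by
  have hK' : (1 : ℝ) ≤ K := by exact_mod_cast hK
  have hs := Real.sqrt_nonneg (K : ℝ)
  rw [le_div_iff₀ hu]
  rcases le_total (8 * (K : ℝ)) u with h | h
  · have h1 := norm_wk_le_exp hK h
    have h2 : Real.exp (-(u / 2)) * u ≤ 2 := by
      have h3 := Real.add_one_le_exp (u / 2)
      rw [Real.exp_neg, inv_mul_le_iff₀ (Real.exp_pos _)]
      linarith
    calc ‖wk K u‖ * u ≤ Real.sqrt K * Real.exp (-(u / 2)) * u :=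
          mul_le_mul_of_nonneg_right h1 hu.le
      _ = Real.sqrt K * (Real.exp (-(u / 2)) * u) := by ring
      _ ≤ Real.sqrt K * 2 := mul_le_mul_of_nonneg_left h2 hs
      _ ≤ 8 * K * Real.sqrt K := by nlinarith
  · calc ‖wk K u‖ * u ≤ Real.sqrt K * (8 * K) :=
          mul_le_mul (norm_wk_le K u) h hu.le hs
      _ = 8 * K * Real.sqrt K := by ring

private theorem tn_ph {K : ℕ} (hK : 2 ≤ K) {t Y : ℝ} (ht : 0 < t) (hY : 0 < Y) :
    ‖ph K (Real.log (t / Y))‖ ≤ 3 * Y / t := by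
  have hK' : (2 : ℝ) ≤ K := by exact_mod_cast hK
  obtain ⟨x, hx⟩ : ∃ x, x = Real.log (t / Y) := ⟨_, rfl⟩
  have h1 : Real.exp x = t / Y := by rw [hx, Real.exp_log (div_pos ht hY)]
  rw [← hx, norm_ph]
  have h2 : -((K : ℝ) / 2 * x ^ 2) ≤ 1 - x := by nlinarith [sq_nonneg x, sq_nonneg (x - 1 / 2)]
  calc Real.exp (-((K : ℝ) / 2 * x ^ 2)) ≤ Real.exp (1 - x) := Real.exp_le_exp.2 h2
    _ = Real.exp 1 / (t / Y) := by rw [Real.exp_sub, h1]
    _ ≤ 3 / (t / Y) := div_le_div_of_nonneg_right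
        (by have := Real.exp_one_lt_d9; linarith) (div_pos ht hY).le
    _ = 3 * Y / t := by field_simp

private theorem tn_hw (l : ℕ) : ‖((hw l : ℤ) : ℂ)‖ ≤ 2 := by
  unfold hw
  split_ifs <;> simp

private theorem tn_mu (k : ℕ) : ‖((ArithmeticFunction.moebius k : ℤ) : ℂ)‖ ≤ 1 := by
  have h : |ArithmeticFunction.moebius k| ≤ 1 := ArithmeticFunction.abs_moebius_le_one
  rw [Complex.norm_intCast]
  exact_mod_cast h

private theorem tn_js (a : ℤ) (n : ℕ) : ‖((jacobiSym a n : ℤ) : ℂ)‖ ≤ 1 := by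
  rcases jacobiSym.trichotomy a n with h | h | h <;> rw [h] <;> simp

/-- The bound of a term by the bound of `wk`. -/
private theorem tn_tm {K D n : ℕ} (hK : 2 ≤ K) (hD : 1 ≤ D) {X : ℝ} (hX : 0 < X)
    {B : ℝ} (hB : 0 ≤ B)
    (h : ∀ m l : ℕ, 1 ≤ m → 1 ≤ l → ‖wk K ((n : ℝ) * (m : ℝ) ^ 2 * (l : ℝ) ^ 2 / X)‖ ≤
      B * ((l : ℝ) ^ 2)⁻¹) (q : ℕ × ℕ × ℕ) :
    ‖tm K D X n q‖ ≤ 24 * D * X * B * tnF q := by
  obtain ⟨m, k, l⟩ := q
  have hD' : (1 : ℝ) ≤ D := by exact_mod_cast hD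
  have hnn : 0 ≤ 24 * D * X * B * tnF (m, k, l) :=
    mul_nonneg (by positivity) (tnF_nonneg _)
  rcases Nat.eq_zero_or_pos m with rfl | hm
  · have h0 : tm K D X n (0, k, l) = 0 := by
      unfold tm
      simp
    rw [h0, norm_zero]
    exact hnn
  rcases Nat.eq_zero_or_pos k with rfl | hk
  · have h0 : tm K D X n (m, 0, l) = 0 := by
      unfold tm
      simp
    rw [h0, norm_zero]
    exact hnn
  rcases Nat.eq_zero_or_pos l with rfl | hl
  · have h0 : tm K D X n (m, k, 0) = 0 := by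
      unfold tm hw
      simp
    rw [h0, norm_zero]
    exact hnn
  have hm' : (0 : ℝ) < m := by exact_mod_cast hm
  have hk' : (0 : ℝ) < k := by exact_mod_cast hk
  have hl' : (0 : ℝ) < l := by exact_mod_cast hl
  have ht : 0 < (m : ℝ) * k := mul_pos hm' hk'
  have hY : 0 < 4 * (D : ℝ) * X := by positivity
  have h1 := tn_ph hK ht hY
  have h2 := h m l hm hl
  have h3 : ‖(((Real.sqrt ((m : ℝ) * k))⁻¹ : ℝ) : ℂ)‖ = (Real.sqrt ((m : ℝ) * k))⁻¹ := by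
    rw [Complex.norm_real, Real.norm_of_nonneg (by positivity)]
  have h4 : tnF (m, k, l) = (Real.sqrt ((m : ℝ) * k))⁻¹ * ((m : ℝ) * k)⁻¹ * ((l : ℝ) ^ 2)⁻¹ := by
    unfold tnF
    simp only
    rw [← mul_assoc, ← mul_inv, ← Real.mul_rpow hm'.le hk'.le]
    have h5 : ((m : ℝ) * k) ^ (3 / 2 : ℝ) = Real.sqrt ((m : ℝ) * k) * ((m : ℝ) * k) := by
      rw [show (3 / 2 : ℝ) = 1 / 2 + 1 by norm_num, Real.rpow_add ht, Real.rpow_one,
        ← Real.sqrt_eq_rpow]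
    rw [h5, mul_inv]
  unfold tm
  simp only [norm_mul]
  rw [h3, h4]
  have hs : 0 < (Real.sqrt ((m : ℝ) * k))⁻¹ := inv_pos.2 (Real.sqrt_pos.2 ht)
  calc ‖((ArithmeticFunction.moebius k : ℤ) : ℂ)‖ * ‖((jacobiSym ((m * k : ℕ) : ℤ) n : ℤ) : ℂ)‖ *
        (Real.sqrt ((m : ℝ) * k))⁻¹ * ‖((hw l : ℤ) : ℂ)‖ *
        ‖ph K (Real.log ((m : ℝ) * k / (4 * D * X)))‖ *
        ‖wk K ((n : ℝ) * (m : ℝ) ^ 2 * (l : ℝ) ^ 2 / X)‖ ≤
      1 * 1 * (Real.sqrt ((m : ℝ) * k))⁻¹ * 2 * (3 * (4 * D * X) / ((m : ℝ) * k)) *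
        (B * ((l : ℝ) ^ 2)⁻¹) := by
        gcongr
        · exact tn_mu k
        · exact tn_js _ _
        · exact tn_hw l
    _ = 24 * D * X * B * ((Real.sqrt ((m : ℝ) * k))⁻¹ * ((m : ℝ) * k)⁻¹ * ((l : ℝ) ^ 2)⁻¹) := by
        rw [div_eq_mul_inv]
        ring

private theorem tn_sum {K D n : ℕ} (hK : 2 ≤ K) (hD : 1 ≤ D) {X : ℝ} (hX : 0 < X)
    {B : ℝ} (hB : 0 ≤ B)
    (h : ∀ m l : ℕ, 1 ≤ m → 1 ≤ l → ‖wk K ((n : ℝ) * (m : ℝ) ^ 2 * (l : ℝ) ^ 2 / X)‖ ≤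
      B * ((l : ℝ) ^ 2)⁻¹) :
    Summable (fun q => ‖tm K D X n q‖) ∧ ∑' q, ‖tm K D X n q‖ ≤ 24 * D * X * B * ∑' q, tnF q := by
  have h1 := tn_tm hK hD hX hB h
  have h2 : Summable fun q => 24 * D * X * B * tnF q := tnF_summable.mul_left _
  have h3 : Summable (fun q => ‖tm K D X n q‖) :=
    Summable.of_nonneg_of_le (fun q => norm_nonneg _) h1 h2
  refine ⟨h3, ?_⟩
  rw [← tsum_mul_left]
  exact h3.tsum_le_tsum h1 h2

/-- `|ph K (log (m k / (4 D X)))| ≤ e ^ 4 · min (...)`: `exp (-(K/2) x²) ≤ e^5 exp (-3|x|)`; with `N = m k` and at most `2 √N` pairs the sum over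
`m, k` of `(m k) ^ (-1/2) exp (-3 |log (N / (4DX))|)` is `≤ C D X`. The sum over `l` of `|hw l wk (n m² l² / X)|`: at most `√(8KX)` values
`l` with argument `≤ 8K`, each `≤ 2 √K`, the others `≤ 2 √K exp (-n m² l² / (2X))`. If `n > 8KX` only the last case occurs and
`exp (-n m² l² / (2X)) ≤ exp (-n / (4X)) exp (-2 K l²)`. (At most `C D X · √K · √(KX) ≤ C (D K X)²`.) -/
theorem Tn_bound : ∃ C : ℝ, 0 < C ∧ ∀ K D n : ℕ, 2 ≤ K → 1 ≤ D → 1 ≤ n → ∀ X : ℝ, 2 ≤ X →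
    Summable (fun q => ‖tm K D X n q‖) ∧ ∑' q, ‖tm K D X n q‖ ≤ C * (D * K * X) ^ 2 ∧
    (8 * K * X < n → ∑' q, ‖tm K D X n q‖ ≤ C * (D * K * X) ^ 2 * Real.exp (-(n / (4 * X)))) := by
  obtain ⟨F, hF⟩ : ∃ F, F = ∑' q, tnF q := ⟨_, rfl⟩
  have hF0 : 0 ≤ F := by
    rw [hF]
    exact tsum_nonneg tnF_nonneg
  refine ⟨192 * F + 1, by positivity, fun K D n hK hD hn X hX => ?_⟩
  have hX0 : 0 < X := by linarith
  have hK' : (2 : ℝ) ≤ K := by exact_mod_cast hK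
  have hD' : (1 : ℝ) ≤ D := by exact_mod_cast hD
  have hn' : (1 : ℝ) ≤ n := by exact_mod_cast hn
  have hs := Real.sqrt_nonneg (K : ℝ)
  have hsK : Real.sqrt K ≤ K := by
    rw [Real.sqrt_le_left (by linarith)]
    nlinarith
  have hDD : (D : ℝ) ≤ D ^ 2 := by nlinarith
  have hu : ∀ m l : ℕ, 1 ≤ m → 1 ≤ l → (l : ℝ) ^ 2 * ((n : ℝ) / X) ≤
      (n : ℝ) * (m : ℝ) ^ 2 * (l : ℝ) ^ 2 / X := by
    intro m l hm hl
    have hm' : (1 : ℝ) ≤ m := by exact_mod_cast hm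
    rw [← mul_div_assoc]
    refine div_le_div_of_nonneg_right ?_ hX0.le
    have h1 : (1 : ℝ) ≤ (m : ℝ) ^ 2 := one_le_pow₀ hm'
    have h2 : 0 ≤ (l : ℝ) ^ 2 * n := by positivity
    nlinarith
  have hpos : ∀ l : ℕ, 1 ≤ l → (0 : ℝ) < (l : ℝ) ^ 2 := fun l hl => by
    have : (0 : ℝ) < l := by exact_mod_cast hl
    positivity
  obtain ⟨h1, h2⟩ := tn_sum (n := n) hK hD hX0 (B := 8 * K * Real.sqrt K * X) (by positivity)
    (fun m l hm hl => by
      have h3 := hu m l hm hl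
      have h4 := hpos l hl
      have h5 : 0 < (l : ℝ) ^ 2 * ((n : ℝ) / X) := by positivity
      refine (tn_wk (by omega) (h5.trans_le h3)).trans ?_
      calc 8 * (K : ℝ) * Real.sqrt K / ((n : ℝ) * (m : ℝ) ^ 2 * (l : ℝ) ^ 2 / X) ≤
          8 * (K : ℝ) * Real.sqrt K / ((l : ℝ) ^ 2 * (1 / X)) := by
            refine div_le_div_of_nonneg_left (by positivity) (by positivity) (le_trans ?_ h3)
            refine mul_le_mul_of_nonneg_left ?_ h4.le
            exact div_le_div_of_nonneg_right hn' hX0.le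
        _ = 8 * K * Real.sqrt K * X * ((l : ℝ) ^ 2)⁻¹ := by field_simp)
  refine ⟨h1, h2.trans ?_, fun hnX => ?_⟩
  · rw [← hF]
    have h3 : (D : ℝ) * (K * Real.sqrt K) ≤ D ^ 2 * (K * K) :=
      mul_le_mul hDD (mul_le_mul_of_nonneg_left hsK (by linarith)) (by positivity) (by positivity)
    calc 24 * (D : ℝ) * X * (8 * K * Real.sqrt K * X) * F =
        192 * F * (D * (K * Real.sqrt K)) * X ^ 2 := by ring
      _ ≤ 192 * F * (D ^ 2 * (K * K)) * X ^ 2 := by gcongr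
      _ ≤ (192 * F + 1) * (D ^ 2 * (K * K)) * X ^ 2 := by gcongr; linarith
      _ = (192 * F + 1) * (D * K * X) ^ 2 := by ring
  · have h8 : 8 * (K : ℝ) ≤ (n : ℝ) / X := by
      rw [le_div_iff₀ hX0]
      exact hnX.le
    obtain ⟨-, h4⟩ := tn_sum (n := n) hK hD hX0
      (B := Real.sqrt K * Real.exp (-(n / (4 * X)))) (by positivity)
      (fun m l hm hl => by
        obtain ⟨v, hv⟩ : ∃ v, v = (n : ℝ) * (m : ℝ) ^ 2 * (l : ℝ) ^ 2 / X := ⟨_, rfl⟩
        have h3 := hu m l hm hl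
        rw [← hv] at h3 ⊢
        have h4 := hpos l hl
        have hl1 : (1 : ℝ) ≤ (l : ℝ) ^ 2 := one_le_pow₀ (by exact_mod_cast hl)
        have hnv : (n : ℝ) / X ≤ v := by
          refine le_trans ?_ h3
          have : 0 ≤ (n : ℝ) / X := by positivity
          nlinarith
        have hlv : 4 * (l : ℝ) ^ 2 ≤ v := by
          refine le_trans ?_ h3
          nlinarith
        refine (norm_wk_le_exp (by omega) (h8.trans hnv)).trans ?_
        rw [mul_assoc]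
        refine mul_le_mul_of_nonneg_left ?_ hs
        have h5 : Real.exp (-(v / 4)) ≤ ((l : ℝ) ^ 2)⁻¹ := by
          rw [Real.exp_neg]
          refine inv_anti₀ h4 ?_
          have := Real.add_one_le_exp (v / 4)
          linarith
        have h6 : Real.exp (-(v / 4)) ≤ Real.exp (-(n / (4 * X))) := by
          refine Real.exp_le_exp.2 (neg_le_neg ?_)
          have e : (n : ℝ) / (4 * X) = (n / X) / 4 := by field_simp
          rw [e]
          linarith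
        have h7 : Real.exp (-(v / 2)) = Real.exp (-(v / 4)) * Real.exp (-(v / 4)) := by
          rw [← Real.exp_add]
          congr 1
          ring
        rw [h7]
        exact mul_le_mul h6 h5 (Real.exp_pos _).le (Real.exp_pos _).le)
    refine h4.trans ?_
    rw [← hF]
    have h3 : (D : ℝ) * Real.sqrt K * X ≤ D ^ 2 * (K * K) * X ^ 2 := by
      have e1 : Real.sqrt K ≤ K * K := by nlinarith
      have e2 : X ≤ X ^ 2 := by nlinarith
      exact mul_le_mul (mul_le_mul hDD e1 hs (by positivity)) e2 hX0.le (by positivity)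
    have hE := (Real.exp_pos (-((n : ℝ) / (4 * X)))).le
    calc 24 * (D : ℝ) * X * (Real.sqrt K * Real.exp (-(n / (4 * X)))) * F =
        24 * F * (D * Real.sqrt K * X) * Real.exp (-(n / (4 * X))) := by ring
      _ ≤ 24 * F * (D ^ 2 * (K * K) * X ^ 2) * Real.exp (-(n / (4 * X))) := by gcongr
      _ ≤ (192 * F + 1) * (D ^ 2 * (K * K) * X ^ 2) * Real.exp (-(n / (4 * X))) := by
          gcongr
          linarith
      _ = (192 * F + 1) * (D * K * X) ^ 2 * Real.exp (-(n / (4 * X))) := by ring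

end Pool.Agent.MP_291b24_nt.Sm
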