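import Pool.Agent.Lib.MP_291b24_nt.Sm.A1a
import Pool.Agent.Lib.MP_291b24_nt.Sm.A1b
import Pool.Agent.Lib.MP_291b24_nt.Sm.TnB

/-! The formula for `T_n` -/

set_option autoImplicit false

open Complex MeasureTheory

namespace Pool.Agent.MP_291b24_nt.Sm

/-- the factor which does not depend on `n` -/
noncomputable def WW (K D : ℕ) (X : ℝ) (s z : ℂ) : ℂ :=
  wM K s * pM K z * (X : ℂ) ^ s * ((4 * D * X : ℝ) : ℂ) ^ z * HH (2 * s)

/-- the factor which depends on `n` -/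
noncomputable def qn (n : ℕ) (s z : ℂ) : ℂ :=
  epsb n * (n : ℂ) ^ (-s) * Lchi n (1 / 2 + z + 2 * s) * (Lchi n (1 / 2 + z))⁻¹

private theorem a1_wk {K : ℕ} (hK : 2 ≤ K) {u : ℝ} (hu : 0 < u) :
    ‖wk K u‖ ≤ 8 * K * Real.sqrt K / u := by
  have hK' : (2 : ℝ) ≤ K := by exact_mod_cast hK
  rcases lt_or_ge u (8 * K) with h | h
  · refine (norm_wk_le K u).trans ?_
    rw [le_div_iff₀ hu]
    have := Real.sqrt_nonneg (K : ℝ)
    nlinarith
  · refine (norm_wk_le_exp (by omega) h).trans ?_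
    have h1 : Real.exp (-(u / 2)) ≤ 2 / u := by
      rw [Real.exp_neg, inv_le_comm₀ (Real.exp_pos _) (by positivity), inv_div]
      have := Real.add_one_le_exp (u / 2)
      linarith
    have h2 : Real.sqrt K * Real.exp (-(u / 2)) ≤ Real.sqrt K * (2 / u) :=
      mul_le_mul_of_nonneg_left h1 (Real.sqrt_nonneg _)
    refine h2.trans ?_
    rw [mul_div_assoc', div_le_div_iff_of_pos_right hu]
    have := Real.sqrt_nonneg (K : ℝ)
    nlinarith

private theorem a1_hw (l : ℕ) : |((hw l : ℤ) : ℝ)| ≤ 2 := by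
  unfold hw
  split_ifs <;> norm_num

private theorem a1_sum {K n : ℕ} (hK : 2 ≤ K) (hn : 0 < n) {X r : ℝ} (hX : 0 < X) (hr : 0 < r) :
    Summable fun q : ℕ × ℕ => (q.1 : ℝ) ^ (-(1 / 2 + r)) * |((hw q.2 : ℤ) : ℝ)| *
      ‖wk K ((n : ℝ) * (q.1 : ℝ) ^ 2 * (q.2 : ℝ) ^ 2 / X)‖ := by
  have h1 : Summable fun q : ℕ × ℕ => (1 / (q.1 : ℝ) ^ 2) * (1 / (q.2 : ℝ) ^ 2) :=
    Summable.mul_of_nonneg (Real.summable_one_div_nat_pow.2 one_lt_two)
      (Real.summable_one_div_nat_pow.2 one_lt_two) (fun _ => by positivity) fun _ => by positivity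
  have hn' : (0 : ℝ) < n := by exact_mod_cast hn
  refine Summable.of_nonneg_of_le (fun q => by positivity) (fun q => ?_)
    (h1.mul_left (2 * (8 * K * Real.sqrt K * X / n)))
  obtain ⟨m, l⟩ := q
  rcases Nat.eq_zero_or_pos m with rfl | hm
  · have h2 : ((0 : ℕ) : ℝ) ^ (-(1 / 2 + r)) = 0 := by
      rw [Nat.cast_zero]
      exact Real.zero_rpow (by linarith [neg_lt_zero.2 hr] : -(1 / 2 + r) ≠ 0)
    simp only [h2, zero_mul]
    positivity
  rcases Nat.eq_zero_or_pos l with rfl | hl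
  · have h2 : ((hw 0 : ℤ) : ℝ) = 0 := by
      unfold hw
      norm_num
    simp only [h2, abs_zero, mul_zero, zero_mul]
    positivity
  have hm' : (1 : ℝ) ≤ m := by exact_mod_cast hm
  have hl' : (1 : ℝ) ≤ l := by exact_mod_cast hl
  have h2 : (m : ℝ) ^ (-(1 / 2 + r)) ≤ 1 :=
    Real.rpow_le_one_of_one_le_of_nonpos hm' (by linarith)
  have h3 : 0 < (n : ℝ) * (m : ℝ) ^ 2 * (l : ℝ) ^ 2 / X := by positivity
  have h4 := a1_wk hK h3
  have h5 : (m : ℝ) ^ (-(1 / 2 + r)) * |((hw l : ℤ) : ℝ)| ≤ 1 * 2 :=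
    mul_le_mul h2 (a1_hw l) (abs_nonneg _) zero_le_one
  refine (mul_le_mul h5 h4 (norm_nonneg _) (by norm_num)).trans (le_of_eq ?_)
  simp only
  field_simp

private theorem a1_cpow {A : ℝ} (hA : 0 < A) {z : ℂ} (hz : 0 < z.re) (m : ℕ) :
    (((Real.sqrt m)⁻¹ : ℝ) : ℂ) * ((A / m : ℝ) : ℂ) ^ z = (A : ℂ) ^ z * (m : ℂ) ^ (-(1 / 2 + z)) := by
  rcases Nat.eq_zero_or_pos m with rfl | hm
  · have h1 : -(1 / 2 + z) ≠ 0 := by
      intro h
      have := congrArg Complex.re h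
      simp at this
      linarith
    rw [Nat.cast_zero, Real.sqrt_zero, inv_zero, Complex.ofReal_zero, zero_mul, Nat.cast_zero,
      Complex.zero_cpow h1, mul_zero]
  · have hm' : (0 : ℝ) < m := by exact_mod_cast hm
    have hm0 : (m : ℂ) ≠ 0 := by exact_mod_cast hm.ne'
    have h1 : ((A / m : ℝ) : ℂ) ^ z = (A : ℂ) ^ z * (m : ℂ) ^ (-z) := by
      rw [div_eq_mul_inv, Complex.ofReal_mul, Complex.mul_cpow_ofReal_nonneg hA.le (by positivity),
        Complex.ofReal_inv, Complex.ofReal_natCast, Complex.inv_cpow _ _ (by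
          rw [Complex.natCast_arg]
          exact Real.pi_pos.ne), Complex.cpow_neg]
    have h2 : (((Real.sqrt m)⁻¹ : ℝ) : ℂ) = (m : ℂ) ^ (-(1 / 2) : ℂ) := by
      rw [Real.sqrt_eq_rpow, ← Real.rpow_neg hm'.le, Complex.ofReal_cpow hm'.le]
      push_cast
      rfl
    rw [h1, h2, neg_add, Complex.cpow_add _ _ hm0]
    ring

private theorem a1_term (K D n m k l : ℕ) (X : ℝ) : tm K D X n (m, k, l) =
    (((jacobiSym (m : ℤ) n : ℤ) : ℂ) * (((Real.sqrt m)⁻¹ : ℝ) : ℂ) * ((hw l : ℤ) : ℂ) *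
      wk K ((n : ℝ) * (m : ℝ) ^ 2 * (l : ℝ) ^ 2 / X)) *
    (((ArithmeticFunction.moebius k : ℤ) : ℂ) * ((jacobiSym (k : ℤ) n : ℤ) : ℂ) *
      (((Real.sqrt k)⁻¹ : ℝ) : ℂ) * ph K (Real.log (k / (4 * D * X / m)))) := by
  unfold tm
  simp only
  rw [Nat.cast_mul, jacobiSym.mul_left, Real.sqrt_mul (Nat.cast_nonneg m), div_div_eq_mul_div,
    mul_comm (k : ℝ) (m : ℝ)]
  push_cast
  rw [mul_inv]
  ring

private theorem a1_cont_Lchi {n : ℕ} (hn : Odd n) {r : ℝ} (hr1 : r < 1 / 4) :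
    Continuous fun y : ℝ => Lchi n (1 / 2 + (r + y * I)) := by
  have hn0 : n ≠ 0 := fun h => by simp [h] at hn
  unfold Lchi
  simp only [dif_neg hn0]
  have : NeZero n := ⟨hn0⟩
  rw [continuous_iff_continuousAt]
  intro y
  have h1 : (1 / 2 + (r + y * I) : ℂ) ≠ 1 := by
    intro h
    have := congrArg Complex.re h
    simp at this
    linarith
  have h2 := (DirichletCharacter.differentiableAt_LFunction (chi n) _ (Or.inl h1)).continuousAt
  exact ContinuousAt.comp (f := fun y : ℝ => (1 / 2 + (r + y * I) : ℂ)) h2 (by fun_prop)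

private noncomputable def a1B (K D n : ℕ) (X r y : ℝ) : ℂ :=
  pM K (r + y * I) * ((4 * D * X : ℝ) : ℂ) ^ (r + y * I) * (Lchi n (1 / 2 + (r + y * I)))⁻¹

private theorem a1B_int (hG : GRH) {r : ℝ} (hr : 0 < r) (hr1 : r < 1 / 4) {K D n : ℕ} (hK : 2 ≤ K)
    (hD : 1 ≤ D) (hn : Odd n) (hs : Squarefree n) {X : ℝ} (hX : 0 < X) :
    Integrable (a1B K D n X r) := by
  have hD' : (0 : ℝ) < D := by exact_mod_cast hD
  have hA : 0 < 4 * D * X := by positivity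
  have h1 := (k_integrable hG hr hr1 hK hn hs).const_mul ((4 * D * X) ^ r)
  refine h1.mono' ?_ (ae_of_all _ fun y => ?_)
  · have c1 : Continuous fun y : ℝ => pM K (r + y * I) := by
      unfold pM
      fun_prop
    have c2 : Continuous fun y : ℝ => ((4 * D * X : ℝ) : ℂ) ^ (r + y * I : ℂ) := by
      have h2 : ((4 * D * X : ℝ) : ℂ) ≠ 0 := by exact_mod_cast hA.ne'
      exact Continuous.const_cpow (by fun_prop) (Or.inl h2)
    exact ((c1.mul c2).measurable.mul (a1_cont_Lchi hn hr1).measurable.inv).aestronglyMeasurable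
  · unfold a1B
    rw [norm_mul, norm_mul, Complex.norm_cpow_eq_rpow_re_of_pos hA]
    have h2 : (r + y * I : ℂ).re = r := by simp
    rw [h2]
    have h3 : 1 ≤ (|y| + 2) ^ 3 := one_le_pow₀ (by linarith [abs_nonneg y])
    calc ‖pM K (r + y * I)‖ * (4 * D * X) ^ r * ‖(Lchi n (1 / 2 + (r + y * I)))⁻¹‖ =
          (4 * D * X) ^ r * (‖pM K (r + y * I)‖ * ‖(Lchi n (1 / 2 + (r + y * I)))⁻¹‖ * 1) := by ring
      _ ≤ _ := by
        refine mul_le_mul_of_nonneg_left ?_ (by positivity)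
        exact mul_le_mul_of_nonneg_left h3 (by positivity)

private noncomputable def a1c (K n : ℕ) (X : ℝ) (q : ℕ × ℕ) (z : ℂ) : ℂ :=
  ((jacobiSym (q.1 : ℤ) n : ℤ) : ℂ) * (q.1 : ℂ) ^ (-(1 / 2 + z)) * ((hw q.2 : ℤ) : ℂ) *
      wk K ((n : ℝ) * (q.1 : ℝ) ^ 2 * (q.2 : ℝ) ^ 2 / X)

private theorem a1c_norm {r : ℝ} (hr : 0 < r) (K n : ℕ) (X : ℝ) (q : ℕ × ℕ) (y : ℝ) :
    ‖a1c K n X q (r + y * I)‖ = |((jacobiSym (q.1 : ℤ) n : ℤ) : ℝ)| * ((q.1 : ℝ) ^ (-(1 / 2 + r)) *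
      |((hw q.2 : ℤ) : ℝ)| * ‖wk K ((n : ℝ) * (q.1 : ℝ) ^ 2 * (q.2 : ℝ) ^ 2 / X)‖) := by
  unfold a1c
  have h1 : ‖(q.1 : ℂ) ^ (-(1 / 2 + (r + y * I) : ℂ))‖ = (q.1 : ℝ) ^ (-(1 / 2 + r)) := by
    rcases Nat.eq_zero_or_pos q.1 with h | h
    · have h2 : (-(1 / 2 + (r + y * I) : ℂ)) ≠ 0 := by
        intro h
        have := congrArg Complex.re h
        simp at this
        linarith
      rw [h, Nat.cast_zero, Nat.cast_zero, Complex.zero_cpow h2, norm_zero,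
        Real.zero_rpow (by linarith [neg_lt_zero.2 hr] : -(1 / 2 + r) ≠ 0)]
    · rw [Complex.norm_natCast_cpow_of_pos h]
      congr 1
      simp
  rw [norm_mul, norm_mul, norm_mul, h1, Complex.norm_intCast, Complex.norm_intCast]
  ring

private theorem a1_prod (K D n : ℕ) {X r : ℝ} (hr : 0 < r) (hA : 0 < 4 * D * X) (q : ℕ × ℕ) (y : ℝ) :
    (((jacobiSym (q.1 : ℤ) n : ℤ) : ℂ) * (((Real.sqrt q.1)⁻¹ : ℝ) : ℂ) * ((hw q.2 : ℤ) : ℂ) *
      wk K ((n : ℝ) * (q.1 : ℝ) ^ 2 * (q.2 : ℝ) ^ 2 / X)) *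
      (pM K (r + y * I) * ((4 * D * X / q.1 : ℝ) : ℂ) ^ (r + y * I) *
        (Lchi n (1 / 2 + (r + y * I)))⁻¹) = a1B K D n X r y * a1c K n X q (r + y * I) := by
  have h1 := a1_cpow hA (z := r + y * I) (by simpa using hr) q.1
  unfold a1B a1c
  linear_combination (((jacobiSym (q.1 : ℤ) n : ℤ) : ℂ) * ((hw q.2 : ℤ) : ℂ) *
      wk K ((n : ℝ) * (q.1 : ℝ) ^ 2 * (q.2 : ℝ) ^ 2 / X) * pM K (r + y * I) *
      (Lchi n (1 / 2 + (r + y * I)))⁻¹) * h1

private theorem a1_inner (hG : GRH) {r : ℝ} (hr : 0 < r) (hr1 : r < 1 / 4) {K D n : ℕ} (hK : 2 ≤ K)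
    (hD : 1 ≤ D) (hn : Odd n) (hs : Squarefree n) {X : ℝ} (hX : 0 < X) (q : ℕ × ℕ) :
    ∑' k : ℕ, tm K D X n (q.1, k, q.2) =
      (1 / (2 * Real.pi) : ℂ) * ∫ y : ℝ, a1B K D n X r y * a1c K n X q (r + y * I) := by
  have hD' : (0 : ℝ) < D := by exact_mod_cast hD
  have hA : 0 < 4 * D * X := by positivity
  simp only [a1_term]
  rw [tsum_mul_left]
  simp only [← a1_prod K D n hr hA q]
  rw [integral_const_mul]
  rcases Nat.eq_zero_or_pos q.1 with h | h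
  · have h9 : ((Real.sqrt ((0 : ℕ) : ℝ))⁻¹ : ℝ) = 0 := by rw [Nat.cast_zero, Real.sqrt_zero, inv_zero]
    rw [h, h9, Complex.ofReal_zero]
    ring
  · have h' : (0 : ℝ) < q.1 := by exact_mod_cast h
    rw [k_sum hG hr hr1 hK hn hs (Y := 4 * D * X / q.1) (by positivity)]
    ring

/-- Sum over `k` first (`k_sum` with `Y = 4 D X / m`), then exchange the sum over `(m, l)` with the integral over `y` (`k_integrable`;
`∑ m^(-1/2-r) |hw l| |wk (n m² l² / X)|` converges), then `ml_sum` with `z = r + iy`. -/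
theorem Tn_eq (hG : GRH) {r : ℝ} (hr : 0 < r) (hr1 : r < 1 / 4) {K D n : ℕ} (hK : 2 ≤ K) (hD : 1 ≤ D) (hn : Odd n) (hs : Squarefree n)
    {X : ℝ} (hX : 2 ≤ X) {σ : ℝ} (h0 : 0 < σ) (h2 : σ ≤ 1) (h1 : n = 1 → 1 / 2 < r + 2 * σ) :
    epsb n * Tn K D X n = (1 / (4 * Real.pi ^ 2) : ℂ) * ∫ y : ℝ, ∫ t : ℝ, WW K D X (σ + t * I) (r + y * I) * qn n (σ + t * I) (r + y * I) := by
  have hX0 : 0 < X := by linarith
  have hn0 : 0 < n := hn.pos
  obtain ⟨C, _, hTn⟩ := Tn_bound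
  have hsum : Summable (tm K D X n) := (hTn K D n hK hD hn0 X hX).1.of_norm
  let e : (ℕ × ℕ) × ℕ ≃ ℕ × ℕ × ℕ :=
    { toFun := fun p => (p.1.1, p.2, p.1.2)
      invFun := fun q => ((q.1, q.2.2), q.2.1)
      left_inv := fun _ => rfl
      right_inv := fun _ => rfl }
  have hsum' : Summable fun p : (ℕ × ℕ) × ℕ => tm K D X n (p.1.1, p.2, p.1.2) :=
    (e.summable_iff (f := tm K D X n)).2 hsum
  have h3 : Tn K D X n = ∑' q : ℕ × ℕ, ∑' k : ℕ, tm K D X n (q.1, k, q.2) := by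
    unfold Tn
    rw [← e.tsum_eq (tm K D X n)]
    exact hsum'.tsum_prod
  have hB := a1B_int hG hr hr1 hK hD hn hs hX0
  have hF : ∀ q : ℕ × ℕ, Integrable fun y : ℝ => a1B K D n X r y * a1c K n X q (r + y * I) := by
    intro q
    rcases Nat.eq_zero_or_pos q.1 with h | h
    · have h4 : (fun y : ℝ => a1B K D n X r y * a1c K n X q (r + y * I)) = fun _ => 0 := by
        funext y
        have h5 := a1c_norm hr K n X q y
        have h6 : ((0 : ℕ) : ℝ) ^ (-(1 / 2 + r)) = 0 := by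
          rw [Nat.cast_zero, Real.zero_rpow (by linarith [neg_lt_zero.2 hr] : -(1 / 2 + r) ≠ 0)]
        rw [h, h6, zero_mul, zero_mul, mul_zero, norm_eq_zero] at h5
        rw [h5, mul_zero]
      rw [h4]
      exact integrable_zero _ _ _
    · have hc : Continuous fun y : ℝ => a1c K n X q (r + y * I) := by
        unfold a1c
        have h5 : (q.1 : ℂ) ≠ 0 := by exact_mod_cast h.ne'
        have c2 : Continuous fun y : ℝ => (q.1 : ℂ) ^ (-(1 / 2 + (r + y * I)) : ℂ) :=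
          Continuous.const_cpow (by fun_prop) (Or.inl h5)
        exact ((continuous_const.mul c2).mul continuous_const).mul continuous_const
      refine Integrable.mul_bdd (c := |((jacobiSym (q.1 : ℤ) n : ℤ) : ℝ)| * ((q.1 : ℝ) ^ (-(1 / 2 + r)) *
        |((hw q.2 : ℤ) : ℝ)| * ‖wk K ((n : ℝ) * (q.1 : ℝ) ^ 2 * (q.2 : ℝ) ^ 2 / X)‖)) hB
        hc.aestronglyMeasurable (ae_of_all _ fun y => (a1c_norm hr K n X q y).le)
  have hS : Summable fun q : ℕ × ℕ => ∫ y : ℝ, ‖a1B K D n X r y * a1c K n X q (r + y * I)‖ := by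
    have h4 : ∀ q : ℕ × ℕ, ∫ y : ℝ, ‖a1B K D n X r y * a1c K n X q (r + y * I)‖ =
        (∫ y : ℝ, ‖a1B K D n X r y‖) * (|((jacobiSym (q.1 : ℤ) n : ℤ) : ℝ)| *
        ((q.1 : ℝ) ^ (-(1 / 2 + r)) * |((hw q.2 : ℤ) : ℝ)| *
          ‖wk K ((n : ℝ) * (q.1 : ℝ) ^ 2 * (q.2 : ℝ) ^ 2 / X)‖)) := by
      intro q
      simp only [norm_mul (a1B K D n X r _), a1c_norm hr]
      rw [integral_mul_const]
    simp only [h4]
    refine Summable.mul_left _ ?_
    refine Summable.of_nonneg_of_le (fun q => by positivity) (fun q => ?_) (a1_sum hK hn0 hX0 hr)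
    refine mul_le_of_le_one_left (by positivity) ?_
    rcases jacobiSym.trichotomy (q.1 : ℤ) n with h | h | h <;> simp [h]
  have h5 := hasSum_integral_of_summable_integral_norm hF hS
  have h6 : Tn K D X n = (1 / (2 * Real.pi) : ℂ) *
      ∫ y : ℝ, ∑' q : ℕ × ℕ, a1B K D n X r y * a1c K n X q (r + y * I) := by
    rw [h3, ← h5.tsum_eq, ← tsum_mul_left]
    exact tsum_congr fun q => a1_inner hG hr hr1 hK hD hn hs hX0 q
  have h7 : ∀ y : ℝ, ∑' q : ℕ × ℕ, a1B K D n X r y * a1c K n X q (r + y * I) =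
      a1B K D n X r y * ((1 / (2 * Real.pi) : ℂ) * ∫ t : ℝ, wM K (σ + t * I) *
        (X : ℂ) ^ (σ + t * I) * (n : ℂ) ^ (-(σ + t * I)) * HH (2 * (σ + t * I)) *
          Lchi n (1 / 2 + (r + y * I) + 2 * (σ + t * I))) := by
    intro y
    rw [tsum_mul_left]
    congr 1
    have hre : (r + y * I : ℂ).re = r := by simp
    exact ml_sum hK hn hs (by rw [hre]; exact hr) (by rw [hre]; exact hr1) hX0 h0 (by linarith)
      (by rw [hre]; exact h1)
  have h8 : ∀ y : ℝ, ∫ t : ℝ, WW K D X (σ + t * I) (r + y * I) * qn n (σ + t * I) (r + y * I) =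
      epsb n * (a1B K D n X r y * ∫ t : ℝ, wM K (σ + t * I) *
        (X : ℂ) ^ (σ + t * I) * (n : ℂ) ^ (-(σ + t * I)) * HH (2 * (σ + t * I)) *
          Lchi n (1 / 2 + (r + y * I) + 2 * (σ + t * I))) := by
    intro y
    rw [← mul_assoc, ← integral_const_mul]
    refine integral_congr_ae (ae_of_all _ fun t => ?_)
    simp only [WW, qn, a1B]
    ring
  simp only [h8]
  rw [integral_const_mul, h6]
  simp only [h7]
  have h9 : (fun y : ℝ => a1B K D n X r y * ((1 / (2 * Real.pi) : ℂ) * ∫ t : ℝ, wM K (σ + t * I) *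
        (X : ℂ) ^ (σ + t * I) * (n : ℂ) ^ (-(σ + t * I)) * HH (2 * (σ + t * I)) *
          Lchi n (1 / 2 + (r + y * I) + 2 * (σ + t * I)))) =
      fun y : ℝ => (1 / (2 * Real.pi) : ℂ) * (a1B K D n X r y * ∫ t : ℝ, wM K (σ + t * I) *
        (X : ℂ) ^ (σ + t * I) * (n : ℂ) ^ (-(σ + t * I)) * HH (2 * (σ + t * I)) *
          Lchi n (1 / 2 + (r + y * I) + 2 * (σ + t * I))) := by
    funext y
    ring
  rw [h9, integral_const_mul]
  have h10 : (1 / (4 * Real.pi ^ 2) : ℂ) = (1 / (2 * Real.pi) : ℂ) * (1 / (2 * Real.pi) : ℂ) := by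
    rw [one_div_mul_one_div]
    congr 1
    ring
  rw [h10]
  ring

end Pool.Agent.MP_291b24_nt.Sm
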