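import Pool.Agent.Lib.MP_291b24_nt.Sm.TnB

/-! Insertion of the cutoff -/

set_option autoImplicit false

open Complex MeasureTheory

namespace Pool.Agent.MP_291b24_nt.Sm

private theorem cut_epsb (n : ℕ) : ‖epsb n‖ ≤ 1 := by
  unfold epsb
  split_ifs <;> simp

private theorem cut_geo {X : ℝ} (hX : 0 < X) :
    Summable (fun n : ℕ => Real.exp (-((n : ℝ) / (8 * X)))) ∧
      ∑' n : ℕ, Real.exp (-((n : ℝ) / (8 * X))) ≤ 1 + 8 * X := by
  obtain ⟨y, hy⟩ : ∃ y, y = 1 / (8 * X) := ⟨_, rfl⟩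
  have hy0 : 0 < y := by rw [hy]; positivity
  obtain ⟨r, hr⟩ : ∃ r, r = Real.exp (-y) := ⟨_, rfl⟩
  have hr0 : 0 ≤ r := by rw [hr]; exact (Real.exp_pos _).le
  have h1 : y + 1 ≤ Real.exp y := Real.add_one_le_exp y
  have h2 : r * (y + 1) ≤ 1 := by
    calc r * (y + 1) ≤ r * Real.exp y := mul_le_mul_of_nonneg_left h1 hr0
      _ = 1 := by rw [hr, ← Real.exp_add, neg_add_cancel, Real.exp_zero]
  have hr1 : r < 1 := by
    rw [hr, Real.exp_lt_one_iff]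
    linarith
  have e : (fun n : ℕ => Real.exp (-((n : ℝ) / (8 * X)))) = fun n : ℕ => r ^ n := by
    funext n
    rw [hr, ← Real.exp_nat_mul, hy]
    congr 1
    ring
  rw [e]
  refine ⟨summable_geometric_of_lt_one hr0 hr1, ?_⟩
  rw [tsum_geometric_of_lt_one hr0 hr1, inv_le_comm₀ (by linarith) (by positivity)]
  have h3 : (1 + 8 * X) * y = y + 1 := by
    rw [hy]
    field_simp
  have h4 : (1 + 8 * X)⁻¹ = y / (y + 1) := by
    rw [← h3]
    field_simp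
  rw [h4, div_le_iff₀ (by linarith)]
  nlinarith

private theorem cut_ind {B : ℝ} (hB : 0 ≤ B) :
    ∃ s : ℝ, s ≤ B ∧ HasSum (fun n : ℕ => if 1 ≤ n ∧ (n : ℝ) ≤ B then (1 : ℝ) else 0) s := by
  classical
  refine ⟨∑ n ∈ Finset.Icc 1 ⌊B⌋₊, (if 1 ≤ n ∧ (n : ℝ) ≤ B then (1 : ℝ) else 0), ?_, ?_⟩
  · calc ∑ n ∈ Finset.Icc 1 ⌊B⌋₊, (if 1 ≤ n ∧ (n : ℝ) ≤ B then (1 : ℝ) else 0)
        ≤ ∑ n ∈ Finset.Icc 1 ⌊B⌋₊, (1 : ℝ) := by
          refine Finset.sum_le_sum fun n _ => ?_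
          split_ifs <;> norm_num
      _ = (⌊B⌋₊ : ℝ) := by simp
      _ ≤ B := Nat.floor_le hB
  · refine hasSum_sum_of_ne_finset_zero fun n hn => ?_
    rw [if_neg]
    rintro ⟨h1, h2⟩
    exact hn (Finset.mem_Icc.2 ⟨h1, Nat.le_floor h2⟩)

private theorem cut_ups {M : ℕ} {x : ℝ} (hx : 0 ≤ x) :
    0 ≤ ups M x ∧ ups M x ≤ 1 ∧ 1 - ups M x ≤ x ^ M := by
  unfold ups
  have h := pow_nonneg hx M
  refine ⟨(Real.exp_pos _).le, Real.exp_le_one_iff.2 (by linarith), ?_⟩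
  have := Real.add_one_le_exp (-(x ^ M))
  linarith

/-- `Tn_bound`: `1 - ups M (n / (K² X)) ≤ (8/K)^M` for `n ≤ 8KX`, and the tail `n > 8 K X`. -/
theorem cut {M : ℕ} (hM : 1 ≤ M) : ∃ C : ℝ, 0 < C ∧ ∀ K D : ℕ, 16 ≤ K → 1 ≤ D → ∀ X : ℝ, 2 ≤ X →
    ‖TT K D X - ∑' n : ℕ, (if Odd n ∧ Squarefree n then (ups M (n / (K ^ 2 * X)) : ℂ) * (epsb n * Tn K D X n) else 0)‖ ≤
      C * (D * K * X) ^ 3 * ((8 / K) ^ M + Real.exp (-K)) := by
  obtain ⟨C0, hC0, hT⟩ := Tn_bound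
  refine ⟨9 * C0, by positivity, fun K D hK hD X hX => ?_⟩
  have hX0 : 0 < X := by linarith
  have hK' : (16 : ℝ) ≤ K := by exact_mod_cast hK
  have hD' : (1 : ℝ) ≤ D := by exact_mod_cast hD
  have hK0 : (0 : ℝ) < K := by linarith
  have hD0 : (0 : ℝ) < D := by linarith
  obtain ⟨A, hA⟩ : ∃ A, A = C0 * (D * K * X) ^ 2 := ⟨_, rfl⟩
  have hA0 : 0 ≤ A := by rw [hA]; positivity
  have hTn : ∀ n : ℕ, 1 ≤ n → ‖Tn K D X n‖ ≤ A := by
    intro n hn
    obtain ⟨h1, h2, -⟩ := hT K D n (by omega) hD hn X hX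
    rw [hA]
    exact (norm_tsum_le_tsum_norm h1).trans h2
  have hTn2 : ∀ n : ℕ, 1 ≤ n → 8 * K * X < n → ‖Tn K D X n‖ ≤ A * Real.exp (-(n / (4 * X))) := by
    intro n hn hlt
    obtain ⟨h1, -, h2⟩ := hT K D n (by omega) hD hn X hX
    rw [hA]
    exact (norm_tsum_le_tsum_norm h1).trans (h2 hlt)
  obtain ⟨hg, hgs⟩ := cut_geo hX0
  obtain ⟨s, hs, hind⟩ := cut_ind (B := 8 * K * X) (by positivity)
  have hE : ∀ n : ℕ, 8 * K * X < n →
      Real.exp (-((n : ℝ) / (4 * X))) ≤ Real.exp (-K) * Real.exp (-((n : ℝ) / (8 * X))) := by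
    intro n hn
    rw [← Real.exp_add]
    refine Real.exp_le_exp.2 ?_
    have h1 : (K : ℝ) ≤ (n : ℝ) / (8 * X) := by
      rw [le_div_iff₀ (by positivity)]
      nlinarith
    have h2 : (n : ℝ) / (4 * X) = n / (8 * X) + n / (8 * X) := by
      field_simp
      ring
    rw [h2]
    linarith
  have hEpos : ∀ n : ℕ, 0 ≤ Real.exp (-K) * Real.exp (-((n : ℝ) / (8 * X))) := fun n => by
    positivity
  -- the general termwise bound
  have key : ∀ (n : ℕ) (c w : ℝ), 0 ≤ c → 0 ≤ w → w ≤ 1 → ((n : ℝ) ≤ 8 * K * X → w ≤ c) →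
      1 ≤ n → w * ‖Tn K D X n‖ ≤ A * c * (if 1 ≤ n ∧ (n : ℝ) ≤ 8 * K * X then (1 : ℝ) else 0) +
        A * Real.exp (-K) * Real.exp (-((n : ℝ) / (8 * X))) := by
    intro n c w hc hw0 hw1 hwc hn
    by_cases hle : (n : ℝ) ≤ 8 * K * X
    · rw [if_pos ⟨hn, hle⟩, mul_one]
      have h1 : w * ‖Tn K D X n‖ ≤ c * A :=
        mul_le_mul (hwc hle) (hTn n hn) (norm_nonneg _) hc
      have h2 : 0 ≤ A * (Real.exp (-K) * Real.exp (-((n : ℝ) / (8 * X)))) :=
        mul_nonneg hA0 (hEpos n)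
      nlinarith
    · rw [if_neg (fun h => hle h.2), mul_zero, zero_add]
      have h1 := hTn2 n hn (not_le.1 hle)
      have h2 := mul_le_mul_of_nonneg_left (hE n (not_le.1 hle)) hA0
      calc w * ‖Tn K D X n‖ ≤ 1 * ‖Tn K D X n‖ := mul_le_mul_of_nonneg_right hw1 (norm_nonneg _)
        _ = ‖Tn K D X n‖ := one_mul _
        _ ≤ A * (Real.exp (-K) * Real.exp (-((n : ℝ) / (8 * X)))) := h1.trans h2
        _ = _ := by ring
  have hsumm : ∀ c : ℝ, HasSum (fun n : ℕ => A * c * (if 1 ≤ n ∧ (n : ℝ) ≤ 8 * K * X then (1 : ℝ) else 0) +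
        A * Real.exp (-K) * Real.exp (-((n : ℝ) / (8 * X))))
        (A * c * s + A * Real.exp (-K) * ∑' n : ℕ, Real.exp (-((n : ℝ) / (8 * X)))) :=
    fun c => (hind.mul_left _).add (hg.hasSum.mul_left _)
  have hn1 : ∀ n : ℕ, Odd n → 1 ≤ n := fun n hn => hn.pos
  have hx0 : ∀ n : ℕ, (0 : ℝ) ≤ (n : ℝ) / (K ^ 2 * X) := fun n => by positivity
  have hterm : ∀ n : ℕ, ‖epsb n * Tn K D X n‖ ≤ ‖Tn K D X n‖ := by
    intro n
    rw [norm_mul]
    exact mul_le_of_le_one_left (norm_nonneg _) (cut_epsb n)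
  have hnn : ∀ (c : ℝ), 0 ≤ c → ∀ n : ℕ, 0 ≤ A * c *
      (if 1 ≤ n ∧ (n : ℝ) ≤ 8 * K * X then (1 : ℝ) else 0) +
        A * Real.exp (-K) * Real.exp (-((n : ℝ) / (8 * X))) := by
    intro c hc n
    have h1 : (0 : ℝ) ≤ (if 1 ≤ n ∧ (n : ℝ) ≤ 8 * K * X then (1 : ℝ) else 0) := by
      split_ifs <;> norm_num
    positivity
  have hsa : Summable fun n : ℕ => (if Odd n ∧ Squarefree n then epsb n * Tn K D X n else 0) := by
    refine Summable.of_norm_bounded (hsumm 1).summable fun n => ?_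
    by_cases h : Odd n ∧ Squarefree n
    · rw [if_pos h]
      have h1 := key n 1 1 zero_le_one zero_le_one le_rfl (fun _ => le_rfl) (hn1 n h.1)
      rw [one_mul] at h1
      exact (hterm n).trans h1
    · rw [if_neg h, norm_zero]
      exact hnn 1 zero_le_one n
  have hsb : Summable fun n : ℕ => (if Odd n ∧ Squarefree n then
      (ups M (n / (K ^ 2 * X)) : ℂ) * (epsb n * Tn K D X n) else 0) := by
    refine Summable.of_norm_bounded (hsumm 1).summable fun n => ?_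
    by_cases h : Odd n ∧ Squarefree n
    · rw [if_pos h]
      obtain ⟨u0, u1, -⟩ := cut_ups (M := M) (hx0 n)
      have h1 := key n 1 (ups M (n / (K ^ 2 * X))) zero_le_one u0 u1 (fun _ => u1) (hn1 n h.1)
      rw [norm_mul, Complex.norm_real, Real.norm_of_nonneg u0]
      exact (mul_le_mul_of_nonneg_left (hterm n) u0).trans h1
    · rw [if_neg h, norm_zero]
      exact hnn 1 zero_le_one n
  have hc0 : (0 : ℝ) ≤ (8 / K) ^ M := by positivity
  unfold TT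
  rw [← hsa.tsum_sub hsb]
  refine (tsum_of_norm_bounded (hsumm ((8 / K) ^ M)) fun n => ?_).trans ?_
  · by_cases h : Odd n ∧ Squarefree n
    · rw [if_pos h, if_pos h]
      obtain ⟨u0, u1, u2⟩ := cut_ups (M := M) (hx0 n)
      have h1 := key n ((8 / K) ^ M) (1 - ups M (n / (K ^ 2 * X))) hc0 (by linarith) (by linarith)
        (fun hle => u2.trans (pow_le_pow_left₀ (hx0 n) (by
          rw [div_le_div_iff₀ (by positivity) hK0]
          nlinarith) M)) (hn1 n h.1)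
      have e : epsb n * Tn K D X n - (ups M (n / (K ^ 2 * X)) : ℂ) * (epsb n * Tn K D X n) =
          ((1 - ups M (n / (K ^ 2 * X)) : ℝ) : ℂ) * (epsb n * Tn K D X n) := by
        push_cast
        ring
      rw [e, norm_mul, Complex.norm_real, Real.norm_of_nonneg (by linarith)]
      exact (mul_le_mul_of_nonneg_left (hterm n) (by linarith)).trans h1
    · rw [if_neg h, if_neg h, sub_zero, norm_zero]
      exact hnn _ hc0 n
  · have h1 : A * (8 / K) ^ M * s ≤ A * (8 / K) ^ M * (8 * K * X) :=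
      mul_le_mul_of_nonneg_left hs (mul_nonneg hA0 hc0)
    have h2 : A * Real.exp (-K) * ∑' n : ℕ, Real.exp (-((n : ℝ) / (8 * X))) ≤
        A * Real.exp (-K) * (1 + 8 * X) :=
      mul_le_mul_of_nonneg_left hgs (mul_nonneg hA0 (Real.exp_pos _).le)
    have h3 : K * X ≤ D * K * X := by nlinarith [mul_pos hK0 hX0]
    have h4 : 1 + 8 * X ≤ 9 * (D * K * X) := by nlinarith [mul_pos hK0 hX0]
    have h5 : 8 * K * X ≤ 9 * (D * K * X) := by nlinarith [mul_pos hK0 hX0]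
    have h6 : A * (8 / K) ^ M * (8 * K * X) ≤ A * (8 / K) ^ M * (9 * (D * K * X)) :=
      mul_le_mul_of_nonneg_left h5 (mul_nonneg hA0 hc0)
    have h7 : A * Real.exp (-K) * (1 + 8 * X) ≤ A * Real.exp (-K) * (9 * (D * K * X)) :=
      mul_le_mul_of_nonneg_left h4 (mul_nonneg hA0 (Real.exp_pos _).le)
    calc A * (8 / K) ^ M * s + A * Real.exp (-K) * ∑' n : ℕ, Real.exp (-((n : ℝ) / (8 * X)))
        ≤ A * (8 / K) ^ M * (9 * (D * K * X)) + A * Real.exp (-K) * (9 * (D * K * X)) :=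
          add_le_add (h1.trans h6) (h2.trans h7)
      _ = 9 * C0 * (D * K * X) ^ 3 * ((8 / K) ^ M + Real.exp (-K)) := by
          rw [hA]
          ring

end Pool.Agent.MP_291b24_nt.Sm
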