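import Pool.Agent.Lib.MP_291b24_nt.Sm.WWB

/-! The sum over n under the integral -/

set_option autoImplicit false

open Complex MeasureTheory

namespace Pool.Agent.MP_291b24_nt.Sm

/-- the sum over `n ≠ 1` under the integral -/
noncomputable def QQ (M K : ℕ) (X : ℝ) (s z : ℂ) : ℂ :=
  ∑' n : ℕ, if Odd n ∧ Squarefree n ∧ n ≠ 1 then (ups M (n / (K ^ 2 * X)) : ℂ) * qn n s z else 0

private theorem qqa_norm (M : ℕ) (x : ℝ) : ‖(ups M x : ℂ)‖ = ups M x := by
  unfold ups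
  rw [Complex.norm_real, Real.norm_eq_abs, abs_of_pos (Real.exp_pos _)]

private theorem qqa_nonneg (M : ℕ) (x : ℝ) : 0 ≤ ups M x := (Real.exp_pos _).le

private theorem qqa_exp {c A : ℝ} (hc : 0 < c) (hA : 0 < A) :
    ∃ C : ℝ, 0 < C ∧ ∀ x : ℝ, 0 ≤ x → (x + 2) ^ A ≤ C * Real.exp (c * x) := by
  have hd : 0 < c / A := div_pos hc hA
  have hB : 0 < 2 + 1 / (c / A) := by positivity
  refine ⟨(2 + 1 / (c / A)) ^ A, Real.rpow_pos_of_pos hB A, fun x hx => ?_⟩
  have h1 : x + 2 ≤ (2 + 1 / (c / A)) * Real.exp (c / A * x) := by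
    have h2 := Real.add_one_le_exp (c / A * x)
    have h3 : (2 + 1 / (c / A)) * (c / A * x + 1) = 2 * (c / A * x) + x + 2 + 1 / (c / A) := by
      have h4 : 1 / (c / A) * (c / A * x) = x := by
        rw [← mul_assoc, one_div_mul_cancel hd.ne', one_mul]
      linear_combination h4
    have h5 : 0 ≤ c / A * x := by positivity
    have h6 : 0 < 1 / (c / A) := by positivity
    have h7 := mul_le_mul_of_nonneg_left h2 hB.le
    linarith
  calc (x + 2) ^ A ≤ ((2 + 1 / (c / A)) * Real.exp (c / A * x)) ^ A :=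
        Real.rpow_le_rpow (by positivity) h1 hA.le
    _ = (2 + 1 / (c / A)) ^ A * Real.exp (c * x) := by
        rw [Real.mul_rpow hB.le (Real.exp_pos _).le, ← Real.exp_mul]
        congr 2
        field_simp

private theorem qqa_dec {r σ : ℝ} (hr : 0 < r) (hr1 : r < 1 / 4) (h0 : 0 < σ) (h1 : σ ≤ 1)
    {K D : ℕ} (hK : 16 ≤ K) (hD : 1 ≤ D) {X : ℝ} (hX : 2 ≤ X) {A : ℝ} (hA : 0 < A) :
    ∃ C : ℝ, 0 < C ∧ ∀ t y : ℝ,
      ‖WW K D X (σ + t * I) (r + y * I)‖ * ((|t| + 2) * (|y| + 2)) ^ A ≤ C := by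
  obtain ⟨c, C₁, hc, hC₁, hoff⟩ := norm_WW_off hr hr1 h0 h1
  obtain ⟨C₂, hC₂, hle⟩ := norm_WW_le hr hr1 h0 h1
  obtain ⟨C₃, hC₃, hexp⟩ := qqa_exp hc hA
  have hX0 : 0 < X := by linarith
  have hXp : 0 < X ^ (σ + r) := Real.rpow_pos_of_pos hX0 _
  have hK0 : (0 : ℝ) < K := by
    have : 0 < K := by omega
    exact_mod_cast this
  have hD0 : (0 : ℝ) < D := by exact_mod_cast hD
  refine ⟨C₁ * D * X ^ (σ + r) * K * Real.exp (-(c * K)) * (C₃ * C₃) +
    C₂ * D * X ^ (σ + r) * K * (7 * K + 2) * ((7 * K + 2) * (7 * K + 2)) ^ A, ?_, fun t y => ?_⟩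
  · have h2 : (0 : ℝ) < ((7 * K + 2) * (7 * K + 2)) ^ A := Real.rpow_pos_of_pos (by positivity) _
    positivity
  have ht := abs_nonneg t
  have hy := abs_nonneg y
  have hT : (0 : ℝ) ≤ ((|t| + 2) * (|y| + 2)) ^ A := Real.rpow_nonneg (by positivity) _
  by_cases hV : (K : ℝ) / 2 ≤ |t + 2 * Real.pi * K| ∨ (K : ℝ) / 2 ≤ |y - 2 * Real.pi * K|
  · have h2 := hoff K D hK hD X hX t y hV
    have h3 : ((|t| + 2) * (|y| + 2)) ^ A ≤
        (C₃ * Real.exp (c * |t|)) * (C₃ * Real.exp (c * |y|)) := by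
      rw [Real.mul_rpow (by positivity) (by positivity)]
      exact mul_le_mul (hexp _ ht) (hexp _ hy) (Real.rpow_nonneg (by positivity) _)
        (by positivity)
    have h4 : Real.exp (-(c * (|t| + |y|))) *
        ((C₃ * Real.exp (c * |t|)) * (C₃ * Real.exp (c * |y|))) = C₃ * C₃ := by
      have h5 : Real.exp (-(c * (|t| + |y|))) * (Real.exp (c * |t|) * Real.exp (c * |y|)) = 1 := by
        rw [← Real.exp_add, ← Real.exp_add]
        have h6 : -(c * (|t| + |y|)) + (c * |t| + c * |y|) = 0 := by ring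
        rw [h6, Real.exp_zero]
      linear_combination (C₃ * C₃) * h5
    have h6 := mul_le_mul h2 h3 hT (by positivity)
    have h7 : C₁ * (D : ℝ) * X ^ (σ + r) * K * Real.exp (-(c * K)) *
        Real.exp (-(c * (|t| + |y|))) * ((C₃ * Real.exp (c * |t|)) * (C₃ * Real.exp (c * |y|))) =
        C₁ * D * X ^ (σ + r) * K * Real.exp (-(c * K)) * (C₃ * C₃) := by
      rw [mul_assoc (C₁ * (D : ℝ) * X ^ (σ + r) * K * Real.exp (-(c * K))), h4]
    rw [h7] at h6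
    have h8 : (0 : ℝ) ≤ C₂ * D * X ^ (σ + r) * K * (7 * K + 2) *
        ((7 * K + 2) * (7 * K + 2)) ^ A := by
      have h9 : (0 : ℝ) < ((7 * K + 2) * (7 * K + 2)) ^ A := Real.rpow_pos_of_pos (by positivity) _
      positivity
    linarith
  · rw [not_or, not_le, not_le] at hV
    have hp := Real.pi_lt_d2
    have hp0 := Real.pi_pos
    have hpK : 2 * Real.pi * K ≤ 6.3 * K := by nlinarith
    have hpK0 : 0 ≤ 2 * Real.pi * K := by positivity
    have ht7 : |t| ≤ 7 * K := by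
      have h3 := abs_lt.1 hV.1
      rw [abs_le]
      constructor <;> linarith
    have hy7 : |y| ≤ 7 * K := by
      have h3 := abs_lt.1 hV.2
      rw [abs_le]
      constructor <;> linarith
    have h2 := hle K D hK hD X hX t y
    have h3 : ‖WW K D X (σ + t * I) (r + y * I)‖ ≤
        C₂ * (D : ℝ) * X ^ (σ + r) * K * (7 * K + 2) := by
      refine h2.trans (mul_le_mul_of_nonneg_left (by linarith) (by positivity))
    have h4 : ((|t| + 2) * (|y| + 2)) ^ A ≤ ((7 * K + 2) * (7 * K + 2) : ℝ) ^ A := by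
      refine Real.rpow_le_rpow (by positivity) ?_ hA.le
      exact mul_le_mul (by linarith) (by linarith) (by positivity) (by positivity)
    have h5 := mul_le_mul h3 h4 hT (by positivity)
    have h6 : (0 : ℝ) ≤ C₁ * D * X ^ (σ + r) * K * Real.exp (-(c * K)) * (C₃ * C₃) := by
      positivity
    linarith

private theorem qqa_contL {n : ℕ} (hn : Odd n) (hs : Squarefree n) (h1 : n ≠ 1) :
    Continuous (Lchi n) := by
  have h0 : n ≠ 0 := by
    rintro rfl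
    simp at hn
  have : NeZero n := ⟨h0⟩
  have e : Lchi n = (chi n).LFunction := by
    funext s
    unfold Lchi
    rw [dif_neg h0]
  rw [e]
  exact (DirichletCharacter.differentiable_LFunction (chi_ne_one h1 hn hs)).continuous

private theorem qqa_meas {r σ : ℝ} (h0 : 0 < σ) {K D n : ℕ} (hD : 1 ≤ D) {X : ℝ} (hX : 2 ≤ X)
    (hn : Odd n) (hs : Squarefree n) (h1 : n ≠ 1) :
    Measurable (fun p : ℝ × ℝ => WW K D X (σ + p.2 * I) (r + p.1 * I) *
      qn n (σ + p.2 * I) (r + p.1 * I)) := by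
  have hsc : Continuous (fun p : ℝ × ℝ => (σ : ℂ) + (p.2 : ℂ) * I) := by fun_prop
  have hzc : Continuous (fun p : ℝ × ℝ => (r : ℂ) + (p.1 : ℂ) * I) := by fun_prop
  have hX0 : (X : ℂ) ≠ 0 := by
    rw [Complex.ofReal_ne_zero]
    linarith
  have hDX : ((4 * D * X : ℝ) : ℂ) ≠ 0 := by
    rw [Complex.ofReal_ne_zero]
    have : (0 : ℝ) < D := by exact_mod_cast hD
    have : 0 < X := by linarith
    positivity
  have hn0 : (n : ℂ) ≠ 0 := by
    rw [Nat.cast_ne_zero]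
    rintro rfl
    simp at hn
  have hG : Continuous (fun p : ℝ × ℝ => Gamma (K + ((σ : ℂ) + (p.2 : ℂ) * I))) := by
    rw [continuous_iff_continuousAt]
    intro p
    have h2 : DifferentiableAt ℂ Gamma (K + ((σ : ℂ) + (p.2 : ℂ) * I)) := by
      refine differentiableAt_Gamma _ fun m hm => ?_
      have h3 := congrArg Complex.re hm
      simp at h3
      have h4 : (0 : ℝ) ≤ K := Nat.cast_nonneg K
      have h5 : (0 : ℝ) ≤ m := Nat.cast_nonneg m
      linarith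
    exact ContinuousAt.comp (f := fun p : ℝ × ℝ => (K : ℂ) + ((σ : ℂ) + (p.2 : ℂ) * I))
      h2.continuousAt (by fun_prop)
  have hb : (1 - 2 * Real.pi * I : ℂ) ≠ 0 := by
    intro h
    have h3 := congrArg Complex.re h
    simp at h3
  have hw : Continuous (fun p : ℝ × ℝ => wM K ((σ : ℂ) + (p.2 : ℂ) * I)) := by
    unfold wM
    exact (continuous_const.mul hG).mul (Continuous.const_cpow (by fun_prop) (Or.inl hb))
  have hp : Continuous (fun p : ℝ × ℝ => pM K ((r : ℂ) + (p.1 : ℂ) * I)) := by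
    unfold pM
    fun_prop
  have hWW : Continuous (fun p : ℝ × ℝ => WW K D X (σ + p.2 * I) (r + p.1 * I)) := by
    unfold WW
    exact (((hw.mul hp).mul (Continuous.const_cpow hsc (Or.inl hX0))).mul
      (Continuous.const_cpow hzc (Or.inl hDX))).mul
      (differentiable_HH.continuous.comp (continuous_const.mul hsc))
  have hL := qqa_contL hn hs h1
  have hq : Measurable (fun p : ℝ × ℝ => qn n (σ + p.2 * I) (r + p.1 * I)) := by
    unfold qn
    have h2 : Continuous (fun p : ℝ × ℝ => epsb n * (n : ℂ) ^ (-((σ : ℂ) + (p.2 : ℂ) * I)) *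
        Lchi n (1 / 2 + ((r : ℂ) + (p.1 : ℂ) * I) + 2 * ((σ : ℂ) + (p.2 : ℂ) * I))) :=
      (continuous_const.mul (Continuous.const_cpow hsc.neg (Or.inl hn0))).mul
        (hL.comp (by fun_prop))
    have h3 : Continuous (fun p : ℝ × ℝ => Lchi n (1 / 2 + ((r : ℂ) + (p.1 : ℂ) * I))) :=
      hL.comp (by fun_prop)
    exact h2.measurable.mul h3.measurable.inv
  exact hWW.measurable.mul hq

/-- `Tn_eq` and exchange of the sum with the integrals: `norm_WW_le`, `norm_WW_off`, `norm_qn_le`, `ups_sum` -/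
theorem QQ_eq (hG : GRH) {r : ℝ} (hr : 0 < r) (hr1 : r < 1 / 4) {K D M : ℕ} (hK : 16 ≤ K) (hD : 1 ≤ D) (hM : 1 ≤ M)
    {X : ℝ} (hX : 2 ≤ X) {σ : ℝ} (h0 : 0 < σ) (h2 : σ ≤ 1) :
    ∑' n : ℕ, (if Odd n ∧ Squarefree n ∧ n ≠ 1 then (ups M (n / (K ^ 2 * X)) : ℂ) * (epsb n * Tn K D X n) else 0) =
      (1 / (4 * Real.pi ^ 2) : ℂ) * ∫ y : ℝ, ∫ t : ℝ, WW K D X (σ + t * I) (r + y * I) * QQ M K X (σ + t * I) (r + y * I) := by
  classical
  obtain ⟨A, C₀, hA, hC₀, hqn⟩ := norm_qn_le hG hr hr1 h0 h2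
  obtain ⟨C₁, hC₁, hdec⟩ := qqa_dec hr hr1 h0 h2 hK hD hX (A := A + 2) (by linarith)
  have hK1 : (1 : ℝ) ≤ K := by
    have : 1 ≤ K := by omega
    exact_mod_cast this
  have hN : (1 : ℝ) ≤ K ^ 2 * X := by nlinarith
  obtain ⟨C₂, hC₂, hups⟩ := ups_sum A hA.le M hM
  obtain ⟨hsum, -⟩ := hups _ hN
  obtain ⟨a, ha⟩ : ∃ a : ℕ → ℂ, ∀ n, a n = if Odd n ∧ Squarefree n ∧ n ≠ 1 then
      (ups M (n / (K ^ 2 * X)) : ℂ) else 0 := ⟨_, fun _ => rfl⟩
  have han : ∀ n, ‖a n‖ ≤ ups M (n / (K ^ 2 * X)) := by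
    intro n
    rw [ha]
    split_ifs
    · rw [qqa_norm]
    · rw [norm_zero]
      exact qqa_nonneg _ _
  obtain ⟨G, hGd⟩ : ∃ G : ℕ → ℝ → ℝ → ℂ, ∀ n y t, G n y t = a n *
      (WW K D X (σ + t * I) (r + y * I) * qn n (σ + t * I) (r + y * I)) := ⟨_, fun _ _ _ => rfl⟩
  obtain ⟨b, hb⟩ : ∃ b : ℕ → ℝ, ∀ n, b n =
      (C₀ * C₁) * ((n : ℝ) ^ A * ups M (n / (K ^ 2 * X))) := ⟨_, fun _ => rfl⟩
  have hb0 : ∀ n, 0 ≤ b n := by
    intro n
    rw [hb]
    exact mul_nonneg (by positivity)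
      (mul_nonneg (Real.rpow_nonneg (Nat.cast_nonneg _) _) (qqa_nonneg _ _))
  have hbs : Summable b := by
    have e : b = fun n : ℕ => (C₀ * C₁) * ((n : ℝ) ^ A * ups M (n / (K ^ 2 * X))) := funext hb
    rw [e]
    exact hsum.mul_left _
  have hGb : ∀ n y t, ‖G n y t‖ ≤ b n * ((1 + y ^ 2)⁻¹ * (1 + t ^ 2)⁻¹) := by
    intro n y t
    have hpos : (0 : ℝ) ≤ (1 + y ^ 2)⁻¹ * (1 + t ^ 2)⁻¹ := by positivity
    by_cases hn : Odd n ∧ Squarefree n ∧ n ≠ 1
    · have h3 := hqn n hn.1 hn.2.1 hn.2.2 t y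
      have h4 := hdec t y
      have ht := abs_nonneg t
      have hy := abs_nonneg y
      have hT0 : (0 : ℝ) < (|t| + 2) * (|y| + 2) := by positivity
      have h5 : ((n : ℝ) * (|t| + 2) * (|y| + 2)) ^ A =
          (n : ℝ) ^ A * ((|t| + 2) * (|y| + 2)) ^ A := by
        rw [mul_assoc, Real.mul_rpow (Nat.cast_nonneg _) hT0.le]
      have h6 : ((|t| + 2) * (|y| + 2)) ^ (A + 2) =
          ((|t| + 2) * (|y| + 2)) ^ A * ((|t| + 2) * (|y| + 2)) ^ 2 := by
        rw [Real.rpow_add hT0]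
        norm_num
      have h7 : (1 + y ^ 2) * (1 + t ^ 2) ≤ ((|t| + 2) * (|y| + 2)) ^ 2 := by
        have h8 : 1 + t ^ 2 ≤ (|t| + 2) ^ 2 := by nlinarith [sq_abs t]
        have h9 : 1 + y ^ 2 ≤ (|y| + 2) ^ 2 := by nlinarith [sq_abs y]
        calc (1 + y ^ 2) * (1 + t ^ 2) ≤ (|y| + 2) ^ 2 * (|t| + 2) ^ 2 :=
              mul_le_mul h9 h8 (by positivity) (by positivity)
          _ = _ := by ring
      have h10 : ‖WW K D X (σ + t * I) (r + y * I)‖ * ((|t| + 2) * (|y| + 2)) ^ A ≤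
          C₁ * ((1 + y ^ 2)⁻¹ * (1 + t ^ 2)⁻¹) := by
        rw [← mul_inv, ← div_eq_mul_inv, le_div_iff₀ (by positivity)]
        refine le_trans ?_ h4
        rw [h6, ← mul_assoc (‖WW K D X (σ + t * I) (r + y * I)‖) (((|t| + 2) * (|y| + 2)) ^ A)
          (((|t| + 2) * (|y| + 2)) ^ 2)]
        have h11 : 0 ≤ ‖WW K D X (σ + t * I) (r + y * I)‖ * ((|t| + 2) * (|y| + 2)) ^ A :=
          mul_nonneg (norm_nonneg (WW K D X (σ + t * I) (r + y * I)))
            (Real.rpow_nonneg hT0.le _)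
        exact mul_le_mul_of_nonneg_left h7 h11
      rw [hGd, norm_mul, norm_mul, hb]
      rw [h5] at h3
      have hnA : 0 ≤ (n : ℝ) ^ A := Real.rpow_nonneg (Nat.cast_nonneg _) _
      calc ‖a n‖ * (‖WW K D X (σ + t * I) (r + y * I)‖ * ‖qn n (σ + t * I) (r + y * I)‖)
          ≤ ups M (n / (K ^ 2 * X)) * (‖WW K D X (σ + t * I) (r + y * I)‖ *
            (C₀ * ((n : ℝ) ^ A * ((|t| + 2) * (|y| + 2)) ^ A))) := by
            refine mul_le_mul (han n) (mul_le_mul_of_nonneg_left h3 (norm_nonneg _))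
              (by positivity) (qqa_nonneg _ _)
        _ = ups M (n / (K ^ 2 * X)) * (C₀ * (n : ℝ) ^ A) *
            (‖WW K D X (σ + t * I) (r + y * I)‖ * ((|t| + 2) * (|y| + 2)) ^ A) := by ring
        _ ≤ ups M (n / (K ^ 2 * X)) * (C₀ * (n : ℝ) ^ A) *
            (C₁ * ((1 + y ^ 2)⁻¹ * (1 + t ^ 2)⁻¹)) :=
            mul_le_mul_of_nonneg_left h10
              (mul_nonneg (qqa_nonneg _ _) (mul_nonneg hC₀.le hnA))
        _ = _ := by ring
    · have h3 : a n = 0 := by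
        rw [ha, if_neg hn]
      rw [hGd, h3, zero_mul, norm_zero]
      exact mul_nonneg (hb0 n) hpos
  have hGm : ∀ n, Measurable (fun p : ℝ × ℝ => G n p.1 p.2) := by
    intro n
    by_cases hn : Odd n ∧ Squarefree n ∧ n ≠ 1
    · simp only [hGd]
      exact measurable_const.mul (qqa_meas h0 hD hX hn.1 hn.2.1 hn.2.2)
    · have h3 : a n = 0 := by
        rw [ha, if_neg hn]
      simp only [hGd, h3, zero_mul]
      exact measurable_const
  have hI : Integrable (fun x : ℝ => (1 + x ^ 2)⁻¹) := integrable_inv_one_add_sq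
  have hint : ∀ n, Integrable (fun p : ℝ × ℝ => G n p.1 p.2) (volume.prod volume) := by
    intro n
    refine ((hI.mul_prod hI).const_mul (b n)).mono' (hGm n).aestronglyMeasurable
      (Filter.Eventually.of_forall fun p => ?_)
    exact hGb n p.1 p.2
  have hinn : ∀ n y, Integrable (fun t => G n y t) := by
    intro n y
    refine ((hI.const_mul (b n * (1 + y ^ 2)⁻¹))).mono'
      ((hGm n).comp measurable_prodMk_left).aestronglyMeasurable
      (Filter.Eventually.of_forall fun t => ?_)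
    have h3 := hGb n y t
    rw [← mul_assoc] at h3
    exact h3
  have hP : 0 ≤ ∫ x : ℝ, (1 + x ^ 2)⁻¹ := integral_nonneg fun x => by positivity
  have hnn : ∀ n y, ∫ t, ‖G n y t‖ ≤ b n * (1 + y ^ 2)⁻¹ * ∫ x : ℝ, (1 + x ^ 2)⁻¹ := by
    intro n y
    rw [← integral_const_mul]
    refine integral_mono (hinn n y).norm (hI.const_mul _) fun t => ?_
    have h3 := hGb n y t
    rw [← mul_assoc] at h3
    exact h3
  have hsin : ∀ y, HasSum (fun n => ∫ t, G n y t) (∫ t, ∑' n, G n y t) := by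
    intro y
    refine hasSum_integral_of_summable_integral_norm (fun n => hinn n y) ?_
    have h3 : ∀ n, 0 ≤ ∫ t, ‖G n y t‖ := fun n =>
      integral_nonneg (f := fun t => ‖G n y t‖) fun t => norm_nonneg (G n y t)
    exact Summable.of_nonneg_of_le h3 (fun n => hnn n y)
      ((hbs.mul_right ((1 + y ^ 2)⁻¹)).mul_right _)
  have hout : HasSum (fun n => ∫ y, ∫ t, G n y t) (∫ y, ∑' n, ∫ t, G n y t) := by
    have hoi : ∀ n, Integrable (fun y => ∫ t, G n y t) := fun n => (hint n).integral_prod_left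
    refine hasSum_integral_of_summable_integral_norm hoi ?_
    have h4 : ∀ n, 0 ≤ ∫ y, ‖∫ t, G n y t‖ := fun n =>
      integral_nonneg (f := fun y => ‖∫ t, G n y t‖) fun y => norm_nonneg (∫ t, G n y t)
    refine Summable.of_nonneg_of_le h4
      (fun n => ?_) (hbs.mul_right ((∫ x : ℝ, (1 + x ^ 2)⁻¹) * ∫ x : ℝ, (1 + x ^ 2)⁻¹))
    have h3 : ∫ y : ℝ, (b n * (1 + y ^ 2)⁻¹ * ∫ x : ℝ, (1 + x ^ 2)⁻¹) =
        b n * ((∫ x : ℝ, (1 + x ^ 2)⁻¹) * ∫ x : ℝ, (1 + x ^ 2)⁻¹) := by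
      rw [integral_mul_const, integral_const_mul, mul_assoc]
    rw [← h3]
    refine integral_mono (hoi n).norm ((hI.const_mul _).mul_const _) fun y => ?_
    exact (norm_integral_le_integral_norm _).trans (hnn n y)
  have hlhs : ∀ n : ℕ, (if Odd n ∧ Squarefree n ∧ n ≠ 1 then
      (ups M (n / (K ^ 2 * X)) : ℂ) * (epsb n * Tn K D X n) else 0) =
      (1 / (4 * Real.pi ^ 2) : ℂ) * ∫ y, ∫ t, G n y t := by
    intro n
    simp only [hGd]
    have h3 : ∀ y : ℝ, ∫ t : ℝ, a n *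
        (WW K D X (σ + t * I) (r + y * I) * qn n (σ + t * I) (r + y * I)) =
        a n * ∫ t : ℝ, WW K D X (σ + t * I) (r + y * I) * qn n (σ + t * I) (r + y * I) := fun y =>
      integral_const_mul _ _
    simp only [h3]
    rw [integral_const_mul, ha]
    by_cases hn : Odd n ∧ Squarefree n ∧ n ≠ 1
    · rw [if_pos hn, if_pos hn, Tn_eq hG hr hr1 (by omega) hD hn.1 hn.2.1 hX h0 h2
        fun h => absurd h hn.2.2]
      ring
    · rw [if_neg hn, if_neg hn]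
      ring
  have hrhs : ∀ y t : ℝ, ∑' n, G n y t =
      WW K D X (σ + t * I) (r + y * I) * QQ M K X (σ + t * I) (r + y * I) := by
    intro y t
    unfold QQ
    rw [← tsum_mul_left]
    refine tsum_congr fun n => ?_
    rw [hGd, ha]
    split_ifs
    · ring
    · ring
  simp only [hlhs]
  rw [tsum_mul_left, hout.tsum_eq]
  congr 1
  refine integral_congr_ae (Filter.Eventually.of_forall fun y => ?_)
  simp only
  rw [(hsin y).tsum_eq]
  refine integral_congr_ae (Filter.Eventually.of_forall fun t => ?_)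
  exact hrhs y t

theorem norm_QQ_le (hG : GRH) {r σ : ℝ} (hr : 0 < r) (hr1 : r < 1 / 4) (h0 : 0 < σ) (h1 : σ ≤ 1) :
    ∃ A : ℝ, 0 < A ∧ ∀ M : ℕ, 1 ≤ M → ∃ C : ℝ, 0 < C ∧ ∀ K : ℕ, 16 ≤ K → ∀ X : ℝ, 2 ≤ X → ∀ t y : ℝ,
      ‖QQ M K X (σ + t * I) (r + y * I)‖ ≤ C * (K ^ 2 * X * (|t| + 2) * (|y| + 2)) ^ A := by
  obtain ⟨A, C₀, hA, hC₀, hqn⟩ := norm_qn_le hG hr hr1 h0 h1
  refine ⟨A + 1, by linarith, fun M hM => ?_⟩
  obtain ⟨C₂, hC₂, hups⟩ := ups_sum A hA.le M hM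
  refine ⟨C₀ * C₂, by positivity, fun K hK X hX t y => ?_⟩
  have hK1 : (1 : ℝ) ≤ K := by
    have : 1 ≤ K := by omega
    exact_mod_cast this
  have hN : (1 : ℝ) ≤ K ^ 2 * X := by nlinarith
  obtain ⟨hsum, hle⟩ := hups _ hN
  have ht := abs_nonneg t
  have hy := abs_nonneg y
  have hT1 : (1 : ℝ) ≤ (|t| + 2) * (|y| + 2) := by nlinarith
  have hT0 : (0 : ℝ) < (|t| + 2) * (|y| + 2) := by positivity
  have hterm : ∀ n : ℕ, ‖(if Odd n ∧ Squarefree n ∧ n ≠ 1 then (ups M (n / (K ^ 2 * X)) : ℂ) *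
      qn n (σ + t * I) (r + y * I) else 0)‖ ≤
      (C₀ * ((|t| + 2) * (|y| + 2)) ^ A) * ((n : ℝ) ^ A * ups M (n / (K ^ 2 * X))) := by
    intro n
    split_ifs with hn
    · rw [norm_mul, qqa_norm]
      have h3 := hqn n hn.1 hn.2.1 hn.2.2 t y
      rw [mul_assoc (n : ℝ), Real.mul_rpow (Nat.cast_nonneg _) hT0.le] at h3
      calc ups M (n / (K ^ 2 * X)) * ‖qn n (σ + t * I) (r + y * I)‖ ≤
            ups M (n / (K ^ 2 * X)) * (C₀ * ((n : ℝ) ^ A * ((|t| + 2) * (|y| + 2)) ^ A)) :=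
            mul_le_mul_of_nonneg_left h3 (qqa_nonneg _ _)
        _ = _ := by ring
    · rw [norm_zero]
      exact mul_nonneg (mul_nonneg hC₀.le (Real.rpow_nonneg hT0.le _))
        (mul_nonneg (Real.rpow_nonneg (Nat.cast_nonneg _) _) (qqa_nonneg _ _))
  have hs2 : Summable (fun n : ℕ => (C₀ * ((|t| + 2) * (|y| + 2)) ^ A) *
      ((n : ℝ) ^ A * ups M (n / (K ^ 2 * X)))) := hsum.mul_left _
  have hs3 := Summable.of_nonneg_of_le (fun n => norm_nonneg _) hterm hs2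
  unfold QQ
  refine (norm_tsum_le_tsum_norm hs3).trans ((hs3.tsum_le_tsum hterm hs2).trans ?_)
  rw [tsum_mul_left]
  have hNT : (0 : ℝ) < K ^ 2 * X := by linarith
  calc C₀ * ((|t| + 2) * (|y| + 2)) ^ A * ∑' n : ℕ, (n : ℝ) ^ A * ups M (n / (K ^ 2 * X))
      ≤ C₀ * ((|t| + 2) * (|y| + 2)) ^ A * (C₂ * (K ^ 2 * X) ^ (A + 1)) :=
        mul_le_mul_of_nonneg_left hle (mul_nonneg hC₀.le (Real.rpow_nonneg hT0.le _))
    _ ≤ C₀ * ((|t| + 2) * (|y| + 2)) ^ (A + 1) * (C₂ * (K ^ 2 * X) ^ (A + 1)) := by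
        refine mul_le_mul_of_nonneg_right (mul_le_mul_of_nonneg_left ?_ hC₀.le)
          (mul_nonneg hC₂.le (Real.rpow_nonneg hNT.le _))
        exact Real.rpow_le_rpow_of_exponent_le hT1 (by linarith)
    _ = C₀ * C₂ * (K ^ 2 * X * (|t| + 2) * (|y| + 2)) ^ (A + 1) := by
        rw [mul_assoc ((K : ℝ) ^ 2 * X), Real.mul_rpow hNT.le hT0.le]
        ring

end Pool.Agent.MP_291b24_nt.Sm
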