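import Mathlib

/-! Lemma AB -/

set_option autoImplicit false

open Complex Metric

namespace Pool.Agent.MP_291b24_nt.Sm

/-- a holomorphic logarithm on a disc (primitive of `F' / F`) -/
theorem exists_log {F : ℂ → ℂ} {z₀ : ℂ} {ρ : ℝ} (hρ : 0 < ρ) (hF : DifferentiableOn ℂ F (ball z₀ ρ))
    (h0 : ∀ z ∈ ball z₀ ρ, F z ≠ 0) : ∃ f : ℂ → ℂ, DifferentiableOn ℂ f (ball z₀ ρ) ∧
      (∀ z ∈ ball z₀ ρ, cexp (f z) = F z) ∧ f z₀ = Complex.log (F z₀) := by
  have hz₀ : z₀ ∈ ball z₀ ρ := mem_ball_self hρ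
  have hd : DifferentiableOn ℂ (fun z => deriv F z / F z) (ball z₀ ρ) :=
    (hF.deriv isOpen_ball).div hF h0
  obtain ⟨f, hf0, hf⟩ := hd.isExactOn_ball.with_val_at z₀ (Complex.log (F z₀))
  have hfd : DifferentiableOn ℂ f (ball z₀ ρ) := fun z hz => (hf z hz).differentiableAt.differentiableWithinAt
  refine ⟨f, hfd, ?_, hf0⟩
  intro z hz
  have hder : ∀ w ∈ ball z₀ ρ, HasDerivAt (fun w => F w * cexp (-(f w))) 0 w := by
    intro w hw
    have h1 : HasDerivAt F (deriv F w) w :=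
      ((hF w hw).differentiableAt (isOpen_ball.mem_nhds hw)).hasDerivAt
    have h2 : HasDerivAt (fun w => cexp (-(f w))) (cexp (-(f w)) * (-(deriv F w / F w))) w :=
      (hf w hw).neg.cexp
    have h3 := h1.mul h2
    have h4 : deriv F w * cexp (-(f w)) + F w * (cexp (-(f w)) * (-(deriv F w / F w))) = 0 := by
      have := h0 w hw
      field_simp
      ring
    rw [h4] at h3
    exact h3
  have hconst : F z * cexp (-(f z)) = F z₀ * cexp (-(f z₀)) := by
    refine isOpen_ball.is_const_of_deriv_eq_zero (𝕜 := ℂ) (f := fun w => F w * cexp (-(f w)))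
      (convex_ball z₀ ρ).isPreconnected ?_ ?_ hz hz₀
    · intro w hw
      exact (hder w hw).differentiableAt.differentiableWithinAt
    · intro w hw
      exact (hder w hw).deriv
  rw [hf0, Complex.exp_neg, Complex.exp_neg, Complex.exp_log (h0 z₀ hz₀), mul_inv_cancel₀ (h0 z₀ hz₀)] at hconst
  have h5 := Complex.exp_ne_zero (f z)
  field_simp at hconst
  exact hconst.symm

/-- Borel-Caratheodory (`Complex.borelCaratheodory`) for `f - f z₀`: `Re (f - f z₀) ≤ A` on `ball z₀ ρ` gives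
`|f - f z₀| ≤ 2 A ρ' / (ρ - ρ')` on `closedBall z₀ ρ'`. -/
theorem bc_disc {f : ℂ → ℂ} {z₀ : ℂ} {ρ ρ' A : ℝ} (hρ' : 0 < ρ') (hρ : ρ' < ρ) (hf : DifferentiableOn ℂ f (ball z₀ ρ))
    (hA : 0 < A) (hre : ∀ z ∈ ball z₀ ρ, (f z - f z₀).re ≤ A) (z : ℂ) (hz : z ∈ closedBall z₀ ρ') :
    ‖f z - f z₀‖ ≤ 2 * A * ρ' / (ρ - ρ') := by
  have hmem : ∀ w ∈ ball (0 : ℂ) ρ, z₀ + w ∈ ball z₀ ρ := by
    intro w hw
    simpa using hw
  have hzn : ‖z - z₀‖ ≤ ρ' := by
    rw [← dist_eq_norm]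
    exact mem_closedBall.1 hz
  have h := borelCaratheodory_zero (f := fun w => f (z₀ + w) - f z₀) (M := A) (R := ρ) (z := z - z₀) hA ?_ ?_
    (hρ'.trans hρ) ?_ ?_
  · have h' : ‖f z - f z₀‖ ≤ 2 * A * ‖z - z₀‖ / (ρ - ‖z - z₀‖) := by
      simpa using h
    refine h'.trans ?_
    have h1 : 0 < ρ - ρ' := by linarith
    have h2 : ρ - ρ' ≤ ρ - ‖z - z₀‖ := by linarith
    gcongr
  · refine DifferentiableOn.sub_const ?_ _
    exact hf.comp (by fun_prop) hmem
  · intro w hw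
    exact hre _ (hmem w hw)
  · rw [mem_ball_zero_iff]
    exact hzn.trans_lt hρ
  · simp

/-- Hadamard's three circles theorem: the three lines theorem for `w ↦ g (z₀ + e^w)` on `log r₁ ≤ Re w ≤ log r₃`
(`Complex.HadamardThreeLines.norm_le_interp_of_mem_verticalClosedStrip'` or similar). -/
theorem three_circles {g : ℂ → ℂ} {z₀ : ℂ} {r₁ r₂ r₃ M₁ M₃ : ℝ} (h1 : 0 < r₁) (h2 : r₁ ≤ r₂) (h3 : r₂ < r₃)
    (hg : DifferentiableOn ℂ g (ball z₀ r₃)) (hgc : ContinuousOn g (closedBall z₀ r₃)) (hM1 : 0 < M₁) (hM3 : 0 < M₃)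
    (hb1 : ∀ z ∈ closedBall z₀ r₁, ‖g z‖ ≤ M₁) (hb3 : ∀ z ∈ closedBall z₀ r₃, ‖g z‖ ≤ M₃) (z : ℂ) (hz : z ∈ closedBall z₀ r₂)
    (hM : M₁ ≤ M₃) :
    ‖g z‖ ≤ M₁ ^ (1 - Real.log (r₂ / r₁) / Real.log (r₃ / r₁)) * M₃ ^ (Real.log (r₂ / r₁) / Real.log (r₃ / r₁)) := by
  have hr2 : 0 < r₂ := h1.trans_le h2
  have hr3 : 0 < r₃ := hr2.trans h3
  have hlu : Real.log r₁ < Real.log r₃ := Real.log_lt_log h1 (h2.trans_lt h3)
  set κ := Real.log (r₂ / r₁) / Real.log (r₃ / r₁) with hκ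
  have hκ' : κ = (Real.log r₂ - Real.log r₁) / (Real.log r₃ - Real.log r₁) := by
    rw [hκ, Real.log_div hr2.ne' h1.ne', Real.log_div hr3.ne' h1.ne']
  -- monotonicity in the exponent
  have hmono : ∀ s t : ℝ, s ≤ t → M₁ ^ (1 - s) * M₃ ^ s ≤ M₁ ^ (1 - t) * M₃ ^ t := by
    intro s t hst
    have e : ∀ x : ℝ, M₁ ^ (1 - x) * M₃ ^ x = M₁ * (M₃ / M₁) ^ x := by
      intro x
      rw [Real.rpow_sub hM1, Real.rpow_one, Real.div_rpow hM3.le hM1.le]
      ring
    rw [e, e]
    exact mul_le_mul_of_nonneg_left (Real.rpow_le_rpow_of_exponent_le ((one_le_div hM1).2 hM) hst) hM1.le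
  have hzn : ‖z - z₀‖ ≤ r₂ := by
    rw [← dist_eq_norm]
    exact mem_closedBall.1 hz
  by_cases hzr : ‖z - z₀‖ ≤ r₁
  · have hz1 : z ∈ closedBall z₀ r₁ := by
      rw [mem_closedBall, dist_eq_norm]
      exact hzr
    refine (hb1 z hz1).trans ?_
    have hκ0 : 0 ≤ κ := by
      rw [hκ']
      exact div_nonneg (sub_nonneg.2 (Real.log_le_log h1 h2)) (sub_nonneg.2 hlu.le)
    have := hmono 0 κ hκ0
    simpa using this
  · push Not at hzr
    have hz0 : z - z₀ ≠ 0 := by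
      intro h
      rw [h, norm_zero] at hzr
      linarith
    have hmap : ∀ w : ℂ, dist (z₀ + cexp w) z₀ = Real.exp w.re := by
      intro w
      rw [dist_eq_norm, add_sub_cancel_left, Complex.norm_exp]
    have hcl : ∀ w ∈ HadamardThreeLines.verticalClosedStrip (Real.log r₁) (Real.log r₃), z₀ + cexp w ∈ closedBall z₀ r₃ := by
      intro w hw
      rw [mem_closedBall, hmap]
      calc Real.exp w.re ≤ Real.exp (Real.log r₃) := Real.exp_le_exp.2 hw.2
        _ = r₃ := Real.exp_log hr3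
    have hop : ∀ w ∈ HadamardThreeLines.verticalStrip (Real.log r₁) (Real.log r₃), z₀ + cexp w ∈ ball z₀ r₃ := by
      intro w hw
      rw [mem_ball, hmap]
      calc Real.exp w.re < Real.exp (Real.log r₃) := Real.exp_lt_exp.2 hw.2
        _ = r₃ := Real.exp_log hr3
    have hclo : closure (HadamardThreeLines.verticalStrip (Real.log r₁) (Real.log r₃)) ⊆
        HadamardThreeLines.verticalClosedStrip (Real.log r₁) (Real.log r₃) := by
      refine closure_minimal ?_ (isClosed_Icc.preimage continuous_re)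
      exact Set.preimage_mono Set.Ioo_subset_Icc_self
    have hd : DiffContOnCl ℂ (fun w => g (z₀ + cexp w)) (HadamardThreeLines.verticalStrip (Real.log r₁) (Real.log r₃)) := by
      constructor
      · exact hg.comp (by fun_prop) hop
      · exact hgc.comp (by fun_prop) (fun w hw => hcl w (hclo hw))
    have hB : BddAbove ((norm ∘ (fun w => g (z₀ + cexp w))) '' HadamardThreeLines.verticalClosedStrip (Real.log r₁) (Real.log r₃)) := by
      refine ⟨M₃, ?_⟩
      rintro _ ⟨w, hw, rfl⟩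
      exact hb3 _ (hcl w hw)
    have hrelog : (Complex.log (z - z₀)).re = Real.log ‖z - z₀‖ := Complex.log_re _
    have hin : Complex.log (z - z₀) ∈ HadamardThreeLines.verticalClosedStrip (Real.log r₁) (Real.log r₃) := by
      constructor
      · rw [hrelog]
        exact Real.log_le_log h1 hzr.le
      · rw [hrelog]
        exact Real.log_le_log (h1.trans hzr) (hzn.trans h3.le)
    have key := HadamardThreeLines.norm_le_interp_of_mem_verticalClosedStrip' (f := fun w => g (z₀ + cexp w)) (a := M₁) (b := M₃)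
      hlu hin hd hB ?_ ?_
    · simp only [Complex.exp_log hz0] at key
      rw [show z₀ + (z - z₀) = z by ring, hrelog] at key
      refine key.trans (hmono _ _ ?_)
      rw [hκ']
      exact div_le_div_of_nonneg_right (sub_le_sub_right (Real.log_le_log (h1.trans hzr) hzn) _) (sub_nonneg.2 hlu.le)
    · intro w hw
      refine hb1 _ ?_
      rw [mem_closedBall, hmap, show w.re = Real.log r₁ from hw, Real.exp_log h1]
    · intro w hw
      refine hb3 _ ?_
      rw [mem_closedBall, hmap, show w.re = Real.log r₃ from hw, Real.exp_log hr3]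

end Pool.Agent.MP_291b24_nt.Sm
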