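import Pool.Agent.Lib.MP_291b24_nt.Sm.QV

/-! The main terms are polynomially bounded -/

set_option autoImplicit false

open Complex MeasureTheory

namespace Pool.Agent.MP_291b24_nt.Sm

theorem M1_eq (X : ℝ) (α β : ℂ) : M1 X α β = X * M1 1 α β := by
  unfold M1
  rw [ofReal_one]
  ring

theorem M2_eq {X : ℝ} (hX : 0 < X) (α β : ℂ) : M2 X α β = (X : ℂ) ^ (1 - α) * M2 1 α β := by
  unfold M2
  rw [ofReal_one, one_cpow]
  ring

/-- `norm_ratio_le` -/
theorem norm_S_le (hG : GRH) {r a : ℝ} (hr : 0 < r) (hra : r < a) (ha : a < 1 / 4) : ∃ A C : ℝ, 0 < A ∧ 0 < C ∧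
    ∀ X : ℝ, 1 ≤ X → ∀ α β : ℂ, α.re = -a → β.re = r → 1 ≤ |α.im| →
      ‖S X α β‖ ≤ C * (X * (|α.im| + 2) * (|β.im| + 2)) ^ A := by
  obtain ⟨A, C, hA, hC, h⟩ := norm_ratio_le hG hr hra ha
  refine ⟨A + 1, C, by linarith, hC, fun X hX α β hα hβ h1 => ?_⟩
  have hX0 : 0 < X := by linarith
  have hα0 := abs_nonneg α.im
  have hβ0 := abs_nonneg β.im
  have hbound : ∀ n ∈ (Finset.Icc 1 ⌊X⌋₊).filter (fun n => Odd n ∧ Squarefree n),
      ‖Lchi n (1 / 2 + α) * (Lchi n (1 / 2 + β))⁻¹‖ ≤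
        C * (X * (|α.im| + 2) * (|β.im| + 2)) ^ A := by
    intro n hn
    rw [Finset.mem_filter, Finset.mem_Icc] at hn
    obtain ⟨⟨hn1, hn2⟩, ho, hs⟩ := hn
    refine (h n ho hs α β hα hβ h1).trans ?_
    have hnX : (n : ℝ) ≤ X := (Nat.le_floor_iff hX0.le).1 hn2
    refine mul_le_mul_of_nonneg_left ?_ hC.le
    refine Real.rpow_le_rpow (by positivity) ?_ hA.le
    exact mul_le_mul_of_nonneg_right (mul_le_mul_of_nonneg_right hnX (by linarith)) (by linarith)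
  have hcard : ((((Finset.Icc 1 ⌊X⌋₊).filter (fun n => Odd n ∧ Squarefree n)).card : ℕ) : ℝ) ≤
      X := by
    have h2 : ((Finset.Icc 1 ⌊X⌋₊).filter (fun n => Odd n ∧ Squarefree n)).card ≤ ⌊X⌋₊ := by
      refine (Finset.card_filter_le _ _).trans ?_
      rw [Nat.card_Icc]
      omega
    exact (Nat.cast_le.2 h2).trans (Nat.floor_le hX0.le)
  have hY : X ≤ X * (|α.im| + 2) * (|β.im| + 2) := by
    rw [mul_assoc]
    refine le_mul_of_one_le_right hX0.le ?_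
    nlinarith
  have hY0 : 0 < X * (|α.im| + 2) * (|β.im| + 2) := hX0.trans_le hY
  unfold S
  refine (norm_sum_le _ _).trans ((Finset.sum_le_sum hbound).trans ?_)
  rw [Finset.sum_const, nsmul_eq_mul, Real.rpow_add_one hY0.ne']
  set Y : ℝ := X * (|α.im| + 2) * (|β.im| + 2) with hYdef
  have h3 : 0 ≤ Y ^ A := Real.rpow_nonneg hY0.le _
  calc _ ≤ Y * (C * Y ^ A) :=
        mul_le_mul_of_nonneg_right (hcard.trans hY) (mul_nonneg hC.le h3)
    _ = C * (Y ^ A * Y) := by ring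

/-- Let `x = X₁ = X₀ + (25 π K / C₁)^(1/θ)`. `Bd` at `x` and `2x` and `norm_S_le` bound `x m₁ + x^(1-α) m₂` and `2x m₁ + (2x)^(1-α) m₂` by `C K^A`;
`2 (first) - (second) = x^(1-α) m₂ (2 - 2^(1-α))`, `|2 - 2^(1-α)| ≥ 2 (2^a - 1)`. -/
theorem m12_bound (hG : GRH) {r a ε θ C₁ K₀ X₀ : ℝ} (hr : 0 < r) (hra : r < a) (ha : a < 1 / 4) (hε : 0 < ε) (hε1 : ε < 1 / 4) (hθ : 0 < θ)
    (hC₁ : 0 < C₁) (hX₀ : 2 ≤ X₀) (hB : Bd r a ε θ C₁ K₀ X₀) : ∃ A C : ℝ, 0 < A ∧ 0 < C ∧ ∀ K : ℕ, 16 ≤ K → ∀ α β : ℂ, α.re = -a → β.re = r →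
      1 ≤ |α.im| → |α.im| ≤ 25 * Real.pi * K → |β.im| ≤ 25 * Real.pi * K →
      ‖M1 1 α β‖ ≤ C * (K : ℝ) ^ A ∧ ‖M2 1 α β‖ ≤ C * (K : ℝ) ^ A := by
  obtain ⟨A, C, hA, hC, hS⟩ := norm_S_le hG hr hra ha
  have ha0 : 0 < a := hr.trans hra
  have hpi := Real.pi_pos
  set c : ℝ := X₀ + (25 * Real.pi / C₁) ^ (1 / θ) with hc
  have hc1 : 2 ≤ c := by
    have : 0 ≤ (25 * Real.pi / C₁) ^ (1 / θ) := Real.rpow_nonneg (by positivity) _
    rw [hc]
    linarith
  set D : ℝ := 2 * c * (25 * Real.pi + 2) ^ 2 with hD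
  have hD1 : 1 ≤ D := by
    rw [hD]
    nlinarith [mul_pos hpi hpi]
  set q : ℝ := 2 * (2 ^ a - 1) with hq
  have hq0 : 0 < q := by
    have : (1 : ℝ) < 2 ^ a := Real.one_lt_rpow (by norm_num) ha0
    rw [hq]
    linarith
  set B : ℝ := (C + |K₀|) * D ^ (A + 1) with hB'
  have hBpos : 0 < B := by
    have h1 : 0 < D ^ (A + 1) := Real.rpow_pos_of_pos (by linarith) _
    have h2 := abs_nonneg K₀
    rw [hB']
    positivity
  refine ⟨(1 / θ + 2) * (A + 1), (1 + 3 / q) * B, by positivity, by positivity, ?_⟩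
  intro K hK α β hα hβ h1 hαK hβK
  have hK1 : (1 : ℝ) ≤ K := by
    have : (16 : ℝ) ≤ K := by exact_mod_cast hK
    linarith
  have hK0 : (0 : ℝ) < K := by linarith
  set E : ℝ := (K : ℝ) ^ ((1 / θ + 2) * (A + 1)) with hE
  have hE0 : 0 < E := Real.rpow_pos_of_pos hK0 _
  set x : ℝ := X₀ + (25 * Real.pi * K / C₁) ^ (1 / θ) with hx
  have hx0 : 0 ≤ (25 * Real.pi * K / C₁) ^ (1 / θ) := Real.rpow_nonneg (by positivity) _
  have hxX : X₀ ≤ x := by rw [hx]; linarith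
  have hx1 : 1 ≤ x := by linarith
  have hKθ : (1 : ℝ) ≤ (K : ℝ) ^ (1 / θ) := Real.one_le_rpow hK1 (by positivity)
  have hxc : x ≤ c * (K : ℝ) ^ (1 / θ) := by
    have e : (25 * Real.pi * K / C₁) ^ (1 / θ) =
        (25 * Real.pi / C₁) ^ (1 / θ) * (K : ℝ) ^ (1 / θ) := by
      rw [← Real.mul_rpow (by positivity) hK0.le]
      congr 1
      ring
    rw [hx, hc, e, add_mul]
    nlinarith
  have hwin : ∀ y : ℝ, x ≤ y → 25 * Real.pi * K ≤ C₁ * y ^ θ := by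
    intro y hy
    have h2 : (25 * Real.pi * K / C₁) ^ (1 / θ) ≤ y := by
      refine le_trans ?_ hy
      rw [hx]
      linarith
    have h3 : ((25 * Real.pi * K / C₁) ^ (1 / θ)) ^ θ ≤ y ^ θ :=
      Real.rpow_le_rpow hx0 h2 hθ.le
    rw [← Real.rpow_mul (by positivity), one_div, inv_mul_cancel₀ hθ.ne', Real.rpow_one,
      div_le_iff₀ hC₁] at h3
    linarith
  have hmain : ∀ y : ℝ, x ≤ y → y ≤ 2 * x → ‖M1 y α β + M2 y α β‖ ≤ B * E := by
    intro y hy1 hy2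
    have hy : 1 ≤ y := hx1.trans hy1
    have hy0 : 0 < y := by linarith
    have h2 := hB y (hxX.trans hy1) α β hα hβ (hαK.trans (hwin y hy1)) (hβK.trans (hwin y hy1))
    have h3 := hS y hy α β hα hβ h1
    set W : ℝ := D * (K : ℝ) ^ (1 / θ + 2) with hW
    have hWK : (1 : ℝ) ≤ (K : ℝ) ^ (1 / θ + 2) := Real.one_le_rpow hK1 (by positivity)
    have hW1 : 1 ≤ W := by
      rw [hW]
      nlinarith
    have hW0 : 0 < W := by linarith
    have hWE : W ^ (A + 1) = D ^ (A + 1) * E := by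
      rw [hW, Real.mul_rpow (by linarith) (by positivity), hE, Real.rpow_mul hK0.le]
    have hprod : y * (|α.im| + 2) * (|β.im| + 2) ≤ W := by
      have hα2 : |α.im| + 2 ≤ (25 * Real.pi + 2) * K := by linarith
      have hβ2 : |β.im| + 2 ≤ (25 * Real.pi + 2) * K := by linarith
      have hyc : y ≤ 2 * c * (K : ℝ) ^ (1 / θ) := by linarith
      have e : W = 2 * c * (K : ℝ) ^ (1 / θ) * ((25 * Real.pi + 2) * K) *
          ((25 * Real.pi + 2) * K) := by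
        rw [hW, hD, Real.rpow_add hK0, Real.rpow_two]
        ring
      rw [e]
      have hα0 := abs_nonneg α.im
      have hβ0 := abs_nonneg β.im
      have h4 : 0 ≤ 2 * c * (K : ℝ) ^ (1 / θ) := by positivity
      exact mul_le_mul (mul_le_mul hyc hα2 (by linarith) h4) hβ2 (by linarith)
        (mul_nonneg h4 (by positivity))
    have hyW : y ≤ W := by
      refine le_trans ?_ hprod
      rw [mul_assoc]
      refine le_mul_of_one_le_right hy0.le ?_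
      nlinarith [abs_nonneg α.im, abs_nonneg β.im]
    have h4 : ‖S y α β‖ ≤ C * W ^ (A + 1) := by
      refine h3.trans (mul_le_mul_of_nonneg_left ?_ hC.le)
      have hα0 := abs_nonneg α.im
      have hβ0 := abs_nonneg β.im
      refine (Real.rpow_le_rpow (by positivity) hprod hA.le).trans ?_
      exact Real.rpow_le_rpow_of_exponent_le hW1 (by linarith)
    have h5 : K₀ * y ^ (1 / 2 + ε) ≤ |K₀| * W ^ (A + 1) := by
      have h6 : 0 ≤ y ^ (1 / 2 + ε) := Real.rpow_nonneg hy0.le _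
      have h7 : y ^ (1 / 2 + ε) ≤ W ^ (A + 1) :=
        (Real.rpow_le_rpow hy0.le hyW (by linarith)).trans
          (Real.rpow_le_rpow_of_exponent_le hW1 (by linarith))
      exact (mul_le_mul_of_nonneg_right (le_abs_self K₀) h6).trans
        (mul_le_mul_of_nonneg_left h7 (abs_nonneg _))
    have e : M1 y α β + M2 y α β = S y α β - (S y α β - M1 y α β - M2 y α β) := by ring
    rw [e]
    refine (norm_sub_le _ _).trans ?_
    have e2 : B * E = C * W ^ (A + 1) + |K₀| * W ^ (A + 1) := by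
      rw [hB', hWE]
      ring
    rw [e2]
    exact add_le_add h4 (h2.trans h5)
  have hx0' : 0 < x := by linarith
  have m1 := hmain x le_rfl (by linarith)
  have m2 := hmain (2 * x) (by linarith) le_rfl
  set u : ℂ := (x : ℂ) * M1 1 α β with hu
  set v : ℂ := (x : ℂ) ^ (1 - α) * M2 1 α β with hv
  have e1 : M1 x α β + M2 x α β = u + v := by
    rw [M1_eq, M2_eq hx0']
  have e2 : M1 (2 * x) α β + M2 (2 * x) α β = 2 * u + (2 : ℂ) ^ (1 - α) * v := by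
    rw [M1_eq, M2_eq (by linarith : 0 < 2 * x), hu, hv]
    have e3 : ((2 * x : ℝ) : ℂ) ^ (1 - α) = (2 : ℂ) ^ (1 - α) * (x : ℂ) ^ (1 - α) := by
      rw [ofReal_mul, Complex.mul_cpow_ofReal_nonneg (by norm_num) hx0'.le, ofReal_ofNat]
    rw [e3]
    push_cast
    ring
  rw [e1] at m1
  rw [e2] at m2
  have hnorm2 : ‖(2 : ℂ) ^ (1 - α)‖ = 2 * 2 ^ a := by
    have h6 := Complex.norm_cpow_eq_rpow_re_of_pos (x := 2) (by norm_num) (1 - α)
    rw [ofReal_ofNat] at h6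
    rw [h6, sub_re, one_re, hα, sub_neg_eq_add, Real.rpow_add (by norm_num), Real.rpow_one]
  have hlow : q ≤ ‖(2 : ℂ) - (2 : ℂ) ^ (1 - α)‖ := by
    have h6 := norm_sub_norm_le ((2 : ℂ) ^ (1 - α)) 2
    rw [hnorm2, Complex.norm_ofNat, norm_sub_rev] at h6
    rw [hq]
    linarith
  have hvb : ‖v‖ ≤ 3 / q * (B * E) := by
    have h6 : (2 - (2 : ℂ) ^ (1 - α)) * v = 2 * (u + v) - (2 * u + (2 : ℂ) ^ (1 - α) * v) := by
      ring
    have h7 : q * ‖v‖ ≤ 3 * (B * E) := by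
      calc q * ‖v‖ ≤ ‖(2 : ℂ) - (2 : ℂ) ^ (1 - α)‖ * ‖v‖ :=
            mul_le_mul_of_nonneg_right hlow (norm_nonneg _)
        _ = ‖2 * (u + v) - (2 * u + (2 : ℂ) ^ (1 - α) * v)‖ := by rw [← norm_mul, h6]
        _ ≤ ‖2 * (u + v)‖ + ‖2 * u + (2 : ℂ) ^ (1 - α) * v‖ := norm_sub_le _ _
        _ = 2 * ‖u + v‖ + ‖2 * u + (2 : ℂ) ^ (1 - α) * v‖ := by
            rw [norm_mul, Complex.norm_ofNat]
        _ ≤ 3 * (B * E) := by linarith
    rw [div_mul_eq_mul_div, le_div_iff₀ hq0]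
    linarith
  have hub : ‖u‖ ≤ (1 + 3 / q) * (B * E) := by
    have h6 : u = (u + v) - v := by ring
    calc ‖u‖ = ‖(u + v) - v‖ := by rw [← h6]
      _ ≤ ‖u + v‖ + ‖v‖ := norm_sub_le _ _
      _ ≤ B * E + 3 / q * (B * E) := add_le_add m1 hvb
      _ = (1 + 3 / q) * (B * E) := by ring
  have hBE : 0 ≤ B * E := by positivity
  constructor
  · have h6 : ‖M1 1 α β‖ ≤ ‖u‖ := by
      rw [hu, norm_mul, Complex.norm_of_nonneg hx0'.le]
      exact le_mul_of_one_le_left (norm_nonneg _) hx1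
    linarith
  · have h6 : ‖M2 1 α β‖ ≤ ‖v‖ := by
      rw [hv, norm_mul, Complex.norm_cpow_eq_rpow_re_of_pos hx0', sub_re, one_re, hα]
      exact le_mul_of_one_le_left (norm_nonneg _) (Real.one_le_rpow hx1 (by linarith))
    linarith

end Pool.Agent.MP_291b24_nt.Sm
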