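import Pool.Agent.Lib.MP_291b24_nt.Sm.WMel
import Pool.Agent.Lib.MP_291b24_nt.GammaB

/-! Gamma factors -/

set_option autoImplicit false

open Complex MeasureTheory

namespace Pool.Agent.MP_291b24_nt.Sm

private theorem norm_Gamma_ratio {a c : ℝ} (h0 : 0 < a) (hc : a / 2 < c) {α : ℂ}
    (hα : α.re = -a) : ‖Gamma (c + α / 2) / Gamma (c - α / 2)‖ ≤
      Real.Gamma (c - a / 2) / Real.Gamma (c + a / 2) := by
  have hx : (0 : ℝ) < c - a / 2 := by linarith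
  have hx' : (0 : ℝ) < c + a / 2 := by linarith
  have hmono := norm_Gamma_mono hx (by linarith : c - a / 2 ≤ c + a / 2) (α.im / 2)
  have hα' : α = ((-a : ℝ) : ℂ) + (α.im : ℂ) * I := by
    rw [← hα, re_add_im]
  have e1 : (c + α / 2 : ℂ) = ((c - a / 2 : ℝ) : ℂ) + ((α.im / 2 : ℝ) : ℂ) * I := by
    conv_lhs => rw [hα']
    push_cast; ring
  have e2 : (c - α / 2 : ℂ) =
      (starRingEnd ℂ) (((c + a / 2 : ℝ) : ℂ) + ((α.im / 2 : ℝ) : ℂ) * I) := by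
    rw [map_add, map_mul, conj_ofReal, conj_ofReal, conj_I]
    conv_lhs => rw [hα']
    push_cast; ring
  rw [e1, e2, norm_div, Gamma_conj, RCLike.norm_conj]
  have hg1 : ‖Gamma ((c + a / 2 : ℝ) : ℂ)‖ = Real.Gamma (c + a / 2) := by
    rw [Complex.Gamma_ofReal, norm_real, Real.norm_eq_abs, abs_of_pos (Real.Gamma_pos_of_pos hx')]
  have hg2 : ‖Gamma ((c - a / 2 : ℝ) : ℂ)‖ = Real.Gamma (c - a / 2) := by
    rw [Complex.Gamma_ofReal, norm_real, Real.norm_eq_abs, abs_of_pos (Real.Gamma_pos_of_pos hx)]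
  rw [hg1, hg2] at hmono
  have hpos : 0 < ‖Gamma (((c + a / 2 : ℝ) : ℂ) + ((α.im / 2 : ℝ) : ℂ) * I)‖ := by
    refine norm_pos_iff.2 (Gamma_ne_zero_of_re_pos ?_)
    simpa using hx'
  rw [div_le_div_iff₀ hpos (Real.Gamma_pos_of_pos hx')]
  linarith

private theorem inv_Ge_norm {a : ℝ} (h0 : 0 < a) (h1 : a < 1 / 4) {α : ℂ} (hα : α.re = -a) :
    ‖(Ge α)⁻¹‖ ≤ Real.Gamma (1 / 4 - a / 2) / Real.Gamma (1 / 4 + a / 2) := by
  have := norm_Gamma_ratio (c := 1 / 4) h0 (by linarith) hα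
  rw [Ge, inv_div]
  simpa using this

private theorem inv_Go_norm {a : ℝ} (h0 : 0 < a) (h1 : a < 1 / 4) {α : ℂ} (hα : α.re = -a) :
    ‖(Go α)⁻¹‖ ≤ Real.Gamma (3 / 4 - a / 2) / Real.Gamma (3 / 4 + a / 2) := by
  have := norm_Gamma_ratio (c := 3 / 4) h0 (by linarith) hα
  rw [Go, inv_div]
  simpa using this

/-- `|1/Γ_e(1/2+α)| = |Γ(1/4+α/2) / Γ(1/4-α/2)|`, `Re α = -a`: `norm_Gamma_mono` with `x = 1/4 - a/2 ≤ x' = 1/4 + a/2` -/
theorem norm_inv_Ge_le {a : ℝ} (h0 : 0 < a) (h1 : a < 1 / 4) : ∃ C : ℝ, 0 < C ∧ ∀ α : ℂ, α.re = -a → ‖(Ge α)⁻¹‖ ≤ C ∧ ‖(Go α)⁻¹‖ ≤ C := by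
  have p1 : 0 < Real.Gamma (1 / 4 - a / 2) / Real.Gamma (1 / 4 + a / 2) :=
    div_pos (Real.Gamma_pos_of_pos (by linarith)) (Real.Gamma_pos_of_pos (by linarith))
  refine ⟨max (Real.Gamma (1 / 4 - a / 2) / Real.Gamma (1 / 4 + a / 2))
    (Real.Gamma (3 / 4 - a / 2) / Real.Gamma (3 / 4 + a / 2)), lt_max_of_lt_left p1,
    fun α hα => ⟨(inv_Ge_norm h0 h1 hα).trans (le_max_left _ _),
      (inv_Go_norm h0 h1 hα).trans (le_max_right _ _)⟩⟩

/-- `-i / Γ_o = (1/Γ_e) (1 + O(e^(-π Im α)))` for `Im α ≥ 1`: `Ge α / Go α = sin(π/4 + πα/2) / sin(π/4 - πα/2)` (reflection formula) -/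
theorem Go_approx {a : ℝ} (h0 : 0 < a) (h1 : a < 1 / 4) : ∃ C : ℝ, 0 < C ∧ ∀ α : ℂ, α.re = -a → 1 ≤ α.im →
    ‖-I * (Go α)⁻¹ - (Ge α)⁻¹‖ ≤ C * Real.exp (-α.im) := by
  obtain ⟨C, hC, hCb⟩ := norm_inv_Ge_le h0 h1
  refine ⟨C, hC, fun α hα ht => ?_⟩
  obtain ⟨t, htd⟩ : ∃ t : ℝ, t = α.im := ⟨_, rfl⟩
  rw [← htd] at ht ⊢
  obtain ⟨w, hw⟩ : ∃ w : ℂ, w = Real.pi * (1 / 4 - α / 2) := ⟨_, rfl⟩
  have hwim : w.im = -(Real.pi * t / 2) := by
    rw [hw, im_ofReal_mul, htd]; simp; ring_nf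
  have hpi := Real.pi_pos
  have ea : (1 / 4 + α / 2).re = 1 / 4 - a / 2 := by simp [hα]; ring
  have eb : (1 / 4 - α / 2).re = 1 / 4 + a / 2 := by simp [hα]; ring
  have ec : (3 / 4 + α / 2).re = 3 / 4 - a / 2 := by simp [hα]; ring
  have ed : (3 / 4 - α / 2).re = 3 / 4 + a / 2 := by simp [hα]; ring
  have n1 : Gamma (1 / 4 + α / 2) ≠ 0 := Gamma_ne_zero_of_re_pos (by rw [ea]; linarith)
  have n2 : Gamma (1 / 4 - α / 2) ≠ 0 := Gamma_ne_zero_of_re_pos (by rw [eb]; linarith)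
  have n3 : Gamma (3 / 4 + α / 2) ≠ 0 := Gamma_ne_zero_of_re_pos (by rw [ec]; linarith)
  have n4 : Gamma (3 / 4 - α / 2) ≠ 0 := Gamma_ne_zero_of_re_pos (by rw [ed]; linarith)
  have r1 : Gamma (1 / 4 + α / 2) * Gamma (3 / 4 - α / 2) = Real.pi / cos w := by
    have := Gamma_mul_Gamma_one_sub (1 / 4 + α / 2)
    rw [(by ring : (1 - (1 / 4 + α / 2) : ℂ) = 3 / 4 - α / 2)] at this
    rw [this]
    have e : (Real.pi : ℂ) * (1 / 4 + α / 2) = Real.pi / 2 - w := by rw [hw]; ring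
    rw [e, Complex.sin_pi_div_two_sub]
  have r2 : Gamma (1 / 4 - α / 2) * Gamma (3 / 4 + α / 2) = Real.pi / sin w := by
    have := Gamma_mul_Gamma_one_sub (1 / 4 - α / 2)
    rw [(by ring : (1 - (1 / 4 - α / 2) : ℂ) = 3 / 4 + α / 2)] at this
    rw [this, hw]
  have hpi0 : (Real.pi : ℂ) ≠ 0 := by exact_mod_cast hpi.ne'
  have c0 : cos w ≠ 0 := by
    intro h
    rw [h, div_zero] at r1
    exact (mul_ne_zero n1 n4) r1
  have s0 : sin w ≠ 0 := by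
    intro h
    rw [h, div_zero] at r2
    exact (mul_ne_zero n2 n3) r2
  have r1' : Gamma (1 / 4 + α / 2) * Gamma (3 / 4 - α / 2) * cos w = Real.pi := by
    rw [r1]; field_simp
  have r2' : Gamma (1 / 4 - α / 2) * Gamma (3 / 4 + α / 2) * sin w = Real.pi := by
    rw [r2]; field_simp
  have key : (Go α)⁻¹ = (Ge α)⁻¹ * (cos w / sin w) := by
    rw [Go, Ge, inv_div, inv_div, div_mul_div_comm, div_eq_div_iff n4 (mul_ne_zero n2 s0)]
    linear_combination r2' - r1'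
  have key2 : -I * (Go α)⁻¹ - (Ge α)⁻¹ = (Ge α)⁻¹ * (-I * cexp (-w * I) / sin w) := by
    have e1 : cexp (-w * I) = cos w - sin w * I := by
      rw [Complex.exp_mul_I, Complex.cos_neg, Complex.sin_neg]
      ring
    rw [key, e1]
    field_simp
    linear_combination (-(sin w) * (Ge α)⁻¹) * I_sq
  have hb : 0 < Real.pi * t / 2 := by positivity
  have hnorm1 : ‖cexp (-w * I)‖ = Real.exp (-(Real.pi * t / 2)) := by
    rw [Complex.norm_exp]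
    congr 1
    simp [hwim]
  have hnorm2 : ‖cexp (w * I)‖ = Real.exp (Real.pi * t / 2) := by
    rw [Complex.norm_exp]
    congr 1
    simp [hwim]
  have hsin : Real.pi * t / 2 ≤ ‖sin w‖ := by
    have h2 : sin w = (cexp (-w * I) - cexp (w * I)) * I / 2 := rfl
    have h3 : Real.exp (Real.pi * t / 2) - Real.exp (-(Real.pi * t / 2)) ≤
        ‖cexp (-w * I) - cexp (w * I)‖ := by
      rw [← hnorm1, ← hnorm2, norm_sub_rev (cexp (-w * I))]
      exact norm_sub_norm_le _ _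
    rw [h2, norm_div, norm_mul, norm_I, mul_one]
    have h4 : Real.pi * t / 2 ≤ Real.sinh (Real.pi * t / 2) := Real.self_le_sinh_iff.2 hb.le
    rw [Real.sinh_eq] at h4
    simp only [Complex.norm_ofNat]
    linarith
  have hone : 1 ≤ ‖sin w‖ := by
    refine le_trans ?_ hsin
    nlinarith [Real.pi_gt_three]
  rw [key2, norm_mul, norm_div, norm_mul, norm_neg, norm_I, one_mul, hnorm1]
  have h5 : Real.exp (-(Real.pi * t / 2)) / ‖sin w‖ ≤ Real.exp (-t) := by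
    refine (div_le_self (Real.exp_pos _).le hone).trans (Real.exp_le_exp.2 ?_)
    nlinarith [Real.pi_gt_three]
  exact mul_le_mul (hCb α hα).1 h5 (by positivity) hC.le

end Pool.Agent.MP_291b24_nt.Sm
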