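import Pool.Agent.Lib.MP_291b24_nt.Sm.A2
import Pool.Agent.Lib.MP_291b24_nt.Sm.Gam
import Pool.Agent.Lib.MP_291b24_nt.Char

/-! The functional equation inside the window -/

set_option autoImplicit false

open Complex MeasureTheory

namespace Pool.Agent.MP_291b24_nt.Sm

/-- the sum with `L(1/2 + α) / L(1/2 + β)`, `α = -z - 2s`, `β = z` -/
noncomputable def GG (M K : ℕ) (X : ℝ) (s z : ℂ) : ℂ :=
  ∑' n : ℕ, if Odd n ∧ Squarefree n then (ups M (n / (K ^ 2 * X)) : ℂ) * (n : ℂ) ^ (-z - 3 * s) *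
    Lchi n (1 / 2 + (-z - 2 * s)) * (Lchi n (1 / 2 + z))⁻¹ else 0

private theorem Lchi_one' (s : ℂ) : Lchi 1 s = riemannZeta s := by
  have h : Lchi 1 s = (chi 1).LFunction s := by simp [Lchi]
  rw [h, DirichletCharacter.LFunction_modOne_eq]

private theorem norm_Lchi_window {a : ℝ} (ha0 : 0 < a) (ha : a < 1 / 4) {n : ℕ} (hn : Odd n) (hs : Squarefree n) {α : ℂ}
    (hα : α.re = -a) (h1 : 1 ≤ |α.im|) : ‖Lchi n (1 / 2 + α)‖ ≤ 10 * (n * (|α.im| + 2)) := by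
  have hre : (1 / 2 + α).re = 1 / 2 - a := by
    rw [add_re, hα]
    norm_num
    ring
  have him : (1 / 2 + α).im = α.im := by
    rw [add_im]
    norm_num
  have hnorm : ‖(1 / 2 + α)‖ ≤ |α.im| + 1 := by
    have h2 := Complex.norm_le_abs_re_add_abs_im (1 / 2 + α)
    rw [hre, him, abs_of_pos (by linarith)] at h2
    linarith
  have hn1 : (1 : ℝ) ≤ n := by
    have : 1 ≤ n := hn.pos
    exact_mod_cast this
  by_cases h : n = 1
  · subst h
    rw [Lchi_one']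
    have h2 := norm_zeta_le (1 / 2 + α) (by rw [hre]; linarith) (by rw [him]; exact h1)
    push_cast
    linarith
  · have h2 := norm_Lchi_le_of_ne hn hs h (1 / 2 + α) (by rw [hre]; linarith)
    rw [hre] at h2
    have h3 : (n : ℝ) * ‖(1 / 2 + α)‖ / (1 / 2 - a) ≤ 4 * (n * (|α.im| + 2)) := by
      rw [div_le_iff₀ (by linarith)]
      have h4 : (n : ℝ) * ‖(1 / 2 + α)‖ ≤ n * (|α.im| + 2) := by
        refine mul_le_mul_of_nonneg_left ?_ (by linarith)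
        linarith
      have h5 : (0 : ℝ) ≤ n * (|α.im| + 2) := by positivity
      nlinarith
    have h5 : (0 : ℝ) ≤ n * (|α.im| + 2) := by positivity
    linarith

/-- crude bounds in the window: for `n` with `Re z = r`, `Re s = (a - r)/2` -/
theorem norm_ratio_le (hG : GRH) {r a : ℝ} (hr : 0 < r) (hra : r < a) (ha : a < 1 / 4) : ∃ A C : ℝ, 0 < A ∧ 0 < C ∧
    ∀ n : ℕ, Odd n → Squarefree n → ∀ α β : ℂ, α.re = -a → β.re = r → 1 ≤ |α.im| →
      ‖Lchi n (1 / 2 + α) * (Lchi n (1 / 2 + β))⁻¹‖ ≤ C * ((n : ℝ) * (|α.im| + 2) * (|β.im| + 2)) ^ A := by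
  obtain ⟨A, C, hA, hC, hinv⟩ := inv_Lchi hG hr (by linarith)
  refine ⟨A + 1, 10 * C, by linarith, by linarith, fun n hn hs α β hα hβ h1 => ?_⟩
  have hn1 : (1 : ℝ) ≤ n := by
    have : 1 ≤ n := hn.pos
    exact_mod_cast this
  have e1 := norm_Lchi_window (by linarith) ha hn hs hα h1
  have e2 := hinv n hn hs (1 / 2 + β) (by rw [add_re, hβ]; norm_num)
  have him : (1 / 2 + β).im = β.im := by
    rw [add_im]
    norm_num
  rw [him] at e2
  have hα0 := abs_nonneg α.im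
  have hβ0 := abs_nonneg β.im
  set u := (n : ℝ) * (|α.im| + 2) * (|β.im| + 2) with hu
  have hu1 : (n : ℝ) * (|α.im| + 2) ≤ u := by
    rw [hu]
    have h2 : (0 : ℝ) ≤ n * (|α.im| + 2) := by positivity
    nlinarith
  have hu2 : (n : ℝ) * (|β.im| + 2) ≤ u := by
    have h2 : (0 : ℝ) ≤ n * (|β.im| + 2) := by positivity
    have h3 : u = (n * (|β.im| + 2)) * (|α.im| + 2) := by
      rw [hu]
      ring
    rw [h3]
    nlinarith
  have hu0 : 0 < u := by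
    have : 0 < (n : ℝ) * (|β.im| + 2) := by positivity
    linarith
  rw [norm_mul]
  calc ‖Lchi n (1 / 2 + α)‖ * ‖(Lchi n (1 / 2 + β))⁻¹‖
      ≤ (10 * (n * (|α.im| + 2))) * (C * (n * (|β.im| + 2)) ^ A) := by
        refine mul_le_mul e1 e2 (norm_nonneg _) ?_
        positivity
    _ ≤ (10 * u) * (C * u ^ A) := by
        refine mul_le_mul ?_ ?_ (by positivity) (by positivity)
        · linarith
        · refine mul_le_mul_of_nonneg_left ?_ hC.le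
          exact Real.rpow_le_rpow (by positivity) hu2 hA.le
    _ = 10 * C * u ^ (A + 1) := by
        rw [Real.rpow_add hu0, Real.rpow_one]
        ring

private theorem Ge_ne {α : ℂ} (h1 : -(1 / 2) < α.re) (h2 : α.re < 1 / 2) : Ge α ≠ 0 := by
  unfold Ge
  have a1 : 0 < (1 / 4 - α / 2).re := by
    simp only [sub_re, div_ofNat_re]
    norm_num
    linarith
  have a2 : 0 < (1 / 4 + α / 2).re := by
    simp only [add_re, div_ofNat_re]
    norm_num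
    linarith
  exact div_ne_zero (Complex.Gamma_ne_zero_of_re_pos a1) (Complex.Gamma_ne_zero_of_re_pos a2)

private theorem Go_ne {α : ℂ} (h1 : -(1 / 2) < α.re) (h2 : α.re < 1 / 2) : Go α ≠ 0 := by
  unfold Go
  have a1 : 0 < (3 / 4 - α / 2).re := by
    simp only [sub_re, div_ofNat_re]
    norm_num
    linarith
  have a2 : 0 < (3 / 4 + α / 2).re := by
    simp only [add_re, div_ofNat_re]
    norm_num
    linarith
  exact div_ne_zero (Complex.Gamma_ne_zero_of_re_pos a1) (Complex.Gamma_ne_zero_of_re_pos a2)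

/-- the functional equation for one term -/
private theorem qn_eq {n : ℕ} (hn : Odd n) (hs : Squarefree n) {s z α : ℂ} (hα : α = -z - 2 * s)
    (h1 : -(1 / 2) < α.re) (h2 : α.re < 1 / 2) :
    qn n s z = (Real.pi : ℂ) ^ (-α) * (epsb n * (if n % 4 = 1 then Ge α else Go α)⁻¹) *
      ((n : ℂ) ^ (-z - 3 * s) * Lchi n (1 / 2 + (-z - 2 * s)) * (Lchi n (1 / 2 + z))⁻¹) := by
  have hn0 : (n : ℂ) ≠ 0 := by exact_mod_cast hs.ne_zero
  have hpi0 : (Real.pi : ℂ) ≠ 0 := by exact_mod_cast Real.pi_ne_zero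
  have hfe := Lchi_func_eq n hn hs α h1 h2
  have hG : (if n % 4 = 1 then Ge α else Go α) ≠ 0 := by
    split_ifs
    · exact Ge_ne h1 h2
    · exact Go_ne h1 h2
  have e1 : (1 / 2 + z + 2 * s : ℂ) = 1 / 2 - α := by
    rw [hα]
    ring
  have e2 : (n : ℂ) ^ (-z - 3 * s) = (n : ℂ) ^ (-s) * (n : ℂ) ^ α := by
    rw [← cpow_add _ _ hn0, hα]
    congr 1
    ring
  unfold qn
  rw [e1, e2, ← hα, hfe]
  have e3 : (Real.pi : ℂ) ^ (-α) * (Real.pi : ℂ) ^ α = 1 := by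
    rw [← cpow_add _ _ hpi0, neg_add_cancel, cpow_zero]
  have e4 : (n : ℂ) ^ α * (n : ℂ) ^ (-α) = 1 := by
    rw [← cpow_add _ _ hn0, add_neg_cancel, cpow_zero]
  generalize (if n % 4 = 1 then Ge α else Go α) = G at *
  have e5 : G⁻¹ * G = 1 := inv_mul_cancel₀ hG
  have e6 : (Real.pi : ℂ) ^ (-α) * (epsb n * G⁻¹) * ((n : ℂ) ^ (-s) * (n : ℂ) ^ α *
      ((Real.pi : ℂ) ^ α * G * (n : ℂ) ^ (-α) * Lchi n (1 / 2 - α)) * (Lchi n (1 / 2 + z))⁻¹) =
      ((Real.pi : ℂ) ^ (-α) * (Real.pi : ℂ) ^ α) * ((n : ℂ) ^ α * (n : ℂ) ^ (-α)) * (G⁻¹ * G) *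
        (epsb n * (n : ℂ) ^ (-s) * Lchi n (1 / 2 - α) * (Lchi n (1 / 2 + z))⁻¹) := by ring
  rw [e6, e3, e4, e5]
  ring

private theorem QQ_core {r a A Cr Cg Cd Cu : ℝ} (hr : 0 < r) (hra : r < a) (ha : a < 1 / 4) (hA : 0 < A) (hCr : 0 < Cr)
    (hratio : ∀ n : ℕ, Odd n → Squarefree n → ∀ α β : ℂ, α.re = -a → β.re = r → 1 ≤ |α.im| →
      ‖Lchi n (1 / 2 + α) * (Lchi n (1 / 2 + β))⁻¹‖ ≤ Cr * ((n : ℝ) * (|α.im| + 2) * (|β.im| + 2)) ^ A)
    (hCg : 0 < Cg) (hGe : ∀ α : ℂ, α.re = -a → ‖(Ge α)⁻¹‖ ≤ Cg ∧ ‖(Go α)⁻¹‖ ≤ Cg) (hCd : 0 < Cd)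
    (hGo : ∀ α : ℂ, α.re = -a → 1 ≤ α.im → ‖-I * (Go α)⁻¹ - (Ge α)⁻¹‖ ≤ Cd * Real.exp (-α.im)) (hCu : 0 < Cu)
    {M : ℕ} (hups : ∀ N₀ : ℝ, 1 ≤ N₀ → Summable (fun n : ℕ => (n : ℝ) ^ A * ups M (n / N₀)) ∧
      ∑' n : ℕ, (n : ℝ) ^ A * ups M (n / N₀) ≤ Cu * N₀ ^ (A + 1)) {K : ℕ} (hK : 16 ≤ K) {X : ℝ} (hX : 2 ≤ X) {s z : ℂ}
    (hs : s.re = (a - r) / 2) (hz : z.re = r) (h1 : (K : ℝ) ≤ (-z - 2 * s).im) (h2 : (-z - 2 * s).im ≤ 8 * K)
    (h3 : |z.im| ≤ 7 * K) :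
    ‖QQ M K X s z‖ ≤ 4 * (Cg + Cg * Cr + Cd * Cr * Cu) * (‖GG M K X s z‖ + (K : ℝ) ^ (4 * A + 1) +
      Real.exp (-K) * (K ^ 2 * X) ^ (4 * A + 1)) := by
  have hK' : (16 : ℝ) ≤ K := by exact_mod_cast hK
  obtain ⟨α, hα⟩ : ∃ α : ℂ, α = -z - 2 * s := ⟨_, rfl⟩
  have hαre : α.re = -a := by
    rw [hα]
    simp only [sub_re, neg_re, mul_re, re_ofNat, im_ofNat, zero_mul, sub_zero, hs, hz]
    ring
  rw [← hα] at h1 h2
  have hα1 : 1 ≤ α.im := by linarith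
  have habs : |α.im| = α.im := abs_of_pos (by linarith)
  set N₀ : ℝ := K ^ 2 * X with hN₀
  have hN1 : (K : ℝ) ^ 2 ≤ N₀ := by
    rw [hN₀]
    nlinarith [sq_nonneg (K : ℝ)]
  have hN0 : 1 ≤ N₀ := by nlinarith
  obtain ⟨hsum, htsum⟩ := hups N₀ hN0
  set f : ℕ → ℂ := fun n => if Odd n ∧ Squarefree n then (ups M (n / N₀) : ℂ) * (n : ℂ) ^ (-z - 3 * s) *
    Lchi n (1 / 2 + (-z - 2 * s)) * (Lchi n (1 / 2 + z))⁻¹ else 0 with hf
  have hups0 : ∀ x : ℝ, 0 < ups M x := fun x => Real.exp_pos _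
  have hups1 : ∀ x : ℝ, 0 ≤ x → ups M x ≤ 1 := by
    intro x hx
    unfold ups
    rw [Real.exp_le_one_iff]
    have := pow_nonneg hx M
    linarith
  have hwin : (|α.im| + 2) * (|z.im| + 2) ≤ (K : ℝ) ^ 4 := by
    have q1 : |α.im| + 2 ≤ 9 * K := by
      rw [habs]
      linarith
    have q2 : |z.im| + 2 ≤ 8 * K := by linarith
    have q3 : (|α.im| + 2) * (|z.im| + 2) ≤ (9 * K) * (8 * K) :=
      mul_le_mul q1 q2 (by positivity) (by positivity)
    have q4 : (9 * (K : ℝ)) * (8 * K) ≤ K ^ 4 := by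
      have q5 : (K : ℝ) ^ 2 ≥ 256 := by nlinarith
      nlinarith
    linarith
  have hwin0 : 0 < (|α.im| + 2) * (|z.im| + 2) := by positivity
  have hL : ∀ n : ℕ, Odd n → Squarefree n → ‖Lchi n (1 / 2 + (-z - 2 * s)) * (Lchi n (1 / 2 + z))⁻¹‖ ≤
      Cr * (K : ℝ) ^ (4 * A) * (n : ℝ) ^ A := by
    intro n hn hsq
    have q1 := hratio n hn hsq α z hαre hz (by rw [habs]; exact hα1)
    rw [← hα]
    refine q1.trans ?_
    have q2 : (n : ℝ) * (|α.im| + 2) * (|z.im| + 2) ≤ n * (K : ℝ) ^ 4 := by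
      rw [mul_assoc]
      exact mul_le_mul_of_nonneg_left hwin (by positivity)
    have q3 : ((n : ℝ) * (|α.im| + 2) * (|z.im| + 2)) ^ A ≤ (n * (K : ℝ) ^ 4) ^ A :=
      Real.rpow_le_rpow (by positivity) q2 hA.le
    have q4 : ((K : ℝ) ^ 4) ^ A = (K : ℝ) ^ (4 * A) := by
      rw [← Real.rpow_natCast, ← Real.rpow_mul (by positivity)]
      norm_num
    have q5 : ((n : ℝ) * (K : ℝ) ^ 4) ^ A = (n : ℝ) ^ A * ((K : ℝ) ^ 4) ^ A :=
      Real.mul_rpow (by positivity) (by positivity)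
    rw [q5, q4] at q3
    calc Cr * ((n : ℝ) * (|α.im| + 2) * (|z.im| + 2)) ^ A ≤ Cr * ((n : ℝ) ^ A * (K : ℝ) ^ (4 * A)) :=
          mul_le_mul_of_nonneg_left q3 hCr.le
      _ = _ := by ring
  have hnf : ∀ n : ℕ, Odd n → ‖(n : ℂ) ^ (-z - 3 * s)‖ ≤ 1 := by
    intro n hn
    have q1 : 0 < n := hn.pos
    rw [Complex.norm_natCast_cpow_of_pos q1]
    refine Real.rpow_le_one_of_one_le_of_nonpos (by exact_mod_cast q1) ?_
    simp only [sub_re, neg_re, mul_re, re_ofNat, im_ofNat, zero_mul, sub_zero, hs, hz]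
    linarith
  have hfn : ∀ n, ‖f n‖ ≤ Cr * (K : ℝ) ^ (4 * A) * ((n : ℝ) ^ A * ups M (n / N₀)) := by
    intro n
    rw [hf]
    dsimp only
    have p0 : 0 ≤ Cr * (K : ℝ) ^ (4 * A) * ((n : ℝ) ^ A * ups M (n / N₀)) := by
      have := hups0 (n / N₀)
      positivity
    split_ifs with h
    · have q1 := hL n h.1 h.2
      have q2 := hnf n h.1
      rw [mul_assoc, norm_mul, norm_mul, Complex.norm_real, Real.norm_eq_abs, abs_of_pos (hups0 _)]
      calc ups M (n / N₀) * ‖(n : ℂ) ^ (-z - 3 * s)‖ * ‖Lchi n (1 / 2 + (-z - 2 * s)) * (Lchi n (1 / 2 + z))⁻¹‖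
          ≤ ups M (n / N₀) * 1 * (Cr * (K : ℝ) ^ (4 * A) * (n : ℝ) ^ A) := by
            refine mul_le_mul (mul_le_mul_of_nonneg_left q2 (hups0 _).le) q1 (norm_nonneg _) ?_
            have := hups0 (n / N₀)
            positivity
        _ = _ := by ring
    · rw [norm_zero]
      exact p0
  have hfsum : Summable f := by
    refine Summable.of_norm_bounded ?_ hfn
    exact hsum.mul_left _
  have hfnsum : Summable fun n => ‖f n‖ := by
    refine Summable.of_nonneg_of_le (fun n => norm_nonneg _) hfn ?_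
    exact hsum.mul_left _
  have hKN : (K : ℝ) ^ (4 * A) ≤ N₀ ^ (2 * A) := by
    have q1 : (K : ℝ) ^ (4 * A) = ((K : ℝ) ^ 2) ^ (2 * A) := by
      rw [← Real.rpow_natCast, ← Real.rpow_mul (by positivity)]
      congr 1
      push_cast
      ring
    rw [q1]
    exact Real.rpow_le_rpow (by positivity) hN1 (by positivity)
  have hN00 : 0 < N₀ := by linarith
  have hftot : ∑' n, ‖f n‖ ≤ Cr * Cu * N₀ ^ (4 * A + 1) := by
    calc ∑' n, ‖f n‖ ≤ ∑' n : ℕ, Cr * (K : ℝ) ^ (4 * A) * ((n : ℝ) ^ A * ups M (n / N₀)) :=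
          hfnsum.tsum_le_tsum hfn (hsum.mul_left _)
      _ = Cr * (K : ℝ) ^ (4 * A) * ∑' n : ℕ, ((n : ℝ) ^ A * ups M (n / N₀)) := tsum_mul_left
      _ ≤ Cr * (K : ℝ) ^ (4 * A) * (Cu * N₀ ^ (A + 1)) :=
          mul_le_mul_of_nonneg_left htsum (by positivity)
      _ ≤ Cr * N₀ ^ (2 * A) * (Cu * N₀ ^ (A + 1)) := by
          refine mul_le_mul_of_nonneg_right ?_ (by positivity)
          exact mul_le_mul_of_nonneg_left hKN hCr.le
      _ = Cr * Cu * N₀ ^ (3 * A + 1) := by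
          have : N₀ ^ (3 * A + 1) = N₀ ^ (2 * A) * N₀ ^ (A + 1) := by
            rw [← Real.rpow_add hN00]
            congr 1
            ring
          rw [this]
          ring
      _ ≤ Cr * Cu * N₀ ^ (4 * A + 1) := by
          refine mul_le_mul_of_nonneg_left ?_ (by positivity)
          exact Real.rpow_le_rpow_of_exponent_le hN0 (by linarith)
  have hGG : GG M K X s z = ∑' n, f n := rfl
  set P : ℂ := (Real.pi : ℂ) ^ (-α) with hP
  set c : ℂ := (Ge α)⁻¹ with hc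
  have hPn : ‖P‖ ≤ 4 := by
    rw [hP, Complex.norm_cpow_eq_rpow_re_of_pos Real.pi_pos, neg_re, hαre, neg_neg]
    calc Real.pi ^ a ≤ Real.pi ^ (1 : ℝ) :=
          Real.rpow_le_rpow_of_exponent_le (by linarith [Real.pi_gt_three]) (by linarith)
      _ ≤ 4 := by
          rw [Real.rpow_one]
          exact Real.pi_le_four
  have hcn : ‖c‖ ≤ Cg := (hGe α hαre).1
  set e : ℕ → ℂ := fun n => epsb n * (if n % 4 = 1 then Ge α else Go α)⁻¹ - c with he
  have hen : ∀ n, ‖e n‖ ≤ Cd * Real.exp (-K) := by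
    intro n
    rw [he]
    dsimp only
    have q2 : Cd * Real.exp (-α.im) ≤ Cd * Real.exp (-K) :=
      mul_le_mul_of_nonneg_left (Real.exp_le_exp.2 (by linarith)) hCd.le
    unfold epsb
    split_ifs with h
    · rw [one_mul, hc, sub_self, norm_zero]
      positivity
    · exact (hGo α hαre hα1).trans q2
  have hterm : ∀ n : ℕ, (if Odd n ∧ Squarefree n ∧ n ≠ 1 then (ups M (n / N₀) : ℂ) * qn n s z else 0) =
      P * c * f n - P * c * (if n = 1 then f 1 else 0) + P * (if n = 1 then 0 else e n * f n) := by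
    intro n
    by_cases h : n = 1
    · subst h
      rw [if_neg (by simp), if_pos rfl, if_pos rfl]
      ring
    · rw [if_neg h, if_neg h]
      by_cases h' : Odd n ∧ Squarefree n
      · rw [if_pos ⟨h'.1, h'.2, h⟩, hf, he]
        dsimp only
        rw [if_pos h', qn_eq h'.1 h'.2 hα (by rw [hαre]; linarith) (by rw [hαre]; linarith), ← hP]
        ring
      · rw [if_neg (fun h'' => h' ⟨h''.1, h''.2.1⟩), hf]
        dsimp only
        rw [if_neg h']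
        ring
  have hs2 : Summable fun n : ℕ => (if n = 1 then f 1 else 0 : ℂ) := by
    refine summable_of_finite_support ((Set.finite_singleton 1).subset ?_)
    intro n hn
    by_contra h
    have h' : n ≠ 1 := by simpa using h
    rw [Function.mem_support, if_neg h'] at hn
    exact hn rfl
  have hs3n : ∀ n : ℕ, ‖(if n = 1 then 0 else e n * f n : ℂ)‖ ≤ Cd * Real.exp (-K) * ‖f n‖ := by
    intro n
    split_ifs
    · rw [norm_zero]
      positivity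
    · rw [norm_mul]
      exact mul_le_mul_of_nonneg_right (hen n) (norm_nonneg _)
  have hs3 : Summable fun n : ℕ => (if n = 1 then 0 else e n * f n : ℂ) :=
    Summable.of_norm_bounded (hfnsum.mul_left _) hs3n
  have hQ : QQ M K X s z = P * c * GG M K X s z - P * c * f 1 + P * ∑' n : ℕ, (if n = 1 then 0 else e n * f n : ℂ) := by
    have q0 : QQ M K X s z = ∑' n : ℕ, (if Odd n ∧ Squarefree n ∧ n ≠ 1 then (ups M (n / N₀) : ℂ) * qn n s z else 0) := rfl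
    rw [q0, tsum_congr hterm, (((hfsum.mul_left (P * c)).sub (hs2.mul_left (P * c)))).tsum_add (hs3.mul_left P),
      (hfsum.mul_left (P * c)).tsum_sub (hs2.mul_left (P * c)), tsum_mul_left, tsum_mul_left, tsum_mul_left, tsum_ite_eq, hGG]
  have hf1 : ‖f 1‖ ≤ Cr * (K : ℝ) ^ (4 * A + 1) := by
    refine (hfn 1).trans ?_
    have q1 : ((1 : ℕ) : ℝ) ^ A * ups M ((1 : ℕ) / N₀) ≤ 1 := by
      rw [Nat.cast_one, Real.one_rpow, one_mul]
      exact hups1 _ (by positivity)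
    calc Cr * (K : ℝ) ^ (4 * A) * (((1 : ℕ) : ℝ) ^ A * ups M ((1 : ℕ) / N₀)) ≤ Cr * (K : ℝ) ^ (4 * A) * 1 :=
          mul_le_mul_of_nonneg_left q1 (by positivity)
      _ ≤ Cr * (K : ℝ) ^ (4 * A + 1) := by
          rw [mul_one]
          refine mul_le_mul_of_nonneg_left ?_ hCr.le
          exact Real.rpow_le_rpow_of_exponent_le (by linarith) (by linarith)
  have hE : ‖∑' n : ℕ, (if n = 1 then 0 else e n * f n : ℂ)‖ ≤ Cd * Real.exp (-K) * (Cr * Cu * N₀ ^ (4 * A + 1)) := by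
    have hs3n' : Summable fun n : ℕ => ‖(if n = 1 then 0 else e n * f n : ℂ)‖ :=
      Summable.of_nonneg_of_le (fun n => norm_nonneg _) hs3n (hfnsum.mul_left _)
    calc ‖∑' n : ℕ, (if n = 1 then 0 else e n * f n : ℂ)‖ ≤ ∑' n : ℕ, ‖(if n = 1 then 0 else e n * f n : ℂ)‖ :=
          norm_tsum_le_tsum_norm hs3n'
      _ ≤ ∑' n, Cd * Real.exp (-K) * ‖f n‖ := hs3n'.tsum_le_tsum hs3n (hfnsum.mul_left _)
      _ = Cd * Real.exp (-K) * ∑' n, ‖f n‖ := tsum_mul_left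
      _ ≤ _ := mul_le_mul_of_nonneg_left hftot (by positivity)
  set g := ‖GG M K X s z‖ with hg
  have hg0 : 0 ≤ g := norm_nonneg _
  have hk0 : 0 ≤ (K : ℝ) ^ (4 * A + 1) := by positivity
  have hn0 : 0 ≤ Real.exp (-K) * N₀ ^ (4 * A + 1) := by positivity
  have hfin : ‖QQ M K X s z‖ ≤ 4 * (Cg * g + Cg * (Cr * (K : ℝ) ^ (4 * A + 1)) +
      Cd * Real.exp (-K) * (Cr * Cu * N₀ ^ (4 * A + 1))) := by
    rw [hQ]
    have w1 : ‖P * c * GG M K X s z‖ ≤ 4 * Cg * g := by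
      rw [norm_mul, norm_mul]
      exact mul_le_mul_of_nonneg_right (mul_le_mul hPn hcn (norm_nonneg _) (by norm_num)) hg0
    have w2 : ‖P * c * f 1‖ ≤ 4 * Cg * (Cr * (K : ℝ) ^ (4 * A + 1)) := by
      rw [norm_mul, norm_mul]
      exact mul_le_mul (mul_le_mul hPn hcn (norm_nonneg _) (by norm_num)) hf1 (norm_nonneg _) (by positivity)
    have w3 : ‖P * ∑' n : ℕ, (if n = 1 then 0 else e n * f n : ℂ)‖ ≤
        4 * (Cd * Real.exp (-K) * (Cr * Cu * N₀ ^ (4 * A + 1))) := by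
      rw [norm_mul]
      exact mul_le_mul hPn hE (norm_nonneg _) (by norm_num)
    have w4 := norm_add_le (P * c * GG M K X s z - P * c * f 1) (P * ∑' n : ℕ, (if n = 1 then 0 else e n * f n : ℂ))
    have w5 := norm_sub_le (P * c * GG M K X s z) (P * c * f 1)
    linarith
  refine hfin.trans ?_
  have v1 : 0 ≤ Cg * Cr * g + Cd * Cr * Cu * g := by positivity
  have v2 : 0 ≤ Cg * (K : ℝ) ^ (4 * A + 1) + Cd * Cr * Cu * (K : ℝ) ^ (4 * A + 1) := by positivity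
  have v3 : 0 ≤ (Cg + Cg * Cr) * (Real.exp (-K) * N₀ ^ (4 * A + 1)) := by positivity
  nlinarith

/-- `Lchi_func_eq`: `L(1/2 - α, χ_n) = π^(-α) (Ge or Go)(α)⁻¹ n^α L(1/2 + α, χ_n)`, so `qn n s z = epsb n (Ge or Go)⁻¹ π^(-α) n^(α - s) ...`;
for `n ≡ 3 (4)`: `Go_approx`. On `V`: `K ≤ Im α ≤ 25 K`. -/
theorem QQ_GG (hG : GRH) {r a : ℝ} (hr : 0 < r) (hra : r < a) (ha : a < 1 / 4) : ∃ A : ℝ, 0 < A ∧ ∀ M : ℕ, 1 ≤ M → ∃ C : ℝ, 0 < C ∧
    ∀ K : ℕ, 16 ≤ K → ∀ X : ℝ, 2 ≤ X → ∀ t y : ℝ, |t + 2 * Real.pi * K| ≤ K / 2 → |y - 2 * Real.pi * K| ≤ K / 2 →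
      ‖QQ M K X (((a - r) / 2 : ℝ) + t * I) (r + y * I)‖ ≤ C * (‖GG M K X (((a - r) / 2 : ℝ) + t * I) (r + y * I)‖ + (K : ℝ) ^ A +
        Real.exp (-K) * (K ^ 2 * X) ^ A) := by
  obtain ⟨A, Cr, hA, hCr, hratio⟩ := norm_ratio_le hG hr hra ha
  obtain ⟨Cg, hCg, hGe⟩ := norm_inv_Ge_le (a := a) (by linarith) ha
  obtain ⟨Cd, hCd, hGo⟩ := Go_approx (a := a) (by linarith) ha
  refine ⟨4 * A + 1, by positivity, fun M hM => ?_⟩
  obtain ⟨Cu, hCu, hups⟩ := ups_sum A hA.le M hM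
  refine ⟨4 * (Cg + Cg * Cr + Cd * Cr * Cu), by positivity, ?_⟩
  intro K hK X hX t y ht hy
  have hK' : (16 : ℝ) ≤ K := by exact_mod_cast hK
  have hpi := Real.pi_gt_three
  have hpi4 : Real.pi ≤ 3.15 := by linarith [Real.pi_lt_d2]
  have e1 : (-(((r : ℝ) : ℂ) + (y : ℂ) * I) - 2 * ((((a - r) / 2 : ℝ) : ℂ) + (t : ℂ) * I)).im = -y - 2 * t := by
    simp
  have ht' := abs_le.1 ht
  have hy' := abs_le.1 hy
  have p1 : 3 * (K : ℝ) ≤ Real.pi * K := by nlinarith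
  have p2 : Real.pi * K ≤ 3.15 * (K : ℝ) := by nlinarith
  refine QQ_core hr hra ha hA hCr hratio hCg hGe hCd hGo hCu hups hK hX ?_ ?_ ?_ ?_ ?_
  · simp
  · simp
  · rw [e1]
    linarith [ht'.1, ht'.2, hy'.1, hy'.2]
  · rw [e1]
    linarith [ht'.1, ht'.2, hy'.1, hy'.2]
  · have e2 : (((r : ℝ) : ℂ) + (y : ℂ) * I).im = y := by simp
    rw [e2, abs_le]
    constructor
    · linarith [hy'.1, hy'.2]
    · linarith [hy'.1, hy'.2]

end Pool.Agent.MP_291b24_nt.Sm
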