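import Pool.Agent.Lib.MP_291b24_nt.Sm.Nd
import Pool.Agent.Lib.MP_291b24_nt.Sm.QV
import Pool.Agent.Lib.MP_291b24_nt.Sm.M12

/-! Abel summation -/

set_option autoImplicit false

open Complex MeasureTheory

namespace Pool.Agent.MP_291b24_nt.Sm

private theorem ab_tendsto {M : ℕ} (hM : 1 ≤ M) {N₀ : ℝ} (hN : 0 < N₀) (w : ℂ) :
    Filter.Tendsto (fun x : ℝ => (x : ℂ) ^ w * (ups M (x / N₀) : ℂ)) Filter.atTop (nhds 0) := by
  rw [tendsto_zero_iff_norm_tendsto_zero]
  have h1 := tendsto_rpow_mul_exp_neg_mul_atTop_nhds_zero w.re N₀⁻¹ (inv_pos.2 hN)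
  refine squeeze_zero' (Filter.Eventually.of_forall fun x => norm_nonneg _) ?_ h1
  filter_upwards [Filter.eventually_ge_atTop N₀] with x hx
  have hx0 : 0 < x := lt_of_lt_of_le hN hx
  have h2 : ‖((ups M (x / N₀) : ℝ) : ℂ)‖ ≤ Real.exp (-N₀⁻¹ * x) := by
    rw [norm_real, Real.norm_of_nonneg (by unfold ups; exact (Real.exp_pos _).le)]
    unfold ups
    rw [Real.exp_le_exp, neg_mul, neg_le_neg_iff, ← div_eq_inv_mul]
    exact le_self_pow₀ ((one_le_div hN).2 hx) (by omega)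
  rw [norm_mul, norm_cpow_eq_rpow_re_of_pos hx0]
  exact mul_le_mul_of_nonneg_left h2 (Real.rpow_nonneg hx0.le _)

private theorem ab_cont (M : ℕ) {N₀ : ℝ} (w : ℂ) :
    ContinuousOn (nd M N₀ w) (Set.Ioi 0) := by
  have h1 : ContinuousOn (fun x : ℝ => (x : ℂ) ^ (w - 1)) (Set.Ioi 0) := by
    intro x hx
    have hx0 : x ≠ 0 := ne_of_gt hx
    exact (continuousAt_ofReal_cpow_const x (w - 1) (Or.inr hx0)).continuousWithinAt
  have h2 : Continuous (fun x : ℝ => (M : ℂ) * ((x / N₀ : ℝ) : ℂ) ^ M - w) := by fun_prop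
  have h3 : Continuous (fun x : ℝ => ((ups M (x / N₀) : ℝ) : ℂ)) := by
    unfold ups
    fun_prop
  exact (h2.continuousOn.mul h1).mul h3.continuousOn

private theorem ab_rpow {x κ : ℝ} {n : ℕ} (hn : 1 ≤ n) (hx : (n : ℝ) ≤ x) (hκ : 0 ≤ κ) :
    1 ≤ (n : ℝ) ^ (-κ) * x ^ κ := by
  have hn0 : (0 : ℝ) < n := Nat.cast_pos.2 hn
  rw [Real.rpow_neg hn0.le, ← div_eq_inv_mul, one_le_div (Real.rpow_pos_of_pos hn0 _)]
  exact Real.rpow_le_rpow hn0.le hx hκ

/-- Abel summation over `n ≤ x` (`sum_mul_eq_sub_integral_mul` up to `N`, `N → ∞`, or `n^w ups(n/N₀) = ∫_n^∞ nd`) -/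
theorem abel (hG : GRH) {r a : ℝ} (hr : 0 < r) (hra : r < a) (ha : a < 1 / 4) {M K : ℕ} (hM : 1 ≤ M) (hK : 16 ≤ K) {X : ℝ} (hX : 2 ≤ X)
    {s z : ℂ} (hs : s.re = (a - r) / 2) (hz : z.re = r) (him : 1 ≤ |(-z - 2 * s).im|) :
    GG M K X s z = ∫ x in Set.Ioi (1 : ℝ), S x (-z - 2 * s) z * nd M (K ^ 2 * X) (-z - 3 * s) x := by
  classical
  obtain ⟨A, C, hA, hC, hb⟩ := norm_ratio_le hG hr hra ha
  set N₀ : ℝ := K ^ 2 * X with hN₀
  set w : ℂ := -z - 3 * s with hw
  set α : ℂ := -z - 2 * s with hα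
  have hαre : α.re = -a := by
    rw [hα, sub_re, neg_re, mul_re, hz, hs]
    norm_num
    ring
  have hN : 0 < N₀ := by
    have hK0 : (0 : ℝ) < K := Nat.cast_pos.2 (by omega)
    positivity
  set κ : ℝ := A + 2 + |w.re| with hκ
  have hκ0 : 0 ≤ κ := by positivity
  have hκw : 0 < κ + w.re := by
    have := neg_abs_le w.re
    linarith
  have hκw' : 0 < ((κ : ℂ) + w).re := by
    rw [add_re, ofReal_re]
    exact hκw
  set c : ℕ → ℂ := fun n => if Odd n ∧ Squarefree n then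
    Lchi n (1 / 2 + α) * (Lchi n (1 / 2 + z))⁻¹ else 0 with hc
  have hc0 : c 0 = 0 := by
    rw [hc]
    exact if_neg (by simp)
  set C' : ℝ := C * ((|α.im| + 2) * (|z.im| + 2)) ^ A with hC'
  have hC'0 : 0 ≤ C' := by positivity
  have hcn : ∀ n : ℕ, ‖c n‖ ≤ C' * (n : ℝ) ^ A := by
    intro n
    rw [hc]
    by_cases hn : Odd n ∧ Squarefree n
    · change ‖if Odd n ∧ Squarefree n then _ else _‖ ≤ _
      rw [if_pos hn]
      refine (hb n hn.1 hn.2 α z hαre hz him).trans (le_of_eq ?_)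
      rw [hC', mul_assoc (n : ℝ), Real.mul_rpow (Nat.cast_nonneg n) (by positivity)]
      ring
    · change ‖if Odd n ∧ Squarefree n then _ else _‖ ≤ _
      rw [if_neg hn, norm_zero]
      positivity
  -- integrability
  have hJ : IntegrableOn (fun x : ℝ => x ^ κ * ‖nd M N₀ w x‖) (Set.Ioi 1) := by
    have h1 := (int_nd hM hN hκw').1.norm
    have h2 : IntegrableOn (fun x : ℝ => x ^ κ * ‖nd M N₀ w x‖) (Set.Ioi 0) := by
      refine (integrableOn_congr_fun (fun x hx => ?_) measurableSet_Ioi).1 h1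
      change ‖(x : ℂ) ^ (κ : ℂ) * nd M N₀ w x‖ = x ^ κ * ‖nd M N₀ w x‖
      rw [norm_mul, norm_cpow_eq_rpow_re_of_pos hx, ofReal_re]
    exact h2.mono_set (Set.Ioi_subset_Ioi zero_le_one)
  have hmeas : AEStronglyMeasurable (nd M N₀ w) (volume.restrict (Set.Ioi 1)) :=
    ((ab_cont M w).mono (Set.Ioi_subset_Ioi zero_le_one)).aestronglyMeasurable measurableSet_Ioi
  have hnd : IntegrableOn (nd M N₀ w) (Set.Ioi 1) := by
    refine Integrable.mono' hJ hmeas ?_
    rw [ae_restrict_iff' measurableSet_Ioi]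
    refine Filter.Eventually.of_forall fun x hx => ?_
    have hx1 : (1 : ℝ) < x := hx
    exact le_mul_of_one_le_left (norm_nonneg _) (Real.one_le_rpow hx1.le hκ0)
  set F : ℕ → ℝ → ℂ := fun n => (Set.Ici (n : ℝ)).indicator fun x => c n * nd M N₀ w x with hF
  have hFi : ∀ n, Integrable (F n) (volume.restrict (Set.Ioi 1)) := by
    intro n
    exact (hnd.const_mul (c n)).indicator measurableSet_Ici
  have hFn : ∀ n, ∀ x ∈ Set.Ioi (1 : ℝ), ‖F n x‖ ≤
      (C' * (n : ℝ) ^ A * (n : ℝ) ^ (-κ)) * (x ^ κ * ‖nd M N₀ w x‖) := by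
    intro n x hx
    have hx1 : (1 : ℝ) < x := hx
    rcases Nat.eq_zero_or_pos n with h0 | h0
    · have : F n x = 0 := by
        rw [hF]
        change (Set.Ici (n : ℝ)).indicator (fun x => c n * nd M N₀ w x) x = 0
        rw [h0, hc0]
        simp
      rw [this, norm_zero]
      have hx0 : 0 ≤ x := by linarith
      positivity
    · by_cases hnx : (n : ℝ) ≤ x
      · have h1 : F n x = c n * nd M N₀ w x := Set.indicator_of_mem (s := Set.Ici (n : ℝ)) hnx _
        rw [h1, norm_mul]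
        have h2 := ab_rpow h0 hnx hκ0
        have h3 : ‖c n‖ * ‖nd M N₀ w x‖ ≤ C' * (n : ℝ) ^ A * ‖nd M N₀ w x‖ :=
          mul_le_mul_of_nonneg_right (hcn n) (norm_nonneg _)
        have h4 : 0 ≤ C' * (n : ℝ) ^ A * ‖nd M N₀ w x‖ := by positivity
        calc ‖c n‖ * ‖nd M N₀ w x‖ ≤ C' * (n : ℝ) ^ A * ‖nd M N₀ w x‖ * 1 := by
              rw [mul_one]; exact h3
          _ ≤ C' * (n : ℝ) ^ A * ‖nd M N₀ w x‖ * ((n : ℝ) ^ (-κ) * x ^ κ) :=
              mul_le_mul_of_nonneg_left h2 h4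
          _ = _ := by ring
      · have h1 : F n x = 0 := Set.indicator_of_notMem (s := Set.Ici (n : ℝ)) hnx _
        rw [h1, norm_zero]
        have hx0 : 0 ≤ x := by linarith
        positivity
  set J : ℝ := ∫ x in Set.Ioi (1 : ℝ), x ^ κ * ‖nd M N₀ w x‖ with hJdef
  have hJ0 : 0 ≤ J := by
    refine setIntegral_nonneg measurableSet_Ioi fun x hx => ?_
    have hx1 : (1 : ℝ) < x := hx
    have hx0 : 0 ≤ x := by linarith
    positivity
  have hsum : Summable fun n => ∫ x in Set.Ioi (1 : ℝ), ‖F n x‖ := by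
    have h1 : Summable fun n : ℕ => C' * J * (n : ℝ) ^ (-(2 : ℝ)) :=
      (Real.summable_nat_rpow.2 (by norm_num)).mul_left _
    refine Summable.of_nonneg_of_le (fun n => integral_nonneg fun x => norm_nonneg _) ?_ h1
    intro n
    have h2 : ∫ x in Set.Ioi (1 : ℝ), ‖F n x‖ ≤
        (C' * (n : ℝ) ^ A * (n : ℝ) ^ (-κ)) * J := by
      rw [hJdef, ← integral_const_mul]
      exact setIntegral_mono_on (hFi n).norm (hJ.const_mul _) measurableSet_Ioi (hFn n)
    refine h2.trans ?_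
    rcases Nat.eq_zero_or_pos n with h0 | h0
    · rw [h0, Nat.cast_zero, Real.zero_rpow hA.ne']
      simp
    · have hn1 : (1 : ℝ) ≤ n := Nat.one_le_cast.2 h0
      have hn0 : (0 : ℝ) < n := by linarith
      have h3 : (n : ℝ) ^ A * (n : ℝ) ^ (-κ) ≤ (n : ℝ) ^ (-(2 : ℝ)) := by
        rw [← Real.rpow_add hn0]
        refine Real.rpow_le_rpow_of_exponent_le hn1 ?_
        rw [hκ]
        have := abs_nonneg w.re
        linarith
      have h4 : 0 ≤ C' * J := mul_nonneg hC'0 hJ0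
      calc C' * (n : ℝ) ^ A * (n : ℝ) ^ (-κ) * J = C' * J * ((n : ℝ) ^ A * (n : ℝ) ^ (-κ)) := by
            ring
        _ ≤ _ := mul_le_mul_of_nonneg_left h3 h4
  have hmain := hasSum_integral_of_summable_integral_norm hFi hsum
  -- the integrals of the terms
  have hterm : ∀ n : ℕ, ∫ x in Set.Ioi (1 : ℝ), F n x =
      if Odd n ∧ Squarefree n then (ups M (n / N₀) : ℂ) * (n : ℂ) ^ w *
        Lchi n (1 / 2 + α) * (Lchi n (1 / 2 + z))⁻¹ else 0 := by
    intro n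
    have h1 : ∫ x in Set.Ioi (1 : ℝ), F n x =
        ∫ x in Set.Ioi (1 : ℝ) ∩ Set.Ici (n : ℝ), c n * nd M N₀ w x :=
      setIntegral_indicator measurableSet_Ici
    rcases Nat.eq_zero_or_pos n with h0 | h0
    · rw [h1, h0, hc0]
      simp
    · have hn1 : (1 : ℝ) ≤ n := Nat.one_le_cast.2 h0
      have hn0 : (0 : ℝ) < n := by linarith
      have h2 : (Set.Ioi (1 : ℝ) ∩ Set.Ici (n : ℝ) : Set ℝ) =ᵐ[volume] Set.Ioi (n : ℝ) := by
        have h3 : (Set.Ioi (1 : ℝ) ∩ Set.Ici (n : ℝ) : Set ℝ) =ᵐ[volume]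
            (Set.Ioi (1 : ℝ) ∩ Set.Ioi (n : ℝ) : Set ℝ) :=
          (Filter.EventuallyEq.refl _ _).inter Ioi_ae_eq_Ici.symm
        have h4 : (Set.Ioi (1 : ℝ) ∩ Set.Ioi (n : ℝ) : Set ℝ) = Set.Ioi (n : ℝ) := by
          rw [Set.Ioi_inter_Ioi, max_eq_right hn1]
        rwa [h4] at h3
      have h5 : ∫ x in Set.Ioi (n : ℝ), nd M N₀ w x = (n : ℂ) ^ w * (ups M (n / N₀) : ℂ) := by
        have h6 := integral_Ioi_of_hasDerivAt_of_tendsto' (a := (n : ℝ))
          (f := fun x : ℝ => (x : ℂ) ^ w * (ups M (x / N₀) : ℂ))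
          (f' := fun x => -nd M N₀ w x) (m := 0)
          (fun x hx => hasDerivAt_nd hM hN w (lt_of_lt_of_le hn0 hx))
          ((hnd.mono_set (Set.Ioi_subset_Ioi hn1)).neg) (ab_tendsto hM hN w)
        rw [integral_neg, zero_sub, neg_inj] at h6
        rw [h6, ofReal_natCast]
      rw [h1, setIntegral_congr_set h2, integral_const_mul, h5, hc]
      change (if Odd n ∧ Squarefree n then _ else _) * _ = _
      split_ifs
      · ring
      · rw [zero_mul]
  have hpt : ∀ x ∈ Set.Ioi (1 : ℝ), ∑' n, F n x = S x α z * nd M N₀ w x := by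
    intro x hx
    have hx1 : (1 : ℝ) < x := hx
    have h1 : ∀ n ∉ (Finset.Icc 1 ⌊x⌋₊).filter (fun n => Odd n ∧ Squarefree n), F n x = 0 := by
      intro n hn
      by_cases hnx : (n : ℝ) ≤ x
      · have h2 : F n x = c n * nd M N₀ w x := Set.indicator_of_mem (s := Set.Ici (n : ℝ)) hnx _
        have h3 : c n = 0 := by
          rcases Nat.eq_zero_or_pos n with h0 | h0
          · rw [h0, hc0]
          · rw [hc]
            refine if_neg fun h4 => hn ?_
            rw [Finset.mem_filter, Finset.mem_Icc]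
            exact ⟨⟨h0, Nat.le_floor hnx⟩, h4⟩
        rw [h2, h3, zero_mul]
      · exact Set.indicator_of_notMem (s := Set.Ici (n : ℝ)) hnx _
    rw [tsum_eq_sum h1]
    unfold S
    rw [Finset.sum_mul]
    refine Finset.sum_congr rfl fun n hn => ?_
    rw [Finset.mem_filter, Finset.mem_Icc] at hn
    have hnx : (n : ℝ) ≤ x := (Nat.le_floor_iff (by linarith)).1 hn.1.2
    have h2 : F n x = c n * nd M N₀ w x := Set.indicator_of_mem (s := Set.Ici (n : ℝ)) hnx _
    have h3 : c n = Lchi n (1 / 2 + α) * (Lchi n (1 / 2 + z))⁻¹ := by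
      rw [hc]
      exact if_pos hn.2
    rw [h2, h3]
  rw [← setIntegral_congr_fun measurableSet_Ioi hpt, ← hmain.tsum_eq]
  unfold GG
  exact tsum_congr fun n => (hterm n).symm

end Pool.Agent.MP_291b24_nt.Sm
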