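import Pool.Agent.Lib.MP_291b24_nt.Sm.Defs

/-! `rad`, `gg`, `VV` -/

set_option autoImplicit false

open Complex

namespace Pool.Agent.MP_291b24_nt.Sm

theorem rad_pos (n : ℕ) : 0 < rad n :=
  Finset.prod_pos fun _ hp => (Nat.prime_of_mem_primeFactors hp).pos

theorem rad_dvd (n : ℕ) : rad n ∣ n := Nat.prod_primeFactors_dvd n

theorem gg_mul_rad (n : ℕ) : gg n * rad n = n := Nat.div_mul_cancel (rad_dvd n)

theorem gg_pos {n : ℕ} (hn : n ≠ 0) : 0 < gg n := by
  rcases Nat.eq_zero_or_pos (gg n) with h | h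
  · exact absurd (by rw [← gg_mul_rad n, h, zero_mul]) hn
  · exact h

theorem sqf_rad (n : ℕ) : Squarefree (rad n) := by
  unfold rad
  refine Finset.squarefree_prod_of_pairwise_isCoprime ?_ ?_
  · intro p hp q hq hpq
    exact Nat.coprime_iff_isRelPrime.1 ((Nat.coprime_primes
      (Nat.prime_of_mem_primeFactors hp) (Nat.prime_of_mem_primeFactors hq)).2 hpq)
  · intro p hp
    exact (Nat.prime_of_mem_primeFactors hp).prime.squarefree

theorem primeFactors_rad (n : ℕ) : (rad n).primeFactors = n.primeFactors :=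
  Nat.primeFactors_prod fun _ hp => Nat.prime_of_mem_primeFactors hp

theorem rad_mul {u v : ℕ} (hc : u.Coprime v) : rad (u * v) = rad u * rad v := by
  unfold rad
  rw [hc.primeFactors_mul, Finset.prod_union hc.disjoint_primeFactors]

theorem rad_of_sqf {u : ℕ} (hu : Squarefree u) : rad u = u :=
  Nat.prod_primeFactors_of_squarefree hu

theorem gg_mul_sqf {u v : ℕ} (hu : Squarefree u) (hc : u.Coprime v) : gg (u * v) = gg v := by
  unfold gg
  rw [rad_mul hc, rad_of_sqf hu, Nat.mul_div_mul_left _ _ (Nat.pos_of_ne_zero hu.ne_zero)]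

theorem rad_sq (h : ℕ) : rad (h ^ 2) = rad h := by
  unfold rad
  rw [Nat.primeFactors_pow h two_ne_zero]

theorem gg_sq (h : ℕ) : gg (h ^ 2) * rad h = h ^ 2 := by
  rw [← rad_sq h]
  exact gg_mul_rad _

theorem VV_sq {h : ℕ} (hh : h ≠ 0) : VV (h ^ 2) :=
  ⟨pow_ne_zero 2 hh, fun _ hp _ hd => pow_dvd_pow_of_dvd (hp.dvd_of_dvd_pow hd) 2⟩

/-- an odd prime which divides `v` divides `gg v`; `16` takes care of the prime `2` -/
theorem four_rad_dvd_b0 {v : ℕ} (hv : VV v) (D c : ℕ) : 4 * rad v ∣ b0 D v c := by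
  have h1 : ∏ p ∈ v.primeFactors.erase 2, p ∣ gg v := by
    refine Finset.prod_primes_dvd (gg v) (fun p hp => ?_) (fun p hp => ?_)
    · exact (Nat.prime_of_mem_primeFactors (Finset.mem_of_mem_erase hp)).prime
    · obtain ⟨h2, h3⟩ := Finset.mem_erase.1 hp
      have hpp := Nat.prime_of_mem_primeFactors h3
      obtain ⟨r, hr⟩ := hv.2 p hpp h2 (Nat.dvd_of_mem_primeFactors h3)
      have h4 : p ^ 2 ∣ gg v * rad v := by
        rw [gg_mul_rad]
        exact ⟨r, hr⟩
      by_contra h5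
      have h6 : p ^ 2 ∣ rad v :=
        (Nat.Coprime.pow_left 2 ((Nat.Prime.coprime_iff_not_dvd hpp).2 h5)).dvd_of_dvd_mul_left h4
      exact hpp.one_lt.ne' (Nat.isUnit_iff.1 (sqf_rad v p (by rw [← sq]; exact h6)))
  have h7 : rad v ∣ 2 * ∏ p ∈ v.primeFactors.erase 2, p := by
    by_cases h : 2 ∈ v.primeFactors
    · rw [Finset.mul_prod_erase v.primeFactors (fun p => p) h]
      exact dvd_rfl
    · rw [Finset.erase_eq_of_notMem h]
      exact Dvd.intro_left 2 rfl
  have h8 : 4 * rad v ∣ gg v * 16 := by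
    refine (Nat.mul_dvd_mul_left 4 (h7.trans (Nat.mul_dvd_mul_left 2 h1))).trans ⟨2, by ring⟩
  unfold b0
  exact h8.trans ⟨4 ^ c * D, by ring⟩

theorem b0_pos {v D : ℕ} (hv : v ≠ 0) (hD : 1 ≤ D) (c : ℕ) : 0 < b0 D v c := by
  unfold b0
  have := gg_pos hv
  positivity

end Pool.Agent.MP_291b24_nt.Sm
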