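import Pool.Agent.Lib.MP_291b24_nt.Sm.Defs

/-! Size of the kernels -/

set_option autoImplicit false

open Complex

namespace Pool.Agent.MP_291b24_nt.Sm

private theorem norm_wk_pos (K : ℕ) {u : ℝ} (hu : 0 < u) :
    ‖wk K u‖ = Real.sqrt K * (u ^ K / (K.factorial : ℝ)) * Real.exp (-u) := by
  unfold wk
  rw [if_pos hu, norm_mul, Complex.norm_exp, Complex.norm_real]
  have h1 : (-(1 - 2 * (Real.pi : ℂ) * I) * (u : ℂ)).re = -u := by
    simp
  rw [h1, Real.norm_of_nonneg (by positivity)]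
  ring

private theorem wk_nonpos (K : ℕ) {u : ℝ} (hu : ¬ 0 < u) : wk K u = 0 := by
  unfold wk
  rw [if_neg hu]

/-- `u ^ K e ^ (-u) / K! ≤ 1` (a term of the exponential series) -/
theorem norm_wk_le (K : ℕ) (u : ℝ) : ‖wk K u‖ ≤ Real.sqrt K := by
  by_cases hu : 0 < u
  · rw [norm_wk_pos K hu]
    have h1 := Real.pow_div_factorial_le_exp u hu.le K
    have h2 : u ^ K / (K.factorial : ℝ) * Real.exp (-u) ≤ 1 := by
      calc u ^ K / (K.factorial : ℝ) * Real.exp (-u) ≤ Real.exp u * Real.exp (-u) :=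
            mul_le_mul_of_nonneg_right h1 (Real.exp_pos _).le
        _ = 1 := by rw [← Real.exp_add]; simp
    calc Real.sqrt K * (u ^ K / (K.factorial : ℝ)) * Real.exp (-u) =
          Real.sqrt K * (u ^ K / (K.factorial : ℝ) * Real.exp (-u)) := by ring
      _ ≤ Real.sqrt K * 1 := mul_le_mul_of_nonneg_left h2 (Real.sqrt_nonneg _)
      _ = Real.sqrt K := mul_one _
  · rw [wk_nonpos K hu, norm_zero]
    exact Real.sqrt_nonneg _

/-- `u ^ K e ^ (-u / 2) ≤ K!` for `u ≥ 8 K`: `K! ≥ (K / e) ^ K` and `log 8 + 1 < 4` -/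
theorem norm_wk_le_exp {K : ℕ} (hK : 1 ≤ K) {u : ℝ} (hu : 8 * K ≤ u) :
    ‖wk K u‖ ≤ Real.sqrt K * Real.exp (-(u / 2)) := by
  have hK' : (1 : ℝ) ≤ K := by exact_mod_cast hK
  have hu0 : 0 < u := by linarith
  rw [norm_wk_pos K hu0]
  have h1 := Real.pow_div_factorial_le_exp (u / 4) (by linarith) K
  have h4 : (4 : ℝ) ^ K ≤ Real.exp (u / 4) := by
    have h5 : (4 : ℝ) ≤ Real.exp 2 := by
      have h6 : (2 : ℝ) ≤ Real.exp 1 := by
        have := Real.add_one_le_exp (1 : ℝ)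
        linarith
      have h7 : Real.exp 2 = Real.exp 1 * Real.exp 1 := by
        rw [← Real.exp_add]; norm_num
      rw [h7]
      nlinarith
    calc (4 : ℝ) ^ K ≤ Real.exp 2 ^ K := pow_le_pow_left₀ (by norm_num) h5 K
      _ = Real.exp (K * 2) := (Real.exp_nat_mul 2 K).symm
      _ ≤ Real.exp (u / 4) := Real.exp_le_exp.2 (by linarith)
  have h2 : u ^ K / (K.factorial : ℝ) ≤ Real.exp (u / 2) := by
    calc u ^ K / (K.factorial : ℝ) = 4 ^ K * ((u / 4) ^ K / (K.factorial : ℝ)) := by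
          rw [div_pow]
          field_simp
      _ ≤ Real.exp (u / 4) * Real.exp (u / 4) :=
          mul_le_mul h4 h1 (by positivity) (Real.exp_pos _).le
      _ = Real.exp (u / 2) := by
          rw [← Real.exp_add]
          congr 1
          ring
  calc Real.sqrt K * (u ^ K / (K.factorial : ℝ)) * Real.exp (-u) =
        Real.sqrt K * (u ^ K / (K.factorial : ℝ) * Real.exp (-u)) := by ring
    _ ≤ Real.sqrt K * (Real.exp (u / 2) * Real.exp (-u)) :=
        mul_le_mul_of_nonneg_left (mul_le_mul_of_nonneg_right h2 (Real.exp_pos _).le)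
          (Real.sqrt_nonneg _)
    _ = Real.sqrt K * Real.exp (-(u / 2)) := by
        rw [← Real.exp_add]
        congr 2
        ring

/-- near zero: `‖wk K u‖ ≤ √K u ^ K`. -/
theorem norm_wk_le_pow (K : ℕ) {u : ℝ} (hu : 0 ≤ u) : ‖wk K u‖ ≤ Real.sqrt K * u ^ K := by
  by_cases hu' : 0 < u
  · rw [norm_wk_pos K hu']
    have h1 : u ^ K / (K.factorial : ℝ) ≤ u ^ K :=
      div_le_self (by positivity) (by exact_mod_cast Nat.succ_le_of_lt (Nat.factorial_pos K))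
    have h2 : Real.exp (-u) ≤ 1 := Real.exp_le_one_iff.2 (by linarith)
    calc Real.sqrt K * (u ^ K / (K.factorial : ℝ)) * Real.exp (-u) ≤
          Real.sqrt K * (u ^ K / (K.factorial : ℝ)) * 1 :=
          mul_le_mul_of_nonneg_left h2 (by positivity)
      _ ≤ Real.sqrt K * u ^ K := by
          rw [mul_one]
          exact mul_le_mul_of_nonneg_left h1 (Real.sqrt_nonneg _)
  · rw [wk_nonpos K hu', norm_zero]
    positivity

theorem norm_ph (K : ℕ) (x : ℝ) : ‖ph K x‖ = Real.exp (-((K : ℝ) / 2 * x ^ 2)) := by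
  unfold ph
  rw [Complex.norm_exp]
  congr 1
  rw [Complex.sub_re, Complex.ofReal_re, Complex.mul_re, Complex.neg_re, Complex.neg_im,
    Complex.ofReal_re, Complex.ofReal_im, Complex.I_re, Complex.I_im]
  ring

private theorem norm_one_add (t : ℝ) :
    ‖(1 : ℂ) + 2 * Real.pi * I * ((t : ℝ) : ℂ)‖ = Real.sqrt (1 + 4 * Real.pi ^ 2 * t ^ 2) := by
  have h1 : (1 : ℂ) + 2 * Real.pi * I * ((t : ℝ) : ℂ) =
      ((1 : ℝ) : ℂ) + ((2 * Real.pi * t : ℝ) : ℂ) * I := by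
    push_cast
    ring
  rw [h1, Complex.norm_add_mul_I]
  congr 1
  ring

theorem norm_wh (K : ℕ) (ξ : ℝ) :
    ‖wh K ξ‖ = Real.sqrt K * (Real.sqrt (1 + 4 * Real.pi ^ 2 * (ξ - 1) ^ 2) ^ (K + 1))⁻¹ := by
  unfold wh
  rw [norm_mul, norm_inv, norm_pow, norm_one_add, Complex.norm_real,
    Real.norm_of_nonneg (Real.sqrt_nonneg _)]

theorem norm_wh_le (K : ℕ) (ξ : ℝ) : ‖wh K ξ‖ ≤ Real.sqrt K := by
  rw [norm_wh]
  have h1 : 1 ≤ Real.sqrt (1 + 4 * Real.pi ^ 2 * (ξ - 1) ^ 2) := by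
    rw [Real.one_le_sqrt]
    have : 0 ≤ 4 * Real.pi ^ 2 * (ξ - 1) ^ 2 := by positivity
    linarith
  have h2 : (Real.sqrt (1 + 4 * Real.pi ^ 2 * (ξ - 1) ^ 2) ^ (K + 1))⁻¹ ≤ 1 :=
    inv_le_one_of_one_le₀ (one_le_pow₀ h1)
  calc Real.sqrt K * (Real.sqrt (1 + 4 * Real.pi ^ 2 * (ξ - 1) ^ 2) ^ (K + 1))⁻¹ ≤
        Real.sqrt K * 1 := mul_le_mul_of_nonneg_left h2 (Real.sqrt_nonneg _)
    _ = Real.sqrt K := mul_one _

/-- `|x| - K x² / 2 ≤ -3 |x| + 4` for `K ≥ 2` -/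
theorem norm_Fk_le {K : ℕ} (hK : 2 ≤ K) (ρ x : ℝ) :
    ‖Fk K ρ x‖ ≤ Real.exp 4 * Real.sqrt K * Real.exp (-(3 * |x|)) := by
  have hK' : (2 : ℝ) ≤ K := by exact_mod_cast hK
  unfold Fk
  rw [norm_mul, norm_mul, norm_ph, Complex.norm_real, Real.norm_of_nonneg (Real.exp_pos _).le]
  have h1 := norm_wh_le K (ρ * Real.exp (-x))
  have h2 : Real.exp (-x) * Real.exp (-((K : ℝ) / 2 * x ^ 2)) ≤
      Real.exp 4 * Real.exp (-(3 * |x|)) := by
    rw [← Real.exp_add, ← Real.exp_add]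
    apply Real.exp_le_exp.2
    have h3 := neg_le_abs x
    have h4 : x ^ 2 = |x| ^ 2 := (sq_abs x).symm
    have h5 : x ^ 2 ≤ (K : ℝ) / 2 * x ^ 2 := by
      have : (0 : ℝ) ≤ ((K : ℝ) / 2 - 1) * x ^ 2 := mul_nonneg (by linarith) (sq_nonneg _)
      linarith
    nlinarith [sq_nonneg (|x| - 2)]
  calc Real.exp (-x) * ‖wh K (ρ * Real.exp (-x))‖ * Real.exp (-((K : ℝ) / 2 * x ^ 2)) =
        ‖wh K (ρ * Real.exp (-x))‖ * (Real.exp (-x) * Real.exp (-((K : ℝ) / 2 * x ^ 2))) := by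
        ring
    _ ≤ Real.sqrt K * (Real.exp 4 * Real.exp (-(3 * |x|))) :=
        mul_le_mul h1 h2 (by positivity) (Real.sqrt_nonneg _)
    _ = Real.exp 4 * Real.sqrt K * Real.exp (-(3 * |x|)) := by ring

theorem continuous_wk {K : ℕ} (hK : 1 ≤ K) : Continuous (wk K) := by
  have h1 : wk K = fun u : ℝ => ((Real.sqrt K / (K.factorial : ℝ) * (max u 0) ^ K : ℝ) : ℂ) *
      cexp (-(1 - 2 * Real.pi * I) * u) := by
    funext u
    by_cases hu : 0 < u
    · unfold wk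
      rw [if_pos hu, max_eq_left hu.le]
    · rw [wk_nonpos K hu, max_eq_right (not_lt.1 hu), zero_pow (by omega)]
      simp
  rw [h1]
  refine Continuous.mul ?_ ?_
  · exact Complex.continuous_ofReal.comp
      (continuous_const.mul ((continuous_id.max continuous_const).pow K))
  · exact Complex.continuous_exp.comp (continuous_const.mul Complex.continuous_ofReal)

end Pool.Agent.MP_291b24_nt.Sm
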