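import Pool.Agent.Lib.MP_291b24_nt.Sm.Arith

/-! Regrouping `n i ^ 2` -/

set_option autoImplicit false

open Complex

namespace Pool.Agent.MP_291b24_nt.Sm

private theorem sr_epsb (n : ℕ) {i : ℕ} (hi : Odd i) : epsb (n * i ^ 2) = epsb n := by
  have h : (n * i ^ 2) % 4 = n % 4 := by
    have h1 : i ^ 2 % 4 = 1 := by
      obtain ⟨k, rfl⟩ := hi
      have : (2 * k + 1) ^ 2 = 4 * (k * (k + 1)) + 1 := by ring
      rw [this]
      omega
    rw [Nat.mul_mod, h1, mul_one, Nat.mod_mod]
  unfold epsb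
  rw [h]

private theorem sr_inj {n i n' i' : ℕ} (hn : Squarefree n) (hn' : Squarefree n') (hi : i ≠ 0)
    (hi' : i' ≠ 0) (h : n * i ^ 2 = n' * i' ^ 2) : n = n' ∧ i = i' := by
  have h1 : ∀ p, n.factorization p + 2 * i.factorization p =
      n'.factorization p + 2 * i'.factorization p := by
    intro p
    have h2 : (n * i ^ 2).factorization p = (n' * i' ^ 2).factorization p := by rw [h]
    rw [Nat.factorization_mul hn.ne_zero (pow_ne_zero 2 hi),
      Nat.factorization_mul hn'.ne_zero (pow_ne_zero 2 hi'), Nat.factorization_pow,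
      Nat.factorization_pow] at h2
    simpa using h2
  have h3 : n = n' := by
    refine Nat.eq_of_factorization_eq hn.ne_zero hn'.ne_zero fun p => ?_
    have h4 := hn.natFactorization_le_one p
    have h5 := hn'.natFactorization_le_one p
    have h6 := h1 p
    omega
  refine ⟨h3, ?_⟩
  subst h3
  have h7 := Nat.eq_of_mul_eq_mul_left (Nat.pos_of_ne_zero hn.ne_zero) h
  exact Nat.pow_left_injective (by norm_num : 2 ≠ 0) h7

/-- Every odd `n' ≥ 1` is uniquely `n i ^ 2` with `n` squarefree (`Nat.sq_mul_squarefree`), `i` is odd, `(N / n') = (N / n) (N / i) ^ 2`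
and `epsb n' = epsb n`. -/
theorem sq_reg {N : ℕ} (hN : N ≠ 0) (F : ℕ → ℂ) (hF : Summable (fun n => ‖F n‖)) :
    ∑' n : ℕ, (if Odd n ∧ Squarefree n then epsb n * ((jacobiSym (N : ℤ) n : ℤ) : ℂ) *
        ∑' i : ℕ, (if Odd i ∧ i.Coprime N then F (n * i ^ 2) else 0) else 0) =
      ∑' n : ℕ, if Odd n then epsb n * ((jacobiSym (N : ℤ) n : ℤ) : ℂ) * F n else 0 := by
  classical
  let h : ℕ → ℂ := fun n => if Odd n then epsb n * ((jacobiSym (N : ℤ) n : ℤ) : ℂ) * F n else 0
  -- summability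
  have hh : Summable h := by
    refine Summable.of_norm_bounded hF fun n => ?_
    change ‖(if Odd n then epsb n * ((jacobiSym (N : ℤ) n : ℤ) : ℂ) * F n else 0)‖ ≤ ‖F n‖
    split_ifs
    · rw [norm_mul, norm_mul]
      have h1 : ‖epsb n‖ = 1 := by
        unfold epsb
        split_ifs <;> simp
      have h2 : ‖((jacobiSym (N : ℤ) n : ℤ) : ℂ)‖ ≤ 1 := by
        rcases jacobiSym.trichotomy (N : ℤ) n with h | h | h <;> rw [h] <;> simp
      rw [h1, one_mul]
      exact mul_le_of_le_one_left (norm_nonneg _) h2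
    · rw [norm_zero]
      exact norm_nonneg _
  let A : Set (ℕ × ℕ) := {q | Odd q.1 ∧ Squarefree q.1 ∧ Odd q.2}
  let g : ℕ × ℕ → ℕ := fun q => q.1 * q.2 ^ 2
  have hinj : Function.Injective (fun q : A => g q) := by
    rintro ⟨⟨n, i⟩, hn1, hn2, hn3⟩ ⟨⟨n', i'⟩, hn1', hn2', hn3'⟩ he
    have hne : ∀ {k : ℕ}, Odd k → k ≠ 0 := by
      rintro k hk rfl
      simp at hk
    obtain ⟨e1, e2⟩ := sr_inj hn2 hn2' (hne hn3) (hne hn3') he
    exact Subtype.ext (Prod.ext e1 e2)
  have hsupp : Function.support h ⊆ Set.range (fun q : A => g q) := by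
    intro m hm
    have hodd : Odd m := by
      by_contra hcon
      exact hm (if_neg hcon)
    obtain ⟨n, i, hni, hsq⟩ := Nat.sq_mul_squarefree m
    rw [← hni, Nat.odd_mul, Nat.odd_pow_iff (by norm_num)] at hodd
    exact ⟨⟨(n, i), hodd.2, hsq, hodd.1⟩, by change n * i ^ 2 = m; rw [mul_comm]; exact hni⟩
  have hsumA : Summable (fun q : A => h (g q)) := hh.comp_injective hinj
  have hsum : Summable (A.indicator fun q => h (g q)) := by
    rw [← summable_subtype_iff_indicator]
    exact hsumA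
  have h1 : ∑' m, h m = ∑' q : ℕ × ℕ, A.indicator (fun q => h (g q)) q := by
    rw [← hinj.tsum_eq hsupp]
    exact tsum_subtype A (fun q => h (g q))
  change _ = ∑' n, h n
  rw [h1, hsum.tsum_prod]
  refine tsum_congr fun n => ?_
  by_cases hn : Odd n ∧ Squarefree n
  · rw [if_pos hn, ← tsum_mul_left]
    refine tsum_congr fun i => ?_
    by_cases hi : Odd i
    · have hmem : ((n, i) : ℕ × ℕ) ∈ A := ⟨hn.1, hn.2, hi⟩
      have hne : i ≠ 0 := by
        rintro rfl
        simp at hi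
      have : NeZero i := ⟨hne⟩
      have : NeZero n := ⟨hn.2.ne_zero⟩
      have hodd : Odd (n * i ^ 2) := hn.1.mul (hi.pow)
      rw [Set.indicator_of_mem hmem]
      change _ = (if Odd (n * i ^ 2) then epsb (n * i ^ 2) *
        ((jacobiSym (N : ℤ) (n * i ^ 2) : ℤ) : ℂ) * F (n * i ^ 2) else 0)
      rw [if_pos hodd, sr_epsb n hi, jacobiSym.mul_right' _ hn.2.ne_zero (pow_ne_zero 2 hne),
        jacobiSym.pow_right]
      by_cases hc : i.Coprime N
      · rw [if_pos ⟨hi, hc⟩, jacobiSym.sq_one (by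
          rw [Int.gcd_natCast_natCast]
          exact Nat.coprime_comm.1 hc), mul_one]
      · rw [if_neg fun h' => hc h'.2]
        have h0 : jacobiSym (N : ℤ) i = 0 := by
          rw [jacobiSym.eq_zero_iff_not_coprime, Int.gcd_natCast_natCast]
          exact fun h5 => hc (Nat.coprime_comm.1 h5)
        rw [h0]
        simp
    · have hmem : ((n, i) : ℕ × ℕ) ∉ A := fun h' => hi h'.2.2
      rw [Set.indicator_of_notMem hmem, if_neg fun h' => hi h'.1, mul_zero]
  · rw [if_neg hn]
    have h2 : ∀ i, A.indicator (fun q => h (g q)) (n, i) = 0 := fun i =>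
      Set.indicator_of_notMem (fun h' => hn ⟨h'.1, h'.2.1⟩) _
    rw [tsum_congr h2, tsum_zero]

end Pool.Agent.MP_291b24_nt.Sm
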