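import Pool.Agent.Lib.MP_291b24_nt.Sm.MobId
import Pool.Agent.Lib.MP_291b24_nt.Sm.SqReg
import Pool.Agent.Lib.MP_291b24_nt.Sm.TnB
import Pool.Agent.Lib.MP_291b24_nt.Sm.KerA

/-! The sum `T` as a sum over `N = m k` -/

set_option autoImplicit false

open Complex

namespace Pool.Agent.MP_291b24_nt.Sm

private theorem b1_wk {K : ℕ} (hK : 1 ≤ K) (u : ℝ) :
    ‖wk K u‖ ≤ Real.sqrt K * Real.exp (4 * K) * Real.exp (-(u / 2)) := by
  have h2 : 0 ≤ Real.sqrt K := Real.sqrt_nonneg _
  rcases le_or_gt (8 * (K : ℝ)) u with h | h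
  · refine (norm_wk_le_exp hK h).trans ?_
    have h1 : (1 : ℝ) ≤ Real.exp (4 * K) := Real.one_le_exp (by positivity)
    exact mul_le_mul_of_nonneg_right (le_mul_of_one_le_right h2 h1) (Real.exp_pos _).le
  · refine (norm_wk_le K u).trans ?_
    rw [mul_assoc, ← Real.exp_add]
    exact le_mul_of_one_le_right h2 (Real.one_le_exp (by linarith))

private theorem b1_exp {a : ℝ} (ha : 0 < a) : Summable fun n : ℕ => Real.exp (-(a * n)) := by
  have h := Real.summable_exp_nat_mul_iff.2 (show -a < 0 by linarith)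
  refine h.congr fun n => ?_
  congr 1
  ring

private theorem b1_epsb (n : ℕ) : ‖epsb n‖ ≤ 1 := by
  unfold epsb
  split_ifs <;> simp

/-- absolute convergence of the fourfold sum (from `Tn_bound`) -/
theorem summable_all {K D : ℕ} (hK : 2 ≤ K) (hD : 1 ≤ D) {X : ℝ} (hX : 2 ≤ X) :
    Summable (fun p : ℕ × (ℕ × ℕ × ℕ) => if Odd p.1 ∧ Squarefree p.1 then ‖tm K D X p.1 p.2‖ else 0) := by
  obtain ⟨C, hC, hT⟩ := Tn_bound
  rw [summable_prod_of_nonneg (fun p => by
    change 0 ≤ (if Odd p.1 ∧ Squarefree p.1 then ‖tm K D X p.1 p.2‖ else 0)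
    split_ifs
    · exact norm_nonneg _
    · exact le_rfl)]
  constructor
  · intro n
    by_cases h : Odd n ∧ Squarefree n
    · simp only [if_pos h]
      exact (hT K D n hK hD h.1.pos X hX).1
    · simp only [if_neg h]
      exact summable_zero
  · have hX0 : 0 < X := by linarith
    refine Summable.of_nonneg_of_le (fun n => tsum_nonneg fun q => by
      change 0 ≤ (if Odd n ∧ Squarefree n then ‖tm K D X n q‖ else 0)
      split_ifs
      · exact norm_nonneg _
      · exact le_rfl) (fun n => ?_)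
      ((b1_exp (show 0 < 1 / (4 * X) by positivity)).mul_left
        (C * (D * K * X) ^ 2 * Real.exp (2 * K)))
    have hB : 0 ≤ C * (D * K * X) ^ 2 := by positivity
    have he : Real.exp (-(1 / (4 * X) * n)) = Real.exp (-(n / (4 * X))) := by
      congr 1
      ring
    rw [he]
    by_cases h : Odd n ∧ Squarefree n
    · simp only [if_pos h]
      obtain ⟨-, h2, h3⟩ := hT K D n hK hD h.1.pos X hX
      by_cases h4 : 8 * K * X < n
      · refine (h3 h4).trans (mul_le_mul_of_nonneg_right ?_ (Real.exp_pos _).le)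
        exact le_mul_of_one_le_right hB (Real.one_le_exp (by positivity))
      · refine h2.trans ?_
        rw [mul_assoc (C * (D * K * X) ^ 2), ← Real.exp_add]
        refine le_mul_of_one_le_right hB (Real.one_le_exp ?_)
        have h5 : (n : ℝ) / (4 * X) ≤ 2 * K := by
          rw [div_le_iff₀ (by positivity)]
          linarith [not_lt.1 h4]
        linarith
    · simp only [if_neg h, tsum_zero]
      positivity

/-- Group the quadruple sum by `N = m k` (`Nat.divisorsAntidiagonal`); for given `N` and `n` use `kap_sum` with `G j = wk K (n j² / X)`,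
then `sq_reg` with `F n = wk K (4 ^ c g² n / X)`. -/
theorem TT_eq_N {K D : ℕ} (hK : 2 ≤ K) (hD : 1 ≤ D) {X : ℝ} (hX : 2 ≤ X) :
    TT K D X = ∑' N : ℕ, ((ArithmeticFunction.moebius (rad N) : ℤ) : ℂ) * (((Real.sqrt N)⁻¹ : ℝ) : ℂ) *
      ph K (Real.log (N / (4 * D * X))) * ∑ c ∈ Finset.range 3, ((kap N c : ℤ) : ℂ) * Rn K X N c := by
  classical
  have hX0 : 0 < X := by linarith
  set E : ℕ → ℂ := fun n => if Odd n ∧ Squarefree n then epsb n else 0 with hE
  set A : ℕ × (ℕ × ℕ × ℕ) → ℂ := fun p => E p.1 * tm K D X p.1 p.2 with hA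
  have hAs : Summable A := by
    refine Summable.of_norm_bounded (summable_all hK hD hX) fun p => ?_
    by_cases h : Odd p.1 ∧ Squarefree p.1
    · rw [if_pos h]
      simp only [hA, hE, if_pos h, norm_mul]
      exact mul_le_of_le_one_left (norm_nonneg _) (b1_epsb _)
    · rw [if_neg h]
      simp only [hA, hE, if_neg h, zero_mul, norm_zero]
      exact le_rfl
  have h1 : TT K D X = ∑' p, A p := by
    rw [hAs.tsum_prod, TT]
    refine tsum_congr fun n => ?_
    simp only [hA, hE]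
    by_cases h : Odd n ∧ Squarefree n
    · simp only [if_pos h, Tn]
      rw [tsum_mul_left]
    · simp only [if_neg h, zero_mul, tsum_zero]
  let e : (ℕ × ℕ) × (ℕ × ℕ) ≃ ℕ × (ℕ × ℕ × ℕ) :=
    { toFun := fun x => (x.2.1, x.1.1, x.1.2, x.2.2)
      invFun := fun y => ((y.2.1, y.2.2.1), (y.1, y.2.2.2))
      left_inv := fun x => rfl
      right_inv := fun y => rfl }
  have hAe : Summable (fun x => A (e x)) := (e.summable_iff (f := A)).2 hAs
  have h2 : TT K D X = ∑' b : ℕ × ℕ, ∑' y : ℕ × ℕ, A (y.1, b.1, b.2, y.2) := by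
    rw [h1, ← e.tsum_eq A, hAe.tsum_prod]
    rfl
  set B : ℕ × ℕ → ℂ := fun b => ∑' y : ℕ × ℕ, A (y.1, b.1, b.2, y.2) with hB
  have hBs : Summable B := hAe.prod
  have h3 := hBs.hasSum.tsum_fiberwise (fun b : ℕ × ℕ => b.1 * b.2)
  rw [h2, ← h3.tsum_eq]
  refine tsum_congr fun N => ?_
  rcases Nat.eq_zero_or_pos N with rfl | hN
  · -- `N = 0`
    rw [Nat.cast_zero, Real.sqrt_zero, inv_zero, Complex.ofReal_zero, mul_zero, zero_mul, zero_mul]
    refine (tsum_congr fun b => ?_).trans tsum_zero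
    have hb : b.1.1 * b.1.2 = 0 := b.2
    simp only [hB]
    refine (tsum_congr fun y => ?_).trans tsum_zero
    simp only [hA, tm]
    rcases Nat.mul_eq_zero.1 hb with h | h
    · have h4 : wk K ((y.1 : ℝ) * (b.1.1 : ℝ) ^ 2 * (y.2 : ℝ) ^ 2 / X) = 0 := by
        rw [h, Nat.cast_zero]
        simp [wk]
      rw [h4, mul_zero, mul_zero]
    · rw [h]
      simp
  have hN0 : N ≠ 0 := hN.ne'
  have hfib : (fun b : ℕ × ℕ => b.1 * b.2) ⁻¹' {N} = ↑(N.divisorsAntidiagonal) := by
    ext b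
    simp [hN0]
  rw [hfib, Finset.tsum_subtype' N.divisorsAntidiagonal B]
  -- the sum over `n`
  set G : ℕ → ℕ → ℂ := fun n j => wk K ((n : ℝ) * (j : ℝ) ^ 2 / X) with hG
  set κ : ℂ := (((Real.sqrt N)⁻¹ : ℝ) : ℂ) * ph K (Real.log (N / (4 * D * X))) with hκ
  have htm : ∀ b ∈ N.divisorsAntidiagonal, ∀ n l, A (n, b.1, b.2, l) =
      E n * ((jacobiSym (N : ℤ) n : ℤ) : ℂ) * κ * (((ArithmeticFunction.moebius b.2 : ℤ) : ℂ) *
        (((hw l : ℤ) : ℂ) * G n (b.1 * l))) := by
    intro b hb n l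
    have hbN := (Nat.mem_divisorsAntidiagonal.1 hb).1
    have hbR : (b.1 : ℝ) * (b.2 : ℝ) = N := by exact_mod_cast hbN
    have h5 : (n : ℝ) * (b.1 : ℝ) ^ 2 * (l : ℝ) ^ 2 / X = (n : ℝ) * ((b.1 * l : ℕ) : ℝ) ^ 2 / X := by
      push_cast
      ring
    simp only [hA, tm, hG, hκ]
    rw [hbN, hbR, h5]
    ring
  have hV : ∀ b : ℕ × ℕ, B b = ∑' n, ∑' l, A (n, b.1, b.2, l) := fun b =>
    (hAe.prod_factor b).tsum_prod
  have hVs : ∀ b : ℕ × ℕ, Summable fun n => ∑' l, A (n, b.1, b.2, l) := fun b =>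
    (hAe.prod_factor b).prod
  rw [Finset.sum_congr rfl fun b _ => hV b, ← Summable.tsum_finsetSum fun b _ => hVs b]
  set Wc : ℕ → ℕ → ℂ := fun c n => ∑' i : ℕ, if Odd i ∧ i.Coprime N then
    G n (2 ^ c * gg N * i) else 0 with hWc
  have hn : ∀ n, ∑ b ∈ N.divisorsAntidiagonal, ∑' l, A (n, b.1, b.2, l) =
      ((ArithmeticFunction.moebius (rad N) : ℤ) : ℂ) * κ * ∑ c ∈ Finset.range 3,
        ((kap N c : ℤ) : ℂ) * (E n * ((jacobiSym (N : ℤ) n : ℤ) : ℂ) * Wc c n) := by
    intro n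
    by_cases h : Odd n ∧ Squarefree n
    · have hn0 : (0 : ℝ) < n := by exact_mod_cast h.1.pos
      have hGs : Summable (G n) := by
        refine Summable.of_norm_bounded ((b1_exp (show 0 < n / (2 * X) by positivity)).mul_left
          (Real.sqrt K * Real.exp (4 * K))) fun j => ?_
        refine (b1_wk (by omega) _).trans (mul_le_mul_of_nonneg_left ?_ (by positivity))
        rw [Real.exp_le_exp, neg_le_neg_iff]
        have hj : (j : ℝ) ≤ (j : ℝ) ^ 2 := by
          exact_mod_cast Nat.le_self_pow two_ne_zero j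
        have h6 : (n : ℝ) / (2 * X) * j ≤ (n : ℝ) / (2 * X) * (j : ℝ) ^ 2 :=
          mul_le_mul_of_nonneg_left hj (by positivity)
        calc (n : ℝ) / (2 * X) * j ≤ (n : ℝ) / (2 * X) * (j : ℝ) ^ 2 := h6
          _ = (n : ℝ) * (j : ℝ) ^ 2 / X / 2 := by
            field_simp
      have h7 := kap_sum hN0 (G n) hGs
      have h8 : ∑ b ∈ N.divisorsAntidiagonal, ∑' l, A (n, b.1, b.2, l) =
          E n * ((jacobiSym (N : ℤ) n : ℤ) : ℂ) * κ * ∑ b ∈ N.divisorsAntidiagonal,
            ((ArithmeticFunction.moebius b.2 : ℤ) : ℂ) * ∑' l : ℕ, ((hw l : ℤ) : ℂ) * G n (b.1 * l) := by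
        rw [Finset.mul_sum]
        refine Finset.sum_congr rfl fun b hb => ?_
        rw [tsum_congr (htm b hb n), tsum_mul_left, tsum_mul_left]
      rw [h8, h7, Finset.mul_sum, Finset.mul_sum, Finset.mul_sum]
      refine Finset.sum_congr rfl fun c _ => ?_
      ring
    · have hE0 : E n = 0 := by simp only [hE, if_neg h]
      rw [Finset.sum_eq_zero, Finset.sum_eq_zero, mul_zero]
      · intro c _
        rw [hE0]
        ring
      · intro b _
        refine (tsum_congr fun l => ?_).trans tsum_zero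
        simp only [hA]
        rw [hE0, zero_mul]
  rw [tsum_congr hn, tsum_mul_left]
  -- the sums over `n` for given `c`
  have hg : (0 : ℝ) < gg N := by exact_mod_cast gg_pos hN0
  have hGF : ∀ c n i : ℕ, G n (2 ^ c * gg N * i) =
      wk K (4 ^ c * (gg N : ℝ) ^ 2 * ((n * i ^ 2 : ℕ) : ℝ) / X) := by
    intro c n i
    simp only [hG]
    congr 1
    have h4 : (4 : ℝ) ^ c = (2 ^ c) ^ 2 := by
      rw [← pow_mul, mul_comm c 2, pow_mul]
      norm_num
    rw [h4]
    push_cast
    ring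
  have hWs : ∀ c, Summable fun n => E n * ((jacobiSym (N : ℤ) n : ℤ) : ℂ) * Wc c n := by
    intro c
    have ha : 0 < 4 ^ c * (gg N : ℝ) ^ 2 / X / 4 := by positivity
    set a : ℝ := 4 ^ c * (gg N : ℝ) ^ 2 / X / 4 with hadef
    have hS := b1_exp ha
    refine Summable.of_norm_bounded (hS.mul_left
      (Real.sqrt K * Real.exp (4 * K) * ∑' i : ℕ, Real.exp (-(a * i)))) fun n => ?_
    by_cases h : Odd n ∧ Squarefree n
    · have hn1 : (1 : ℝ) ≤ n := by exact_mod_cast h.1.pos
      have hEn : ‖E n‖ ≤ 1 := by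
        simp only [hE, if_pos h]
        exact b1_epsb n
      have hJ : ‖((jacobiSym (N : ℤ) n : ℤ) : ℂ)‖ ≤ 1 := by
        rcases jacobiSym.trichotomy (N : ℤ) n with h | h | h <;> rw [h] <;> simp
      have hW : ‖Wc c n‖ ≤ Real.sqrt K * Real.exp (4 * K) * Real.exp (-(a * n)) *
          ∑' i : ℕ, Real.exp (-(a * i)) := by
        refine tsum_of_norm_bounded (hS.hasSum.mul_left _) fun i => ?_
        split_ifs with hi
        · have hi1 : (1 : ℝ) ≤ i := by exact_mod_cast hi.1.pos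
          rw [hGF]
          refine (b1_wk (by omega) _).trans ?_
          rw [mul_assoc _ (Real.exp (-(a * n))), ← Real.exp_add]
          refine mul_le_mul_of_nonneg_left ?_ (by positivity)
          rw [Real.exp_le_exp]
          have h9 : 4 ^ c * (gg N : ℝ) ^ 2 * ((n * i ^ 2 : ℕ) : ℝ) / X / 2 =
              a * (2 * (n * i ^ 2)) := by
            rw [hadef]
            push_cast
            field_simp
            ring
          have h10 : (n : ℝ) + i ≤ 2 * (n * i ^ 2) := by nlinarith [mul_pos (by linarith : (0 : ℝ) < n) (by linarith : (0 : ℝ) < i), sq_nonneg ((i : ℝ) - 1)]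
          have h11 : a * (n + i) ≤ a * (2 * (n * i ^ 2)) := mul_le_mul_of_nonneg_left h10 ha.le
          rw [h9]
          linarith
        · rw [norm_zero]
          positivity
      rw [norm_mul, norm_mul]
      calc ‖E n‖ * ‖((jacobiSym (N : ℤ) n : ℤ) : ℂ)‖ * ‖Wc c n‖ ≤ 1 * 1 * ‖Wc c n‖ := by gcongr
        _ ≤ _ := by
          rw [one_mul, one_mul]
          refine hW.trans (le_of_eq ?_)
          ring
    · have hE0 : E n = 0 := by simp only [hE, if_neg h]
      rw [hE0, zero_mul, zero_mul, norm_zero]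
      have : 0 ≤ ∑' i : ℕ, Real.exp (-(a * i)) := tsum_nonneg fun i => (Real.exp_pos _).le
      positivity
  have hR : ∀ c, ∑' n, E n * ((jacobiSym (N : ℤ) n : ℤ) : ℂ) * Wc c n = Rn K X N c := by
    intro c
    have ha : 0 < 4 ^ c * (gg N : ℝ) ^ 2 / X / 2 := by positivity
    have hF : Summable fun n : ℕ => ‖wk K (4 ^ c * (gg N : ℝ) ^ 2 * (n : ℝ) / X)‖ := by
      refine Summable.of_nonneg_of_le (fun n => norm_nonneg _) (fun n => ?_)
        ((b1_exp ha).mul_left (Real.sqrt K * Real.exp (4 * K)))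
      refine (b1_wk (by omega) _).trans (le_of_eq ?_)
      congr 2
      ring
    have h12 := sq_reg hN0 (fun n : ℕ => wk K (4 ^ c * (gg N : ℝ) ^ 2 * (n : ℝ) / X)) hF
    rw [Rn, ← h12]
    refine tsum_congr fun n => ?_
    by_cases h : Odd n ∧ Squarefree n
    · simp only [hE, hWc, if_pos h]
      congr 1
      refine tsum_congr fun i => ?_
      rw [hGF]
    · simp only [hE, if_neg h, zero_mul]
  have hfin : ∑' n, ∑ c ∈ Finset.range 3,
      ((kap N c : ℤ) : ℂ) * (E n * ((jacobiSym (N : ℤ) n : ℤ) : ℂ) * Wc c n) =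
      ∑ c ∈ Finset.range 3, ((kap N c : ℤ) : ℂ) * Rn K X N c := by
    rw [Summable.tsum_finsetSum fun c _ => (hWs c).mul_left ((kap N c : ℤ) : ℂ)]
    refine Finset.sum_congr rfl fun c _ => ?_
    rw [tsum_mul_left, hR]
  rw [hfin, hκ]
  ring

end Pool.Agent.MP_291b24_nt.Sm
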