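import Pool.Agent.Lib.MP_291b24_nt.Sm.WFour
import Pool.Agent.Lib.MP_291b24_nt.Sm.Arith

/-! Poisson summation in `n` -/

set_option autoImplicit false

open Complex

namespace Pool.Agent.MP_291b24_nt.Sm

private theorem sqf_dvd_rad {a N : ℕ} (hN : N ≠ 0) (ha : Squarefree a) (h : a ∣ N) : a ∣ rad N := by
  rw [← Nat.prod_primeFactors_of_squarefree ha]
  exact Finset.prod_dvd_prod_of_subset _ _ _ (Nat.primeFactors_mono h hN)

private theorem prime_dvd_rad {p N : ℕ} (hN : N ≠ 0) (hp : p.Prime) (h : p ∣ N) : p ∣ rad N :=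
  sqf_dvd_rad hN hp.squarefree h

/-- `(b² a / n) = (a / n)` if `(b, n) = 1` -/
private theorem jac_sq {a b n : ℕ} (h : Nat.Coprime b n) :
    jacobiSym ((b ^ 2 * a : ℕ) : ℤ) n = jacobiSym (a : ℤ) n := by
  push_cast
  rw [jacobiSym.mul_left, jacobiSym.sq_one', one_mul]
  rw [Int.gcd_natCast_natCast]
  exact h

private theorem cop_iff {N : ℕ} (hN : N ≠ 0) (n : ℕ) :
    Nat.Coprime N (n + 4 * rad N) ↔ Nat.Coprime N n := by
  constructor
  · intro h
    refine Nat.Coprime.symm ?_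
    by_contra h1
    obtain ⟨p, hp, h2, h3⟩ := Nat.Prime.not_coprime_iff_dvd.1 h1
    have h4 : p ∣ n + 4 * rad N :=
      Nat.dvd_add h2 (Dvd.dvd.mul_left (prime_dvd_rad hN hp h3) 4)
    exact Nat.not_coprime_of_dvd_of_dvd hp.one_lt h3 h4 h
  · intro h
    by_contra h1
    obtain ⟨p, hp, h2, h3⟩ := Nat.Prime.not_coprime_iff_dvd.1 h1
    have h4 : p ∣ n :=
      (Nat.dvd_add_left (Dvd.dvd.mul_left (prime_dvd_rad hN hp h2) 4)).1 h3
    exact Nat.not_coprime_of_dvd_of_dvd hp.one_lt h2 h4 h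

/-- `n ↦ (N / n)` for odd `n` has the period `4 rad N`: `(N / n) = (N₁ / n)` if `(n, N) = 1`, `N = N₁ y²`, `N₁ ∣ rad N`, and
`jacobiSym.mod_right`. -/
theorem jac_per {N : ℕ} (hN : N ≠ 0) {n : ℕ} (hn : Odd n) :
    jacobiSym (N : ℤ) (n + 4 * rad N) = jacobiSym (N : ℤ) n := by
  have hn0 : n ≠ 0 := by rintro rfl; simp at hn
  have hn' : Odd (n + 4 * rad N) := by
    rw [Nat.odd_add]
    exact iff_of_true hn ⟨2 * rad N, by ring⟩
  by_cases h : Nat.Coprime N n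
  · obtain ⟨a, b, hab, ha⟩ := Nat.sq_mul_squarefree N
    have haN : a ∣ N := ⟨b ^ 2, by rw [← hab]; ring⟩
    have hbN : b ∣ N := ⟨b * a, by rw [← hab]; ring⟩
    have h1 : Nat.Coprime b n := Nat.Coprime.coprime_dvd_left hbN h
    have h2 : Nat.Coprime b (n + 4 * rad N) :=
      Nat.Coprime.coprime_dvd_left hbN ((cop_iff hN n).2 h)
    have e1 := jac_sq (a := a) h1
    have e2 := jac_sq (a := a) h2
    rw [hab] at e1 e2
    rw [e1, e2]
    rw [jacobiSym.mod_right (a : ℤ) hn', jacobiSym.mod_right (a : ℤ) hn, Int.natAbs_natCast]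
    obtain ⟨t, ht⟩ := sqf_dvd_rad hN ha haN
    have e3 : (n + 4 * rad N) % (4 * a) = n % (4 * a) := by
      rw [ht, show n + 4 * (a * t) = n + 4 * a * t by ring, Nat.add_mul_mod_self_left]
    rw [e3]
  · have h' : ¬ Nat.Coprime N (n + 4 * rad N) := fun h2 => h ((cop_iff hN n).1 h2)
    have i1 : NeZero n := ⟨hn0⟩
    have i2 : NeZero (n + 4 * rad N) := ⟨by omega⟩
    have e1 : jacobiSym (N : ℤ) n = 0 := by
      rw [jacobiSym.eq_zero_iff_not_coprime, Int.gcd_natCast_natCast]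
      exact h
    have e2 : jacobiSym (N : ℤ) (n + 4 * rad N) = 0 := by
      rw [jacobiSym.eq_zero_iff_not_coprime, Int.gcd_natCast_natCast]
      exact h'
    rw [e1, e2]

theorem epsb_per (n k : ℕ) : epsb (n + 4 * k) = epsb n := by
  unfold epsb
  rw [Nat.add_mul_mod_self_left]

/-- `poisson_wk` with `θ = 4 ^ c g² / X`, `Q = 4 rad N`, `θ Q = 4 ^ (c + 1) N g / X` -/
theorem Rn_eq {K : ℕ} (hK : 2 ≤ K) {X : ℝ} (hX : 0 < X) {N : ℕ} (hN : N ≠ 0) (c : ℕ) :
    Rn K X N c = ((X / (4 ^ (c + 1) * N * gg N) : ℝ) : ℂ) * ∑' b : ℤ, CN N b *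
      wh K (X / (4 * N) * ((b : ℝ) / (4 ^ c * gg N))) := by
  have hg : 0 < gg N := gg_pos hN
  have hr : 0 < rad N := rad_pos N
  have hgr : (gg N : ℝ) * rad N = N := by exact_mod_cast gg_mul_rad N
  have hg' : (0 : ℝ) < gg N := by exact_mod_cast hg
  have hr' : (0 : ℝ) < rad N := by exact_mod_cast hr
  have hN' : (0 : ℝ) < N := by rw [← hgr]; positivity
  have hθ : 0 < (4 : ℝ) ^ c * (gg N : ℝ) ^ 2 / X := by positivity
  have hQ : 0 < 4 * rad N := by omega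
  have hper : ∀ n : ℕ, (fun n : ℕ => if Odd n then epsb n * ((jacobiSym (N : ℤ) n : ℤ) : ℂ)
      else 0) (n + 4 * rad N) = (fun n : ℕ => if Odd n then
        epsb n * ((jacobiSym (N : ℤ) n : ℤ) : ℂ) else 0) n := by
    intro n
    have hodd : Odd (n + 4 * rad N) ↔ Odd n := by
      rw [Nat.odd_add]
      exact ⟨fun h => h.2 ⟨2 * rad N, by ring⟩, fun h => iff_of_true h ⟨2 * rad N, by ring⟩⟩
    by_cases h : Odd n
    · simp only [if_pos h, if_pos (hodd.2 h)]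
      rw [epsb_per, jac_per hN h]
    · simp only [if_neg h, if_neg (fun h2 => h (hodd.1 h2))]
  have key := poisson_wk hK hθ hQ (fun n : ℕ => if Odd n then
    epsb n * ((jacobiSym (N : ℤ) n : ℤ) : ℂ) else 0) hper
  have eθ : (4 : ℝ) ^ c * (gg N : ℝ) ^ 2 / X * ((4 * rad N : ℕ) : ℝ) =
      4 ^ (c + 1) * N * gg N / X := by
    rw [← hgr]
    push_cast
    ring
  have e1 : Rn K X N c = ∑' n : ℕ, (if Odd n then
      epsb n * ((jacobiSym (N : ℤ) n : ℤ) : ℂ) else 0) *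
        wk K ((4 : ℝ) ^ c * (gg N : ℝ) ^ 2 / X * n) := by
    unfold Rn
    refine tsum_congr fun n => ?_
    by_cases h : Odd n
    · rw [if_pos h, if_pos h]
      rw [show (4 : ℝ) ^ c * (gg N : ℝ) ^ 2 * n / X = (4 : ℝ) ^ c * (gg N : ℝ) ^ 2 / X * n by ring]
    · rw [if_neg h, if_neg h, zero_mul]
  rw [e1, key, eθ]
  have e2 : (((4 ^ (c + 1) * N * gg N / X : ℝ)) : ℂ)⁻¹ =
      ((X / (4 ^ (c + 1) * N * gg N) : ℝ) : ℂ) := by
    rw [← Complex.ofReal_inv, inv_div]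
  rw [e2]
  refine congrArg _ (tsum_congr fun b => ?_)
  have e3 : (b : ℝ) / (4 ^ (c + 1) * N * gg N / X) =
      X / (4 * N) * ((b : ℝ) / (4 ^ c * gg N)) := by
    rw [pow_succ]
    field_simp
  rw [e3]
  refine congrArg (fun z => z * _) ?_
  unfold CN
  refine Finset.sum_congr rfl fun n _ => ?_
  by_cases h : Odd n
  · simp only [if_pos h]
  · simp only [if_neg h, zero_mul]

end Pool.Agent.MP_291b24_nt.Sm
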