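import Pool.Agent.Lib.MP_291b24_nt.Sm.Crt
import Pool.Agent.Lib.MP_291b24_nt.Sm.B2

/-! The character sums `C_N(b)` -/

set_option autoImplicit false

open Complex

namespace Pool.Agent.MP_291b24_nt.Sm

private theorem perm_sum {B u : ℕ} (hB : 0 < B) (hc : u.Coprime B) (h : ℕ → ℂ)
    (hh : ∀ n, h (n + B) = h n) :
    ∑ n ∈ Finset.range B, h (u * n) = ∑ n ∈ Finset.range B, h n := by
  have key : ∀ q r, h (r + B * q) = h r := by
    intro q
    induction q with
    | zero => intro r; simp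
    | succ q ih => intro r; rw [Nat.mul_succ, ← add_assoc, hh, ih]
  have hmod : ∀ m, h m = h (m % B) := by
    intro m
    conv_lhs => rw [← Nat.mod_add_div m B]
    exact key _ _
  have hinj : Set.InjOn (fun n => (u * n) % B) (Finset.range B : Set ℕ) := by
    intro a ha b hb hab
    have h1 : u * a ≡ u * b [MOD B] := hab
    have h2 : a ≡ b [MOD B] := Nat.ModEq.cancel_left_of_coprime hc.symm h1
    exact Nat.ModEq.eq_of_lt_of_lt h2 (by simpa using ha) (by simpa using hb)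
  have himg : (Finset.range B).image (fun n => (u * n) % B) = Finset.range B := by
    apply Finset.eq_of_subset_of_card_le
    · intro x hx
      obtain ⟨n, _, rfl⟩ := Finset.mem_image.1 hx
      exact Finset.mem_range.2 (Nat.mod_lt _ hB)
    · rw [Finset.card_image_of_injOn hinj]
  calc ∑ n ∈ Finset.range B, h (u * n) = ∑ n ∈ Finset.range B, h ((u * n) % B) :=
        Finset.sum_congr rfl fun n _ => hmod _
    _ = ∑ n ∈ (Finset.range B).image (fun n => (u * n) % B), h n :=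
        (Finset.sum_image hinj).symm
    _ = ∑ n ∈ Finset.range B, h n := by rw [himg]

private theorem ex_mod {B : ℕ} (hB : 0 < B) {s t : ℤ} (h : s ≡ t [ZMOD B]) :
    cexp (2 * Real.pi * I * ((s : ℂ) / (B : ℂ))) = cexp (2 * Real.pi * I * ((t : ℂ) / (B : ℂ))) := by
  obtain ⟨k, hk⟩ := h.symm.dvd
  rw [Complex.exp_eq_exp_iff_exists_int]
  refine ⟨k, ?_⟩
  have hB' : (B : ℂ) ≠ 0 := by
    exact_mod_cast hB.ne'
  have h1 : (s : ℂ) = t + B * k := by
    have : s = t + B * k := by linarith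
    rw [this]
    push_cast
    ring
  rw [h1]
  field_simp

private theorem sgn {u n : ℕ} (hu : Odd u) (hn : Odd n) :
    eps u * (epsb (u * n) * (-1 : ℂ) ^ (u / 2 * (u * n / 2))) =
      ((jacobiSym (-1) u : ℤ) : ℂ) * epsb n := by
  rw [jacobiSym.at_neg_one hu]
  have hu4 : u % 4 = 1 ∨ u % 4 = 3 := by
    rw [Nat.odd_iff] at hu
    omega
  have hn4 : n % 4 = 1 ∨ n % 4 = 3 := by
    rw [Nat.odd_iff] at hn
    omega
  rcases hu4 with hu4 | hu4
  · obtain ⟨a, rfl⟩ : ∃ a, u = 4 * a + 1 := ⟨u / 4, by omega⟩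
    rw [ZMod.χ₄_nat_one_mod_four hu4]
    have h1 : ((4 * a + 1) * n) % 4 = n % 4 := by
      rw [Nat.mul_mod, hu4, one_mul, Nat.mod_mod]
    have h2 : (4 * a + 1) / 2 = 2 * a := by omega
    rw [h2, mul_assoc 2 a, pow_mul, neg_one_sq, one_pow, mul_one]
    unfold eps epsb
    rw [if_pos hu4, h1]
    simp
  · obtain ⟨a, rfl⟩ : ∃ a, u = 4 * a + 3 := ⟨u / 4, by omega⟩
    rw [ZMod.χ₄_nat_three_mod_four hu4]
    have h2 : (4 * a + 3) / 2 = 2 * a + 1 := by omega
    rcases hn4 with hn4 | hn4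
    · obtain ⟨c, rfl⟩ : ∃ c, n = 4 * c + 1 := ⟨n / 4, by omega⟩
      have h3 : (4 * a + 3) * (4 * c + 1) = 4 * (4 * a * c + a + 3 * c) + 3 := by ring
      have h4 : ((4 * a + 3) * (4 * c + 1)) / 2 = 2 * (4 * a * c + a + 3 * c) + 1 := by
        rw [h3]
        omega
      have h5 : ((4 * a + 3) * (4 * c + 1)) % 4 = 3 := by
        rw [h3]
        omega
      have h6 : Odd ((2 * a + 1) * (2 * (4 * a * c + a + 3 * c) + 1)) :=
        (odd_two_mul_add_one _).mul (odd_two_mul_add_one _)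
      rw [h2, h4, h6.neg_one_pow]
      unfold eps epsb
      rw [h5, hu4, hn4]
      simp
    · obtain ⟨c, rfl⟩ : ∃ c, n = 4 * c + 3 := ⟨n / 4, by omega⟩
      have h3 : (4 * a + 3) * (4 * c + 3) = 4 * (4 * a * c + 3 * a + 3 * c + 2) + 1 := by ring
      have h4 : ((4 * a + 3) * (4 * c + 3)) / 2 = 2 * (4 * a * c + 3 * a + 3 * c + 2) := by
        rw [h3]
        omega
      have h5 : ((4 * a + 3) * (4 * c + 3)) % 4 = 1 := by
        rw [h3]
        omega
      have h6 : Even ((2 * a + 1) * (2 * (4 * a * c + 3 * a + 3 * c + 2))) :=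
        (even_two_mul _).mul_left _
      rw [h2, h4, h6.neg_one_pow]
      unfold eps epsb
      rw [h5, hu4, hn4]
      simp

/-- `4 rad (u v) = u · (4 rad v)`. For odd `n`: `(uv / n) = (u / n) (v / n)`, `(u / n) = (n / u) (-1) ^ ((u-1)(n-1)/4)`. `crt_sum` with `A = u`,
`f n = (n / u)`, `B = 4 rad v`, `g n = [n odd] epsb n (-1)^((u-1)(n-1)/4) (v / n)`. The first factor is `gauss_jac`: `(b B' / u) eps u √u = (b / u) (rad v / u) eps u √u`.
In the second substitute `n = u n'` (mod `B`): `∑ g (u n') e(b n' / B)`, and `eps u * epsb (u n') * (-1)^((u-1)(u n'-1)/4) = (-1 / u) epsb n'`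
for odd `n'` (four cases mod 4), `(v / (u n')) = (v / u) (v / n')`. Finally `(b / u)(rad v / u)(v / u)(-1 / u) = (-b g / u)` because `v = g rad v`. -/
theorem CN_mul {u v : ℕ} (hu : Odd u) (hs : Squarefree u) (hc : u.Coprime v) (hv : v ≠ 0) (b : ℤ) :
    CN (u * v) b = (Real.sqrt u : ℂ) * ((jacobiSym (-(b * (gg v : ℤ))) u : ℤ) : ℂ) * CN v b := by
  have hu0 : 0 < u := hu.pos
  have hr : 0 < rad v := rad_pos v
  have hB0 : 0 < 4 * rad v := by omega
  have hcr : u.Coprime (rad v) := Nat.Coprime.coprime_dvd_right (rad_dvd v) hc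
  have hc4 : u.Coprime 4 := Nat.Coprime.pow_right 2 hu.coprime_two_right
  have hcB : u.Coprime (4 * rad v) := Nat.Coprime.mul_right hc4 hcr
  obtain ⟨A', hA'⟩ := Int.mod_coprime hcB
  obtain ⟨B', hB'⟩ := Int.mod_coprime hcB.symm
  let g : ℕ → ℂ := fun n => if Odd n then
    epsb n * ((-1 : ℂ) ^ (u / 2 * (n / 2))) * ((jacobiSym (v : ℤ) n : ℤ) : ℂ) else 0
  let f : ℕ → ℂ := fun n => ((jacobiSym (n : ℤ) u : ℤ) : ℂ)
  have hf : ∀ n, f (n + u) = f n := by
    intro n
    simp only [f]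
    rw [jacobiSym.mod_left' (a₁ := ((n + u : ℕ) : ℤ)) (a₂ := (n : ℤ))]
    push_cast
    simp
  have hodd : ∀ n, Odd (n + 4 * rad v) ↔ Odd n := by
    intro n
    rw [Nat.odd_add]
    exact ⟨fun h => h.2 ⟨2 * rad v, by ring⟩, fun h => iff_of_true h ⟨2 * rad v, by ring⟩⟩
  have hg : ∀ n, g (n + 4 * rad v) = g n := by
    intro n
    simp only [g]
    by_cases h : Odd n
    · rw [if_pos h, if_pos ((hodd n).2 h), epsb_per, jac_per hv h]
      have h1 : (n + 4 * rad v) / 2 = n / 2 + 2 * rad v := by omega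
      have h2 : u / 2 * (n / 2 + 2 * rad v) = u / 2 * (n / 2) + 2 * (u / 2 * rad v) := by ring
      rw [h1, h2, pow_add, pow_mul (-1 : ℂ) 2, neg_one_sq, one_pow, mul_one]
    · rw [if_neg h, if_neg (fun h2 => h ((hodd n).1 h2))]
  have hR : 4 * rad (u * v) = u * (4 * rad v) := by
    rw [rad_mul hc, rad_of_sqf hs]
    ring
  have e1 : CN (u * v) b = ∑ n ∈ Finset.range (u * (4 * rad v)), f n * g n *
      cexp (2 * Real.pi * I * ((b : ℂ) * n / ((u * (4 * rad v) : ℕ) : ℂ))) := by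
    unfold CN
    rw [hR]
    refine Finset.sum_congr rfl fun n _ => ?_
    simp only [f, g]
    by_cases h : Odd n
    · rw [if_pos h, if_pos h]
      have h1 : jacobiSym ((u * v : ℕ) : ℤ) n =
          (-1) ^ (u / 2 * (n / 2)) * jacobiSym (n : ℤ) u * jacobiSym (v : ℤ) n := by
        rw [Nat.cast_mul, jacobiSym.mul_left, jacobiSym.quadratic_reciprocity hu h]
      rw [h1]
      push_cast
      ring
    · rw [if_neg h, if_neg h, mul_zero, zero_mul]
  rw [e1, crt_sum hu0 hB0 hcB f g hf hg b hA' hB', gauss_jac hu hs (b * B')]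
  have e2 : ∑ n ∈ Finset.range (4 * rad v), g n *
      cexp (2 * Real.pi * I * (((b * A' : ℤ) : ℂ) * n / ((4 * rad v : ℕ) : ℂ))) =
      ∑ n ∈ Finset.range (4 * rad v), g (u * n) *
        cexp (2 * Real.pi * I * ((b : ℂ) * n / ((4 * rad v : ℕ) : ℂ))) := by
    rw [← perm_sum hB0 hcB (fun n => g n *
      cexp (2 * Real.pi * I * (((b * A' : ℤ) : ℂ) * n / ((4 * rad v : ℕ) : ℂ))))]
    · refine Finset.sum_congr rfl fun n _ => ?_
      have h1 : b * A' * ((u * n : ℕ) : ℤ) ≡ b * (n : ℤ) [ZMOD ((4 * rad v : ℕ) : ℤ)] := by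
        have h2 := (hA'.mul_left (b * n))
        rw [mul_one] at h2
        have h3 : b * A' * ((u * n : ℕ) : ℤ) = b * n * (u * A') := by
          push_cast
          ring
        rw [h3]
        exact h2
      have h4 := ex_mod hB0 h1
      congr 1
      rw [← Int.cast_natCast (R := ℂ) (u * n), ← Int.cast_mul, h4]
      push_cast
      rfl
    · intro n
      have h1 : b * A' * ((n + 4 * rad v : ℕ) : ℤ) ≡ b * A' * (n : ℤ)
          [ZMOD ((4 * rad v : ℕ) : ℤ)] := by
        push_cast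
        rw [mul_add]
        exact Int.ModEq.symm (Int.modEq_iff_dvd.2 ⟨b * A', by ring⟩)
      have h4 := ex_mod hB0 h1
      simp only [hg]
      congr 1
      rw [← Int.cast_natCast (R := ℂ) (n + 4 * rad v), ← Int.cast_mul, h4]
      push_cast
      rfl
  have e3 : eps u * ∑ n ∈ Finset.range (4 * rad v), g (u * n) *
        cexp (2 * Real.pi * I * ((b : ℂ) * n / ((4 * rad v : ℕ) : ℂ))) =
      ((jacobiSym (-1) u : ℤ) : ℂ) * ((jacobiSym (v : ℤ) u : ℤ) : ℂ) * CN v b := by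
    unfold CN
    rw [Finset.mul_sum, Finset.mul_sum]
    refine Finset.sum_congr rfl fun n _ => ?_
    simp only [g]
    by_cases h : Odd n
    · rw [if_pos h, if_pos (hu.mul h), jacobiSym.mul_right' _ hu0.ne' h.pos.ne']
      have h1 := sgn hu h
      push_cast
      linear_combination (((jacobiSym (v : ℤ) u : ℤ) : ℂ) * ((jacobiSym (v : ℤ) n : ℤ) : ℂ) *
        cexp (2 * Real.pi * I * ((b : ℂ) * n / (4 * (rad v : ℂ))))) * h1
    · rw [if_neg h, if_neg (fun h2 => h (Nat.odd_mul.1 h2).2)]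
      simp
  have e4 : jacobiSym (b * B') u * (jacobiSym (-1) u * jacobiSym (v : ℤ) u) =
      jacobiSym (-(b * (gg v : ℤ))) u := by
    have h1 : jacobiSym (((4 * rad v : ℕ) : ℤ) * B') u = 1 := by
      rw [jacobiSym.mod_left' (hB' : _ % _ = _ % _), jacobiSym.one_left]
    have h2 : jacobiSym ((4 * rad v : ℕ) : ℤ) u = jacobiSym (rad v : ℤ) u := by
      rw [Nat.cast_mul, jacobiSym.mul_left]
      have h3 : jacobiSym ((4 : ℕ) : ℤ) u = 1 := by
        have h5 : ((4 : ℕ) : ℤ) = 2 ^ 2 := by norm_num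
        rw [h5]
        refine jacobiSym.sq_one' ?_
        exact hu.coprime_two_left
      rw [h3, one_mul]
    rw [jacobiSym.mul_left, h2] at h1
    have h6 : jacobiSym (v : ℤ) u = jacobiSym (gg v : ℤ) u * jacobiSym (rad v : ℤ) u := by
      rw [← jacobiSym.mul_left, ← Nat.cast_mul, gg_mul_rad]
    have h7 : -(b * (gg v : ℤ)) = -1 * (b * (gg v : ℤ)) := by ring
    rw [h7, jacobiSym.mul_left, jacobiSym.mul_left, jacobiSym.mul_left, h6]
    linear_combination (jacobiSym b u * jacobiSym (-1) u * jacobiSym (gg v : ℤ) u) * h1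
  rw [e2, ← e4, Int.cast_mul, Int.cast_mul]
  linear_combination (((jacobiSym (b * B') u : ℤ) : ℂ) * (Real.sqrt u : ℂ)) * e3

end Pool.Agent.MP_291b24_nt.Sm
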