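import Pool.Agent.Lib.MP_291b24_nt.Sm.CvBa
import Pool.Agent.Lib.MP_291b24_nt.Sm.B2

/-! Bound of the character sums `C_v(b)` -/

set_option autoImplicit false

open Complex

namespace Pool.Agent.MP_291b24_nt.Sm

private theorem cvB_eps (n : ℕ) : ‖epsb n‖ ≤ 1 := by
  unfold epsb
  split_ifs <;> simp

private theorem cvB_jac (a : ℤ) (n : ℕ) : ‖((jacobiSym a n : ℤ) : ℂ)‖ ≤ 1 := by
  rcases jacobiSym.trichotomy a n with h | h | h <;> rw [h] <;> simp

private theorem cvB_chi (n e : ℕ) : ‖((ZMod.χ₈ (n : ZMod 8) ^ e : ℤ) : ℂ)‖ ≤ 1 := by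
  rw [Int.cast_pow, norm_pow]
  refine pow_le_one₀ (norm_nonneg _) ?_
  rcases ZMod.isQuadratic_χ₈ (n : ZMod 8) with h | h | h <;> rw [h] <;> simp

private theorem cvB_exp (b : ℤ) (n M : ℕ) :
    ‖cexp (2 * Real.pi * I * ((b : ℂ) * n / (M : ℂ)))‖ = 1 := by
  have h : (2 * Real.pi * I * ((b : ℂ) * n / (M : ℂ))) =
      ((2 * Real.pi * ((b : ℝ) * n / M) : ℝ) : ℂ) * I := by
    push_cast
    ring
  rw [h, norm_exp_ofReal_mul_I]

private theorem cvB_jac_eq {e v' n : ℕ} (hv' : Odd v') (hn : Odd n) :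
    jacobiSym ((2 ^ e * v' : ℕ) : ℤ) n =
      ZMod.χ₈ (n : ZMod 8) ^ e * (qrSign n v' * jacobiSym (n : ℤ) v') := by
  rw [Nat.cast_mul, Nat.cast_pow, jacobiSym.mul_left, jacobiSym.pow_left, Nat.cast_ofNat,
    jacobiSym.at_two hn, jacobiSym.quadratic_reciprocity' hv' hn]

/-- the function modulo `4` or `8` -/
private noncomputable def cvEta (e v' n : ℕ) : ℂ :=
  if Odd n then epsb n * (((ZMod.χ₈ (n : ZMod 8) ^ e : ℤ) : ℂ) * ((qrSign n v' : ℤ) : ℂ)) else 0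

private theorem cvEta_per {A e v' : ℕ} (hA : A = 4 ∧ e = 0 ∨ A = 8) (n : ℕ) :
    cvEta e v' (n + A) = cvEta e v' n := by
  unfold cvEta
  have h1 : epsb (n + A) = epsb n := by
    rcases hA with ⟨h, -⟩ | h
    · rw [h]
      exact epsb_per n 1
    · rw [h]
      exact epsb_per n 2
  have h2 : ZMod.χ₈ ((n + A : ℕ) : ZMod 8) ^ e = ZMod.χ₈ (n : ZMod 8) ^ e := by
    rcases hA with ⟨-, h⟩ | h
    · rw [h, pow_zero, pow_zero]
    · have h8 : ((8 : ℕ) : ZMod 8) = 0 := ZMod.natCast_self 8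
      rw [h, Nat.cast_add, h8, add_zero]
  have h3 : qrSign (n + A) v' = qrSign n v' := by
    unfold qrSign
    have h5 : ((n + A : ℕ) : ZMod 4) = n := by
      have h4 : ((4 : ℕ) : ZMod 4) = 0 := ZMod.natCast_self 4
      rcases hA with ⟨h, -⟩ | h
      · rw [h, Nat.cast_add, h4, add_zero]
      · have h8 : ((8 : ℕ) : ZMod 4) = 0 := by
          have : (8 : ℕ) = 4 + 4 := rfl
          rw [this, Nat.cast_add, h4, add_zero]
        rw [h, Nat.cast_add, h8, add_zero]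
    rw [h5]
  have h4 : Odd (n + A) ↔ Odd n := by
    rcases hA with ⟨h, -⟩ | h <;> rw [h, Nat.odd_iff, Nat.odd_iff] <;> omega
  rw [h1, h2, h3]
  by_cases hn : Odd n
  · rw [if_pos hn, if_pos (h4.2 hn)]
  · rw [if_neg hn, if_neg (fun h => hn (h4.1 h))]

private theorem cvEta_le (e v' n : ℕ) : ‖cvEta e v' n‖ ≤ 1 := by
  unfold cvEta
  split_ifs
  · rw [norm_mul, norm_mul]
    exact mul_le_one₀ (cvB_eps n) (mul_nonneg (norm_nonneg _) (norm_nonneg _))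
      (mul_le_one₀ (cvB_chi n e) (norm_nonneg _) (cvB_jac _ _))
  · rw [norm_zero]
    exact zero_le_one

private theorem cvB_main {A e v' : ℕ} (hA : A = 4 ∧ e = 0 ∨ A = 8) (hv' : Odd v')
    (hr : 4 * rad (2 ^ e * v') = A * rad v') (b : ℤ) :
    ‖CN (2 ^ e * v') b‖ ≤ A * Real.sqrt (rad v' * (Int.gcd b (rad v') : ℕ)) := by
  have h := gen_bound (A := A) (hA.imp (fun h => h.1) id) hv' (cvEta e v') (cvEta_per hA)
    (cvEta_le e v') b
  refine le_of_eq_of_le (congrArg _ ?_) h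
  unfold CN
  rw [hr]
  refine Finset.sum_congr rfl fun n _ => ?_
  unfold cvEta
  by_cases hn : Odd n
  · rw [if_pos hn, if_pos hn, cvB_jac_eq hv' hn]
    push_cast
    ring
  · rw [if_neg hn, if_neg hn, zero_mul, zero_mul]

/-- `v = 2 ^ e v'`: `(v / n) = (2 / n) ^ e (n / v') (-1)^((n-1)(v'-1)/4)`, `A = 4` (`e = 0`) or `8`, `gen_bound` -/
theorem norm_CN_le {v : ℕ} (hv : v ≠ 0) (b : ℤ) :
    ‖CN v b‖ ≤ 8 * Real.sqrt (rad v * (Int.gcd b (rad v) : ℕ)) := by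
  obtain ⟨e, v', hv', rfl⟩ := Nat.exists_eq_two_pow_mul_odd hv
  have hA : ∃ A : ℕ, (A = 4 ∧ e = 0 ∨ A = 8) ∧ 4 * rad (2 ^ e * v') = A * rad v' ∧ A ≤ 8 ∧
      rad v' ∣ rad (2 ^ e * v') := by
    rcases Nat.eq_zero_or_pos e with h | h
    · refine ⟨4, Or.inl ⟨rfl, h⟩, ?_, by omega, ?_⟩
      · rw [h, pow_zero, one_mul]
      · rw [h, pow_zero, one_mul]
    · have h1 : rad (2 ^ e * v') = 2 * rad v' := by
        have h2 : (2 ^ e).Coprime v' := Nat.Coprime.pow_left e hv'.coprime_two_left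
        rw [rad_mul h2]
        unfold rad
        rw [Nat.primeFactors_prime_pow h.ne' Nat.prime_two, Finset.prod_singleton]
      refine ⟨8, Or.inr rfl, ?_, le_refl _, ?_⟩
      · rw [h1]
        ring
      · rw [h1]
        exact dvd_mul_left _ _
  obtain ⟨A, hA, hr, h8, hd⟩ := hA
  refine (cvB_main hA hv' hr b).trans ?_
  have hpos := rad_pos (2 ^ e * v')
  have h1 : (rad v' : ℝ) ≤ rad (2 ^ e * v') := Nat.cast_le.2 (Nat.le_of_dvd hpos hd)
  have h2 : Int.gcd b (rad v') ≤ Int.gcd b (rad (2 ^ e * v')) := by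
    refine Nat.le_of_dvd (Nat.pos_of_ne_zero fun h0 => ?_) ?_
    · rw [Int.gcd_eq_zero_iff] at h0
      exact hpos.ne' (Int.natCast_eq_zero.1 h0.2)
    · exact Int.gcd_dvd_gcd_of_dvd_right b (Int.natCast_dvd_natCast.2 hd)
  have h3 : ((Int.gcd b (rad v') : ℕ) : ℝ) ≤ (Int.gcd b (rad (2 ^ e * v')) : ℕ) :=
    Nat.cast_le.2 h2
  have h4 : (A : ℝ) ≤ 8 := by exact_mod_cast h8
  exact mul_le_mul h4 (Real.sqrt_le_sqrt (mul_le_mul h1 h3 (Nat.cast_nonneg _)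
    (Nat.cast_nonneg _))) (Real.sqrt_nonneg _) (by norm_num)

theorem norm_CN_le' {v : ℕ} (hv : v ≠ 0) (b : ℤ) : ‖CN v b‖ ≤ 4 * rad v := by
  unfold CN
  refine (norm_sum_le _ _).trans ((Finset.sum_le_card_nsmul _ _ 1 fun n _ => ?_).trans ?_)
  · split_ifs
    · rw [norm_mul, norm_mul, cvB_exp, mul_one]
      exact mul_le_one₀ (cvB_eps n) (norm_nonneg _) (cvB_jac _ _)
    · rw [norm_zero]
      exact zero_le_one
  · rw [Finset.card_range, nsmul_eq_mul, mul_one]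
    push_cast
    exact le_refl _

end Pool.Agent.MP_291b24_nt.Sm
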