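import Pool.Agent.Lib.MP_291b24_nt.Sm.KerA

/-! Kernel far from the resonance -/

set_option autoImplicit false

open Complex

namespace Pool.Agent.MP_291b24_nt.Sm

private theorem kf_norm (K : ℕ) (ρ x : ℝ) : ‖Fk K ρ x‖ = Real.exp (-x) * (Real.sqrt K *
    (Real.sqrt (1 + 4 * Real.pi ^ 2 * (ρ * Real.exp (-x) - 1) ^ 2) ^ (K + 1))⁻¹) *
      Real.exp (-((K : ℝ) / 2 * x ^ 2)) := by
  unfold Fk
  rw [norm_mul, norm_mul, norm_wh, norm_ph, Complex.norm_real, Real.norm_eq_abs,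
    abs_of_pos (Real.exp_pos _)]

/-- the bound with the factor `S ^ (K - 1)` kept -/
private theorem kf_le {K : ℕ} (hK : 2 ≤ K) (ρ x : ℝ) : ‖Fk K ρ x‖ ≤
    8 * Real.sqrt K * ((1 + |ρ|) ^ 2)⁻¹ *
    ((Real.sqrt (1 + 4 * Real.pi ^ 2 * (ρ * Real.exp (-x) - 1) ^ 2) ^ (K - 1))⁻¹) *
      Real.exp (3 * |x| - (K : ℝ) / 2 * x ^ 2) := by
  rw [kf_norm]
  obtain ⟨y, hy⟩ : ∃ y, y = ρ * Real.exp (-x) - 1 := ⟨_, rfl⟩
  rw [← hy]
  obtain ⟨S, hS⟩ : ∃ S, S = Real.sqrt (1 + 4 * Real.pi ^ 2 * y ^ 2) := ⟨_, rfl⟩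
  rw [← hS]
  have hpi : 9 ≤ Real.pi ^ 2 := by nlinarith [Real.pi_gt_three]
  have hS0 : 0 < 1 + 4 * Real.pi ^ 2 * y ^ 2 := by positivity
  have hSp : 0 < S := by rw [hS]; exact Real.sqrt_pos.2 hS0
  have hS2 : S ^ 2 = 1 + 4 * Real.pi ^ 2 * y ^ 2 := by rw [hS, Real.sq_sqrt hS0.le]
  have hρ : ρ = (1 + y) * Real.exp x := by
    rw [hy, add_sub_cancel, mul_assoc, ← Real.exp_add, neg_add_cancel, Real.exp_zero, mul_one]
  have he1 : (1 : ℝ) ≤ Real.exp |x| := Real.one_le_exp (abs_nonneg x)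
  have h1 : 1 + |ρ| ≤ (2 + |y|) * Real.exp |x| := by
    rw [hρ, abs_mul, abs_of_pos (Real.exp_pos x)]
    have h2 : |1 + y| ≤ 1 + |y| := (abs_add_le 1 y).trans (by rw [abs_one])
    have h3 : Real.exp x ≤ Real.exp |x| := Real.exp_le_exp.2 (le_abs_self x)
    have h4 : |1 + y| * Real.exp x ≤ (1 + |y|) * Real.exp |x| :=
      mul_le_mul h2 h3 (Real.exp_pos x).le (by positivity)
    nlinarith
  have h2 : (1 + |ρ|) ^ 2 ≤ 8 * S ^ 2 * Real.exp (2 * |x|) := by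
    have h3 : (1 + |ρ|) ^ 2 ≤ ((2 + |y|) * Real.exp |x|) ^ 2 :=
      pow_le_pow_left₀ (by positivity) h1 2
    have h4 : Real.exp (2 * |x|) = Real.exp |x| ^ 2 := by
      rw [← Real.exp_nat_mul]
      norm_num
    have h5 : (2 + |y|) ^ 2 ≤ 8 * S ^ 2 := by
      rw [hS2]
      have h6 : |y| ^ 2 = y ^ 2 := sq_abs y
      nlinarith [sq_nonneg (|y| - 2), sq_nonneg y]
    rw [mul_pow] at h3
    rw [h4]
    exact h3.trans (mul_le_mul_of_nonneg_right h5 (by positivity))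
  have h3 : (S ^ 2)⁻¹ ≤ 8 * ((1 + |ρ|) ^ 2)⁻¹ * Real.exp (2 * |x|) := by
    have hp : (0 : ℝ) < (1 + |ρ|) ^ 2 := by positivity
    rw [inv_le_iff_one_le_mul₀ (by positivity)]
    calc (1 : ℝ) = ((1 + |ρ|) ^ 2)⁻¹ * (1 + |ρ|) ^ 2 := (inv_mul_cancel₀ hp.ne').symm
      _ ≤ ((1 + |ρ|) ^ 2)⁻¹ * (8 * S ^ 2 * Real.exp (2 * |x|)) :=
        mul_le_mul_of_nonneg_left h2 (by positivity)
      _ = _ := by ring
  have h4 : S ^ (K + 1) = S ^ (K - 1) * S ^ 2 := by
    rw [← pow_add]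
    congr 1
    omega
  have h5 : Real.exp (-x) ≤ Real.exp |x| := Real.exp_le_exp.2 (neg_le_abs x)
  have h6 : Real.exp (3 * |x| - (K : ℝ) / 2 * x ^ 2) = Real.exp |x| * Real.exp (2 * |x|) *
      Real.exp (-((K : ℝ) / 2 * x ^ 2)) := by
    rw [← Real.exp_add, ← Real.exp_add]
    congr 1
    ring
  rw [h4, h6, mul_inv]
  calc Real.exp (-x) * (Real.sqrt K * ((S ^ (K - 1))⁻¹ * (S ^ 2)⁻¹)) *
        Real.exp (-((K : ℝ) / 2 * x ^ 2))
      ≤ Real.exp |x| * (Real.sqrt K * ((S ^ (K - 1))⁻¹ *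
          (8 * ((1 + |ρ|) ^ 2)⁻¹ * Real.exp (2 * |x|)))) * Real.exp (-((K : ℝ) / 2 * x ^ 2)) := by
        gcongr
    _ = _ := by ring

private theorem kf_one (K : ℕ) (y : ℝ) :
    ((Real.sqrt (1 + 4 * Real.pi ^ 2 * y ^ 2) ^ (K - 1))⁻¹) ≤ 1 := by
  have h1 : 1 ≤ Real.sqrt (1 + 4 * Real.pi ^ 2 * y ^ 2) := by
    rw [Real.one_le_sqrt]
    have : 0 ≤ 4 * Real.pi ^ 2 * y ^ 2 := by positivity
    linarith
  exact inv_le_one_of_one_le₀ (one_le_pow₀ h1)

/-- Write `y = ρ e ^ (-x) - 1`. `(1 + 4 π² y²) ^ (-(K+1)/2) = (1 + 4 π² y²) ^ (-1) (1 + 4 π² y²) ^ (-(K-1)/2)`; the first factor is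
`≤ C (1 + |ρ|) ^ (-2) e ^ (2|x|)`. If `|y| ≥ δ / 4` the second is `≤ exp (-c K δ²)`, otherwise `|x| ≥ c δ` and `exp (-K x² / 4) ≤ exp (-c K δ²)`. -/
theorem Fk_far : ∃ c C : ℝ, 0 < c ∧ 0 < C ∧ ∀ K : ℕ, 2 ≤ K → ∀ δ : ℝ, 0 < δ → δ ≤ 1 / 2 → ∀ ρ x : ℝ,
    δ ≤ |ρ - 1| → ‖Fk K ρ x‖ ≤ C * Real.sqrt K * Real.exp (-(c * K * δ ^ 2)) * ((1 + |ρ|) ^ 2)⁻¹ *
      Real.exp (-(3 * |x|)) := by
  refine ⟨1 / 256, 8 * Real.exp 18, by norm_num, by positivity, ?_⟩
  intro K hK δ hδ hδ2 ρ x hρ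
  refine (kf_le hK ρ x).trans ?_
  obtain ⟨y, hy⟩ : ∃ y, y = ρ * Real.exp (-x) - 1 := ⟨_, rfl⟩
  rw [← hy]
  have hK' : (2 : ℝ) ≤ K := by exact_mod_cast hK
  have hpi : 9 ≤ Real.pi ^ 2 := by nlinarith [Real.pi_gt_three]
  have hx2 : x ^ 2 = |x| ^ 2 := (sq_abs x).symm
  have hx0 : 0 ≤ |x| := abs_nonneg x
  have key : ((Real.sqrt (1 + 4 * Real.pi ^ 2 * y ^ 2) ^ (K - 1))⁻¹) *
      Real.exp (3 * |x| - (K : ℝ) / 2 * x ^ 2) ≤
      Real.exp 18 * Real.exp (-(1 / 256 * K * δ ^ 2)) * Real.exp (-(3 * |x|)) := by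
    rw [← Real.exp_add, ← Real.exp_add]
    rcases le_or_gt (δ / 4) |y| with h | h
    · -- far in `y`
      have h1 : Real.exp (δ ^ 2 / 2) ≤ Real.sqrt (1 + 4 * Real.pi ^ 2 * y ^ 2) := by
        apply Real.le_sqrt_of_sq_le
        have h2 : Real.exp (δ ^ 2 / 2) ^ 2 = Real.exp (δ ^ 2) := by
          rw [← Real.exp_nat_mul]
          congr 1
          push_cast
          ring
        rw [h2]
        have h3 : |δ ^ 2| ≤ 1 := by
          rw [abs_of_nonneg (by positivity)]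
          nlinarith
        have h4 := Real.abs_exp_sub_one_sub_id_le h3
        have h5 := (abs_le.1 h4).2
        have h6 : (δ / 4) ^ 2 ≤ y ^ 2 := by
          rw [← sq_abs y]
          exact pow_le_pow_left₀ (by positivity) h 2
        have h7 : δ ^ 2 ≤ 1 / 4 := by nlinarith
        nlinarith [sq_nonneg δ, mul_le_mul hpi h6 (by positivity) (by positivity)]
      have h2 : (Real.sqrt (1 + 4 * Real.pi ^ 2 * y ^ 2) ^ (K - 1))⁻¹ ≤
          Real.exp (-((K - 1 : ℕ) * (δ ^ 2 / 2))) := by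
        rw [Real.exp_neg, Real.exp_nat_mul]
        exact inv_anti₀ (by positivity) (pow_le_pow_left₀ (by positivity) h1 _)
      refine (mul_le_mul_of_nonneg_right h2 (Real.exp_pos _).le).trans ?_
      rw [← Real.exp_add]
      apply Real.exp_le_exp.2
      have h3 : ((K - 1 : ℕ) : ℝ) = (K : ℝ) - 1 := by
        rw [Nat.cast_sub (by omega), Nat.cast_one]
      rw [h3, hx2]
      have h4 : 0 ≤ δ ^ 2 := by positivity
      nlinarith [sq_nonneg (|x| - 3), mul_nonneg (sub_nonneg.2 hK') (sq_nonneg |x|),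
        mul_nonneg (sub_nonneg.2 hK') h4]
    · -- far in `x`
      have h1 : δ / 8 ≤ |x| := by
        by_contra hlt
        rw [not_le] at hlt
        have hx1 : |x| ≤ 1 := by linarith
        have h2 : |Real.exp x - 1| ≤ 2 * |x| := Real.abs_exp_sub_one_le hx1
        have h3 : ρ = (1 + y) * Real.exp x := by
          rw [hy, add_sub_cancel, mul_assoc, ← Real.exp_add, neg_add_cancel, Real.exp_zero,
            mul_one]
        have h4 : ρ - 1 = y * Real.exp x + (Real.exp x - 1) := by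
          rw [h3]
          ring
        have h5 : |ρ - 1| ≤ |y| * Real.exp x + |Real.exp x - 1| := by
          rw [h4]
          refine (abs_add_le _ _).trans ?_
          rw [abs_mul, abs_of_pos (Real.exp_pos x)]
        have h6 : Real.exp x ≤ 2 := by
          have := (abs_le.1 h2).2
          linarith
        have h7 : |y| * Real.exp x ≤ δ / 4 * 2 :=
          mul_le_mul h.le h6 (Real.exp_pos x).le (by positivity)
        linarith
      have h2 : (δ / 8) ^ 2 ≤ |x| ^ 2 := pow_le_pow_left₀ (by positivity) h1 2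
      refine (mul_le_mul_of_nonneg_right (kf_one K y) (Real.exp_pos _).le).trans ?_
      rw [one_mul]
      apply Real.exp_le_exp.2
      rw [hx2]
      nlinarith [sq_nonneg (|x| - 6), mul_nonneg (sub_nonneg.2 hK') (sq_nonneg |x|),
        mul_le_mul_of_nonneg_left h2 (by positivity : (0 : ℝ) ≤ K / 4)]
  calc 8 * Real.sqrt K * ((1 + |ρ|) ^ 2)⁻¹ *
        ((Real.sqrt (1 + 4 * Real.pi ^ 2 * y ^ 2) ^ (K - 1))⁻¹) *
          Real.exp (3 * |x| - (K : ℝ) / 2 * x ^ 2)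
      = 8 * Real.sqrt K * ((1 + |ρ|) ^ 2)⁻¹ *
        (((Real.sqrt (1 + 4 * Real.pi ^ 2 * y ^ 2) ^ (K - 1))⁻¹) *
          Real.exp (3 * |x| - (K : ℝ) / 2 * x ^ 2)) := by ring
    _ ≤ 8 * Real.sqrt K * ((1 + |ρ|) ^ 2)⁻¹ *
        (Real.exp 18 * Real.exp (-(1 / 256 * K * δ ^ 2)) * Real.exp (-(3 * |x|))) :=
        mul_le_mul_of_nonneg_left key (by positivity)
    _ = _ := by ring

/-- the same without a lower bound for `|ρ - 1|` -/
theorem Fk_dec : ∃ C : ℝ, 0 < C ∧ ∀ K : ℕ, 2 ≤ K → ∀ ρ x : ℝ,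
    ‖Fk K ρ x‖ ≤ C * Real.sqrt K * ((1 + |ρ|) ^ 2)⁻¹ * Real.exp (-(3 * |x|)) := by
  refine ⟨8 * Real.exp 9, by positivity, ?_⟩
  intro K hK ρ x
  refine (kf_le hK ρ x).trans ?_
  have hK' : (2 : ℝ) ≤ K := by exact_mod_cast hK
  have hx2 : x ^ 2 = |x| ^ 2 := (sq_abs x).symm
  have key : Real.exp (3 * |x| - (K : ℝ) / 2 * x ^ 2) ≤ Real.exp 9 * Real.exp (-(3 * |x|)) := by
    rw [← Real.exp_add]
    apply Real.exp_le_exp.2
    rw [hx2]
    nlinarith [sq_nonneg (|x| - 3), mul_nonneg (sub_nonneg.2 hK') (sq_nonneg |x|)]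
  calc 8 * Real.sqrt K * ((1 + |ρ|) ^ 2)⁻¹ *
        ((Real.sqrt (1 + 4 * Real.pi ^ 2 * (ρ * Real.exp (-x) - 1) ^ 2) ^ (K - 1))⁻¹) *
          Real.exp (3 * |x| - (K : ℝ) / 2 * x ^ 2)
      ≤ 8 * Real.sqrt K * ((1 + |ρ|) ^ 2)⁻¹ * 1 * (Real.exp 9 * Real.exp (-(3 * |x|))) := by
        have := kf_one K (ρ * Real.exp (-x) - 1)
        gcongr
    _ = _ := by ring

/-- the term of the sum -/
private theorem kf_term {Y : ℝ} (hY : 0 < Y) {u : ℕ} (hu : u ≠ 0) :
    Real.exp (-(3 * |Real.log (u / Y)|)) ≤ (Y / u) ^ 3 ∧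
      Real.exp (-(3 * |Real.log (u / Y)|)) ≤ 1 := by
  have hu' : (0 : ℝ) < u := by exact_mod_cast Nat.pos_of_ne_zero hu
  constructor
  · have h1 : -(3 * |Real.log (u / Y)|) ≤ 3 * Real.log (Y / u) := by
      have h2 : Real.log (Y / u) = -Real.log (u / Y) := by
        rw [← Real.log_inv, inv_div]
      rw [h2]
      have := le_abs_self (Real.log (u / Y))
      linarith
    refine (Real.exp_le_exp.2 h1).trans (le_of_eq ?_)
    have h3 : (3 : ℝ) * Real.log (Y / u) = ((3 : ℕ) : ℝ) * Real.log (Y / u) := by norm_num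
    rw [h3, Real.exp_nat_mul, Real.exp_log (by positivity)]
  · rw [Real.exp_le_one_iff]
    have := abs_nonneg (Real.log (u / Y))
    linarith

/-- `∑_u exp (-3 |log (u / Y)|) ≤ C min (Y, Y³)` -/
theorem sum_exp_log : ∃ C : ℝ, 0 < C ∧ ∀ Y : ℝ, 0 < Y →
    Summable (fun u : ℕ => if u = 0 then 0 else Real.exp (-(3 * |Real.log (u / Y)|))) ∧
    ∑' u : ℕ, (if u = 0 then 0 else Real.exp (-(3 * |Real.log (u / Y)|))) ≤ C * min Y (Y ^ 3) := by
  have hs : Summable (fun u : ℕ => 1 / (u : ℝ) ^ 3) := Real.summable_one_div_nat_pow.2 (by norm_num)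
  have hs0 : 0 ≤ ∑' u : ℕ, 1 / (u : ℝ) ^ 3 := tsum_nonneg fun u => by positivity
  refine ⟨4 + ∑' u : ℕ, 1 / (u : ℝ) ^ 3, by linarith, fun Y hY => ?_⟩
  have hle : ∀ u : ℕ, (if u = 0 then 0 else Real.exp (-(3 * |Real.log (u / Y)|))) ≤
      Y ^ 3 * (1 / (u : ℝ) ^ 3) := by
    intro u
    split_ifs with h
    · positivity
    · refine (kf_term hY h).1.trans (le_of_eq ?_)
      rw [div_pow, mul_one_div]
  have hnn : ∀ u : ℕ, 0 ≤ (if u = 0 then 0 else Real.exp (-(3 * |Real.log (u / Y)|))) := by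
    intro u
    split_ifs
    · exact le_rfl
    · exact (Real.exp_pos _).le
  have hsum : Summable (fun u : ℕ => if u = 0 then 0 else Real.exp (-(3 * |Real.log (u / Y)|))) :=
    Summable.of_nonneg_of_le hnn hle (hs.mul_left _)
  refine ⟨hsum, ?_⟩
  rw [mul_min_of_nonneg _ _ (by linarith)]
  apply le_min
  · -- the bound with `Y`
    have h1 : ∀ n : ℕ, ∑ u ∈ Finset.range (n + 1),
        (if u = 0 then 0 else Real.exp (-(3 * |Real.log (u / Y)|))) ≤
          4 * Y ^ 2 * (1 / Y - 1 / (Y + n)) := by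
      intro n
      induction n with
      | zero => simp
      | succ n ih =>
        rw [Finset.sum_range_succ, if_neg (Nat.succ_ne_zero n)]
        obtain ⟨h2, h3⟩ := kf_term hY (Nat.succ_ne_zero n)
        have hu : (0 : ℝ) < (n + 1 : ℕ) := by positivity
        have h4 : Real.exp (-(3 * |Real.log ((n + 1 : ℕ) / Y)|)) ≤
            4 * Y ^ 2 / (Y + (n + 1 : ℕ)) ^ 2 := by
          rcases le_total ((n + 1 : ℕ) : ℝ) Y with h5 | h5
          · refine h3.trans ?_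
            rw [one_le_div (by positivity)]
            nlinarith
          · refine h2.trans ?_
            have h6 : Y / (n + 1 : ℕ) ≤ 1 := (div_le_one hu).2 h5
            have h7 : (Y / (n + 1 : ℕ)) ^ 3 ≤ (Y / (n + 1 : ℕ)) ^ 2 :=
              pow_le_pow_of_le_one (by positivity) h6 (by norm_num)
            refine h7.trans ?_
            rw [div_pow, div_le_div_iff₀ (by positivity) (by positivity)]
            have h8 : (Y + (n + 1 : ℕ)) ^ 2 ≤ (2 * (n + 1 : ℕ)) ^ 2 :=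
              pow_le_pow_left₀ (by positivity) (by linarith) 2
            nlinarith [mul_le_mul_of_nonneg_left h8 (by positivity : (0 : ℝ) ≤ Y ^ 2)]
        have h5 : 4 * Y ^ 2 / (Y + (n + 1 : ℕ)) ^ 2 ≤
            4 * Y ^ 2 * (1 / (Y + n) - 1 / (Y + (n + 1 : ℕ))) := by
          have hn : (0 : ℝ) < Y + n := by positivity
          have hn1 : (0 : ℝ) < Y + (n + 1 : ℕ) := by positivity
          have h6 : 1 / (Y + n) - 1 / (Y + (n + 1 : ℕ)) = 1 / ((Y + n) * (Y + (n + 1 : ℕ))) := by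
            push_cast
            field_simp
            ring
          rw [h6, div_eq_mul_one_div]
          refine mul_le_mul_of_nonneg_left ?_ (by positivity)
          apply one_div_le_one_div_of_le (by positivity)
          rw [sq]
          refine mul_le_mul_of_nonneg_right ?_ hn1.le
          push_cast
          linarith
        have h6 := add_le_add ih (h4.trans h5)
        refine h6.trans (le_of_eq ?_)
        ring
    have h2 : ∑' u : ℕ, (if u = 0 then 0 else Real.exp (-(3 * |Real.log (u / Y)|))) ≤ 4 * Y := by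
      refine Real.tsum_le_of_sum_range_le hnn fun n => ?_
      have h3 : ∑ u ∈ Finset.range n,
          (if u = 0 then 0 else Real.exp (-(3 * |Real.log (u / Y)|))) ≤
          ∑ u ∈ Finset.range (n + 1),
          (if u = 0 then 0 else Real.exp (-(3 * |Real.log (u / Y)|))) := by
        rw [Finset.sum_range_succ]
        have := hnn n
        linarith
      refine h3.trans ((h1 n).trans ?_)
      have h4 : (0 : ℝ) ≤ 1 / (Y + n) := by positivity
      have h5 : 4 * Y ^ 2 * (1 / Y - 1 / (Y + n)) ≤ 4 * Y ^ 2 * (1 / Y) :=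
        mul_le_mul_of_nonneg_left (by linarith) (by positivity)
      refine h5.trans (le_of_eq ?_)
      field_simp
    refine h2.trans ?_
    nlinarith
  · refine (hsum.tsum_le_tsum hle (hs.mul_left _)).trans ?_
    rw [tsum_mul_left]
    have : 0 < Y ^ 3 := by positivity
    nlinarith

end Pool.Agent.MP_291b24_nt.Sm
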