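import Pool.Agent.Lib.MP_291b24_nt.Sm.Arith

/-! `N = u v` -/

set_option autoImplicit false

open Complex

namespace Pool.Agent.MP_291b24_nt.Sm

/-- the conditions on `(v, u)` -/
private def Cd (p : ℕ × ℕ) : Prop := VV p.1 ∧ Odd p.2 ∧ Squarefree p.2 ∧ p.2.Coprime p.1

private theorem cd_ne {p : ℕ × ℕ} (h : Cd p) : p.2 * p.1 ≠ 0 := by
  refine Nat.mul_ne_zero ?_ h.1.1
  intro h0
  have h1 := h.2.1
  rw [h0] at h1
  simp at h1

/-- the prime factors of `u` -/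
private theorem cd_dvd {p : ℕ × ℕ} (h : Cd p) {q : ℕ} (hq : q.Prime) :
    q ∣ p.2 ↔ q ≠ 2 ∧ q ∣ p.2 * p.1 ∧ ¬ q ^ 2 ∣ p.2 * p.1 := by
  obtain ⟨⟨h1, h2⟩, h3, h4, h5⟩ := h
  constructor
  · intro hd
    refine ⟨?_, hd.mul_right _, ?_⟩
    · rintro rfl
      exact (Nat.not_even_iff_odd.2 h3) (even_iff_two_dvd.2 hd)
    · intro h6
      have h7 : (q ^ 2).Coprime p.1 := Nat.Coprime.pow_left 2 (Nat.Coprime.coprime_dvd_left hd h5)
      have h8 := h7.dvd_of_dvd_mul_right h6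
      rw [pow_two] at h8
      exact hq.one_lt.ne' (Nat.isUnit_iff.1 (h4 q h8))
  · rintro ⟨h6, h7, h8⟩
    rcases (Nat.Prime.dvd_mul hq).1 h7 with h9 | h9
    · exact h9
    · exact absurd ((h2 q hq h6 h9).mul_left _) h8

private theorem cd_inj {p p' : ℕ × ℕ} (h : Cd p) (h' : Cd p') (he : p.2 * p.1 = p'.2 * p'.1) :
    p = p' := by
  have h1 : p.2.primeFactors = p'.2.primeFactors := by
    ext q
    rw [Nat.mem_primeFactors, Nat.mem_primeFactors]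
    have h2 : p.2 ≠ 0 := left_ne_zero_of_mul (cd_ne h)
    have h3 : p'.2 ≠ 0 := left_ne_zero_of_mul (cd_ne h')
    constructor
    · rintro ⟨hq, hd, -⟩
      refine ⟨hq, ?_, h3⟩
      rw [cd_dvd h' hq, ← he]
      exact (cd_dvd h hq).1 hd
    · rintro ⟨hq, hd, -⟩
      refine ⟨hq, ?_, h2⟩
      rw [cd_dvd h hq, he]
      exact (cd_dvd h' hq).1 hd
  have h2 : p.2 = p'.2 := by
    rw [← Nat.prod_primeFactors_of_squarefree h.2.2.1, h1,
      Nat.prod_primeFactors_of_squarefree h'.2.2.1]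
  have h3 : p.1 = p'.1 := by
    rw [h2] at he
    exact Nat.eq_of_mul_eq_mul_left (Nat.pos_of_ne_zero (left_ne_zero_of_mul (cd_ne h'))) he
  exact Prod.ext h3 h2

private theorem cd_exists {N : ℕ} (hN : N ≠ 0) : ∃ p : ℕ × ℕ, Cd p ∧ N = p.2 * p.1 := by
  classical
  obtain ⟨S, hS⟩ : ∃ S : Finset ℕ, S = N.primeFactors.filter fun p => p ≠ 2 ∧ ¬ p ^ 2 ∣ N :=
    ⟨_, rfl⟩
  have hSm : ∀ q, q ∈ S ↔ q.Prime ∧ q ∣ N ∧ q ≠ 2 ∧ ¬ q ^ 2 ∣ N := by
    intro q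
    rw [hS, Finset.mem_filter, Nat.mem_primeFactors]
    constructor
    · rintro ⟨⟨h1, h2, -⟩, h3, h4⟩
      exact ⟨h1, h2, h3, h4⟩
    · rintro ⟨h1, h2, h3, h4⟩
      exact ⟨⟨h1, h2, hN⟩, h3, h4⟩
  have hSp : ∀ q ∈ S, q.Prime := fun q hq => ((hSm q).1 hq).1
  obtain ⟨u, hu⟩ : ∃ u : ℕ, u = ∏ q ∈ S, q := ⟨_, rfl⟩
  have hu0 : u ≠ 0 := by
    rw [hu]
    exact Finset.prod_ne_zero_iff.2 fun q hq => (hSp q hq).ne_zero
  have huf : ∀ q : ℕ, q.Prime → (q ∣ u ↔ q ∈ S) := by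
    intro q hq
    rw [hu]
    constructor
    · intro hd
      obtain ⟨r, hr, hqr⟩ := (hq.prime.dvd_finset_prod_iff _).1 hd
      rwa [(Nat.prime_dvd_prime_iff_eq hq (hSp r hr)).1 hqr]
    · exact fun h => Finset.dvd_prod_of_mem _ h
  have huN : u ∣ N := by
    rw [hu]
    exact Finset.prod_primes_dvd N (fun q hq => (hSp q hq).prime) fun q hq => ((hSm q).1 hq).2.1
  obtain ⟨v, hv⟩ := huN
  have hv0 : v ≠ 0 := by
    rintro rfl
    rw [mul_zero] at hv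
    exact hN hv
  have hco : u.Coprime v := by
    refine Nat.Coprime.symm (Nat.coprime_of_dvd fun q hq hqv hqu => ?_)
    have h1 := ((hSm q).1 ((huf q hq).1 hqu)).2.2.2
    apply h1
    rw [hv, pow_two]
    exact mul_dvd_mul hqu hqv
  refine ⟨(v, u), ⟨⟨hv0, fun q hq hq2 hqv => ?_⟩, ?_, ?_, hco⟩, hv⟩
  · have hqu : ¬ q ∣ u := fun hqu =>
      hq.one_lt.ne' (Nat.eq_one_of_dvd_coprimes hco hqu hqv)
    have h1 : q ^ 2 ∣ N := by
      by_contra h1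
      exact hqu ((huf q hq).2 ((hSm q).2 ⟨hq, hv ▸ hqv.mul_left u, hq2, h1⟩))
    rw [hv] at h1
    exact (Nat.Coprime.pow_left 2 ((Nat.Prime.coprime_iff_not_dvd hq).2 hqu)).dvd_of_dvd_mul_left h1
  · rw [← Nat.not_even_iff_odd, even_iff_two_dvd]
    intro h2
    exact ((hSm 2).1 ((huf 2 Nat.prime_two).1 h2)).2.2.1 rfl
  · rw [Nat.squarefree_iff_prime_squarefree]
    intro q hq hqq
    have h1 := ((hSm q).1 ((huf q hq).1 ((dvd_mul_right q q).trans hqq))).2.2.2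
    apply h1
    rw [hv, pow_two]
    exact hqq.mul_right v

/-- every `N ≥ 1` is uniquely `u v` with `u` odd, squarefree, prime to `v` and `VV v`: `u` = product of the odd primes which divide `N` exactly once -/
theorem exists_uv {N : ℕ} (hN : N ≠ 0) : ∃! p : ℕ × ℕ, VV p.1 ∧ Odd p.2 ∧ Squarefree p.2 ∧ p.2.Coprime p.1 ∧ N = p.2 * p.1 := by
  obtain ⟨p, hp, hN'⟩ := cd_exists hN
  refine ⟨p, ⟨hp.1, hp.2.1, hp.2.2.1, hp.2.2.2, hN'⟩, ?_⟩
  rintro p' ⟨h1, h2, h3, h4, h5⟩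
  exact cd_inj ⟨h1, h2, h3, h4⟩ hp (h5 ▸ hN')

open Classical in
theorem summable_split (f : ℕ → ℂ) (hf : Summable f) :
    Summable (fun p : ℕ × ℕ => if VV p.1 ∧ Odd p.2 ∧ Squarefree p.2 ∧ p.2.Coprime p.1 then f (p.2 * p.1) else 0) := by
  have hinj : Function.Injective fun p : {p : ℕ × ℕ // Cd p} => p.1.2 * p.1.1 :=
    fun p p' h => Subtype.ext (cd_inj p.2 p'.2 h)
  have h1 : Summable ((fun p : ℕ × ℕ => f (p.2 * p.1)) ∘ (Subtype.val : {p | Cd p} → ℕ × ℕ)) :=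
    hf.comp_injective hinj
  rw [summable_subtype_iff_indicator] at h1
  refine h1.congr fun p => ?_
  by_cases hp : Cd p
  · rw [Set.indicator_of_mem (show p ∈ {p | Cd p} from hp),
      if_pos (show VV p.1 ∧ Odd p.2 ∧ Squarefree p.2 ∧ p.2.Coprime p.1 from hp)]
  · rw [Set.indicator_of_notMem (show p ∉ {p | Cd p} from hp),
      if_neg (show ¬ (VV p.1 ∧ Odd p.2 ∧ Squarefree p.2 ∧ p.2.Coprime p.1) from hp)]

open Classical in
theorem tsum_split (f : ℕ → ℂ) (hf : Summable f) (h0 : f 0 = 0) :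
    ∑' N, f N = ∑' v : ℕ, if VV v then
      ∑' u : ℕ, (if Odd u ∧ Squarefree u ∧ u.Coprime v then f (u * v) else 0) else 0 := by
  have hinj : Function.Injective fun p : {p : ℕ × ℕ // Cd p} => p.1.2 * p.1.1 :=
    fun p p' h => Subtype.ext (cd_inj p.2 p'.2 h)
  have h1 : ∑' p : {p : ℕ × ℕ // Cd p}, f (p.1.2 * p.1.1) = ∑' N, f N := by
    refine hinj.tsum_eq fun N hN => ?_
    have hN0 : N ≠ 0 := by
      rintro rfl
      exact hN h0
    obtain ⟨p, hp, hN'⟩ := cd_exists hN0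
    exact ⟨⟨p, hp⟩, hN'.symm⟩
  have h2 : ∑' p : {p : ℕ × ℕ // Cd p}, f (p.1.2 * p.1.1) = ∑' p : ℕ × ℕ,
      (if VV p.1 ∧ Odd p.2 ∧ Squarefree p.2 ∧ p.2.Coprime p.1 then f (p.2 * p.1) else 0) := by
    refine (tsum_subtype {p : ℕ × ℕ | Cd p} fun p => f (p.2 * p.1)).trans ?_
    refine tsum_congr fun p => ?_
    by_cases hp : Cd p
    · rw [Set.indicator_of_mem (show p ∈ {p | Cd p} from hp),
      if_pos (show VV p.1 ∧ Odd p.2 ∧ Squarefree p.2 ∧ p.2.Coprime p.1 from hp)]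
    · rw [Set.indicator_of_notMem (show p ∉ {p | Cd p} from hp),
      if_neg (show ¬ (VV p.1 ∧ Odd p.2 ∧ Squarefree p.2 ∧ p.2.Coprime p.1) from hp)]
  rw [← h1, h2, (summable_split f hf).tsum_prod]
  refine tsum_congr fun v => ?_
  by_cases hv : VV v
  · rw [if_pos hv]
    refine tsum_congr fun u => ?_
    by_cases hu : Odd u ∧ Squarefree u ∧ u.Coprime v
    · rw [if_pos hu, if_pos ⟨hv, hu⟩]
    · rw [if_neg hu, if_neg fun h => hu h.2]
  · rw [if_neg hv]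
    refine (tsum_congr fun u => ?_).trans tsum_zero
    rw [if_neg fun h => hv h.1]

end Pool.Agent.MP_291b24_nt.Sm
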