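import Pool.Agent.Lib.MP_291b24_nt.Sm.B1
import Pool.Agent.Lib.MP_291b24_nt.Sm.B3
import Pool.Agent.Lib.MP_291b24_nt.Sm.SplitN
import Pool.Agent.Lib.MP_291b24_nt.Sm.CvB
import Pool.Agent.Lib.MP_291b24_nt.Sm.KerF

/-! The exact formula -/

set_option autoImplicit false

open Complex

namespace Pool.Agent.MP_291b24_nt.Sm

private theorem b4_norm_Fk (K : ℕ) (ρ x : ℝ) :
    ‖Fk K ρ x‖ = Real.exp (-x) * ‖wh K (ρ * Real.exp (-x))‖ * ‖ph K x‖ := by
  unfold Fk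
  rw [norm_mul, norm_mul, Complex.norm_real, Real.norm_of_nonneg (Real.exp_pos _).le]

private theorem b4_bound {K D : ℕ} (hK : 2 ≤ K) (hD : 1 ≤ D) {X : ℝ} (hX : 2 ≤ X) (c : ℕ) :
    ∃ M : ℝ, ∀ (N : ℕ) (b : ℤ), (Real.sqrt N)⁻¹ * ‖ph K (Real.log (N / (4 * D * X)))‖ *
      (X / (4 ^ (c + 1) * N * gg N)) *
        ‖CN N b * wh K (X / (4 * N) * ((b : ℝ) / (4 ^ c * gg N)))‖ ≤
      M * ((1 / (N : ℝ) ^ 2) * ((1 + |(b : ℝ)|) ^ 2)⁻¹) := by
  obtain ⟨C, hC, hF⟩ := Fk_dec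
  refine ⟨X / 4 ^ (c + 1) * 4 * (C * Real.sqrt K) * (4 ^ c * (16 * D)) ^ 2 * (4 * D * X) ^ 2,
    fun N b => ?_⟩
  rcases Nat.eq_zero_or_pos N with rfl | hN
  · simp
  have hN0 : N ≠ 0 := hN.ne'
  have hX0 : 0 < X := by linarith
  have hn : (1 : ℝ) ≤ N := by exact_mod_cast hN
  have hn0 : (0 : ℝ) < N := by linarith
  have hg : (1 : ℝ) ≤ gg N := by exact_mod_cast gg_pos hN0
  have hg0 : (0 : ℝ) < gg N := by linarith
  have hr : (0 : ℝ) < rad N := by exact_mod_cast rad_pos N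
  have hgr : (gg N : ℝ) * rad N = N := by exact_mod_cast gg_mul_rad N
  have hD' : (1 : ℝ) ≤ D := by exact_mod_cast hD
  have hD0 : (0 : ℝ) < D := by linarith
  have hY : (0 : ℝ) < 4 * D * X := by positivity
  set x := Real.log (N / (4 * D * X)) with hx
  have hex : Real.exp (-x) = 4 * D * X / N := by
    rw [hx, Real.exp_neg, Real.exp_log (by positivity), inv_div]
  obtain ⟨B, hB⟩ : ∃ B : ℝ, B = 4 ^ c * gg N * (16 * D) := ⟨_, rfl⟩
  have hB1 : 1 ≤ B := by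
    rw [hB]
    have h1 : (1 : ℝ) ≤ 4 ^ c := one_le_pow₀ (by norm_num)
    have h2 : (1 : ℝ) ≤ 4 ^ c * gg N := one_le_mul_of_one_le_of_one_le h1 hg
    exact one_le_mul_of_one_le_of_one_le h2 (by linarith)
  have hB0 : 0 < B := by linarith
  have h1 := hF K hK (b / B) x
  rw [b4_norm_Fk] at h1
  have h2 : (b : ℝ) / B * Real.exp (-x) = X / (4 * N) * (b / (4 ^ c * gg N)) := by
    rw [hex, hB]
    field_simp
    ring
  rw [h2, hex] at h1
  have h3 : Real.exp (-(3 * |x|)) ≤ (4 * D * X / N) ^ 3 := by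
    rw [← hex, ← Real.exp_nat_mul]
    apply Real.exp_le_exp.2
    push_cast
    have := le_abs_self x
    linarith
  have h4 : ((1 + |(b : ℝ) / B|) ^ 2)⁻¹ ≤ B ^ 2 * ((1 + |(b : ℝ)|) ^ 2)⁻¹ := by
    have h5 : 0 ≤ |(b : ℝ)| := abs_nonneg _
    have h6 : (1 + |(b : ℝ)|) / B ≤ 1 + |(b : ℝ) / B| := by
      rw [abs_div, abs_of_pos hB0, add_div]
      have : 1 / B ≤ 1 := by
        rw [div_le_one hB0]
        exact hB1
      linarith
    have h7 : ((1 + |(b : ℝ)|) / B) ^ 2 ≤ (1 + |(b : ℝ) / B|) ^ 2 :=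
      pow_le_pow_left₀ (by positivity) h6 2
    have h8 := inv_anti₀ (by positivity) h7
    rw [div_pow, inv_div] at h8
    rw [← div_eq_mul_inv]
    exact h8
  have h5 := norm_CN_le' hN0 b
  rw [norm_mul]
  generalize ‖wh K (X / (4 * ↑N) * (↑b / (4 ^ c * ↑(gg N))))‖ = W at h1 ⊢
  have hP : 0 ≤ ‖ph K x‖ := norm_nonneg _
  have hCN : 0 ≤ ‖CN N b‖ := norm_nonneg _
  generalize ‖ph K x‖ = P at h1 hP ⊢
  generalize ‖CN N b‖ = Cn at h5 hCN ⊢
  have hb' : 0 ≤ ((1 + |(b : ℝ)|) ^ 2)⁻¹ := by positivity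
  generalize ((1 + |(b : ℝ)|) ^ 2)⁻¹ = b' at h4 hb' ⊢
  have h6 : 4 * D * X / N * W * P ≤ C * Real.sqrt K * (B ^ 2 * b') * (4 * D * X / N) ^ 3 := by
    refine h1.trans ?_
    refine mul_le_mul (mul_le_mul_of_nonneg_left h4 (by positivity)) h3 (by positivity)
      (by positivity)
  have h7 : W * P ≤ C * Real.sqrt K * (B ^ 2 * b') * (4 * D * X / N) ^ 2 := by
    have h8 : 0 < 4 * D * X / N := by positivity
    have h9 : 4 * D * X / N * (W * P) ≤
        4 * D * X / N * (C * Real.sqrt K * (B ^ 2 * b') * (4 * D * X / N) ^ 2) := by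
      calc 4 * D * X / N * (W * P) = 4 * D * X / N * W * P := by ring
        _ ≤ C * Real.sqrt K * (B ^ 2 * b') * (4 * D * X / N) ^ 3 := h6
        _ = _ := by ring
    exact le_of_mul_le_mul_left h9 h8
  have hs : (Real.sqrt N)⁻¹ ≤ 1 := by
    apply inv_le_one_of_one_le₀
    rw [Real.one_le_sqrt]
    exact hn
  have hs0 : 0 ≤ (Real.sqrt N)⁻¹ := by positivity
  have hR : 0 ≤ C * Real.sqrt K * (B ^ 2 * b') * (4 * D * X / N) ^ 2 := by positivity
  have hq : 0 ≤ X / (4 ^ (c + 1) * N * gg N) := by positivity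
  calc (Real.sqrt N)⁻¹ * P * (X / (4 ^ (c + 1) * N * gg N)) * (Cn * W)
      = (Real.sqrt N)⁻¹ * ((X / (4 ^ (c + 1) * N * gg N)) * (Cn * (W * P))) := by ring
    _ ≤ (Real.sqrt N)⁻¹ * ((X / (4 ^ (c + 1) * N * gg N)) * (4 * rad N *
          (C * Real.sqrt K * (B ^ 2 * b') * (4 * D * X / N) ^ 2))) := by
        refine mul_le_mul_of_nonneg_left (mul_le_mul_of_nonneg_left ?_ hq) hs0
        exact (mul_le_mul_of_nonneg_left h7 hCN).trans (mul_le_mul_of_nonneg_right h5 hR)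
    _ ≤ 1 * ((X / (4 ^ (c + 1) * N * gg N)) * (4 * rad N *
          (C * Real.sqrt K * (B ^ 2 * b') * (4 * D * X / N) ^ 2))) :=
        mul_le_mul_of_nonneg_right hs (by positivity)
    _ = _ := by
        rw [one_mul, hB]
        have hr' : (rad N : ℝ) = N / gg N := by
          rw [eq_div_iff hg0.ne', mul_comm]
          exact hgr
        rw [hr']
        field_simp

private theorem b4_sum_int : Summable (fun b : ℤ => ((1 + |(b : ℝ)|) ^ 2)⁻¹) := by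
  have h1 : Summable (fun n : ℕ => ((1 + (n : ℝ)) ^ 2)⁻¹) := by
    have h2 := (summable_nat_add_iff 1).2 (Real.summable_nat_pow_inv.2 one_lt_two)
    refine h2.congr fun n => ?_
    push_cast
    ring
  refine summable_int_iff_summable_nat_and_neg.2 ⟨?_, ?_⟩
  · refine h1.congr fun n => ?_
    simp
  · refine h1.congr fun n => ?_
    simp

/-- absolute convergence of the sum over `N`, `b` after Poisson summation: `|CN N b| ≤ 4 rad N`, `|wh| ≤ C √K (1+|ξ|)^(-2)`, `|ph|` decays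
faster than any power of `N` -/
theorem summable_Nb {K D : ℕ} (hK : 2 ≤ K) (hD : 1 ≤ D) {X : ℝ} (hX : 2 ≤ X) {c : ℕ} (hc : c < 3) :
    Summable (fun p : ℕ × ℤ => (Real.sqrt p.1)⁻¹ * ‖ph K (Real.log (p.1 / (4 * D * X)))‖ *
      (X / (4 ^ (c + 1) * p.1 * gg p.1)) * ‖CN p.1 p.2 * wh K (X / (4 * p.1) * ((p.2 : ℝ) / (4 ^ c * gg p.1)))‖) := by
  obtain ⟨M, hM⟩ := b4_bound hK hD hX c
  have h1 : Summable (fun n : ℕ => 1 / (n : ℝ) ^ 2) := Real.summable_one_div_nat_pow.2 one_lt_two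
  have h2 := (h1.mul_of_nonneg b4_sum_int (fun n => by positivity) (fun b => by positivity)).mul_left M
  have hX0 : 0 < X := by linarith
  exact Summable.of_nonneg_of_le (fun p => by positivity) (fun p => hM p.1 p.2) h2

/-- one term of the sum over `N`, `c`, `b` -/
private noncomputable def b4g (K D : ℕ) (X : ℝ) (c N : ℕ) (b : ℤ) : ℂ :=
  ((ArithmeticFunction.moebius (rad N) : ℤ) : ℂ) * (((Real.sqrt N)⁻¹ : ℝ) : ℂ) *
    ph K (Real.log (N / (4 * D * X))) * (((kap N c : ℤ) : ℂ) *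
      (((X / (4 ^ (c + 1) * N * gg N) : ℝ) : ℂ) *
        (CN N b * wh K (X / (4 * N) * ((b : ℝ) / (4 ^ c * gg N))))))

private theorem b4_kap_le (N c : ℕ) : |kap N c| ≤ 3 := by
  unfold kap
  split_ifs <;> norm_num

private theorem b4_kap_mul {u v : ℕ} (hu : Odd u) (c : ℕ) : kap (u * v) c = kap v c := by
  have h : (u * v) % 2 = v % 2 := by
    rw [Nat.mul_mod, Nat.odd_iff.1 hu, one_mul, Nat.mod_mod]
  unfold kap
  rw [h]

private theorem b4_summable_g {K D : ℕ} (hK : 2 ≤ K) (hD : 1 ≤ D) {X : ℝ} (hX : 2 ≤ X) {c : ℕ}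
    (hc : c < 3) : Summable (fun p : ℕ × ℤ => b4g K D X c p.1 p.2) := by
  have hX0 : 0 < X := by linarith
  refine Summable.of_norm_bounded ((summable_Nb hK hD hX hc).mul_left 3) fun p => ?_
  unfold b4g
  have h1 : ‖((ArithmeticFunction.moebius (rad p.1) : ℤ) : ℂ)‖ ≤ 1 := by
    rw [Complex.norm_intCast]
    exact_mod_cast ArithmeticFunction.abs_moebius_le_one
  have h2 : ‖((kap p.1 c : ℤ) : ℂ)‖ ≤ 3 := by
    rw [Complex.norm_intCast]
    exact_mod_cast b4_kap_le p.1 c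
  rw [norm_mul, norm_mul, norm_mul, norm_mul, norm_mul, Complex.norm_real, Complex.norm_real,
    Real.norm_of_nonneg (by positivity : (0 : ℝ) ≤ (Real.sqrt p.1)⁻¹),
    Real.norm_of_nonneg (by positivity : (0 : ℝ) ≤ X / (4 ^ (c + 1) * p.1 * gg p.1))]
  have h3 : 0 ≤ (Real.sqrt p.1)⁻¹ * ‖ph K (Real.log (p.1 / (4 * D * X)))‖ *
      (X / (4 ^ (c + 1) * p.1 * gg p.1)) *
        ‖CN p.1 p.2 * wh K (X / (4 * p.1) * ((p.2 : ℝ) / (4 ^ c * gg p.1)))‖ := by positivity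
  calc _ = (‖((ArithmeticFunction.moebius (rad p.1) : ℤ) : ℂ)‖ * ‖((kap p.1 c : ℤ) : ℂ)‖) *
      ((Real.sqrt p.1)⁻¹ * ‖ph K (Real.log (p.1 / (4 * D * X)))‖ *
      (X / (4 ^ (c + 1) * p.1 * gg p.1)) *
        ‖CN p.1 p.2 * wh K (X / (4 * p.1) * ((p.2 : ℝ) / (4 ^ c * gg p.1)))‖) := by ring
    _ ≤ (1 * 3) * _ := mul_le_mul_of_nonneg_right
        (mul_le_mul h1 h2 (norm_nonneg _) zero_le_one) h3
    _ = _ := by ring

private theorem b4_f_eq {K D : ℕ} (hK : 2 ≤ K) {X : ℝ} (hX : 2 ≤ X) (N : ℕ) :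
    ((ArithmeticFunction.moebius (rad N) : ℤ) : ℂ) * (((Real.sqrt N)⁻¹ : ℝ) : ℂ) *
      ph K (Real.log (N / (4 * D * X))) * ∑ c ∈ Finset.range 3, ((kap N c : ℤ) : ℂ) * Rn K X N c =
    ∑ c ∈ Finset.range 3, ∑' b : ℤ, b4g K D X c N b := by
  have hX0 : 0 < X := by linarith
  rcases Nat.eq_zero_or_pos N with rfl | hN
  · simp [b4g]
  · rw [Finset.mul_sum]
    refine Finset.sum_congr rfl fun c _ => ?_
    unfold b4g
    rw [tsum_mul_left, tsum_mul_left, tsum_mul_left, Rn_eq hK hX0 hN.ne' c]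

private theorem b4_term {K D : ℕ} (hD : 1 ≤ D) {X : ℝ} (hX : 0 < X) {u v : ℕ} (hu : Odd u)
    (hs : Squarefree u) (hc : u.Coprime v) (hv : v ≠ 0) (c : ℕ) (b : ℤ) :
    b4g K D X c (u * v) b = ((16 * D : ℕ) : ℂ)⁻¹ * ((cf v c : ℂ) * CN v b) *
      (((ArithmeticFunction.moebius u : ℤ) : ℂ) *
        ((jacobiSym (-(b * (gg v : ℤ))) u : ℤ) : ℂ) *
        Fk K ((b : ℝ) / (b0 D v c : ℝ)) (Real.log (u / (4 * D * X / v)))) := by
  have hu0 : u ≠ 0 := hs.ne_zero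
  have hu' : (0 : ℝ) < u := by exact_mod_cast Nat.pos_of_ne_zero hu0
  have hv' : (0 : ℝ) < v := by exact_mod_cast Nat.pos_of_ne_zero hv
  have hg' : (0 : ℝ) < gg v := by exact_mod_cast gg_pos hv
  have hD' : (0 : ℝ) < D := by exact_mod_cast hD
  have hmu : ArithmeticFunction.moebius (rad (u * v)) =
      ArithmeticFunction.moebius u * ArithmeticFunction.moebius (rad v) := by
    rw [rad_mul hc, rad_of_sqf hs]
    exact ArithmeticFunction.isMultiplicative_moebius.map_mul_of_coprime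
      (hc.coprime_dvd_right (rad_dvd v))
  have hlog : (u : ℝ) / (4 * D * X / v) = ((u * v : ℕ) : ℝ) / (4 * D * X) := by
    push_cast
    field_simp
  unfold b4g
  rw [CN_mul hu hs hc hv b, gg_mul_sqf hs hc, hmu, b4_kap_mul hu, hlog]
  unfold Fk cf
  have hex : Real.exp (-Real.log (((u * v : ℕ) : ℝ) / (4 * D * X))) =
      4 * D * X / ((u * v : ℕ) : ℝ) := by
    rw [Real.exp_neg, Real.exp_log (by push_cast; positivity), inv_div]
  have hrho : (b : ℝ) / (b0 D v c : ℝ) * (4 * D * X / ((u * v : ℕ) : ℝ)) =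
      X / (4 * ((u * v : ℕ) : ℝ)) * ((b : ℝ) / (4 ^ c * gg v)) := by
    unfold b0
    push_cast
    field_simp
    ring
  rw [hex, hrho]
  have hR : (Real.sqrt ((u * v : ℕ) : ℝ))⁻¹ * (X / (4 ^ (c + 1) * ((u * v : ℕ) : ℝ) * gg v)) *
      Real.sqrt u = (((16 * D : ℕ) : ℝ))⁻¹ * (((4 : ℝ) ^ c)⁻¹ * (Real.sqrt v)⁻¹ * ((gg v : ℝ))⁻¹) *
        (4 * D * X / ((u * v : ℕ) : ℝ)) := by
    have h1 : 0 < Real.sqrt u := Real.sqrt_pos.2 hu'
    have h2 : 0 < Real.sqrt v := Real.sqrt_pos.2 hv'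
    push_cast
    rw [Real.sqrt_mul hu'.le]
    field_simp
    ring
  have hC := congrArg (fun t : ℝ => (t : ℂ)) hR
  push_cast at hC
  generalize wh K (X / (4 * ((u * v : ℕ) : ℝ)) * ((b : ℝ) / (4 ^ c * gg v))) = W
  generalize ph K (Real.log (((u * v : ℕ) : ℝ) / (4 * D * X))) = P
  push_cast
  linear_combination ((ArithmeticFunction.moebius u : ℤ) : ℂ) *
    ((ArithmeticFunction.moebius (rad v) : ℤ) : ℂ) * P * ((kap v c : ℤ) : ℂ) *
    ((jacobiSym (-(b * (gg v : ℤ))) u : ℤ) : ℂ) * CN v b * W * hC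

open Classical in
/-- From `TT_eq_N`, `Rn_eq`, `tsum_split`, `CN_mul`: for `N = u v`: `rad N = u rad v`, `gg N = gg v`, `kap N c = kap v c`,
`μ(rad N) = μ(u) μ(rad v)`, `(uv)^(-1/2) √u = v^(-1/2)`, and with `x = log (u v / (4 D X))`: `X / (4 N) = (16 D)^(-1) e^(-x)`,
`X / (4 N) · b / (4 ^ c g) = (b / b0) e^(-x)`, `ph K x`. So the term is `(16D)^(-1)` times the term of `trm`. -/
theorem TT_eq {K D : ℕ} (hK : 2 ≤ K) (hD : 1 ≤ D) {X : ℝ} (hX : 2 ≤ X) :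
    TT K D X = ((16 * D : ℕ) : ℂ)⁻¹ * ∑' v : ℕ, if VV v then
      ∑ c ∈ Finset.range 3, ∑' b : ℤ, trm K D X v c b else 0 := by
  have hX0 : 0 < X := by linarith
  rw [TT_eq_N hK hD hX]
  have hf : ∀ N : ℕ, ((ArithmeticFunction.moebius (rad N) : ℤ) : ℂ) *
      (((Real.sqrt N)⁻¹ : ℝ) : ℂ) * ph K (Real.log (N / (4 * D * X))) *
        ∑ c ∈ Finset.range 3, ((kap N c : ℤ) : ℂ) * Rn K X N c =
      ∑ c ∈ Finset.range 3, ∑' b : ℤ, b4g K D X c N b := b4_f_eq hK hX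
  rw [tsum_congr hf]
  have hsum : Summable (fun N : ℕ => ∑ c ∈ Finset.range 3, ∑' b : ℤ, b4g K D X c N b) := by
    refine summable_sum fun c hc => ?_
    exact (b4_summable_g hK hD hX (Finset.mem_range.1 hc)).prod
  rw [tsum_split _ hsum (by simp [b4g]), ← tsum_mul_left]
  refine tsum_congr fun v => ?_
  by_cases hv : VV v
  swap
  · rw [if_neg hv, if_neg hv, mul_zero]
  rw [if_pos hv, if_pos hv, Finset.mul_sum]
  have hv0 : v ≠ 0 := hv.1
  have hsv : ∀ c ∈ Finset.range 3, Summable (fun p : ℕ × ℤ =>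
      if Odd p.1 ∧ Squarefree p.1 ∧ p.1.Coprime v then b4g K D X c (p.1 * v) p.2 else 0) := by
    intro c hc
    have h1 := b4_summable_g hK hD hX (Finset.mem_range.1 hc)
    have hinj : Function.Injective (fun p : ℕ × ℤ => (p.1 * v, p.2)) := by
      rintro ⟨u, b⟩ ⟨u', b'⟩ h
      rw [Prod.mk.injEq] at h
      exact Prod.ext (Nat.eq_of_mul_eq_mul_right (Nat.pos_of_ne_zero hv0) h.1) h.2
    have h2 := h1.comp_injective hinj
    refine Summable.of_norm_bounded h2.norm fun p => ?_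
    split_ifs
    · exact le_rfl
    · rw [norm_zero]
      exact norm_nonneg _
  have h1 : ∀ u : ℕ, (if Odd u ∧ Squarefree u ∧ u.Coprime v then
      ∑ c ∈ Finset.range 3, ∑' b : ℤ, b4g K D X c (u * v) b else 0) =
      ∑ c ∈ Finset.range 3, ∑' b : ℤ,
        if Odd u ∧ Squarefree u ∧ u.Coprime v then b4g K D X c (u * v) b else 0 := by
    intro u
    by_cases h : Odd u ∧ Squarefree u ∧ u.Coprime v
    · simp only [if_pos h]
    · simp only [if_neg h, tsum_zero, Finset.sum_const_zero]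
  rw [tsum_congr h1, Summable.tsum_finsetSum (fun c hc => (hsv c hc).prod)]
  refine Finset.sum_congr rfl fun c hc => ?_
  have h3 : ∑' u : ℕ, ∑' b : ℤ,
      (if Odd u ∧ Squarefree u ∧ u.Coprime v then b4g K D X c (u * v) b else 0) =
      ∑' b : ℤ, ∑' u : ℕ,
      (if Odd u ∧ Squarefree u ∧ u.Coprime v then b4g K D X c (u * v) b else 0) := by
    refine (Summable.tsum_comm (f := fun (u : ℕ) (b : ℤ) =>
      if Odd u ∧ Squarefree u ∧ u.Coprime v then b4g K D X c (u * v) b else 0) ?_).symm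
    exact hsv c hc
  rw [h3, ← tsum_mul_left]
  refine tsum_congr fun b => ?_
  unfold trm SU
  rw [← tsum_mul_left, ← tsum_mul_left]
  refine tsum_congr fun u => ?_
  by_cases hu : Odd u ∧ u.Coprime v
  · rw [if_pos hu]
    by_cases hs : Squarefree u
    · rw [if_pos ⟨hu.1, hs, hu.2⟩, b4_term hD hX0 hu.1 hs hu.2 hv0 c b]
      ring
    · rw [if_neg (fun h => hs h.2.1), ArithmeticFunction.moebius_eq_zero_of_not_squarefree hs]
      simp
  · rw [if_neg hu, if_neg (fun h => hu ⟨h.1, h.2.2⟩), mul_zero, mul_zero]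

end Pool.Agent.MP_291b24_nt.Sm
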