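import Pool.Agent.Lib.MP_291b24_nt.Sm.PsiL
import Pool.Agent.Lib.MP_291b24_nt.GammaB

/-! Functional equation of the character modulo 4 -/

set_option autoImplicit false

open Complex

namespace Pool.Agent.MP_291b24_nt.Sm

/-! ### the quotient of two values of the Gamma function -/

private noncomputable def ezP (n : ℕ) (v y : ℝ) : ℝ :=
  ∏ j ∈ Finset.range (n + 1), ‖((v : ℂ) + y * I + j)‖

private theorem ezP_pos (n : ℕ) {v : ℝ} (hv : 0 < v) (y : ℝ) : 0 < ezP n v y := by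
  refine Finset.prod_pos fun j _ => norm_pos_iff.2 ?_
  intro h
  have h1 := congrArg Complex.re h
  simp at h1
  have hj : (0 : ℝ) ≤ j := Nat.cast_nonneg j
  linarith

private theorem ez_seq {n : ℕ} (hn : 0 < n) (v y : ℝ) :
    ‖GammaSeq ((v : ℂ) + y * I) n‖ = (n : ℝ) ^ v * (n.factorial : ℝ) / ezP n v y := by
  unfold ezP
  rw [GammaSeq, norm_div, norm_mul, Complex.norm_natCast_cpow_of_pos hn, norm_prod,
    Complex.norm_natCast]
  simp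

private theorem ez_fac {u d Y : ℝ} (hu : 0 < u) (hd : 0 < d) (hY : 0 ≤ Y) :
    ((u + d) ^ 2 + Y) ^ 2 * (u ^ 2 * (u + 2 * d) ^ 2) ≤
      (u ^ 2 + Y) * ((u + 2 * d) ^ 2 + Y) * ((u + d) ^ 2) ^ 2 := by
  have hq : 0 ≤ (u + d) ^ 2 := sq_nonneg _
  have hp : u * (u + 2 * d) = (u + d) ^ 2 - d ^ 2 := by ring
  have hp0 : 0 ≤ u * (u + 2 * d) := by positivity
  have hpq : u * (u + 2 * d) ≤ (u + d) ^ 2 := by nlinarith [sq_nonneg d]
  have h1 : (u * (u + 2 * d)) ^ 2 ≤ ((u + d) ^ 2) ^ 2 := pow_le_pow_left₀ hp0 hpq 2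
  have e : (u ^ 2 + Y) * ((u + 2 * d) ^ 2 + Y) * ((u + d) ^ 2) ^ 2 -
      ((u + d) ^ 2 + Y) ^ 2 * (u ^ 2 * (u + 2 * d) ^ 2) =
      2 * (u + d) ^ 2 * Y * ((((u + d) ^ 2) ^ 2 - (u * (u + 2 * d)) ^ 2) + (u + d) ^ 2 * d ^ 2) +
        Y ^ 2 * (((u + d) ^ 2) ^ 2 - (u * (u + 2 * d)) ^ 2) := by ring
  have h2 : 0 ≤ 2 * (u + d) ^ 2 * Y * ((((u + d) ^ 2) ^ 2 - (u * (u + 2 * d)) ^ 2) +
      (u + d) ^ 2 * d ^ 2) :=
    mul_nonneg (by positivity) (add_nonneg (sub_nonneg.2 h1) (by positivity))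
  have h3 : 0 ≤ Y ^ 2 * (((u + d) ^ 2) ^ 2 - (u * (u + 2 * d)) ^ 2) :=
    mul_nonneg (sq_nonneg _) (sub_nonneg.2 h1)
  linarith

private theorem ez_norm_sq (v y : ℝ) (j : ℕ) :
    ‖((v : ℂ) + y * I + j)‖ ^ 2 = (v + j) ^ 2 + y ^ 2 := by
  rw [← normSq_eq_norm_sq, normSq_apply]
  simp
  ring

private theorem ezP_le {x d : ℝ} (hx : 0 < x) (hd : 0 < d) (y : ℝ) (n : ℕ) :
    ezP n (x + d) y ^ 2 * (ezP n x 0 * ezP n (x + 2 * d) 0) ≤
      ezP n x y * ezP n (x + 2 * d) y * ezP n (x + d) 0 ^ 2 := by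
  unfold ezP
  rw [← Finset.prod_pow, ← Finset.prod_pow, ← Finset.prod_mul_distrib, ← Finset.prod_mul_distrib,
    ← Finset.prod_mul_distrib, ← Finset.prod_mul_distrib]
  refine Finset.prod_le_prod (fun j _ => by positivity) fun j _ => ?_
  refine le_of_sq_le_sq ?_ (by positivity)
  have hj : (0 : ℝ) ≤ j := Nat.cast_nonneg j
  rw [mul_pow, mul_pow, mul_pow, mul_pow, ez_norm_sq, ez_norm_sq, ez_norm_sq, ez_norm_sq,
    ez_norm_sq, ez_norm_sq]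
  have h := ez_fac (u := x + j) (d := d) (Y := y ^ 2) (by positivity) hd (sq_nonneg y)
  have e1 : x + d + j = x + j + d := by ring
  have e2 : x + 2 * d + j = x + j + 2 * d := by ring
  rw [e1, e2]
  have e3 : (0 : ℝ) ^ 2 = 0 := by norm_num
  rw [e3, add_zero, add_zero, add_zero]
  exact h

private theorem ez_mid {x d : ℝ} (hx : 0 < x) (hd : 0 < d) (y : ℝ) :
    ‖Gamma ((x : ℝ) + y * I)‖ * ‖Gamma ((x + 2 * d : ℝ) + y * I)‖ *
        ‖Gamma ((x + d : ℝ) + (0 : ℝ) * I)‖ ^ 2 ≤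
      ‖Gamma ((x + d : ℝ) + y * I)‖ ^ 2 *
        (‖Gamma ((x : ℝ) + (0 : ℝ) * I)‖ * ‖Gamma ((x + 2 * d : ℝ) + (0 : ℝ) * I)‖) := by
  have h1 := (((GammaSeq_tendsto_Gamma ((x : ℝ) + y * I)).norm).mul
    ((GammaSeq_tendsto_Gamma ((x + 2 * d : ℝ) + y * I)).norm)).mul
    (((GammaSeq_tendsto_Gamma ((x + d : ℝ) + (0 : ℝ) * I)).norm).pow 2)
  have h2 := (((GammaSeq_tendsto_Gamma ((x + d : ℝ) + y * I)).norm).pow 2).mul
    (((GammaSeq_tendsto_Gamma ((x : ℝ) + (0 : ℝ) * I)).norm).mul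
      ((GammaSeq_tendsto_Gamma ((x + 2 * d : ℝ) + (0 : ℝ) * I)).norm))
  refine le_of_tendsto_of_tendsto h1 h2 ?_
  filter_upwards [Filter.eventually_gt_atTop 0] with n hn
  rw [ez_seq hn, ez_seq hn, ez_seq hn, ez_seq hn, ez_seq hn, ez_seq hn]
  have hn' : (0 : ℝ) < n := Nat.cast_pos.2 hn
  have hxd : 0 < x + d := by positivity
  have hxd2 : 0 < x + 2 * d := by positivity
  have p1 := ezP_pos n hx y
  have p2 := ezP_pos n hxd2 y
  have p3 := ezP_pos n hxd 0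
  have p4 := ezP_pos n hxd y
  have p5 := ezP_pos n hx 0
  have p6 := ezP_pos n hxd2 0
  have key := ezP_le hx hd y n
  have e1 : ∀ a b c p q r F : ℝ, (a * F / p) * (b * F / q) * (c * F / r) ^ 2 =
      (a * b * c ^ 2 * F ^ 4) / (p * q * r ^ 2) := by
    intro a b c p q r F
    rw [div_mul_div_comm, div_pow, div_mul_div_comm]
    congr 1
    ring
  have e2 : ∀ a b c p q r F : ℝ, (c * F / r) ^ 2 * ((a * F / p) * (b * F / q)) =
      (a * b * c ^ 2 * F ^ 4) / (r ^ 2 * (p * q)) := by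
    intro a b c p q r F
    rw [div_mul_div_comm, div_pow, div_mul_div_comm]
    congr 1
    ring
  rw [e1, e2]
  exact div_le_div_of_nonneg_left (by positivity) (by positivity) key

/-- `‖Γ(13/16 + iy)‖ / ‖Γ(11/16 + iy)‖` is at least a constant times `y ^ (1/8)` -/
private theorem ez_ratio : ∃ c : ℝ, 0 < c ∧ ∀ y : ℝ, 0 < y →
    c * y ^ (1 / 8 : ℝ) * ‖Gamma ((11 / 16 : ℝ) + y * I)‖ ≤ ‖Gamma ((13 / 16 : ℝ) + y * I)‖ := by
  have hg : ∀ v : ℝ, 0 < v → ∀ y : ℝ, 0 < ‖Gamma ((v : ℝ) + (y : ℝ) * I)‖ := by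
    intro v hv y
    refine norm_pos_iff.2 (Gamma_ne_zero_of_re_pos ?_)
    simp [hv]
  obtain ⟨K₁, hK₁, h1⟩ : ∃ K : ℝ, 0 < K ∧ ∀ y : ℝ, 0 < y →
      y * ‖Gamma ((11 / 16 : ℝ) + y * I)‖ ^ 2 ≤ K * ‖Gamma ((19 / 16 : ℝ) + y * I)‖ ^ 2 := by
    have p1 := hg (19 / 16) (by norm_num) 0
    have p2 := hg (11 / 16) (by norm_num) 0
    have p3 := hg (27 / 16) (by norm_num) 0
    refine ⟨‖Gamma ((11 / 16 : ℝ) + (0 : ℝ) * I)‖ * ‖Gamma ((27 / 16 : ℝ) + (0 : ℝ) * I)‖ /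
      ‖Gamma ((19 / 16 : ℝ) + (0 : ℝ) * I)‖ ^ 2, by positivity, fun y hy => ?_⟩
    have h := ez_mid (x := 11 / 16) (d := 1 / 2) (by norm_num) (by norm_num) y
    have e1 : (11 / 16 + 2 * (1 / 2) : ℝ) = 27 / 16 := by norm_num
    have e2 : (11 / 16 + 1 / 2 : ℝ) = 19 / 16 := by norm_num
    rw [e1, e2] at h
    have h3 : y * ‖Gamma ((11 / 16 : ℝ) + y * I)‖ ≤ ‖Gamma ((27 / 16 : ℝ) + y * I)‖ := by
      have e3 : (((27 / 16 : ℝ) : ℂ) + y * I) = ((11 / 16 : ℝ) + y * I) + 1 := by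
        push_cast
        ring
      have hne : (((11 / 16 : ℝ) : ℂ) + y * I) ≠ 0 := by
        intro h0
        have h4 := congrArg Complex.re h0
        simp at h4
      rw [e3, Gamma_add_one _ hne, norm_mul]
      refine mul_le_mul_of_nonneg_right ?_ (norm_nonneg _)
      have h4 := abs_im_le_norm (((11 / 16 : ℝ) : ℂ) + y * I)
      have h5 : (((11 / 16 : ℝ) : ℂ) + y * I).im = y := by simp
      rw [h5] at h4
      exact (le_abs_self y).trans h4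
    rw [div_mul_eq_mul_div, le_div_iff₀ (by positivity)]
    calc y * ‖Gamma ((11 / 16 : ℝ) + y * I)‖ ^ 2 * ‖Gamma ((19 / 16 : ℝ) + (0 : ℝ) * I)‖ ^ 2
        = ‖Gamma ((11 / 16 : ℝ) + y * I)‖ * (y * ‖Gamma ((11 / 16 : ℝ) + y * I)‖) *
          ‖Gamma ((19 / 16 : ℝ) + (0 : ℝ) * I)‖ ^ 2 := by ring
      _ ≤ ‖Gamma ((11 / 16 : ℝ) + y * I)‖ * ‖Gamma ((27 / 16 : ℝ) + y * I)‖ *
          ‖Gamma ((19 / 16 : ℝ) + (0 : ℝ) * I)‖ ^ 2 := by gcongr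
      _ ≤ _ := h
      _ = _ := by ring
  obtain ⟨K₂, hK₂, h2⟩ : ∃ K : ℝ, 0 < K ∧ ∀ y : ℝ, 0 < y →
      ‖Gamma ((11 / 16 : ℝ) + y * I)‖ * ‖Gamma ((19 / 16 : ℝ) + y * I)‖ ≤
        K * ‖Gamma ((15 / 16 : ℝ) + y * I)‖ ^ 2 := by
    have p1 := hg (15 / 16) (by norm_num) 0
    have p2 := hg (11 / 16) (by norm_num) 0
    have p3 := hg (19 / 16) (by norm_num) 0
    refine ⟨‖Gamma ((11 / 16 : ℝ) + (0 : ℝ) * I)‖ * ‖Gamma ((19 / 16 : ℝ) + (0 : ℝ) * I)‖ /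
      ‖Gamma ((15 / 16 : ℝ) + (0 : ℝ) * I)‖ ^ 2, by positivity, fun y hy => ?_⟩
    have h := ez_mid (x := 11 / 16) (d := 1 / 4) (by norm_num) (by norm_num) y
    have e1 : (11 / 16 + 2 * (1 / 4) : ℝ) = 19 / 16 := by norm_num
    have e2 : (11 / 16 + 1 / 4 : ℝ) = 15 / 16 := by norm_num
    rw [e1, e2] at h
    rw [div_mul_eq_mul_div, le_div_iff₀ (by positivity)]
    exact h.trans (le_of_eq (by ring))
  obtain ⟨K₃, hK₃, h3⟩ : ∃ K : ℝ, 0 < K ∧ ∀ y : ℝ, 0 < y →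
      ‖Gamma ((11 / 16 : ℝ) + y * I)‖ * ‖Gamma ((15 / 16 : ℝ) + y * I)‖ ≤
        K * ‖Gamma ((13 / 16 : ℝ) + y * I)‖ ^ 2 := by
    have p1 := hg (13 / 16) (by norm_num) 0
    have p2 := hg (11 / 16) (by norm_num) 0
    have p3 := hg (15 / 16) (by norm_num) 0
    refine ⟨‖Gamma ((11 / 16 : ℝ) + (0 : ℝ) * I)‖ * ‖Gamma ((15 / 16 : ℝ) + (0 : ℝ) * I)‖ /
      ‖Gamma ((13 / 16 : ℝ) + (0 : ℝ) * I)‖ ^ 2, by positivity, fun y hy => ?_⟩
    have h := ez_mid (x := 11 / 16) (d := 1 / 8) (by norm_num) (by norm_num) y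
    have e1 : (11 / 16 + 2 * (1 / 8) : ℝ) = 15 / 16 := by norm_num
    have e2 : (11 / 16 + 1 / 8 : ℝ) = 13 / 16 := by norm_num
    rw [e1, e2] at h
    rw [div_mul_eq_mul_div, le_div_iff₀ (by positivity)]
    exact h.trans (le_of_eq (by ring))
  refine ⟨((K₁ * K₂ ^ 2 * K₃ ^ 4) ^ (1 / 8 : ℝ))⁻¹, by positivity, fun y hy => ?_⟩
  have q1 := h1 y hy
  have q2 := h2 y hy
  have q3 := h3 y hy
  have ha := (hg (11 / 16) (by norm_num) y).le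
  have hb := (hg (19 / 16) (by norm_num) y).le
  have hc := (hg (15 / 16) (by norm_num) y).le
  have he := (hg (13 / 16) (by norm_num) y).le
  generalize ‖Gamma ((11 / 16 : ℝ) + y * I)‖ = a at *
  generalize ‖Gamma ((19 / 16 : ℝ) + y * I)‖ = b at *
  generalize ‖Gamma ((15 / 16 : ℝ) + y * I)‖ = c at *
  generalize ‖Gamma ((13 / 16 : ℝ) + y * I)‖ = e at *
  have h8 : y * a ^ 8 ≤ K₁ * K₂ ^ 2 * K₃ ^ 4 * e ^ 8 := by
    calc y * a ^ 8 = y * a ^ 2 * a ^ 6 := by ring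
      _ ≤ K₁ * b ^ 2 * a ^ 6 := mul_le_mul_of_nonneg_right q1 (by positivity)
      _ = K₁ * a ^ 4 * (a * b) ^ 2 := by ring
      _ ≤ K₁ * a ^ 4 * (K₂ * c ^ 2) ^ 2 :=
          mul_le_mul_of_nonneg_left (pow_le_pow_left₀ (by positivity) q2 2) (by positivity)
      _ = K₁ * K₂ ^ 2 * (a * c) ^ 4 := by ring
      _ ≤ K₁ * K₂ ^ 2 * (K₃ * e ^ 2) ^ 4 :=
          mul_le_mul_of_nonneg_left (pow_le_pow_left₀ (by positivity) q3 4) (by positivity)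
      _ = K₁ * K₂ ^ 2 * K₃ ^ 4 * e ^ 8 := by ring
  have hroot : ∀ z : ℝ, 0 < z → (z ^ (1 / 8 : ℝ)) ^ 8 = z := by
    intro z hz
    rw [← Real.rpow_natCast, ← Real.rpow_mul hz.le]
    norm_num
  have hK : 0 < K₁ * K₂ ^ 2 * K₃ ^ 4 := by positivity
  have hk := hroot _ hK
  have hz := hroot y hy
  have hkp : 0 < (K₁ * K₂ ^ 2 * K₃ ^ 4) ^ (1 / 8 : ℝ) := Real.rpow_pos_of_pos hK _
  have hzp : 0 < y ^ (1 / 8 : ℝ) := Real.rpow_pos_of_pos hy _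
  generalize (K₁ * K₂ ^ 2 * K₃ ^ 4) ^ (1 / 8 : ℝ) = k at *
  generalize y ^ (1 / 8 : ℝ) = z at *
  rw [← hz, ← hk, ← mul_pow, ← mul_pow] at h8
  have h9 : z * a ≤ k * e := (pow_le_pow_iff_left₀ (by positivity) (by positivity) (by norm_num)).1 h8
  rw [mul_assoc, inv_mul_le_iff₀ hkp]
  exact h9

/-! ### the character modulo `4` -/

private theorem ez_odd : (psi 1).Odd := by
  unfold DirichletCharacter.Odd
  show (if Odd ((-1 : ZMod (4 * 1)).val) then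
    ((jacobiSym (-((1 : ℕ) : ℤ)) (-1 : ZMod (4 * 1)).val : ℤ) : ℂ) else 0) = -1
  have h1 : (-1 : ZMod (4 * 1)).val = 3 := by decide
  rw [h1, if_pos (by decide)]
  have h2 : jacobiSym (-((1 : ℕ) : ℤ)) 3 = -1 := by norm_num
  rw [h2]
  norm_num

private theorem ez_quad : (psi 1).IsQuadratic := by
  intro a
  show (if Odd a.val then ((jacobiSym (-((1 : ℕ) : ℤ)) a.val : ℤ) : ℂ) else 0) = 0 ∨
    (if Odd a.val then ((jacobiSym (-((1 : ℕ) : ℤ)) a.val : ℤ) : ℂ) else 0) = 1 ∨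
    (if Odd a.val then ((jacobiSym (-((1 : ℕ) : ℤ)) a.val : ℤ) : ℂ) else 0) = -1
  split_ifs
  · rcases jacobiSym.trichotomy (-((1 : ℕ) : ℤ)) a.val with h | h | h <;> rw [h] <;> simp
  · exact Or.inl rfl

private theorem ez_prim : (psi 1).IsPrimitive := by
  rw [DirichletCharacter.isPrimitive_def]
  have hne := psi_ne_one 1
  have hdvd : (psi 1).conductor ∣ 4 * 1 := (psi 1).conductor_dvd_level
  have hft : (psi 1).FactorsThrough (psi 1).conductor := (psi 1).factorsThrough_conductor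
  generalize (psi 1).conductor = d at *
  have h4 : d ∣ 2 ^ 2 := hdvd
  obtain ⟨k, hk, rfl⟩ := (Nat.dvd_prime_pow Nat.prime_two).1 h4
  have hk3 : k = 2 ∨ 2 ^ k ∣ 2 := by
    rcases Nat.lt_or_ge k 2 with h | h
    · right
      exact (Nat.pow_dvd_pow 2 (Nat.le_of_lt_succ h)).trans (by norm_num)
    · left
      omega
  rcases hk3 with rfl | h2
  · rfl
  · exfalso
    obtain ⟨hd, χ, hχ⟩ := hft
    have h5 : χ = 1 := by
      refine MulChar.ext fun u => ?_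
      have h6 : ∀ k : ℕ, 2 ^ k ∣ 2 → ∀ u : (ZMod (2 ^ k))ˣ, u = 1 := by
        intro k hk u
        have h7 : k = 0 ∨ k = 1 := by
          rcases Nat.lt_or_ge k 2 with h | h
          · omega
          · exfalso
            have h8 : 2 ^ 2 ∣ 2 := (Nat.pow_dvd_pow 2 h).trans hk
            revert h8
            decide
        rcases h7 with rfl | rfl
        · exact Subsingleton.elim (α := (ZMod 1)ˣ) _ _
        · exact Subsingleton.elim (α := (ZMod 2)ˣ) _ _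
      rw [h6 k h2 u]
      simp
    rw [h5, DirichletCharacter.changeLevel_one] at hχ
    exact hne hχ

private theorem ez_inv : (psi 1)⁻¹ = psi 1 := ez_quad.inv

private theorem ez_func : ∃ w : ℂ, w ≠ 0 ∧ ∀ s : ℂ,
    DirichletCharacter.completedLFunction (psi 1) (1 - s) =
      ((4 * 1 : ℕ) : ℂ) ^ (s - 1 / 2) * w * DirichletCharacter.completedLFunction (psi 1) s := by
  have h : ∀ s : ℂ, DirichletCharacter.completedLFunction (psi 1) (1 - s) =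
      ((4 * 1 : ℕ) : ℂ) ^ (s - 1 / 2) * DirichletCharacter.rootNumber (psi 1) *
        DirichletCharacter.completedLFunction (psi 1) s := by
    intro s
    have h1 := ez_prim.completedLFunction_one_sub s
    rw [ez_inv] at h1
    exact h1
  refine ⟨_, fun h0 => ?_, h⟩
  have h1 := h (1 - 2)
  rw [h0, mul_zero, zero_mul, sub_sub_cancel] at h1
  have h2 := DirichletCharacter.LFunction_ne_zero_of_one_le_re (psi 1) (s := 2)
    (Or.inl (psi_ne_one 1)) (by norm_num)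
  rw [DirichletCharacter.LFunction_eq_completed_div_gammaFactor _ _ (Or.inl two_ne_zero), h1,
    zero_div] at h2
  exact h2 rfl

private theorem ez_L {s : ℂ} (hs : 0 < s.re) : Lpsi 1 s * Gammaℝ (s + 1) =
    DirichletCharacter.completedLFunction (psi 1) s := by
  have h0 : s ≠ 0 := by
    rintro rfl
    simp at hs
  have hg : Gammaℝ (s + 1) ≠ 0 := Gammaℝ_ne_zero_of_re_pos (by
    rw [add_re, one_re]
    linarith)
  rw [Lpsi_eq, DirichletCharacter.LFunction_eq_completed_div_gammaFactor _ _ (Or.inl h0),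
    ez_odd.gammaFactor_def, div_mul_cancel₀ _ hg]

/-- functional equation of the odd primitive character `psi 1` modulo `4`, on the strip: there is a constant `c > 0` with
`|L(3/8 + it)| ≥ c |t|^(1/8) |L(5/8 - it)|` for `|t| ≥ 1` (`ZMod.LFunction_one_sub` or `DirichletCharacter.completedLFunction_one_sub`;
`|Γ(x + 1/8 + iy) / Γ(x + iy)| ≥ c |y|^(1/8)`) -/
theorem func_psi_one : ∃ c : ℝ, 0 < c ∧ ∀ t : ℝ, 1 ≤ t →
    c * t ^ (1 / 8 : ℝ) * ‖Lpsi 1 (5 / 8 - t * I)‖ ≤ ‖Lpsi 1 (3 / 8 + t * I)‖ := by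
  obtain ⟨w, hw, hf⟩ := ez_func
  obtain ⟨c₀, hc₀, hr⟩ := ez_ratio
  have hwp : 0 < ‖w‖ := norm_pos_iff.2 hw
  refine ⟨(4 : ℝ) ^ (1 / 8 : ℝ) * ‖w‖ * Real.pi ^ (-(1 / 8) : ℝ) * c₀ * (1 / 2) ^ (1 / 8 : ℝ),
    by positivity, fun t ht => ?_⟩
  have ht0 : 0 < t := lt_of_lt_of_le zero_lt_one ht
  have h := hf (5 / 8 - t * I)
  have e1 : (1 - (5 / 8 - t * I) : ℂ) = 3 / 8 + t * I := by ring
  rw [e1, ← ez_L (by simp), ← ez_L (by simp)] at h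
  have h2 := congrArg norm h
  rw [norm_mul, norm_mul, norm_mul, norm_mul, Complex.norm_natCast_cpow_of_pos (by norm_num)] at h2
  have hG : ∀ x y : ℝ, ‖Gammaℝ ((x : ℂ) + y * I)‖ =
      Real.pi ^ (-(x / 2)) * ‖Gamma ((x / 2 : ℝ) + (y / 2 : ℝ) * I)‖ := by
    intro x y
    rw [Gammaℝ_def, norm_mul, norm_cpow_eq_rpow_re_of_pos Real.pi_pos]
    congr 2
    · simp
      ring
    · congr 1
      push_cast
      ring
  have e2 : (3 / 8 + t * I + 1 : ℂ) = ((11 / 8 : ℝ) : ℂ) + (t : ℝ) * I := by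
    push_cast
    ring
  have e3 : (5 / 8 - t * I + 1 : ℂ) = ((13 / 8 : ℝ) : ℂ) + ((-t : ℝ) : ℂ) * I := by
    push_cast
    ring
  rw [e2, e3, hG, hG] at h2
  have e4 : (11 / 8 / 2 : ℝ) = 11 / 16 := by norm_num
  have e5 : (13 / 8 / 2 : ℝ) = 13 / 16 := by norm_num
  have e6 : ‖Gamma ((13 / 16 : ℝ) + ((-t / 2 : ℝ) : ℂ) * I)‖ =
      ‖Gamma ((13 / 16 : ℝ) + ((t / 2 : ℝ) : ℂ) * I)‖ := by
    have e7 : (((13 / 16 : ℝ) : ℂ) + ((-t / 2 : ℝ) : ℂ) * I) =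
        (starRingEnd ℂ) (((13 / 16 : ℝ) : ℂ) + ((t / 2 : ℝ) : ℂ) * I) := by
      rw [map_add, map_mul, conj_ofReal, conj_ofReal, conj_I]
      push_cast
      ring
    rw [e7, Gamma_conj, Complex.norm_conj]
  rw [e4, e5, e6] at h2
  have h3 := hr (t / 2) (by positivity)
  have hgp : 0 < ‖Gamma ((11 / 16 : ℝ) + ((t / 2 : ℝ) : ℂ) * I)‖ :=
    norm_pos_iff.2 (Gamma_ne_zero_of_re_pos (by simp))
  have e8 : (5 / 8 - (t : ℂ) * I - 1 / 2).re = 1 / 8 := by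
    simp
    norm_num
  have e9 : (((4 * 1 : ℕ) : ℝ)) = 4 := by norm_num
  rw [e8, e9] at h2
  have e10 : (t / 2) ^ (1 / 8 : ℝ) = t ^ (1 / 8 : ℝ) * (1 / 2) ^ (1 / 8 : ℝ) := by
    rw [← Real.mul_rpow ht0.le (by norm_num)]
    congr 1
    ring
  have e11 : Real.pi ^ (-(13 / 16) : ℝ) = Real.pi ^ (-(11 / 16) : ℝ) * Real.pi ^ (-(1 / 8) : ℝ) := by
    rw [← Real.rpow_add Real.pi_pos]
    norm_num
  rw [e11] at h2
  rw [e10] at h3
  have hpp : 0 < Real.pi ^ (-(11 / 16) : ℝ) := Real.rpow_pos_of_pos Real.pi_pos _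
  have hL₁ := norm_nonneg (Lpsi 1 (5 / 8 - t * I))
  have hp4 : 0 < (4 : ℝ) ^ (1 / 8 : ℝ) := Real.rpow_pos_of_pos (by norm_num) _
  generalize ‖Gamma ((11 / 16 : ℝ) + ((t / 2 : ℝ) : ℂ) * I)‖ = a at *
  generalize ‖Gamma ((13 / 16 : ℝ) + ((t / 2 : ℝ) : ℂ) * I)‖ = b at *
  generalize ‖Lpsi 1 (5 / 8 - t * I)‖ = L₁ at *
  generalize ‖Lpsi 1 (3 / 8 + t * I)‖ = L₂ at *
  generalize (4 : ℝ) ^ (1 / 8 : ℝ) = p at *
  have hL : 0 ≤ L₁ := hL₁
  refine le_of_mul_le_mul_right ?_ (mul_pos hpp hgp)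
  rw [h2]
  calc p * ‖w‖ * Real.pi ^ (-(1 / 8) : ℝ) * c₀ * (1 / 2) ^ (1 / 8 : ℝ) * t ^ (1 / 8 : ℝ) * L₁ *
        (Real.pi ^ (-(11 / 16) : ℝ) * a)
      = p * ‖w‖ * Real.pi ^ (-(1 / 8) : ℝ) * L₁ * Real.pi ^ (-(11 / 16) : ℝ) *
        (c₀ * (t ^ (1 / 8 : ℝ) * (1 / 2) ^ (1 / 8 : ℝ)) * a) := by ring
    _ ≤ p * ‖w‖ * Real.pi ^ (-(1 / 8) : ℝ) * L₁ * Real.pi ^ (-(11 / 16) : ℝ) * b :=
        mul_le_mul_of_nonneg_left h3 (by positivity)
    _ = _ := by ring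

/-- a zero with real part in `(0, 1/2)` gives one with real part in `(1/2, 1)` -/
theorem zero_symm {s : ℂ} (h0 : 0 < s.re) (h1 : s.re < 1) (h : Lpsi 1 s = 0) : Lpsi 1 (1 - s) = 0 := by
  obtain ⟨w, -, hf⟩ := ez_func
  have h2 : 0 < (1 - s).re := by
    rw [sub_re, one_re]
    linarith
  have h3 := hf s
  rw [← ez_L h0, ← ez_L h2, h, zero_mul, mul_zero] at h3
  have hg : Gammaℝ (1 - s + 1) ≠ 0 := Gammaℝ_ne_zero_of_re_pos (by
    rw [add_re, one_re]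
    linarith)
  exact (mul_eq_zero.1 h3).resolve_right hg

end Pool.Agent.MP_291b24_nt.Sm
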