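import Pool.Agent.Lib.MP_291b24_nt.Sm.InvPsi
import Pool.Agent.Lib.MP_291b24_nt.Sm.EZa

/-! L(s, chi_-4) has a zero with real part at least 1/2 -/

set_option autoImplicit false

open Complex

namespace Pool.Agent.MP_291b24_nt.Sm

open HadamardThreeLines in
private theorem EZ_three {f : ℂ → ℂ} (hf : ∀ z : ℂ, 0 < z.re → DifferentiableAt ℂ f z) {C C₁ c₁ : ℝ}
    (hC : 0 < C) (hC₁ : 0 < C₁) (hc₁ : 0 < c₁)
    (h1 : ∀ z : ℂ, 3 / 8 ≤ z.re → ‖f z‖ ≤ C * (|z.im| + 2))
    (h2 : ∀ z : ℂ, z.re = 5 → ‖f z‖ ≤ C₁)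
    (h3 : ∀ z : ℂ, z.re = 3 / 8 → 1 ≤ z.im → ‖f z‖ ≤ c₁ * z.im ^ (-(1 / 16) : ℝ)) {t : ℝ} (ht : 2 ≤ t) :
    ‖f (3 + t * I)‖ ≤ (Real.exp 25 * c₁ * (t / 2) ^ (-(1 / 16) : ℝ) + Real.exp 25 * C * (10 / t)) ^
      (16 / 37 : ℝ) * (Real.exp 25 * C₁) ^ (21 / 37 : ℝ) := by
  set g : ℂ → ℂ := fun z => cexp ((z - t * I) ^ 2) * f z with hg
  have hnorm : ∀ z : ℂ, z.re ≤ 5 → 0 ≤ z.re →
      ‖cexp ((z - t * I) ^ 2)‖ ≤ Real.exp 25 * Real.exp (-(z.im - t) ^ 2) := by
    intro z hz hz0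
    rw [Complex.norm_exp, ← Real.exp_add]
    apply Real.exp_le_exp.2
    have : ((z - t * I) ^ 2).re = z.re ^ 2 - (z.im - t) ^ 2 := by
      rw [sq, Complex.mul_re]
      simp
      ring
    rw [this]
    nlinarith
  have hexp1 : ∀ u : ℝ, Real.exp (-u ^ 2) ≤ 1 := fun u => Real.exp_le_one_iff.2 (by nlinarith [sq_nonneg u])
  have hexp2 : ∀ u : ℝ, 0 ≤ u → (1 + u ^ 2) * Real.exp (-u ^ 2) ≤ 1 := by
    intro u _
    have h := Real.add_one_le_exp (u ^ 2)
    have h' : Real.exp (u ^ 2) * Real.exp (-u ^ 2) = 1 := by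
      rw [← Real.exp_add, add_neg_cancel, Real.exp_zero]
    have hp := Real.exp_pos (-u ^ 2)
    nlinarith
  have hgd : ∀ z : ℂ, 0 < z.re → DifferentiableAt ℂ g z := by
    intro z hz
    have hq : DifferentiableAt ℂ (fun z : ℂ => cexp ((z - t * I) ^ 2)) z := by fun_prop
    exact hq.mul (hf z hz)
  have hz3 : (3 + t * I : ℂ).re = 3 := by simp
  have key := norm_le_interp_of_mem_verticalClosedStrip' (f := g) (z := 3 + t * I) (l := 3 / 8) (u := 5)
    (a := Real.exp 25 * c₁ * (t / 2) ^ (-(1 / 16) : ℝ) + Real.exp 25 * C * (10 / t))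
    (b := Real.exp 25 * C₁) (by norm_num)
    (by
      show (3 + t * I : ℂ).re ∈ Set.Icc (3 / 8 : ℝ) 5
      rw [hz3]
      constructor <;> norm_num)
    (by
      apply DifferentiableOn.diffContOnCl
      intro z hz
      refine (hgd z ?_).differentiableWithinAt
      have hcl : closure (verticalStrip (3 / 8) 5) ⊆ re ⁻¹' Set.Icc (3 / 8 : ℝ) 5 :=
        closure_minimal (Set.preimage_mono Set.Ioo_subset_Icc_self)
          (isClosed_Icc.preimage continuous_re)
      have h4 := (hcl hz).1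
      have h5 : (3 / 8 : ℝ) ≤ z.re := h4
      linarith)
    (by
      refine ⟨Real.exp 25 * (C * (t + 4)), ?_⟩
      rintro _ ⟨z, hz, rfl⟩
      have hz1 : (3 / 8 : ℝ) ≤ z.re := hz.1
      have hz2 : z.re ≤ 5 := hz.2
      show ‖g z‖ ≤ _
      rw [hg]
      show ‖cexp ((z - t * I) ^ 2) * f z‖ ≤ _
      rw [norm_mul]
      have h4 := hnorm z hz2 (by linarith)
      have h5 := h1 z hz1
      have h6 : |z.im| ≤ |z.im - t| + t := by
        have h7 := abs_add_le (z.im - t) t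
        rw [sub_add_cancel, abs_of_nonneg (by linarith : (0 : ℝ) ≤ t)] at h7
        exact h7
      have h8 := hexp2 |z.im - t| (abs_nonneg _)
      rw [sq_abs] at h8
      have h9 : |z.im - t| ≤ 1 + (z.im - t) ^ 2 := by
        rw [← sq_abs (z.im - t)]
        nlinarith [sq_nonneg (|z.im - t| - 1), abs_nonneg (z.im - t)]
      have hp := Real.exp_pos (-(z.im - t) ^ 2)
      have h10 : Real.exp (-(z.im - t) ^ 2) * (|z.im| + 2) ≤ t + 4 := by
        have h11 := hexp1 (z.im - t)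
        nlinarith
      calc ‖cexp ((z - t * I) ^ 2)‖ * ‖f z‖
          ≤ (Real.exp 25 * Real.exp (-(z.im - t) ^ 2)) * (C * (|z.im| + 2)) :=
            mul_le_mul h4 h5 (norm_nonneg _) (by positivity)
        _ = Real.exp 25 * (C * (Real.exp (-(z.im - t) ^ 2) * (|z.im| + 2))) := by ring
        _ ≤ Real.exp 25 * (C * (t + 4)) := by
            apply mul_le_mul_of_nonneg_left _ (Real.exp_pos 25).le
            exact mul_le_mul_of_nonneg_left h10 hC.le)
    (by
      intro z hz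
      have hz' : z.re = 3 / 8 := hz
      show ‖cexp ((z - t * I) ^ 2) * f z‖ ≤ _
      rw [norm_mul]
      have h4 := hnorm z (by rw [hz']; norm_num) (by rw [hz']; norm_num)
      have hpt : 0 < (t / 2) ^ (-(1 / 16) : ℝ) := Real.rpow_pos_of_pos (by linarith) _
      rcases le_or_gt (t / 2) z.im with h | h
      · have h5 := h3 z hz' (by linarith)
        have h6 : z.im ^ (-(1 / 16) : ℝ) ≤ (t / 2) ^ (-(1 / 16) : ℝ) :=
          Real.rpow_le_rpow_of_nonpos (by linarith) h (by norm_num)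
        have h7 : ‖cexp ((z - t * I) ^ 2)‖ ≤ Real.exp 25 := by
          refine h4.trans ?_
          have h8 := hexp1 (z.im - t)
          have h9 := Real.exp_pos 25
          nlinarith
        calc ‖cexp ((z - t * I) ^ 2)‖ * ‖f z‖
            ≤ Real.exp 25 * (c₁ * (t / 2) ^ (-(1 / 16) : ℝ)) :=
              mul_le_mul h7 (h5.trans (mul_le_mul_of_nonneg_left h6 hc₁.le)) (norm_nonneg _)
                (Real.exp_pos _).le
          _ ≤ _ := by
              have h8 : 0 ≤ Real.exp 25 * C * (10 / t) := by positivity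
              linarith
      · have h5 := h1 z (by rw [hz'])
        set u := t - z.im with hu
        have hu1 : t / 2 < u := by rw [hu]; linarith
        have hu0 : 1 < u := by linarith
        have h6 : |z.im| + 2 ≤ 5 * u := by
          have h7 : |z.im| ≤ u + t := by
            rw [abs_le]
            constructor <;> rw [hu] <;> linarith
          linarith
        have h8 := hexp2 u (by linarith)
        have h9 : (z.im - t) ^ 2 = u ^ 2 := by rw [hu]; ring
        rw [h9] at h4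
        have hp := Real.exp_pos (-u ^ 2)
        have h10 : Real.exp (-u ^ 2) * (5 * u) ≤ 10 / t := by
          rw [le_div_iff₀ (by linarith)]
          have h11 : t ≤ 2 * u := by linarith
          have h12 : u * t ≤ u * (2 * u) := mul_le_mul_of_nonneg_left h11 (by linarith)
          have h13 : Real.exp (-u ^ 2) * (u * t) ≤ Real.exp (-u ^ 2) * (u * (2 * u)) :=
            mul_le_mul_of_nonneg_left h12 hp.le
          nlinarith
        calc ‖cexp ((z - t * I) ^ 2)‖ * ‖f z‖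
            ≤ (Real.exp 25 * Real.exp (-u ^ 2)) * (C * (5 * u)) :=
              mul_le_mul h4 (h5.trans (mul_le_mul_of_nonneg_left h6 hC.le)) (norm_nonneg _)
                (by positivity)
          _ = Real.exp 25 * C * (Real.exp (-u ^ 2) * (5 * u)) := by ring
          _ ≤ Real.exp 25 * C * (10 / t) := mul_le_mul_of_nonneg_left h10 (by positivity)
          _ ≤ _ := by
              have h11 : 0 ≤ Real.exp 25 * c₁ * (t / 2) ^ (-(1 / 16) : ℝ) := by positivity
              linarith)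
    (by
      intro z hz
      have hz' : z.re = 5 := hz
      show ‖cexp ((z - t * I) ^ 2) * f z‖ ≤ _
      rw [norm_mul]
      have h4 := hnorm z hz'.le (by rw [hz']; norm_num)
      have h7 : ‖cexp ((z - t * I) ^ 2)‖ ≤ Real.exp 25 := by
        refine h4.trans ?_
        have h8 := hexp1 (z.im - t)
        have h9 := Real.exp_pos 25
        nlinarith
      exact mul_le_mul h7 (h2 z hz') (norm_nonneg _) (Real.exp_pos _).le)
  rw [hz3] at key
  have e1 : (1 : ℝ) - (3 - 3 / 8) / (5 - 3 / 8) = 16 / 37 := by norm_num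
  have e2 : ((3 : ℝ) - 3 / 8) / (5 - 3 / 8) = 21 / 37 := by norm_num
  rw [e1, e2] at key
  refine le_trans ?_ key
  show ‖f (3 + t * I)‖ ≤ ‖cexp ((3 + t * I - t * I) ^ 2) * f (3 + t * I)‖
  rw [norm_mul]
  have h4 : (1 : ℝ) ≤ ‖cexp ((3 + t * I - t * I) ^ 2)‖ := by
    rw [add_sub_cancel_right, Complex.norm_exp]
    have : ((3 : ℂ) ^ 2).re = 9 := by norm_num
    rw [this]
    exact Real.one_le_exp (by norm_num)
  nlinarith [norm_nonneg (f (3 + t * I))]

/-- Otherwise there is no zero with real part `> 0` (`zero_symm`); `inv_Lpsi_one` with `σ₀ = 1/4`, `ε' = 1/16`... gives `|1/L| ≤ C (|t|+2)^(1/16)` for `Re s ≥ 5/16`,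
so by `func_psi_one` `|1/L(3/8 + it)| ≤ C t^(-1/16)`. The three lines theorem for `exp((s - i t₀)²) / L(s)` on `3/8 ≤ Re s ≤ 5` gives
`|1 / L(3 + i t₀)| → 0`; but `|1 / L(3 + i t₀)| ≥ 1/ζ(3)` (`norm_Lpsi_le'`). -/
theorem exists_zero : ∃ s : ℂ, 1 / 2 ≤ s.re ∧ Lpsi 1 s = 0 := by
  by_contra hcon
  push Not at hcon
  have hne : ∀ s : ℂ, 0 < s.re → Lpsi 1 s ≠ 0 := by
    intro s hs h0
    rcases le_or_gt (1 / 2) s.re with h | h
    · exact hcon s h h0
    · refine hcon (1 - s) ?_ (zero_symm hs (by linarith) h0)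
      rw [Complex.sub_re, Complex.one_re]
      linarith
  obtain ⟨C, hC, hinv⟩ := inv_Lpsi_one (m := 1) le_rfl (σ₀ := 1 / 4) (ε' := 1 / 16) le_rfl (by norm_num)
    (by norm_num) (by norm_num) (fun s hs => hne s (by linarith))
  obtain ⟨c, hc, hfun⟩ := func_psi_one
  obtain ⟨C₁, hC₁, hb⟩ := norm_Lpsi_le' (x := 3 / 2) (by norm_num)
  have hbase : ∀ s : ℂ, (1 : ℝ) ≤ |s.im| + 2 := fun s => by linarith [abs_nonneg s.im]
  have key := fun (t : ℝ) (ht : 2 ≤ t) => EZ_three (f := fun z => (Lpsi 1 z)⁻¹) (C := C) (C₁ := C₁)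
    (c₁ := c⁻¹ * C * 3) (fun z hz => ((differentiable_Lpsi 1) z).inv (hne z hz)) hC hC₁ (by positivity)
    (fun z hz => (hinv z (by linarith)).trans (mul_le_mul_of_nonneg_left (by
      calc (|z.im| + 2) ^ (1 / 16 : ℝ) ≤ (|z.im| + 2) ^ (1 : ℝ) :=
            Real.rpow_le_rpow_of_exponent_le (hbase z) (by norm_num)
        _ = |z.im| + 2 := Real.rpow_one _) hC.le))
    (fun z hz => (hb 1 le_rfl z (by rw [hz]; norm_num)).2)
    (fun z hz hz1 => by
      have hz0 : 0 < z.im := by linarith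
      have hzeq : z = 3 / 8 + (z.im : ℂ) * I := by
        apply Complex.ext
        · simp [hz]
        · simp
      have h1 := hfun z.im hz1
      rw [← hzeq] at h1
      have h2 : (5 / 8 - (z.im : ℂ) * I : ℂ).re = 5 / 8 := by simp
      have h3 : (5 / 8 - (z.im : ℂ) * I : ℂ).im = -z.im := by simp
      have h4 := hinv (5 / 8 - (z.im : ℂ) * I) (by rw [h2]; norm_num)
      rw [h3, abs_neg, abs_of_pos hz0] at h4
      have hL : 0 < ‖Lpsi 1 (5 / 8 - (z.im : ℂ) * I)‖ :=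
        norm_pos_iff.2 (hne _ (by rw [h2]; norm_num))
      have hp8 : 0 < z.im ^ (1 / 8 : ℝ) := Real.rpow_pos_of_pos hz0 _
      have h5 : ‖(Lpsi 1 z)⁻¹‖ ≤ c⁻¹ * (z.im ^ (1 / 8 : ℝ))⁻¹ * ‖(Lpsi 1 (5 / 8 - (z.im : ℂ) * I))⁻¹‖ := by
        rw [norm_inv, norm_inv, ← mul_inv, ← mul_inv]
        exact inv_anti₀ (by positivity) h1
      have h6 : (z.im + 2) ^ (1 / 16 : ℝ) ≤ 3 * z.im ^ (1 / 16 : ℝ) := by
        calc (z.im + 2) ^ (1 / 16 : ℝ) ≤ (3 * z.im) ^ (1 / 16 : ℝ) :=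
              Real.rpow_le_rpow (by linarith) (by linarith) (by norm_num)
          _ = 3 ^ (1 / 16 : ℝ) * z.im ^ (1 / 16 : ℝ) := Real.mul_rpow (by norm_num) hz0.le
          _ ≤ 3 * z.im ^ (1 / 16 : ℝ) := by
              apply mul_le_mul_of_nonneg_right _ (Real.rpow_pos_of_pos hz0 _).le
              calc (3 : ℝ) ^ (1 / 16 : ℝ) ≤ 3 ^ (1 : ℝ) :=
                    Real.rpow_le_rpow_of_exponent_le (by norm_num) (by norm_num)
                _ = 3 := Real.rpow_one _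
      have h7 : (z.im ^ (1 / 8 : ℝ))⁻¹ * z.im ^ (1 / 16 : ℝ) = z.im ^ (-(1 / 16) : ℝ) := by
        rw [← Real.rpow_neg hz0.le, ← Real.rpow_add hz0]
        norm_num
      calc ‖(Lpsi 1 z)⁻¹‖ ≤ c⁻¹ * (z.im ^ (1 / 8 : ℝ))⁻¹ * (C * (z.im + 2) ^ (1 / 16 : ℝ)) :=
            h5.trans (mul_le_mul_of_nonneg_left h4 (by positivity))
        _ ≤ c⁻¹ * (z.im ^ (1 / 8 : ℝ))⁻¹ * (C * (3 * z.im ^ (1 / 16 : ℝ))) :=
            mul_le_mul_of_nonneg_left (mul_le_mul_of_nonneg_left h6 hC.le) (by positivity)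
        _ = c⁻¹ * C * 3 * ((z.im ^ (1 / 8 : ℝ))⁻¹ * z.im ^ (1 / 16 : ℝ)) := by ring
        _ = _ := by rw [h7]) ht
  have hlow : ∀ t : ℝ, C₁⁻¹ ≤ ‖(Lpsi 1 (3 + t * I))⁻¹‖ := by
    intro t
    have h2 : (3 + (t : ℂ) * I : ℂ).re = 3 := by simp
    have h1 := (hb 1 le_rfl (3 + (t : ℂ) * I) (by rw [h2]; norm_num)).1
    rw [norm_inv]
    exact inv_anti₀ (norm_pos_iff.2 (hne _ (by rw [h2]; norm_num))) h1
  have htend : Filter.Tendsto (fun t : ℝ => (Real.exp 25 * (c⁻¹ * C * 3) * (t / 2) ^ (-(1 / 16) : ℝ) +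
      Real.exp 25 * C * (10 / t)) ^ (16 / 37 : ℝ) * (Real.exp 25 * C₁) ^ (21 / 37 : ℝ))
      Filter.atTop (nhds 0) := by
    have t1 : Filter.Tendsto (fun t : ℝ => (t / 2) ^ (-(1 / 16) : ℝ)) Filter.atTop (nhds 0) :=
      (tendsto_rpow_neg_atTop (by norm_num : (0 : ℝ) < 1 / 16)).comp
        (Filter.tendsto_id.atTop_div_const (by norm_num))
    have t2 : Filter.Tendsto (fun t : ℝ => 10 / t) Filter.atTop (nhds 0) :=
      Filter.Tendsto.const_div_atTop Filter.tendsto_id 10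
    have t3 := (t1.const_mul (Real.exp 25 * (c⁻¹ * C * 3))).add (t2.const_mul (Real.exp 25 * C))
    rw [mul_zero, mul_zero, add_zero] at t3
    have t4 := t3.rpow_const (p := (16 / 37 : ℝ)) (Or.inr (by norm_num))
    rw [Real.zero_rpow (by norm_num)] at t4
    have t5 := t4.mul_const ((Real.exp 25 * C₁) ^ (21 / 37 : ℝ))
    rw [zero_mul] at t5
    exact t5
  have hfin : C₁⁻¹ ≤ 0 := ge_of_tendsto htend (by
    filter_upwards [Filter.eventually_ge_atTop 2] with t ht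
    exact (hlow t).trans (key t ht))
  exact absurd hfin (not_le.2 (inv_pos.2 hC₁))

end Pool.Agent.MP_291b24_nt.Sm
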