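import Pool.Agent.Lib.MP_291b24_nt.Sm.ZeroFree
import Pool.Agent.Lib.MP_291b24_nt.Sm.EZ

/-! The bootstrap -/

set_option autoImplicit false

open Complex

namespace Pool.Agent.MP_291b24_nt.Sm

private theorem boot_main {δ₀ A τ : ℝ} (hδ : 0 < δ₀) (hδ1 : δ₀ ≤ 1 / 4) (hA : 0 ≤ A) (hτ : 0 < τ) (hτ1 : τ ≤ 1) (hτA : τ * A ≤ δ₀ / 2)
    {σ₀ : ℝ} (h1 : 1 / 2 ≤ σ₀) (h2 : σ₀ ≤ 1) (hZ : ZZ σ₀) {D : ℕ} (hD : 1 ≤ D)
    (hTT : ∃ C : ℝ, 0 < C ∧ ∀ K : ℕ, 16 ≤ K → ∀ X : ℝ, 2 ≤ X → X ^ (τ / 2) ≤ K → (K : ℝ) ≤ X ^ τ →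
      ‖TT K D X‖ ≤ C * X ^ (1 / 2 - δ₀) * (K : ℝ) ^ A) :
    ∃ C : ℝ, 0 < C ∧ ∀ K : ℕ, 16 ≤ K → ∀ X : ℝ, 2 ≤ X → X ^ (τ / 2) ≤ K → (K : ℝ) ≤ X ^ τ →
      ‖SS D (Fk K 1) X‖ ≤ C * X ^ (max (1 / 2 - δ₀ / 2) (σ₀ - τ / 128)) := by
  obtain ⟨C₂, hC₂, h₂⟩ := hTT
  obtain ⟨C₁, hC₁, h₁⟩ := partB h1 h2 (ε' := τ / 256) (by linarith) (by linarith) hZ hD hτ hτ1
  refine ⟨C₂ + C₁, by linarith, fun K hK X hX hKX hKX2 => ?_⟩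
  set β' : ℝ := max (1 / 2 - δ₀ / 2) (σ₀ - τ / 128) with hβ'
  have hX1 : (1 : ℝ) ≤ X := by linarith
  have hX0 : (0 : ℝ) < X := by linarith
  have hK0 : (0 : ℝ) < K := by
    have : (16 : ℝ) ≤ K := by exact_mod_cast hK
    linarith
  have e1 : ‖TT K D X‖ ≤ C₂ * X ^ β' := by
    refine (h₂ K hK X hX hKX hKX2).trans ?_
    have hKA : (K : ℝ) ^ A ≤ X ^ (δ₀ / 2) := by
      calc (K : ℝ) ^ A ≤ (X ^ τ) ^ A := Real.rpow_le_rpow hK0.le hKX2 hA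
        _ = X ^ (τ * A) := (Real.rpow_mul hX0.le _ _).symm
        _ ≤ X ^ (δ₀ / 2) := Real.rpow_le_rpow_of_exponent_le hX1 hτA
    calc C₂ * X ^ (1 / 2 - δ₀) * (K : ℝ) ^ A ≤ C₂ * X ^ (1 / 2 - δ₀) * X ^ (δ₀ / 2) := by gcongr
      _ = C₂ * X ^ (1 / 2 - δ₀ / 2) := by
          rw [mul_assoc, ← Real.rpow_add hX0]
          congr 2
          ring
      _ ≤ C₂ * X ^ β' := by
          gcongr
          exact le_max_left _ _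
  have e2 : ‖TT K D X - SS D (Fk K 1) X‖ ≤ C₁ * X ^ β' := by
    refine (h₁ K hK X hX hKX hKX2).trans ?_
    have hKm : (K : ℝ) ^ (-(1 / 32) : ℝ) ≤ X ^ (-(τ / 64)) := by
      calc (K : ℝ) ^ (-(1 / 32) : ℝ) ≤ (X ^ (τ / 2)) ^ (-(1 / 32) : ℝ) :=
            Real.rpow_le_rpow_of_nonpos (by positivity) hKX (by norm_num)
        _ = X ^ (-(τ / 64)) := by
            rw [← Real.rpow_mul hX0.le]
            congr 1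
            ring
    calc C₁ * X ^ (σ₀ + τ / 256) * (K : ℝ) ^ (-(1 / 32) : ℝ)
        ≤ C₁ * X ^ (σ₀ + τ / 256) * X ^ (-(τ / 64)) := by gcongr
      _ = C₁ * X ^ (σ₀ - 3 * τ / 256) := by
          rw [mul_assoc, ← Real.rpow_add hX0]
          congr 2
          ring
      _ ≤ C₁ * X ^ β' := by
          gcongr
          refine le_trans ?_ (le_max_right _ _)
          linarith
  calc ‖SS D (Fk K 1) X‖ = ‖TT K D X - (TT K D X - SS D (Fk K 1) X)‖ := by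
        rw [sub_sub_cancel]
    _ ≤ ‖TT K D X‖ + ‖TT K D X - SS D (Fk K 1) X‖ := norm_sub_le _ _
    _ ≤ C₂ * X ^ β' + C₁ * X ^ β' := add_le_add e1 e2
    _ = (C₂ + C₁) * X ^ β' := by ring

/-- one step: `partB` with `ε' = τ/256`, `K^(-1/32) ≤ X^(-τ/64)`, `K^A ≤ X^(τA) ≤ X^(δ₀/2)`; `om_bound`, `zero_free` -/
theorem boot_step {δ₀ A τ : ℝ} (hδ : 0 < δ₀) (hδ1 : δ₀ ≤ 1 / 4) (hA : 0 ≤ A) (hτ : 0 < τ) (hτ1 : τ ≤ 1) (hτA : τ * A ≤ δ₀ / 2)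
    (hTT : ∀ D : ℕ, 1 ≤ D → ∃ C : ℝ, 0 < C ∧ ∀ K : ℕ, 16 ≤ K → ∀ X : ℝ, 2 ≤ X → X ^ (τ / 2) ≤ K → (K : ℝ) ≤ X ^ τ →
      ‖TT K D X‖ ≤ C * X ^ (1 / 2 - δ₀) * (K : ℝ) ^ A)
    {σ₀ : ℝ} (h1 : 1 / 2 ≤ σ₀) (h2 : σ₀ ≤ 1) (hZ : ZZ σ₀) {m : ℕ} (hm : 1 ≤ m) {s : ℂ} (hs : 1 / 2 ≤ s.re)
    (hs2 : σ₀ - τ / 128 < s.re) (hs3 : 1 / 2 - δ₀ / 2 < s.re) : Lpsi m s ≠ 0 := by
  have hb1 : 1 / 4 ≤ max (1 / 2 - δ₀ / 2) (σ₀ - τ / 128) := le_trans (by linarith) (le_max_left _ _)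
  have hb2 : max (1 / 2 - δ₀ / 2) (σ₀ - τ / 128) ≤ 1 := max_le (by linarith) (by linarith)
  have hb3 : σ₀ - τ / 16 ≤ max (1 / 2 - δ₀ / 2) (σ₀ - τ / 128) := le_trans (by linarith) (le_max_right _ _)
  have hmain := boot_main hδ hδ1 hA hτ hτ1 hτA h1 h2 hZ hm (hTT m hm)
  have hom := om_bound h1 h2 hZ hm hτ hτ1 hb1 hb2 hb3 hmain
  exact zero_free hm hb1 hb2 hom (max_lt hs3 hs2) hs

/-- finitely many steps from `ZZ_one` to `ZZ (1/2)`, one more step, and `exists_zero` -/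
theorem boot {δ₀ A : ℝ} (hδ : 0 < δ₀) (hδ1 : δ₀ ≤ 1 / 4) (hA : 0 ≤ A)
    (hTT : ∀ τ : ℝ, 0 < τ → τ ≤ 1 → ∀ D : ℕ, 1 ≤ D → ∃ C : ℝ, 0 < C ∧ ∀ K : ℕ, 16 ≤ K → ∀ X : ℝ, 2 ≤ X →
      X ^ (τ / 2) ≤ K → (K : ℝ) ≤ X ^ τ → ‖TT K D X‖ ≤ C * X ^ (1 / 2 - δ₀) * (K : ℝ) ^ A) : False := by
  set τ : ℝ := min 1 (δ₀ / (2 * (A + 1))) with hτd
  have hτ : 0 < τ := lt_min one_pos (by positivity)
  have hτ1 : τ ≤ 1 := min_le_left _ _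
  have hτA : τ * A ≤ δ₀ / 2 := by
    calc τ * A ≤ δ₀ / (2 * (A + 1)) * (A + 1) := by
          apply mul_le_mul (min_le_right _ _) (by linarith) hA (by positivity)
      _ = δ₀ / 2 := by field_simp
  have step := fun {σ₀ : ℝ} (h1 : 1 / 2 ≤ σ₀) (h2 : σ₀ ≤ 1) (hZ : ZZ σ₀) {m : ℕ} (hm : 1 ≤ m) {s : ℂ} (hs : 1 / 2 ≤ s.re)
    (hs2 : σ₀ - τ / 128 < s.re) (hs3 : 1 / 2 - δ₀ / 2 < s.re) =>
      boot_step hδ hδ1 hA hτ hτ1 hτA (hTT τ hτ hτ1) h1 h2 hZ hm hs hs2 hs3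
  have key : ∀ k : ℕ, ZZ (max (1 / 2) (1 - k * (τ / 128))) := by
    intro k
    induction k with
    | zero =>
      have : max (1 / 2 : ℝ) (1 - ((0 : ℕ) : ℝ) * (τ / 128)) = 1 := by
        rw [Nat.cast_zero, zero_mul, sub_zero]
        exact max_eq_right (by norm_num)
      rw [this]
      exact ZZ_one
    | succ k ih =>
      intro m hm s hs
      have hs1 : 1 / 2 < s.re := lt_of_le_of_lt (le_max_left _ _) hs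
      have hs2 : 1 - ((k + 1 : ℕ) : ℝ) * (τ / 128) < s.re := lt_of_le_of_lt (le_max_right _ _) hs
      push_cast at hs2
      refine step (le_max_left _ _) (max_le (by norm_num) ?_) ih hm hs1.le ?_ (by linarith)
      · have : (0 : ℝ) ≤ k * (τ / 128) := by positivity
        linarith
      · rcases max_cases (1 / 2 : ℝ) (1 - k * (τ / 128)) with ⟨h, _⟩ | ⟨h, _⟩
        · rw [h]; linarith
        · rw [h]; linarith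
  obtain ⟨k, hk⟩ := exists_nat_gt (1 / (τ / 128))
  have hk1 : 1 < k * (τ / 128) := by
    rw [div_lt_iff₀ (by positivity)] at hk
    exact hk
  have hhalf : ZZ (1 / 2) := by
    have h := key k
    rwa [max_eq_left (by linarith)] at h
  obtain ⟨s, hs, h0⟩ := exists_zero
  exact step le_rfl (by norm_num) hhalf le_rfl hs (by linarith) (by linarith) h0

end Pool.Agent.MP_291b24_nt.Sm
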