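import Pool.Agent.Lib.MP_291b24_nt.Sm.Defs
import Pool.Agent.Lib.MP_291b24_nt.Gauss2
import Pool.Agent.Lib.MP_291b24_nt.Char

/-! Chinese remainder theorem for exponential sums, Gauss sums -/

set_option autoImplicit false

open Complex

namespace Pool.Agent.MP_291b24_nt.Sm

private theorem crt_exp {A B : ℕ} (hA : 0 < A) (hB : 0 < B) (hAB : A.Coprime B) (b : ℤ)
    {A' B' : ℤ} (hA' : (A : ℤ) * A' ≡ 1 [ZMOD B]) (hB' : (B : ℤ) * B' ≡ 1 [ZMOD A]) (n : ℕ) :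
    cexp (2 * Real.pi * I * ((b : ℂ) * n / ((A * B : ℕ) : ℂ))) =
      cexp (2 * Real.pi * I * (((b * B' : ℤ) : ℂ) * ((n % A : ℕ) : ℂ) / (A : ℂ))) *
      cexp (2 * Real.pi * I * (((b * A' : ℤ) : ℂ) * ((n % B : ℕ) : ℂ) / (B : ℂ))) := by
  have hA0 : (A : ℂ) ≠ 0 := by exact_mod_cast hA.ne'
  have hB0 : (B : ℂ) ≠ 0 := by exact_mod_cast hB.ne'
  have hc : IsCoprime (A : ℤ) (B : ℤ) := Nat.isCoprime_iff_coprime.2 hAB
  have h1 : (A : ℤ) ∣ (B : ℤ) * B' + (A : ℤ) * A' - 1 := by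
    have h := (Int.modEq_iff_dvd.1 hB'.symm)
    have h2 : (A : ℤ) ∣ (A : ℤ) * A' := dvd_mul_right _ _
    have h3 := dvd_add h h2
    have e : (B : ℤ) * B' - 1 + (A : ℤ) * A' = (B : ℤ) * B' + (A : ℤ) * A' - 1 := by ring
    rwa [e] at h3
  have h2 : (B : ℤ) ∣ (B : ℤ) * B' + (A : ℤ) * A' - 1 := by
    have h := (Int.modEq_iff_dvd.1 hA'.symm)
    have h2 : (B : ℤ) ∣ (B : ℤ) * B' := dvd_mul_right _ _
    have h3 := dvd_add h h2
    have e : (A : ℤ) * A' - 1 + (B : ℤ) * B' = (B : ℤ) * B' + (A : ℤ) * A' - 1 := by ring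
    rwa [e] at h3
  obtain ⟨m, hm⟩ := hc.mul_dvd h1 h2
  have hm' : (B : ℂ) * B' + (A : ℂ) * A' - 1 = (A : ℂ) * B * m := by exact_mod_cast hm
  have e1 : (n : ℂ) = ((n % A : ℕ) : ℂ) + (A : ℂ) * ((n / A : ℕ) : ℂ) := by
    exact_mod_cast (Nat.mod_add_div n A).symm
  have e2 : (n : ℂ) = ((n % B : ℕ) : ℂ) + (B : ℂ) * ((n / B : ℕ) : ℂ) := by
    exact_mod_cast (Nat.mod_add_div n B).symm
  revert e1 e2
  generalize n / A = q
  generalize n / B = r
  generalize n % A = x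
  generalize n % B = y
  intro e1 e2
  rw [← Complex.exp_add, Complex.exp_eq_exp_iff_exists_int]
  refine ⟨b * B' * (q : ℤ) + b * A' * (r : ℤ) - b * n * m, ?_⟩
  push_cast
  have e1' : (x : ℂ) = (n : ℂ) - (A : ℂ) * (q : ℂ) := by
    rw [e1]
    ring
  have e2' : (y : ℂ) = (n : ℂ) - (B : ℂ) * (r : ℂ) := by
    rw [e2]
    ring
  rw [e1', e2']
  field_simp
  linear_combination (-((b : ℂ) * n)) * hm'

/-- `n ↦ (n mod A, n mod B)` is a bijection and `b n / (A B) = b B' n / A + b A' n / B` mod `1` because `B B' + A A' = 1` mod `A B`. -/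
theorem crt_sum {A B : ℕ} (hA : 0 < A) (hB : 0 < B) (hAB : A.Coprime B) (f g : ℕ → ℂ)
    (hf : ∀ n, f (n + A) = f n) (hg : ∀ n, g (n + B) = g n) (b : ℤ) {A' B' : ℤ}
    (hA' : (A : ℤ) * A' ≡ 1 [ZMOD B]) (hB' : (B : ℤ) * B' ≡ 1 [ZMOD A]) :
    ∑ n ∈ Finset.range (A * B), f n * g n * cexp (2 * Real.pi * I * ((b : ℂ) * n / ((A * B : ℕ) : ℂ))) =
      (∑ n ∈ Finset.range A, f n * cexp (2 * Real.pi * I * (((b * B' : ℤ) : ℂ) * n / (A : ℂ)))) *
      (∑ n ∈ Finset.range B, g n * cexp (2 * Real.pi * I * (((b * A' : ℤ) : ℂ) * n / (B : ℂ)))) := by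
  have hfp : Function.Periodic f A := hf
  have hgp : Function.Periodic g B := hg
  rw [Finset.sum_mul_sum, ← Finset.sum_product']
  refine Finset.sum_bij' (fun n _ => (n % A, n % B))
    (fun p _ => (Nat.chineseRemainder hAB p.1 p.2 : ℕ)) ?_ ?_ ?_ ?_ ?_
  · intro n _
    rw [Finset.mem_product, Finset.mem_range, Finset.mem_range]
    exact ⟨Nat.mod_lt _ hA, Nat.mod_lt _ hB⟩
  · intro p _
    rw [Finset.mem_range]
    exact Nat.chineseRemainder_lt_mul hAB p.1 p.2 hA.ne' hB.ne'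
  · intro n hn
    rw [Finset.mem_range] at hn
    have h1 := (Nat.chineseRemainder hAB (n % A) (n % B)).2
    have h2 : n ≡ (Nat.chineseRemainder hAB (n % A) (n % B) : ℕ) [MOD A * B] := by
      refine (Nat.modEq_and_modEq_iff_modEq_mul hAB).1 ⟨?_, ?_⟩
      · exact (h1.1.trans (Nat.mod_modEq n A)).symm
      · exact (h1.2.trans (Nat.mod_modEq n B)).symm
    have h3 := Nat.chineseRemainder_lt_mul hAB (n % A) (n % B) hA.ne' hB.ne'
    exact (Nat.ModEq.eq_of_lt_of_lt h2 hn h3).symm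
  · rintro ⟨x, y⟩ hp
    rw [Finset.mem_product, Finset.mem_range, Finset.mem_range] at hp
    have h1 := (Nat.chineseRemainder hAB x y).2
    refine Prod.ext ?_ ?_
    · show (Nat.chineseRemainder hAB x y : ℕ) % A = x
      rw [h1.1, Nat.mod_eq_of_lt hp.1]
    · show (Nat.chineseRemainder hAB x y : ℕ) % B = y
      rw [h1.2, Nat.mod_eq_of_lt hp.2]
  · intro n _
    rw [crt_exp hA hB hAB b hA' hB' n, hfp.map_mod_nat, hgp.map_mod_nat]
    ring

/-- from `gaussSum_chi` and `gaussSum_mulShift` for `t` prime to `u`; primitivity (`chi_isPrimitive`, `gaussSum_mulShift_of_isPrimitive`) for the others -/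
theorem gauss_jac {u : ℕ} (hu : Odd u) (hs : Squarefree u) (t : ℤ) :
    ∑ n ∈ Finset.range u, ((jacobiSym (n : ℤ) u : ℤ) : ℂ) * cexp (2 * Real.pi * I * ((t : ℂ) * n / (u : ℂ))) =
      ((jacobiSym t u : ℤ) : ℂ) * (eps u * (Real.sqrt u : ℂ)) := by
  have : NeZero u := ⟨hs.ne_zero⟩
  have h1 := gaussSum_mulShift_of_isPrimitive (e := ZMod.stdAddChar) (chi_isPrimitive u hu hs) ((t : ℤ) : ZMod u)
  rw [chi_inv, gaussSum_chi u hu hs, chi_intCast] at h1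
  rw [← h1, Finset.sum_range, gaussSum, ← sum_fin_eq_sum_zmod]
  refine Finset.sum_congr rfl fun r _ => ?_
  have e1 : chi u (((r : ℕ) : ZMod u)) = ((jacobiSym ((r : ℕ) : ℤ) u : ℤ) : ℂ) := by
    rw [← chi_intCast]
    push_cast
    rfl
  have e2 : (AddChar.mulShift ZMod.stdAddChar ((t : ℤ) : ZMod u)) (((r : ℕ) : ZMod u)) =
      cexp (2 * Real.pi * I * ((t : ℂ) * (r : ℕ) / (u : ℂ))) := by
    rw [AddChar.mulShift_apply]
    have : ((t : ℤ) : ZMod u) * (((r : ℕ) : ZMod u)) = ((t * ((r : ℕ) : ℤ) : ℤ) : ZMod u) := by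
      push_cast
      rfl
    rw [this, ZMod.stdAddChar_coe]
    push_cast
    congr 1
    ring
  rw [e1, e2]

end Pool.Agent.MP_291b24_nt.Sm
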