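import Pool.Agent.Lib.MP_291b24_nt.Sm.Crt
import Pool.Agent.Lib.MP_291b24_nt.Sm.Arith

/-! General bound of the character sums -/

set_option autoImplicit false

open Complex

namespace Pool.Agent.MP_291b24_nt.Sm

private theorem cvBa_rad_pow {p e : ℕ} (hp : p.Prime) (he : 0 < e) : rad (p ^ e) = p := by
  unfold rad
  rw [Nat.primeFactors_prime_pow he.ne' hp, Finset.prod_singleton]

/-- The Jacobi symbol is periodic modulo the radical. -/
private theorem cvBa_per (v : ℕ) : ∀ a a' : ℤ, (rad v : ℤ) ∣ a - a' →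
    jacobiSym a v = jacobiSym a' v := by
  induction v using Nat.recOnPosPrimePosCoprime with
  | prime_pow p e hp he =>
    intro a a' h
    rw [cvBa_rad_pow hp he] at h
    have h1 : a % p = a' % p :=
      Int.emod_eq_emod_iff_emod_sub_eq_zero.2 (Int.emod_eq_zero_of_dvd h)
    rw [jacobiSym.pow_right, jacobiSym.pow_right, jacobiSym.mod_left a p, jacobiSym.mod_left a' p,
      h1]
  | zero => intro a a' _; rw [jacobiSym.zero_right, jacobiSym.zero_right]
  | one => intro a a' _; rw [jacobiSym.one_right, jacobiSym.one_right]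
  | coprime x y hx hy hxy ihx ihy =>
    intro a a' h
    rw [rad_mul hxy, Nat.cast_mul] at h
    have : NeZero x := ⟨by omega⟩
    have : NeZero y := ⟨by omega⟩
    rw [jacobiSym.mul_right, jacobiSym.mul_right, ihx a a' ((dvd_mul_right _ _).trans h),
      ihy a a' ((dvd_mul_left _ _).trans h)]

private theorem cvBa_le (t : ℤ) (u : ℕ) : ‖((jacobiSym t u : ℤ) : ℂ)‖ ≤ 1 := by
  rcases jacobiSym.trichotomy t u with h | h | h <;> rw [h] <;> simp

private theorem cvBa_geo {p : ℕ} (hp : 0 < p) {t : ℤ} (ht : ¬ (p : ℤ) ∣ t) :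
    ∑ n ∈ Finset.range p, cexp (2 * Real.pi * I * ((t : ℂ) * n / (p : ℂ))) = 0 := by
  have hp0 : (p : ℂ) ≠ 0 := Nat.cast_ne_zero.2 hp.ne'
  set z := cexp (2 * Real.pi * I * ((t : ℂ) / (p : ℂ))) with hz
  have h1 : ∀ n : ℕ, cexp (2 * Real.pi * I * ((t : ℂ) * n / (p : ℂ))) = z ^ n := by
    intro n
    rw [hz, ← Complex.exp_nat_mul]
    congr 1
    ring
  rw [Finset.sum_congr rfl fun n _ => h1 n]
  have h2 : z ^ p = 1 := by
    rw [← h1, mul_div_assoc, div_self hp0, mul_one, mul_comm]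
    exact Complex.exp_int_mul_two_pi_mul_I t
  have h3 : z ≠ 1 := by
    intro h
    rw [hz, Complex.exp_eq_one_iff] at h
    obtain ⟨n, hn⟩ := h
    apply ht
    have h4 : (t : ℂ) / p = n := by
      have h5 : (2 * Real.pi * I : ℂ) ≠ 0 := Complex.two_pi_I_ne_zero
      apply mul_left_cancel₀ h5
      rw [hn]
      ring
    rw [div_eq_iff hp0] at h4
    have h5 : t = n * (p : ℤ) := by exact_mod_cast h4
    exact ⟨n, by rw [h5, mul_comm]⟩
  have h4 := mul_geom_sum z p
  rw [h2, sub_self] at h4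
  exact (mul_eq_zero.1 h4).resolve_left (sub_ne_zero.2 h3)

/-- One prime. -/
private theorem cvBa_prime {p e : ℕ} (hp : p.Prime) (h2 : Odd p) (he : 0 < e) (t : ℤ) :
    ‖∑ n ∈ Finset.range p, ((jacobiSym (n : ℤ) (p ^ e) : ℤ) : ℂ) *
      cexp (2 * Real.pi * I * ((t : ℂ) * n / (p : ℂ)))‖ ≤ Real.sqrt (p * (Int.gcd t p : ℕ)) := by
  have hg : 1 ≤ Int.gcd t p := Nat.pos_of_ne_zero fun h => by
    rw [Int.gcd_eq_zero_iff] at h
    exact hp.ne_zero (by exact_mod_cast h.2)
  have hsp : Real.sqrt p ≤ Real.sqrt (p * (Int.gcd t p : ℕ)) := by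
    apply Real.sqrt_le_sqrt
    have h3 : (1 : ℝ) ≤ (Int.gcd t p : ℕ) := by exact_mod_cast hg
    nlinarith [Nat.cast_nonneg (α := ℝ) p]
  have h1p : (1 : ℝ) ≤ Real.sqrt p := by
    rw [Real.one_le_sqrt]
    exact_mod_cast hp.one_lt.le
  rcases Nat.even_or_odd e with hev | hodd
  · obtain ⟨k, hk⟩ := hev
    have hj : ∀ n ∈ Finset.range p, ((jacobiSym (n : ℤ) (p ^ e) : ℤ) : ℂ) =
        if n = 0 then 0 else 1 := by
      intro n hn
      rw [Finset.mem_range] at hn
      rw [jacobiSym.pow_right]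
      split_ifs with h0
      · subst h0
        have h3 : jacobiSym ((0 : ℕ) : ℤ) p = 0 := by
          rw [Nat.cast_zero, jacobiSym.zero_left hp.one_lt]
        rw [h3, zero_pow he.ne', Int.cast_zero]
      · have h3 : jacobiSym (n : ℤ) p ≠ 0 := by
          have : NeZero p := ⟨hp.ne_zero⟩
          rw [Ne, jacobiSym.eq_zero_iff_not_coprime, not_not, Int.gcd_natCast_natCast]
          exact Nat.Coprime.symm ((Nat.Prime.coprime_iff_not_dvd hp).2 fun hd =>
            absurd (Nat.le_of_dvd (Nat.pos_of_ne_zero h0) hd) (not_le.2 hn))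
        have h4 : jacobiSym (n : ℤ) p ^ 2 = 1 := by
          rcases jacobiSym.trichotomy (n : ℤ) p with h | h | h
          · exact absurd h h3
          · rw [h]; norm_num
          · rw [h]; norm_num
        have h5 : e = 2 * k := by omega
        rw [h5, pow_mul, h4, one_pow, Int.cast_one]
    have hsum : ∑ n ∈ Finset.range p, ((jacobiSym (n : ℤ) (p ^ e) : ℤ) : ℂ) *
        cexp (2 * Real.pi * I * ((t : ℂ) * n / (p : ℂ))) =
        ∑ n ∈ Finset.range p, cexp (2 * Real.pi * I * ((t : ℂ) * n / (p : ℂ))) - 1 := by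
      have h3 : ∀ n ∈ Finset.range p, ((jacobiSym (n : ℤ) (p ^ e) : ℤ) : ℂ) *
          cexp (2 * Real.pi * I * ((t : ℂ) * n / (p : ℂ))) =
          cexp (2 * Real.pi * I * ((t : ℂ) * n / (p : ℂ))) - if n = 0 then 1 else 0 := by
        intro n hn
        rw [hj n hn]
        split_ifs with h0
        · subst h0
          simp
        · rw [one_mul, sub_zero]
      rw [Finset.sum_congr rfl h3, Finset.sum_sub_distrib, Finset.sum_ite_eq' (Finset.range p),
        if_pos (Finset.mem_range.2 hp.pos)]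
    rw [hsum]
    by_cases ht : (p : ℤ) ∣ t
    · have h3 : ∀ n ∈ Finset.range p, cexp (2 * Real.pi * I * ((t : ℂ) * n / (p : ℂ))) = 1 := by
        intro n _
        obtain ⟨s, rfl⟩ := ht
        have hp0 : (p : ℂ) ≠ 0 := Nat.cast_ne_zero.2 hp.ne_zero
        have h4 : 2 * Real.pi * I * ((((p : ℤ) * s : ℤ) : ℂ) * n / (p : ℂ)) =
            ((s * n : ℤ) : ℂ) * (2 * Real.pi * I) := by
          push_cast
          field_simp
        rw [h4]
        exact Complex.exp_int_mul_two_pi_mul_I _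
      rw [Finset.sum_congr rfl h3, Finset.sum_const, Finset.card_range, nsmul_eq_mul, mul_one]
      have h5 : Int.gcd t p = p := by
        have h6 := Int.natAbs_dvd_natAbs.2 ht
        rw [Int.natAbs_natCast] at h6
        rw [Int.gcd_def, Int.natAbs_natCast]
        exact Nat.gcd_eq_right h6
      rw [h5, Real.sqrt_mul_self (Nat.cast_nonneg p)]
      have h6 : ((p : ℂ) - 1) = (((p : ℝ) - 1 : ℝ) : ℂ) := by push_cast; ring
      rw [h6, Complex.norm_real, Real.norm_eq_abs, abs_of_nonneg (by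
        have : (1 : ℝ) ≤ p := by exact_mod_cast hp.one_lt.le
        linarith)]
      linarith
    · rw [cvBa_geo hp.pos ht, zero_sub, norm_neg, norm_one]
      exact h1p.trans hsp
  · obtain ⟨k, hk⟩ := hodd
    have hj : ∀ n : ℕ, jacobiSym (n : ℤ) (p ^ e) = jacobiSym (n : ℤ) p := by
      intro n
      rw [jacobiSym.pow_right]
      rcases jacobiSym.trichotomy (n : ℤ) p with h | h | h
      · rw [h, zero_pow he.ne']
      · rw [h, one_pow]
      · rw [h, hk, pow_succ, pow_mul]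
        norm_num
    rw [Finset.sum_congr rfl fun n _ => by rw [hj n], gauss_jac h2 hp.squarefree t, norm_mul,
      norm_mul]
    have h3 : ‖eps p‖ ≤ 1 := by
      unfold eps
      split_ifs <;> simp
    have h4 : ‖((Real.sqrt p : ℝ) : ℂ)‖ = Real.sqrt p := by
      rw [Complex.norm_real, Real.norm_eq_abs, abs_of_nonneg (Real.sqrt_nonneg _)]
    rw [h4]
    refine le_trans ?_ hsp
    calc ‖((jacobiSym t p : ℤ) : ℂ)‖ * (‖eps p‖ * Real.sqrt p) ≤ 1 * (1 * Real.sqrt p) := by
          gcongr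
          exact cvBa_le t p
      _ = Real.sqrt p := by ring

private theorem cvBa_gcd {A : ℕ} {y : ℤ} (hy : IsCoprime y (A : ℤ)) (t : ℤ) :
    Int.gcd (t * y) A = Int.gcd t A := by
  have h : Nat.Coprime y.natAbs A := by
    have h1 := Int.isCoprime_iff_gcd_eq_one.1 hy
    rwa [Int.gcd_def, Int.natAbs_natCast] at h1
  rw [Int.gcd_def, Int.gcd_def, Int.natAbs_mul, Int.natAbs_natCast]
  exact Nat.Coprime.gcd_mul_right_cancel _ h

/-- All odd moduli. -/
private theorem cvBa_all (v : ℕ) : Odd v → ∀ t : ℤ,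
    ‖∑ n ∈ Finset.range (rad v), ((jacobiSym (n : ℤ) v : ℤ) : ℂ) *
      cexp (2 * Real.pi * I * ((t : ℂ) * n / (rad v : ℂ)))‖ ≤
      Real.sqrt (rad v * (Int.gcd t (rad v) : ℕ)) := by
  induction v using Nat.recOnPosPrimePosCoprime with
  | prime_pow p e hp he =>
    intro hv t
    rw [cvBa_rad_pow hp he]
    exact cvBa_prime hp ((Nat.odd_pow_iff he.ne').1 hv) he t
  | zero => intro h; exact absurd h (by decide)
  | one =>
    intro _ t
    have h1 : rad 1 = 1 := by
      unfold rad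
      rw [Nat.primeFactors_one, Finset.prod_empty]
    rw [h1]
    simp
  | coprime x y hx hy hxy ihx ihy =>
    intro hv t
    rw [Nat.odd_mul] at hv
    have hrc : (rad x).Coprime (rad y) :=
      Nat.Coprime.of_dvd (rad_dvd x) (rad_dvd y) hxy
    obtain ⟨A', B', hAB⟩ := Nat.isCoprime_iff_coprime.2 hrc
    have h1 := crt_sum (rad_pos x) (rad_pos y) hrc
      (fun n => ((jacobiSym (n : ℤ) x : ℤ) : ℂ)) (fun n => ((jacobiSym (n : ℤ) y : ℤ) : ℂ))
      (fun n => by
        rw [cvBa_per x ((n + rad x : ℕ) : ℤ) n ⟨1, by push_cast; ring⟩])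
      (fun n => by
        rw [cvBa_per y ((n + rad y : ℕ) : ℤ) n ⟨1, by push_cast; ring⟩]) t
      (A' := A') (B' := B')
      (Int.modEq_iff_dvd.2 ⟨B', by linear_combination -hAB⟩)
      (Int.modEq_iff_dvd.2 ⟨A', by linear_combination -hAB⟩)
    have : NeZero x := ⟨by omega⟩
    have : NeZero y := ⟨by omega⟩
    have h2 : ∀ n ∈ Finset.range (rad x * rad y), ((jacobiSym (n : ℤ) (x * y) : ℤ) : ℂ) *
        cexp (2 * Real.pi * I * ((t : ℂ) * n / ((rad x * rad y : ℕ) : ℂ))) =
        ((jacobiSym (n : ℤ) x : ℤ) : ℂ) * ((jacobiSym (n : ℤ) y : ℤ) : ℂ) *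
        cexp (2 * Real.pi * I * ((t : ℂ) * n / ((rad x * rad y : ℕ) : ℂ))) := by
      intro n _
      rw [jacobiSym.mul_right, Int.cast_mul]
    rw [rad_mul hxy, Finset.sum_congr rfl h2, h1, norm_mul]
    have h3 := ihx hv.1 (t * B')
    have h4 := ihy hv.2 (t * A')
    have hB : IsCoprime B' (rad x : ℤ) := ⟨rad y, A', by linear_combination hAB⟩
    have hA : IsCoprime A' (rad y : ℤ) := ⟨rad x, B', by linear_combination hAB⟩
    rw [cvBa_gcd hB] at h3
    rw [cvBa_gcd hA] at h4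
    refine (mul_le_mul h3 h4 (norm_nonneg _) (Real.sqrt_nonneg _)).trans (le_of_eq ?_)
    rw [← Real.sqrt_mul (by positivity)]
    congr 1
    have h5 : Int.gcd t ((rad x * rad y : ℕ) : ℤ) = Int.gcd t (rad x) * Int.gcd t (rad y) := by
      rw [Int.gcd_def, Int.gcd_def, Int.gcd_def, Int.natAbs_natCast, Int.natAbs_natCast,
        Int.natAbs_natCast]
      exact hrc.gcd_mul _
    rw [h5]
    push_cast
    ring

/-- Induction over the odd primes `p ∣ v'` with `crt_sum` (`B = p`): the factor at `p` is `∑_{n mod p} (n / p) ^ e e(t n / p)`, which is a Gauss sum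
(`≤ √p`, `gauss_jac`) for odd `e` and a Ramanujan sum (`p - 1` or `-1`, the first only if `p ∣ b`) for even `e ≥ 2`: `≤ √(p gcd(b, p))` always. -/
theorem gen_bound {A : ℕ} (hA : A = 4 ∨ A = 8) {v' : ℕ} (hv : Odd v') (η : ℕ → ℂ) (hη : ∀ n, η (n + A) = η n)
    (hη1 : ∀ n, ‖η n‖ ≤ 1) (b : ℤ) :
    ‖∑ n ∈ Finset.range (A * rad v'), η n * ((jacobiSym (n : ℤ) v' : ℤ) : ℂ) *
      cexp (2 * Real.pi * I * ((b : ℂ) * n / ((A * rad v' : ℕ) : ℂ)))‖ ≤
      A * Real.sqrt (rad v' * (Int.gcd b (rad v') : ℕ)) := by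
  have hA0 : 0 < A := by omega
  have hc : A.Coprime (rad v') := by
    have h1 : Odd (rad v') := hv.of_dvd_nat (rad_dvd v')
    rcases hA with rfl | rfl
    · exact Nat.Coprime.pow_left 2 h1.coprime_two_left
    · exact Nat.Coprime.pow_left 3 h1.coprime_two_left
  obtain ⟨A', B', hAB⟩ := Nat.isCoprime_iff_coprime.2 hc
  have h1 := crt_sum hA0 (rad_pos v') hc η (fun n => ((jacobiSym (n : ℤ) v' : ℤ) : ℂ)) hη
    (fun n => by
      rw [cvBa_per v' ((n + rad v' : ℕ) : ℤ) n ⟨1, by push_cast; ring⟩]) b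
    (A' := A') (B' := B')
    (Int.modEq_iff_dvd.2 ⟨B', by linear_combination -hAB⟩)
    (Int.modEq_iff_dvd.2 ⟨A', by linear_combination -hAB⟩)
  rw [h1, norm_mul]
  have hA' : IsCoprime A' (rad v' : ℤ) := ⟨A, B', by linear_combination hAB⟩
  have h2 := cvBa_all v' hv (b * A')
  rw [cvBa_gcd hA'] at h2
  refine mul_le_mul ?_ h2 (norm_nonneg _) (Nat.cast_nonneg A)
  refine (norm_sum_le _ _).trans ?_
  have h3 : ∀ n ∈ Finset.range A, ‖η n * cexp (2 * Real.pi * I *
      (((b * B' : ℤ) : ℂ) * n / (A : ℂ)))‖ ≤ 1 := by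
    intro n _
    rw [norm_mul]
    have h4 : 2 * Real.pi * I * (((b * B' : ℤ) : ℂ) * n / (A : ℂ)) =
        ((2 * Real.pi * (((b * B' : ℤ) : ℝ) * n / A) : ℝ) : ℂ) * I := by
      push_cast
      ring
    rw [h4, Complex.norm_exp_ofReal_mul_I, mul_one]
    exact hη1 n
  refine (Finset.sum_le_sum h3).trans ?_
  rw [Finset.sum_const, Finset.card_range, nsmul_eq_mul, mul_one]

end Pool.Agent.MP_291b24_nt.Sm
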