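import Pool.Agent.Lib.MP_291b24_nt.Sm.B2

/-! The character sums at the resonant frequency -/

set_option autoImplicit false

open Complex

namespace Pool.Agent.MP_291b24_nt.Sm

private theorem cvm_sum {M : ℕ} (hM : 0 < M) (f : ℕ → ℂ) (hper : ∀ n, f (n + M) = f n)
    (hmul : ∀ m n, f (m * n) = f m * f n) {a : ℕ} (ha : a.Coprime M) (h1 : f a ≠ 1) :
    ∑ n ∈ Finset.range M, f n = 0 := by
  have i1 : NeZero M := ⟨hM.ne'⟩
  have hmod : ∀ n, f (n % M) = f n := fun n => Function.Periodic.map_mod_nat hper n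
  have e1 : ∑ n ∈ Finset.range M, f n = ∑ x : ZMod M, f x.val := by
    refine Finset.sum_nbij' (fun n => (n : ZMod M)) ZMod.val (fun n _ => Finset.mem_univ _)
      (fun x _ => Finset.mem_range.2 (ZMod.val_lt x)) (fun n hn => ?_) (fun x _ => ?_)
      fun n hn => ?_
    · exact ZMod.val_cast_of_lt (Finset.mem_range.1 hn)
    · exact ZMod.natCast_zmod_val x
    · rw [ZMod.val_cast_of_lt (Finset.mem_range.1 hn)]
  have e2 : ∑ x : ZMod M, f x.val = f a * ∑ x : ZMod M, f x.val := by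
    rw [Finset.mul_sum, ← Equiv.sum_comp (Units.mulLeft (ZMod.unitOfCoprime a ha))]
    refine Finset.sum_congr rfl fun x _ => ?_
    rw [Units.mulLeft_apply, ZMod.coe_unitOfCoprime, ZMod.val_mul, hmod, hmul, ZMod.val_natCast,
      hmod]
  rw [e1]
  have e3 : (1 - f a) * ∑ x : ZMod M, f x.val = 0 := by
    rw [sub_mul, one_mul, ← e2, sub_self]
  exact (mul_eq_zero.1 e3).resolve_left (sub_ne_zero.2 (Ne.symm h1))

/-- an odd number with `(v / n) = -1` -/
private theorem cvm_ex {v : ℕ} (hv : v ≠ 0) (hns : ¬ IsSquare v) :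
    ∃ n : ℕ, Odd n ∧ jacobiSym (v : ℤ) n = -1 := by
  obtain ⟨a, b, hab, ha⟩ := Nat.sq_mul_squarefree v
  have ha1 : a ≠ 1 := by
    rintro rfl
    exact hns ⟨b, by rw [← hab]; ring⟩
  obtain ⟨p, hp, a', rfl⟩ := Nat.exists_prime_and_dvd ha1
  have hpa : ¬ p ∣ a' := (Nat.Prime.coprime_iff_not_dvd hp).1 (Nat.squarefree_mul_iff.1 ha).1
  have hb0 : b ≠ 0 := by
    rintro rfl
    exact hv (by rw [← hab]; ring)
  obtain ⟨k, b', hpb, rfl⟩ := Nat.exists_eq_pow_mul_and_not_dvd hb0 p hp.ne_one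
  obtain ⟨w, hw⟩ : ∃ w, w = b' ^ 2 * a' := ⟨_, rfl⟩
  have hvw : v = p ^ (2 * k + 1) * w := by
    rw [← hab, hw]
    ring
  have hpw : ¬ p ∣ w := by
    rw [hw]
    intro h
    rcases (Nat.Prime.dvd_mul hp).1 h with h2 | h2
    · exact hpb (hp.dvd_of_dvd_pow h2)
    · exact hpa h2
  have hw0 : w ≠ 0 := by
    rintro rfl
    exact hpw (dvd_zero p)
  have hJ : ∀ n : ℕ, jacobiSym (v : ℤ) n = jacobiSym (p : ℤ) n ^ (2 * k + 1) *
      jacobiSym (w : ℤ) n := by
    intro n
    rw [hvw, Nat.cast_mul, Nat.cast_pow, jacobiSym.mul_left, jacobiSym.pow_left]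
  have hodd : Odd (2 * k + 1) := ⟨k, rfl⟩
  rcases hp.eq_two_or_odd' with rfl | hpo
  · have hwo : Odd w := by
      rw [← Nat.not_even_iff_odd, even_iff_two_dvd]
      exact hpw
    have hc : Nat.Coprime 8 w := by
      have h2 : Nat.Coprime 2 w := hwo.coprime_two_left
      exact Nat.Coprime.pow_left 3 h2
    obtain ⟨n, hn8, hnw⟩ := Nat.chineseRemainder hc 5 1
    have hn8' : n % 8 = 5 := hn8
    have hn4 : n % 4 = 1 := by omega
    have hno : Odd n := by
      rw [Nat.odd_iff]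
      omega
    refine ⟨n, hno, ?_⟩
    have h2 : jacobiSym ((2 : ℕ) : ℤ) n = -1 := by
      rw [Nat.cast_ofNat, jacobiSym.at_two hno, ZMod.χ₈_nat_eq_if_mod_eight]
      rw [if_neg (by omega), if_neg (by omega)]
    have h3 : jacobiSym (w : ℤ) n = 1 := by
      rw [← jacobiSym.quadratic_reciprocity_one_mod_four hn4 hwo, ← jacobiSym.one_left w]
      apply jacobiSym.mod_left'
      have := Int.natCast_modEq_iff.2 hnw
      simpa [Int.ModEq] using this
    rw [hJ, h2, h3, hodd.neg_one_pow, mul_one]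
  · have i1 : Fact p.Prime := ⟨hp⟩
    have hp2 : ringChar (ZMod p) ≠ 2 := by
      rw [ZMod.ringChar_zmod_n]
      rintro rfl
      exact absurd hpo (by decide)
    obtain ⟨g, hg⟩ := quadraticChar_exists_neg_one hp2
    have hc : Nat.Coprime p (4 * w) := by
      refine Nat.Coprime.mul_right ?_ ((Nat.Prime.coprime_iff_not_dvd hp).2 hpw)
      exact Nat.Coprime.pow_right 2 hpo.coprime_two_right
    obtain ⟨n, hnp, hnw⟩ := Nat.chineseRemainder hc g.val 1
    have hnw' : n % (4 * w) = 1 := by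
      have h4 : n % (4 * w) = 1 % (4 * w) := hnw
      rw [h4]
      exact Nat.mod_eq_of_lt (by omega)
    have hn4 : n % 4 = 1 := by
      have h4 : n ≡ 1 [MOD 4] := Nat.ModEq.of_mul_right w hnw
      exact h4
    have hno : Odd n := by
      rw [Nat.odd_iff]
      omega
    refine ⟨n, hno, ?_⟩
    have h2 : jacobiSym (p : ℤ) n = -1 := by
      rw [← jacobiSym.quadratic_reciprocity_one_mod_four hn4 hpo,
        ← jacobiSym.legendreSym.to_jacobiSym]
      change quadraticChar (ZMod p) (((n : ℕ) : ℤ) : ZMod p) = -1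
      have h5 : (((n : ℕ) : ℤ) : ZMod p) = g := by
        have := (ZMod.natCast_eq_natCast_iff _ _ _).2 hnp
        rw [Int.cast_natCast, this]
        simp
      rw [h5, hg]
    have h3 : jacobiSym (w : ℤ) n = 1 := by
      rw [jacobiSym.mod_right (w : ℤ) hno, Int.natAbs_natCast, hnw', jacobiSym.one_right]
    rw [hJ, h2, h3, hodd.neg_one_pow, mul_one]

/-- the characters `(s v / n)`, `s = 1, -1` -/
private noncomputable def cvm_f (s : ℤ) (v n : ℕ) : ℂ :=
  if Odd n then ((jacobiSym s n : ℤ) : ℂ) * ((jacobiSym (v : ℤ) n : ℤ) : ℂ) else 0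

private theorem cvm_neg {n : ℕ} (hn : Odd n) :
    jacobiSym (-1) n = if n % 4 = 1 then 1 else -1 := by
  have h2 : n % 2 = 1 := Nat.odd_iff.1 hn
  rw [jacobiSym.at_neg_one hn, ZMod.χ₄_nat_eq_if_mod_four, if_neg (by omega)]

private theorem cvm_per {s : ℤ} (hs : s = 1 ∨ s = -1) {v : ℕ} (hv : v ≠ 0) (n : ℕ) :
    cvm_f s v (n + 4 * rad v) = cvm_f s v n := by
  have hodd : Odd (n + 4 * rad v) ↔ Odd n := by
    rw [Nat.odd_add]
    exact ⟨fun h => h.2 ⟨2 * rad v, by ring⟩, fun h => iff_of_true h ⟨2 * rad v, by ring⟩⟩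
  unfold cvm_f
  by_cases h : Odd n
  · rw [if_pos h, if_pos (hodd.2 h), jac_per hv h]
    congr 2
    rcases hs with rfl | rfl
    · rw [jacobiSym.one_left, jacobiSym.one_left]
    · rw [cvm_neg h, cvm_neg (hodd.2 h), Nat.add_mul_mod_self_left]
  · rw [if_neg h, if_neg fun h2 => h (hodd.1 h2)]

private theorem cvm_mul (s : ℤ) (v m n : ℕ) : cvm_f s v (m * n) = cvm_f s v m * cvm_f s v n := by
  unfold cvm_f
  by_cases hm : Odd m
  · by_cases hn : Odd n
    · have hm0 : m ≠ 0 := by rintro rfl; simp at hm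
      have hn0 : n ≠ 0 := by rintro rfl; simp at hn
      rw [if_pos hm, if_pos hn, if_pos (hm.mul hn), jacobiSym.mul_right' _ hm0 hn0,
        jacobiSym.mul_right' _ hm0 hn0]
      push_cast
      ring
    · rw [if_neg hn, mul_zero, if_neg fun h => hn (Nat.odd_mul.1 h).2]
  · rw [if_neg hm, zero_mul, if_neg fun h => hm (Nat.odd_mul.1 h).1]

private theorem cvm_eps {n : ℕ} (hn : Odd n) :
    epsb n = (1 - I) / 2 + (1 + I) / 2 * ((jacobiSym (-1) n : ℤ) : ℂ) := by
  rw [cvm_neg hn]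
  unfold epsb
  split_ifs
  · push_cast
    ring
  · push_cast
    ring

private theorem cvm_CN {v : ℕ} (hv : VV v) (D c : ℕ) : CN v (b0 D v c : ℤ) =
    (1 - I) / 2 * ∑ n ∈ Finset.range (4 * rad v), cvm_f 1 v n +
      (1 + I) / 2 * ∑ n ∈ Finset.range (4 * rad v), cvm_f (-1) v n := by
  obtain ⟨t, ht⟩ := four_rad_dvd_b0 hv D c
  have hr : ((4 * rad v : ℕ) : ℂ) ≠ 0 := by
    have := rad_pos v
    exact Nat.cast_ne_zero.2 (by omega)
  rw [Finset.mul_sum, Finset.mul_sum, ← Finset.sum_add_distrib]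
  unfold CN
  refine Finset.sum_congr rfl fun n _ => ?_
  unfold cvm_f
  by_cases h : Odd n
  · rw [if_pos h, if_pos h, if_pos h, cvm_eps h, jacobiSym.one_left]
    have e1 : cexp (2 * Real.pi * I * ((((b0 D v c : ℕ) : ℤ) : ℂ) * n / ((4 * rad v : ℕ) : ℂ))) =
        1 := by
      have e2 : 2 * (Real.pi : ℂ) * I * ((((b0 D v c : ℕ) : ℤ) : ℂ) * n /
          ((4 * rad v : ℕ) : ℂ)) = ((t * n : ℕ) : ℂ) * (2 * Real.pi * I) := by
        rw [ht, Int.cast_natCast, Nat.cast_mul (4 * rad v) t]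
        field_simp
        push_cast
        ring
      rw [e2]
      exact exp_nat_mul_two_pi_mul_I _
    rw [e1]
    push_cast
    ring
  · rw [if_neg h, if_neg h, if_neg h]
    ring

private theorem cvm_cop {v : ℕ} (hv : v ≠ 0) (n : ℕ) :
    (4 * rad v).Coprime n ↔ Odd n ∧ v.Coprime n := by
  by_cases hn : n = 0
  · subst hn
    have := rad_pos v
    simp only [Nat.coprime_zero_right]
    constructor
    · intro h
      omega
    · intro h
      exact absurd h.1 (by decide)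
  have h1 : (rad v).Coprime n ↔ v.Coprime n := by
    rw [← Nat.disjoint_primeFactors (rad_pos v).ne' hn, ← Nat.disjoint_primeFactors hv hn,
      primeFactors_rad]
  rw [Nat.coprime_mul_iff_left, h1]
  refine and_congr_left fun _ => ?_
  constructor
  · intro h
    have h2 : Nat.Coprime 2 n := Nat.Coprime.coprime_dvd_left (by norm_num) h
    exact Nat.coprime_two_left.1 h2
  · intro h
    exact Nat.Coprime.pow_left 2 (Nat.coprime_two_left.2 h)

/-- the second sum vanishes -/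
private theorem cvm_zero {v : ℕ} (hv : v ≠ 0) :
    ∑ n ∈ Finset.range (4 * rad v), cvm_f (-1) v n = 0 := by
  have hr := rad_pos v
  have hv1 : 1 ≤ v := Nat.one_le_iff_ne_zero.2 hv
  have ho : Odd (4 * v - 1) := by
    rw [Nat.odd_iff]
    omega
  have hcop : v.Coprime (4 * v - 1) := by
    have h1 : v.Coprime (v * 4 - 1) := by
      rw [Nat.coprime_iff_gcd_eq_one]
      have h2 : Nat.gcd v (v * 4 - 1) ∣ 1 := by
        have h3 : Nat.gcd v (v * 4 - 1) ∣ v * 4 := (Nat.gcd_dvd_left _ _).mul_right 4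
        have h4 : Nat.gcd v (v * 4 - 1) ∣ v * 4 - 1 := Nat.gcd_dvd_right _ _
        have h5 := Nat.dvd_sub h3 h4
        rwa [Nat.sub_sub_self (by omega)] at h5
      exact Nat.dvd_one.1 h2
    rwa [mul_comm v 4] at h1
  refine cvm_sum (a := 4 * v - 1) (by omega) _ (cvm_per (Or.inr rfl) hv) (cvm_mul (-1) v) ?_ ?_
  · exact Nat.Coprime.symm ((cvm_cop hv _).2 ⟨ho, hcop⟩)
  · have h1 : jacobiSym (-1) (4 * v - 1) = -1 := by
      rw [cvm_neg ho, if_neg (by omega)]
    have h2 : jacobiSym ((4 * v : ℕ) : ℤ) (4 * v - 1) = 1 := by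
      rw [← jacobiSym.one_left (4 * v - 1)]
      apply jacobiSym.mod_left'
      have h3 : ((4 * v : ℕ) : ℤ) = 1 + ((4 * v - 1 : ℕ) : ℤ) := by
        rw [Nat.cast_sub (by omega)]
        push_cast
        ring
      rw [h3, Int.add_emod_right]
    have h4 : jacobiSym (4 : ℤ) (4 * v - 1) = 1 := by
      have h5 : (4 : ℤ) = 2 ^ 2 := by norm_num
      rw [h5]
      apply jacobiSym.sq_one'
      rw [Int.gcd_comm]
      have h6 : Int.gcd ((4 * v - 1 : ℕ) : ℤ) ((2 : ℕ) : ℤ) = 1 := by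
        rw [Int.gcd_natCast_natCast]
        exact ho.coprime_two_right
      exact h6
    have h5 : jacobiSym (v : ℤ) (4 * v - 1) = 1 := by
      rw [Nat.cast_mul, jacobiSym.mul_left] at h2
      have h6 : ((4 : ℕ) : ℤ) = 4 := rfl
      rw [h6, h4, one_mul] at h2
      exact h2
    unfold cvm_f
    rw [if_pos ho, h1, h5]
    norm_num

/-- `4 rad v ∣ b0`, so the exponential is `1` and the sum is `∑ epsb n (v / n)`, `(h² / n) = 1_{(n, h) = 1}`. Among the residues prime to `4 rad h`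
half are `1` mod 4 and half `3` mod 4. -/
theorem CN_b0_sq {h : ℕ} (hh : h ≠ 0) (D c : ℕ) :
    CN (h ^ 2) (b0 D (h ^ 2) c : ℤ) = (1 - I) * ((Nat.totient (4 * rad h) : ℂ) / 2) := by
  have h0 : h ^ 2 ≠ 0 := pow_ne_zero 2 hh
  rw [cvm_CN (VV_sq hh), cvm_zero h0, mul_zero, add_zero, rad_sq]
  have e1 : ∑ n ∈ Finset.range (4 * rad h), cvm_f 1 (h ^ 2) n =
      (Nat.totient (4 * rad h) : ℂ) := by
    rw [Nat.totient_eq_card_coprime, ← Finset.sum_boole]
    refine Finset.sum_congr rfl fun n _ => ?_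
    unfold cvm_f
    by_cases hn : Odd n
    · by_cases hc : h.Coprime n
      · rw [if_pos hn, if_pos ((cvm_cop hh n).2 ⟨hn, hc⟩), jacobiSym.one_left, Nat.cast_pow,
          jacobiSym.sq_one' (by rw [Int.gcd_natCast_natCast]; exact hc)]
        norm_num
      · have i1 : NeZero n := ⟨by rintro rfl; simp at hn⟩
        have h2 : jacobiSym (h : ℤ) n = 0 := by
          rw [jacobiSym.eq_zero_iff_not_coprime, Int.gcd_natCast_natCast]
          exact hc
        rw [if_pos hn, if_neg fun h3 => hc ((cvm_cop hh n).1 h3).2, Nat.cast_pow,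
          jacobiSym.pow_left, h2]
        norm_num
    · rw [if_neg hn, if_neg fun h3 => hn ((cvm_cop hh n).1 h3).1]
  rw [e1]
  ring

/-- `epsb n = ((1 - i) + (1 + i) χ₄(n)) / 2` for odd `n`; the characters `(v / n)` and `(-v / n)` of modulus `4 rad v` are nontrivial (for `v` not a square there
is an odd `n` prime to `v` with `(v / n) = -1`; for `-v` take `n = 4 v - 1`), so both sums vanish. -/
theorem CN_b0_nonsq {v : ℕ} (hv : VV v) (hns : ¬ IsSquare v) (D c : ℕ) : CN v (b0 D v c : ℤ) = 0 := by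
  rw [cvm_CN hv, cvm_zero hv.1, mul_zero, add_zero]
  obtain ⟨n, hn, hJ⟩ := cvm_ex hv.1 hns
  have i1 : NeZero n := ⟨by rintro rfl; simp at hn⟩
  have hc : v.Coprime n := by
    by_contra h
    have h2 : jacobiSym (v : ℤ) n = 0 := by
      rw [jacobiSym.eq_zero_iff_not_coprime, Int.gcd_natCast_natCast]
      exact h
    rw [h2] at hJ
    exact absurd hJ (by norm_num)
  have h1 : ∑ n ∈ Finset.range (4 * rad v), cvm_f 1 v n = 0 := by
    refine cvm_sum (a := n) (by have := rad_pos v; omega) _ (cvm_per (Or.inl rfl) hv.1)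
      (cvm_mul 1 v) (Nat.Coprime.symm ((cvm_cop hv.1 n).2 ⟨hn, hc⟩)) ?_
    unfold cvm_f
    rw [if_pos hn, hJ, jacobiSym.one_left]
    norm_num
  rw [h1, mul_zero]

end Pool.Agent.MP_291b24_nt.Sm
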