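import Pool.Agent.Lib.MP_291b24_nt.Defs

/-! Project SmallShifts: definitions. Paper: /team-store/h35_small.md -/

set_option autoImplicit false

open Complex

namespace Pool.Agent.MP_291b24_nt.Sm

/-! ### arithmetic -/

/-- the conjugate of the sign `ε_n` -/
noncomputable def epsb (n : ℕ) : ℂ := if n % 4 = 1 then 1 else -I

/-- the weights of `l` -/
def hw (l : ℕ) : ℤ := if l % 2 = 1 then 1 else if l % 4 = 2 then -2 else 0

/-- the coefficients `κ(N, c)` -/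
def kap (N c : ℕ) : ℤ :=
  if N % 2 = 1 then (if c = 0 then 1 else if c = 1 then -2 else 0)
  else (if c = 0 then 1 else if c = 1 then -3 else if c = 2 then 2 else 0)

/-- product of the prime divisors -/
def rad (n : ℕ) : ℕ := ∏ p ∈ n.primeFactors, p

/-- `n / rad n` -/
def gg (n : ℕ) : ℕ := n / rad n

/-- no odd prime divides `v` exactly once -/
def VV (v : ℕ) : Prop := v ≠ 0 ∧ ∀ p : ℕ, p.Prime → p ≠ 2 → p ∣ v → p ^ 2 ∣ v

/-- the character sum of modulus `4 rad N` -/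
noncomputable def CN (N : ℕ) (b : ℤ) : ℂ :=
  ∑ n ∈ Finset.range (4 * rad N), if Odd n then
    epsb n * ((jacobiSym (N : ℤ) n : ℤ) : ℂ) * cexp (2 * Real.pi * I * ((b : ℂ) * n / ((4 * rad N : ℕ) : ℂ))) else 0

/-! ### kernels -/

/-- the weight `w` -/
noncomputable def wk (K : ℕ) (u : ℝ) : ℂ :=
  if 0 < u then ((Real.sqrt K / (K.factorial : ℝ) * u ^ K : ℝ) : ℂ) * cexp (-(1 - 2 * Real.pi * I) * u) else 0

/-- the weight `φ` as a function of the logarithm -/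
noncomputable def ph (K : ℕ) (x : ℝ) : ℂ :=
  cexp (-((2 * Real.pi * K * x : ℝ) : ℂ) * I - (((K : ℝ) / 2 * x ^ 2 : ℝ) : ℂ))

/-- the Fourier transform of `w` -/
noncomputable def wh (K : ℕ) (ξ : ℝ) : ℂ :=
  (Real.sqrt K : ℂ) * ((1 + 2 * Real.pi * I * ((ξ - 1 : ℝ) : ℂ)) ^ (K + 1))⁻¹

/-- the kernel `F_ρ` -/
noncomputable def Fk (K : ℕ) (ρ x : ℝ) : ℂ :=
  (Real.exp (-x) : ℂ) * wh K (ρ * Real.exp (-x)) * ph K x

/-- the Gaussian -/
noncomputable def om (x : ℝ) : ℂ := ((Real.exp (-(x ^ 2 / 2)) : ℝ) : ℂ)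

/-- the Mellin transform of `w` -/
noncomputable def wM (K : ℕ) (s : ℂ) : ℂ :=
  ((Real.sqrt K / (K.factorial : ℝ) : ℝ) : ℂ) * Gamma (K + s) * (1 - 2 * Real.pi * I) ^ (-(K + s))

/-- the Mellin transform of `φ` -/
noncomputable def pM (K : ℕ) (z : ℂ) : ℂ :=
  (Real.sqrt (2 * Real.pi / K) : ℂ) * cexp ((z - 2 * Real.pi * K * I) ^ 2 / (2 * K))

/-- the entire function `∑ h(l) l ^ (-s)` -/
noncomputable def HH (s : ℂ) : ℂ := ZMod.LFunction (fun j : ZMod 4 => ((hw j.val : ℤ) : ℂ)) s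

/-- the cutoff -/
noncomputable def ups (M : ℕ) (x : ℝ) : ℝ := Real.exp (-(x ^ M))

/-! ### the sum `T` -/

/-- one term of `T_n`, `q = (m, k, l)` -/
noncomputable def tm (K D : ℕ) (X : ℝ) (n : ℕ) (q : ℕ × ℕ × ℕ) : ℂ :=
  ((ArithmeticFunction.moebius q.2.1 : ℤ) : ℂ) * ((jacobiSym ((q.1 * q.2.1 : ℕ) : ℤ) n : ℤ) : ℂ) *
    (((Real.sqrt ((q.1 : ℝ) * q.2.1))⁻¹ : ℝ) : ℂ) * ((hw q.2.2 : ℤ) : ℂ) *
    ph K (Real.log ((q.1 : ℝ) * q.2.1 / (4 * D * X))) * wk K ((n : ℝ) * (q.1 : ℝ) ^ 2 * (q.2.2 : ℝ) ^ 2 / X)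

noncomputable def Tn (K D : ℕ) (X : ℝ) (n : ℕ) : ℂ := ∑' q : ℕ × ℕ × ℕ, tm K D X n q

noncomputable def TT (K D : ℕ) (X : ℝ) : ℂ :=
  ∑' n : ℕ, if Odd n ∧ Squarefree n then epsb n * Tn K D X n else 0

/-- the `n`-sum for given `N`, `c` -/
noncomputable def Rn (K : ℕ) (X : ℝ) (N c : ℕ) : ℂ :=
  ∑' n : ℕ, if Odd n then epsb n * ((jacobiSym (N : ℤ) n : ℤ) : ℂ) * wk K (4 ^ c * (gg N : ℝ) ^ 2 * n / X) else 0

/-- the sum over `u` with the character `(-m / u)` -/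
noncomputable def SU (m : ℤ) (v : ℕ) (F : ℝ → ℂ) (Y : ℝ) : ℂ :=
  ∑' u : ℕ, if Odd u ∧ u.Coprime v then
    ((ArithmeticFunction.moebius u : ℤ) : ℂ) * ((jacobiSym (-m) u : ℤ) : ℂ) * F (Real.log (u / Y)) else 0

/-- the resonant frequency -/
def b0 (D v c : ℕ) : ℕ := 4 ^ c * gg v * (16 * D)

/-- the coefficient of `(v, c)` -/
noncomputable def cf (v c : ℕ) : ℝ :=
  (kap v c : ℝ) * (ArithmeticFunction.moebius (rad v) : ℝ) * ((4 : ℝ) ^ c)⁻¹ * (Real.sqrt v)⁻¹ * ((gg v : ℝ))⁻¹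

noncomputable def trm (K D : ℕ) (X : ℝ) (v c : ℕ) (b : ℤ) : ℂ :=
  (cf v c : ℂ) * CN v b * SU (b * (gg v : ℤ)) v (Fk K ((b : ℝ) / (b0 D v c : ℝ))) (4 * D * X / v)

/-- the coefficients of the main term -/
noncomputable def bet (h : ℕ) : ℂ :=
  (if h % 2 = 1 then (1 / 2 : ℂ) else 3 / 8) * ((ArithmeticFunction.moebius (rad h) : ℤ) : ℂ) * (1 - I) *
    ((Nat.totient (4 * rad h) : ℂ) / 2) * (rad h : ℂ) / (h : ℂ) ^ 3

/-- the sums of the main term -/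
noncomputable def SS (D : ℕ) (F : ℝ → ℂ) (Y : ℝ) : ℂ :=
  ((16 * D : ℕ) : ℂ)⁻¹ * ∑' h : ℕ, bet h * SU (D : ℤ) h F (4 * D * Y / (h : ℝ) ^ 2)

/-! ### the characters `(-m / u)` -/

theorem psi_mod {m : ℕ} (x : ℕ) (hx : Odd x) :
    jacobiSym (-(m : ℤ)) (x % (4 * m)) = jacobiSym (-(m : ℤ)) x := by
  rw [jacobiSym.mod_right (-(m : ℤ)) hx, Int.natAbs_neg, Int.natAbs_natCast]

theorem odd_mod {m : ℕ} (x : ℕ) : Odd (x % (4 * m)) ↔ Odd x := by
  rw [Nat.odd_iff, Nat.odd_iff]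
  have : (x % (4 * m)) % 2 = x % 2 := Nat.mod_mod_of_dvd x (Dvd.intro (2 * m) (by ring))
  rw [this]

/-- The character `u ↦ (-m / u)` for odd `u`, of modulus `4 m`. -/
noncomputable def psi (m : ℕ) [NeZero m] : DirichletCharacter ℂ (4 * m) where
  toFun a := if Odd a.val then ((jacobiSym (-(m : ℤ)) a.val : ℤ) : ℂ) else 0
  map_one' := by
    have : (1 : ZMod (4 * m)).val = 1 := by
      have h1 : 0 < m := Nat.pos_of_ne_zero (NeZero.ne m)
      have : Fact (1 < 4 * m) := ⟨by omega⟩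
      exact ZMod.val_one _
    rw [this]
    simp
  map_mul' a b := by
    have hm : 0 < m := Nat.pos_of_ne_zero (NeZero.ne m)
    have : NeZero (4 * m) := ⟨by omega⟩
    rw [ZMod.val_mul]
    by_cases ha : Odd a.val
    · by_cases hb : Odd b.val
      · have hab : Odd (a.val * b.val) := ha.mul hb
        rw [if_pos ha, if_pos hb, if_pos ((odd_mod _).2 hab), psi_mod _ hab,
          jacobiSym.mul_right' _ (by intro h; rw [h] at ha; simp at ha)
            (by intro h; rw [h] at hb; simp at hb)]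
        push_cast
        rfl
      · have hab : ¬ Odd ((a.val * b.val) % (4 * m)) := by
          rw [odd_mod, Nat.odd_mul]
          exact fun h => hb h.2
        rw [if_neg hb, if_neg hab, mul_zero]
    · have hab : ¬ Odd ((a.val * b.val) % (4 * m)) := by
        rw [odd_mod, Nat.odd_mul]
        exact fun h => ha h.1
      rw [if_neg ha, if_neg hab, zero_mul]
  map_nonunit' a ha := by
    have hm : 0 < m := Nat.pos_of_ne_zero (NeZero.ne m)
    have : NeZero (4 * m) := ⟨by omega⟩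
    have h : ¬ (a.val.Coprime (4 * m)) := fun h => ha ((ZMod.isUnit_iff_coprime a.val (4 * m)).2 h |> fun h' => by
      rwa [ZMod.natCast_zmod_val] at h')
    by_cases hodd : Odd a.val
    · rw [if_pos hodd]
      have h2 : ¬ a.val.Coprime m := fun h3 => h (Nat.Coprime.mul_right
        (Nat.Coprime.pow_right 2 hodd.coprime_two_right) h3)
      have h3 : a.val ≠ 0 := by intro h4; rw [h4] at hodd; simp at hodd
      have : NeZero a.val := ⟨h3⟩
      have : jacobiSym (-(m : ℤ)) a.val = 0 := by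
        rw [jacobiSym.eq_zero_iff_not_coprime, Int.neg_gcd, Int.gcd_natCast_natCast]
        exact fun h5 => h2 (Nat.coprime_comm.1 h5)
      rw [this]
      simp
    · rw [if_neg hodd]

/-- `L(s, ψ_{-m})` -/
noncomputable def Lpsi (m : ℕ) (s : ℂ) : ℂ :=
  if h : m = 0 then 0 else (have : NeZero m := ⟨h⟩; (psi m).LFunction s)

/-- no zero of any `L(s, ψ_{-m})` with real part larger than `σ` -/
def ZZ (σ : ℝ) : Prop := ∀ m : ℕ, 1 ≤ m → ∀ s : ℂ, σ < s.re → Lpsi m s ≠ 0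

/-- the analytic factor -/
noncomputable def EE (D : ℕ) (s : ℂ) : ℂ :=
  ∑' h : ℕ, bet h * (h : ℂ) ^ (-2 * s) *
    ∏ p ∈ h.primeFactors.filter (fun p => p ≠ 2), (1 - ((jacobiSym (-(D : ℤ)) p : ℤ) : ℂ) * (p : ℂ) ^ (-s))⁻¹

/-- The GRH of the problem. -/
def GRH : Prop := ∀ n : ℕ, Odd n → Squarefree n → ∀ s : ℂ, 1 / 2 < s.re → s.re < 1 → Lchi n s ≠ 0

/-- The (false) hypothesis: the bound of the conjecture for small shifts and `X ≥ X₀`. -/
def Bd (r a ε θ C₁ K₀ X₀ : ℝ) : Prop := ∀ X : ℝ, X₀ ≤ X → ∀ α β : ℂ, α.re = -a → β.re = r →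
  |α.im| ≤ C₁ * X ^ θ → |β.im| ≤ C₁ * X ^ θ → ‖S X α β - M1 X α β - M2 X α β‖ ≤ K₀ * X ^ (1 / 2 + ε)

end Pool.Agent.MP_291b24_nt.Sm
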