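import Pool.Agent.Lib.MP_291b24_nt.Sm.PartB

/-! The function `E(s)` -/

set_option autoImplicit false

open Complex MeasureTheory

namespace Pool.Agent.MP_291b24_nt.Sm

private theorem ea_jac_le (a : ℤ) (b : ℕ) : ‖((jacobiSym a b : ℤ) : ℂ)‖ ≤ 1 := by
  rcases jacobiSym.trichotomy a b with h | h | h <;> rw [h] <;> simp

private theorem ea_pow {p : ℕ} (hp : 3 ≤ p) {s : ℂ} (hs : 1 / 4 < s.re) : ‖(p : ℂ) ^ (-s)‖ ≤ 4 / 5 := by
  have hp' : (3 : ℝ) ≤ p := by exact_mod_cast hp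
  rw [Complex.norm_natCast_cpow_of_pos (by omega), neg_re, Real.rpow_neg (by positivity)]
  have h1 : (5 / 4 : ℝ) ≤ (p : ℝ) ^ s.re := by
    have h2 : (5 / 4 : ℝ) ≤ (3 : ℝ) ^ (1 / 4 : ℝ) := by
      have h3 : (5 / 4 : ℝ) = ((5 / 4 : ℝ) ^ (4 : ℝ)) ^ (1 / 4 : ℝ) := by
        rw [← Real.rpow_mul (by norm_num)]
        norm_num
      rw [h3]
      refine Real.rpow_le_rpow (by positivity) ?_ (by norm_num)
      have : (5 / 4 : ℝ) ^ (4 : ℝ) = (5 / 4 : ℝ) ^ (4 : ℕ) := by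
        rw [← Real.rpow_natCast]
        norm_num
      rw [this]
      norm_num
    calc (5 / 4 : ℝ) ≤ (3 : ℝ) ^ (1 / 4 : ℝ) := h2
      _ ≤ (p : ℝ) ^ (1 / 4 : ℝ) := Real.rpow_le_rpow (by norm_num) hp' (by norm_num)
      _ ≤ (p : ℝ) ^ s.re := Real.rpow_le_rpow_of_exponent_le (by linarith) hs.le
  have h4 : ((p : ℝ) ^ s.re)⁻¹ ≤ (5 / 4 : ℝ)⁻¹ := inv_anti₀ (by norm_num) h1
  norm_num at h4 ⊢
  exact h4

private theorem ea_fac (a : ℤ) {p : ℕ} (hp : 3 ≤ p) {s : ℂ} (hs : 1 / 4 < s.re) :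
    1 / 5 ≤ ‖(1 - ((jacobiSym a p : ℤ) : ℂ) * (p : ℂ) ^ (-s))‖ := by
  have h1 : ‖((jacobiSym a p : ℤ) : ℂ) * (p : ℂ) ^ (-s)‖ ≤ 4 / 5 := by
    rw [norm_mul]
    calc ‖((jacobiSym a p : ℤ) : ℂ)‖ * ‖(p : ℂ) ^ (-s)‖ ≤ 1 * (4 / 5) :=
          mul_le_mul (ea_jac_le a p) (ea_pow hp hs) (norm_nonneg _) (by norm_num)
      _ = 4 / 5 := by norm_num
  have h2 := norm_sub_norm_le (1 : ℂ) (((jacobiSym a p : ℤ) : ℂ) * (p : ℂ) ^ (-s))
  rw [norm_one] at h2
  linarith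

private theorem ea_mem {h p : ℕ} (hp : p ∈ h.primeFactors.filter (fun p => p ≠ 2)) : 3 ≤ p := by
  rw [Finset.mem_filter] at hp
  have h1 := (Nat.prime_of_mem_primeFactors hp.1).two_le
  have := hp.2
  omega

private theorem ea_omega {h : ℕ} (hh : h ≠ 0) : 2 ^ h.primeFactors.card ≤ h.divisors.card := by
  rw [Nat.card_divisors hh, ← Finset.prod_const]
  refine Finset.prod_le_prod' fun p hp => ?_
  have h1 : 0 < h.factorization p :=
    (Nat.prime_of_mem_primeFactors hp).factorization_pos_of_dvd hh (Nat.dvd_of_mem_primeFactors hp)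
  omega

/-- locally uniform convergence: `|bet h| ≤ 1/h`, `∏_{p ∣ h, p odd} |1 - ψ(p) p^(-s)|⁻¹ ≤ 5^(ω(h)) ≤ C_δ h^δ` for `Re s ≥ 1/4` -/
theorem differentiableOn_EE (D : ℕ) : DifferentiableOn ℂ (EE D) {s : ℂ | 1 / 4 < s.re} := by
  obtain ⟨C, hC, hd⟩ := card_divisors_le
  have hopen : IsOpen {s : ℂ | 1 / 4 < s.re} := isOpen_lt continuous_const Complex.continuous_re
  have hsum : Summable (fun h : ℕ => C ^ 3 * (h : ℝ) ^ (-(5 / 4) : ℝ)) :=
    (Real.summable_nat_rpow.2 (by norm_num)).mul_left _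
  unfold EE
  refine differentiableOn_tsum_of_summable_norm hsum (fun h => ?_) hopen (fun h s hs => ?_)
  · by_cases hh : h = 0
    · subst hh
      have e : ∀ s : ℂ, bet 0 * ((0 : ℕ) : ℂ) ^ (-2 * s) *
          ∏ p ∈ (0 : ℕ).primeFactors.filter (fun p => p ≠ 2), (1 - ((jacobiSym (-(D : ℤ)) p : ℤ) : ℂ) * (p : ℂ) ^ (-s))⁻¹ = 0 := by
        intro s
        have : bet 0 = 0 := by simp [bet]
        rw [this, zero_mul, zero_mul]
      simp_rw [e]
      exact differentiableOn_const _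
    · have hh' : (h : ℂ) ≠ 0 := by exact_mod_cast hh
      refine DifferentiableOn.mul (DifferentiableOn.mul (differentiableOn_const _) ?_) ?_
      · exact DifferentiableOn.const_cpow (differentiableOn_id.const_mul _) (Or.inl hh')
      · refine DifferentiableOn.fun_finsetProd fun p hp => ?_
        have hp3 := ea_mem hp
        have hp' : (p : ℂ) ≠ 0 := by
          have : p ≠ 0 := by omega
          exact_mod_cast this
        refine DifferentiableOn.inv ?_ fun s hs => ?_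
        · refine (differentiableOn_const _).sub ((differentiableOn_const _).mul ?_)
          exact DifferentiableOn.const_cpow differentiableOn_id.neg (Or.inl hp')
        · intro h0
          have h1 := ea_fac (-(D : ℤ)) hp3 hs
          rw [h0, norm_zero] at h1
          norm_num at h1
  · have hs' : 1 / 4 < s.re := hs
    by_cases hh : h = 0
    · subst hh
      have : bet 0 = 0 := by simp [bet]
      rw [this, zero_mul, zero_mul, norm_zero]
      positivity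
    have hpos : (1 : ℝ) ≤ h := by exact_mod_cast Nat.pos_of_ne_zero hh
    have hpos0 : (0 : ℝ) < h := by linarith
    rw [norm_mul, norm_mul]
    have hb := norm_bet_le h
    have hp1 : ‖(h : ℂ) ^ (-2 * s)‖ ≤ (h : ℝ) ^ (-(1 / 2) : ℝ) := by
      rw [Complex.norm_natCast_cpow_of_pos (Nat.pos_of_ne_zero hh)]
      refine Real.rpow_le_rpow_of_exponent_le hpos ?_
      have : (-2 * s).re = -2 * s.re := by simp
      rw [this]
      linarith
    have hprod : ‖∏ p ∈ h.primeFactors.filter (fun p => p ≠ 2), (1 - ((jacobiSym (-(D : ℤ)) p : ℤ) : ℂ) * (p : ℂ) ^ (-s))⁻¹‖ ≤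
        (h.divisors.card : ℝ) ^ 3 := by
      rw [norm_prod]
      have h1 : ∏ p ∈ h.primeFactors.filter (fun p => p ≠ 2), ‖(1 - ((jacobiSym (-(D : ℤ)) p : ℤ) : ℂ) * (p : ℂ) ^ (-s))⁻¹‖ ≤
          ∏ p ∈ h.primeFactors.filter (fun p => p ≠ 2), (8 : ℝ) := by
        refine Finset.prod_le_prod (fun p _ => norm_nonneg _) fun p hp => ?_
        rw [norm_inv]
        have h2 := ea_fac (-(D : ℤ)) (ea_mem hp) hs'
        have h3 : ‖(1 - ((jacobiSym (-(D : ℤ)) p : ℤ) : ℂ) * (p : ℂ) ^ (-s))‖⁻¹ ≤ (1 / 5 : ℝ)⁻¹ := inv_anti₀ (by norm_num) h2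
        refine h3.trans ?_
        norm_num
      refine h1.trans ?_
      rw [Finset.prod_const]
      have h4 : (h.primeFactors.filter (fun p => p ≠ 2)).card ≤ h.primeFactors.card := Finset.card_filter_le _ _
      calc (8 : ℝ) ^ (h.primeFactors.filter (fun p => p ≠ 2)).card ≤ 8 ^ h.primeFactors.card :=
            pow_le_pow_right₀ (by norm_num) h4
        _ = ((2 : ℝ) ^ h.primeFactors.card) ^ 3 := by
            rw [← pow_mul, mul_comm, pow_mul]
            norm_num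
        _ ≤ (h.divisors.card : ℝ) ^ 3 := by
            refine pow_le_pow_left₀ (by positivity) ?_ 3
            exact_mod_cast ea_omega hh
    have hd3 : (h.divisors.card : ℝ) ^ 3 ≤ C ^ 3 * (h : ℝ) ^ (3 / 64 : ℝ) := by
      have h1 := pow_le_pow_left₀ (Nat.cast_nonneg _) (hd h (Nat.pos_of_ne_zero hh)) 3
      have h2 : (C * (h : ℝ) ^ (1 / 64 : ℝ)) ^ 3 = C ^ 3 * (h : ℝ) ^ (3 / 64 : ℝ) := by
        rw [mul_pow, ← Real.rpow_natCast ((h : ℝ) ^ (1 / 64 : ℝ)), ← Real.rpow_mul hpos0.le]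
        norm_num
      rw [h2] at h1
      exact h1
    have hh1 : (1 / (h : ℝ)) = (h : ℝ) ^ (-1 : ℝ) := by rw [Real.rpow_neg_one, one_div]
    calc ‖bet h‖ * ‖(h : ℂ) ^ (-2 * s)‖ *
          ‖∏ p ∈ h.primeFactors.filter (fun p => p ≠ 2), (1 - ((jacobiSym (-(D : ℤ)) p : ℤ) : ℂ) * (p : ℂ) ^ (-s))⁻¹‖
        ≤ (1 / h) * (h : ℝ) ^ (-(1 / 2) : ℝ) * (C ^ 3 * (h : ℝ) ^ (3 / 64 : ℝ)) := by
          refine mul_le_mul (mul_le_mul hb hp1 (norm_nonneg _) (by positivity)) (hprod.trans hd3) (norm_nonneg _) (by positivity)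
      _ = C ^ 3 * ((h : ℝ) ^ (-1 : ℝ) * (h : ℝ) ^ (-(1 / 2) : ℝ) * (h : ℝ) ^ (3 / 64 : ℝ)) := by rw [hh1]; ring
      _ = C ^ 3 * (h : ℝ) ^ (-1 + -(1 / 2) + 3 / 64 : ℝ) := by rw [← Real.rpow_add hpos0, ← Real.rpow_add hpos0]
      _ ≤ C ^ 3 * (h : ℝ) ^ (-(5 / 4) : ℝ) := by
          refine mul_le_mul_of_nonneg_left ?_ (by positivity)
          exact Real.rpow_le_rpow_of_exponent_le hpos (by norm_num)

private theorem ea_psi (m : ℕ) [NeZero m] (u : ℕ) :
    psi m (u : ZMod (4 * m)) = if Odd u then ((jacobiSym (-(m : ℤ)) u : ℤ) : ℂ) else 0 := by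
  have e : psi m (u : ZMod (4 * m)) = if Odd (u : ZMod (4 * m)).val then ((jacobiSym (-(m : ℤ)) (u : ZMod (4 * m)).val : ℤ) : ℂ) else 0 := rfl
  rw [e, ZMod.val_natCast]
  by_cases h : Odd u
  · rw [if_pos h, if_pos ((odd_mod _).2 h), psi_mod _ h]
  · rw [if_neg h, if_neg (fun h' => h ((odd_mod _).1 h'))]

private theorem ea_level {D h : ℕ} [NeZero D] [NeZero (D * h ^ 2)] (hdvd : 4 * D ∣ 4 * (D * h ^ 2)) :
    DirichletCharacter.changeLevel hdvd (psi D) = psi (D * h ^ 2) := by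
  refine MulChar.ext fun a => ?_
  rw [DirichletCharacter.changeLevel_eq_cast_of_dvd]
  have hN : 0 < 4 * (D * h ^ 2) := by
    have := Nat.pos_of_ne_zero (NeZero.ne (D * h ^ 2))
    omega
  have : NeZero (4 * (D * h ^ 2)) := ⟨hN.ne'⟩
  set u : ℕ := (a : ZMod (4 * (D * h ^ 2))).val with hu
  have hau : (a : ZMod (4 * (D * h ^ 2))) = (u : ZMod (4 * (D * h ^ 2))) := (ZMod.natCast_zmod_val _).symm
  have hcop : u.Coprime (4 * (D * h ^ 2)) := ZMod.val_coe_unit_coprime a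
  have hodd : Odd u := by
    rw [Nat.odd_iff]
    by_contra h0
    have h1 : 2 ∣ u := by omega
    have h2 : 2 ∣ 4 * (D * h ^ 2) := Dvd.intro (2 * (D * h ^ 2)) (by ring)
    have h3 := Nat.dvd_gcd h1 h2
    rw [Nat.Coprime] at hcop
    rw [hcop] at h3
    omega
  have hch : u.Coprime h := by
    have h1 : h ∣ 4 * (D * h ^ 2) := Dvd.intro (4 * D * h) (by ring)
    exact Nat.Coprime.coprime_dvd_right h1 hcop
  have hcast : ((a : ZMod (4 * (D * h ^ 2))).cast : ZMod (4 * D)) = (u : ZMod (4 * D)) := by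
    rw [hu, ZMod.natCast_val]
  rw [hcast, ea_psi, hau, ea_psi, if_pos hodd, if_pos hodd]
  congr 1
  have h2 : (-((D * h ^ 2 : ℕ) : ℤ)) = (-(D : ℤ)) * ((h : ℕ) : ℤ) ^ 2 := by push_cast; ring
  rw [h2, jacobiSym.mul_left, jacobiSym.sq_one' (by rw [Int.gcd_natCast_natCast]; exact hch.symm), mul_one]

/-- `∑_h bet h h^(-2s) ∑_u [u odd, (u,h) = 1] μ(u) ψ(u) u^(-s) = E(s) / L(s, ψ_{-D})` for `Re s > 1`: `hasSum_mu_psi` with `v = h` and
`L(s, ψ_{-D h²}) = L(s, ψ_{-D}) ∏_{p ∣ h} (1 - ψ_{-D}(p) p^(-s))` (`p` odd) -/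
theorem Lpsi_mul_sq {D h : ℕ} (hD : 1 ≤ D) (hh : 1 ≤ h) {s : ℂ} (hs : 1 < s.re) :
    (Lpsi (D * h ^ 2) s)⁻¹ = (Lpsi D s)⁻¹ *
      ∏ p ∈ h.primeFactors.filter (fun p => p ≠ 2), (1 - ((jacobiSym (-(D : ℤ)) p : ℤ) : ℂ) * (p : ℂ) ^ (-s))⁻¹ := by
  have hD0 : NeZero D := ⟨by omega⟩
  have hDh : NeZero (D * h ^ 2) := ⟨by positivity⟩
  have hN0 : NeZero (4 * (D * h ^ 2)) := ⟨by positivity⟩
  have hdvd : 4 * D ∣ 4 * (D * h ^ 2) := Nat.mul_dvd_mul_left 4 (Dvd.intro _ rfl)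
  have hs1 : s ≠ 1 := by
    rintro rfl
    simp at hs
  rw [Lpsi_eq, Lpsi_eq, ← ea_level hdvd, DirichletCharacter.LFunction_changeLevel hdvd (psi D) (Or.inr hs1), mul_inv,
    Finset.prod_inv_distrib]
  congr 2
  symm
  have hsub : h.primeFactors.filter (fun p => p ≠ 2) ⊆ (4 * (D * h ^ 2)).primeFactors := by
    intro p hp
    rw [Finset.mem_filter] at hp
    refine Nat.mem_primeFactors.2 ⟨Nat.prime_of_mem_primeFactors hp.1, ?_, hN0.out⟩
    exact (Nat.dvd_of_mem_primeFactors hp.1).trans (Dvd.intro (4 * D * h) (by ring))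
  rw [← Finset.prod_subset hsub]
  · refine Finset.prod_congr rfl fun p hp => ?_
    have hodd : Odd p := (Nat.prime_of_mem_primeFactors (Finset.mem_filter.1 hp).1).odd_of_ne_two (Finset.mem_filter.1 hp).2
    rw [ea_psi, if_pos hodd]
  · intro p hp hp'
    have hpp := Nat.prime_of_mem_primeFactors hp
    rw [ea_psi]
    by_cases hodd : Odd p
    · rw [if_pos hodd]
      have hp2 : p ≠ 2 := by
        rintro rfl
        exact absurd hodd (by decide)
      have hnh : ¬ p ∣ h := fun h1 => hp' (Finset.mem_filter.2 ⟨Nat.mem_primeFactors.2 ⟨hpp, h1, by omega⟩, hp2⟩)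
      have h1 : p ∣ 4 * (D * h ^ 2) := Nat.dvd_of_mem_primeFactors hp
      have h2 : p ∣ D := by
        rcases (hpp.dvd_mul).1 h1 with h3 | h3
        · exfalso
          have : (4 : ℕ) = 2 ^ 2 := by norm_num
          rw [this] at h3
          exact hp2 ((Nat.prime_dvd_prime_iff_eq hpp Nat.prime_two).1 (hpp.dvd_of_dvd_pow h3))
        · rcases (hpp.dvd_mul).1 h3 with h4 | h4
          · exact h4
          · exact absurd (hpp.dvd_of_dvd_pow h4) hnh
      have : NeZero p := ⟨hpp.ne_zero⟩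
      have h5 : jacobiSym (-(D : ℤ)) p = 0 := by
        rw [jacobiSym.eq_zero_iff_not_coprime, Int.neg_gcd, Int.gcd_natCast_natCast]
        intro h6
        exact hpp.one_lt.ne' (Nat.dvd_one.1 (h6 ▸ Nat.dvd_gcd h2 dvd_rfl))
      rw [h5]
      simp
    · rw [if_neg hodd]
      simp

end Pool.Agent.MP_291b24_nt.Sm
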