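import Pool.Agent.Lib.MP_291b24_nt.Sm.PartB

/-! `E(s) ≠ 0` -/

set_option autoImplicit false

open Complex MeasureTheory

namespace Pool.Agent.MP_291b24_nt.Sm

private noncomputable def eeP (D : ℕ) (s : ℂ) (p : ℕ) : ℂ :=
  (1 - ((jacobiSym (-(D : ℤ)) p : ℤ) : ℂ) * (p : ℂ) ^ (-s))⁻¹

private noncomputable def eeA (h : ℕ) : ℂ :=
  (if h % 2 = 1 then 1 else 3 / 2) * ((ArithmeticFunction.moebius (rad h) : ℤ) : ℂ) *
    ((Nat.totient (rad h) : ℕ) : ℂ) * (rad h : ℂ) / (h : ℂ) ^ 3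

private noncomputable def eeF (D : ℕ) (s : ℂ) (h : ℕ) : ℂ :=
  eeA h * (h : ℂ) ^ (-2 * s) * ∏ p ∈ h.primeFactors.filter (fun p => p ≠ 2), eeP D s p

private theorem ee_bet (h : ℕ) : bet h = (1 - I) / 2 * eeA h := by
  rcases Nat.eq_zero_or_pos h with rfl | hh
  · simp [bet, eeA]
  unfold bet eeA
  by_cases h2 : h % 2 = 1
  · rw [if_pos h2, if_pos h2]
    have h3 : Nat.totient (4 * rad h) = 2 * Nat.totient (rad h) := by
      have h5 : Odd (rad h) := Odd.of_dvd_nat (Nat.odd_iff.2 h2) (rad_dvd h)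
      have h4 : Nat.Coprime (2 ^ 2) (rad h) :=
        Nat.Coprime.pow_left 2 (Nat.coprime_two_left.2 h5)
      rw [show 4 * rad h = 2 ^ 2 * rad h by ring, Nat.totient_mul h4]
      rfl
    rw [h3]
    push_cast
    ring
  · rw [if_neg h2, if_neg h2]
    have h3 : Nat.totient (4 * rad h) = 4 * Nat.totient (rad h) := by
      have h4 : 2 ∣ rad h := by
        unfold rad
        exact Finset.dvd_prod_of_mem (fun p => p)
          (Nat.mem_primeFactors.2 ⟨Nat.prime_two, by omega, by omega⟩)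
      rw [show 4 * rad h = 2 * (2 * rad h) by ring,
        Nat.totient_mul_of_prime_of_dvd Nat.prime_two (Dvd.intro _ rfl),
        Nat.totient_mul_of_prime_of_dvd Nat.prime_two h4]
      ring
    rw [h3]
    push_cast
    ring

private theorem ee_zero (D : ℕ) (s : ℂ) : eeF D s 0 = 0 := by
  simp [eeF, eeA]

private theorem ee_one (D : ℕ) (s : ℂ) : eeF D s 1 = 1 := by
  have h1 : rad 1 = 1 := by simp [rad]
  simp [eeF, eeA, h1]

private theorem ee_par {m n : ℕ} (h : m.Coprime n) :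
    (if (m * n) % 2 = 1 then (1 : ℂ) else 3 / 2) =
      (if m % 2 = 1 then (1 : ℂ) else 3 / 2) * (if n % 2 = 1 then (1 : ℂ) else 3 / 2) := by
  have h1 := Nat.mul_mod m n 2
  rcases Nat.mod_two_eq_zero_or_one m with hm | hm
  · rcases Nat.mod_two_eq_zero_or_one n with hn | hn
    · exfalso
      have := Nat.dvd_gcd (Nat.dvd_of_mod_eq_zero hm) (Nat.dvd_of_mod_eq_zero hn)
      rw [Nat.Coprime] at h
      rw [h] at this
      omega
    · rw [hm, hn] at h1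
      simp [h1, hm, hn]
  · rcases Nat.mod_two_eq_zero_or_one n with hn | hn
    · rw [hm, hn] at h1
      simp [h1, hm, hn]
    · rw [hm, hn] at h1
      simp [h1, hm, hn]

private theorem ee_mul (D : ℕ) (s : ℂ) {m n : ℕ} (h : m.Coprime n) :
    eeF D s (m * n) = eeF D s m * eeF D s n := by
  classical
  rcases Nat.eq_zero_or_pos m with rfl | hm
  · rw [zero_mul, ee_zero, zero_mul]
  rcases Nat.eq_zero_or_pos n with rfl | hn
  · rw [mul_zero, ee_zero, mul_zero]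
  have hr : (rad m).Coprime (rad n) :=
    Nat.Coprime.of_dvd (rad_dvd m) (rad_dvd n) h
  have h1 : ((m * n : ℕ) : ℂ) ^ (-2 * s) = (m : ℂ) ^ (-2 * s) * (n : ℂ) ^ (-2 * s) := by
    rw [Nat.cast_mul, natCast_mul_natCast_cpow]
  have h2 : ∏ p ∈ (m * n).primeFactors.filter (fun p => p ≠ 2), eeP D s p =
      (∏ p ∈ m.primeFactors.filter (fun p => p ≠ 2), eeP D s p) *
        ∏ p ∈ n.primeFactors.filter (fun p => p ≠ 2), eeP D s p := by
    rw [Nat.primeFactors_mul hm.ne' hn.ne', Finset.filter_union, Finset.prod_union]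
    exact Finset.disjoint_filter_filter h.disjoint_primeFactors
  unfold eeF
  rw [h1, h2]
  unfold eeA
  rw [rad_mul h, ee_par h, Nat.totient_mul hr,
    ArithmeticFunction.isMultiplicative_moebius.map_mul_of_coprime hr]
  push_cast
  ring

/-! ### sizes -/

private theorem ee_psi (D p : ℕ) : ‖((jacobiSym (-(D : ℤ)) p : ℤ) : ℂ)‖ ≤ 1 := by
  rcases jacobiSym.trichotomy (-(D : ℤ)) p with h | h | h <;> rw [h] <;> norm_num

private theorem ee_cpow {s : ℂ} (hs : 1 / 2 ≤ s.re) {p : ℕ} (hp : 1 ≤ p) :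
    ‖(p : ℂ) ^ (-s)‖ ≤ (Real.sqrt p)⁻¹ := by
  rw [norm_natCast_cpow_of_pos (by omega), neg_re, Real.sqrt_eq_rpow,
    ← Real.rpow_neg (Nat.cast_nonneg p)]
  exact Real.rpow_le_rpow_of_exponent_le (by exact_mod_cast hp) (by linarith)

private theorem ee_P_le (D : ℕ) {s : ℂ} (hs : 1 / 2 ≤ s.re) {p : ℕ} (hp : 3 ≤ p) :
    ‖eeP D s p‖ ≤ (1 - (Real.sqrt p)⁻¹)⁻¹ ∧ (Real.sqrt p)⁻¹ ≤ 7 / 12 := by
  have h1 := ee_cpow hs (p := p) (by omega)
  have h3 : (3 : ℝ) ≤ p := by exact_mod_cast hp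
  have h2 : (Real.sqrt p)⁻¹ ≤ 7 / 12 := by
    have h4 : (12 / 7 : ℝ) ≤ Real.sqrt p := by
      apply Real.le_sqrt_of_sq_le
      norm_num
      linarith
    calc (Real.sqrt p)⁻¹ ≤ (12 / 7 : ℝ)⁻¹ := inv_anti₀ (by norm_num) h4
      _ = 7 / 12 := by norm_num
  refine ⟨?_, h2⟩
  unfold eeP
  rw [norm_inv]
  refine inv_anti₀ (by linarith) ?_
  have h5 : ‖((jacobiSym (-(D : ℤ)) p : ℤ) : ℂ) * (p : ℂ) ^ (-s)‖ ≤ (Real.sqrt p)⁻¹ := by
    rw [norm_mul]
    calc _ ≤ 1 * (Real.sqrt p)⁻¹ := mul_le_mul (ee_psi D p) h1 (norm_nonneg _) (by norm_num)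
      _ = _ := one_mul _
  have h6 := norm_sub_norm_le (1 : ℂ) (((jacobiSym (-(D : ℤ)) p : ℤ) : ℂ) * (p : ℂ) ^ (-s))
  rw [norm_one] at h6
  linarith

private theorem ee_P_le1 (D : ℕ) {s : ℂ} (hs : 1 / 2 ≤ s.re) {p : ℕ} (hp : 3 ≤ p) :
    ‖eeP D s p‖ ≤ 12 / 5 := by
  obtain ⟨h1, h2⟩ := ee_P_le D hs hp
  refine h1.trans ?_
  calc (1 - (Real.sqrt p)⁻¹)⁻¹ ≤ (5 / 12 : ℝ)⁻¹ := inv_anti₀ (by norm_num) (by linarith)
    _ = 12 / 5 := by norm_num

private theorem ee_P_le2 (D : ℕ) {s : ℂ} (hs : 1 / 2 ≤ s.re) {p : ℕ} (hp : 3 ≤ p) :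
    ‖eeP D s p‖ ≤ Real.sqrt p * (if p = 3 then 2 else 1) := by
  by_cases h3 : p = 3
  · rw [if_pos h3]
    refine (ee_P_le1 D hs hp).trans ?_
    have h4 : (6 / 5 : ℝ) ≤ Real.sqrt p := by
      apply Real.le_sqrt_of_sq_le
      rw [h3]
      norm_num
    linarith
  · rw [if_neg h3, mul_one]
    have hp4 : (4 : ℝ) ≤ p := by
      have : 4 ≤ p := by omega
      exact_mod_cast this
    have h4 : (2 : ℝ) ≤ Real.sqrt p := by
      apply Real.le_sqrt_of_sq_le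
      rw [show (2 : ℝ) ^ 2 = 4 by norm_num]
      exact hp4
    refine (ee_P_le D hs hp).1.trans ?_
    have h5 : (Real.sqrt p)⁻¹ ≤ 1 / 2 := by
      calc (Real.sqrt p)⁻¹ ≤ (2 : ℝ)⁻¹ := inv_anti₀ (by norm_num) h4
        _ = 1 / 2 := by norm_num
    calc (1 - (Real.sqrt p)⁻¹)⁻¹ ≤ (1 / 2 : ℝ)⁻¹ := inv_anti₀ (by norm_num) (by linarith)
      _ = 2 := by norm_num
      _ ≤ _ := h4

private theorem ee_prod_le (D : ℕ) {s : ℂ} (hs : 1 / 2 ≤ s.re) {h : ℕ} (hh : h ≠ 0) :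
    ‖∏ p ∈ h.primeFactors.filter (fun p => p ≠ 2), eeP D s p‖ ≤ 2 * Real.sqrt h := by
  classical
  rw [norm_prod]
  set S := h.primeFactors.filter (fun p => p ≠ 2) with hS
  have hS3 : ∀ p ∈ S, 3 ≤ p := by
    intro p hp
    rw [hS, Finset.mem_filter, Nat.mem_primeFactors] at hp
    have := hp.1.1.two_le
    have := hp.2
    omega
  have h1 : ∏ p ∈ S, ‖eeP D s p‖ ≤ ∏ p ∈ S, (Real.sqrt p * (if p = 3 then 2 else 1)) :=
    Finset.prod_le_prod (fun p _ => norm_nonneg _) fun p hp => ee_P_le2 D hs (hS3 p hp)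
  refine h1.trans ?_
  rw [Finset.prod_mul_distrib]
  have h2 : ∏ p ∈ S, (if p = 3 then (2 : ℝ) else 1) ≤ 2 := by
    rw [Finset.prod_ite_eq' S 3 (fun _ => (2 : ℝ))]
    split_ifs <;> norm_num
  have h3 : ∏ p ∈ S, Real.sqrt p ≤ Real.sqrt h := by
    have h4 : ∏ p ∈ S, Real.sqrt p = Real.sqrt ((∏ p ∈ S, p : ℕ) : ℝ) := by
      clear h1 h2 hS3
      clear_value S
      clear hS
      induction S using Finset.induction_on with
      | empty => simp
      | insert a S ha ih =>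
        rw [Finset.prod_insert ha, Finset.prod_insert ha, ih, Nat.cast_mul,
          Real.sqrt_mul (Nat.cast_nonneg a)]
    rw [h4]
    apply Real.sqrt_le_sqrt
    have h5 : (∏ p ∈ S, p) ∣ rad h := Finset.prod_dvd_prod_of_subset _ _ _ (Finset.filter_subset _ _)
    have h6 : (∏ p ∈ S, p) ≤ h := Nat.le_of_dvd (Nat.pos_of_ne_zero hh) (h5.trans (rad_dvd h))
    exact_mod_cast h6
  have h7 : 0 ≤ ∏ p ∈ S, (if p = 3 then (2 : ℝ) else 1) :=
    Finset.prod_nonneg fun p _ => by split_ifs <;> norm_num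
  calc _ ≤ Real.sqrt h * 2 := mul_le_mul h3 h2 h7 (Real.sqrt_nonneg _)
    _ = _ := mul_comm _ _

private theorem ee_A_le {h : ℕ} (hh : h ≠ 0) : ‖eeA h‖ ≤ 3 / 2 * (h : ℝ)⁻¹ := by
  have hh0 : (0 : ℝ) < h := by exact_mod_cast Nat.pos_of_ne_zero hh
  have hr : (rad h : ℝ) ≤ h := by
    exact_mod_cast Nat.le_of_dvd (Nat.pos_of_ne_zero hh) (rad_dvd h)
  have ht : ((Nat.totient (rad h) : ℕ) : ℝ) ≤ h := by
    have : ((Nat.totient (rad h) : ℕ) : ℝ) ≤ rad h := by exact_mod_cast Nat.totient_le _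
    linarith
  unfold eeA
  rw [norm_div, norm_mul, norm_mul, norm_mul, norm_pow, Complex.norm_natCast,
    Complex.norm_natCast, Complex.norm_natCast, Complex.norm_intCast]
  have h1 : ‖(if h % 2 = 1 then (1 : ℂ) else 3 / 2)‖ ≤ 3 / 2 := by
    split_ifs <;> norm_num
  have h2 : |((ArithmeticFunction.moebius (rad h) : ℤ) : ℝ)| ≤ 1 := by
    exact_mod_cast ArithmeticFunction.abs_moebius_le_one
  rw [div_le_iff₀ (by positivity)]
  calc _ ≤ (3 / 2 : ℝ) * 1 * h * h := by gcongr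
    _ = _ := by
      field_simp

private theorem ee_F_le (D : ℕ) {s : ℂ} (hs : 1 / 2 ≤ s.re) (h : ℕ) :
    ‖eeF D s h‖ ≤ 3 * (h : ℝ) ^ (-(3 / 2) : ℝ) := by
  rcases Nat.eq_zero_or_pos h with rfl | hh
  · rw [ee_zero, norm_zero]
    positivity
  have hh0 : (0 : ℝ) < h := by exact_mod_cast hh
  have hh1 : (1 : ℝ) ≤ h := by exact_mod_cast hh
  unfold eeF
  rw [norm_mul, norm_mul]
  have h1 := ee_A_le hh.ne'
  have h2 := ee_prod_le D hs hh.ne'
  have h3 : ‖(h : ℂ) ^ (-2 * s)‖ ≤ (h : ℝ)⁻¹ := by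
    rw [norm_natCast_cpow_of_pos hh]
    have h4 : (-2 * s).re = -2 * s.re := by
      simp
    rw [h4, ← Real.rpow_neg_one (h : ℝ)]
    exact Real.rpow_le_rpow_of_exponent_le hh1 (by linarith)
  calc _ ≤ (3 / 2 * (h : ℝ)⁻¹) * (h : ℝ)⁻¹ * (2 * Real.sqrt h) := by
        refine mul_le_mul (mul_le_mul h1 h3 (norm_nonneg _) (by positivity)) h2 (norm_nonneg _)
          (by positivity)
    _ = 3 * ((h : ℝ)⁻¹ * (h : ℝ)⁻¹ * Real.sqrt h) := by ring
    _ = _ := by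
        have h5 : (h : ℝ)⁻¹ = (h : ℝ) ^ (-1 : ℝ) := (Real.rpow_neg_one (h : ℝ)).symm
        rw [Real.sqrt_eq_rpow, h5, ← Real.rpow_add hh0, ← Real.rpow_add hh0]
        norm_num

private theorem ee_summable (D : ℕ) {s : ℂ} (hs : 1 / 2 ≤ s.re) :
    Summable (fun h => ‖eeF D s h‖) := by
  refine Summable.of_nonneg_of_le (fun h => norm_nonneg _) (ee_F_le D hs) ?_
  exact (Real.summable_nat_rpow.2 (by norm_num)).mul_left 3

/-! ### the Euler factors -/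

private noncomputable def eeC (D : ℕ) (s : ℂ) (p : ℕ) : ℂ :=
  -((if p = 2 then 3 / 2 else eeP D s p) * (((p - 1 : ℕ) : ℂ) * (p : ℂ)))

private noncomputable def eeX (s : ℂ) (p : ℕ) : ℂ := (p : ℂ) ^ (-2 * s) / (p : ℂ) ^ 3

private theorem ee_pow (D : ℕ) (s : ℂ) {p : ℕ} (hp : p.Prime) (j : ℕ) :
    eeF D s (p ^ (j + 1)) = eeC D s p * eeX s p ^ (j + 1) := by
  classical
  have hr : rad (p ^ (j + 1)) = p := by
    unfold rad
    rw [Nat.primeFactors_prime_pow (Nat.succ_ne_zero j) hp, Finset.prod_singleton]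
  have h1 : ((p ^ (j + 1) : ℕ) : ℂ) ^ (-2 * s) = ((p : ℂ) ^ (-2 * s)) ^ (j + 1) := by
    rw [← cpow_nat_mul, mul_comm ((j + 1 : ℕ) : ℂ), mul_comm (-2 * s), natCast_cpow_natCast_mul]
    push_cast
    rfl
  unfold eeF eeA
  rw [hr, h1, Nat.primeFactors_prime_pow (Nat.succ_ne_zero j) hp, Nat.totient_prime hp,
    ArithmeticFunction.moebius_apply_prime hp]
  unfold eeC eeX
  by_cases h2 : p = 2
  · have h3 : (p ^ (j + 1)) % 2 ≠ 1 := by
      rw [h2, pow_succ, Nat.mul_mod_left]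
      decide
    have h4 : ({p} : Finset ℕ).filter (fun p => p ≠ 2) = ∅ := by
      rw [Finset.filter_singleton, if_neg (by rw [h2]; simp)]
    rw [if_neg h3, if_pos h2, h4, Finset.prod_empty]
    push_cast
    ring
  · have h3 : (p ^ (j + 1)) % 2 = 1 := by
      have := (hp.odd_of_ne_two h2).pow (n := j + 1)
      exact Nat.odd_iff.1 this
    have h4 : ({p} : Finset ℕ).filter (fun p => p ≠ 2) = {p} := by
      rw [Finset.filter_singleton, if_pos h2]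
    rw [if_pos h3, if_neg h2, h4, Finset.prod_singleton]
    push_cast
    ring

private theorem ee_X_le {s : ℂ} (hs : 1 / 2 ≤ s.re) {p : ℕ} (hp : 1 ≤ p) :
    ‖eeX s p‖ ≤ ((p : ℝ) ^ 4)⁻¹ := by
  have hp0 : (0 : ℝ) < p := by exact_mod_cast hp
  have hp1 : (1 : ℝ) ≤ p := by exact_mod_cast hp
  unfold eeX
  rw [norm_div, norm_pow, Complex.norm_natCast, norm_natCast_cpow_of_pos hp]
  have h4 : (-2 * s).re = -2 * s.re := by
    simp
  have h5 : (p : ℝ) ^ (-2 * s).re ≤ (p : ℝ)⁻¹ := by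
    rw [h4, ← Real.rpow_neg_one (p : ℝ)]
    exact Real.rpow_le_rpow_of_exponent_le hp1 (by linarith)
  calc _ ≤ (p : ℝ)⁻¹ / (p : ℝ) ^ 3 := by gcongr
    _ = _ := by
      field_simp

private noncomputable def eeE (D : ℕ) (s : ℂ) (p : ℕ) : ℂ :=
  eeC D s p * (eeX s p * (1 - eeX s p)⁻¹)

private theorem ee_X_lt {s : ℂ} (hs : 1 / 2 ≤ s.re) {p : ℕ} (hp : 2 ≤ p) :
    ‖eeX s p‖ ≤ 1 / 16 := by
  refine (ee_X_le hs (by omega)).trans ?_
  have hp2 : (2 : ℝ) ≤ p := by exact_mod_cast hp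
  have h1 : (16 : ℝ) ≤ (p : ℝ) ^ 4 := by
    calc (16 : ℝ) = 2 ^ 4 := by norm_num
      _ ≤ _ := pow_le_pow_left₀ (by norm_num) hp2 4
  calc ((p : ℝ) ^ 4)⁻¹ ≤ (16 : ℝ)⁻¹ := inv_anti₀ (by norm_num) h1
    _ = 1 / 16 := by norm_num

private theorem ee_factor (D : ℕ) {s : ℂ} (hs : 1 / 2 ≤ s.re) {p : ℕ} (hp : p.Prime) :
    ∑' e, eeF D s (p ^ e) = 1 + eeE D s p := by
  have hx : ‖eeX s p‖ < 1 := (ee_X_lt hs hp.two_le).trans_lt (by norm_num)
  have h1 : Summable (fun e => eeF D s (p ^ e)) :=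
    (ee_summable D hs).of_norm.comp_injective (Nat.pow_right_injective hp.two_le)
  rw [h1.tsum_eq_zero_add, pow_zero, ee_one]
  congr 1
  rw [tsum_congr fun j => ee_pow D s hp j, tsum_mul_left]
  unfold eeE
  congr 1
  rw [tsum_congr fun j => pow_succ' (eeX s p) j, tsum_mul_left, tsum_geometric_of_norm_lt_one hx]

private theorem ee_E_le (D : ℕ) {s : ℂ} (hs : 1 / 2 ≤ s.re) {p : ℕ} (hp : p.Prime) :
    ‖eeE D s p‖ ≤ 3 * ((p : ℝ) ^ 2)⁻¹ := by
  have hp0 : (0 : ℝ) < p := by exact_mod_cast hp.pos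
  have h1 := ee_X_le hs hp.one_le
  have h2 := ee_X_lt hs hp.two_le
  have h3 : ‖(1 - eeX s p)⁻¹‖ ≤ 16 / 15 := by
    rw [norm_inv]
    have h4 := norm_sub_norm_le (1 : ℂ) (eeX s p)
    rw [norm_one] at h4
    calc (‖1 - eeX s p‖)⁻¹ ≤ (15 / 16 : ℝ)⁻¹ := inv_anti₀ (by norm_num) (by linarith)
      _ = 16 / 15 := by norm_num
  have h5 : ‖eeC D s p‖ ≤ 12 / 5 * (p : ℝ) ^ 2 := by
    unfold eeC
    rw [norm_neg, norm_mul, norm_mul, Complex.norm_natCast, Complex.norm_natCast]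
    have h6 : ‖(if p = 2 then 3 / 2 else eeP D s p)‖ ≤ 12 / 5 := by
      split_ifs with h7
      · norm_num
      · refine ee_P_le1 D hs ?_
        have := hp.two_le
        omega
    have h8 : ((p - 1 : ℕ) : ℝ) ≤ p := by exact_mod_cast Nat.sub_le p 1
    calc _ ≤ (12 / 5 : ℝ) * ((p : ℝ) * p) := by gcongr
      _ = _ := by ring
  unfold eeE
  rw [norm_mul, norm_mul]
  calc _ ≤ (12 / 5 * (p : ℝ) ^ 2) * (((p : ℝ) ^ 4)⁻¹ * (16 / 15)) := by gcongr
    _ = 64 / 25 * ((p : ℝ) ^ 2)⁻¹ := by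
        field_simp
        try norm_num
    _ ≤ _ := by
        have : 0 ≤ ((p : ℝ) ^ 2)⁻¹ := by positivity
        linarith

/-- The summand, divided by its value `(1 - i)/2` at `h = 1`, is a multiplicative function of `h`: at `2^j` it is `-3 (8 · 4^s)^(-j)`, at `p^j`
it is `-(p - 1) p (p^(3+2s))^(-j) (1 - ψ(p) p^(-s))⁻¹`. Euler product (`EulerProduct.eulerProduct_hasProd`), the factors are `1 + e_p` with
`|e_2| ≤ 1/5`, `|e_p| ≤ 3 p^(-2) ≤ 1/3`, so the product is `exp (∑ log (1 + e_p)) ≠ 0` (`Complex.cexp_tsum_eq_tprod`). -/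
theorem EE_ne_zero (D : ℕ) (hD : 1 ≤ D) {s : ℂ} (hs : 1 / 2 ≤ s.re) : EE D s ≠ 0 := by
  have h1 : EE D s = (1 - I) / 2 * ∑' h, eeF D s h := by
    unfold EE
    rw [← tsum_mul_left]
    refine tsum_congr fun h => ?_
    rw [ee_bet]
    unfold eeF eeP
    ring
  have h2 := EulerProduct.eulerProduct_hasProd (ee_one D s) (fun {m n} h => ee_mul D s h)
    (ee_summable D hs) (ee_zero D s)
  have h3 : (fun p : Nat.Primes => ∑' e, eeF D s ((p : ℕ) ^ e)) =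
      fun p : Nat.Primes => 1 + eeE D s p := by
    funext p
    exact ee_factor D hs p.2
  rw [h3] at h2
  have h4 : ∏' p : Nat.Primes, (1 + eeE D s p) ≠ 0 := by
    refine tprod_one_add_ne_zero_of_summable (fun p h0 => ?_) ?_
    · have h5 := ee_E_le D hs p.2
      have h6 : ‖eeE D s p‖ = 1 := by
        have h7 : eeE D s p = -1 := by linear_combination h0
        rw [h7, norm_neg, norm_one]
      rw [h6] at h5
      have hp2 : (2 : ℝ) ≤ (p : ℕ) := by exact_mod_cast p.2.two_le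
      have h8 : (((p : ℕ) : ℝ) ^ 2)⁻¹ ≤ (4 : ℝ)⁻¹ := by
        refine inv_anti₀ (by norm_num) ?_
        nlinarith
      linarith
    · have h5 : Summable (fun n : ℕ => 3 * ((n : ℝ) ^ 2)⁻¹) :=
        (Real.summable_nat_pow_inv.2 (by norm_num)).mul_left 3
      exact Summable.of_nonneg_of_le (fun p => norm_nonneg _) (fun p => ee_E_le D hs p.2)
        (h5.comp_injective (i := fun p : Nat.Primes => (p : ℕ)) Subtype.val_injective)
  rw [h1, ← h2.tprod_eq]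
  refine mul_ne_zero ?_ h4
  intro h5
  have h6 := congrArg Complex.re h5
  norm_num at h6

end Pool.Agent.MP_291b24_nt.Sm
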