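import Pool.Agent.Lib.MP_291b24_nt.Sm.Arith
import Pool.Agent.Lib.MP_291b24_nt.Sm.CvB
import Pool.Agent.Lib.MP_291b24_nt.Sm.KerF

/-! The frequencies far from `b0` -/

set_option autoImplicit false

open Complex

namespace Pool.Agent.MP_291b24_nt.Sm

private theorem far_mu (u : ℕ) : ‖((ArithmeticFunction.moebius u : ℤ) : ℂ)‖ ≤ 1 := by
  rw [Complex.norm_intCast]
  exact_mod_cast ArithmeticFunction.abs_moebius_le_one

private theorem far_jac (a : ℤ) (u : ℕ) : ‖((jacobiSym a u : ℤ) : ℂ)‖ ≤ 1 := by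
  rcases jacobiSym.trichotomy a u with h | h | h <;> rw [h] <;> norm_num

private theorem far_su {C : ℝ} (hC : ∀ Y : ℝ, 0 < Y →
    Summable (fun u : ℕ => if u = 0 then 0 else Real.exp (-(3 * |Real.log (u / Y)|))) ∧
    ∑' u : ℕ, (if u = 0 then 0 else Real.exp (-(3 * |Real.log (u / Y)|))) ≤ C * min Y (Y ^ 3))
    (m : ℤ) (v : ℕ) {F : ℝ → ℂ} {B Y : ℝ} (hF : ∀ x, ‖F x‖ ≤ B * Real.exp (-(3 * |x|)))
    (hY : 0 < Y) : ‖SU m v F Y‖ ≤ B * (C * min Y (Y ^ 3)) := by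
  obtain ⟨h1, h2⟩ := hC Y hY
  have hB : 0 ≤ B := by
    have h3 := (norm_nonneg (F 0)).trans (hF 0)
    rw [abs_zero, mul_zero, neg_zero, Real.exp_zero, mul_one] at h3
    exact h3
  refine le_trans (tsum_of_norm_bounded (h1.hasSum.mul_left B) fun u => ?_)
    (mul_le_mul_of_nonneg_left h2 hB)
  by_cases hu : Odd u ∧ u.Coprime v
  · rw [if_pos hu]
    have hu0 : u ≠ 0 := by
      rintro rfl
      exact absurd hu.1 (by decide)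
    rw [if_neg hu0, norm_mul, norm_mul]
    have h3 := hF (Real.log (u / Y))
    have h4 : ‖((ArithmeticFunction.moebius u : ℤ) : ℂ)‖ * ‖((jacobiSym (-m) u : ℤ) : ℂ)‖ ≤ 1 :=
      mul_le_one₀ (far_mu u) (norm_nonneg _) (far_jac _ u)
    calc _ ≤ 1 * ‖F (Real.log (u / Y))‖ := mul_le_mul_of_nonneg_right h4 (norm_nonneg _)
      _ ≤ _ := by rw [one_mul]; exact h3
  · rw [if_neg hu, norm_zero]
    refine mul_nonneg hB ?_
    split_ifs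
    · exact le_rfl
    · exact (Real.exp_pos _).le

private theorem far_part {β : ℝ} (hβ : 1 ≤ β) (N : ℕ) :
    ∑ n ∈ Finset.range N, ((1 + (n : ℝ) / β) ^ 2)⁻¹ ≤ 2 * β ^ 2 * (1 / β - 1 / (β + N)) := by
  have hβ0 : 0 < β := by linarith
  induction N with
  | zero => simp
  | succ N ih =>
    rw [Finset.sum_range_succ]
    have hN : (0 : ℝ) ≤ N := Nat.cast_nonneg N
    have h1 : ((1 + (N : ℝ) / β) ^ 2)⁻¹ = β ^ 2 / (β + N) ^ 2 := by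
      field_simp
    have h2 : β ^ 2 / (β + N) ^ 2 ≤ 2 * β ^ 2 * (1 / (β + N) - 1 / (β + (N + 1))) := by
      have h3 : 2 * β ^ 2 * (1 / (β + N) - 1 / (β + (N + 1))) =
          β ^ 2 * (2 / ((β + N) * (β + (N + 1)))) := by
        field_simp
        ring
      rw [h3, div_eq_mul_inv]
      refine mul_le_mul_of_nonneg_left ?_ (by positivity)
      rw [inv_eq_one_div, div_le_div_iff₀ (by positivity) (by positivity)]
      nlinarith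
    rw [h1]
    push_cast
    calc _ ≤ 2 * β ^ 2 * (1 / β - 1 / (β + N)) + 2 * β ^ 2 * (1 / (β + N) - 1 / (β + (N + 1))) :=
          add_le_add ih h2
      _ = _ := by ring

private theorem far_nat {β : ℝ} (hβ : 1 ≤ β) :
    Summable (fun n : ℕ => ((1 + (n : ℝ) / β) ^ 2)⁻¹) ∧
      ∑' n : ℕ, ((1 + (n : ℝ) / β) ^ 2)⁻¹ ≤ 2 * β := by
  have hβ0 : 0 < β := by linarith
  have h1 : ∀ N : ℕ, ∑ n ∈ Finset.range N, ((1 + (n : ℝ) / β) ^ 2)⁻¹ ≤ 2 * β := by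
    intro N
    refine (far_part hβ N).trans ?_
    have h2 : 0 ≤ 1 / (β + N) := by positivity
    have h3 : 2 * β ^ 2 * (1 / β) = 2 * β := by field_simp
    have h4 : 0 ≤ 2 * β ^ 2 * (1 / (β + N)) := by positivity
    rw [mul_sub, h3]
    linarith
  have h0 : ∀ n : ℕ, 0 ≤ ((1 + (n : ℝ) / β) ^ 2)⁻¹ := fun n => by positivity
  exact ⟨summable_of_sum_range_le h0 h1, Real.tsum_le_of_sum_range_le h0 h1⟩

private theorem far_int {β : ℝ} (hβ : 1 ≤ β) :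
    Summable (fun b : ℤ => ((1 + |(b : ℝ) / β|) ^ 2)⁻¹) ∧
      ∑' b : ℤ, ((1 + |(b : ℝ) / β|) ^ 2)⁻¹ ≤ 4 * β := by
  have hβ0 : 0 < β := by linarith
  obtain ⟨h1, h2⟩ := far_nat hβ
  have e1 : (fun n : ℕ => ((1 + |(((n : ℤ)) : ℝ) / β|) ^ 2)⁻¹) =
      fun n : ℕ => ((1 + (n : ℝ) / β) ^ 2)⁻¹ := by
    funext n
    rw [Int.cast_natCast, abs_of_nonneg (by positivity)]
  have e2 : (fun n : ℕ => ((1 + |((-((n : ℤ) + 1) : ℤ) : ℝ) / β|) ^ 2)⁻¹) =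
      fun n : ℕ => ((1 + ((n + 1 : ℕ) : ℝ) / β) ^ 2)⁻¹ := by
    funext n
    push_cast
    rw [neg_div, abs_neg, abs_of_nonneg (by positivity)]
  have h3 : Summable (fun n : ℕ => ((1 + ((n + 1 : ℕ) : ℝ) / β) ^ 2)⁻¹) :=
    (summable_nat_add_iff (f := fun n : ℕ => ((1 + (n : ℝ) / β) ^ 2)⁻¹) 1).2 h1
  have h4 : ∑' n : ℕ, ((1 + ((n + 1 : ℕ) : ℝ) / β) ^ 2)⁻¹ ≤
      ∑' n : ℕ, ((1 + (n : ℝ) / β) ^ 2)⁻¹ := by
    have h5 := h1.tsum_eq_zero_add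
    have h6 : 0 ≤ ((1 + ((0 : ℕ) : ℝ) / β) ^ 2)⁻¹ := by positivity
    rw [h5]
    linarith
  have h5 : HasSum (fun b : ℤ => ((1 + |(b : ℝ) / β|) ^ 2)⁻¹)
      (∑' n : ℕ, ((1 + (n : ℝ) / β) ^ 2)⁻¹ + ∑' n : ℕ, ((1 + ((n + 1 : ℕ) : ℝ) / β) ^ 2)⁻¹) := by
    refine HasSum.of_nat_of_neg_add_one ?_ ?_
    · rw [e1]
      exact h1.hasSum
    · rw [e2]
      exact h3.hasSum
  refine ⟨h5.summable, ?_⟩
  rw [h5.tsum_eq]
  linarith

private theorem far_cf (v c : ℕ) :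
    |cf v c| ≤ 3 * ((4 : ℝ) ^ c)⁻¹ * (Real.sqrt v)⁻¹ * ((gg v : ℝ))⁻¹ := by
  have h1 : |(kap v c : ℝ)| ≤ 3 := by
    unfold kap
    split_ifs <;> norm_num
  have h2 : |((ArithmeticFunction.moebius (rad v) : ℤ) : ℝ)| ≤ 1 := by
    exact_mod_cast ArithmeticFunction.abs_moebius_le_one
  unfold cf
  rw [abs_mul, abs_mul, abs_mul, abs_mul, abs_of_nonneg (by positivity : 0 ≤ ((4 : ℝ) ^ c)⁻¹),
    abs_of_nonneg (by positivity : 0 ≤ (Real.sqrt v)⁻¹),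
    abs_of_nonneg (by positivity : 0 ≤ ((gg v : ℝ))⁻¹)]
  have h3 : |(kap v c : ℝ)| * |((ArithmeticFunction.moebius (rad v) : ℤ) : ℝ)| ≤ 3 := by
    calc _ ≤ (3 : ℝ) * 1 := mul_le_mul h1 h2 (abs_nonneg _) (by norm_num)
      _ = 3 := by norm_num
  gcongr

private theorem far_trm {C : ℝ} (hC : ∀ Y : ℝ, 0 < Y →
    Summable (fun u : ℕ => if u = 0 then 0 else Real.exp (-(3 * |Real.log (u / Y)|))) ∧
    ∑' u : ℕ, (if u = 0 then 0 else Real.exp (-(3 * |Real.log (u / Y)|))) ≤ C * min Y (Y ^ 3))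
    {K D : ℕ} (hD : 1 ≤ D) {X : ℝ} (hX : 0 < X) {v : ℕ} (hv : v ≠ 0) (c : ℕ) (b : ℤ) {B : ℝ}
    (hF : ∀ x, ‖Fk K ((b : ℝ) / (b0 D v c : ℝ)) x‖ ≤ B * Real.exp (-(3 * |x|))) :
    ‖trm K D X v c b‖ ≤ |cf v c| * (4 * rad v) * (B * (C * min (4 * D * X / v) ((4 * D * X / v) ^ 3))) := by
  have hY : 0 < 4 * D * X / v := by
    have h1 : (0 : ℝ) < D := by exact_mod_cast hD
    have h2 : (0 : ℝ) < v := by exact_mod_cast Nat.pos_of_ne_zero hv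
    positivity
  unfold trm
  rw [norm_mul, norm_mul, Complex.norm_real, Real.norm_eq_abs]
  have h1 := far_su hC (b * (gg v : ℤ)) v hF hY
  have h2 := norm_CN_le' hv b
  exact mul_le_mul (mul_le_mul_of_nonneg_left h2 (abs_nonneg _)) h1 (norm_nonneg _)
    (mul_nonneg (abs_nonneg _) (by positivity))

/-- `|cf v c| ≤ 3 v^(-1/2) / g`, `norm_CN_le'`, `Fk_dec`, `sum_exp_log`; `∑_b (1 + |b| / b0)^(-2) ≤ C b0`. -/
theorem summable_trm {K D : ℕ} (hK : 2 ≤ K) (hD : 1 ≤ D) {X : ℝ} (hX : 0 < X) {v : ℕ} (hv : v ≠ 0) (c : ℕ) :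
    Summable (fun b : ℤ => ‖trm K D X v c b‖) := by
  obtain ⟨C₁, hC₁, h1⟩ := Fk_dec
  obtain ⟨C₂, hC₂, h2⟩ := sum_exp_log
  have hb : (1 : ℝ) ≤ (b0 D v c : ℝ) := by
    exact_mod_cast b0_pos hv hD c
  have h3 := (far_int hb).1
  refine Summable.of_nonneg_of_le (fun b => norm_nonneg _) (fun b => far_trm h2 hD hX hv c b
    (B := C₁ * Real.sqrt K * ((1 + |(b : ℝ) / (b0 D v c : ℝ)|) ^ 2)⁻¹) fun x => h1 K hK _ x) ?_
  exact ((h3.mul_left _).mul_right _).mul_left _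

open Classical in
/-- the same with `Fk_far`, `δ = K^(-17/36)`, `δ² K = K^(1/18)`; `min (Y, Y³) ≤ Y³` with `Y = 4 D X / v`; `b0 ≤ 256 D v` -/
theorem far_sum {D : ℕ} (hD : 1 ≤ D) : ∃ c C : ℝ, 0 < c ∧ 0 < C ∧ ∀ K : ℕ, 16 ≤ K → ∀ X : ℝ, 2 ≤ X → ∀ v c' : ℕ, v ≠ 0 → c' < 3 →
    ∑' b : ℤ, (if (K : ℝ) ^ (-(17 / 36) : ℝ) ≤ |(b : ℝ) / (b0 D v c' : ℝ) - 1| then ‖trm K D X v c' b‖ else 0) ≤
      C * X ^ 3 * Real.sqrt K * Real.exp (-(c * (K : ℝ) ^ (1 / 18 : ℝ))) * (v : ℝ) ^ (-(3 / 2) : ℝ) := by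
  obtain ⟨c, C₁, hc, hC₁, h1⟩ := Fk_far
  obtain ⟨C₂, hC₂, h2⟩ := sum_exp_log
  have hD0 : (0 : ℝ) < D := by exact_mod_cast hD
  refine ⟨c, 3 * (16 * D) * 16 * C₁ * C₂ * (64 * (D : ℝ) ^ 3), hc, by positivity, ?_⟩
  intro K hK X hX v c' hv hc'
  have hX0 : 0 < X := by linarith
  have hv0 : (0 : ℝ) < v := by exact_mod_cast Nat.pos_of_ne_zero hv
  have hv1 : (1 : ℝ) ≤ v := by exact_mod_cast Nat.pos_of_ne_zero hv
  have hK0 : (0 : ℝ) < K := by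
    have : 0 < K := by omega
    exact_mod_cast this
  have hb : (1 : ℝ) ≤ (b0 D v c' : ℝ) := by
    exact_mod_cast b0_pos hv hD c'
  obtain ⟨h3, h4⟩ := far_int hb
  set δ : ℝ := (K : ℝ) ^ (-(17 / 36) : ℝ) with hδ
  have hδ0 : 0 < δ := Real.rpow_pos_of_pos hK0 _
  have hδ1 : δ ≤ 1 / 2 := by
    have h5 : (16 : ℝ) ≤ K := by exact_mod_cast hK
    have h6 : δ ≤ (16 : ℝ) ^ (-(17 / 36) : ℝ) :=
      Real.rpow_le_rpow_of_nonpos (by norm_num) h5 (by norm_num)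
    have h7 : (16 : ℝ) ^ (-(17 / 36) : ℝ) ≤ (16 : ℝ) ^ (-(1 / 4) : ℝ) :=
      Real.rpow_le_rpow_of_exponent_le (by norm_num) (by norm_num)
    have h8 : (16 : ℝ) ^ (-(1 / 4) : ℝ) = 1 / 2 := by
      rw [show (16 : ℝ) = 2 ^ (4 : ℝ) by norm_num, ← Real.rpow_mul (by norm_num)]
      norm_num
    linarith
  have hδ2 : c * K * δ ^ 2 = c * (K : ℝ) ^ (1 / 18 : ℝ) := by
    rw [hδ, ← Real.rpow_natCast ((K : ℝ) ^ (-(17 / 36) : ℝ)) 2, ← Real.rpow_mul hK0.le, mul_assoc]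
    congr 1
    nth_rewrite 1 [← Real.rpow_one (K : ℝ)]
    rw [← Real.rpow_add hK0]
    norm_num
  set Ec : ℝ := Real.exp (-(c * (K : ℝ) ^ (1 / 18 : ℝ))) with hEc
  have hEc0 : 0 < Ec := Real.exp_pos _
  set Y : ℝ := 4 * D * X / v with hY
  have hY0 : 0 < Y := by positivity
  set A : ℝ := |cf v c'| * (4 * rad v) with hA
  have hA0 : 0 ≤ A := by positivity
  have hmin : 0 ≤ min Y (Y ^ 3) := le_min hY0.le (by positivity)
  set g : ℤ → ℝ := fun b => A * (C₁ * Real.sqrt K * Ec * ((1 + |(b : ℝ) / (b0 D v c' : ℝ)|) ^ 2)⁻¹ *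
    (C₂ * min Y (Y ^ 3))) with hg
  have hgs : Summable g := ((h3.mul_left _).mul_right _).mul_left _
  have hle : ∀ b : ℤ, (if δ ≤ |(b : ℝ) / (b0 D v c' : ℝ) - 1| then ‖trm K D X v c' b‖ else 0) ≤
      g b := by
    intro b
    split_ifs with hb1
    · have h5 := far_trm h2 (K := K) hD hX0 hv c' b
        (B := C₁ * Real.sqrt K * Ec * ((1 + |(b : ℝ) / (b0 D v c' : ℝ)|) ^ 2)⁻¹) fun x => by
          have h6 := h1 K (by omega) δ hδ0 hδ1 _ x hb1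
          rw [hδ2] at h6
          exact h6
      exact h5
    · have : 0 ≤ ((1 + |(b : ℝ) / (b0 D v c' : ℝ)|) ^ 2)⁻¹ := by positivity
      have : 0 ≤ Real.sqrt K := Real.sqrt_nonneg _
      positivity
  have hsum : Summable (fun b : ℤ =>
      if δ ≤ |(b : ℝ) / (b0 D v c' : ℝ) - 1| then ‖trm K D X v c' b‖ else 0) := by
    refine Summable.of_nonneg_of_le (fun b => ?_) hle hgs
    split_ifs
    · exact norm_nonneg _
    · exact le_rfl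
  have hK1 : 0 ≤ Real.sqrt K := Real.sqrt_nonneg _
  have hgt : ∑' b, g b ≤ A * (C₁ * Real.sqrt K * Ec * (4 * (b0 D v c' : ℝ)) * (C₂ * Y ^ 3)) := by
    have h5 : ∑' b, g b = A * (C₁ * Real.sqrt K * Ec *
        (∑' b : ℤ, ((1 + |(b : ℝ) / (b0 D v c' : ℝ)|) ^ 2)⁻¹) * (C₂ * min Y (Y ^ 3))) := by
      rw [hg, tsum_mul_left, tsum_mul_right, tsum_mul_left]
    rw [h5]
    have h6 : min Y (Y ^ 3) ≤ Y ^ 3 := min_le_right _ _
    have h7 : 0 ≤ ∑' b : ℤ, ((1 + |(b : ℝ) / (b0 D v c' : ℝ)|) ^ 2)⁻¹ :=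
      tsum_nonneg fun b => by positivity
    gcongr
  refine (hsum.tsum_le_tsum hle hgs).trans (hgt.trans ?_)
  -- the arithmetic
  have hg0 : (0 : ℝ) < gg v := by exact_mod_cast gg_pos hv
  have hr : (rad v : ℝ) ≤ v := by exact_mod_cast Nat.le_of_dvd (Nat.pos_of_ne_zero hv) (rad_dvd v)
  have hsv : 0 < Real.sqrt v := Real.sqrt_pos.2 hv0
  have h5 : |cf v c'| * (b0 D v c' : ℝ) ≤ 3 * (16 * D) * (Real.sqrt v)⁻¹ := by
    have h6 := far_cf v c'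
    have h7 : (b0 D v c' : ℝ) = (4 : ℝ) ^ c' * gg v * (16 * D) := by
      unfold b0
      push_cast
      ring
    calc |cf v c'| * (b0 D v c' : ℝ) ≤
          3 * ((4 : ℝ) ^ c')⁻¹ * (Real.sqrt v)⁻¹ * ((gg v : ℝ))⁻¹ * (b0 D v c' : ℝ) :=
          mul_le_mul_of_nonneg_right h6 (by positivity)
      _ = _ := by
          rw [h7]
          field_simp
  have h6 : (Real.sqrt v)⁻¹ * (v : ℝ)⁻¹ = (v : ℝ) ^ (-(3 / 2) : ℝ) := by
    have h9 : (v : ℝ)⁻¹ = (v : ℝ) ^ (-1 : ℝ) := (Real.rpow_neg_one (v : ℝ)).symm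
    rw [Real.sqrt_eq_rpow, ← Real.rpow_neg hv0.le, h9, ← Real.rpow_add hv0]
    norm_num
  have h7 : (v : ℝ) * ((v : ℝ) ^ 3)⁻¹ ≤ (v : ℝ)⁻¹ := by
    have h8 : (v : ℝ) * ((v : ℝ) ^ 3)⁻¹ = ((v : ℝ) ^ 2)⁻¹ := by
      field_simp
    rw [h8]
    refine inv_anti₀ hv0 ?_
    nlinarith
  have h8 : Y ^ 3 = 64 * (D : ℝ) ^ 3 * X ^ 3 * ((v : ℝ) ^ 3)⁻¹ := by
    rw [hY]
    field_simp
    ring
  calc A * (C₁ * Real.sqrt K * Ec * (4 * (b0 D v c' : ℝ)) * (C₂ * Y ^ 3)) =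
        (|cf v c'| * (b0 D v c' : ℝ)) * rad v * (16 * C₁ * C₂ * (Real.sqrt K * Ec)) * Y ^ 3 := by
        rw [hA]
        ring
    _ ≤ (3 * (16 * D) * (Real.sqrt v)⁻¹) * v * (16 * C₁ * C₂ * (Real.sqrt K * Ec)) * Y ^ 3 := by
        gcongr
    _ = (3 * (16 * D) * 16 * C₁ * C₂ * (64 * (D : ℝ) ^ 3) * X ^ 3 * Real.sqrt K * Ec) *
          ((Real.sqrt v)⁻¹ * ((v : ℝ) * ((v : ℝ) ^ 3)⁻¹)) := by
        rw [h8]
        ring
    _ ≤ (3 * (16 * D) * 16 * C₁ * C₂ * (64 * (D : ℝ) ^ 3) * X ^ 3 * Real.sqrt K * Ec) *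
          ((Real.sqrt v)⁻¹ * (v : ℝ)⁻¹) := by
        gcongr
    _ = _ := by
        rw [h6]

end Pool.Agent.MP_291b24_nt.Sm
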