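import Pool.Agent.Lib.MP_291b24_nt.Sm.GVX

/-! The bound of `G` inside the window -/

set_option autoImplicit false

open Complex MeasureTheory

namespace Pool.Agent.MP_291b24_nt.Sm

/-- `abel`; split at `X₁ = X₀ + (25 π K / C₁)^(1/θ)`. `x < X₁`: `norm_S_le`, `norm_nd_le`. `x ≥ X₁`: `S = Err + M1 + M2`; `Err` by `Bd` and `int_norm_nd` with
`κ = 1/2 + ε`, `w₀ = -(a + (a - r)/2)`; `M1`, `M2`: `∫_{X₁}^∞ = ∫_0^∞ - ∫_0^{X₁}`, `int_nd` with `κ = 1`, `κ = 1 - α` and `norm_Gamma_le` (imaginary part of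
`κ + w` at least `K` in absolute value on the window), `m12_bound`, `norm_nd_le` (on `(0, 1)`: `x^κ |nd| ≤ C K x^(-1/2)`). -/
theorem GG_bound (hG : GRH) {r a ε θ C₁ K₀ X₀ : ℝ} (hr : 0 < r) (hra : r < a) (ha : a < 1 / 4) (hε : 0 < ε) (hε1 : ε < a - r) (hθ : 0 < θ)
    (hC₁ : 0 < C₁) (hX₀ : 2 ≤ X₀) (hB : Bd r a ε θ C₁ K₀ X₀) : ∃ A : ℝ, 0 < A ∧ ∀ M : ℕ, 1 ≤ M → ∃ c C : ℝ, 0 < c ∧ 0 < C ∧
    ∀ K : ℕ, 16 ≤ K → ∀ X : ℝ, 2 ≤ X → ∀ t y : ℝ, |t + 2 * Real.pi * K| ≤ K / 2 → |y - 2 * Real.pi * K| ≤ K / 2 →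
      ‖GG M K X (((a - r) / 2 : ℝ) + t * I) (r + y * I)‖ ≤ C * (K : ℝ) ^ A *
        (X ^ (1 / 2 + ε - (a + (a - r) / 2)) + Real.exp (-(c * K)) * X) := by
  obtain ⟨A₀, C₀, hA₀, hC₀, hE⟩ := gvx_errB hG hr hra ha hε hε1 hθ hC₁ hX₀ hB
  refine ⟨A₀ + 3, by positivity, fun M hM => ?_⟩
  have hq : 0 < 1 / 2 + ε + -(a + (a - r) / 2) := by linarith
  obtain ⟨Cn, hCn, hnd⟩ := int_norm_nd M hM hq
  have hM0 : (0 : ℝ) < M := by exact_mod_cast hM
  have hx1 : 0 < 1 + -(a + (a - r) / 2) := by linarith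
  have hx2 : 0 < 1 - (a - r) / 2 := by linarith
  set G1 : ℝ := Real.Gamma ((1 + -(a + (a - r) / 2)) / M) * Real.cos 1 ^ (-((1 + -(a + (a - r) / 2)) / M)) with hG1
  set G2 : ℝ := Real.Gamma ((1 - (a - r) / 2) / M) * Real.cos 1 ^ (-((1 - (a - r) / 2) / M)) with hG2
  have hG1' : 0 ≤ G1 := mul_nonneg (Real.Gamma_pos_of_pos (div_pos hx1 hM0)).le (Real.rpow_nonneg Real.cos_one_pos.le _)
  have hG2' : 0 ≤ G2 := mul_nonneg (Real.Gamma_pos_of_pos (div_pos hx2 hM0)).le (Real.rpow_nonneg Real.cos_one_pos.le _)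
  refine ⟨1 / M, 51 * C₀ * Cn + C₀ * G1 + 9 * C₀ * G2, by positivity, by positivity, ?_⟩
  intro K hK X hX t y ht hy
  have hk16 : (16 : ℝ) ≤ K := by exact_mod_cast hK
  have hk0 : (0 : ℝ) < K := by linarith
  have hk1 : (1 : ℝ) ≤ K := by linarith
  have hpi3 := Real.pi_gt_three
  have hpi4 := Real.pi_lt_d2
  have hX0 : 0 < X := by linarith
  obtain ⟨ht1, ht2⟩ := abs_le.1 ht
  obtain ⟨hy1, hy2⟩ := abs_le.1 hy
  set s : ℂ := ((a - r) / 2 : ℝ) + t * I with hs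
  set z : ℂ := r + y * I with hz
  have hsre : s.re = (a - r) / 2 := by simp [hs]
  have hsim : s.im = t := by simp [hs]
  have hzre : z.re = r := by simp [hz]
  have hzim : z.im = y := by simp [hz]
  have hαre : (-z - 2 * s).re = -a := by
    simp only [Complex.sub_re, Complex.neg_re, Complex.mul_re, Complex.re_ofNat, Complex.im_ofNat, hsre, hzre]
    ring
  have hαim : (-z - 2 * s).im = -y - 2 * t := by
    simp only [Complex.sub_im, Complex.neg_im, Complex.mul_im, Complex.re_ofNat, Complex.im_ofNat, hsim, hzim]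
    ring
  have hwre : (-z - 3 * s).re = -(a + (a - r) / 2) := by
    simp only [Complex.sub_re, Complex.neg_re, Complex.mul_re, Complex.re_ofNat, Complex.im_ofNat, hsre, hzre]
    ring
  have hwim : (-z - 3 * s).im = -y - 3 * t := by
    simp only [Complex.sub_im, Complex.neg_im, Complex.mul_im, Complex.re_ofNat, Complex.im_ofNat, hsim, hzim]
    ring
  have hKpi : 3 * (K : ℝ) ≤ Real.pi * K := mul_le_mul_of_nonneg_right hpi3.le hk0.le
  have hKpi' : Real.pi * K ≤ 3.15 * K := mul_le_mul_of_nonneg_right hpi4.le hk0.le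
  have a1 : 4 * (K : ℝ) ≤ -y - 2 * t := by linarith
  have a2 : -y - 2 * t ≤ 8 * K := by linarith
  have a3 : |(-z - 2 * s).im| = -y - 2 * t := by rw [hαim]; exact abs_of_nonneg (by linarith)
  have a4 : |z.im| ≤ 8 * K := by rw [hzim, abs_le]; constructor <;> linarith
  have a5 : (K : ℝ) ≤ |(-z - 3 * s).im| := by rw [hwim]; exact le_trans (by linarith) (le_abs_self _)
  have a6 : (K : ℝ) ≤ |s.im| := by rw [hsim]; exact le_trans (by linarith) (neg_le_abs _)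
  have a7 : |(-z - 3 * s).im| ≤ 15 * K := by rw [hwim, abs_le]; constructor <;> linarith
  have a8 : 1 ≤ |(-z - 2 * s).im| := by rw [a3]; linarith
  obtain ⟨b1, b2, b3⟩ := hE K hK (-z - 2 * s) z hαre hzre a8 (by rw [a3]; exact a2) a4
  rw [abel hG hr hra ha hM hK hX hsre hzre a8]
  generalize M1 1 (-z - 2 * s) z = m1 at b1 b3
  generalize M2 1 (-z - 2 * s) z = m2 at b2 b3
  have hN1 : (1 : ℝ) ≤ (K : ℝ) ^ 2 * X := one_le_mul_of_one_le_of_one_le (one_le_pow₀ hk1) (by linarith)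
  have hN0 : (0 : ℝ) < (K : ℝ) ^ 2 * X := by linarith
  set N₀ : ℝ := (K : ℝ) ^ 2 * X with hN₀
  obtain ⟨c1, c2⟩ := hnd N₀ (-z - 3 * s) hN1 hwre
  have hk1re : ((1 : ℂ) + (-z - 3 * s)).re = 1 + -(a + (a - r) / 2) := by rw [Complex.add_re, hwre, Complex.one_re]
  have hk1im : ((1 : ℂ) + (-z - 3 * s)).im = (-z - 3 * s).im := by rw [Complex.add_im, Complex.one_im, zero_add]
  obtain ⟨d1, d2⟩ := int_nd hM hN0 (κ := 1) (w := -z - 3 * s) (by rw [hk1re]; exact hx1)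
  have hk2 : (1 - (-z - 2 * s)) + (-z - 3 * s) = 1 - s := by ring
  have hk2re : (1 - s).re = 1 - (a - r) / 2 := by rw [Complex.sub_re, hsre, Complex.one_re]
  obtain ⟨e1, e2⟩ := int_nd hM hN0 (κ := 1 - (-z - 2 * s)) (w := -z - 3 * s) (by rw [hk2, hk2re]; exact hx2)
  rw [hk2] at e2
  have hmain := gvx_core (gvx_meas_nd M N₀ (-z - 3 * s)) (gvx_meas_S (-z - 2 * s) z) (m1 := m1) (m2 := m2) (κ := 1 - (-z - 2 * s))
    (p := 1 / 2 + ε) (B := C₀ * (K : ℝ) ^ A₀) (by linarith) (by rw [Complex.sub_re, hαre, Complex.one_re]; linarith)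
    (by positivity) c1 c2 d1 e1 b3
  refine hmain.trans ?_
  set P : ℝ := (K : ℝ) ^ A₀ with hP
  have hP0 : 0 < P := by positivity
  have hPA : (K : ℝ) ^ (A₀ + 3) = P * (K : ℝ) ^ 3 := by
    rw [Real.rpow_add hk0, hP]
    norm_num
  set q : ℝ := 1 / 2 + ε + -(a + (a - r) / 2) with hqdef
  have hqq : 1 / 2 + ε - (a + (a - r) / 2) = q := by rw [hqdef]; ring
  rw [hqq, hPA]
  -- the three pieces
  have hNq : N₀ ^ q ≤ (K : ℝ) ^ 2 * X ^ q := by
    rw [hN₀, Real.mul_rpow (by positivity) hX0.le]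
    refine mul_le_mul_of_nonneg_right ?_ (by positivity)
    calc ((K : ℝ) ^ 2) ^ q ≤ ((K : ℝ) ^ 2) ^ (1 : ℝ) :=
          Real.rpow_le_rpow_of_exponent_le (one_le_pow₀ hk1) (by rw [hqdef]; linarith)
      _ = (K : ℝ) ^ 2 := Real.rpow_one _
  have hw1 : ‖-z - 3 * s‖ + 1 ≤ 17 * K := by
    refine (add_le_add (Complex.norm_le_abs_re_add_abs_im _) le_rfl).trans ?_
    rw [hwre, abs_neg, abs_of_pos (show 0 < a + (a - r) / 2 by linarith)]
    linarith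
  have p1 : (C₀ * P + ‖m1‖ + ‖m2‖) * (Cn * (‖-z - 3 * s‖ + 1) * N₀ ^ q) ≤
      51 * C₀ * Cn * (P * (K : ℝ) ^ 3) * X ^ q := by
    have f1 : C₀ * P + ‖m1‖ + ‖m2‖ ≤ 3 * C₀ * P := by linarith
    have f2 : Cn * (‖-z - 3 * s‖ + 1) * N₀ ^ q ≤ Cn * (17 * K) * ((K : ℝ) ^ 2 * X ^ q) :=
      mul_le_mul (mul_le_mul_of_nonneg_left hw1 hCn.le) hNq (by positivity) (by positivity)
    refine (mul_le_mul f1 f2 (by positivity) (by positivity)).trans (le_of_eq ?_)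
    ring
  have hNle : ∀ u : ℝ, u ≤ 1 → N₀ ^ u ≤ (K : ℝ) ^ 2 * X := fun u hu =>
    (Real.rpow_le_rpow_of_exponent_le hN1 hu).trans (le_of_eq (by rw [Real.rpow_one]))
  set E : ℝ := Real.exp (-(1 / M * K)) with hEdef
  have hE0 : 0 < E := Real.exp_pos _
  have p2 : ‖m1‖ * ‖∫ x in Set.Ioi (0 : ℝ), (x : ℂ) ^ (1 : ℂ) * nd M N₀ (-z - 3 * s) x‖ ≤
      C₀ * G1 * (P * (K : ℝ) ^ 3) * (E * X) := by
    rw [d2, one_mul, mul_div_assoc, norm_mul, Complex.norm_cpow_eq_rpow_re_of_pos hN0, hk1re]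
    have f1 := gvx_gam hM hx1 hk1re (k := K) (by rw [hk1im]; exact a5)
    have f2 := hNle (1 + -(a + (a - r) / 2)) (by linarith)
    have f3 := mul_le_mul b1 (mul_le_mul f2 f1 (norm_nonneg _) (by positivity)) (by positivity) (by positivity)
    refine f3.trans ?_
    have f4 : C₀ * P * ((K : ℝ) ^ 2 * X * (G1 * E)) = C₀ * G1 * (P * (K : ℝ) ^ 2) * (E * X) := by ring
    rw [f4]
    refine mul_le_mul_of_nonneg_right (mul_le_mul_of_nonneg_left (mul_le_mul_of_nonneg_left ?_ hP0.le)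
      (by positivity)) (by positivity)
    exact pow_le_pow_right₀ hk1 (by norm_num)
  have p3 : ‖m2‖ * ‖∫ x in Set.Ioi (0 : ℝ), (x : ℂ) ^ (1 - (-z - 2 * s)) * nd M N₀ (-z - 3 * s) x‖ ≤
      9 * C₀ * G2 * (P * (K : ℝ) ^ 3) * (E * X) := by
    rw [e2, mul_div_assoc, norm_mul, norm_mul, Complex.norm_cpow_eq_rpow_re_of_pos hN0, hk2re]
    have f1 := gvx_gam hM hx2 hk2re (k := K) (by rw [Complex.sub_im, Complex.one_im, zero_sub, abs_neg]; exact a6)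
    have f2 := hNle (1 - (a - r) / 2) (by linarith)
    have f0 : ‖1 - (-z - 2 * s)‖ ≤ 9 * K := by
      refine (Complex.norm_le_abs_re_add_abs_im _).trans ?_
      rw [Complex.sub_re, hαre, Complex.sub_im, Complex.one_re, Complex.one_im, zero_sub, abs_neg, a3,
        abs_of_pos (show 0 < 1 - -a by linarith)]
      linarith
    have f3 := mul_le_mul b2 (mul_le_mul (mul_le_mul f0 f2 (by positivity) (by positivity)) f1 (norm_nonneg _)
      (by positivity)) (by positivity) (by positivity)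
    refine f3.trans (le_of_eq ?_)
    ring
  have p4 : (51 * C₀ * Cn + C₀ * G1 + 9 * C₀ * G2) * (P * (K : ℝ) ^ 3) * (X ^ q + E * X) =
      51 * C₀ * Cn * (P * (K : ℝ) ^ 3) * X ^ q + C₀ * G1 * (P * (K : ℝ) ^ 3) * (E * X) +
      9 * C₀ * G2 * (P * (K : ℝ) ^ 3) * (E * X) + 51 * C₀ * Cn * (P * (K : ℝ) ^ 3) * (E * X) +
      (C₀ * G1 + 9 * C₀ * G2) * (P * (K : ℝ) ^ 3) * X ^ q := by ring
  rw [p4]
  have p5 : 0 ≤ 51 * C₀ * Cn * (P * (K : ℝ) ^ 3) * (E * X) := by positivity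
  have p6 : 0 ≤ (C₀ * G1 + 9 * C₀ * G2) * (P * (K : ℝ) ^ 3) * X ^ q := by positivity
  linarith

end Pool.Agent.MP_291b24_nt.Sm
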