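import Pool.Agent.Lib.MP_291b24_nt.Sm.Abel
import Pool.Agent.Lib.MP_291b24_nt.Sm.M12

/-! Lemmas for the bound of `G` inside the window -/

set_option autoImplicit false

open Complex MeasureTheory

namespace Pool.Agent.MP_291b24_nt.Sm

theorem gvx_core {f Sx : ℝ → ℂ} (hf : Measurable f) (hSm : Measurable Sx) {m1 m2 κ : ℂ} {p B J : ℝ}
    (hp1 : p ≤ 1) (hκ : 1 ≤ κ.re) (hB : 0 ≤ B)
    (hint : IntegrableOn (fun x : ℝ => x ^ p * ‖f x‖) (Set.Ioi 0))
    (hJ : ∫ x in Set.Ioi (0 : ℝ), x ^ p * ‖f x‖ ≤ J)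
    (h1 : IntegrableOn (fun x : ℝ => (x : ℂ) ^ (1 : ℂ) * f x) (Set.Ioi 0))
    (h2 : IntegrableOn (fun x : ℝ => (x : ℂ) ^ κ * f x) (Set.Ioi 0))
    (hE : ∀ x : ℝ, 1 ≤ x → ‖Sx x - x * m1 - (x : ℂ) ^ κ * m2‖ ≤ B * x ^ p) :
    ‖∫ x in Set.Ioi (1 : ℝ), Sx x * f x‖ ≤ (B + ‖m1‖ + ‖m2‖) * J +
      ‖m1‖ * ‖∫ x in Set.Ioi (0 : ℝ), (x : ℂ) ^ (1 : ℂ) * f x‖ +
      ‖m2‖ * ‖∫ x in Set.Ioi (0 : ℝ), (x : ℂ) ^ κ * f x‖ := by
  have hsub : Set.Ioi (1 : ℝ) ⊆ Set.Ioi 0 := Set.Ioi_subset_Ioi zero_le_one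
  have hint1 := hint.mono_set hsub
  have hpos : ∀ x ∈ Set.Ioi (0 : ℝ), 0 ≤ x ^ p * ‖f x‖ := fun x hx =>
    mul_nonneg (Real.rpow_nonneg (le_of_lt hx) p) (norm_nonneg _)
  -- the part on (0, 1]
  have hlow : ∀ κ' : ℂ, 1 ≤ κ'.re → IntegrableOn (fun x : ℝ => (x : ℂ) ^ κ' * f x) (Set.Ioi 0) →
      ‖∫ x in Set.Ioi (1 : ℝ), (x : ℂ) ^ κ' * f x‖ ≤ ‖∫ x in Set.Ioi (0 : ℝ), (x : ℂ) ^ κ' * f x‖ + J := by
    intro κ' hκ' hi
    have hsplit : ∫ x in Set.Ioi (0 : ℝ), (x : ℂ) ^ κ' * f x =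
        (∫ x in Set.Ioc (0 : ℝ) 1, (x : ℂ) ^ κ' * f x) + ∫ x in Set.Ioi (1 : ℝ), (x : ℂ) ^ κ' * f x := by
      rw [← setIntegral_union (Set.Ioc_disjoint_Ioi le_rfl) measurableSet_Ioi
        (hi.mono_set Set.Ioc_subset_Ioi_self) (hi.mono_set hsub), Set.Ioc_union_Ioi_eq_Ioi zero_le_one]
    have h3 : ∫ x in Set.Ioi (1 : ℝ), (x : ℂ) ^ κ' * f x =
        (∫ x in Set.Ioi (0 : ℝ), (x : ℂ) ^ κ' * f x) - ∫ x in Set.Ioc (0 : ℝ) 1, (x : ℂ) ^ κ' * f x := by
      rw [hsplit]; ring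
    rw [h3]
    refine (norm_sub_le _ _).trans (add_le_add le_rfl ?_)
    refine (norm_integral_le_integral_norm _).trans (le_trans ?_ hJ)
    refine le_trans ?_ (setIntegral_mono_set hint
      ((ae_restrict_iff' measurableSet_Ioi).2 (Filter.Eventually.of_forall hpos))
      (Filter.Eventually.of_forall (Set.Ioc_subset_Ioi_self : Set.Ioc (0 : ℝ) 1 ⊆ Set.Ioi 0)))
    refine setIntegral_mono_on (hi.mono_set Set.Ioc_subset_Ioi_self).norm
      (hint.mono_set Set.Ioc_subset_Ioi_self) measurableSet_Ioc ?_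
    intro x hx
    rw [norm_mul, Complex.norm_cpow_eq_rpow_re_of_pos hx.1]
    exact mul_le_mul_of_nonneg_right (Real.rpow_le_rpow_of_exponent_ge hx.1 hx.2 (hp1.trans hκ')) (norm_nonneg _)
  -- the error part
  have hEm : Measurable (fun x : ℝ => Sx x - x * m1 - (x : ℂ) ^ κ * m2) := by fun_prop
  have hEi : IntegrableOn (fun x : ℝ => (Sx x - x * m1 - (x : ℂ) ^ κ * m2) * f x) (Set.Ioi 1) := by
    refine Integrable.mono' (hint1.const_mul B) (hEm.mul hf).aestronglyMeasurable ?_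
    refine (ae_restrict_iff' measurableSet_Ioi).2 (Filter.Eventually.of_forall fun x hx => ?_)
    rw [norm_mul, ← mul_assoc]
    exact mul_le_mul_of_nonneg_right (hE x (le_of_lt hx)) (norm_nonneg _)
  have hEb : ‖∫ x in Set.Ioi (1 : ℝ), (Sx x - x * m1 - (x : ℂ) ^ κ * m2) * f x‖ ≤ B * J := by
    refine (norm_integral_le_integral_norm _).trans ?_
    have h5 : ∫ x in Set.Ioi (1 : ℝ), ‖(Sx x - x * m1 - (x : ℂ) ^ κ * m2) * f x‖ ≤
        ∫ x in Set.Ioi (1 : ℝ), B * (x ^ p * ‖f x‖) := by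
      refine setIntegral_mono_on hEi.norm (hint1.const_mul B) measurableSet_Ioi fun x hx => ?_
      rw [norm_mul, ← mul_assoc]
      exact mul_le_mul_of_nonneg_right (hE x (le_of_lt hx)) (norm_nonneg _)
    refine h5.trans ?_
    rw [integral_const_mul]
    refine mul_le_mul_of_nonneg_left (le_trans ?_ hJ) hB
    exact setIntegral_mono_set hint
      ((ae_restrict_iff' measurableSet_Ioi).2 (Filter.Eventually.of_forall hpos))
      (Filter.Eventually.of_forall hsub)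
  have hsum : ∫ x in Set.Ioi (1 : ℝ), Sx x * f x =
      (∫ x in Set.Ioi (1 : ℝ), (Sx x - x * m1 - (x : ℂ) ^ κ * m2) * f x) +
      m1 * (∫ x in Set.Ioi (1 : ℝ), (x : ℂ) ^ (1 : ℂ) * f x) + m2 * ∫ x in Set.Ioi (1 : ℝ), (x : ℂ) ^ κ * f x := by
    have i1 : IntegrableOn (fun x : ℝ => (Sx x - x * m1 - (x : ℂ) ^ κ * m2) * f x +
        m1 * ((x : ℂ) ^ (1 : ℂ) * f x)) (Set.Ioi 1) := hEi.add ((h1.mono_set hsub).const_mul m1)
    rw [← integral_const_mul, ← integral_const_mul, ← integral_add hEi ((h1.mono_set hsub).const_mul m1),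
      ← integral_add i1 ((h2.mono_set hsub).const_mul m2)]
    refine integral_congr_ae (Filter.Eventually.of_forall fun x => ?_)
    simp only [Complex.cpow_one]
    ring
  rw [hsum]
  refine (norm_add_le _ _).trans ((add_le_add (norm_add_le _ _) le_rfl).trans ?_)
  rw [norm_mul, norm_mul]
  have e1 := mul_le_mul_of_nonneg_left (hlow 1 (by simp) h1) (norm_nonneg m1)
  have e2 := mul_le_mul_of_nonneg_left (hlow κ hκ h2) (norm_nonneg m2)
  nlinarith [e1, e2, hEb]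

theorem gvx_meas_S (α β : ℂ) : Measurable (fun x : ℝ => S x α β) := by
  have h : Measurable (fun N : ℕ => ∑ n ∈ (Finset.Icc 1 N).filter (fun n => Odd n ∧ Squarefree n),
    Lchi n (1 / 2 + α) * (Lchi n (1 / 2 + β))⁻¹) := measurable_from_nat
  exact h.comp Nat.measurable_floor

theorem gvx_meas_nd (M : ℕ) (N₀ : ℝ) (w : ℂ) : Measurable (nd M N₀ w) := by
  unfold nd ups
  fun_prop

theorem gvx_gam {M : ℕ} (hM : 1 ≤ M) {x₀ k : ℝ} (hx : 0 < x₀) {v : ℂ} (hv : v.re = x₀) (hk : k ≤ |v.im|) :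
    ‖Gamma (v / M) / M‖ ≤ Real.Gamma (x₀ / M) * Real.cos 1 ^ (-(x₀ / M)) * Real.exp (-(1 / M * k)) := by
  have hM0 : (1 : ℝ) ≤ M := by exact_mod_cast hM
  have hM1 : (0 : ℝ) < M := by linarith
  have e1 : v / M = ((x₀ / M : ℝ) : ℂ) + ((v.im / M : ℝ) : ℂ) * I := by
    rw [← hv]
    push_cast
    rw [div_mul_eq_mul_div, ← add_div, Complex.re_add_im]
  have h2 := norm_Gamma_le (div_pos hx hM1) (v.im / M)
  rw [← e1] at h2
  have hc : 0 ≤ Real.Gamma (x₀ / M) * Real.cos 1 ^ (-(x₀ / M)) :=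
    mul_nonneg (Real.Gamma_pos_of_pos (div_pos hx hM1)).le (Real.rpow_nonneg Real.cos_one_pos.le _)
  rw [norm_div, Complex.norm_natCast]
  refine (div_le_self (norm_nonneg _) hM0).trans (h2.trans (mul_le_mul_of_nonneg_left ?_ hc))
  apply Real.exp_le_exp.2
  rw [abs_div, abs_of_pos hM1, neg_le_neg_iff, one_div, inv_mul_eq_div]
  exact div_le_div_of_nonneg_right hk hM1.le

/-- the error term, for all `x ≥ 1` -/
theorem gvx_errB (hG : GRH) {r a ε θ C₁ K₀ X₀ : ℝ} (hr : 0 < r) (hra : r < a) (ha : a < 1 / 4) (hε : 0 < ε) (hε1 : ε < a - r)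
    (hθ : 0 < θ) (hC₁ : 0 < C₁) (hX₀ : 2 ≤ X₀) (hB : Bd r a ε θ C₁ K₀ X₀) : ∃ A C : ℝ, 0 < A ∧ 0 < C ∧ ∀ K : ℕ, 16 ≤ K → ∀ α β : ℂ,
    α.re = -a → β.re = r → 1 ≤ |α.im| → |α.im| ≤ 8 * K → |β.im| ≤ 8 * K →
    ‖M1 1 α β‖ ≤ C * (K : ℝ) ^ A ∧ ‖M2 1 α β‖ ≤ C * (K : ℝ) ^ A ∧
    ∀ x : ℝ, 1 ≤ x → ‖S x α β - x * M1 1 α β - (x : ℂ) ^ (1 - α) * M2 1 α β‖ ≤ C * (K : ℝ) ^ A * x ^ (1 / 2 + ε) := by
  obtain ⟨As, Cs, hAs, hCs, hS⟩ := norm_S_le hG hr hra ha
  obtain ⟨Am, Cm, hAm, hCm, hm⟩ := m12_bound hG hr hra ha hε (by linarith) hθ hC₁ hX₀ hB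
  have hpi := Real.pi_pos
  have hpi3 := Real.pi_gt_three
  set CX : ℝ := X₀ + (25 * Real.pi / C₁) ^ (1 / θ) with hCX
  have hCX0 : 0 ≤ (25 * Real.pi / C₁) ^ (1 / θ) := by positivity
  have hCX2 : 2 ≤ CX := by linarith
  have hCX1 : 0 < CX := by linarith
  have hθ' : 0 < 1 / θ := by positivity
  refine ⟨(1 / θ + 2) * As + 2 / θ + Am, |K₀| + Cs * (100 * CX) ^ As + CX * Cm + CX ^ (2 : ℝ) * Cm + Cm, by positivity,
    by positivity, ?_⟩
  intro K hK α β hα hβ h1 h2 h3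
  have hk16 : (16 : ℝ) ≤ K := by exact_mod_cast hK
  have hk1 : (1 : ℝ) ≤ K := by linarith
  have hk0 : (0 : ℝ) < K := by linarith
  set k : ℝ := (K : ℝ) with hkdef
  have h25 : 8 * k ≤ 25 * Real.pi * k := by nlinarith
  obtain ⟨g1, g2⟩ := hm K hK α β hα hβ h1 (h2.trans h25) (h3.trans h25)
  rw [← hkdef] at g1 g2
  have hP : ∀ e : ℝ, e ≤ (1 / θ + 2) * As + 2 / θ + Am → k ^ e ≤ k ^ ((1 / θ + 2) * As + 2 / θ + Am) := fun e he =>
    Real.rpow_le_rpow_of_exponent_le hk1 he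
  set P : ℝ := k ^ ((1 / θ + 2) * As + 2 / θ + Am) with hPdef
  have h2θ : 2 / θ = 2 * (1 / θ) := by ring
  have hP1 : 1 ≤ P := by
    have := hP 0 (by positivity)
    rwa [Real.rpow_zero] at this
  have hP0 : 0 < P := by linarith
  have hPm : k ^ Am ≤ P := hP Am (by
    have : 0 ≤ (1 / θ + 2) * As + 2 / θ := by positivity
    linarith)
  have t1 : 0 ≤ |K₀| := abs_nonneg _
  have t2 : 0 ≤ Cs * (100 * CX) ^ As := by positivity
  have t3 : 0 ≤ CX * Cm := by positivity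
  have t4 : 0 ≤ CX ^ (2 : ℝ) * Cm := by positivity
  have hCmP : Cm * k ^ Am ≤ (|K₀| + Cs * (100 * CX) ^ As + CX * Cm + CX ^ (2 : ℝ) * Cm + Cm) * P := by
    refine (mul_le_mul_of_nonneg_left hPm hCm.le).trans (mul_le_mul_of_nonneg_right ?_ hP0.le)
    linarith
  refine ⟨g1.trans hCmP, g2.trans hCmP, ?_⟩
  intro x hx
  have hx0 : 0 < x := by linarith
  have hxp : 1 ≤ x ^ (1 / 2 + ε) := Real.one_le_rpow hx (by linarith)
  rcases le_or_gt (CX * k ^ (1 / θ)) x with hc | hc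
  · -- large `x`
    have hk1' : 1 ≤ k ^ (1 / θ) := Real.one_le_rpow hk1 hθ'.le
    have hx2 : X₀ ≤ x := by nlinarith
    have hxθ : 25 * Real.pi * k ≤ C₁ * x ^ θ := by
      have h6 : (25 * Real.pi / C₁) ^ (1 / θ) * k ^ (1 / θ) ≤ x := by nlinarith
      have h7 : ((25 * Real.pi / C₁) ^ (1 / θ) * k ^ (1 / θ)) ^ θ ≤ x ^ θ :=
        Real.rpow_le_rpow (by positivity) h6 hθ.le
      rw [← Real.mul_rpow (by positivity) hk0.le, ← Real.rpow_mul (by positivity), one_div,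
        inv_mul_cancel₀ hθ.ne', Real.rpow_one] at h7
      have h8 := mul_le_mul_of_nonneg_left h7 hC₁.le
      have h9 : C₁ * (25 * Real.pi / C₁ * k) = 25 * Real.pi * k := by
        field_simp
      rwa [h9] at h8
    have h5 := hB x hx2 α β hα hβ ((h2.trans h25).trans hxθ) ((h3.trans h25).trans hxθ)
    rw [M1_eq x, M2_eq hx0] at h5
    refine h5.trans (mul_le_mul_of_nonneg_right ?_ (by positivity))
    refine (le_abs_self K₀).trans ?_
    calc |K₀| = |K₀| * 1 := (mul_one _).symm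
      _ ≤ (|K₀| + Cs * (100 * CX) ^ As + CX * Cm + CX ^ (2 : ℝ) * Cm + Cm) * P :=
        mul_le_mul (by linarith) hP1 zero_le_one (by positivity)
  · -- small `x`
    have hS1 := hS x hx α β hα hβ h1
    have b1 : ‖S x α β‖ ≤ Cs * (100 * CX) ^ As * P := by
      refine hS1.trans ?_
      rw [mul_assoc Cs ((100 * CX) ^ As) P]
      refine mul_le_mul_of_nonneg_left ?_ hCs.le
      have h6 : x * (|α.im| + 2) * (|β.im| + 2) ≤ 100 * CX * k ^ (1 / θ + 2) := by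
        have e1 : |α.im| + 2 ≤ 10 * k := by linarith
        have e2 : |β.im| + 2 ≤ 10 * k := by linarith
        have e3 : x * (|α.im| + 2) ≤ CX * k ^ (1 / θ) * (10 * k) :=
          mul_le_mul hc.le e1 (by positivity) (by positivity)
        have e4 : x * (|α.im| + 2) * (|β.im| + 2) ≤ CX * k ^ (1 / θ) * (10 * k) * (10 * k) :=
          mul_le_mul e3 e2 (by positivity) (by positivity)
        refine e4.trans (le_of_eq ?_)
        rw [Real.rpow_add hk0, Real.rpow_two]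
        ring
      refine (Real.rpow_le_rpow (by positivity) h6 hAs.le).trans ?_
      rw [Real.mul_rpow (by positivity) (by positivity), ← Real.rpow_mul hk0.le]
      refine mul_le_mul_of_nonneg_left (hP _ ?_) (by positivity)
      have : 0 ≤ 2 / θ + Am := by positivity
      linarith
    have b2 : ‖(x : ℂ) * M1 1 α β‖ ≤ CX * Cm * P := by
      rw [norm_mul, Complex.norm_real, Real.norm_of_nonneg hx0.le]
      refine (mul_le_mul hc.le g1 (norm_nonneg _) (by positivity)).trans ?_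
      have : CX * k ^ (1 / θ) * (Cm * k ^ Am) = CX * Cm * k ^ (1 / θ + Am) := by
        rw [Real.rpow_add hk0]; ring
      rw [this]
      refine mul_le_mul_of_nonneg_left (hP _ ?_) t3
      have : 0 ≤ (1 / θ + 2) * As := by positivity
      linarith
    have b3 : ‖(x : ℂ) ^ (1 - α) * M2 1 α β‖ ≤ CX ^ (2 : ℝ) * Cm * P := by
      rw [norm_mul, Complex.norm_cpow_eq_rpow_re_of_pos hx0]
      have e1 : x ^ (1 - α).re ≤ CX ^ (2 : ℝ) * k ^ (2 / θ) := by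
        refine (Real.rpow_le_rpow_of_exponent_le hx (show (1 - α).re ≤ 2 by
          rw [Complex.sub_re, Complex.one_re, hα]; linarith)).trans ?_
        refine (Real.rpow_le_rpow hx0.le hc.le (by norm_num)).trans (le_of_eq ?_)
        rw [Real.mul_rpow (by positivity) (by positivity), ← Real.rpow_mul hk0.le]
        congr 2
        ring
      refine (mul_le_mul e1 g2 (norm_nonneg _) (by positivity)).trans ?_
      have : CX ^ (2 : ℝ) * k ^ (2 / θ) * (Cm * k ^ Am) = CX ^ (2 : ℝ) * Cm * k ^ (2 / θ + Am) := by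
        rw [Real.rpow_add hk0]; ring
      rw [this]
      refine mul_le_mul_of_nonneg_left (hP _ ?_) t4
      have : 0 ≤ (1 / θ + 2) * As := by positivity
      linarith
    have b4 : ‖S x α β - x * M1 1 α β - (x : ℂ) ^ (1 - α) * M2 1 α β‖ ≤
        (|K₀| + Cs * (100 * CX) ^ As + CX * Cm + CX ^ (2 : ℝ) * Cm + Cm) * P := by
      refine (norm_sub_le _ _).trans ((add_le_add ((norm_sub_le _ _).trans (add_le_add b1 b2)) b3).trans ?_)
      have e1 := mul_nonneg t1 hP0.le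
      have e2 := mul_nonneg hCm.le hP0.le
      rw [add_mul, add_mul, add_mul, add_mul]
      linarith
    refine b4.trans ?_
    exact le_mul_of_one_le_right (by positivity) hxp

end Pool.Agent.MP_291b24_nt.Sm
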