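import Pool.Agent.Lib.MP_291b24_nt.Sm.PsiL
import Pool.Agent.Lib.MP_291b24_nt.Sm.AB

/-! Bound of `1 / L(s, ψ_{-m})` -/

set_option autoImplicit false

open Complex

namespace Pool.Agent.MP_291b24_nt.Sm

private lemma inv_Lpsi_aux {σ₀ ε' : ℝ} (h1 : 1 / 4 ≤ σ₀) (h2 : σ₀ ≤ 1) (hε : 0 < ε') (hε2 : ε' ≤ 1 / 4) :
    ∃ C : ℝ, 0 < C ∧ ∀ m : ℕ, 1 ≤ m → (∀ s : ℂ, σ₀ < s.re → Lpsi m s ≠ 0) →
      ∀ s : ℂ, σ₀ + ε' ≤ s.re → ‖(Lpsi m s)⁻¹‖ ≤ C * (m * (|s.im| + 2)) ^ ε' := by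
  obtain ⟨C₀, hC₀, hb⟩ := norm_Lpsi_le' (x := 3 / 2) (by norm_num)
  obtain ⟨C₁, hC₁, hAB⟩ := AB (ρ₁ := 1 / 2) (ρ₂ := 2 - σ₀ - ε') (ρ₃ := 2 - σ₀ - ε' / 2) (M₁ := C₀)
    (c₁ := C₀⁻¹) (δ := ε') (by norm_num) (by linarith) (by linarith) hC₀ (inv_pos.2 hC₀) hε
  refine ⟨C₀ + C₁ * 32 ^ ε', by positivity, fun m hm hZ s hs => ?_⟩
  have hm' : (1 : ℝ) ≤ m := by exact_mod_cast hm
  have hbase : (1 : ℝ) ≤ m * (|s.im| + 2) := by nlinarith [abs_nonneg s.im]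
  have hpow : (1 : ℝ) ≤ (m * (|s.im| + 2)) ^ ε' := Real.one_le_rpow hbase hε.le
  rcases le_or_gt 2 s.re with h | h
  · calc ‖(Lpsi m s)⁻¹‖ ≤ C₀ := (hb m hm s (by linarith)).2
      _ ≤ (C₀ + C₁ * 32 ^ ε') * 1 := by
          rw [mul_one]
          have : 0 < C₁ * 32 ^ ε' := by positivity
          linarith
      _ ≤ _ := mul_le_mul_of_nonneg_left hpow (by positivity)
  · set z₀ : ℂ := ⟨2, s.im⟩ with hz₀
    have hz₀n : ‖z₀‖ ≤ 2 + |s.im| := by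
      refine (Complex.norm_le_abs_re_add_abs_im z₀).trans ?_
      simp [hz₀]
    have hre : ∀ (z : ℂ) (ρ : ℝ), z ∈ Metric.ball z₀ ρ → 2 - ρ < z.re := by
      intro z ρ hz
      have h3 : |(z - z₀).re| < ρ := (Complex.abs_re_le_norm _).trans_lt (by
        rw [← dist_eq_norm]; exact hz)
      have h4 := (abs_lt.1 h3).1
      have h5 : (z - z₀).re = z.re - 2 := by simp [hz₀]
      rw [h5] at h4
      linarith
    have key := hAB (Lpsi m) z₀ (32 * (m * (|s.im| + 2))) (by linarith)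
      ((differentiable_Lpsi m).differentiableOn)
      (fun z hz => hZ z (by
        have := hre z _ hz
        linarith))
      (fun z hz => by
        have h3 := hre z _ hz
        have h4 : 1 / 4 < z.re := by linarith
        have h5 : ‖z‖ ≤ 2 * (|s.im| + 2) := by
          have h6 : ‖z - z₀‖ < 2 - σ₀ - ε' / 2 := by
            rw [← dist_eq_norm]; exact hz
          calc ‖z‖ = ‖(z - z₀) + z₀‖ := by rw [sub_add_cancel]
            _ ≤ ‖z - z₀‖ + ‖z₀‖ := norm_add_le _ _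
            _ ≤ 2 * (|s.im| + 2) := by linarith [abs_nonneg s.im]
        refine (norm_Lpsi_le m z (by linarith)).trans ?_
        rw [div_le_iff₀ (by linarith)]
        have h7 : (4 : ℝ) * m * ‖z‖ ≤ 4 * m * (2 * (|s.im| + 2)) :=
          mul_le_mul_of_nonneg_left h5 (by positivity)
        have h8 : 32 * ((m : ℝ) * (|s.im| + 2)) * (1 / 4) ≤ 32 * (m * (|s.im| + 2)) * z.re :=
          mul_le_mul_of_nonneg_left h4.le (by positivity)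
        linarith)
      (fun z hz => (hb m hm z (by
        have := hre z _ hz
        linarith)).1)
      (by
        have h3 : (3 / 2 : ℝ) ≤ z₀.re := by simp [hz₀]; norm_num
        have h4 := (hb m hm z₀ h3).2
        have h5 : Lpsi m z₀ ≠ 0 := hZ z₀ (by linarith)
        rw [norm_inv] at h4
        exact inv_le_of_inv_le₀ (norm_pos_iff.2 h5) h4)
      s (by
        rw [Metric.mem_closedBall, dist_eq_norm]
        have h3 : s - z₀ = ((s.re - 2 : ℝ) : ℂ) := by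
          apply Complex.ext <;> simp [hz₀]
        rw [h3, Complex.norm_real, Real.norm_eq_abs, abs_of_neg (by linarith)]
        linarith)
    refine key.trans ?_
    rw [Real.mul_rpow (by norm_num) (by linarith)]
    have h3 : C₁ * (32 ^ ε' * ((m : ℝ) * (|s.im| + 2)) ^ ε') = C₁ * 32 ^ ε' * (m * (|s.im| + 2)) ^ ε' := by ring
    rw [h3]
    exact mul_le_mul_of_nonneg_right (by linarith) (by linarith)

/-- `AB` with `z₀ = 2 + i t`, `ρ₃ = 2 - σ₀ - ε'/2`, `ρ₂ = 2 - σ₀ - ε'`, `ρ₁ = 1/2`, `M = C m (|t| + 2)` (`norm_Lpsi_le`, real part `≥ 1/2`),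
`norm_Lpsi_le'` for the small disc, the centre and for `Re s ≥ 2`. -/
theorem inv_Lpsi {σ₀ ε' : ℝ} (h1 : 1 / 4 ≤ σ₀) (h2 : σ₀ ≤ 1) (hε : 0 < ε') (hε2 : ε' ≤ 1 / 4) (hZ : ZZ σ₀) :
    ∃ C : ℝ, 0 < C ∧ ∀ m : ℕ, 1 ≤ m → ∀ s : ℂ, σ₀ + ε' ≤ s.re → ‖(Lpsi m s)⁻¹‖ ≤ C * (m * (|s.im| + 2)) ^ ε' := by
  obtain ⟨C, hC, h⟩ := inv_Lpsi_aux h1 h2 hε hε2
  exact ⟨C, hC, fun m hm => h m hm (hZ m hm)⟩

/-- the same for one function -/
theorem inv_Lpsi_one {m : ℕ} (hm : 1 ≤ m) {σ₀ ε' : ℝ} (h1 : 1 / 4 ≤ σ₀) (h2 : σ₀ ≤ 1) (hε : 0 < ε') (hε2 : ε' ≤ 1 / 4)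
    (hZ : ∀ s : ℂ, σ₀ < s.re → Lpsi m s ≠ 0) :
    ∃ C : ℝ, 0 < C ∧ ∀ s : ℂ, σ₀ + ε' ≤ s.re → ‖(Lpsi m s)⁻¹‖ ≤ C * (|s.im| + 2) ^ ε' := by
  obtain ⟨C, hC, h⟩ := inv_Lpsi_aux h1 h2 hε hε2
  have hm' : (0 : ℝ) < m := by exact_mod_cast hm
  refine ⟨C * (m : ℝ) ^ ε', by positivity, fun s hs => (h m hm hZ s hs).trans (le_of_eq ?_)⟩
  rw [Real.mul_rpow hm'.le (by positivity), mul_assoc]

end Pool.Agent.MP_291b24_nt.Sm
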