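import Pool.Agent.Lib.MP_291b24_nt.Sm.KerA

/-! Derivatives of the kernel -/

set_option autoImplicit false

open Complex MeasureTheory

namespace Pool.Agent.MP_291b24_nt.Sm

/-- the denominator -/
private noncomputable def kbD (ρ x : ℝ) : ℂ := 1 + 2 * Real.pi * I * ((ρ * Real.exp (-x) - 1 : ℝ) : ℂ)

private theorem kbD_re (ρ x : ℝ) : (kbD ρ x).re = 1 := by
  unfold kbD
  have e : (1 + 2 * Real.pi * I * ((ρ * Real.exp (-x) - 1 : ℝ) : ℂ) : ℂ) =
      1 + ((2 * Real.pi * (ρ * Real.exp (-x) - 1) : ℝ) : ℂ) * I := by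
    push_cast
    ring
  rw [e, add_re, one_re, re_ofReal_mul, I_re, mul_zero, add_zero]

private theorem kbD_ne (ρ x : ℝ) : kbD ρ x ≠ 0 := by
  intro h
  have := kbD_re ρ x
  rw [h] at this
  simp at this

private theorem kbD_norm (ρ x : ℝ) : 1 ≤ ‖kbD ρ x‖ := by
  have h := Complex.abs_re_le_norm (kbD ρ x)
  rw [kbD_re, abs_one] at h
  exact h

private theorem kb_eq (K : ℕ) (ρ x : ℝ) : Fk K ρ x =
    ((Real.exp (-x) : ℝ) : ℂ) * ((Real.sqrt K : ℂ) * ((kbD ρ x) ^ (K + 1))⁻¹) * ph K x := rfl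

private theorem kb_cont_real {f : ℝ → ℝ} (hf : ContDiff ℝ 2 f) : ContDiff ℝ 2 (fun x => ((f x : ℝ) : ℂ)) :=
  Complex.ofRealCLM.contDiff.comp hf

theorem contDiff_Fk (K : ℕ) (ρ : ℝ) : ContDiff ℝ 2 (Fk K ρ) := by
  have h1 : ContDiff ℝ 2 (fun x : ℝ => ((Real.exp (-x) : ℝ) : ℂ)) :=
    kb_cont_real (Real.contDiff_exp.comp contDiff_neg)
  have h2 : ContDiff ℝ 2 (fun x : ℝ => kbD ρ x) := by
    unfold kbD
    refine contDiff_const.add (contDiff_const.mul (kb_cont_real ?_))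
    exact (contDiff_const.mul (Real.contDiff_exp.comp contDiff_neg)).sub contDiff_const
  have h3 : ContDiff ℝ 2 (fun x : ℝ => ((kbD ρ x) ^ (K + 1))⁻¹) :=
    (h2.pow (K + 1)).inv fun x => pow_ne_zero _ (kbD_ne ρ x)
  have h4 : ContDiff ℝ 2 (fun x : ℝ => ph K x) := by
    unfold ph
    refine ContDiff.cexp ?_
    refine ContDiff.sub ?_ ?_
    · refine ContDiff.mul (ContDiff.neg (kb_cont_real ?_)) contDiff_const
      exact contDiff_const.mul contDiff_id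
    · refine kb_cont_real ?_
      exact contDiff_const.mul (contDiff_id.pow 2)
  have h5 : Fk K ρ = fun x : ℝ => ((Real.exp (-x) : ℝ) : ℂ) * ((Real.sqrt K : ℂ) * ((kbD ρ x) ^ (K + 1))⁻¹) * ph K x := by
    funext x
    exact kb_eq K ρ x
  rw [h5]
  exact (h1.mul (contDiff_const.mul h3)).mul h4

/-- the logarithmic derivative of the kernel -/
noncomputable def PP (K : ℕ) (ρ x : ℝ) : ℂ :=
  -1 + 2 * Real.pi * I - K * x + (K + 1) * (1 - 2 * Real.pi * I) *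
    (2 * Real.pi * I * ((ρ * Real.exp (-x) - 1 : ℝ) : ℂ)) / (1 + 2 * Real.pi * I * ((ρ * Real.exp (-x) - 1 : ℝ) : ℂ))

private theorem kb_hasD_exp (x : ℝ) : HasDerivAt (fun x : ℝ => ((Real.exp (-x) : ℝ) : ℂ)) (-((Real.exp (-x) : ℝ) : ℂ)) x := by
  have h : HasDerivAt (fun x : ℝ => Real.exp (-x)) (Real.exp (-x) * (-1)) x := by
    have := (Real.hasDerivAt_exp (-x)).comp x (hasDerivAt_neg x)
    exact this
  have h2 := h.ofReal_comp
  have h3 : (((Real.exp (-x) * (-1) : ℝ)) : ℂ) = -((Real.exp (-x) : ℝ) : ℂ) := by push_cast; ring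
  rw [h3] at h2
  exact h2

private theorem kb_hasD_D (ρ x : ℝ) : HasDerivAt (fun x : ℝ => kbD ρ x)
    (-(2 * Real.pi * I * ((ρ * Real.exp (-x) : ℝ) : ℂ))) x := by
  have h : HasDerivAt (fun x : ℝ => ((ρ * Real.exp (-x) - 1 : ℝ) : ℂ)) (-((ρ * Real.exp (-x) : ℝ) : ℂ)) x := by
    have h1 := ((kb_hasD_exp x).const_mul (ρ : ℂ)).sub_const (1 : ℂ)
    have e1 : (fun x : ℝ => (ρ : ℂ) * ((Real.exp (-x) : ℝ) : ℂ) - 1) = (fun x : ℝ => ((ρ * Real.exp (-x) - 1 : ℝ) : ℂ)) := by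
      funext y; push_cast; ring
    have e2 : (ρ : ℂ) * -((Real.exp (-x) : ℝ) : ℂ) = -((ρ * Real.exp (-x) : ℝ) : ℂ) := by push_cast; ring
    rw [e1, e2] at h1
    exact h1
  have h2 := (h.const_mul (2 * Real.pi * I : ℂ)).const_add (1 : ℂ)
  have e3 : (2 * Real.pi * I : ℂ) * -((ρ * Real.exp (-x) : ℝ) : ℂ) = -(2 * Real.pi * I * ((ρ * Real.exp (-x) : ℝ) : ℂ)) := by ring
  rw [e3] at h2
  exact h2

private theorem kb_hasD_ph (K : ℕ) (x : ℝ) : HasDerivAt (ph K)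
    (ph K x * (-(2 * Real.pi * K * I) - K * x)) x := by
  have h1 : HasDerivAt (fun x : ℝ => (x : ℂ)) 1 x := (hasDerivAt_id x).ofReal_comp
  have h2 : HasDerivAt (fun x : ℝ => -((2 * Real.pi * K * x : ℝ) : ℂ) * I - (((K : ℝ) / 2 * x ^ 2 : ℝ) : ℂ))
      (-(2 * Real.pi * K * I) - K * x) x := by
    have h3 := ((h1.const_mul (-(2 * Real.pi * K * I) : ℂ))).sub ((h1.pow 2).const_mul ((K : ℂ) / 2))
    have e1 : (fun x : ℝ => (-(2 * Real.pi * K * I) : ℂ) * (x : ℂ)) - (fun x : ℝ => ((K : ℂ) / 2) * ((fun x : ℝ => (x : ℂ)) ^ 2) x)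
        = (fun x : ℝ => -((2 * Real.pi * K * x : ℝ) : ℂ) * I - (((K : ℝ) / 2 * x ^ 2 : ℝ) : ℂ)) := by
      funext y
      simp only [Pi.sub_apply, Pi.pow_apply]
      push_cast
      ring
    have e2 : (-(2 * Real.pi * K * I) : ℂ) * 1 - (K : ℂ) / 2 * (((2 : ℕ) : ℂ) * (x : ℂ) ^ (2 - 1) * 1)
        = (-(2 * Real.pi * K * I) - K * x) := by
      push_cast
      ring
    rw [e2] at h3
    rw [← e1]
    exact h3
  exact h2.cexp

private theorem kb_hasD (K : ℕ) (ρ x : ℝ) : HasDerivAt (Fk K ρ) (Fk K ρ x * PP K ρ x) x := by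
  have hD := kb_hasD_D ρ x
  have hne := kbD_ne ρ x
  have hW : HasDerivAt (fun x : ℝ => (Real.sqrt K : ℂ) * ((kbD ρ x) ^ (K + 1))⁻¹)
      ((Real.sqrt K : ℂ) * ((kbD ρ x) ^ (K + 1))⁻¹ * ((K + 1) * (2 * Real.pi * I * ((ρ * Real.exp (-x) : ℝ) : ℂ)) / kbD ρ x)) x := by
    have h1 := ((hD.pow (K + 1)).inv (pow_ne_zero _ hne)).const_mul (Real.sqrt K : ℂ)
    have e : (Real.sqrt K : ℂ) * (-(((K + 1 : ℕ) : ℂ) * (kbD ρ x) ^ (K + 1 - 1) * (-(2 * Real.pi * I * ((ρ * Real.exp (-x) : ℝ) : ℂ)))) /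
        ((kbD ρ x) ^ (K + 1)) ^ 2) = (Real.sqrt K : ℂ) * ((kbD ρ x) ^ (K + 1))⁻¹ * ((K + 1) * (2 * Real.pi * I * ((ρ * Real.exp (-x) : ℝ) : ℂ)) / kbD ρ x) := by
      rw [Nat.add_sub_cancel]
      have hp : (kbD ρ x) ^ (K + 1) = (kbD ρ x) ^ K * kbD ρ x := pow_succ _ _
      have hp2 : (kbD ρ x) ^ K ≠ 0 := pow_ne_zero _ hne
      rw [hp]
      push_cast
      field_simp
    simp only [Pi.pow_apply] at h1
    rw [e] at h1
    exact h1
  have h := ((kb_hasD_exp x).mul hW).mul (kb_hasD_ph K x)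
  have e : (-((Real.exp (-x) : ℝ) : ℂ) * ((Real.sqrt K : ℂ) * ((kbD ρ x) ^ (K + 1))⁻¹) +
      ((Real.exp (-x) : ℝ) : ℂ) * ((Real.sqrt K : ℂ) * ((kbD ρ x) ^ (K + 1))⁻¹ * ((K + 1) * (2 * Real.pi * I * ((ρ * Real.exp (-x) : ℝ) : ℂ)) / kbD ρ x))) *
      ph K x + ((Real.exp (-x) : ℝ) : ℂ) * ((Real.sqrt K : ℂ) * ((kbD ρ x) ^ (K + 1))⁻¹) * (ph K x * (-(2 * Real.pi * K * I) - K * x))
      = Fk K ρ x * PP K ρ x := by
    rw [kb_eq]
    have hPP : PP K ρ x = -1 + ((K + 1) * (2 * Real.pi * I * ((ρ * Real.exp (-x) : ℝ) : ℂ)) / kbD ρ x) + (-(2 * Real.pi * K * I) - K * x) := by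
      have e0 : PP K ρ x = -1 + 2 * Real.pi * I - K * x + (K + 1) * (1 - 2 * Real.pi * I) *
        (kbD ρ x - 1) / kbD ρ x := by
        unfold PP kbD
        ring
      have e1 : (2 * Real.pi * I * ((ρ * Real.exp (-x) : ℝ) : ℂ)) = kbD ρ x - 1 + 2 * Real.pi * I := by
        unfold kbD
        push_cast
        ring
      rw [e0, e1]
      field_simp
      ring
    rw [hPP]
    ring
  simp only [Pi.mul_apply] at h
  rw [e] at h
  exact h

/-- `(ζ + 2πi) / (1 + ζ) - 2πi = ζ (1 - 2πi) / (1 + ζ)` with `ζ = 2πi (ρ e^(-x) - 1)` -/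
theorem deriv_Fk (K : ℕ) (ρ x : ℝ) : deriv (Fk K ρ) x = Fk K ρ x * PP K ρ x :=
  (kb_hasD K ρ x).deriv

private theorem kb_hasD2 (K : ℕ) (ρ x : ℝ) : HasDerivAt (PP K ρ)
    (-K + (K + 1) * (1 - 2 * Real.pi * I) * (-(2 * Real.pi * I * ((ρ * Real.exp (-x) : ℝ) : ℂ))) / (kbD ρ x) ^ 2) x := by
  have hD := kb_hasD_D ρ x
  have hne := kbD_ne ρ x
  have h1 : HasDerivAt (fun x : ℝ => (x : ℂ)) 1 x := (hasDerivAt_id x).ofReal_comp
  have h2 := (((h1.const_mul (K : ℂ)).const_sub (-1 + 2 * Real.pi * I)).add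
    (((hD.sub_const (1 : ℂ)).div hD hne).const_mul ((K + 1) * (1 - 2 * Real.pi * I) : ℂ)))
  have e1 : PP K ρ = (fun x : ℝ => (-1 + 2 * Real.pi * I : ℂ) - (K : ℂ) * (x : ℂ)) +
      fun x : ℝ => ((K + 1) * (1 - 2 * Real.pi * I) : ℂ) * ((fun x : ℝ => kbD ρ x - 1) / (fun x : ℝ => kbD ρ x)) x := by
    funext y
    simp only [Pi.add_apply, Pi.div_apply]
    unfold PP kbD
    ring
  rw [e1]
  refine h2.congr_deriv ?_
  have e2 : (-(2 * Real.pi * I * ((ρ * Real.exp (-x) : ℝ) : ℂ)) * kbD ρ x - (kbD ρ x - 1) * -(2 * Real.pi * I * ((ρ * Real.exp (-x) : ℝ) : ℂ)))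
      = (-(2 * Real.pi * I * ((ρ * Real.exp (-x) : ℝ) : ℂ))) := by ring
  rw [e2]
  ring

private theorem kb_dd (K : ℕ) (ρ x : ℝ) : deriv (deriv (Fk K ρ)) x = Fk K ρ x * (PP K ρ x ^ 2 +
    (-K + (K + 1) * (1 - 2 * Real.pi * I) * (-(2 * Real.pi * I * ((ρ * Real.exp (-x) : ℝ) : ℂ))) / (kbD ρ x) ^ 2)) := by
  have e : deriv (Fk K ρ) = fun x => Fk K ρ x * PP K ρ x := by
    funext y
    exact deriv_Fk K ρ y
  rw [e]
  have h := (kb_hasD K ρ x).mul (kb_hasD2 K ρ x)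
  have h' := h.deriv
  have e3 : (Fk K ρ * PP K ρ) = fun x => Fk K ρ x * PP K ρ x := rfl
  rw [e3] at h'
  rw [h']
  ring

private theorem kb_norm_c : ‖(1 - 2 * Real.pi * I : ℂ)‖ ≤ 73 / 10 := by
  have h := norm_sub_le (1 : ℂ) (2 * Real.pi * I)
  have h2 : ‖(2 * Real.pi * I : ℂ)‖ = 2 * Real.pi := by
    rw [norm_mul, norm_mul, norm_I, mul_one, Complex.norm_real, Real.norm_of_nonneg Real.pi_pos.le]
    norm_num
  rw [norm_one, h2] at h
  linarith [Real.pi_lt_d2]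

private theorem kb_norm_c2 : ‖(2 * Real.pi * I : ℂ)‖ ≤ 63 / 10 := by
  have h2 : ‖(2 * Real.pi * I : ℂ)‖ = 2 * Real.pi := by
    rw [norm_mul, norm_mul, norm_I, mul_one, Complex.norm_real, Real.norm_of_nonneg Real.pi_pos.le]
    norm_num
  rw [h2]
  linarith [Real.pi_lt_d2]

private theorem kb_exp_sub (x : ℝ) : |Real.exp (-x) - 1| ≤ |x| * Real.exp |x| := by
  rcases le_total 0 x with h | h
  · rw [abs_of_nonneg h, abs_of_nonpos (by linarith [Real.exp_le_one_iff.2 (by linarith : -x ≤ 0)])]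
    have h1 := Real.add_one_le_exp (-x)
    have h2 : 1 ≤ Real.exp x := Real.one_le_exp h
    nlinarith
  · rw [abs_of_nonpos h, abs_of_nonneg (by linarith [Real.one_le_exp (by linarith : 0 ≤ -x)])]
    have h1 := Real.add_one_le_exp x
    have h3 : Real.exp x * Real.exp (-x) = 1 := by rw [← Real.exp_add, add_neg_cancel, Real.exp_zero]
    have h4 := Real.exp_pos (-x)
    nlinarith [mul_le_mul_of_nonneg_right h1 h4.le]

private theorem kb_exp_le (x : ℝ) : Real.exp (-x) ≤ Real.exp |x| :=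
  Real.exp_le_exp.2 (neg_le_abs x)

private theorem kb_norm_zeta {ρ δ : ℝ} (hρ : |ρ - 1| ≤ δ) (x : ℝ) :
    ‖(2 * Real.pi * I * ((ρ * Real.exp (-x) - 1 : ℝ) : ℂ) : ℂ)‖ ≤ 63 / 10 * ((δ + |x|) * Real.exp |x|) := by
  rw [norm_mul, Complex.norm_real, Real.norm_eq_abs]
  refine mul_le_mul kb_norm_c2 ?_ (abs_nonneg _) (by norm_num)
  have e : ρ * Real.exp (-x) - 1 = (ρ - 1) * Real.exp (-x) + (Real.exp (-x) - 1) := by ring
  rw [e]
  refine (abs_add_le _ _).trans ?_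
  rw [abs_mul, abs_of_pos (Real.exp_pos (-x)), add_mul]
  refine add_le_add ?_ (kb_exp_sub x)
  exact mul_le_mul hρ (kb_exp_le x) (Real.exp_pos _).le ((abs_nonneg _).trans hρ)

private theorem kb_norm_div {ρ : ℝ} (x : ℝ) (z : ℂ) : ‖z / kbD ρ x‖ ≤ ‖z‖ := by
  rw [norm_div]
  exact div_le_self (norm_nonneg _) (kbD_norm ρ x)

private theorem kb_norm_PP {K : ℕ} (hK : 2 ≤ K) {ρ δ : ℝ} (hρ : |ρ - 1| ≤ δ) (x : ℝ) :
    ‖PP K ρ x‖ ≤ 120 * (1 + K * δ + K * |x|) * Real.exp |x| := by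
  have hK' : (2 : ℝ) ≤ K := by exact_mod_cast hK
  have hδ : 0 ≤ δ := (abs_nonneg _).trans hρ
  have hx := abs_nonneg x
  have hE : 1 ≤ Real.exp |x| := Real.one_le_exp hx
  have h1 : ‖(K + 1 : ℂ)‖ = K + 1 := by
    have : ((K : ℂ) + 1) = (((K : ℝ) + 1 : ℝ) : ℂ) := by push_cast; rfl
    rw [this, Complex.norm_real, Real.norm_of_nonneg (by positivity)]
  have h2 : ‖((K + 1) * (1 - 2 * Real.pi * I) * (2 * Real.pi * I * ((ρ * Real.exp (-x) - 1 : ℝ) : ℂ)) / kbD ρ x : ℂ)‖ ≤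
      (K + 1) * (73 / 10) * (63 / 10 * ((δ + |x|) * Real.exp |x|)) := by
    refine (kb_norm_div x _).trans ?_
    rw [norm_mul, norm_mul, h1]
    refine mul_le_mul (mul_le_mul_of_nonneg_left kb_norm_c (by positivity)) (kb_norm_zeta hρ x) (norm_nonneg _) (by positivity)
  have h3 : ‖(-1 + 2 * Real.pi * I : ℂ)‖ ≤ 73 / 10 := by
    have : (-1 + 2 * Real.pi * I : ℂ) = -(1 - 2 * Real.pi * I) := by ring
    rw [this, norm_neg]
    exact kb_norm_c
  have h4 : ‖((K : ℂ) * (x : ℂ))‖ = K * |x| := by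
    rw [norm_mul, Complex.norm_natCast, Complex.norm_real, Real.norm_eq_abs]
  have h5 : ‖PP K ρ x‖ ≤ 73 / 10 + K * |x| + (K + 1) * (73 / 10) * (63 / 10 * ((δ + |x|) * Real.exp |x|)) := by
    unfold PP
    refine (norm_add_le _ _).trans ?_
    refine add_le_add ?_ h2
    refine (norm_sub_le _ _).trans ?_
    rw [h4]
    exact add_le_add_left h3 _
  refine h5.trans ?_
  have h6 : 0 ≤ (δ + |x|) * Real.exp |x| := by positivity
  have h7 : (K + 1 : ℝ) ≤ 3 / 2 * K := by linarith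
  have h8 : (K + 1) * (73 / 10) * (63 / 10 * ((δ + |x|) * Real.exp |x|)) ≤ 3 / 2 * K * (73 / 10) * (63 / 10 * ((δ + |x|) * Real.exp |x|)) := by
    refine mul_le_mul_of_nonneg_right ?_ (by positivity)
    exact mul_le_mul_of_nonneg_right h7 (by norm_num)
  have h9 : (K : ℝ) * |x| ≤ K * |x| * Real.exp |x| := by
    have : 0 ≤ (K : ℝ) * |x| := by positivity
    nlinarith
  have h10 : 0 ≤ (K : ℝ) * (δ + |x|) * Real.exp |x| := by positivity
  have h11 : 0 ≤ (K : ℝ) * δ * Real.exp |x| := by positivity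
  have h12 : 0 ≤ (K : ℝ) * |x| * Real.exp |x| := by positivity
  nlinarith

private theorem kb_norm_PP' {K : ℕ} (hK : 2 ≤ K) {ρ δ : ℝ} (hδ : δ ≤ 1 / 2) (hρ : |ρ - 1| ≤ δ) (x : ℝ) :
    ‖(-K + (K + 1) * (1 - 2 * Real.pi * I) * (-(2 * Real.pi * I * ((ρ * Real.exp (-x) : ℝ) : ℂ))) / (kbD ρ x) ^ 2 : ℂ)‖ ≤
      200 * K * Real.exp |x| := by
  have hK' : (2 : ℝ) ≤ K := by exact_mod_cast hK
  have hx := abs_nonneg x
  have hE : 1 ≤ Real.exp |x| := Real.one_le_exp hx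
  have h1 : ‖(K + 1 : ℂ)‖ = K + 1 := by
    have : ((K : ℂ) + 1) = (((K : ℝ) + 1 : ℝ) : ℂ) := by push_cast; rfl
    rw [this, Complex.norm_real, Real.norm_of_nonneg (by positivity)]
  have hρ' : |ρ| ≤ 3 / 2 := by
    have e : ρ = (ρ - 1) + 1 := by ring
    rw [e]
    refine (abs_add_le _ _).trans ?_
    rw [abs_one]
    linarith
  have h2 : ‖((K + 1) * (1 - 2 * Real.pi * I) * (-(2 * Real.pi * I * ((ρ * Real.exp (-x) : ℝ) : ℂ))) / (kbD ρ x) ^ 2 : ℂ)‖ ≤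
      (K + 1) * (73 / 10) * (63 / 10 * (3 / 2 * Real.exp |x|)) := by
    have e : ((K + 1) * (1 - 2 * Real.pi * I) * (-(2 * Real.pi * I * ((ρ * Real.exp (-x) : ℝ) : ℂ))) / (kbD ρ x) ^ 2 : ℂ) =
      (K + 1) * (1 - 2 * Real.pi * I) * (-(2 * Real.pi * I * ((ρ * Real.exp (-x) : ℝ) : ℂ))) / kbD ρ x / kbD ρ x := by
      rw [pow_two, div_div]
    rw [e]
    refine (kb_norm_div x _).trans ((kb_norm_div x _).trans ?_)
    rw [norm_mul, norm_mul, h1, norm_neg, norm_mul (2 * Real.pi * I : ℂ), Complex.norm_real, Real.norm_eq_abs, abs_mul,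
      abs_of_pos (Real.exp_pos (-x))]
    refine mul_le_mul (mul_le_mul_of_nonneg_left kb_norm_c (by positivity)) ?_ (by positivity) (by positivity)
    refine mul_le_mul kb_norm_c2 ?_ (by positivity) (by norm_num)
    exact mul_le_mul hρ' (kb_exp_le x) (Real.exp_pos _).le (by norm_num)
  refine (norm_add_le _ _).trans ?_
  rw [norm_neg, Complex.norm_natCast]
  have h7 : (K + 1 : ℝ) ≤ 3 / 2 * K := by linarith
  have h8 : (K + 1) * (73 / 10) * (63 / 10 * (3 / 2 * Real.exp |x|)) ≤ 3 / 2 * K * (73 / 10) * (63 / 10 * (3 / 2 * Real.exp |x|)) := by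
    refine mul_le_mul_of_nonneg_right ?_ (by positivity)
    exact mul_le_mul_of_nonneg_right h7 (by norm_num)
  have h9 : (K : ℝ) ≤ K * Real.exp |x| := by nlinarith
  have h10 : 0 ≤ (K : ℝ) * Real.exp |x| := by positivity
  nlinarith

private theorem kb_norm_F {K : ℕ} (ρ x : ℝ) : ‖Fk K ρ x‖ ≤ Real.sqrt K * Real.exp (|x| - K / 2 * x ^ 2) := by
  unfold Fk
  rw [norm_mul, norm_mul, norm_ph, Complex.norm_real, Real.norm_of_nonneg (Real.exp_pos _).le]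
  have e : Real.exp (|x| - K / 2 * x ^ 2) = Real.exp |x| * Real.exp (-((K : ℝ) / 2 * x ^ 2)) := by
    rw [← Real.exp_add, sub_eq_add_neg]
  rw [e]
  have h1 : Real.exp (-x) * ‖wh K (ρ * Real.exp (-x))‖ ≤ Real.exp |x| * Real.sqrt K :=
    mul_le_mul (kb_exp_le x) (norm_wh_le K _) (norm_nonneg _) (Real.exp_pos _).le
  calc Real.exp (-x) * ‖wh K (ρ * Real.exp (-x))‖ * Real.exp (-((K : ℝ) / 2 * x ^ 2))
      ≤ Real.exp |x| * Real.sqrt K * Real.exp (-((K : ℝ) / 2 * x ^ 2)) :=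
        mul_le_mul_of_nonneg_right h1 (Real.exp_pos _).le
    _ = _ := by ring

/-- `|ζ / (1 + ζ)| ≤ |ζ| ≤ 2π (|ρ - 1| + |x|) e^{|x|}`, `|PP'| ≤ C K e^{2|x|}` -/
theorem norm_deriv_Fk : ∃ C : ℝ, 0 < C ∧ ∀ K : ℕ, 2 ≤ K → ∀ δ : ℝ, 0 < δ → δ ≤ 1 / 2 → ∀ ρ : ℝ, |ρ - 1| ≤ δ → ∀ x : ℝ,
    ‖Fk K ρ x‖ ≤ Real.sqrt K * Real.exp (|x| - K / 2 * x ^ 2) ∧
    ‖deriv (Fk K ρ) x‖ ≤ C * Real.sqrt K * (1 + K * δ + K * |x|) * Real.exp (4 * |x| - K / 2 * x ^ 2) ∧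
    ‖deriv (deriv (Fk K ρ)) x‖ ≤ C * Real.sqrt K * (K ^ 2 * δ ^ 2 + K ^ 2 * x ^ 2 + K) * Real.exp (6 * |x| - K / 2 * x ^ 2) := by
  refine ⟨50000, by norm_num, fun K hK δ hδ hδ' ρ hρ x => ⟨kb_norm_F ρ x, ?_, ?_⟩⟩
  · rw [deriv_Fk, norm_mul]
    have hx := abs_nonneg x
    have hF := kb_norm_F (K := K) ρ x
    have hP := kb_norm_PP hK hρ x
    have h0 : 0 ≤ 1 + K * δ + K * |x| := by positivity
    have e : Real.exp (|x| - K / 2 * x ^ 2) * Real.exp |x| ≤ Real.exp (4 * |x| - K / 2 * x ^ 2) := by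
      rw [← Real.exp_add]
      refine Real.exp_le_exp.2 ?_
      linarith
    calc ‖Fk K ρ x‖ * ‖PP K ρ x‖ ≤ (Real.sqrt K * Real.exp (|x| - K / 2 * x ^ 2)) * (120 * (1 + K * δ + K * |x|) * Real.exp |x|) :=
          mul_le_mul hF hP (norm_nonneg _) (by positivity)
      _ = 120 * Real.sqrt K * (1 + K * δ + K * |x|) * (Real.exp (|x| - K / 2 * x ^ 2) * Real.exp |x|) := by ring
      _ ≤ 120 * Real.sqrt K * (1 + K * δ + K * |x|) * Real.exp (4 * |x| - K / 2 * x ^ 2) :=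
          mul_le_mul_of_nonneg_left e (by positivity)
      _ ≤ 50000 * Real.sqrt K * (1 + K * δ + K * |x|) * Real.exp (4 * |x| - K / 2 * x ^ 2) := by
          refine mul_le_mul_of_nonneg_right ?_ (Real.exp_pos _).le
          refine mul_le_mul_of_nonneg_right ?_ h0
          exact mul_le_mul_of_nonneg_right (by norm_num) (Real.sqrt_nonneg _)
  · rw [kb_dd, norm_mul]
    have hK' : (2 : ℝ) ≤ K := by exact_mod_cast hK
    have hx := abs_nonneg x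
    have hF := kb_norm_F (K := K) ρ x
    have hP := kb_norm_PP hK hρ x
    have hP' := kb_norm_PP' hK hδ' hρ x
    have h0 : 0 ≤ 1 + K * δ + K * |x| := by positivity
    have hE : 1 ≤ Real.exp |x| := Real.one_le_exp hx
    have hsq : ‖PP K ρ x ^ 2‖ ≤ 14400 * (1 + K * δ + K * |x|) ^ 2 * Real.exp (2 * |x|) := by
      rw [norm_pow]
      have h2 := pow_le_pow_left₀ (norm_nonneg _) hP 2
      have e : (120 * (1 + K * δ + K * |x|) * Real.exp |x|) ^ 2 = 14400 * (1 + K * δ + K * |x|) ^ 2 * Real.exp (2 * |x|) := by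
        rw [mul_pow, mul_pow, ← Real.exp_nat_mul]
        norm_num
      rw [e] at h2
      exact h2
    have h3 : (1 + K * δ + K * |x|) ^ 2 ≤ 3 * (K ^ 2 * δ ^ 2 + K ^ 2 * x ^ 2 + K) := by
      have e : (K : ℝ) ^ 2 * x ^ 2 = (K * |x|) ^ 2 := by rw [mul_pow, sq_abs]
      have e' : (K : ℝ) ^ 2 * δ ^ 2 = (K * δ) ^ 2 := by rw [mul_pow]
      rw [e, e']
      nlinarith [sq_nonneg (1 - K * δ), sq_nonneg (1 - K * |x|), sq_nonneg (K * δ - K * |x|)]
    have h4 : Real.exp |x| ≤ Real.exp (2 * |x|) := Real.exp_le_exp.2 (by linarith)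
    have h5 : ‖PP K ρ x ^ 2 + (-K + (K + 1) * (1 - 2 * Real.pi * I) * (-(2 * Real.pi * I * ((ρ * Real.exp (-x) : ℝ) : ℂ))) / (kbD ρ x) ^ 2)‖
        ≤ 50000 * (K ^ 2 * δ ^ 2 + K ^ 2 * x ^ 2 + K) * Real.exp (2 * |x|) := by
      refine (norm_add_le _ _).trans ((add_le_add hsq hP').trans ?_)
      have h6 : 14400 * (1 + K * δ + K * |x|) ^ 2 * Real.exp (2 * |x|) ≤ 14400 * (3 * (K ^ 2 * δ ^ 2 + K ^ 2 * x ^ 2 + K)) * Real.exp (2 * |x|) := by
        refine mul_le_mul_of_nonneg_right ?_ (Real.exp_pos _).le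
        exact mul_le_mul_of_nonneg_left h3 (by norm_num)
      have h7 : 200 * (K : ℝ) * Real.exp |x| ≤ 200 * (K ^ 2 * δ ^ 2 + K ^ 2 * x ^ 2 + K) * Real.exp (2 * |x|) := by
        refine mul_le_mul ?_ h4 (Real.exp_pos _).le (by positivity)
        refine mul_le_mul_of_nonneg_left ?_ (by norm_num)
        have : 0 ≤ (K : ℝ) ^ 2 * δ ^ 2 + (K : ℝ) ^ 2 * x ^ 2 := by positivity
        linarith
      have h8 : 0 ≤ (K ^ 2 * δ ^ 2 + K ^ 2 * x ^ 2 + K) * Real.exp (2 * |x|) := by positivity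
      nlinarith
    have e9 : Real.exp (|x| - K / 2 * x ^ 2) * Real.exp (2 * |x|) ≤ Real.exp (6 * |x| - K / 2 * x ^ 2) := by
      rw [← Real.exp_add]
      refine Real.exp_le_exp.2 ?_
      linarith
    refine (mul_le_mul hF h5 (norm_nonneg _) (by positivity)).trans ?_
    calc (Real.sqrt K * Real.exp (|x| - K / 2 * x ^ 2)) * (50000 * (K ^ 2 * δ ^ 2 + K ^ 2 * x ^ 2 + K) * Real.exp (2 * |x|))
        = 50000 * Real.sqrt K * (K ^ 2 * δ ^ 2 + K ^ 2 * x ^ 2 + K) * (Real.exp (|x| - K / 2 * x ^ 2) * Real.exp (2 * |x|)) := by ring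
      _ ≤ _ := mul_le_mul_of_nonneg_left e9 (by positivity)

private noncomputable def kbG (K : ℕ) (x : ℝ) : ℝ := Real.sqrt K * Real.exp (-((K : ℝ) / 8) * x ^ 2)

private theorem kbG_nonneg (K : ℕ) (x : ℝ) : 0 ≤ kbG K x := by
  unfold kbG
  positivity

private theorem kbG_int {K : ℕ} (hK : 16 ≤ K) : Integrable (kbG K) := by
  have hK' : (16 : ℝ) ≤ K := by exact_mod_cast hK
  unfold kbG
  exact (integrable_exp_neg_mul_sq (by positivity)).const_mul _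

private theorem kbG_val {K : ℕ} (hK : 16 ≤ K) : ∫ x, kbG K x = Real.sqrt (8 * Real.pi) := by
  have hK' : (16 : ℝ) ≤ K := by exact_mod_cast hK
  unfold kbG
  rw [integral_const_mul, integral_gaussian, ← Real.sqrt_mul (by positivity)]
  congr 1
  field_simp

private theorem kb_g1 {K : ℕ} (hK : 16 ≤ K) (x : ℝ) :
    Real.exp (9 * |x| - K / 2 * x ^ 2) ≤ Real.exp 6 * Real.exp (-((K : ℝ) / 4) * x ^ 2) := by
  have hK' : (16 : ℝ) ≤ K := by exact_mod_cast hK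
  rw [← Real.exp_add]
  refine Real.exp_le_exp.2 ?_
  have h1 : 9 * |x| ≤ 6 + 4 * x ^ 2 := by
    rw [← sq_abs x]
    nlinarith [sq_nonneg (|x| - 9 / 8)]
  have h2 : 4 * x ^ 2 ≤ K / 4 * x ^ 2 := by
    refine mul_le_mul_of_nonneg_right ?_ (sq_nonneg x)
    linarith
  nlinarith

private theorem kb_g2 {K : ℕ} (x : ℝ) : Real.exp (-((K : ℝ) / 4) * x ^ 2) =
    Real.exp (-((K : ℝ) / 8) * x ^ 2) * Real.exp (-((K : ℝ) / 8) * x ^ 2) := by
  rw [← Real.exp_add]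
  congr 1
  ring

private theorem kb_g3 {K : ℕ} (x : ℝ) : Real.exp (-((K : ℝ) / 8) * x ^ 2) ≤ 1 := by
  refine Real.exp_le_one_iff.2 ?_
  have : 0 ≤ (K : ℝ) / 8 * x ^ 2 := by positivity
  linarith

private theorem kb_g4 {K : ℕ} (x : ℝ) : (K : ℝ) * x ^ 2 * Real.exp (-((K : ℝ) / 8) * x ^ 2) ≤ 8 := by
  have h1 := Real.add_one_le_exp ((K : ℝ) / 8 * x ^ 2)
  have h2 : Real.exp ((K : ℝ) / 8 * x ^ 2) * Real.exp (-((K : ℝ) / 8) * x ^ 2) = 1 := by
    rw [← Real.exp_add]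
    have : (K : ℝ) / 8 * x ^ 2 + -((K : ℝ) / 8) * x ^ 2 = 0 := by ring
    rw [this, Real.exp_zero]
  have h3 := Real.exp_pos (-((K : ℝ) / 8) * x ^ 2)
  nlinarith [mul_le_mul_of_nonneg_right h1 h3.le]

/-- integrate the bounds of `norm_deriv_Fk` (`δ ≥ K^(-1/2)`): `∫ √K x^{2j} e^{9|x| - K x²/2} ≤ C K^(-j)`. -/
theorem Fk_near : ∃ C : ℝ, 0 < C ∧ ∀ K : ℕ, 16 ≤ K → ∀ δ : ℝ, (Real.sqrt K)⁻¹ ≤ δ → δ ≤ 1 / 2 → ∀ ρ : ℝ, |ρ - 1| ≤ δ →
    Integrable (fun x => Real.exp (3 * |x|) * ‖Fk K ρ x‖) ∧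
    Integrable (fun x => Real.exp (3 * |x|) * ‖deriv (Fk K ρ) x‖) ∧
    Integrable (fun x => Real.exp (3 * |x|) * ‖deriv (deriv (Fk K ρ)) x‖) ∧
    ∫ x, Real.exp (3 * |x|) * ‖Fk K ρ x‖ ≤ C ∧
    ∫ x, Real.exp (3 * |x|) * ‖deriv (deriv (Fk K ρ)) x‖ ≤ C * (K * δ) ^ 2 := by
  obtain ⟨C0, hC0, hb⟩ := norm_deriv_Fk
  refine ⟨(10 * C0 + 1) * Real.exp 6 * Real.sqrt (8 * Real.pi), by positivity, fun K hK δ hδ hδ' ρ hρ => ?_⟩
  have hK' : (16 : ℝ) ≤ K := by exact_mod_cast hK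
  have hsK : 0 < Real.sqrt K := Real.sqrt_pos.2 (by linarith)
  have hδ0 : 0 < δ := lt_of_lt_of_le (by positivity) hδ
  have hKδ : (K : ℝ) ≤ K ^ 2 * δ ^ 2 := by
    have h1 : 1 ≤ δ * Real.sqrt K := by
      have := mul_le_mul_of_nonneg_right hδ hsK.le
      rwa [inv_mul_cancel₀ hsK.ne'] at this
    have h2 : 1 ≤ δ ^ 2 * K := by
      have h3 : (δ * Real.sqrt K) ^ 2 = δ ^ 2 * K := by rw [mul_pow, Real.sq_sqrt (by linarith)]
      rw [← h3]
      nlinarith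
    nlinarith
  have hB := hb K (by omega) δ hδ0 hδ' ρ hρ
  have hc := contDiff_Fk K ρ
  have hcF : Continuous (Fk K ρ) := hc.continuous
  have hcd : Continuous (deriv (Fk K ρ)) := hc.continuous_deriv (by norm_num)
  have hcdd : Continuous (deriv (deriv (Fk K ρ))) := by
    have h1 : ContDiff ℝ (1 + 1) (Fk K ρ) := by
      have e : (1 + 1 : WithTop ℕ∞) = 2 := by norm_num
      rw [e]; exact hc
    have h2 : ContDiff ℝ 1 (deriv (Fk K ρ)) := (contDiff_succ_iff_deriv.1 h1).2.2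
    exact h2.continuous_deriv (le_refl _)
  have hcE : Continuous fun x : ℝ => Real.exp (3 * |x|) := by fun_prop
  have hG := kbG_int hK
  have hGv := kbG_val hK
  -- pointwise bounds
  have p0 : ∀ x : ℝ, Real.exp (3 * |x|) * ‖Fk K ρ x‖ ≤ Real.exp 6 * kbG K x := by
    intro x
    have hx := abs_nonneg x
    have h1 := (hB x).1
    calc Real.exp (3 * |x|) * ‖Fk K ρ x‖ ≤ Real.exp (3 * |x|) * (Real.sqrt K * Real.exp (|x| - K / 2 * x ^ 2)) :=
          mul_le_mul_of_nonneg_left h1 (Real.exp_pos _).le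
      _ = Real.sqrt K * Real.exp (4 * |x| - K / 2 * x ^ 2) := by
          have e : Real.exp (4 * |x| - K / 2 * x ^ 2) = Real.exp (3 * |x|) * Real.exp (|x| - K / 2 * x ^ 2) := by
            rw [← Real.exp_add]; congr 1; ring
          rw [e]; ring
      _ ≤ Real.sqrt K * (Real.exp 6 * Real.exp (-((K : ℝ) / 4) * x ^ 2)) := by
          refine mul_le_mul_of_nonneg_left ?_ hsK.le
          refine le_trans ?_ (kb_g1 hK x)
          exact Real.exp_le_exp.2 (by linarith)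
      _ ≤ Real.sqrt K * (Real.exp 6 * Real.exp (-((K : ℝ) / 8) * x ^ 2)) := by
          refine mul_le_mul_of_nonneg_left ?_ hsK.le
          refine mul_le_mul_of_nonneg_left ?_ (Real.exp_pos _).le
          rw [kb_g2]
          exact mul_le_of_le_one_left (Real.exp_pos _).le (kb_g3 x)
      _ = Real.exp 6 * kbG K x := by unfold kbG; ring
  have p1 : ∀ x : ℝ, Real.exp (3 * |x|) * ‖deriv (Fk K ρ) x‖ ≤ C0 * (1 + K * δ + K) * Real.exp 6 * kbG K x := by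
    intro x
    have hx := abs_nonneg x
    have h1 := (hB x).2.1
    have hE : 1 ≤ Real.exp |x| := Real.one_le_exp hx
    have hE2 : |x| ≤ Real.exp |x| := by linarith [Real.add_one_le_exp |x|]
    have h2 : 1 + K * δ + K * |x| ≤ (1 + K * δ + K) * Real.exp |x| := by
      have h3 : 0 ≤ 1 + (K : ℝ) * δ := by positivity
      nlinarith
    calc Real.exp (3 * |x|) * ‖deriv (Fk K ρ) x‖
        ≤ Real.exp (3 * |x|) * (C0 * Real.sqrt K * (1 + K * δ + K * |x|) * Real.exp (4 * |x| - K / 2 * x ^ 2)) :=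
          mul_le_mul_of_nonneg_left h1 (Real.exp_pos _).le
      _ ≤ Real.exp (3 * |x|) * (C0 * Real.sqrt K * ((1 + K * δ + K) * Real.exp |x|) * Real.exp (4 * |x| - K / 2 * x ^ 2)) := by
          refine mul_le_mul_of_nonneg_left ?_ (Real.exp_pos _).le
          refine mul_le_mul_of_nonneg_right ?_ (Real.exp_pos _).le
          exact mul_le_mul_of_nonneg_left h2 (by positivity)
      _ = C0 * (1 + K * δ + K) * (Real.sqrt K * Real.exp (8 * |x| - K / 2 * x ^ 2)) := by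
          have e : Real.exp (8 * |x| - K / 2 * x ^ 2) = Real.exp (3 * |x|) * Real.exp |x| * Real.exp (4 * |x| - K / 2 * x ^ 2) := by
            rw [← Real.exp_add, ← Real.exp_add]; congr 1; ring
          rw [e]; ring
      _ ≤ C0 * (1 + K * δ + K) * (Real.sqrt K * (Real.exp 6 * Real.exp (-((K : ℝ) / 8) * x ^ 2))) := by
          refine mul_le_mul_of_nonneg_left ?_ (by positivity)
          refine mul_le_mul_of_nonneg_left ?_ hsK.le
          refine le_trans (Real.exp_le_exp.2 (by linarith : 8 * |x| - K / 2 * x ^ 2 ≤ 9 * |x| - K / 2 * x ^ 2)) ?_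
          refine (kb_g1 hK x).trans ?_
          refine mul_le_mul_of_nonneg_left ?_ (Real.exp_pos _).le
          rw [kb_g2]
          exact mul_le_of_le_one_left (Real.exp_pos _).le (kb_g3 x)
      _ = C0 * (1 + K * δ + K) * Real.exp 6 * kbG K x := by unfold kbG; ring
  have p2 : ∀ x : ℝ, Real.exp (3 * |x|) * ‖deriv (deriv (Fk K ρ)) x‖ ≤ 10 * C0 * (K * δ) ^ 2 * Real.exp 6 * kbG K x := by
    intro x
    have hx := abs_nonneg x
    have h1 := (hB x).2.2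
    have h4 : (K ^ 2 * δ ^ 2 + K ^ 2 * x ^ 2 + K) * Real.exp (-((K : ℝ) / 8) * x ^ 2) ≤ 10 * (K * δ) ^ 2 := by
      have h5 := kb_g4 (K := K) x
      have h6 := kb_g3 (K := K) x
      have h7 := Real.exp_pos (-((K : ℝ) / 8) * x ^ 2)
      have h8 : (K : ℝ) ^ 2 * x ^ 2 * Real.exp (-((K : ℝ) / 8) * x ^ 2) ≤ 8 * K := by
        have : (K : ℝ) ^ 2 * x ^ 2 * Real.exp (-((K : ℝ) / 8) * x ^ 2) = K * (K * x ^ 2 * Real.exp (-((K : ℝ) / 8) * x ^ 2)) := by ring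
        rw [this]
        nlinarith
      have h9 : ((K : ℝ) ^ 2 * δ ^ 2 + K) * Real.exp (-((K : ℝ) / 8) * x ^ 2) ≤ (K : ℝ) ^ 2 * δ ^ 2 + K :=
        mul_le_of_le_one_right (by positivity) h6
      have e : (K * δ) ^ 2 = (K : ℝ) ^ 2 * δ ^ 2 := by ring
      rw [e]
      nlinarith
    calc Real.exp (3 * |x|) * ‖deriv (deriv (Fk K ρ)) x‖
        ≤ Real.exp (3 * |x|) * (C0 * Real.sqrt K * (K ^ 2 * δ ^ 2 + K ^ 2 * x ^ 2 + K) * Real.exp (6 * |x| - K / 2 * x ^ 2)) :=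
          mul_le_mul_of_nonneg_left h1 (Real.exp_pos _).le
      _ = C0 * Real.sqrt K * (K ^ 2 * δ ^ 2 + K ^ 2 * x ^ 2 + K) * Real.exp (9 * |x| - K / 2 * x ^ 2) := by
          have e : Real.exp (9 * |x| - K / 2 * x ^ 2) = Real.exp (3 * |x|) * Real.exp (6 * |x| - K / 2 * x ^ 2) := by
            rw [← Real.exp_add]; congr 1; ring
          rw [e]; ring
      _ ≤ C0 * Real.sqrt K * (K ^ 2 * δ ^ 2 + K ^ 2 * x ^ 2 + K) *
            (Real.exp 6 * (Real.exp (-((K : ℝ) / 8) * x ^ 2) * Real.exp (-((K : ℝ) / 8) * x ^ 2))) := by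
          refine mul_le_mul_of_nonneg_left ?_ (by positivity)
          rw [← kb_g2]
          exact kb_g1 hK x
      _ = C0 * Real.exp 6 * kbG K x * ((K ^ 2 * δ ^ 2 + K ^ 2 * x ^ 2 + K) * Real.exp (-((K : ℝ) / 8) * x ^ 2)) := by
          unfold kbG; ring
      _ ≤ C0 * Real.exp 6 * kbG K x * (10 * (K * δ) ^ 2) := by
          refine mul_le_mul_of_nonneg_left h4 ?_
          have := kbG_nonneg K x
          positivity
      _ = 10 * C0 * (K * δ) ^ 2 * Real.exp 6 * kbG K x := by ring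
  have i0 : Integrable (fun x => Real.exp (3 * |x|) * ‖Fk K ρ x‖) := by
    refine (hG.const_mul (Real.exp 6)).mono' (hcE.mul hcF.norm).aestronglyMeasurable (Filter.Eventually.of_forall fun x => ?_)
    rw [Real.norm_of_nonneg (by positivity)]
    exact p0 x
  have i1 : Integrable (fun x => Real.exp (3 * |x|) * ‖deriv (Fk K ρ) x‖) := by
    refine (hG.const_mul (C0 * (1 + K * δ + K) * Real.exp 6)).mono' (hcE.mul hcd.norm).aestronglyMeasurable
      (Filter.Eventually.of_forall fun x => ?_)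
    rw [Real.norm_of_nonneg (by positivity)]
    exact p1 x
  have i2 : Integrable (fun x => Real.exp (3 * |x|) * ‖deriv (deriv (Fk K ρ)) x‖) := by
    refine (hG.const_mul (10 * C0 * (K * δ) ^ 2 * Real.exp 6)).mono' (hcE.mul hcdd.norm).aestronglyMeasurable
      (Filter.Eventually.of_forall fun x => ?_)
    rw [Real.norm_of_nonneg (by positivity)]
    exact p2 x
  refine ⟨i0, i1, i2, ?_, ?_⟩
  · refine (integral_mono i0 (hG.const_mul (Real.exp 6)) p0).trans ?_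
    rw [integral_const_mul, hGv]
    have h1 : 0 ≤ Real.exp 6 * Real.sqrt (8 * Real.pi) := by positivity
    nlinarith
  · refine (integral_mono i2 (hG.const_mul (10 * C0 * (K * δ) ^ 2 * Real.exp 6)) p2).trans ?_
    rw [integral_const_mul, hGv]
    have h1 : 0 ≤ Real.exp 6 * Real.sqrt (8 * Real.pi) * (K * δ) ^ 2 := by positivity
    nlinarith

end Pool.Agent.MP_291b24_nt.Sm
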