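import Pool.Agent.Lib.MP_291b24_nt.Sm.KerA

/-! The mass of the kernel `F_1` -/

set_option autoImplicit false

open Complex MeasureTheory Filter Topology

namespace Pool.Agent.MP_291b24_nt.Sm

private theorem base_ne (ξ : ℝ) : (1 + 2 * Real.pi * I * ((ξ - 1 : ℝ) : ℂ)) ≠ 0 := by
  intro h
  have h1 := congrArg Complex.re h
  have h2 : (1 + 2 * Real.pi * I * ((ξ - 1 : ℝ) : ℂ)).re = 1 := by
    simp
  rw [h2] at h1
  simp at h1

private theorem cont_Fk (K : ℕ) (ρ : ℝ) : Continuous (Fk K ρ) := by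
  unfold Fk wh ph
  have h : ∀ x : ℝ, (1 + 2 * Real.pi * I * ((ρ * Real.exp (-x) - 1 : ℝ) : ℂ)) ^ (K + 1) ≠ 0 :=
    fun x => pow_ne_zero _ (base_ne _)
  refine ((by fun_prop : Continuous fun x : ℝ => ((Real.exp (-x) : ℝ) : ℂ)).mul
    (continuous_const.mul (Continuous.inv₀ (by fun_prop) h))).mul (by fun_prop)

private theorem Fk_bd (K : ℕ) (ρ x : ℝ) :
    ‖Fk K ρ x‖ ≤ Real.exp |x| * Real.sqrt K * Real.exp (-((K : ℝ) / 2 * x ^ 2)) := by
  unfold Fk
  rw [norm_mul, norm_mul, norm_ph, Complex.norm_real, Real.norm_eq_abs, Real.abs_exp]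
  have h1 := norm_wh_le K (ρ * Real.exp (-x))
  have h2 : Real.exp (-x) ≤ Real.exp |x| := Real.exp_le_exp.2 (neg_le_abs x)
  gcongr

/-- The function `(1 + 2πi (e^(-s) - 1)) e^(2πi s)`. -/
private noncomputable def uu (s : ℝ) : ℂ :=
  (1 + 2 * Real.pi * I * ((Real.exp (-s) - 1 : ℝ) : ℂ)) * cexp (2 * Real.pi * I * s)

private theorem norm_two_pi_I : ‖(2 * Real.pi * I : ℂ)‖ ≤ 7 := by
  rw [norm_mul, norm_mul, Complex.norm_I, mul_one, Complex.norm_real, Complex.norm_ofNat,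
    Real.norm_eq_abs, abs_of_pos Real.pi_pos]
  have := Real.pi_lt_d2
  linarith

private theorem exp_rem {w : ℂ} (hw : ‖w‖ ≤ 1) : ‖cexp w - (1 + w + w ^ 2 / 2)‖ ≤ ‖w‖ ^ 3 := by
  have h := Complex.exp_bound hw (n := 3) (by norm_num)
  have e : ∑ m ∈ Finset.range 3, w ^ m / (m.factorial : ℂ) = 1 + w + w ^ 2 / 2 := by
    simp [Finset.sum_range_succ, Nat.factorial]
  rw [e] at h
  refine h.trans ?_
  have h3 : (0 : ℝ) ≤ ‖w‖ ^ 3 := by positivity
  have h4 : (((3 : ℕ).succ : ℝ) * (((3 : ℕ).factorial : ℝ) * ((3 : ℕ) : ℝ))⁻¹) ≤ 1 := by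
    norm_num [Nat.factorial]
  calc _ ≤ ‖w‖ ^ 3 * 1 := mul_le_mul_of_nonneg_left h4 h3
    _ = _ := mul_one _

private theorem uu_bd {s : ℝ} (hs : |s| ≤ 1 / 8) :
    ‖uu s - 1 - (2 * (Real.pi : ℂ) ^ 2 + Real.pi * I) * (s : ℂ) ^ 2‖ ≤ 7680 * |s| ^ 3 := by
  have hπ := norm_two_pi_I
  have hss : ‖(s : ℂ)‖ = |s| := by rw [Complex.norm_real, Real.norm_eq_abs]
  have h0 : 0 ≤ |s| := abs_nonneg s
  have w1 : ‖(2 * Real.pi * I : ℂ) * s‖ ≤ 8 * |s| := by
    rw [norm_mul, hss]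
    nlinarith
  have w2 : ‖(2 * Real.pi * I - 1 : ℂ) * s‖ ≤ 8 * |s| := by
    rw [norm_mul, hss]
    have : ‖(2 * Real.pi * I - 1 : ℂ)‖ ≤ 8 := by
      refine (norm_sub_le _ _).trans ?_
      rw [norm_one]
      linarith
    exact mul_le_mul_of_nonneg_right this h0
  have r1 := exp_rem (w1.trans (by linarith))
  have r2 := exp_rem (w2.trans (by linarith))
  have e : uu s - 1 - (2 * (Real.pi : ℂ) ^ 2 + Real.pi * I) * (s : ℂ) ^ 2 =
      (1 - 2 * Real.pi * I) * (cexp ((2 * Real.pi * I : ℂ) * s) -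
        (1 + (2 * Real.pi * I : ℂ) * s + ((2 * Real.pi * I : ℂ) * s) ^ 2 / 2)) +
      (2 * Real.pi * I) * (cexp ((2 * Real.pi * I - 1 : ℂ) * s) -
        (1 + (2 * Real.pi * I - 1 : ℂ) * s + ((2 * Real.pi * I - 1 : ℂ) * s) ^ 2 / 2)) := by
    have e1 : cexp ((2 * Real.pi * I - 1 : ℂ) * s) =
        cexp ((2 * Real.pi * I : ℂ) * s) * ((Real.exp (-s) : ℝ) : ℂ) := by
      rw [Complex.ofReal_exp, ← Complex.exp_add]
      congr 1
      push_cast
      ring
    rw [e1]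
    unfold uu
    push_cast
    have hI : (I : ℂ) ^ 2 = -1 := Complex.I_sq
    ring_nf
    rw [hI]
    ring
  rw [e]
  have n1 : ‖(1 - 2 * Real.pi * I : ℂ)‖ ≤ 8 := by
    refine (norm_sub_le _ _).trans ?_
    rw [norm_one]
    linarith
  have p1 : ‖(2 * Real.pi * I : ℂ) * s‖ ^ 3 ≤ (8 * |s|) ^ 3 :=
    pow_le_pow_left₀ (norm_nonneg _) w1 3
  have p2 : ‖(2 * Real.pi * I - 1 : ℂ) * s‖ ^ 3 ≤ (8 * |s|) ^ 3 :=
    pow_le_pow_left₀ (norm_nonneg _) w2 3
  refine (norm_add_le _ _).trans ?_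
  rw [norm_mul, norm_mul]
  calc _ ≤ 8 * (8 * |s|) ^ 3 + 7 * (8 * |s|) ^ 3 :=
        add_le_add (mul_le_mul n1 (r1.trans p1) (norm_nonneg _) (by norm_num))
          (mul_le_mul hπ (r2.trans p2) (norm_nonneg _) (by norm_num))
    _ = 7680 * |s| ^ 3 := by ring

private theorem tt_sqrt : Tendsto (fun K : ℕ => Real.sqrt K) atTop atTop :=
  Real.tendsto_sqrt_atTop.comp tendsto_natCast_atTop_atTop

private theorem tt_s (t : ℝ) : Tendsto (fun K : ℕ => t / Real.sqrt K) atTop (𝓝 0) :=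
  tendsto_const_nhds.div_atTop tt_sqrt

private theorem tt_pow (t : ℝ) : Tendsto (fun K : ℕ => uu (t / Real.sqrt K) ^ K) atTop
    (𝓝 (cexp ((2 * (Real.pi : ℂ) ^ 2 + Real.pi * I) * (t : ℂ) ^ 2))) := by
  have h : Tendsto (fun K : ℕ => (1 + (uu (t / Real.sqrt K) - 1)) ^ K) atTop
      (𝓝 (cexp ((2 * (Real.pi : ℂ) ^ 2 + Real.pi * I) * (t : ℂ) ^ 2))) := by
    apply Complex.tendsto_one_add_pow_exp_of_tendsto
    rw [← tendsto_sub_nhds_zero_iff]
    have hb : Tendsto (fun K : ℕ => 7680 * |t| ^ 3 / Real.sqrt K) atTop (𝓝 0) :=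
      tendsto_const_nhds.div_atTop tt_sqrt
    refine squeeze_zero_norm' ?_ hb
    have h1 : ∀ᶠ K : ℕ in atTop, |t / Real.sqrt K| ≤ 1 / 8 := by
      have := (tt_s t).abs
      rw [abs_zero] at this
      exact this.eventually_le_const (by norm_num)
    filter_upwards [h1, eventually_ge_atTop 1] with K hK1 hK
    have hK0 : (0 : ℝ) < K := by exact_mod_cast hK
    have hsq : 0 < Real.sqrt K := Real.sqrt_pos.2 hK0
    have hKs : (K : ℝ) = Real.sqrt K ^ 2 := (Real.sq_sqrt hK0.le).symm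
    have hb := uu_bd hK1
    set r := Real.sqrt K with hr
    have e : (K : ℂ) * (uu (t / r) - 1) - (2 * (Real.pi : ℂ) ^ 2 + Real.pi * I) * (t : ℂ) ^ 2 =
        (K : ℂ) * (uu (t / r) - 1 -
          (2 * (Real.pi : ℂ) ^ 2 + Real.pi * I) * ((t / r : ℝ) : ℂ) ^ 2) := by
      have e2 : (K : ℂ) * ((t / r : ℝ) : ℂ) ^ 2 = (t : ℂ) ^ 2 := by
        have : (K : ℝ) * (t / r) ^ 2 = t ^ 2 := by
          rw [hKs]
          field_simp
        exact_mod_cast this
      rw [mul_sub, ← e2]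
      ring
    rw [e, norm_mul, Complex.norm_natCast]
    calc (K : ℝ) * _ ≤ K * (7680 * |t / r| ^ 3) := mul_le_mul_of_nonneg_left hb hK0.le
      _ = 7680 * |t| ^ 3 / r := by
        rw [abs_div, abs_of_pos hsq, hKs]
        field_simp
  simpa using h

private theorem exp_quad (y : ℝ) : |y| - y ^ 2 / 2 ≤ 1 - 1 / 4 * y ^ 2 := by
  have : y ^ 2 = |y| ^ 2 := (sq_abs y).symm
  rw [this]
  nlinarith [sq_nonneg (|y| / 2 - 1)]

/-- Substitute `x = t / √K`; the integrand `e^(-t/√K) (1 + 2πi (e^(-t/√K) - 1))^(-K-1) e^(-2πi √K t - t²/2)` tends to `exp (-κ t²)`,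
`κ = 2π² + 1/2 + πi`, and is bounded by `e^{|t|} e^{-t²/2}`: dominated convergence. `integral_gaussian_complex` -/
theorem tendsto_mass : Tendsto (fun K : ℕ => ∫ x, Fk K 1 x) atTop
    (𝓝 ((Real.pi / (2 * Real.pi ^ 2 + 1 / 2 + Real.pi * I)) ^ (1 / 2 : ℂ))) := by
  have hre : 0 < (2 * (Real.pi : ℂ) ^ 2 + 1 / 2 + Real.pi * I).re := by
    have : (2 * (Real.pi : ℂ) ^ 2 + 1 / 2 + Real.pi * I).re = 2 * Real.pi ^ 2 + 1 / 2 := by
      simp [← Complex.ofReal_pow]
    rw [this]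
    positivity
  rw [← integral_gaussian_complex hre]
  have hmain : Tendsto (fun K : ℕ => ∫ t : ℝ, ((Real.sqrt K)⁻¹ : ℝ) • Fk K 1 (t / Real.sqrt K))
      atTop (𝓝 (∫ t : ℝ, cexp (-(2 * (Real.pi : ℂ) ^ 2 + 1 / 2 + Real.pi * I) * (t : ℂ) ^ 2))) := by
    refine tendsto_integral_filter_of_dominated_convergence
      (fun t => Real.exp 1 * Real.exp (-(1 / 4) * t ^ 2)) ?_ ?_ ?_ ?_
    · refine Eventually.of_forall fun K => ?_
      have hc : Continuous (fun t : ℝ => ((Real.sqrt K)⁻¹ : ℝ) • Fk K 1 (t / Real.sqrt K)) :=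
        ((cont_Fk K 1).comp (continuous_id.div_const (Real.sqrt K))).const_smul
          ((Real.sqrt K)⁻¹ : ℝ)
      exact hc.aestronglyMeasurable
    · filter_upwards [eventually_ge_atTop 1] with K hK
      refine Eventually.of_forall fun t => ?_
      have hK0 : (0 : ℝ) < K := by exact_mod_cast hK
      have hsq : 0 < Real.sqrt K := Real.sqrt_pos.2 hK0
      have hKs : (K : ℝ) = Real.sqrt K ^ 2 := (Real.sq_sqrt hK0.le).symm
      have hsq1 : 1 ≤ Real.sqrt K := by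
        rw [Real.one_le_sqrt]
        exact_mod_cast hK
      rw [norm_smul, Real.norm_eq_abs, abs_of_pos (inv_pos.2 hsq)]
      calc (Real.sqrt K)⁻¹ * ‖Fk K 1 (t / Real.sqrt K)‖
          ≤ (Real.sqrt K)⁻¹ * (Real.exp |t / Real.sqrt K| * Real.sqrt K *
              Real.exp (-((K : ℝ) / 2 * (t / Real.sqrt K) ^ 2))) :=
            mul_le_mul_of_nonneg_left (Fk_bd K 1 _) (inv_pos.2 hsq).le
        _ = Real.exp (|t / Real.sqrt K| + -((K : ℝ) / 2 * (t / Real.sqrt K) ^ 2)) := by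
            rw [Real.exp_add]
            field_simp
        _ ≤ Real.exp (1 + -(1 / 4) * t ^ 2) := by
            apply Real.exp_le_exp.2
            have e1 : (K : ℝ) / 2 * (t / Real.sqrt K) ^ 2 = t ^ 2 / 2 := by
              rw [div_pow, Real.sq_sqrt hK0.le]
              field_simp
            have e2 : |t / Real.sqrt K| ≤ |t| := by
              rw [abs_div, abs_of_pos hsq]
              exact div_le_self (abs_nonneg t) hsq1
            rw [e1]
            have := exp_quad t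
            linarith
        _ = Real.exp 1 * Real.exp (-(1 / 4) * t ^ 2) := Real.exp_add _ _
    · exact (integrable_exp_neg_mul_sq (by norm_num : (0 : ℝ) < 1 / 4)).const_mul _
    · refine Eventually.of_forall fun t => ?_
      have hs := tt_s t
      have l1 : Tendsto (fun K : ℕ => ((Real.exp (-(t / Real.sqrt K)) : ℝ) : ℂ)) atTop (𝓝 1) := by
        have h := ((Complex.continuous_ofReal.comp (Real.continuous_exp.comp continuous_neg)).tendsto
          (0 : ℝ)).comp hs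
        simpa [Function.comp_def] using h
      have l2 : Tendsto (fun K : ℕ => (1 + 2 * Real.pi * I *
          ((Real.exp (-(t / Real.sqrt K)) - 1 : ℝ) : ℂ))⁻¹) atTop (𝓝 1) := by
        have h1 : Tendsto (fun K : ℕ => (1 + 2 * Real.pi * I *
          ((Real.exp (-(t / Real.sqrt K)) - 1 : ℝ) : ℂ))) atTop (𝓝 1) := by
          have h := ((by fun_prop : Continuous fun s : ℝ => (1 + 2 * Real.pi * I *
            ((Real.exp (-s) - 1 : ℝ) : ℂ))).tendsto (0 : ℝ)).comp hs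
          simpa [Function.comp_def] using h
        simpa using h1.inv₀ one_ne_zero
      have l3 := (tt_pow t).inv₀ (Complex.exp_ne_zero _)
      have l4 := ((l1.mul l2).mul l3).mul_const (cexp (-((t ^ 2 / 2 : ℝ) : ℂ)))
      have e0 : (1 : ℂ) * 1 * (cexp ((2 * (Real.pi : ℂ) ^ 2 + Real.pi * I) * (t : ℂ) ^ 2))⁻¹ *
          cexp (-((t ^ 2 / 2 : ℝ) : ℂ)) =
          cexp (-(2 * (Real.pi : ℂ) ^ 2 + 1 / 2 + Real.pi * I) * (t : ℂ) ^ 2) := by
        rw [one_mul, one_mul, ← Complex.exp_neg, ← Complex.exp_add]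
        congr 1
        push_cast
        ring
      rw [e0] at l4
      refine l4.congr' ?_
      filter_upwards [eventually_ge_atTop 1] with K hK
      have hK0 : (0 : ℝ) < K := by exact_mod_cast hK
      have hsq : 0 < Real.sqrt K := Real.sqrt_pos.2 hK0
      have hsqc : ((Real.sqrt K : ℝ) : ℂ) ≠ 0 := by exact_mod_cast hsq.ne'
      have hKt : (K : ℝ) / 2 * (t / Real.sqrt K) ^ 2 = t ^ 2 / 2 := by
        rw [div_pow, Real.sq_sqrt hK0.le]
        field_simp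
      have hne := base_ne (Real.exp (-(t / Real.sqrt K)))
      have hexp : cexp (2 * Real.pi * I * ((t / Real.sqrt K : ℝ) : ℂ)) ≠ 0 := Complex.exp_ne_zero _
      have hpe : cexp (-((2 * Real.pi * K * (t / Real.sqrt K) : ℝ) : ℂ) * I -
          ((t ^ 2 / 2 : ℝ) : ℂ)) =
          (cexp (2 * Real.pi * I * ((t / Real.sqrt K : ℝ) : ℂ)) ^ K)⁻¹ *
            cexp (-((t ^ 2 / 2 : ℝ) : ℂ)) := by
        rw [← Complex.exp_nat_mul, ← Complex.exp_neg, ← Complex.exp_add]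
        congr 1
        push_cast
        ring
      unfold Fk wh ph uu
      rw [hKt, hpe, one_mul, Complex.real_smul, Complex.ofReal_inv, mul_pow, pow_succ _ K, mul_inv,
        mul_inv]
      field_simp
  refine hmain.congr' ?_
  filter_upwards [eventually_ge_atTop 1] with K hK
  have hK0 : (0 : ℝ) < K := by exact_mod_cast hK
  have hsq : 0 < Real.sqrt K := Real.sqrt_pos.2 hK0
  rw [integral_smul, Measure.integral_comp_div (Fk K 1), abs_of_pos hsq, smul_smul,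
    inv_mul_cancel₀ hsq.ne', one_smul]

theorem mass_lower : ∃ c : ℝ, 0 < c ∧ ∃ K₁ : ℕ, ∀ K ≥ K₁, c ≤ ‖∫ x, Fk K 1 x‖ := by
  have h := tendsto_mass.norm
  set L : ℝ := ‖((Real.pi / (2 * Real.pi ^ 2 + 1 / 2 + Real.pi * I)) ^ (1 / 2 : ℂ) : ℂ)‖ with hL
  have hL0 : 0 < L := by
    rw [hL, norm_pos_iff]
    intro h0
    rw [Complex.cpow_eq_zero_iff] at h0
    have h1 := h0.1
    rw [div_eq_zero_iff] at h1
    rcases h1 with h1 | h1
    · exact Real.pi_ne_zero (by exact_mod_cast h1)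
    · have h2 := congrArg Complex.re h1
      have h3 : (2 * (Real.pi : ℂ) ^ 2 + 1 / 2 + Real.pi * I).re = 2 * Real.pi ^ 2 + 1 / 2 := by
        simp [← Complex.ofReal_pow]
      rw [h3, Complex.zero_re] at h2
      have h4 : (0 : ℝ) < 2 * Real.pi ^ 2 + 1 / 2 := by positivity
      linarith
  have h1 : ∀ᶠ K : ℕ in atTop, L / 2 ≤ ‖∫ x, Fk K 1 x‖ :=
    h.eventually_const_le (by linarith)
  obtain ⟨K₁, hK₁⟩ := eventually_atTop.1 h1
  exact ⟨L / 2, by linarith, K₁, fun K hK => hK₁ K hK⟩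

/-- `√K ∫ |x| e^{4|x| - K x² / 2} ≤ C / √K` -/
theorem moment_Fk : ∃ C : ℝ, 0 < C ∧ ∀ K : ℕ, 16 ≤ K → Integrable (fun x => ‖Fk K 1 x‖ * (|x| * Real.exp (3 * |x|))) ∧
    ∫ x, ‖Fk K 1 x‖ * (|x| * Real.exp (3 * |x|)) ≤ C / Real.sqrt K := by
  refine ⟨2 * Real.exp 4 * Real.sqrt (8 * Real.pi), by positivity, fun K hK => ?_⟩
  have hK0 : (0 : ℝ) < K := by exact_mod_cast (by omega : 0 < K)
  have hK16 : (16 : ℝ) ≤ K := by exact_mod_cast hK
  have hsq : 0 < Real.sqrt K := Real.sqrt_pos.2 hK0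
  have hss : Real.sqrt K ^ 2 = K := Real.sq_sqrt hK0.le
  have hpt : ∀ x : ℝ, ‖Fk K 1 x‖ * (|x| * Real.exp (3 * |x|)) ≤
      2 * Real.exp 4 * Real.exp (-(K / 8 : ℝ) * x ^ 2) := by
    intro x
    have hx2 : x ^ 2 = |x| ^ 2 := (sq_abs x).symm
    have h0 : 0 ≤ |x| := abs_nonneg x
    have h1 : Real.sqrt K * |x| ≤ 2 * Real.exp (K / 8 * x ^ 2) := by
      have h2 := Real.add_one_le_exp ((K : ℝ) / 8 * x ^ 2)
      have h3 : (K : ℝ) * x ^ 2 = (Real.sqrt K * |x|) ^ 2 := by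
        rw [mul_pow, hss, hx2]
      nlinarith [sq_nonneg (Real.sqrt K * |x| - 2)]
    calc ‖Fk K 1 x‖ * (|x| * Real.exp (3 * |x|))
        ≤ (Real.exp |x| * Real.sqrt K * Real.exp (-((K : ℝ) / 2 * x ^ 2))) *
            (|x| * Real.exp (3 * |x|)) :=
          mul_le_mul_of_nonneg_right (Fk_bd K 1 x) (by positivity)
      _ = (Real.sqrt K * |x|) * Real.exp (|x| + 3 * |x| + -((K : ℝ) / 2 * x ^ 2)) := by
          rw [Real.exp_add, Real.exp_add]
          ring
      _ ≤ (2 * Real.exp (K / 8 * x ^ 2)) *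
            Real.exp (|x| + 3 * |x| + -((K : ℝ) / 2 * x ^ 2)) :=
          mul_le_mul_of_nonneg_right h1 (Real.exp_pos _).le
      _ = 2 * Real.exp (K / 8 * x ^ 2 + (|x| + 3 * |x| + -((K : ℝ) / 2 * x ^ 2))) := by
          rw [mul_assoc, ← Real.exp_add]
      _ ≤ 2 * Real.exp (4 + -(K / 8 : ℝ) * x ^ 2) := by
          apply mul_le_mul_of_nonneg_left _ (by norm_num)
          apply Real.exp_le_exp.2
          rw [hx2]
          nlinarith [sq_nonneg (|x| - 2), mul_le_mul_of_nonneg_right hK16 (sq_nonneg |x|)]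
      _ = 2 * Real.exp 4 * Real.exp (-(K / 8 : ℝ) * x ^ 2) := by
          rw [Real.exp_add]
          ring
  have hb : (0 : ℝ) < K / 8 := by positivity
  have hint : Integrable (fun x : ℝ => 2 * Real.exp 4 * Real.exp (-(K / 8 : ℝ) * x ^ 2)) :=
    (integrable_exp_neg_mul_sq hb).const_mul _
  have hI : Integrable (fun x => ‖Fk K 1 x‖ * (|x| * Real.exp (3 * |x|))) := by
    refine hint.mono' ?_ ?_
    · exact (((cont_Fk K 1).norm.mul (continuous_abs.mul (Real.continuous_exp.comp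
        (continuous_const.mul continuous_abs))))).aestronglyMeasurable
    · refine Eventually.of_forall fun x => ?_
      rw [Real.norm_eq_abs, abs_of_nonneg (by positivity)]
      exact hpt x
  refine ⟨hI, (integral_mono hI hint hpt).trans ?_⟩
  rw [integral_const_mul, integral_gaussian]
  have e : Real.pi / (K / 8 : ℝ) = (8 * Real.pi) / K := by
    field_simp
  rw [e, Real.sqrt_div (by positivity)]
  apply le_of_eq
  ring

end Pool.Agent.MP_291b24_nt.Sm
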