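import Mathlib

/-! Two-sided Laplace transform -/

set_option autoImplicit false

open Complex MeasureTheory

namespace Pool.Agent.MP_291b24_nt.Sm

/-- the two-sided Laplace transform -/
noncomputable def Lap (F : ℝ → ℂ) (s : ℂ) : ℂ := ∫ x : ℝ, F x * cexp (s * x)

/-- hypotheses on the test function -/
structure Nice (F : ℝ → ℂ) : Prop where
  cd : ContDiff ℝ 2 F
  dec : ∃ B : ℝ, ∀ x, ‖F x‖ ≤ B * Real.exp (-(3 * |x|))
  i0 : Integrable (fun x => Real.exp (3 * |x|) * ‖F x‖)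
  i1 : Integrable (fun x => Real.exp (3 * |x|) * ‖deriv F x‖)
  i2 : Integrable (fun x => Real.exp (3 * |x|) * ‖deriv (deriv F) x‖)

private theorem lapA_re (s : ℂ) (x : ℝ) : (s * (x : ℂ)).re = s.re * x := by
  rw [Complex.mul_re, Complex.ofReal_re, Complex.ofReal_im, mul_zero, sub_zero]

private theorem lapA_le {s : ℂ} {r : ℝ} (hs : |s.re| ≤ r) (x : ℝ) :
    ‖cexp (s * (x : ℂ))‖ ≤ Real.exp (r * |x|) := by
  rw [Complex.norm_exp, lapA_re, Real.exp_le_exp]
  calc s.re * x ≤ |s.re * x| := le_abs_self _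
    _ = |s.re| * |x| := abs_mul _ _
    _ ≤ r * |x| := mul_le_mul_of_nonneg_right hs (abs_nonneg x)

private theorem lapA_bd {s : ℂ} (hs : |s.re| ≤ 3) (G : ℝ → ℂ) (x : ℝ) :
    ‖G x * cexp (s * (x : ℂ))‖ ≤ Real.exp (3 * |x|) * ‖G x‖ := by
  rw [norm_mul, mul_comm]
  exact mul_le_mul_of_nonneg_right (lapA_le hs x) (norm_nonneg _)

private theorem lapA_cexp (s : ℂ) : Continuous fun x : ℝ => cexp (s * (x : ℂ)) :=
  Complex.continuous_exp.comp (continuous_const.mul Complex.continuous_ofReal)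

private theorem lapA_int {s : ℂ} (hs : |s.re| ≤ 3) {G : ℝ → ℂ} (hG : Continuous G)
    (hi : Integrable (fun x => Real.exp (3 * |x|) * ‖G x‖)) :
    Integrable fun x : ℝ => G x * cexp (s * (x : ℂ)) :=
  hi.mono' (hG.mul (lapA_cexp s)).aestronglyMeasurable (ae_of_all _ fun x => lapA_bd hs G x)

private theorem lapA_norm {s : ℂ} (hs : |s.re| ≤ 3) {G : ℝ → ℂ}
    (hi : Integrable (fun x => Real.exp (3 * |x|) * ‖G x‖)) :
    ‖Lap G s‖ ≤ ∫ x, Real.exp (3 * |x|) * ‖G x‖ :=
  norm_integral_le_of_norm_le hi (ae_of_all _ fun x => lapA_bd hs G x)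

/-- differentiation under the integral sign -/
theorem Lap_diff {F : ℝ → ℂ} (hF : Nice F) : DifferentiableOn ℂ (Lap F) {s : ℂ | |s.re| < 3} := by
  intro s hs
  have hs' : |s.re| < 3 := hs
  obtain ⟨η, hη⟩ : ∃ η : ℝ, η = (3 - |s.re|) / 2 := ⟨_, rfl⟩
  have hη0 : 0 < η := by rw [hη]; linarith
  have hc := hF.cd.continuous
  have key := hasDerivAt_integral_of_dominated_loc_of_deriv_le (𝕜 := ℂ) (μ := volume)
    (F := fun (z : ℂ) (x : ℝ) => F x * cexp (z * (x : ℂ)))
    (F' := fun (z : ℂ) (x : ℝ) => F x * ((x : ℂ) * cexp (z * (x : ℂ)))) (x₀ := s)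
    (s := Metric.ball s η) (bound := fun x => η⁻¹ * (Real.exp (3 * |x|) * ‖F x‖))
    (Metric.ball_mem_nhds s hη0)
    (Filter.Eventually.of_forall fun z => (hc.mul (lapA_cexp z)).aestronglyMeasurable)
    (lapA_int hs'.le hc hF.i0)
    (hc.mul (Complex.continuous_ofReal.mul (lapA_cexp s))).aestronglyMeasurable
    (ae_of_all _ fun x z hz => ?_) (hF.i0.const_mul _) (ae_of_all _ fun x z _ => ?_)
  · exact key.2.differentiableAt.differentiableWithinAt
  · have h1 : |z.re| ≤ 3 - η := by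
      have h2 : |z.re - s.re| ≤ η := by
        rw [← Complex.sub_re]
        exact (Complex.abs_re_le_norm _).trans (by
          rw [← Complex.dist_eq]
          exact (Metric.mem_ball.1 hz).le)
      have h3 := abs_le.1 h2
      have h4 := le_abs_self s.re
      have h5 := neg_abs_le s.re
      rw [abs_le]
      constructor
      · linarith [h3.1, h3.2]
      · linarith [h3.1, h3.2]
    have h2 : η * |x| ≤ Real.exp (η * |x|) := by
      have := Real.add_one_le_exp (η * |x|)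
      linarith
    have h3 : |x| ≤ η⁻¹ * Real.exp (η * |x|) := by
      rw [inv_mul_eq_div, le_div_iff₀ hη0, mul_comm]
      exact h2
    have h4 := lapA_le h1 x
    have h5 : ‖F x * ((x : ℂ) * cexp (z * (x : ℂ)))‖ = ‖F x‖ * (|x| * ‖cexp (z * (x : ℂ))‖) := by
      rw [norm_mul, norm_mul, Complex.norm_real, Real.norm_eq_abs]
    rw [h5]
    have h6 : |x| * ‖cexp (z * (x : ℂ))‖ ≤ η⁻¹ * Real.exp (η * |x|) * Real.exp ((3 - η) * |x|) :=
      mul_le_mul h3 h4 (norm_nonneg _) (by positivity)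
    have h7 : η⁻¹ * Real.exp (η * |x|) * Real.exp ((3 - η) * |x|) = η⁻¹ * Real.exp (3 * |x|) := by
      rw [mul_assoc, ← Real.exp_add]
      congr 2
      ring
    rw [h7] at h6
    calc ‖F x‖ * (|x| * ‖cexp (z * (x : ℂ))‖) ≤ ‖F x‖ * (η⁻¹ * Real.exp (3 * |x|)) :=
          mul_le_mul_of_nonneg_left h6 (norm_nonneg _)
      _ = η⁻¹ * (Real.exp (3 * |x|) * ‖F x‖) := by ring
  · have h1 : HasDerivAt (fun z : ℂ => z * (x : ℂ)) (x : ℂ) z := by
      have := (hasDerivAt_id z).mul_const (x : ℂ)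
      rwa [one_mul] at this
    have h2 := h1.cexp.const_mul (F x)
    rw [mul_comm (cexp (z * (x : ℂ)))] at h2
    exact h2

theorem norm_Lap_le {F : ℝ → ℂ} (hF : Nice F) {s : ℂ} (hs : |s.re| ≤ 3) :
    ‖Lap F s‖ ≤ ∫ x, Real.exp (3 * |x|) * ‖F x‖ := lapA_norm hs hF.i0

/-- one integration by parts -/
private theorem lapA_parts {s : ℂ} (hs : |s.re| ≤ 3) {G G' : ℝ → ℂ} (hG : ∀ x, HasDerivAt G (G' x) x)
    (hc : Continuous G') (hi : Integrable (fun x => Real.exp (3 * |x|) * ‖G x‖))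
    (hi' : Integrable (fun x => Real.exp (3 * |x|) * ‖G' x‖)) : s * Lap G s = -Lap G' s := by
  have hcG : Continuous G := continuous_iff_continuousAt.2 fun x => (hG x).continuousAt
  have h0 := lapA_int hs hcG hi
  have h1 := lapA_int hs hc hi'
  have h2 : ∀ x : ℝ, HasDerivAt (fun x : ℝ => G x * cexp (s * (x : ℂ)))
      (G' x * cexp (s * (x : ℂ)) + s * (G x * cexp (s * (x : ℂ)))) x := by
    intro x
    have h3 : HasDerivAt (fun x : ℝ => s * (x : ℂ)) s x := by
      have := (Complex.ofRealCLM.hasDerivAt (x := x)).const_mul s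
      simpa using this
    have h4 := (hG x).mul h3.cexp
    have h5 : G' x * cexp (s * (x : ℂ)) + s * (G x * cexp (s * (x : ℂ))) =
        G' x * cexp (s * (x : ℂ)) + G x * (cexp (s * (x : ℂ)) * s) := by ring
    rw [h5]
    exact h4
  have h3 := integral_eq_zero_of_hasDerivAt_of_integrable h2 (h1.add (h0.const_mul s)) h0
  rw [integral_add h1 (h0.const_mul s), integral_const_mul] at h3
  unfold Lap
  linear_combination h3

/-- two integrations by parts (`integral_eq_zero_of_hasDerivAt_of_integrable`) -/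
theorem norm_sq_Lap_le {F : ℝ → ℂ} (hF : Nice F) {s : ℂ} (hs : |s.re| ≤ 2) :
    ‖s‖ ^ 2 * ‖Lap F s‖ ≤ ∫ x, Real.exp (3 * |x|) * ‖deriv (deriv F) x‖ := by
  have hs3 : |s.re| ≤ 3 := by linarith
  have hd : ContDiff ℝ 1 (deriv F) := by
    have h1 : ContDiff ℝ (1 + 1) F := hF.cd
    exact (contDiff_succ_iff_deriv.1 h1).2.2
  have h2 : ContDiff ℝ 0 (deriv (deriv F)) := by
    have h1 : ContDiff ℝ (0 + 1) (deriv F) := by simpa using hd
    exact (contDiff_succ_iff_deriv.1 h1).2.2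
  have e1 := lapA_parts hs3 (G := F) (G' := deriv F)
    (fun x => (hF.cd.differentiable (by norm_num) x).hasDerivAt) hd.continuous hF.i0 hF.i1
  have e2 := lapA_parts hs3 (G := deriv F) (G' := deriv (deriv F))
    (fun x => (hd.differentiable (by norm_num) x).hasDerivAt) h2.continuous hF.i1 hF.i2
  have e3 : s ^ 2 * Lap F s = Lap (deriv (deriv F)) s := by
    linear_combination s * e1 - e2
  rw [← norm_pow, ← norm_mul, e3]
  exact lapA_norm hs3 hF.i2

end Pool.Agent.MP_291b24_nt.Sm
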