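import Pool.Agent.Lib.MP_291b24_nt.Sm.LapA

/-! Inversion of the Laplace transform -/

set_option autoImplicit false

open Complex MeasureTheory

namespace Pool.Agent.MP_291b24_nt.Sm

private theorem lapB_fourier (F : ℝ → ℂ) (σ u : ℝ) :
    FourierTransform.fourier (fun x : ℝ => F x * cexp (σ * x)) u =
      Lap F (σ + ((-(2 * Real.pi) * u : ℝ) : ℂ) * I) := by
  rw [Real.fourier_real_eq_integral_exp_smul]
  unfold Lap
  refine integral_congr_ae (Filter.Eventually.of_forall fun x => ?_)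
  simp only [smul_eq_mul]
  rw [mul_left_comm, ← Complex.exp_add]
  congr 2
  push_cast
  ring

private theorem lapB_bound {F : ℝ → ℂ} (hF : Nice F) {σ : ℝ} (hσ : |σ| ≤ 2) :
    ∃ C : ℝ, ∀ t : ℝ, ‖Lap F (σ + (t : ℂ) * I)‖ ≤ C * (1 + t ^ 2)⁻¹ := by
  refine ⟨(∫ x, Real.exp (3 * |x|) * ‖F x‖) + ∫ x, Real.exp (3 * |x|) * ‖deriv (deriv F) x‖, fun t => ?_⟩
  have hre : ((σ : ℂ) + (t : ℂ) * I).re = σ := by simp
  have him : ((σ : ℂ) + (t : ℂ) * I).im = t := by simp
  have h1 := norm_Lap_le hF (s := (σ : ℂ) + (t : ℂ) * I) (by rw [hre]; linarith)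
  have h2 := norm_sq_Lap_le hF (s := (σ : ℂ) + (t : ℂ) * I) (by rw [hre]; exact hσ)
  have h3 : t ^ 2 ≤ ‖(σ : ℂ) + (t : ℂ) * I‖ ^ 2 := by
    have h4 := Complex.abs_im_le_norm ((σ : ℂ) + (t : ℂ) * I)
    rw [him] at h4
    rw [← sq_abs t]
    exact pow_le_pow_left₀ (abs_nonneg t) h4 2
  have h5 : 0 < 1 + t ^ 2 := by positivity
  rw [← div_eq_mul_inv, le_div_iff₀ h5]
  nlinarith [mul_le_mul_of_nonneg_right h3 (norm_nonneg (Lap F ((σ : ℂ) + (t : ℂ) * I)))]

private theorem lapB_cont {F : ℝ → ℂ} (hF : Nice F) {σ : ℝ} (hσ : |σ| ≤ 2) :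
    Continuous fun t : ℝ => Lap F (σ + (t : ℂ) * I) := by
  rw [continuous_iff_continuousAt]
  intro t
  have hopen : IsOpen {s : ℂ | |s.re| < 3} := isOpen_lt (by fun_prop) continuous_const
  have hmem : ((σ : ℂ) + (t : ℂ) * I) ∈ {s : ℂ | |s.re| < 3} := by
    have hre : ((σ : ℂ) + (t : ℂ) * I).re = σ := by simp
    change |((σ : ℂ) + (t : ℂ) * I).re| < 3
    rw [hre]
    linarith
  have h1 : ContinuousAt (Lap F) ((σ : ℂ) + (t : ℂ) * I) :=
    (Lap_diff hF).continuousOn.continuousAt (hopen.mem_nhds hmem)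
  exact ContinuousAt.comp (f := fun t : ℝ => (σ : ℂ) + (t : ℂ) * I) h1 (by fun_prop)

/-- Fourier inversion for `x ↦ F x e^{σ x}` (continuous, integrable; the transform is `O(1/t²)` and continuous) -/
theorem Lap_inv {F : ℝ → ℂ} (hF : Nice F) {σ : ℝ} (hσ : |σ| ≤ 2) (x : ℝ) :
    F x = (1 / (2 * Real.pi) : ℂ) * ∫ t : ℝ, Lap F (σ + t * I) * cexp (-(σ + t * I) * x) := by
  have hpi : (0 : ℝ) < 2 * Real.pi := by positivity
  have hFc : Continuous F := hF.cd.continuous
  -- the weighted function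
  have hGc : Continuous (fun x : ℝ => F x * cexp (σ * x)) := by fun_prop
  have hGi : Integrable (fun x : ℝ => F x * cexp (σ * x)) := by
    refine hF.i0.mono' hGc.aestronglyMeasurable (Filter.Eventually.of_forall fun y => ?_)
    rw [norm_mul, Complex.norm_exp, mul_comm]
    have h1 : ((σ : ℂ) * (y : ℂ)).re = σ * y := by
      rw [← Complex.ofReal_mul, Complex.ofReal_re]
    rw [h1]
    refine mul_le_mul_of_nonneg_right (Real.exp_le_exp.2 ?_) (norm_nonneg _)
    calc σ * y ≤ |σ * y| := le_abs_self _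
      _ = |σ| * |y| := abs_mul _ _
      _ ≤ 3 * |y| := mul_le_mul_of_nonneg_right (by linarith) (abs_nonneg _)
  have hfi : Integrable (FourierTransform.fourier (fun x : ℝ => F x * cexp (σ * x))) := by
    obtain ⟨C, hC⟩ := lapB_bound hF hσ
    have h0 : FourierTransform.fourier (fun x : ℝ => F x * cexp (σ * x)) =
        fun u : ℝ => Lap F (σ + ((-(2 * Real.pi) * u : ℝ) : ℂ) * I) := by
      funext u
      exact lapB_fourier F σ u
    rw [h0]
    have h1 : Integrable (fun t : ℝ => Lap F (σ + (t : ℂ) * I)) :=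
      (integrable_inv_one_add_sq.const_mul C).mono' (lapB_cont hF hσ).aestronglyMeasurable
        (Filter.Eventually.of_forall hC)
    exact h1.comp_mul_left' (R := -(2 * Real.pi)) (by linarith)
  have hinv := congrFun (hGc.fourierInv_fourier_eq hGi hfi) x
  have h1 : FourierTransformInv.fourierInv
      (FourierTransform.fourier (fun x : ℝ => F x * cexp (σ * x))) x =
      ∫ u : ℝ, Lap F (σ + ((-(2 * Real.pi) * u : ℝ) : ℂ) * I) *
        cexp (-(((-(2 * Real.pi) * u : ℝ) : ℂ) * I) * x) := by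
    rw [Real.fourierInv_eq']
    refine integral_congr_ae (Filter.Eventually.of_forall fun u => ?_)
    simp only [smul_eq_mul]
    rw [lapB_fourier F σ u, mul_comm]
    congr 2
    simp
    ring
  have h2 : (∫ u : ℝ, Lap F (σ + ((-(2 * Real.pi) * u : ℝ) : ℂ) * I) *
        cexp (-(((-(2 * Real.pi) * u : ℝ) : ℂ) * I) * x)) =
      (1 / (2 * Real.pi) : ℂ) * ∫ t : ℝ, Lap F (σ + (t : ℂ) * I) * cexp (-((t : ℂ) * I) * x) := by
    have h3 := Measure.integral_comp_mul_left
      (fun t : ℝ => Lap F (σ + (t : ℂ) * I) * cexp (-((t : ℂ) * I) * x)) (-(2 * Real.pi))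
    rw [h3, abs_inv, abs_neg, abs_of_pos hpi, Complex.real_smul]
    push_cast
    ring
  have h4 : (∫ t : ℝ, Lap F (σ + t * I) * cexp (-(σ + t * I) * x)) =
      cexp (-(σ * x)) * ∫ t : ℝ, Lap F (σ + (t : ℂ) * I) * cexp (-((t : ℂ) * I) * x) := by
    rw [← integral_const_mul]
    refine integral_congr_ae (Filter.Eventually.of_forall fun t => ?_)
    simp only
    rw [mul_left_comm, ← Complex.exp_add]
    congr 2
    ring
  rw [h4]
  have h5 : F x * cexp (σ * x) = (1 / (2 * Real.pi) : ℂ) *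
      ∫ t : ℝ, Lap F (σ + (t : ℂ) * I) * cexp (-((t : ℂ) * I) * x) := by
    rw [← h2, ← h1]
    exact hinv.symm
  calc F x = cexp (-(σ * x)) * (F x * cexp (σ * x)) := by
        rw [mul_left_comm, ← Complex.exp_add, neg_add_cancel, Complex.exp_zero, mul_one]
    _ = _ := by
        rw [h5]
        ring

end Pool.Agent.MP_291b24_nt.Sm
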