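import Pool.Agent.Lib.MP_291b24_nt.Sm.LapA

/-! The integral of the Laplace transform -/

set_option autoImplicit false

open Complex MeasureTheory

namespace Pool.Agent.MP_291b24_nt.Sm

private theorem lapc_int : Integrable (fun u : ℝ => (1 + |u|) ^ (-(7 / 4 : ℝ))) := by
  have h := integrable_one_add_norm (E := ℝ) (μ := volume) (r := 7 / 4) (by
    rw [Module.finrank_self]
    norm_num)
  exact h

private theorem lapc_pow {ε' R t : ℝ} (hε : 0 < ε') (hε2 : ε' ≤ 1 / 4) (hR : 1 ≤ R) :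
    (|t| + 2) ^ ε' ≤ R ^ ε' * (2 * (1 + |t / R|) ^ (1 / 4 : ℝ)) := by
  have hR0 : 0 < R := by linarith
  have ht : |t / R| = |t| / R := by rw [abs_div, abs_of_pos hR0]
  have hu : 0 ≤ |t / R| := abs_nonneg _
  have h1 : |t| + 2 ≤ R * (2 * (1 + |t / R|)) := by
    have h2 : R * (2 * (1 + |t / R|)) = 2 * R + 2 * |t| := by
      rw [ht]
      field_simp
    rw [h2]
    have := abs_nonneg t
    linarith
  calc (|t| + 2) ^ ε' ≤ (R * (2 * (1 + |t / R|))) ^ ε' :=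
        Real.rpow_le_rpow (by positivity) h1 hε.le
    _ = R ^ ε' * (2 * (1 + |t / R|)) ^ ε' := Real.mul_rpow hR0.le (by positivity)
    _ ≤ R ^ ε' * (2 * (1 + |t / R|)) ^ (1 / 4 : ℝ) := by
        refine mul_le_mul_of_nonneg_left ?_ (Real.rpow_nonneg hR0.le _)
        exact Real.rpow_le_rpow_of_exponent_le (by linarith) hε2
    _ = R ^ ε' * (2 ^ (1 / 4 : ℝ) * (1 + |t / R|) ^ (1 / 4 : ℝ)) := by
        rw [Real.mul_rpow (by norm_num) (by positivity)]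
    _ ≤ R ^ ε' * (2 * (1 + |t / R|) ^ (1 / 4 : ℝ)) := by
        refine mul_le_mul_of_nonneg_left ?_ (Real.rpow_nonneg hR0.le _)
        refine mul_le_mul_of_nonneg_right ?_ (Real.rpow_nonneg (by positivity) _)
        calc (2 : ℝ) ^ (1 / 4 : ℝ) ≤ 2 ^ (1 : ℝ) :=
              Real.rpow_le_rpow_of_exponent_le (by norm_num) (by norm_num)
          _ = 2 := Real.rpow_one 2

private theorem lapc_sq {b R t L : ℝ} (hR : 1 ≤ R) (hL : 0 ≤ L) (h1 : L ≤ b)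
    (h2 : t ^ 2 * L ≤ b * R ^ 2) : L ≤ 4 * b * (1 + |t / R|) ^ (-(2 : ℝ)) := by
  have hR0 : 0 < R := by linarith
  have hu : 0 ≤ |t / R| := abs_nonneg _
  have h3 : |t / R| ^ 2 * L ≤ b := by
    rw [sq_abs, div_pow, div_mul_eq_mul_div, div_le_iff₀ (by positivity)]
    exact h2
  have hb : (1 + |t / R|) ^ 2 * L ≤ 4 * b := by
    have h4 : (1 + |t / R|) ^ 2 * L ≤ (2 * (1 + |t / R| ^ 2)) * L := by
      refine mul_le_mul_of_nonneg_right ?_ hL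
      nlinarith [sq_nonneg (1 - |t / R|)]
    nlinarith
  rw [Real.rpow_neg (by positivity), ← div_eq_mul_inv, le_div_iff₀ (by positivity),
    Real.rpow_two, mul_comm]
  exact hb

private theorem lapc_pt {F : ℝ → ℂ} (hF : Nice F) {ε' b R σ : ℝ} (hε : 0 < ε') (hε2 : ε' ≤ 1 / 4)
    (hR : 1 ≤ R) (hσ0 : 0 ≤ σ) (hσ : σ ≤ 2)
    (h1 : ∫ x, Real.exp (3 * |x|) * ‖F x‖ ≤ b)
    (h2 : ∫ x, Real.exp (3 * |x|) * ‖deriv (deriv F) x‖ ≤ b * R ^ 2) (t : ℝ) :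
    ‖Lap F (σ + t * I)‖ * (|t| + 2) ^ ε' ≤
      8 * b * R ^ ε' * (1 + |t / R|) ^ (-(7 / 4 : ℝ)) := by
  have hR0 : 0 < R := by linarith
  have hre : ((σ : ℂ) + t * I).re = σ := by simp
  have him : ((σ : ℂ) + t * I).im = t := by simp
  have h3 : ‖Lap F (σ + t * I)‖ ≤ b := by
    refine (norm_Lap_le hF (s := σ + t * I) ?_).trans h1
    rw [hre, abs_of_nonneg hσ0]
    linarith
  have h4 : t ^ 2 * ‖Lap F (σ + t * I)‖ ≤ b * R ^ 2 := by
    have h5 := (norm_sq_Lap_le hF (s := σ + t * I) (by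
      rw [hre, abs_of_nonneg hσ0]
      exact hσ)).trans h2
    refine le_trans (mul_le_mul_of_nonneg_right ?_ (norm_nonneg _)) h5
    have h6 := Complex.abs_im_le_norm ((σ : ℂ) + t * I)
    rw [him] at h6
    rw [← sq_abs]
    exact pow_le_pow_left₀ (abs_nonneg _) h6 2
  have h5 := lapc_sq hR (norm_nonneg _) h3 h4
  have h6 := lapc_pow (t := t) hε hε2 hR
  have hb : 0 ≤ b := (norm_nonneg _).trans h3
  have hu : 0 ≤ |t / R| := abs_nonneg _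
  have h7 : 0 ≤ (1 + |t / R|) ^ (-(2 : ℝ)) := Real.rpow_nonneg (by positivity) _
  calc ‖Lap F (σ + t * I)‖ * (|t| + 2) ^ ε'
      ≤ (4 * b * (1 + |t / R|) ^ (-(2 : ℝ))) * (R ^ ε' * (2 * (1 + |t / R|) ^ (1 / 4 : ℝ))) :=
        mul_le_mul h5 h6 (Real.rpow_nonneg (by positivity) _) (by positivity)
    _ = 8 * b * R ^ ε' * ((1 + |t / R|) ^ (-(2 : ℝ)) * (1 + |t / R|) ^ (1 / 4 : ℝ)) := by ring
    _ = 8 * b * R ^ ε' * (1 + |t / R|) ^ (-(7 / 4 : ℝ)) := by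
        rw [← Real.rpow_add (by positivity)]
        norm_num

/-- `|Lap| ≤ min (b, b R² / t²)`: split at `|t| = R` -/
theorem int_Lap_le {ε' : ℝ} (hε : 0 < ε') (hε2 : ε' ≤ 1 / 4) : ∃ C : ℝ, 0 < C ∧ ∀ (F : ℝ → ℂ) (b R σ : ℝ), Nice F → 0 ≤ b → 1 ≤ R →
    0 ≤ σ → σ ≤ 2 → ∫ x, Real.exp (3 * |x|) * ‖F x‖ ≤ b → ∫ x, Real.exp (3 * |x|) * ‖deriv (deriv F) x‖ ≤ b * R ^ 2 →
    Integrable (fun t : ℝ => ‖Lap F (σ + t * I)‖ * (|t| + 2) ^ ε') ∧
    ∫ t : ℝ, ‖Lap F (σ + t * I)‖ * (|t| + 2) ^ ε' ≤ C * b * R ^ (1 + ε') := by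
  have hJ : 0 ≤ ∫ u : ℝ, (1 + |u|) ^ (-(7 / 4 : ℝ)) :=
    integral_nonneg fun u => Real.rpow_nonneg (by positivity) _
  refine ⟨8 * (∫ u : ℝ, (1 + |u|) ^ (-(7 / 4 : ℝ))) + 1, by positivity, ?_⟩
  intro F b R σ hF hb hR hσ0 hσ h1 h2
  have hR0 : 0 < R := by linarith
  have hpt := lapc_pt hF hε hε2 hR hσ0 hσ h1 h2
  have hmaj : Integrable (fun t : ℝ => 8 * b * R ^ ε' * (1 + |t / R|) ^ (-(7 / 4 : ℝ))) :=
    (lapc_int.comp_div hR0.ne').const_mul _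
  have hcont : Continuous (fun t : ℝ => ‖Lap F (σ + t * I)‖ * (|t| + 2) ^ ε') := by
    refine Continuous.mul ?_ ?_
    · refine Continuous.norm ?_
      refine (Lap_diff hF).continuousOn.comp_continuous (by fun_prop) ?_
      intro t
      have hre : ((σ : ℂ) + t * I).re = σ := by simp
      change |((σ : ℂ) + t * I).re| < 3
      rw [hre, abs_of_nonneg hσ0]
      linarith
    · refine Continuous.rpow_const (by fun_prop) ?_
      intro t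
      exact Or.inr hε.le
  have hint : Integrable (fun t : ℝ => ‖Lap F (σ + t * I)‖ * (|t| + 2) ^ ε') := by
    refine hmaj.mono' hcont.aestronglyMeasurable (Filter.Eventually.of_forall fun t => ?_)
    rw [Real.norm_of_nonneg (mul_nonneg (norm_nonneg _) (Real.rpow_nonneg (by positivity) _))]
    exact hpt t
  refine ⟨hint, ?_⟩
  have h3 : ∫ t : ℝ, (1 + |t / R|) ^ (-(7 / 4 : ℝ)) = R * ∫ u : ℝ, (1 + |u|) ^ (-(7 / 4 : ℝ)) := by
    have h4 := Measure.integral_comp_div (fun u : ℝ => (1 + |u|) ^ (-(7 / 4 : ℝ))) R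
    rw [abs_of_pos hR0, smul_eq_mul] at h4
    exact h4
  calc ∫ t : ℝ, ‖Lap F (σ + t * I)‖ * (|t| + 2) ^ ε'
      ≤ ∫ t : ℝ, 8 * b * R ^ ε' * (1 + |t / R|) ^ (-(7 / 4 : ℝ)) := integral_mono hint hmaj hpt
    _ = 8 * b * R ^ ε' * (R * ∫ u : ℝ, (1 + |u|) ^ (-(7 / 4 : ℝ))) := by
        rw [integral_const_mul, h3]
    _ = (8 * ∫ u : ℝ, (1 + |u|) ^ (-(7 / 4 : ℝ))) * (b * R ^ (1 + ε')) := by
        rw [Real.rpow_add hR0, Real.rpow_one]
        ring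
    _ ≤ (8 * (∫ u : ℝ, (1 + |u|) ^ (-(7 / 4 : ℝ))) + 1) * (b * R ^ (1 + ε')) := by
        refine mul_le_mul_of_nonneg_right (by linarith) ?_
        exact mul_nonneg hb (Real.rpow_nonneg hR0.le _)
    _ = _ := by ring

end Pool.Agent.MP_291b24_nt.Sm
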