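import Mathlib

/-! The formula `(s - 1) ζ(s) = s - s (s - 1) ∫_1^∞ {x} x ^ (-s-1) dx` for `Re s > 0` -/

set_option autoImplicit false

open Complex MeasureTheory Set Filter Topology Asymptotics

namespace Pool.Agent.MP_291b24_nt.Sm

/-- `{x}` for `x > 1`, zero otherwise -/
noncomputable def frc (x : ℝ) : ℂ := (Ioi (1 : ℝ)).indicator (fun x => ((Int.fract x : ℝ) : ℂ)) x

/-- `∫_1^∞ {x} x ^ (-s-1) dx` -/
noncomputable def Jz (s : ℂ) : ℂ := mellin frc (-s)

theorem norm_frc_le (x : ℝ) : ‖frc x‖ ≤ 1 := by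
  unfold frc
  by_cases hx : x ∈ Ioi (1 : ℝ)
  · rw [indicator_of_mem hx, Complex.norm_real, Real.norm_of_nonneg (Int.fract_nonneg x)]
    exact (Int.fract_lt_one x).le
  · rw [indicator_of_notMem hx, norm_zero]
    exact zero_le_one

theorem measurable_frc : Measurable frc :=
  (Complex.measurable_ofReal.comp measurable_fract).indicator measurableSet_Ioi

theorem Jz_eq (s : ℂ) :
    Jz s = ∫ x : ℝ in Ioi (1 : ℝ), (x : ℂ) ^ (-s - 1) * ((Int.fract x : ℝ) : ℂ) := by
  unfold Jz mellin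
  have h1 : ∀ x : ℝ, (x : ℂ) ^ (-s - 1) • frc x =
      (Ioi (1 : ℝ)).indicator (fun x : ℝ => (x : ℂ) ^ (-s - 1) * ((Int.fract x : ℝ) : ℂ)) x := by
    intro x
    unfold frc
    by_cases hx : x ∈ Ioi (1 : ℝ)
    · rw [indicator_of_mem hx, indicator_of_mem hx, smul_eq_mul]
    · rw [indicator_of_notMem hx, indicator_of_notMem hx, smul_zero]
  simp_rw [h1]
  rw [setIntegral_indicator measurableSet_Ioi]
  have h2 : Ioi (0 : ℝ) ∩ Ioi 1 = Ioi 1 :=
    inter_eq_right.2 (Ioi_subset_Ioi zero_le_one)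
  rw [h2]

theorem norm_Jz_le {s : ℂ} (hs : 0 < s.re) : ‖Jz s‖ ≤ 1 / s.re := by
  rw [Jz_eq]
  have h1 : ∫ x : ℝ in Ioi (1 : ℝ), x ^ (-s.re - 1) = 1 / s.re := by
    rw [integral_Ioi_rpow_of_lt (by linarith) one_pos, Real.one_rpow]
    have h0 : -s.re - 1 + 1 = -s.re := by ring
    rw [h0, neg_div_neg_eq]
  rw [← h1]
  refine norm_integral_le_of_norm_le (integrableOn_Ioi_rpow_of_lt (by linarith) one_pos) ?_
  refine (ae_restrict_iff' measurableSet_Ioi).2 (ae_of_all _ fun x hx => ?_)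
  have hx0 : (0 : ℝ) < x := lt_trans one_pos hx
  rw [norm_mul, norm_cpow_eq_rpow_re_of_pos hx0, Complex.norm_real,
    Real.norm_of_nonneg (Int.fract_nonneg x)]
  have h2 : (-s - 1).re = -s.re - 1 := by simp
  rw [h2]
  calc x ^ (-s.re - 1) * Int.fract x ≤ x ^ (-s.re - 1) * 1 :=
        mul_le_mul_of_nonneg_left (Int.fract_lt_one x).le (Real.rpow_nonneg hx0.le _)
    _ = x ^ (-s.re - 1) := mul_one _

theorem differentiableAt_Jz {s : ℂ} (hs : 0 < s.re) : DifferentiableAt ℂ Jz s := by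
  have h1 : DifferentiableAt ℂ (mellin frc) (-s) := by
    refine mellin_differentiableAt_of_isBigO_rpow (a := 0) (b := -s.re - 1) ?_ ?_ ?_ ?_ ?_
    · refine LocallyIntegrable.locallyIntegrableOn ?_ _
      refine (locallyIntegrable_const (1 : ℝ)).mono measurable_frc.aestronglyMeasurable ?_
      refine ae_of_all _ fun x => ?_
      rw [Real.norm_of_nonneg zero_le_one]
      exact norm_frc_le x
    · refine isBigO_of_le _ fun x => ?_
      simpa using norm_frc_le x
    · simpa using hs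
    · have h2 : frc =ᶠ[𝓝[>] 0] fun _ => 0 := by
        have h3 : Iio (1 : ℝ) ∈ 𝓝[>] (0 : ℝ) :=
          mem_nhdsWithin_of_mem_nhds (Iio_mem_nhds one_pos)
        filter_upwards [h3] with x hx
        unfold frc
        rw [indicator_of_notMem]
        exact fun h => lt_asymm (mem_Ioi.1 h) (mem_Iio.1 hx)
      exact h2.trans_isBigO (isBigO_zero _ _)
    · simp
  exact h1.comp s differentiableAt_id.neg

theorem zeta_eq_of_one_lt {s : ℂ} (hs : 1 < s.re) :
    (s - 1) * riemannZeta s = s - s * (s - 1) * Jz s := by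
  have hs1 : s ≠ 1 := by
    intro h
    rw [h, one_re] at hs
    exact lt_irrefl _ hs
  have h1 : riemannZeta s = s * ∫ t in Ioi (1 : ℝ),
      (∑ k ∈ Finset.Icc 1 ⌊t⌋₊, (1 : ℕ → ℂ) k) * (t : ℂ) ^ (-(s + 1)) := by
    rw [← LSeries_one_eq_riemannZeta hs]
    refine LSeries_eq_mul_integral 1 (r := 1) zero_le_one hs (LSeriesSummable_one_iff.2 hs) ?_
    refine isBigO_of_le _ fun n => ?_
    simp
  have h2 : ∫ t in Ioi (1 : ℝ), (∑ k ∈ Finset.Icc 1 ⌊t⌋₊, (1 : ℕ → ℂ) k) * (t : ℂ) ^ (-(s + 1)) =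
      ∫ t : ℝ in Ioi (1 : ℝ), ((t : ℂ) ^ (-s) - (t : ℂ) ^ (-s - 1) * ((Int.fract t : ℝ) : ℂ)) := by
    refine setIntegral_congr_fun measurableSet_Ioi fun t ht => ?_
    have ht0 : (0 : ℝ) < t := lt_trans one_pos ht
    have htc : (t : ℂ) ≠ 0 := by exact_mod_cast ht0.ne'
    have e1 : ∑ k ∈ Finset.Icc 1 ⌊t⌋₊, (1 : ℕ → ℂ) k = ((⌊t⌋₊ : ℝ) : ℂ) := by
      simp
    have e2 : ((⌊t⌋₊ : ℕ) : ℝ) = t - Int.fract t := by
      have := Int.self_sub_floor t
      rw [natCast_floor_eq_intCast_floor ht0.le]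
      linarith
    have e3 : (t : ℂ) ^ (-s) = (t : ℂ) * (t : ℂ) ^ (-s - 1) := by
      have : -s = 1 + (-s - 1) := by ring
      conv_lhs => rw [this, cpow_add _ _ htc, cpow_one]
    have e4 : -(s + 1) = -s - 1 := by ring
    change (∑ k ∈ Finset.Icc 1 ⌊t⌋₊, (1 : ℕ → ℂ) k) * (t : ℂ) ^ (-(s + 1)) =
      (t : ℂ) ^ (-s) - (t : ℂ) ^ (-s - 1) * ((Int.fract t : ℝ) : ℂ)
    rw [e1, e2, e3, e4]
    push_cast
    ring
  have hi1 : IntegrableOn (fun t : ℝ => (t : ℂ) ^ (-s)) (Ioi 1) :=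
    integrableOn_Ioi_cpow_of_lt (by rw [neg_re]; linarith) one_pos
  have hi2 : IntegrableOn (fun t : ℝ => (t : ℂ) ^ (-s - 1) * ((Int.fract t : ℝ) : ℂ)) (Ioi 1) := by
    have h3 : IntegrableOn (fun t : ℝ => (t : ℂ) ^ (-s - 1)) (Ioi 1) :=
      integrableOn_Ioi_cpow_of_lt (by rw [sub_re, neg_re, one_re]; linarith) one_pos
    refine Integrable.mul_bdd (c := 1) h3 ?_ ?_
    · exact (Complex.measurable_ofReal.comp measurable_fract).aestronglyMeasurable
    · refine ae_of_all _ fun x => ?_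
      rw [Complex.norm_real, Real.norm_of_nonneg (Int.fract_nonneg x)]
      exact (Int.fract_lt_one x).le
  rw [h1, h2, integral_sub hi1 hi2, ← Jz_eq,
    integral_Ioi_cpow_of_lt (by rw [neg_re]; linarith) one_pos]
  have h3 : -s + 1 ≠ 0 := by
    intro h
    apply hs1
    linear_combination -h
  rw [ofReal_one, one_cpow]
  have h4 : s - 1 ≠ 0 := sub_ne_zero.2 hs1
  field_simp
  ring

theorem zeta_eq {s : ℂ} (hs : 0 < s.re) (hs1 : s ≠ 1) :
    (s - 1) * riemannZeta s = s - s * (s - 1) * Jz s := by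
  have htr : DirichletCharacter.LFunctionTrivChar 1 = riemannZeta := by
    unfold DirichletCharacter.LFunctionTrivChar
    exact DirichletCharacter.LFunction_modOne_eq
  have hZ : ∀ s : ℂ, s ≠ 1 →
      DirichletCharacter.LFunctionTrivChar₁ 1 s = (s - 1) * riemannZeta s := by
    intro s hs
    unfold DirichletCharacter.LFunctionTrivChar₁
    rw [Function.update_of_ne hs, htr]
  have hd := DirichletCharacter.differentiable_LFunctionTrivChar₁ 1
  have hU : IsOpen {z : ℂ | 0 < z.re} := isOpen_lt continuous_const continuous_re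
  have hpre : IsPreconnected {z : ℂ | 0 < z.re} := (convex_halfSpace_re_gt 0).isPreconnected
  have h1 : AnalyticOnNhd ℂ (DirichletCharacter.LFunctionTrivChar₁ 1) {z : ℂ | 0 < z.re} :=
    hd.differentiableOn.analyticOnNhd hU
  have h2 : AnalyticOnNhd ℂ (fun s => s - s * (s - 1) * Jz s) {z : ℂ | 0 < z.re} := by
    refine DifferentiableOn.analyticOnNhd (fun z hz => ?_) hU
    refine DifferentiableAt.differentiableWithinAt ?_
    exact differentiableAt_id.sub
      ((differentiableAt_id.mul (differentiableAt_id.sub_const 1)).mul (differentiableAt_Jz hz))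
  have h3 : DirichletCharacter.LFunctionTrivChar₁ 1 =ᶠ[𝓝 (2 : ℂ)]
      fun s => s - s * (s - 1) * Jz s := by
    have h4 : {z : ℂ | 1 < z.re} ∈ 𝓝 (2 : ℂ) := by
      refine (isOpen_lt continuous_const continuous_re).mem_nhds ?_
      change (1 : ℝ) < (2 : ℂ).re
      norm_num
    filter_upwards [h4] with z hz
    have hz1 : z ≠ 1 := by
      intro h
      rw [h] at hz
      exact lt_irrefl (1 : ℝ) hz
    rw [hZ z hz1]
    exact zeta_eq_of_one_lt hz
  have h5 := h1.eqOn_of_preconnected_of_eventuallyEq h2 hpre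
    (show (2 : ℂ) ∈ {z : ℂ | 0 < z.re} by
      change (0 : ℝ) < (2 : ℂ).re
      norm_num) h3
  have h6 := h5 hs
  rw [hZ s hs1] at h6
  exact h6

end Pool.Agent.MP_291b24_nt.Sm
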