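import Pool.Agent.Lib.MP_291b24_nt.Sm.LbA
import Pool.Agent.Lib.MP_291b24_nt.Sm.LbZ
import Pool.Agent.Lib.MP_291b24_nt.Zeros

/-! Polynomial bounds for L-functions -/

set_option autoImplicit false

open Complex

namespace Pool.Agent.MP_291b24_nt.Sm

private theorem sum_hw : ∑ j : ZMod 4, ((hw j.val : ℤ) : ℂ) = 0 := by
  have h : ∑ j : ZMod 4, hw j.val = 0 := by decide
  exact_mod_cast h

private theorem sum_norm_hw : ∑ j : ZMod 4, ‖((hw j.val : ℤ) : ℂ)‖ = 4 := by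
  have h : ∑ j : ZMod 4, |hw j.val| = 4 := by decide
  have h2 : ∀ j : ZMod 4, ‖((hw j.val : ℤ) : ℂ)‖ = ((|hw j.val| : ℤ) : ℝ) := by
    intro j
    rw [Complex.norm_intCast, Int.cast_abs]
  simp_rw [h2]
  exact_mod_cast h

theorem differentiable_HH : Differentiable ℂ HH := by
  unfold HH
  exact ZMod.differentiable_LFunction_of_sum_zero sum_hw

theorem norm_HH_le (s : ℂ) (hs : 0 < s.re) : ‖HH s‖ ≤ 4 * ‖s‖ / s.re := by
  have h := norm_LFunction_le (fun j : ZMod 4 => ((hw j.val : ℤ) : ℂ)) sum_hw s hs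
  rw [sum_norm_hw] at h
  exact h

/-- Dirichlet series of `HH` -/
theorem hasSum_HH {s : ℂ} (hs : 1 < s.re) : HasSum (fun l : ℕ => ((hw l : ℤ) : ℂ) * (l : ℂ) ^ (-s)) (HH s) := by
  have h1 := (ZMod.LSeriesSummable_of_one_lt_re (fun j : ZMod 4 => ((hw j.val : ℤ) : ℂ)) hs).hasSum
  have h2 : HH s = ∑' n : ℕ, LSeries.term (fun n : ℕ => ((hw ((n : ZMod 4)).val : ℤ) : ℂ)) s n := by
    unfold HH
    rw [ZMod.LFunction_eq_LSeries _ hs]
    rfl
  rw [h2]
  have h3 : (fun l : ℕ => ((hw l : ℤ) : ℂ) * (l : ℂ) ^ (-s)) =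
      LSeries.term (fun n : ℕ => ((hw ((n : ZMod 4)).val : ℤ) : ℂ)) s := by
    funext l
    have h4 : hw ((l : ZMod 4)).val = hw l := by
      rw [ZMod.val_natCast]
      unfold hw
      have e1 : l % 4 % 2 = l % 2 := by omega
      have e2 : l % 4 % 4 = l % 4 := by omega
      rw [e1, e2]
    rw [LSeries.term_def]
    by_cases hl : l = 0
    · rw [if_pos hl, hl]
      unfold hw
      simp
    · rw [if_neg hl, h4, cpow_neg, div_eq_mul_inv]
  rw [h3]
  exact h1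

theorem norm_Lchi_le_of_ne {n : ℕ} (hn : Odd n) (hs : Squarefree n) (h1 : n ≠ 1) (s : ℂ) (h0 : 0 < s.re) :
    ‖Lchi n s‖ ≤ n * ‖s‖ / s.re := by
  have hn0 : n ≠ 0 := by
    intro h
    rw [h] at hn
    simp at hn
  have : NeZero n := ⟨hn0⟩
  unfold Lchi
  rw [dif_neg hn0]
  have hsum : ∑ j : ZMod n, chi n j = 0 :=
    MulChar.sum_eq_zero_of_ne_one (chi_ne_one h1 hn hs)
  have h2 := norm_LFunction_le (fun j : ZMod n => chi n j) hsum s h0
  have h3 : ∑ j : ZMod n, ‖chi n j‖ ≤ n := by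
    calc ∑ j : ZMod n, ‖chi n j‖ ≤ ∑ _j : ZMod n, (1 : ℝ) :=
          Finset.sum_le_sum fun j _ => (chi n).norm_le_one j
      _ = n := by
          rw [Finset.sum_const, Finset.card_univ, ZMod.card]
          simp
  refine h2.trans ?_
  exact div_le_div_of_nonneg_right (mul_le_mul_of_nonneg_right h3 (norm_nonneg _)) h0.le

/-- `ζ(s) = s/(s-1) - s ∫_1^∞ {x} x^(-s-1) dx` -/
theorem norm_zeta_le (s : ℂ) (h0 : 1 / 8 ≤ s.re) (h1 : 1 ≤ |s.im|) : ‖riemannZeta s‖ ≤ 10 * (‖s‖ + 1) := by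
  have hs0 : 0 < s.re := by linarith
  have hs1 : s ≠ 1 := by
    intro h
    rw [h] at h1
    simp at h1
    linarith
  have h2 := zeta_eq hs0 hs1
  have h3 : s - 1 ≠ 0 := sub_ne_zero.2 hs1
  have h4 : riemannZeta s = s / (s - 1) - s * Jz s := by
    field_simp
    linear_combination h2
  have h5 : 1 ≤ ‖s - 1‖ := by
    have := Complex.abs_im_le_norm (s - 1)
    rw [sub_im, one_im, sub_zero] at this
    linarith
  have h6 : ‖Jz s‖ ≤ 8 := by
    refine (norm_Jz_le hs0).trans ?_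
    rw [div_le_iff₀ hs0]
    linarith
  rw [h4]
  calc ‖s / (s - 1) - s * Jz s‖ ≤ ‖s / (s - 1)‖ + ‖s * Jz s‖ := norm_sub_le _ _
    _ ≤ ‖s‖ + ‖s‖ * 8 := by
        refine add_le_add ?_ ?_
        · rw [norm_div]
          exact div_le_self (norm_nonneg _) h5
        · rw [norm_mul]
          exact mul_le_mul_of_nonneg_left h6 (norm_nonneg _)
    _ ≤ 10 * (‖s‖ + 1) := by
        have := norm_nonneg s
        linarith

/-- the same for `(s - 1) ζ(s)` without the condition on the imaginary part -/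
theorem norm_sub_mul_zeta_le (s : ℂ) (h0 : 1 / 8 ≤ s.re) : ‖(s - 1) * riemannZeta s‖ ≤ 10 * (‖s‖ + 1) ^ 2 := by
  have hs0 : 0 < s.re := by linarith
  have hn := norm_nonneg s
  by_cases hs1 : s = 1
  · rw [hs1, sub_self, zero_mul, norm_zero]
    positivity
  · rw [zeta_eq hs0 hs1]
    have h6 : ‖Jz s‖ ≤ 8 := by
      refine (norm_Jz_le hs0).trans ?_
      rw [div_le_iff₀ hs0]
      linarith
    have h5 : ‖s - 1‖ ≤ ‖s‖ + 1 := by
      have := norm_sub_le s 1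
      rwa [norm_one] at this
    calc ‖s - s * (s - 1) * Jz s‖ ≤ ‖s‖ + ‖s * (s - 1) * Jz s‖ := norm_sub_le _ _
      _ ≤ ‖s‖ + ‖s‖ * (‖s‖ + 1) * 8 := by
          refine add_le_add le_rfl ?_
          rw [norm_mul, norm_mul]
          exact mul_le_mul (mul_le_mul_of_nonneg_left h5 hn) h6 (norm_nonneg _) (by positivity)
      _ ≤ 10 * (‖s‖ + 1) ^ 2 := by nlinarith

end Pool.Agent.MP_291b24_nt.Sm
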