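import Pool.Agent.Lib.MP_291b24_nt.Sm.Defs

/-! Abel summation for periodic coefficients of mean zero -/

set_option autoImplicit false

open Complex

namespace Pool.Agent.MP_291b24_nt.Sm

private theorem lb_full {N : ℕ} [NeZero N] {R : Type} [AddCommMonoid R] (Ψ : ZMod N → R) :
    ∑ k ∈ Finset.range N, Ψ (k : ZMod N) = ∑ j, Ψ j := by
  refine Finset.sum_bij' (fun k _ => (k : ZMod N)) (fun j _ => j.val) (fun _ _ => Finset.mem_univ _)
    (fun j _ => Finset.mem_range.2 (ZMod.val_lt j)) (fun k hk => ?_) (fun j _ => ?_) (fun _ _ => rfl)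
  · exact ZMod.val_cast_of_lt (Finset.mem_range.1 hk)
  · exact ZMod.natCast_zmod_val j

private theorem lb_part {N : ℕ} [NeZero N] (Ψ : ZMod N → ℂ) (h0 : ∑ j, Ψ j = 0) (n : ℕ) :
    ‖∑ k ∈ Finset.range n, Ψ (k : ZMod N)‖ ≤ ∑ j, ‖Ψ j‖ := by
  have hN : 0 < N := Nat.pos_of_ne_zero (NeZero.ne N)
  have h1 : ∀ q : ℕ, ∑ k ∈ Finset.range (N * q), Ψ (k : ZMod N) = 0 := by
    intro q
    induction q with
    | zero => simp
    | succ q ih =>
      rw [Nat.mul_succ, Finset.sum_range_add, ih, zero_add, ← h0, ← lb_full]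
      refine Finset.sum_congr rfl fun k _ => ?_
      push_cast
      rw [ZMod.natCast_self, zero_mul, zero_add]
  have h2 : ∑ k ∈ Finset.range n, Ψ (k : ZMod N) =
      ∑ k ∈ Finset.range (n % N), Ψ (k : ZMod N) := by
    conv_lhs => rw [← Nat.div_add_mod n N, Finset.sum_range_add, h1, zero_add]
    refine Finset.sum_congr rfl fun k _ => ?_
    push_cast
    rw [ZMod.natCast_self, zero_mul, zero_add]
  rw [h2]
  refine (norm_sum_le _ _).trans ?_
  rw [← lb_full (fun j => ‖Ψ j‖)]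
  exact Finset.sum_le_sum_of_subset_of_nonneg
    (Finset.range_mono (Nat.mod_lt _ hN).le) fun _ _ _ => norm_nonneg _

private theorem lb_bound {N : ℕ} [NeZero N] (Φ : ZMod N → ℂ) (h0 : ∑ j, Φ j = 0) (n : ℕ) :
    ‖∑ k ∈ Finset.Icc 1 n, Φ (k : ZMod N)‖ ≤ ∑ j, ‖Φ j‖ := by
  have h1 : ∑ k ∈ Finset.Icc 1 n, Φ (k : ZMod N) =
      ∑ k ∈ Finset.range n, (fun j : ZMod N => Φ (j + 1)) (k : ZMod N) := by
    induction n with
    | zero => simp
    | succ n ih =>
      rw [Finset.sum_Icc_succ_top (by omega), ih, Finset.sum_range_succ]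
      push_cast
      rfl
  rw [h1]
  refine (lb_part (fun j : ZMod N => Φ (j + 1)) ?_ n).trans (le_of_eq ?_)
  · rw [← h0]
    exact Fintype.sum_equiv (Equiv.addRight (1 : ZMod N)) _ _ fun _ => rfl
  · exact Fintype.sum_equiv (Equiv.addRight (1 : ZMod N)) _ _ fun _ => rfl

/-- The partial sums of `Φ` are bounded by `∑ |Φ|`; Abel summation `L(s) = s ∫_1^∞ A(x) x^(-s-1) dx` for `Re s > 1` (`LSeries_eq_mul_integral`) and the
identity theorem (the right side is holomorphic for `Re s > 0`, `ZMod.differentiable_LFunction_of_sum_zero`). -/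
theorem norm_LFunction_le {N : ℕ} [NeZero N] (Φ : ZMod N → ℂ) (h0 : ∑ j, Φ j = 0) (s : ℂ) (hs : 0 < s.re) :
    ‖ZMod.LFunction Φ s‖ ≤ (∑ j, ‖Φ j‖) * ‖s‖ / s.re := by
  set B : ℝ := ∑ j, ‖Φ j‖ with hB
  have hB0 : 0 ≤ B := Finset.sum_nonneg fun _ _ => norm_nonneg _
  set A : ℝ → ℂ := fun t => ∑ k ∈ Finset.Icc 1 ⌊t⌋₊, Φ (k : ZMod N) with hA
  have hAb : ∀ t, ‖A t‖ ≤ B := fun t => lb_bound Φ h0 _
  have hAm : Measurable A :=
    (measurable_from_nat (f := fun n : ℕ => ∑ k ∈ Finset.Icc 1 n, Φ (k : ZMod N))).comp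
      Nat.measurable_floor
  set f : ℝ → ℂ := (Set.Ioi (1 : ℝ)).indicator A with hf
  have hfm : Measurable f := hAm.indicator measurableSet_Ioi
  have hfb : ∀ t, ‖f t‖ ≤ B := by
    intro t
    rw [hf]
    by_cases h : t ∈ Set.Ioi (1 : ℝ)
    · rw [Set.indicator_of_mem h]
      exact hAb t
    · rw [Set.indicator_of_notMem h, norm_zero]
      exact hB0
  -- the integral
  set G : ℂ → ℂ := fun z => z * ∫ t in Set.Ioi (1 : ℝ), A t * (t : ℂ) ^ (-(z + 1)) with hG
  have hmel : ∀ z : ℂ, ∫ t in Set.Ioi (1 : ℝ), A t * (t : ℂ) ^ (-(z + 1)) = mellin f (-z) := by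
    intro z
    unfold mellin
    have h1 : ∀ t : ℝ, (t : ℂ) ^ (-z - 1) • f t =
        (Set.Ioi (1 : ℝ)).indicator (fun t : ℝ => A t * (t : ℂ) ^ (-(z + 1))) t := by
      intro t
      rw [hf]
      by_cases h : t ∈ Set.Ioi (1 : ℝ)
      · rw [Set.indicator_of_mem h, Set.indicator_of_mem h, smul_eq_mul, mul_comm,
          show -z - 1 = -(z + 1) by ring]
      · rw [Set.indicator_of_notMem h, Set.indicator_of_notMem h, smul_zero]
    simp only [h1]
    rw [MeasureTheory.setIntegral_indicator measurableSet_Ioi]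
    have h2 : Set.Ioi (0 : ℝ) ∩ Set.Ioi 1 = Set.Ioi 1 :=
      Set.inter_eq_right.2 (Set.Ioi_subset_Ioi zero_le_one)
    rw [h2]
  have hGd : ∀ z : ℂ, 0 < z.re → DifferentiableAt ℂ G z := by
    intro z hz
    have h1 : DifferentiableAt ℂ (mellin f) (-z) := by
      refine mellin_differentiableAt_of_isBigO_rpow (a := 0) (b := (-z).re - 1) ?_ ?_ ?_ ?_ ?_
      · refine MeasureTheory.LocallyIntegrable.locallyIntegrableOn ?_ _
        refine (MeasureTheory.locallyIntegrable_const (B : ℝ)).mono hfm.aestronglyMeasurable ?_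
        refine Filter.Eventually.of_forall fun t => ?_
        rw [Real.norm_of_nonneg hB0]
        exact hfb t
      · refine Asymptotics.IsBigO.of_bound B (Filter.Eventually.of_forall fun t => ?_)
        rw [neg_zero, Real.rpow_zero, norm_one, mul_one]
        exact hfb t
      · rw [neg_re]
        linarith
      · have h2 : (fun _ : ℝ => (0 : ℂ)) =ᶠ[nhdsWithin 0 (Set.Ioi 0)] f := by
          have h3 : Set.Iio (1 : ℝ) ∈ nhdsWithin (0 : ℝ) (Set.Ioi 0) :=
            mem_nhdsWithin_of_mem_nhds (Iio_mem_nhds zero_lt_one)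
          filter_upwards [h3] with t ht
          rw [hf, Set.indicator_of_notMem]
          exact not_lt.2 (le_of_lt (Set.mem_Iio.1 ht))
        exact (Asymptotics.isBigO_zero _ _).congr' h2 Filter.EventuallyEq.rfl
      · linarith
    have h2 : G = fun z => z * mellin f (-z) := by
      funext z
      rw [hG]
      change z * _ = z * _
      rw [hmel]
    rw [h2]
    exact differentiableAt_id.mul (h1.comp z differentiableAt_id.neg)
  -- the identity
  set U : Set ℂ := {z : ℂ | 0 < z.re} with hU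
  have hUo : IsOpen U := isOpen_lt continuous_const continuous_re
  have hUc : IsPreconnected U := (convex_halfSpace_re_gt 0).isPreconnected
  have hL : AnalyticOnNhd ℂ (ZMod.LFunction Φ) U :=
    (ZMod.differentiable_LFunction_of_sum_zero h0).differentiableOn.analyticOnNhd hUo
  have hGa : AnalyticOnNhd ℂ G U :=
    DifferentiableOn.analyticOnNhd (fun z hz => (hGd z hz).differentiableWithinAt) hUo
  have heq : Set.EqOn (ZMod.LFunction Φ) G U := by
    refine hL.eqOn_of_preconnected_of_eventuallyEq hGa hUc (z₀ := 2) (by simp [hU]) ?_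
    have h1 : {z : ℂ | 1 < z.re} ∈ nhds (2 : ℂ) :=
      (isOpen_lt continuous_const continuous_re).mem_nhds (by simp)
    filter_upwards [h1] with z hz
    rw [ZMod.LFunction_eq_LSeries Φ hz]
    refine LSeries_eq_mul_integral (fun n : ℕ => Φ (n : ZMod N)) (le_refl (0 : ℝ))
      (lt_trans zero_lt_one hz) (ZMod.LSeriesSummable_of_one_lt_re Φ hz) ?_
    refine Asymptotics.IsBigO.of_bound B (Filter.Eventually.of_forall fun n => ?_)
    rw [Real.rpow_zero, norm_one, mul_one]
    exact lb_bound Φ h0 n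
  rw [heq (show s ∈ U from hs), hG]
  change ‖s * ∫ t in Set.Ioi (1 : ℝ), A t * (t : ℂ) ^ (-(s + 1))‖ ≤ _
  have hint := integrableOn_Ioi_rpow_of_lt (a := -s.re - 1) (c := 1) (by linarith) zero_lt_one
  have h1 : ‖∫ t in Set.Ioi (1 : ℝ), A t * (t : ℂ) ^ (-(s + 1))‖ ≤
      ∫ t in Set.Ioi (1 : ℝ), B * t ^ (-s.re - 1) := by
    refine MeasureTheory.norm_integral_le_of_norm_le (hint.const_mul B) ?_
    filter_upwards [MeasureTheory.ae_restrict_mem measurableSet_Ioi] with t ht
    have ht0 : (0 : ℝ) < t := lt_trans zero_lt_one ht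
    rw [norm_mul, norm_cpow_eq_rpow_re_of_pos ht0]
    have h2 : (-(s + 1)).re = -s.re - 1 := by
      rw [neg_re, add_re, one_re]
      ring
    rw [h2]
    exact mul_le_mul_of_nonneg_right (hAb t) (Real.rpow_nonneg ht0.le _)
  rw [MeasureTheory.integral_const_mul, integral_Ioi_rpow_of_lt (by linarith) zero_lt_one,
    Real.one_rpow] at h1
  have h3 : -(1 : ℝ) / (-s.re - 1 + 1) = 1 / s.re := by
    rw [sub_add_cancel, neg_div_neg_eq]
  rw [h3] at h1
  rw [norm_mul]
  calc ‖s‖ * ‖∫ t in Set.Ioi (1 : ℝ), A t * (t : ℂ) ^ (-(s + 1))‖ ≤ ‖s‖ * (B * (1 / s.re)) :=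
        mul_le_mul_of_nonneg_left h1 (norm_nonneg _)
    _ = B * ‖s‖ / s.re := by ring

end Pool.Agent.MP_291b24_nt.Sm
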