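import Pool.Agent.Lib.MP_291b24_nt.Sm.PartA
import Pool.Agent.Lib.MP_291b24_nt.Sm.Boot

/-! The theorem -/

set_option autoImplicit false

open Complex MeasureTheory

namespace Pool.Agent.MP_291b24_nt.Sm

theorem not_Bd (hG : GRH) {r a ε θ C₁ K₀ X₀ : ℝ} (hr : 0 < r) (hra : r < a) (ha : a < 1 / 4) (hε : 0 < ε) (hε1 : ε < a - r) (hθ : 0 < θ)
    (hC₁ : 0 < C₁) (hX₀ : 2 ≤ X₀) : ¬ Bd r a ε θ C₁ K₀ X₀ := by
  intro hB
  obtain ⟨A, hA, h⟩ := partA hG hr hra ha hε hε1 hθ hC₁ hX₀ hB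
  have h1 : 0 < min (a - r - ε) (1 / 4 - r) := lt_min (by linarith) (by linarith)
  have h2 : min (a - r - ε) (1 / 4 - r) ≤ 1 / 4 := (min_le_left _ _).trans (by linarith)
  exact boot h1 h2 hA.le h

/-- monotone in `ε` -/
theorem small_shifts (hG : GRH) {r a ε θ C₁ : ℝ} (K₀ X₀ : ℝ) (hr : 0 < r) (hra : r < a) (ha : a < 1 / 4) (hε1 : ε < a - r) (hθ : 0 < θ)
    (hC₁ : 0 < C₁) : ∃ X : ℝ, 2 ≤ X ∧ X₀ ≤ X ∧ ∃ α β : ℂ, α.re = -a ∧ β.re = r ∧ |α.im| ≤ C₁ * X ^ θ ∧ |β.im| ≤ C₁ * X ^ θ ∧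
      K₀ * X ^ (1 / 2 + ε) < ‖S X α β - M1 X α β - M2 X α β‖ := by
  by_contra hcon
  push Not at hcon
  set ε' : ℝ := max ε ((a - r) / 2) with hε'
  have h1 : 0 < ε' := lt_of_lt_of_le (by linarith) (le_max_right _ _)
  have h2 : ε' < a - r := max_lt hε1 (by linarith)
  refine not_Bd (K₀ := |K₀|) (X₀ := max 2 X₀) hG hr hra ha h1 h2 hθ hC₁ (le_max_left _ _) ?_
  intro X hX α β hα hβ hα2 hβ2
  have hX2 : 2 ≤ X := (le_max_left _ _).trans hX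
  refine (hcon X hX2 ((le_max_right _ _).trans hX) α β hα hβ hα2 hβ2).trans ?_
  have hX1 : (1 : ℝ) ≤ X := by linarith
  calc K₀ * X ^ (1 / 2 + ε) ≤ |K₀| * X ^ (1 / 2 + ε) := by
        gcongr
        exact le_abs_self K₀
    _ ≤ |K₀| * X ^ (1 / 2 + ε') := by
        gcongr
        exact le_max_left _ _

end Pool.Agent.MP_291b24_nt.Sm
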