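import Pool.Agent.Lib.MP_291b24_nt.Sm.EEa
import Pool.Agent.Lib.MP_291b24_nt.Sm.SSl

/-! The Mellin transform of `SS D om` -/

set_option autoImplicit false

open Complex MeasureTheory

namespace Pool.Agent.MP_291b24_nt.Sm

/-! #### change of variable -/

private theorem cv_deriv : ∀ x ∈ (Set.univ : Set ℝ),
    HasDerivWithinAt (Real.exp ∘ Neg.neg) (-Real.exp (-x)) Set.univ x :=
  fun x _ => mul_neg_one (Real.exp (-x)) ▸
    ((Real.hasDerivAt_exp (-x)).comp x (hasDerivAt_neg x)).hasDerivWithinAt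

private theorem cv_image : Real.exp ∘ Neg.neg '' Set.univ = Set.Ioi (0 : ℝ) := by
  rw [Set.image_comp, Set.image_univ_of_surjective neg_surjective, Set.image_univ, Real.range_exp]

private theorem cv_inj : Set.univ.InjOn (Real.exp ∘ Neg.neg) :=
  Real.exp_injective.injOn.comp neg_injective.injOn (Set.univ.mapsTo_univ _)

private theorem cv_aux (x : ℝ) (s f : ℂ) :
    cexp (-(x : ℂ)) * (cexp (-(x : ℂ)) ^ (s - 1) * f) = cexp (-(s * (x : ℂ))) * f := by
  have h1 : cexp (-(x : ℂ)) * cexp (-(x : ℂ)) ^ (s - 1) = cexp (-(s * (x : ℂ))) := by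
    rw [cpow_def_of_ne_zero (Complex.exp_ne_zero _),
      Complex.log_exp (by simp [Real.pi_pos]) (by simpa using Real.pi_nonneg), ← Complex.exp_add]
    ring_nf
  rw [← mul_assoc, h1]

private theorem mellin_cv (f : ℝ → ℂ) (s : ℂ) :
    mellin f s = ∫ u : ℝ, cexp (-s * u) • f (Real.exp (-u)) := by
  rw [mellin, ← cv_image, integral_image_eq_integral_abs_deriv_smul
    MeasurableSet.univ cv_deriv cv_inj]
  simp [cv_aux]

private theorem conv_cv (f : ℝ → ℂ) (s : ℂ) :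
    MellinConvergent f s ↔ Integrable (fun u : ℝ => cexp (-s * u) • f (Real.exp (-u))) := by
  rw [MellinConvergent, ← cv_image, integrableOn_image_iff_integrableOn_abs_deriv_smul
      MeasurableSet.univ cv_deriv cv_inj]
  simp [cv_aux]

/-! #### the Gaussian -/

private theorem om_cv {N : ℝ} (hN : 0 < N) (s : ℂ) (u : ℝ) :
    cexp (-(-s) * u) • om (Real.log (N / Real.exp (-u))) =
      cexp ((-(1 / 2) : ℂ) * u ^ 2 + (s - Real.log N) * u + (-((Real.log N : ℂ) ^ 2 / 2))) := by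
  have h1 : Real.log (N / Real.exp (-u)) = Real.log N + u := by
    rw [Real.log_div hN.ne' (Real.exp_pos _).ne', Real.log_exp]
    ring
  rw [h1, om, smul_eq_mul, Complex.ofReal_exp, ← Complex.exp_add]
  congr 1
  push_cast
  ring

private theorem mel_om {N : ℝ} (hN : 0 < N) (s : ℂ) :
    MellinConvergent (fun Y : ℝ => om (Real.log (N / Y))) (-s) ∧
      mellin (fun Y : ℝ => om (Real.log (N / Y))) (-s) =
        (N : ℂ) ^ (-s) * ((Real.sqrt (2 * Real.pi) : ℂ) * cexp (s ^ 2 / 2)) := by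
  have hb : (-(1 / 2) : ℂ).re < 0 := by norm_num
  constructor
  · rw [conv_cv]
    refine (integrable_cexp_quadratic' hb (s - Real.log N) (-((Real.log N : ℂ) ^ 2 / 2))).congr ?_
    exact Filter.Eventually.of_forall fun u => (om_cv hN s u).symm
  · rw [mellin_cv]
    simp_rw [om_cv hN s]
    rw [integral_cexp_quadratic hb]
    have h2 : ((Real.pi : ℂ) / -(-(1 / 2) : ℂ)) ^ (1 / 2 : ℂ) = (Real.sqrt (2 * Real.pi) : ℂ) := by
      rw [show ((Real.pi : ℂ) / -(-(1 / 2) : ℂ)) = ((2 * Real.pi : ℝ) : ℂ) by push_cast; ring]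
      rw [show (1 / 2 : ℂ) = ((1 / 2 : ℝ) : ℂ) by push_cast; ring,
        ← Complex.ofReal_cpow (by positivity), ← Real.sqrt_eq_rpow]
    rw [h2, Complex.cpow_def_of_ne_zero (by exact_mod_cast hN.ne'), ← Complex.ofReal_log hN.le,
      mul_left_comm, ← Complex.exp_add]
    congr 2
    ring

private theorem norm_om' (x : ℝ) : ‖om x‖ = Real.exp (-(x ^ 2 / 2)) := by
  rw [om, Complex.norm_real, Real.norm_of_nonneg (Real.exp_pos _).le]

private theorem mel_norm {N : ℝ} (hN : 0 < N) (s : ℂ) :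
    ∫ Y : ℝ in Set.Ioi 0, ‖(Y : ℂ) ^ (-s - 1) • om (Real.log (N / Y))‖ =
      N ^ (-s.re) * (Real.sqrt (2 * Real.pi) * Real.exp (s.re ^ 2 / 2)) := by
  have h1 := (mel_om hN (s.re : ℂ)).2
  rw [mellin] at h1
  have h2 : ∫ Y : ℝ in Set.Ioi 0, (Y : ℂ) ^ (-(s.re : ℂ) - 1) • om (Real.log (N / Y)) =
      ((∫ Y : ℝ in Set.Ioi 0, ‖(Y : ℂ) ^ (-s - 1) • om (Real.log (N / Y))‖ : ℝ) : ℂ) := by
    rw [← integral_complex_ofReal]
    refine setIntegral_congr_fun measurableSet_Ioi fun Y hY => ?_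
    have hY' : 0 < Y := hY
    simp only [smul_eq_mul, norm_mul, norm_om', Complex.norm_cpow_eq_rpow_re_of_pos hY']
    rw [show (-s - 1).re = -s.re - 1 by simp, om]
    push_cast [Complex.ofReal_cpow hY'.le]
    rfl
  rw [h2] at h1
  have h3 : (N : ℂ) ^ (-(s.re : ℂ)) * ((Real.sqrt (2 * Real.pi) : ℂ) * cexp ((s.re : ℂ) ^ 2 / 2)) =
      ((N ^ (-s.re) * (Real.sqrt (2 * Real.pi) * Real.exp (s.re ^ 2 / 2)) : ℝ) : ℂ) := by
    push_cast [Complex.ofReal_cpow hN.le]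
    rfl
  rw [h3] at h1
  exact_mod_cast h1

/-! #### the coefficients -/

private noncomputable def cfp (D : ℕ) (p : ℕ × ℕ) : ℂ :=
  bet p.1 * (if Odd p.2 ∧ p.2.Coprime p.1 then
    ((ArithmeticFunction.moebius p.2 : ℤ) : ℂ) * ((jacobiSym (-(D : ℤ)) p.2 : ℤ) : ℂ) else 0)

private noncomputable def NN (D : ℕ) (p : ℕ × ℕ) : ℝ := (p.2 : ℝ) * (p.1 : ℝ) ^ 2 / (4 * D)

private theorem bet_zero' : bet 0 = 0 := by
  simp [bet]

private theorem cfp_or (D : ℕ) (p : ℕ × ℕ) : cfp D p = 0 ∨ (1 ≤ p.1 ∧ 1 ≤ p.2) := by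
  rcases Nat.eq_zero_or_pos p.1 with h | h
  · left
    rw [cfp, h, bet_zero', zero_mul]
  rcases Nat.eq_zero_or_pos p.2 with h' | h'
  · left
    rw [cfp, h', if_neg (by simp), mul_zero]
  exact Or.inr ⟨h, h'⟩

private theorem NN_pos {D : ℕ} (hD : 1 ≤ D) {p : ℕ × ℕ} (h : 1 ≤ p.1 ∧ 1 ≤ p.2) : 0 < NN D p := by
  have h1 : (0 : ℝ) < p.1 := by exact_mod_cast h.1
  have h2 : (0 : ℝ) < p.2 := by exact_mod_cast h.2
  have h3 : (0 : ℝ) < D := by exact_mod_cast hD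
  unfold NN
  positivity

private theorem norm_cfp_le (D : ℕ) (p : ℕ × ℕ) : ‖cfp D p‖ ≤ 1 := by
  have h1 : ‖bet p.1‖ ≤ 1 := by
    refine (norm_bet_le p.1).trans ?_
    rcases Nat.eq_zero_or_pos p.1 with h | h
    · rw [h]; simp
    · have : (1 : ℝ) ≤ p.1 := by exact_mod_cast h
      rw [div_le_one (by linarith)]
      exact this
  have h2 : ‖(if Odd p.2 ∧ p.2.Coprime p.1 then
    ((ArithmeticFunction.moebius p.2 : ℤ) : ℂ) * ((jacobiSym (-(D : ℤ)) p.2 : ℤ) : ℂ) else 0)‖ ≤ 1 := by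
    split_ifs
    · rw [norm_mul]
      have h3 : ‖((ArithmeticFunction.moebius p.2 : ℤ) : ℂ)‖ ≤ 1 := by
        rw [Complex.norm_intCast]
        exact_mod_cast ArithmeticFunction.abs_moebius_le_one
      have h4 : ‖((jacobiSym (-(D : ℤ)) p.2 : ℤ) : ℂ)‖ ≤ 1 := by
        rcases jacobiSym.trichotomy (-(D : ℤ)) p.2 with h | h | h <;> rw [h] <;> simp
      calc _ ≤ (1 : ℝ) * 1 := mul_le_mul h3 h4 (norm_nonneg _) zero_le_one
        _ = 1 := one_mul 1
    · simp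
  rw [cfp, norm_mul]
  calc _ ≤ (1 : ℝ) * 1 := mul_le_mul h1 h2 (norm_nonneg _) zero_le_one
    _ = 1 := one_mul 1

/-- the pointwise bound -/
private theorem norm_term_le {D : ℕ} (hD : 1 ≤ D) (p : ℕ × ℕ) {Y B : ℝ} (hY : 0 < Y) (hB : Y ≤ B) :
    ‖cfp D p * om (Real.log (NN D p / Y))‖ ≤
      (Real.exp 2 * B ^ 2 * (4 * D) ^ 2) * ((1 / (p.1 : ℝ) ^ 2) * (1 / (p.2 : ℝ) ^ 2)) := by
  rcases cfp_or D p with h | h
  · rw [h, zero_mul, norm_zero]
    positivity
  · have hN := NN_pos hD h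
    have h1 : (1 : ℝ) ≤ p.1 := by exact_mod_cast h.1
    have h2 : (1 : ℝ) ≤ p.2 := by exact_mod_cast h.2
    have h3 : (1 : ℝ) ≤ D := by exact_mod_cast hD
    have e1 : ‖om (Real.log (NN D p / Y))‖ ≤ Real.exp 2 * (Y / NN D p) ^ 2 := by
      rw [norm_om']
      have hq : 0 < NN D p / Y := by positivity
      have e2 : (Y / NN D p) ^ 2 = Real.exp (-(2 * Real.log (NN D p / Y))) := by
        rw [Real.exp_neg, mul_comm, Real.exp_mul, Real.exp_log hq]
        norm_num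
        rw [← inv_pow, inv_div]
      rw [e2, ← Real.exp_add]
      apply Real.exp_le_exp.2
      nlinarith [sq_nonneg (Real.log (NN D p / Y) - 2)]
    have e3 : Real.exp 2 * (Y / NN D p) ^ 2 ≤
        (Real.exp 2 * B ^ 2 * (4 * D) ^ 2) * ((1 / (p.1 : ℝ) ^ 2) * (1 / (p.2 : ℝ) ^ 2)) := by
      have e4 : (Y / NN D p) ^ 2 = Y ^ 2 * (4 * D) ^ 2 * ((1 / (p.1 : ℝ) ^ 4) * (1 / (p.2 : ℝ) ^ 2)) := by
        unfold NN
        field_simp
      rw [e4]
      have e5 : 1 / (p.1 : ℝ) ^ 4 ≤ 1 / (p.1 : ℝ) ^ 2 := by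
        apply one_div_le_one_div_of_le (by positivity)
        exact pow_le_pow_right₀ h1 (by norm_num)
      have e6 : Y ^ 2 ≤ B ^ 2 := pow_le_pow_left₀ hY.le hB 2
      calc _ = Real.exp 2 * (Y ^ 2 * ((4 * D) ^ 2 * ((1 / (p.1 : ℝ) ^ 4) * (1 / (p.2 : ℝ) ^ 2)))) := by ring
        _ ≤ Real.exp 2 * (B ^ 2 * ((4 * D) ^ 2 * ((1 / (p.1 : ℝ) ^ 2) * (1 / (p.2 : ℝ) ^ 2)))) := by
          gcongr
        _ = _ := by ring
    rw [norm_mul]
    calc _ ≤ 1 * ‖om (Real.log (NN D p / Y))‖ :=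
          mul_le_mul_of_nonneg_right (norm_cfp_le D p) (norm_nonneg _)
      _ ≤ _ := by rw [one_mul]; exact e1.trans e3

private theorem summable_maj (c : ℝ) : Summable (fun p : ℕ × ℕ =>
    c * ((1 / (p.1 : ℝ) ^ 2) * (1 / (p.2 : ℝ) ^ 2))) := by
  apply Summable.mul_left
  have h : Summable (fun n : ℕ => 1 / (n : ℝ) ^ 2) := Real.summable_one_div_nat_pow.2 (by norm_num)
  exact h.mul_of_nonneg h (fun n => by positivity) (fun n => by positivity)

private theorem summable_term {D : ℕ} (hD : 1 ≤ D) {Y : ℝ} (hY : 0 < Y) :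
    Summable (fun p : ℕ × ℕ => cfp D p * om (Real.log (NN D p / Y))) :=
  (summable_maj _).of_norm_bounded fun p => norm_term_le hD p hY le_rfl

private theorem SS_eq {D : ℕ} (hD : 1 ≤ D) {Y : ℝ} (hY : 0 < Y) :
    SS D om Y = ((16 * D : ℕ) : ℂ)⁻¹ * ∑' p : ℕ × ℕ, cfp D p * om (Real.log (NN D p / Y)) := by
  rw [(summable_term hD hY).tsum_prod]
  unfold SS SU
  refine congrArg _ (tsum_congr fun h => ?_)
  rw [← tsum_mul_left]
  refine tsum_congr fun u => ?_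
  have e1 : (u : ℝ) / (4 * D * Y / (h : ℝ) ^ 2) = NN D (h, u) / Y := by
    unfold NN
    rw [div_div_eq_mul_div, div_div]
  rw [e1, cfp]
  by_cases hc : Odd u ∧ u.Coprime h
  · simp only [if_pos hc]
    ring
  · simp only [if_neg hc, mul_zero, zero_mul]

theorem continuousOn_SS {D : ℕ} (hD : 1 ≤ D) : ContinuousOn (fun Y : ℝ => SS D om Y) (Set.Ioi 0) := by
  intro Y₀ hY₀
  have hY₀' : (0 : ℝ) < Y₀ := hY₀
  have h1 : ContinuousOn (fun Y : ℝ => ∑' p : ℕ × ℕ, cfp D p * om (Real.log (NN D p / Y)))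
      (Set.Ioo 0 (2 * Y₀)) := by
    refine continuousOn_tsum (fun p => ?_) (summable_maj (Real.exp 2 * (2 * Y₀) ^ 2 * (4 * D) ^ 2))
      fun p Y hY => norm_term_le hD p hY.1 hY.2.le
    rcases cfp_or D p with h | h
    · simp only [h, zero_mul]
      exact continuousOn_const
    · have hN := NN_pos hD h
      have hom : Continuous om := by
        unfold om
        fun_prop
      refine ContinuousOn.mul continuousOn_const (hom.comp_continuousOn ?_)
      refine ContinuousOn.log ?_ ?_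
      · exact ContinuousOn.div continuousOn_const continuousOn_id fun Y hY => hY.1.ne'
      · intro Y hY
        have := hY.1
        positivity
  have h2 : ContinuousAt (fun Y : ℝ => SS D om Y) Y₀ := by
    have h3 : ContinuousAt (fun Y : ℝ => ((16 * D : ℕ) : ℂ)⁻¹ *
        ∑' p : ℕ × ℕ, cfp D p * om (Real.log (NN D p / Y))) Y₀ :=
      ContinuousAt.mul continuousAt_const
        (h1.continuousAt (Ioo_mem_nhds hY₀' (by linarith)))
    refine h3.congr ?_
    filter_upwards [Ioi_mem_nhds hY₀'] with Y hY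
    exact (SS_eq hD hY).symm
  exact h2.continuousWithinAt

/-! #### the Mellin transform -/

private theorem rpow_bd {D : ℕ} (hD : 1 ≤ D) {σ : ℝ} (hσ : 0 < σ) {p : ℕ × ℕ} (h : 1 ≤ p.1 ∧ 1 ≤ p.2) :
    NN D p ^ (-σ) ≤ (4 * D : ℝ) ^ σ * ((p.1 : ℝ) ^ (-σ) * (p.2 : ℝ) ^ (-σ)) := by
  have h1 : (1 : ℝ) ≤ p.1 := by exact_mod_cast h.1
  have h2 : (1 : ℝ) ≤ p.2 := by exact_mod_cast h.2
  have h3 : (1 : ℝ) ≤ D := by exact_mod_cast hD
  have h0 : 0 < NN D p := NN_pos hD h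
  have e1 : (p.1 : ℝ) * p.2 / (4 * D) ≤ NN D p := by
    have e0 : (p.1 : ℝ) * p.2 ≤ (p.2 : ℝ) * (p.1 : ℝ) ^ 2 := by
      have : 0 ≤ (p.1 : ℝ) * p.2 * ((p.1 : ℝ) - 1) :=
        mul_nonneg (mul_nonneg (by linarith) (by linarith)) (by linarith)
      nlinarith [this]
    unfold NN
    exact div_le_div_of_nonneg_right e0 (by linarith)
  have e2 : NN D p ^ (-σ) ≤ ((p.1 : ℝ) * p.2 / (4 * D)) ^ (-σ) :=
    Real.rpow_le_rpow_of_nonpos (by positivity) e1 (by linarith)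
  refine e2.trans (le_of_eq ?_)
  rw [Real.div_rpow (by positivity) (by positivity), Real.mul_rpow (by positivity) (by positivity),
    Real.rpow_neg (by positivity : (0 : ℝ) ≤ 4 * D), div_inv_eq_mul, mul_comm]

private theorem cpow_pos {x : ℝ} (hx : 0 < x) (z : ℂ) : (x : ℂ) ^ z = cexp ((Real.log x : ℂ) * z) := by
  rw [Complex.cpow_def_of_ne_zero (by exact_mod_cast hx.ne'), ← Complex.ofReal_log hx.le]

private theorem NN_cpow {D : ℕ} (hD : 1 ≤ D) (s : ℂ) {p : ℕ × ℕ} (h : 1 ≤ p.1 ∧ 1 ≤ p.2) :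
    (NN D p : ℂ) ^ (-s) = (4 * D : ℂ) ^ s * ((p.1 : ℂ) ^ (-2 * s) * (p.2 : ℂ) ^ (-s)) := by
  have h1 : (0 : ℝ) < p.1 := by exact_mod_cast h.1
  have h2 : (0 : ℝ) < p.2 := by exact_mod_cast h.2
  have h3 : (0 : ℝ) < 4 * D := by
    have : (0 : ℝ) < D := by exact_mod_cast hD
    linarith
  have e1 := cpow_pos (NN_pos hD h) (-s)
  have e2 := cpow_pos h1 (-2 * s)
  have e3 := cpow_pos h2 (-s)
  have e4 := cpow_pos h3 s
  push_cast at e2 e3 e4
  rw [e1, e2, e3, e4, ← Complex.exp_add, ← Complex.exp_add]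
  have e5 : Real.log (NN D p) = Real.log p.2 + 2 * Real.log p.1 - Real.log (4 * D) := by
    unfold NN
    rw [Real.log_div (by positivity) h3.ne', Real.log_mul h2.ne' (by positivity), Real.log_pow]
    push_cast
    ring
  rw [e5]
  push_cast
  congr 1
  ring

private theorem hasSum_mel {D : ℕ} (hD : 1 ≤ D) {s : ℂ} (h1 : 1 < s.re) :
    HasSum (fun p : ℕ × ℕ => cfp D p * ((NN D p : ℂ) ^ (-s) *
      ((Real.sqrt (2 * Real.pi) : ℂ) * cexp (s ^ 2 / 2))))
      (mellin (fun Y : ℝ => ∑' p : ℕ × ℕ, cfp D p * om (Real.log (NN D p / Y))) (-s)) := by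
  have hint : ∀ p : ℕ × ℕ, Integrable (fun Y : ℝ => (Y : ℂ) ^ (-s - 1) •
      (cfp D p * om (Real.log (NN D p / Y)))) (volume.restrict (Set.Ioi 0)) := by
    intro p
    rcases cfp_or D p with h | h
    · simp only [h, zero_mul, smul_zero]
      exact integrable_zero _ _ _
    · have h2 := (mel_om (NN_pos hD h) s).1
      have h3 := h2.const_smul (cfp D p)
      exact h3
  have hnorm : ∀ p : ℕ × ℕ, ∫ Y : ℝ in Set.Ioi 0, ‖(Y : ℂ) ^ (-s - 1) •
      (cfp D p * om (Real.log (NN D p / Y)))‖ ≤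
      ((4 * D : ℝ) ^ s.re * (Real.sqrt (2 * Real.pi) * Real.exp (s.re ^ 2 / 2))) *
        ((p.1 : ℝ) ^ (-s.re) * (p.2 : ℝ) ^ (-s.re)) := by
    intro p
    rcases cfp_or D p with h | h
    · simp only [h, zero_mul, smul_zero, norm_zero, integral_zero]
      positivity
    · have e1 : ∀ Y : ℝ, ‖(Y : ℂ) ^ (-s - 1) • (cfp D p * om (Real.log (NN D p / Y)))‖ =
          ‖cfp D p‖ * ‖(Y : ℂ) ^ (-s - 1) • om (Real.log (NN D p / Y))‖ := by
        intro Y
        rw [smul_eq_mul, smul_eq_mul, norm_mul, norm_mul, norm_mul]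
        ring
      simp_rw [e1]
      rw [integral_const_mul, mel_norm (NN_pos hD h)]
      have hK : 0 ≤ Real.sqrt (2 * Real.pi) * Real.exp (s.re ^ 2 / 2) := by positivity
      calc _ ≤ 1 * (NN D p ^ (-s.re) * (Real.sqrt (2 * Real.pi) * Real.exp (s.re ^ 2 / 2))) := by
            refine mul_le_mul_of_nonneg_right (norm_cfp_le D p) ?_
            have := NN_pos hD h
            positivity
        _ ≤ 1 * (((4 * D : ℝ) ^ s.re * ((p.1 : ℝ) ^ (-s.re) * (p.2 : ℝ) ^ (-s.re))) *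
            (Real.sqrt (2 * Real.pi) * Real.exp (s.re ^ 2 / 2))) := by
            rw [one_mul, one_mul]
            exact mul_le_mul_of_nonneg_right (rpow_bd hD (by linarith) h) hK
        _ = _ := by ring
  have hsum : Summable (fun p : ℕ × ℕ => ∫ Y : ℝ in Set.Ioi 0, ‖(Y : ℂ) ^ (-s - 1) •
      (cfp D p * om (Real.log (NN D p / Y)))‖) := by
    have hr : Summable (fun n : ℕ => (n : ℝ) ^ (-s.re)) := Real.summable_nat_rpow.2 (by linarith)
    have hm : Summable (fun p : ℕ × ℕ =>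
        ((4 * D : ℝ) ^ s.re * (Real.sqrt (2 * Real.pi) * Real.exp (s.re ^ 2 / 2))) *
        ((p.1 : ℝ) ^ (-s.re) * (p.2 : ℝ) ^ (-s.re))) := by
      apply Summable.mul_left
      exact hr.mul_of_nonneg hr (fun n => by positivity) (fun n => by positivity)
    exact Summable.of_nonneg_of_le (fun p => integral_nonneg fun Y => norm_nonneg _) hnorm hm
  have key := hasSum_integral_of_summable_integral_norm hint hsum
  have e1 : ∀ p : ℕ × ℕ, (∫ Y : ℝ in Set.Ioi 0, (Y : ℂ) ^ (-s - 1) •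
      (cfp D p * om (Real.log (NN D p / Y)))) = cfp D p * ((NN D p : ℂ) ^ (-s) *
      ((Real.sqrt (2 * Real.pi) : ℂ) * cexp (s ^ 2 / 2))) := by
    intro p
    rcases cfp_or D p with h | h
    · simp only [h, zero_mul, smul_zero, integral_zero]
    · rw [← (mel_om (NN_pos hD h) s).2, mellin, ← integral_const_mul]
      refine integral_congr_ae (Filter.Eventually.of_forall fun Y => ?_)
      simp only [smul_eq_mul]
      ring
  have e2 : (∫ Y : ℝ in Set.Ioi 0, ∑' p : ℕ × ℕ, (Y : ℂ) ^ (-s - 1) •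
      (cfp D p * om (Real.log (NN D p / Y)))) =
      mellin (fun Y : ℝ => ∑' p : ℕ × ℕ, cfp D p * om (Real.log (NN D p / Y))) (-s) := by
    rw [mellin]
    refine integral_congr_ae (Filter.Eventually.of_forall fun Y => ?_)
    simp only [smul_eq_mul]
    rw [tsum_mul_left]
  rw [e2, funext e1] at key
  exact key

/-- `∫_0^∞ om (log (N / (4 D Y))) Y^(-s-1) dY = (N / 4D)^(-s) √(2π) e^(s²/2)` and Fubini; `hasSum_mu_psi`, `Lpsi_mul_sq` -/
theorem mellin_SS {D : ℕ} (hD : 1 ≤ D) {s : ℂ} (h1 : 1 < s.re) (h3 : s.re < 3) :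
    mellin (fun Y : ℝ => SS D om Y) (-s) =
      ((16 * D : ℕ) : ℂ)⁻¹ * (4 * D : ℂ) ^ s * (Real.sqrt (2 * Real.pi) : ℂ) * cexp (s ^ 2 / 2) * (EE D s * (Lpsi D s)⁻¹) := by
  have H := hasSum_mel hD h1
  have e1 : mellin (fun Y : ℝ => SS D om Y) (-s) = ((16 * D : ℕ) : ℂ)⁻¹ *
      mellin (fun Y : ℝ => ∑' p : ℕ × ℕ, cfp D p * om (Real.log (NN D p / Y))) (-s) := by
    rw [mellin, mellin, ← integral_const_mul]
    refine setIntegral_congr_fun measurableSet_Ioi fun Y hY => ?_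
    simp only [smul_eq_mul]
    rw [SS_eq hD hY]
    ring
  rw [e1, ← H.tsum_eq, H.summable.tsum_prod]
  have e2 : ∀ h : ℕ, (∑' u : ℕ, cfp D (h, u) * ((NN D (h, u) : ℂ) ^ (-s) *
      ((Real.sqrt (2 * Real.pi) : ℂ) * cexp (s ^ 2 / 2)))) =
      ((4 * D : ℂ) ^ s * (Real.sqrt (2 * Real.pi) : ℂ) * cexp (s ^ 2 / 2) * (Lpsi D s)⁻¹) *
      (bet h * (h : ℂ) ^ (-2 * s) *
    ∏ p ∈ h.primeFactors.filter (fun p => p ≠ 2), (1 - ((jacobiSym (-(D : ℤ)) p : ℤ) : ℂ) * (p : ℂ) ^ (-s))⁻¹) := by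
    intro h
    rcases Nat.eq_zero_or_pos h with h0 | h0
    · have e3 : ∀ u : ℕ, cfp D (h, u) = 0 := by
        intro u
        rw [cfp]
        simp only [h0, bet_zero', zero_mul]
      simp only [e3, zero_mul, tsum_zero]
      rw [h0, bet_zero']
      ring
    · have e4 := (hasSum_mu_psi hD h0 h1).tsum_eq
      rw [Lpsi_mul_sq hD h0 h1] at e4
      have e5 : ∀ u : ℕ, cfp D (h, u) * ((NN D (h, u) : ℂ) ^ (-s) *
          ((Real.sqrt (2 * Real.pi) : ℂ) * cexp (s ^ 2 / 2))) =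
          ((4 * D : ℂ) ^ s * (Real.sqrt (2 * Real.pi) : ℂ) * cexp (s ^ 2 / 2) *
            (bet h * (h : ℂ) ^ (-2 * s))) *
          (if Odd u ∧ u.Coprime h then ((ArithmeticFunction.moebius u : ℤ) : ℂ) *
      ((jacobiSym (-(D : ℤ)) u : ℤ) : ℂ) * (u : ℂ) ^ (-s) else 0) := by
        intro u
        by_cases hc : Odd u ∧ u.Coprime h
        · have hu : 1 ≤ u := hc.1.pos
          rw [NN_cpow hD s (p := (h, u)) ⟨h0, hu⟩, cfp]
          simp only [if_pos hc]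
          ring
        · rw [cfp]
          simp only [if_neg hc, mul_zero, zero_mul]
      simp_rw [e5]
      rw [tsum_mul_left, e4]
      ring
  simp_rw [e2]
  rw [tsum_mul_left, EE]
  ring

end Pool.Agent.MP_291b24_nt.Sm
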