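import Pool.Agent.Lib.MP_291b24_nt.Sm.Arith

/-! The finite Moebius identity -/

set_option autoImplicit false

open Complex

namespace Pool.Agent.MP_291b24_nt.Sm

private theorem mi_sum_moebius (s : ℕ) :
    ∑ t ∈ s.divisors, ArithmeticFunction.moebius t = if s = 1 then 1 else 0 := by
  have h := congrArg (fun f : ArithmeticFunction ℤ => f s) ArithmeticFunction.moebius_mul_coe_zeta
  change (ArithmeticFunction.moebius * ((ArithmeticFunction.zeta : ArithmeticFunction ℕ) :
    ArithmeticFunction ℤ)) s = (1 : ArithmeticFunction ℤ) s at h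
  rwa [ArithmeticFunction.coe_mul_zeta_apply, ArithmeticFunction.one_apply] at h

private theorem mi_dvd_rad {k N : ℕ} (hN : N ≠ 0) (hk : Squarefree k) (h : k ∣ N) : k ∣ rad N := by
  rw [← Nat.prod_primeFactors_of_squarefree hk]
  exact Finset.prod_dvd_prod_of_subset _ _ _ (Nat.primeFactors_mono h hN)

private theorem mi_sqf {r c : ℕ} (hr : Squarefree r) :
    ∑ k ∈ r.divisors, (if c ∣ k then ArithmeticFunction.moebius k else 0) =
      if c = r then ArithmeticFunction.moebius r else 0 := by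
  have hr0 : r ≠ 0 := hr.ne_zero
  by_cases hcr : c ∣ r
  · obtain ⟨s, rfl⟩ := hcr
    have hcop : c.Coprime s := Nat.coprime_of_squarefree_mul hr
    have hc0 : c ≠ 0 := left_ne_zero_of_mul hr0
    have hs0 : s ≠ 0 := right_ne_zero_of_mul hr0
    rw [← Finset.sum_filter]
    have h1 : ∑ k ∈ (c * s).divisors.filter (fun k => c ∣ k), ArithmeticFunction.moebius k =
        ∑ t ∈ s.divisors, ArithmeticFunction.moebius (c * t) := by
      symm
      refine Finset.sum_bij (fun t _ => c * t) ?_ ?_ ?_ ?_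
      · intro t ht
        rw [Finset.mem_filter, Nat.mem_divisors]
        exact ⟨⟨Nat.mul_dvd_mul_left c (Nat.dvd_of_mem_divisors ht), hr0⟩, Dvd.intro _ rfl⟩
      · intro t _ t' _ h
        exact Nat.eq_of_mul_eq_mul_left (Nat.pos_of_ne_zero hc0) h
      · intro k hk
        rw [Finset.mem_filter, Nat.mem_divisors] at hk
        obtain ⟨⟨h2, -⟩, t, rfl⟩ := hk
        exact ⟨t, Nat.mem_divisors.2 ⟨Nat.dvd_of_mul_dvd_mul_left (Nat.pos_of_ne_zero hc0) h2, hs0⟩,
          rfl⟩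
      · intro t _
        rfl
    have h2 : ∀ t ∈ s.divisors, ArithmeticFunction.moebius (c * t) =
        ArithmeticFunction.moebius c * ArithmeticFunction.moebius t := fun t ht =>
      ArithmeticFunction.isMultiplicative_moebius.map_mul_of_coprime
        (Nat.Coprime.coprime_dvd_right (Nat.dvd_of_mem_divisors ht) hcop)
    rw [h1, Finset.sum_congr rfl h2, ← Finset.mul_sum, mi_sum_moebius]
    by_cases hs : s = 1
    · rw [if_pos hs, hs, mul_one, mul_one, if_pos rfl]
    · rw [if_neg hs, mul_zero, if_neg]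
      intro h
      apply hs
      have h3 : c * 1 = c * s := by rw [mul_one]; exact h
      exact (Nat.eq_of_mul_eq_mul_left (Nat.pos_of_ne_zero hc0) h3).symm
  · rw [if_neg fun h : c = r => hcr (h ▸ dvd_rfl)]
    refine Finset.sum_eq_zero fun k hk => if_neg fun h => hcr ?_
    exact h.trans (Nat.dvd_of_mem_divisors hk)

/-- Multiplicative in the primes of `N`: for `p ^ e` exactly dividing `N` only `k = 1, p` contribute:
`1_{p ^ e ∣ j} - 1_{p ^ (e - 1) ∣ j}`. -/
theorem mob_sum {N : ℕ} (hN : N ≠ 0) {j : ℕ} (hj : j ≠ 0) :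
    ∑ q ∈ N.divisorsAntidiagonal, (if q.1 ∣ j then ArithmeticFunction.moebius q.2 else 0) =
      if gg N ∣ j ∧ (j / gg N).Coprime N then ArithmeticFunction.moebius (rad N) else 0 := by
  have hg0 : 0 < N.gcd j := Nat.gcd_pos_of_pos_left j (Nat.pos_of_ne_zero hN)
  obtain ⟨c, hc⟩ := Nat.gcd_dvd_left N j
  have hc' : N = c * N.gcd j := by rw [mul_comm]; exact hc
  have h1 : ∀ q ∈ N.divisorsAntidiagonal,
      (if q.1 ∣ j then ArithmeticFunction.moebius q.2 else 0) =
        if c ∣ q.2 then ArithmeticFunction.moebius q.2 else 0 := by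
    intro q hq
    have hqN := (Nat.mem_divisorsAntidiagonal.1 hq).1
    have hq1 : q.1 ≠ 0 := by
      intro h
      rw [h, zero_mul] at hqN
      exact hN hqN.symm
    refine if_congr ⟨fun h => ?_, fun h => ?_⟩ rfl rfl
    · obtain ⟨t, ht⟩ := Nat.dvd_gcd (Dvd.intro _ hqN) h
      refine ⟨t, ?_⟩
      refine Nat.eq_of_mul_eq_mul_left (Nat.pos_of_ne_zero hq1) ?_
      rw [hqN]
      conv_lhs => rw [hc', ht]
      ring
    · obtain ⟨t, ht⟩ := h
      have h2 : N.gcd j = q.1 * t := by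
        have hc0 : c ≠ 0 := by
          intro h
          rw [h, zero_mul] at hc'
          exact hN hc'
        refine Nat.eq_of_mul_eq_mul_left (Nat.pos_of_ne_zero hc0) ?_
        rw [← hc', ← hqN, ht]
        ring
      exact (Dvd.intro _ h2.symm).trans (Nat.gcd_dvd_right N j)
  rw [Finset.sum_congr rfl h1, Nat.sum_divisorsAntidiagonal' fun _ k =>
    if c ∣ k then ArithmeticFunction.moebius k else 0]
  have h2 : ∑ k ∈ N.divisors, (if c ∣ k then ArithmeticFunction.moebius k else 0) =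
      ∑ k ∈ (rad N).divisors, (if c ∣ k then ArithmeticFunction.moebius k else 0) := by
    symm
    refine Finset.sum_subset (Nat.divisors_subset_of_dvd hN (rad_dvd N)) fun k hk hk' => ?_
    by_cases hs : Squarefree k
    · exact absurd (Nat.mem_divisors.2 ⟨mi_dvd_rad hN hs (Nat.dvd_of_mem_divisors hk),
        (rad_pos N).ne'⟩) hk'
    · rw [ArithmeticFunction.moebius_eq_zero_of_not_squarefree hs, ite_self]
  rw [h2, mi_sqf (sqf_rad N)]
  refine if_congr ?_ rfl rfl
  have hgr := gg_mul_rad N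
  have hggp := gg_pos hN
  constructor
  · intro h
    have h3 : N.gcd j = gg N := by
      refine Nat.eq_of_mul_eq_mul_left (rad_pos N) ?_
      rw [← h, ← hc', h, mul_comm]
      exact hgr.symm
    have h4 : gg N ∣ j := h3 ▸ Nat.gcd_dvd_right N j
    refine ⟨h4, Nat.coprime_of_dvd fun p hp hpj hpN => ?_⟩
    have h5 : p ∣ rad N := by
      have h6 : p ∈ (rad N).primeFactors := by
        rw [primeFactors_rad]
        exact Nat.mem_primeFactors.2 ⟨hp, hpN, hN⟩
      exact Nat.dvd_of_mem_primeFactors h6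
    have h6 : gg N * p ∣ N.gcd j := by
      refine Nat.dvd_gcd ?_ ?_
      · conv_rhs => rw [← hgr]
        exact Nat.mul_dvd_mul_left _ h5
      · have h7 := Nat.mul_dvd_mul_left (gg N) hpj
        rwa [Nat.mul_div_cancel' h4] at h7
    rw [h3] at h6
    have h7 := Nat.le_of_dvd hggp h6
    have h8 := hp.two_le
    nlinarith
  · rintro ⟨h4, h5⟩
    obtain ⟨t, ht⟩ := h4
    rw [ht, Nat.mul_div_cancel_left t hggp] at h5
    have h9 : Nat.gcd (rad N) t = 1 := Nat.Coprime.coprime_dvd_left (rad_dvd N) h5.symm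
    rw [ht] at hc'
    obtain ⟨a, ha⟩ : ∃ a, a = gg N := ⟨_, rfl⟩
    obtain ⟨r, hr⟩ : ∃ r, r = rad N := ⟨_, rfl⟩
    rw [← ha] at hgr hggp hc'
    rw [← hr] at hgr h9 ⊢
    rw [← hgr, Nat.gcd_mul_left, h9, mul_one] at hc'
    refine Nat.eq_of_mul_eq_mul_left hggp ?_
    rw [hc', mul_comm]

private theorem mi_S {N : ℕ} (hN : N ≠ 0) {j : ℕ} (hj : j ≠ 0) (e : ℕ) :
    ∑ q ∈ N.divisorsAntidiagonal,
      (if 2 ^ e * q.1 ∣ j then ArithmeticFunction.moebius q.2 else 0) =
      if 2 ^ e * gg N ∣ j ∧ (j / (2 ^ e * gg N)).Coprime N then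
        ArithmeticFunction.moebius (rad N) else 0 := by
  have h2 : 0 < 2 ^ e := Nat.two_pow_pos e
  by_cases h : 2 ^ e ∣ j
  · obtain ⟨i, rfl⟩ := h
    have hi : i ≠ 0 := right_ne_zero_of_mul hj
    rw [Nat.mul_div_mul_left _ _ h2]
    have h3 : ∀ m, 2 ^ e * m ∣ 2 ^ e * i ↔ m ∣ i := fun m => Nat.mul_dvd_mul_iff_left h2
    rw [if_congr (and_congr_left fun _ => h3 (gg N)) rfl rfl, ← mob_sum hN hi]
    exact Finset.sum_congr rfl fun q _ => if_congr (h3 q.1) rfl rfl
  · rw [if_neg fun h3 => h ((Dvd.intro _ rfl).trans h3.1)]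
    exact Finset.sum_eq_zero fun q _ => if_neg fun h3 => h ((Dvd.intro _ rfl).trans h3)

private theorem mi_hw (l : ℕ) :
    hw l = 1 - 3 * (if 2 ∣ l then 1 else 0) + 2 * (if 4 ∣ l then 1 else 0) := by
  unfold hw
  by_cases h1 : l % 2 = 1
  · rw [if_pos h1, if_neg (by omega), if_neg (by omega)]
    norm_num
  · rw [if_neg h1]
    by_cases h2 : l % 4 = 2
    · rw [if_pos h2, if_pos (by omega), if_neg (by omega)]
      norm_num
    · rw [if_neg h2, if_pos (by omega), if_pos (by omega)]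
      norm_num

private theorem mi_hw_div {m : ℕ} (j : ℕ) : (if m ∣ j then hw (j / m) else 0) =
    (if 2 ^ 0 * m ∣ j then 1 else 0) - 3 * (if 2 ^ 1 * m ∣ j then 1 else 0) +
      2 * (if 2 ^ 2 * m ∣ j then 1 else 0) := by
  rw [pow_zero, one_mul, pow_one]
  by_cases h : m ∣ j
  · rw [if_pos h, if_pos h, mi_hw]
    rw [if_congr (Nat.dvd_div_iff_mul_dvd h) rfl rfl, mul_comm m 2,
      if_congr (Nat.dvd_div_iff_mul_dvd h) rfl rfl, mul_comm m 4]
    norm_num
  · rw [if_neg h, if_neg h, if_neg fun h3 => h ((Dvd.intro_left _ rfl).trans h3),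
      if_neg fun h3 => h ((Dvd.intro_left _ rfl).trans h3)]
    norm_num

/-- the coefficients on the right side -/
private theorem mi_kap {N : ℕ} (hN : N ≠ 0) {j : ℕ} (hj : j ≠ 0) (M : ℤ) :
    (if 2 ^ 0 * gg N ∣ j ∧ (j / (2 ^ 0 * gg N)).Coprime N then M else 0) -
      3 * (if 2 ^ 1 * gg N ∣ j ∧ (j / (2 ^ 1 * gg N)).Coprime N then M else 0) +
      2 * (if 2 ^ 2 * gg N ∣ j ∧ (j / (2 ^ 2 * gg N)).Coprime N then M else 0) =
    M * ∑ c ∈ Finset.range 3, kap N c *
      (if 2 ^ c * gg N ∣ j ∧ Odd (j / (2 ^ c * gg N)) ∧ (j / (2 ^ c * gg N)).Coprime N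
        then 1 else 0) := by
  rw [Finset.sum_range_succ, Finset.sum_range_succ, Finset.sum_range_succ, Finset.sum_range_zero,
    zero_add]
  have hg := gg_pos hN
  by_cases hodd : N % 2 = 1
  · have hk0 : kap N 0 = 1 := by simp [kap, hodd]
    have hk1 : kap N 1 = -2 := by simp [kap, hodd]
    have hk2 : kap N 2 = 0 := by simp [kap, hodd]
    rw [hk0, hk1, hk2]
    have hcop2 : Nat.Coprime 2 N := (Nat.coprime_two_left).2 (Nat.odd_iff.2 hodd)
    have key : ∀ c : ℕ, (if 2 ^ c * gg N ∣ j ∧ (j / (2 ^ c * gg N)).Coprime N then (1 : ℤ) else 0) =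
        (if 2 ^ c * gg N ∣ j ∧ Odd (j / (2 ^ c * gg N)) ∧ (j / (2 ^ c * gg N)).Coprime N
          then 1 else 0) +
        (if 2 ^ (c + 1) * gg N ∣ j ∧ (j / (2 ^ (c + 1) * gg N)).Coprime N then 1 else 0) := by
      intro c
      have hpos : 0 < 2 ^ c * gg N := Nat.mul_pos (Nat.two_pow_pos c) hg
      have e1 : 2 ^ (c + 1) * gg N = 2 ^ c * gg N * 2 := by ring
      rw [e1]
      by_cases h : 2 ^ c * gg N ∣ j
      · obtain ⟨i, rfl⟩ := h
        have h0 : 2 ^ c * gg N * 2 ∣ 2 ^ c * gg N * i ↔ 2 ∣ i := Nat.mul_dvd_mul_iff_left hpos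
        rw [Nat.mul_div_cancel_left i hpos, Nat.mul_div_mul_left _ _ hpos]
        simp only [h0]
        have h1 : 2 ^ c * gg N ∣ 2 ^ c * gg N * i := Dvd.intro _ rfl
        rcases Nat.even_or_odd i with hi | hi
        · obtain ⟨i', hi'⟩ := hi
          have hi2 : i = 2 * i' := by omega
          subst hi2
          have h2 : (2 * i').Coprime N ↔ i'.Coprime N :=
            ⟨fun h => h.coprime_mul_left, fun h => Nat.Coprime.mul_left hcop2 h⟩
          have h3 : ¬ Odd (2 * i') := by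
            rw [Nat.not_odd_iff_even]
            exact even_two_mul i'
          rw [Nat.mul_div_cancel_left i' two_pos]
          have h4 : 2 ∣ 2 * i' := Dvd.intro _ rfl
          simp only [h1, h2, h3, h4, true_and, false_and, and_false, if_false, zero_add]
        · have h3 : ¬ 2 ∣ i := by
            intro h
            exact (Nat.not_even_iff_odd.2 hi) (even_iff_two_dvd.2 h)
          simp only [h1, hi, h3, true_and, false_and, if_false, add_zero]
      · have h3 : ¬ 2 ^ c * gg N * 2 ∣ j := fun h3 => h ((Dvd.intro _ rfl).trans h3)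
        simp only [h, h3, false_and, if_false, add_zero]
    have hM : ∀ (p : Prop) [Decidable p], (if p then M else 0) = M * (if p then 1 else 0) := by
      intro p _
      split_ifs
      · rw [mul_one]
      · rw [mul_zero]
    rw [hM, hM (2 ^ 1 * gg N ∣ j ∧ _), hM (2 ^ 2 * gg N ∣ j ∧ _)]
    linear_combination M * key 0 - 2 * M * key 1
  · have hk0 : kap N 0 = 1 := by simp [kap, hodd]
    have hk1 : kap N 1 = -3 := by simp [kap, hodd]
    have hk2 : kap N 2 = 2 := by simp [kap, hodd]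
    rw [hk0, hk1, hk2]
    have hev : Even N := Nat.even_iff.2 (by omega)
    have key : ∀ c : ℕ, (2 ^ c * gg N ∣ j ∧ (j / (2 ^ c * gg N)).Coprime N) ↔
        (2 ^ c * gg N ∣ j ∧ Odd (j / (2 ^ c * gg N)) ∧ (j / (2 ^ c * gg N)).Coprime N) := by
      intro c
      refine and_congr_right fun _ => ⟨fun h => ⟨?_, h⟩, fun h => h.2⟩
      by_contra hcon
      rw [Nat.not_odd_iff_even] at hcon
      have h3 := Nat.dvd_gcd hcon.two_dvd hev.two_dvd
      rw [h] at h3
      omega
    have hM : ∀ (p q : Prop) [Decidable p] [Decidable q], (p ↔ q) →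
        (if p then M else 0) = M * (if q then 1 else 0) := by
      intro p q _ _ hpq
      by_cases h : p
      · rw [if_pos h, if_pos (hpq.1 h), mul_one]
      · rw [if_neg h, if_neg fun h' => h (hpq.2 h'), mul_zero]
    rw [hM _ _ (key 0), hM _ _ (key 1), hM _ _ (key 2)]
    ring

private theorem mi_comb {ι : Type} (s : Finset ι) (a : ι → ℤ) (b : ι → ℕ → ℤ)
    (hb : ∀ i j, |b i j| ≤ 2) {G : ℕ → ℂ} (hG : Summable G) :
    ∑ i ∈ s, ((a i : ℤ) : ℂ) * ∑' j : ℕ, ((b i j : ℤ) : ℂ) * G j =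
      ∑' j : ℕ, ((∑ i ∈ s, a i * b i j : ℤ) : ℂ) * G j := by
  have hsum : ∀ i, Summable fun j => ((b i j : ℤ) : ℂ) * G j := by
    intro i
    refine Summable.of_norm_bounded ((summable_norm_iff.2 hG).mul_left 2) fun j => ?_
    rw [norm_mul]
    refine mul_le_mul_of_nonneg_right ?_ (norm_nonneg _)
    rw [Complex.norm_intCast]
    exact_mod_cast hb i j
  have h1 : ∑ i ∈ s, ((a i : ℤ) : ℂ) * ∑' j : ℕ, ((b i j : ℤ) : ℂ) * G j =
      ∑ i ∈ s, ∑' j : ℕ, ((a i : ℤ) : ℂ) * (((b i j : ℤ) : ℂ) * G j) :=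
    Finset.sum_congr rfl fun i _ => tsum_mul_left.symm
  rw [h1, ← Summable.tsum_finsetSum fun i _ => (hsum i).mul_left _]
  refine tsum_congr fun j => ?_
  push_cast
  rw [Finset.sum_mul]
  exact Finset.sum_congr rfl fun i _ => by ring

private theorem mi_hw_le (l : ℕ) : |hw l| ≤ 2 := by
  unfold hw
  split_ifs <;> norm_num

/-- The left side is `∑' j, G j * ∑_{m k = N, m ∣ j} μ(k) hw(j / m)`. `N` odd: `hw (j / m) = hw j` (`m` odd), use `mob_sum`.
`N = 2 ^ e N'`: the pairs `(m, k)` with `k` odd have `v_2(m) = e`, those with `k` even (`4 ∤ k`) have `v_2(m) = e - 1` and the sign `-`;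
with `h_0 = 1, h_1 = -2, h_c = 0` else, the coefficient of `j` is `μ(rad N') (h_{v - e} - h_{v - e + 1})`, `v = v_2(j)`, times the indicator
for the odd part. -/
theorem kap_sum {N : ℕ} (hN : N ≠ 0) (G : ℕ → ℂ) (hG : Summable G) :
    ∑ q ∈ N.divisorsAntidiagonal, ((ArithmeticFunction.moebius q.2 : ℤ) : ℂ) *
        ∑' l : ℕ, ((hw l : ℤ) : ℂ) * G (q.1 * l) =
      ((ArithmeticFunction.moebius (rad N) : ℤ) : ℂ) * ∑ c ∈ Finset.range 3, ((kap N c : ℤ) : ℂ) *
        ∑' i : ℕ, if Odd i ∧ i.Coprime N then G (2 ^ c * gg N * i) else 0 := by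
  have hL : ∀ q ∈ N.divisorsAntidiagonal, ∑' l : ℕ, ((hw l : ℤ) : ℂ) * G (q.1 * l) =
      ∑' j : ℕ, (((if q.1 ∣ j then hw (j / q.1) else 0 : ℤ)) : ℂ) * G j := by
    intro q hq
    have hqN := (Nat.mem_divisorsAntidiagonal.1 hq).1
    have hq1 : q.1 ≠ 0 := by
      intro h
      rw [h, zero_mul] at hqN
      exact hN hqN.symm
    have hinj : Function.Injective fun l : ℕ => q.1 * l := fun l l' h =>
      Nat.eq_of_mul_eq_mul_left (Nat.pos_of_ne_zero hq1) h
    rw [← hinj.tsum_eq (f := fun j : ℕ => (((if q.1 ∣ j then hw (j / q.1) else 0 : ℤ)) : ℂ) * G j)]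
    · refine tsum_congr fun l => ?_
      rw [if_pos (Dvd.intro _ rfl), Nat.mul_div_cancel_left l (Nat.pos_of_ne_zero hq1)]
    · intro j hj
      by_contra hcon
      apply hj
      change (((if q.1 ∣ j then hw (j / q.1) else 0 : ℤ)) : ℂ) * G j = 0
      rw [if_neg fun h => hcon (by obtain ⟨l, rfl⟩ := h; exact ⟨l, rfl⟩), Int.cast_zero, zero_mul]
  have hR : ∀ c : ℕ, (∑' i : ℕ, if Odd i ∧ i.Coprime N then G (2 ^ c * gg N * i) else 0) =
      ∑' j : ℕ, (((if 2 ^ c * gg N ∣ j ∧ Odd (j / (2 ^ c * gg N)) ∧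
        (j / (2 ^ c * gg N)).Coprime N then 1 else 0 : ℤ)) : ℂ) * G j := by
    intro c
    have hpos : 0 < 2 ^ c * gg N := Nat.mul_pos (Nat.two_pow_pos c) (gg_pos hN)
    have hinj : Function.Injective fun l : ℕ => 2 ^ c * gg N * l := fun l l' h =>
      Nat.eq_of_mul_eq_mul_left hpos h
    rw [← hinj.tsum_eq (f := fun j : ℕ => (((if 2 ^ c * gg N ∣ j ∧ Odd (j / (2 ^ c * gg N)) ∧
        (j / (2 ^ c * gg N)).Coprime N then 1 else 0 : ℤ)) : ℂ) * G j)]
    · refine tsum_congr fun i => ?_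
      rw [Nat.mul_div_cancel_left i hpos]
      by_cases h : Odd i ∧ i.Coprime N
      · rw [if_pos h, if_pos ⟨Dvd.intro _ rfl, h⟩, Int.cast_one, one_mul]
      · rw [if_neg h, if_neg fun h' => h h'.2, Int.cast_zero, zero_mul]
    · intro j hj
      by_contra hcon
      apply hj
      change (((if 2 ^ c * gg N ∣ j ∧ Odd (j / (2 ^ c * gg N)) ∧
        (j / (2 ^ c * gg N)).Coprime N then 1 else 0 : ℤ)) : ℂ) * G j = 0
      rw [if_neg fun h => hcon (by obtain ⟨⟨l, rfl⟩, -⟩ := h; exact ⟨l, rfl⟩), Int.cast_zero,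
        zero_mul]
  have h1 : ∑ q ∈ N.divisorsAntidiagonal, ((ArithmeticFunction.moebius q.2 : ℤ) : ℂ) *
        ∑' l : ℕ, ((hw l : ℤ) : ℂ) * G (q.1 * l) =
      ∑ q ∈ N.divisorsAntidiagonal, ((ArithmeticFunction.moebius q.2 : ℤ) : ℂ) *
        ∑' j : ℕ, (((if q.1 ∣ j then hw (j / q.1) else 0 : ℤ)) : ℂ) * G j :=
    Finset.sum_congr rfl fun q hq => by rw [hL q hq]
  rw [h1, mi_comb N.divisorsAntidiagonal (fun q => ArithmeticFunction.moebius q.2)
    (fun q j => if q.1 ∣ j then hw (j / q.1) else 0) (fun q j => ?_) hG]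
  swap
  · split_ifs
    · exact mi_hw_le _
    · norm_num
  have h2 : ∑ c ∈ Finset.range 3, ((kap N c : ℤ) : ℂ) *
        (∑' i : ℕ, if Odd i ∧ i.Coprime N then G (2 ^ c * gg N * i) else 0) =
      ∑ c ∈ Finset.range 3, ((kap N c : ℤ) : ℂ) *
        ∑' j : ℕ, (((if 2 ^ c * gg N ∣ j ∧ Odd (j / (2 ^ c * gg N)) ∧
          (j / (2 ^ c * gg N)).Coprime N then 1 else 0 : ℤ)) : ℂ) * G j :=
    Finset.sum_congr rfl fun c _ => by rw [hR c]
  rw [h2, mi_comb (Finset.range 3) (fun c => kap N c)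
    (fun c j => if 2 ^ c * gg N ∣ j ∧ Odd (j / (2 ^ c * gg N)) ∧
          (j / (2 ^ c * gg N)).Coprime N then 1 else 0) (fun c j => ?_) hG]
  swap
  · split_ifs <;> norm_num
  rw [← tsum_mul_left]
  refine tsum_congr fun j => ?_
  rw [← mul_assoc, ← Int.cast_mul]
  congr 2
  by_cases hj : j = 0
  · subst hj
    have h3 : ∀ q ∈ N.divisorsAntidiagonal, ArithmeticFunction.moebius q.2 *
        (if q.1 ∣ 0 then hw (0 / q.1) else 0) = 0 := by
      intro q _
      rw [if_pos (dvd_zero _), Nat.zero_div]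
      have h4 : hw 0 = 0 := by decide
      rw [h4, mul_zero]
    rw [Finset.sum_eq_zero h3, Finset.sum_eq_zero, mul_zero]
    intro c _
    rw [if_neg, mul_zero]
    rintro ⟨-, h4, -⟩
    rw [Nat.zero_div] at h4
    exact absurd h4 (by decide)
  · rw [← mi_kap hN hj, ← mi_S hN hj 0, ← mi_S hN hj 1, ← mi_S hN hj 2, Finset.mul_sum,
      Finset.mul_sum, ← Finset.sum_sub_distrib, ← Finset.sum_add_distrib]
    refine Finset.sum_congr rfl fun q _ => ?_
    rw [mi_hw_div]
    split_ifs <;> ring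

end Pool.Agent.MP_291b24_nt.Sm
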