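import Pool.Agent.Lib.MP_291b24_nt.Sm.WMelA

/-! The derivative of the cutoff function -/

set_option autoImplicit false

open Complex MeasureTheory

namespace Pool.Agent.MP_291b24_nt.Sm

/-- minus the derivative of `x^w ups M (x / N₀)` -/
noncomputable def nd (M : ℕ) (N₀ : ℝ) (w : ℂ) (x : ℝ) : ℂ :=
  ((M : ℂ) * ((x / N₀ : ℝ) : ℂ) ^ M - w) * (x : ℂ) ^ (w - 1) * (ups M (x / N₀) : ℂ)

theorem hasDerivAt_nd {M : ℕ} (hM : 1 ≤ M) {N₀ : ℝ} (hN : 0 < N₀) (w : ℂ) {x : ℝ} (hx : 0 < x) :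
    HasDerivAt (fun x : ℝ => (x : ℂ) ^ w * (ups M (x / N₀) : ℂ)) (-nd M N₀ w x) x := by
  have hx' : (x : ℂ) ≠ 0 := ofReal_ne_zero.2 hx.ne'
  have h1 : HasDerivAt (fun x : ℝ => (x : ℂ) ^ w) (w * (x : ℂ) ^ (w - 1) * 1) x :=
    ((hasDerivAt_id (x : ℂ)).cpow_const (Or.inl (by simpa using hx))).comp_ofReal
  have h2 : HasDerivAt (fun x : ℝ => ups M (x / N₀))
      (Real.exp (-((x / N₀) ^ M)) * (-((M : ℝ) * (x / N₀) ^ (M - 1) * (1 / N₀)))) x := by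
    have h3 : HasDerivAt (fun x : ℝ => x / N₀) (1 / N₀) x := (hasDerivAt_id x).div_const N₀
    exact ((h3.pow M).neg).exp
  have h4 := h1.mul h2.ofReal_comp
  have h5 : w * (x : ℂ) ^ (w - 1) * 1 * ((ups M (x / N₀) : ℝ) : ℂ) + (x : ℂ) ^ w *
      ((Real.exp (-((x / N₀) ^ M)) * (-((M : ℝ) * (x / N₀) ^ (M - 1) * (1 / N₀))) : ℝ) : ℂ) =
      -nd M N₀ w x := by
    have h6 : (x : ℂ) ^ w = (x : ℂ) ^ (w - 1) * x := by
      rw [cpow_sub _ _ hx', cpow_one]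
      field_simp
    have h7 : ((x / N₀ : ℝ) : ℂ) ^ M = ((x / N₀ : ℝ) : ℂ) ^ (M - 1) * ((x / N₀ : ℝ) : ℂ) := by
      rw [← pow_succ, Nat.sub_add_cancel hM]
    unfold nd ups
    rw [h6, h7]
    push_cast
    ring
  rw [← h5]
  exact h4

private theorem nd_ups {M : ℕ} {N₀ x : ℝ} (hx : 0 < x) :
    ups M (x / N₀) = Real.exp (-(N₀⁻¹ ^ M) * x ^ (M : ℝ)) := by
  unfold ups
  rw [Real.rpow_natCast, neg_mul, ← mul_pow, div_eq_inv_mul]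

private theorem nd_real {M : ℕ} (hM : 1 ≤ M) {N₀ : ℝ} (hN : 0 < N₀) {s : ℝ} (hs : 0 < s) :
    IntegrableOn (fun x : ℝ => x ^ (s - 1) * ups M (x / N₀)) (Set.Ioi 0) ∧
      ∫ x in Set.Ioi (0 : ℝ), x ^ (s - 1) * ups M (x / N₀) =
        N₀ ^ s * Real.Gamma (s / M) / M := by
  have hM' : (0 : ℝ) < M := Nat.cast_pos.2 hM
  have hb : 0 < N₀⁻¹ ^ M := pow_pos (inv_pos.2 hN) M
  have hq : -1 < s - 1 := by linarith
  have h1 : Set.EqOn (fun x : ℝ => x ^ (s - 1) * ups M (x / N₀))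
      (fun x : ℝ => x ^ (s - 1) * Real.exp (-(N₀⁻¹ ^ M) * x ^ (M : ℝ))) (Set.Ioi 0) := by
    intro x hx
    change x ^ (s - 1) * ups M (x / N₀) = _
    rw [nd_ups hx]
  refine ⟨(integrableOn_congr_fun h1 measurableSet_Ioi).2
    (integrableOn_rpow_mul_exp_neg_mul_rpow hq hM' hb), ?_⟩
  rw [setIntegral_congr_fun measurableSet_Ioi h1,
    integral_rpow_mul_exp_neg_mul_rpow hM' hq hb, sub_add_cancel]
  have h2 : (N₀⁻¹ ^ M) ^ (-s / (M : ℝ)) = N₀ ^ s := by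
    have h3 : N₀⁻¹ ^ M = N₀ ^ (-(M : ℝ)) := by
      rw [Real.rpow_neg hN.le, Real.rpow_natCast, inv_pow]
    rw [h3, ← Real.rpow_mul hN.le]
    congr 1
    field_simp
  rw [h2]
  ring

private theorem nd_mellin {M : ℕ} (hM : 1 ≤ M) {N₀ : ℝ} (hN : 0 < N₀) {s : ℂ} (hs : 0 < s.re) :
    MellinConvergent (fun x : ℝ => (ups M (x / N₀) : ℂ)) s ∧
      mellin (fun x : ℝ => (ups M (x / N₀) : ℂ)) s = (N₀ : ℂ) ^ s * Gamma (s / M) / M := by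
  have hM' : (0 : ℝ) < M := Nat.cast_pos.2 hM
  have hsM : 0 < (s / ((M : ℝ) : ℂ)).re := by
    rw [div_ofReal_re]
    exact div_pos hs hM'
  set g : ℝ → ℂ := fun t => ((Real.exp (-t) : ℝ) : ℂ) with hg
  have h1 : MellinConvergent g (s / ((M : ℝ) : ℂ)) := by
    have h := GammaIntegral_convergent hsM
    unfold MellinConvergent
    refine (integrableOn_congr_fun (fun x _ => ?_) measurableSet_Ioi).1 h
    change ((Real.exp (-x) : ℝ) : ℂ) * (x : ℂ) ^ (s / ((M : ℝ) : ℂ) - 1) = _ • g x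
    rw [smul_eq_mul, mul_comm]
  have h2 : mellin g (s / ((M : ℝ) : ℂ)) = Gamma (s / ((M : ℝ) : ℂ)) := by
    rw [Gamma_eq_integral hsM, GammaIntegral_eq_mellin]
  have h3 : (fun x : ℝ => (ups M (x / N₀) : ℂ)) =
      fun x : ℝ => (fun t : ℝ => g (t ^ (M : ℝ))) (N₀⁻¹ * x) := by
    funext x
    change ((ups M (x / N₀) : ℝ) : ℂ) = ((Real.exp (-((N₀⁻¹ * x) ^ (M : ℝ))) : ℝ) : ℂ)
    unfold ups
    rw [Real.rpow_natCast, div_eq_inv_mul]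
  rw [h3]
  refine ⟨(MellinConvergent.comp_mul_left (inv_pos.2 hN)).2
    ((MellinConvergent.comp_rpow hM'.ne').2 h1), ?_⟩
  refine (mellin_comp_mul_left (fun t : ℝ => g (t ^ (M : ℝ))) s (inv_pos.2 hN)).trans ?_
  rw [mellin_comp_rpow, h2, abs_of_pos hM']
  have h4 : ((N₀⁻¹ : ℝ) : ℂ) ^ (-s) = (N₀ : ℂ) ^ s := by
    rw [ofReal_inv, inv_cpow, cpow_neg, inv_inv]
    rw [arg_ofReal_of_nonneg hN.le]
    exact Real.pi_pos.ne
  rw [h4, smul_eq_mul, real_smul, ofReal_inv, ofReal_natCast]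
  ring

/-- `∫_0^∞ x^κ nd = κ ∫_0^∞ x^(κ+w-1) exp(-(x/N₀)^M) dx = κ N₀^(κ+w) Γ((κ+w)/M) / M` -/
theorem int_nd {M : ℕ} (hM : 1 ≤ M) {N₀ : ℝ} (hN : 0 < N₀) {κ w : ℂ} (h : 0 < (κ + w).re) :
    IntegrableOn (fun x : ℝ => (x : ℂ) ^ κ * nd M N₀ w x) (Set.Ioi 0) ∧
    ∫ x in Set.Ioi (0 : ℝ), (x : ℂ) ^ κ * nd M N₀ w x = κ * (N₀ : ℂ) ^ (κ + w) * Gamma ((κ + w) / M) / M := by
  have hM' : (0 : ℝ) < M := Nat.cast_pos.2 hM
  have hM0 : (M : ℂ) ≠ 0 := Nat.cast_ne_zero.2 (by omega)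
  have hN0 : (N₀ : ℂ) ≠ 0 := ofReal_ne_zero.2 hN.ne'
  have h' : 0 < (κ + w + M).re := by
    rw [add_re, natCast_re]
    linarith
  obtain ⟨ha1, ha2⟩ := nd_mellin hM hN h
  obtain ⟨hb1, hb2⟩ := nd_mellin hM hN h'
  have h1 : Set.EqOn (fun x : ℝ => (x : ℂ) ^ κ * nd M N₀ w x)
      (fun x : ℝ => ((M : ℂ) * ((N₀ : ℂ) ^ M)⁻¹) *
        ((x : ℂ) ^ (κ + w + M - 1) • (ups M (x / N₀) : ℂ)) -
        w * ((x : ℂ) ^ (κ + w - 1) • (ups M (x / N₀) : ℂ))) (Set.Ioi 0) := by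
    intro x hx
    have hx0 : (x : ℂ) ≠ 0 := ofReal_ne_zero.2 (ne_of_gt hx)
    have h2 : (x : ℂ) ^ (κ + w - 1) = (x : ℂ) ^ κ * (x : ℂ) ^ (w - 1) := by
      rw [← cpow_add _ _ hx0]
      congr 1
      ring
    have h3 : (x : ℂ) ^ (κ + w + M - 1) = (x : ℂ) ^ κ * (x : ℂ) ^ (w - 1) * (x : ℂ) ^ M := by
      rw [← h2, ← cpow_natCast, ← cpow_add _ _ hx0]
      congr 1
      ring
    change (x : ℂ) ^ κ * nd M N₀ w x = _
    unfold nd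
    simp only [smul_eq_mul]
    rw [h2, h3, ofReal_div, div_pow]
    ring
  have hi1 : IntegrableOn (fun x : ℝ => ((M : ℂ) * ((N₀ : ℂ) ^ M)⁻¹) *
      ((x : ℂ) ^ (κ + w + M - 1) • (ups M (x / N₀) : ℂ))) (Set.Ioi 0) := hb1.const_mul _
  have hi2 : IntegrableOn (fun x : ℝ =>
      w * ((x : ℂ) ^ (κ + w - 1) • (ups M (x / N₀) : ℂ))) (Set.Ioi 0) := ha1.const_mul _
  refine ⟨(integrableOn_congr_fun h1 measurableSet_Ioi).2 (hi1.sub hi2), ?_⟩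
  have e1 : ∫ x in Set.Ioi (0 : ℝ), (x : ℂ) ^ (κ + w + M - 1) • (ups M (x / N₀) : ℂ) =
      (N₀ : ℂ) ^ (κ + w + M) * Gamma ((κ + w + M) / M) / M := hb2
  have e2 : ∫ x in Set.Ioi (0 : ℝ), (x : ℂ) ^ (κ + w - 1) • (ups M (x / N₀) : ℂ) =
      (N₀ : ℂ) ^ (κ + w) * Gamma ((κ + w) / M) / M := ha2
  rw [setIntegral_congr_fun measurableSet_Ioi h1, integral_sub hi1 hi2, integral_const_mul,
    integral_const_mul, e1, e2]
  have h4 : (κ + w + M) / M = (κ + w) / M + 1 := by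
    field_simp
  have h5 : (κ + w) / M ≠ 0 := by
    refine div_ne_zero ?_ hM0
    intro h0
    rw [h0, zero_re] at h
    exact lt_irrefl _ h
  rw [h4, Gamma_add_one _ h5, cpow_add _ _ hN0, cpow_natCast]
  have h6 : (N₀ : ℂ) ^ M ≠ 0 := pow_ne_zero _ hN0
  field_simp
  ring

private theorem nd_norm_le (M : ℕ) {N₀ : ℝ} (hN : 0 < N₀) (w : ℂ) {x : ℝ} (hx : 0 < x) :
    ‖nd M N₀ w x‖ ≤ ((M : ℝ) * (x / N₀) ^ M + ‖w‖) * x ^ (w.re - 1) * ups M (x / N₀) := by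
  unfold nd
  have h1 : ‖((ups M (x / N₀) : ℝ) : ℂ)‖ = ups M (x / N₀) := by
    rw [norm_real, Real.norm_of_nonneg]
    unfold ups
    exact (Real.exp_pos _).le
  have h2 : ‖(x : ℂ) ^ (w - 1)‖ = x ^ (w.re - 1) := by
    rw [norm_cpow_eq_rpow_re_of_pos hx, sub_re, one_re]
  have h3 : ‖(M : ℂ) * ((x / N₀ : ℝ) : ℂ) ^ M - w‖ ≤ (M : ℝ) * (x / N₀) ^ M + ‖w‖ := by
    refine (norm_sub_le _ _).trans ?_
    rw [norm_mul, norm_pow, norm_real, norm_natCast, Real.norm_of_nonneg (div_pos hx hN).le]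
  rw [norm_mul, norm_mul, h1, h2]
  refine mul_le_mul_of_nonneg_right (mul_le_mul_of_nonneg_right h3 ?_) ?_
  · exact Real.rpow_nonneg hx.le _
  · unfold ups
    exact (Real.exp_pos _).le

/-- `|nd| ≤ (M (x/N₀)^M + |w|) x^(Re w - 1) ups(x/N₀)`; substitute `x = N₀ v` -/
theorem int_norm_nd (M : ℕ) (hM : 1 ≤ M) {κ w₀ : ℝ} (h : 0 < κ + w₀) : ∃ C : ℝ, 0 < C ∧ ∀ (N₀ : ℝ) (w : ℂ), 1 ≤ N₀ → w.re = w₀ →
    IntegrableOn (fun x : ℝ => x ^ κ * ‖nd M N₀ w x‖) (Set.Ioi 0) ∧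
    ∫ x in Set.Ioi (0 : ℝ), x ^ κ * ‖nd M N₀ w x‖ ≤ C * (‖w‖ + 1) * N₀ ^ (κ + w₀) := by
  have hM' : (0 : ℝ) < M := Nat.cast_pos.2 hM
  have hG1 : 0 < Real.Gamma ((κ + w₀) / M + 1) :=
    Real.Gamma_pos_of_pos (by have := div_pos h hM'; linarith)
  have hG2 : 0 < Real.Gamma ((κ + w₀) / M) := Real.Gamma_pos_of_pos (div_pos h hM')
  refine ⟨Real.Gamma ((κ + w₀) / M + 1) + Real.Gamma ((κ + w₀) / M) / M,
    add_pos hG1 (div_pos hG2 hM'), ?_⟩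
  intro N₀ w hN1 hw
  have hN : 0 < N₀ := lt_of_lt_of_le one_pos hN1
  have hre : 0 < ((κ : ℂ) + w).re := by
    rw [add_re, ofReal_re, hw]
    exact h
  have hi : IntegrableOn (fun x : ℝ => x ^ κ * ‖nd M N₀ w x‖) (Set.Ioi 0) := by
    have h1 := (int_nd hM hN hre).1.norm
    refine (integrableOn_congr_fun (fun x hx => ?_) measurableSet_Ioi).1 h1
    change ‖(x : ℂ) ^ (κ : ℂ) * nd M N₀ w x‖ = x ^ κ * ‖nd M N₀ w x‖
    rw [norm_mul, norm_cpow_eq_rpow_re_of_pos hx, ofReal_re]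
  refine ⟨hi, ?_⟩
  have h' : 0 < κ + w₀ + M := by linarith
  obtain ⟨ha1, ha2⟩ := nd_real hM hN h
  obtain ⟨hb1, hb2⟩ := nd_real hM hN h'
  have hi1 : IntegrableOn (fun x : ℝ => ((M : ℝ) * (N₀ ^ M)⁻¹) *
      (x ^ (κ + w₀ + M - 1) * ups M (x / N₀))) (Set.Ioi 0) := hb1.const_mul _
  have hi2 : IntegrableOn (fun x : ℝ =>
      ‖w‖ * (x ^ (κ + w₀ - 1) * ups M (x / N₀))) (Set.Ioi 0) := ha1.const_mul _
  have h2 : ∫ x in Set.Ioi (0 : ℝ), x ^ κ * ‖nd M N₀ w x‖ ≤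
      ∫ x in Set.Ioi (0 : ℝ), (((M : ℝ) * (N₀ ^ M)⁻¹) *
        (x ^ (κ + w₀ + M - 1) * ups M (x / N₀)) +
          ‖w‖ * (x ^ (κ + w₀ - 1) * ups M (x / N₀))) := by
    refine setIntegral_mono_on hi (hi1.add hi2) measurableSet_Ioi fun x hx => ?_
    have hx0 : (0 : ℝ) < x := hx
    have h3 : x ^ (κ + w₀ - 1) = x ^ κ * x ^ (w₀ - 1) := by
      rw [← Real.rpow_add hx0]
      congr 1
      ring
    have h4 : x ^ (κ + w₀ + M - 1) = x ^ κ * x ^ (w₀ - 1) * x ^ M := by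
      rw [← h3, ← Real.rpow_natCast, ← Real.rpow_add hx0]
      congr 1
      ring
    have h5 := mul_le_mul_of_nonneg_left (nd_norm_le M hN w hx0) (Real.rpow_nonneg hx0.le κ)
    rw [hw] at h5
    refine h5.trans (le_of_eq ?_)
    rw [h3, h4, div_pow]
    ring
  refine h2.trans ?_
  rw [integral_add hi1 hi2, integral_const_mul, integral_const_mul, ha2, hb2]
  have h6 : (κ + w₀ + M) / M = (κ + w₀) / M + 1 := by
    field_simp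
  have h7 : N₀ ^ (κ + w₀ + M) = N₀ ^ (κ + w₀) * N₀ ^ M := by
    rw [Real.rpow_add hN, Real.rpow_natCast]
  rw [h6, h7]
  have h8 : N₀ ^ M ≠ 0 := (pow_pos hN M).ne'
  have h9 : (M : ℝ) * (N₀ ^ M)⁻¹ * (N₀ ^ (κ + w₀) * N₀ ^ M * Real.Gamma ((κ + w₀) / M + 1) / M) +
      ‖w‖ * (N₀ ^ (κ + w₀) * Real.Gamma ((κ + w₀) / M) / M) =
      (Real.Gamma ((κ + w₀) / M + 1) + ‖w‖ * (Real.Gamma ((κ + w₀) / M) / M)) *
        N₀ ^ (κ + w₀) := by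
    field_simp
  rw [h9]
  refine mul_le_mul_of_nonneg_right ?_ (Real.rpow_nonneg hN.le _)
  have h10 := mul_nonneg hG1.le (norm_nonneg w)
  have h11 := (div_pos hG2 hM').le
  nlinarith [h10, h11]

/-- pointwise, for `x ≥ 1`, `N₀ ≥ 1`, `Re w ≤ 0` -/
theorem norm_nd_le (M : ℕ) (hM : 1 ≤ M) : ∃ C : ℝ, 0 < C ∧ ∀ (N₀ : ℝ) (w : ℂ) (x : ℝ), 1 ≤ N₀ → w.re ≤ 0 → 1 ≤ x →
    ‖nd M N₀ w x‖ ≤ C * (‖w‖ + 1) := by
  have hM' : (1 : ℝ) ≤ M := Nat.one_le_cast.2 hM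
  refine ⟨M, by linarith, ?_⟩
  intro N₀ w x hN1 hw hx1
  have hN : 0 < N₀ := lt_of_lt_of_le one_pos hN1
  have hx : 0 < x := lt_of_lt_of_le one_pos hx1
  have h1 := nd_norm_le M hN w hx
  set v : ℝ := (x / N₀) ^ M with hv
  have hv0 : 0 ≤ v := pow_nonneg (div_pos hx hN).le M
  have hu : ups M (x / N₀) = Real.exp (-v) := rfl
  have h2 : x ^ (w.re - 1) ≤ 1 := Real.rpow_le_one_of_one_le_of_nonpos hx1 (by linarith)
  have h3 : v * Real.exp (-v) ≤ 1 := by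
    have h4 := Real.add_one_le_exp v
    have h5 : Real.exp v * Real.exp (-v) = 1 := by
      rw [← Real.exp_add, add_neg_cancel, Real.exp_zero]
    nlinarith [Real.exp_pos (-v)]
  have h6 : Real.exp (-v) ≤ 1 := Real.exp_le_one_iff.2 (by linarith)
  have h7 : 0 ≤ x ^ (w.re - 1) := Real.rpow_nonneg hx.le _
  rw [hu] at h1
  have h8 : ((M : ℝ) * v + ‖w‖) * Real.exp (-v) ≤ M * (‖w‖ + 1) := by
    have h9 : (M : ℝ) * (v * Real.exp (-v)) ≤ M * 1 :=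
      mul_le_mul_of_nonneg_left h3 (by linarith)
    have h10 : ‖w‖ * Real.exp (-v) ≤ ‖w‖ * 1 := mul_le_mul_of_nonneg_left h6 (norm_nonneg w)
    nlinarith [norm_nonneg w]
  have h11 : 0 ≤ ((M : ℝ) * v + ‖w‖) * Real.exp (-v) := by
    have := Real.exp_pos (-v)
    have h12 : 0 ≤ (M : ℝ) * v + ‖w‖ := by
      have := norm_nonneg w
      have h13 : 0 ≤ (M : ℝ) * v := mul_nonneg (by linarith) hv0
      linarith
    exact mul_nonneg h12 this.le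
  calc ‖nd M N₀ w x‖ ≤ ((M : ℝ) * v + ‖w‖) * x ^ (w.re - 1) * Real.exp (-v) := h1
    _ = (((M : ℝ) * v + ‖w‖) * Real.exp (-v)) * x ^ (w.re - 1) := by ring
    _ ≤ (((M : ℝ) * v + ‖w‖) * Real.exp (-v)) * 1 := mul_le_mul_of_nonneg_left h2 h11
    _ ≤ M * (‖w‖ + 1) := by rw [mul_one]; exact h8

end Pool.Agent.MP_291b24_nt.Sm
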