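import Pool.Agent.Lib.MP_291b24_nt.Sm.SMBa
import Pool.Agent.Lib.MP_291b24_nt.Sm.Shift
import Pool.Agent.Lib.MP_291b24_nt.Sm.InvPsi
import Pool.Agent.Lib.MP_291b24_nt.Sm.KerF

/-! The smoothed Moebius sums -/

set_option autoImplicit false

open Complex MeasureTheory

namespace Pool.Agent.MP_291b24_nt.Sm

/-- the decay of the Laplace transform -/
private theorem sm_dec {F : ℝ → ℂ} (hF : Nice F) {s : ℂ} (hs : |s.re| ≤ 2) :
    ‖Lap F s‖ * (1 + s.im ^ 2) ≤ (∫ x, Real.exp (3 * |x|) * ‖F x‖) +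
      ∫ x, Real.exp (3 * |x|) * ‖deriv (deriv F) x‖ := by
  have h1 := norm_Lap_le hF (s := s) (by linarith)
  have h2 := norm_sq_Lap_le hF hs
  have h3 : s.im ^ 2 ≤ ‖s‖ ^ 2 := by
    rw [← sq_abs s.im]
    exact pow_le_pow_left₀ (abs_nonneg _) (abs_im_le_norm s) 2
  have h4 : ‖Lap F s‖ * s.im ^ 2 ≤ ‖s‖ ^ 2 * ‖Lap F s‖ := by
    rw [mul_comm]
    exact mul_le_mul_of_nonneg_right h3 (norm_nonneg _)
  rw [mul_add, mul_one]
  linarith

private theorem sm_diff {F : ℝ → ℂ} (hF : Nice F) {Y : ℝ} (hY : 0 < Y) {A : Set ℂ}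
    (hA : ∀ s ∈ A, |s.re| < 3) : DifferentiableOn ℂ (fun s => Lap F s * (Y : ℂ) ^ s) A := by
  refine DifferentiableOn.mul ((Lap_diff hF).mono hA) ?_
  intro s _
  refine DifferentiableAt.differentiableWithinAt ?_
  have hY' : (Y : ℂ) ≠ 0 := ofReal_ne_zero.2 hY.ne'
  exact DifferentiableAt.const_cpow differentiableAt_id (Or.inl hY')

private theorem sm_norm_cpow {Y : ℝ} (hY : 0 < Y) (s : ℂ) : ‖(Y : ℂ) ^ s‖ = Y ^ s.re :=
  norm_cpow_eq_rpow_re_of_pos hY s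

/-- integrability on the line 2 -/
private theorem sm_int {F : ℝ → ℂ} (hF : Nice F) {Y : ℝ} (hY : 0 < Y) :
    Integrable (fun t : ℝ => Lap F (2 + t * I) * (Y : ℂ) ^ (2 + t * I : ℂ)) := by
  have h := shift_line (f := fun s => Lap F s * (Y : ℂ) ^ s) (σ₁ := 2) (σ₂ := 2)
    (B := ((∫ x, Real.exp (3 * |x|) * ‖F x‖) +
      ∫ x, Real.exp (3 * |x|) * ‖deriv (deriv F) x‖) * Y ^ (2 : ℝ)) le_rfl
    (sm_diff hF hY (by
      rintro s ⟨h1, h2⟩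
      have : s.re = 2 := le_antisymm h2 h1
      rw [this]
      norm_num))
    (by
      intro s h1 h2
      have hre : s.re = 2 := le_antisymm h2 h1
      have h3 := sm_dec hF (s := s) (by rw [hre]; norm_num)
      rw [norm_mul, sm_norm_cpow hY, hre]
      have h4 : 0 ≤ Y ^ (2 : ℝ) := Real.rpow_nonneg hY.le _
      calc ‖Lap F s‖ * Y ^ (2 : ℝ) * (1 + s.im ^ 2) = ‖Lap F s‖ * (1 + s.im ^ 2) * Y ^ (2 : ℝ) := by
            ring
        _ ≤ _ := mul_le_mul_of_nonneg_right h3 h4)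
  have h5 := h.1
  simpa using h5

private theorem sm_log {u : ℕ} (hu : u ≠ 0) {Y : ℝ} (hY : 0 < Y) (s : ℂ) :
    cexp (-s * (Real.log (u / Y) : ℝ)) = (u : ℂ) ^ (-s) * (Y : ℂ) ^ s := by
  have hu0 : (0 : ℝ) < u := by exact_mod_cast Nat.pos_of_ne_zero hu
  have hY' : (Y : ℂ) ≠ 0 := ofReal_ne_zero.2 hY.ne'
  have hu' : ((u : ℕ) : ℂ) ≠ 0 := by exact_mod_cast hu
  rw [cpow_def_of_ne_zero hu', cpow_def_of_ne_zero hY', ← Complex.exp_add, Real.log_div hu0.ne' hY.ne']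
  congr 1
  rw [ofReal_sub, ofReal_log hu0.le, ofReal_log hY.le, ofReal_natCast]
  ring

/-- `Lap_inv` with `σ = 2`, `hasSum_mu_psi` and Fubini -/
theorem SU_eq_two {m v : ℕ} (hm : 1 ≤ m) (hv : 1 ≤ v) {F : ℝ → ℂ} (hF : Nice F) {Y : ℝ} (hY : 0 < Y) :
    SU m v F Y = (1 / (2 * Real.pi) : ℂ) * ∫ t : ℝ, Lap F (2 + t * I) * (Y : ℂ) ^ (2 + t * I) * (Lpsi (m * v ^ 2) (2 + t * I))⁻¹ := by
  set G : ℝ → ℂ := fun t => Lap F (2 + t * I) * (Y : ℂ) ^ (2 + t * I : ℂ) with hG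
  have hGi : Integrable G := sm_int hF hY
  set a : ℕ → ℂ := fun u => if Odd u ∧ u.Coprime v then ((ArithmeticFunction.moebius u : ℤ) : ℂ) *
      ((jacobiSym (-(m : ℤ)) u : ℤ) : ℂ) else 0 with ha
  have ha1 : ∀ u, ‖a u‖ ≤ 1 := by
    intro u
    simp only [ha]
    split_ifs
    · rw [norm_mul]
      have h1 : ‖((ArithmeticFunction.moebius u : ℤ) : ℂ)‖ ≤ 1 := by
        rw [Complex.norm_intCast]
        exact_mod_cast ArithmeticFunction.abs_moebius_le_one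
      have h2 : ‖((jacobiSym (-(m : ℤ)) u : ℤ) : ℂ)‖ ≤ 1 := by
        rcases jacobiSym.trichotomy (-(m : ℤ)) u with h | h | h <;> rw [h] <;> simp
      exact mul_le_one₀ h1 (norm_nonneg _) h2
    · simp
  have ha0 : a 0 = 0 := by simp [ha]
  set T : ℕ → ℝ → ℂ := fun u t => a u * ((u : ℂ) ^ (-(2 + t * I : ℂ)) * G t) with hT
  have hTn : ∀ u t, ‖T u t‖ ≤ ((u : ℝ) ^ 2)⁻¹ * ‖G t‖ := by
    intro u t
    simp only [hT]
    rcases Nat.eq_zero_or_pos u with rfl | hu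
    · rw [ha0, zero_mul, norm_zero]
      positivity
    · rw [norm_mul, norm_mul, norm_natCast_cpow_of_pos hu]
      have h3 : (-(2 + t * I : ℂ)).re = -2 := by simp
      have h4 : (u : ℝ) ^ (-2 : ℝ) = ((u : ℝ) ^ 2)⁻¹ := by
        rw [Real.rpow_neg (Nat.cast_nonneg u), Real.rpow_two]
      rw [h3, h4]
      exact mul_le_of_le_one_left (by positivity) (ha1 u)
  have hTi : ∀ u, Integrable (T u) := by
    intro u
    refine (hGi.norm.const_mul ((u : ℝ) ^ 2)⁻¹).mono' ?_ (Filter.Eventually.of_forall (hTn u))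
    rcases Nat.eq_zero_or_pos u with rfl | hu
    · simp only [hT, ha0, zero_mul]
      exact aestronglyMeasurable_const
    · refine AEStronglyMeasurable.const_mul (AEStronglyMeasurable.mul ?_ hGi.1) _
      refine Continuous.aestronglyMeasurable ?_
      refine Continuous.const_cpow (by fun_prop) (Or.inl ?_)
      exact_mod_cast hu.ne'
  have hTs : Summable fun u => ∫ t, ‖T u t‖ := by
    refine Summable.of_nonneg_of_le (fun u => integral_nonneg fun t => norm_nonneg _)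
      (f := fun u : ℕ => ((u : ℝ) ^ 2)⁻¹ * ∫ t, ‖G t‖) (fun u => ?_) ?_
    · rw [← integral_const_mul]
      exact integral_mono (hTi u).norm (hGi.norm.const_mul _) (hTn u)
    · exact (Real.summable_nat_pow_inv.2 (by norm_num)).mul_right _
  have hterm : ∀ u : ℕ, (if Odd u ∧ u.Coprime v then ((ArithmeticFunction.moebius u : ℤ) : ℂ) *
      ((jacobiSym (-(m : ℤ)) u : ℤ) : ℂ) * F (Real.log (u / Y)) else 0) =
      (1 / (2 * Real.pi) : ℂ) * ∫ t, T u t := by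
    intro u
    have h5 : ∫ t, T u t = a u * ∫ t : ℝ, (u : ℂ) ^ (-(2 + t * I : ℂ)) * G t := by
      rw [← integral_const_mul]
    by_cases hu : Odd u ∧ u.Coprime v
    · have hu0 : u ≠ 0 := by
        rintro rfl
        exact absurd hu.1 (by simp)
      have h6 := Lap_inv hF (σ := 2) (by norm_num) (Real.log (u / Y))
      have h7 : ∀ t : ℝ, Lap F (((2 : ℝ) : ℂ) + t * I) *
          cexp (-(((2 : ℝ) : ℂ) + t * I) * (Real.log (u / Y) : ℝ)) =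
          (u : ℂ) ^ (-(2 + t * I : ℂ)) * G t := by
        intro t
        rw [sm_log hu0 hY, ofReal_ofNat]
        simp only [hG]
        ring
      rw [integral_congr_ae (Filter.Eventually.of_forall h7)] at h6
      rw [if_pos hu, h6, h5]
      simp only [ha, if_pos hu]
      ring
    · rw [if_neg hu, h5]
      simp only [ha, if_neg hu]
      ring
  have hpt : ∀ t : ℝ, ∑' u, T u t =
      Lap F (2 + t * I) * (Y : ℂ) ^ (2 + t * I : ℂ) * (Lpsi (m * v ^ 2) (2 + t * I))⁻¹ := by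
    intro t
    have h8 := hasSum_mu_psi hm hv (s := (2 + t * I : ℂ)) (by simp)
    have h9 := h8.mul_right (G t)
    have h10 : ∀ u, T u t = (if Odd u ∧ u.Coprime v then ((ArithmeticFunction.moebius u : ℤ) : ℂ) *
        ((jacobiSym (-(m : ℤ)) u : ℤ) : ℂ) * (u : ℂ) ^ (-(2 + t * I : ℂ)) else 0) * G t := by
      intro u
      simp only [hT, ha]
      split_ifs
      · ring
      · ring
    rw [tsum_congr h10, h9.tsum_eq]
    simp only [hG]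
    ring
  unfold SU
  rw [tsum_congr hterm, tsum_mul_left, integral_tsum_of_summable_integral_norm hTi hTs,
    integral_congr_ae (Filter.Eventually.of_forall hpt)]

/-- shift the line `2` to `σ₀ + ε'` (`shift_line'`; `|Lap| ≤ C / (1 + t²)`, `inv_Lpsi`), then `int_Lap_le`.
(`m v² ≤ (m v)²`) -/
theorem SMB {σ₀ ε' : ℝ} (h1 : 1 / 2 ≤ σ₀) (h2 : σ₀ ≤ 1) (hε : 0 < ε') (hε2 : ε' ≤ 1 / 4) (hZ : ZZ σ₀) :
    ∃ C : ℝ, 0 < C ∧ ∀ (m v : ℕ) (F : ℝ → ℂ) (b R Y : ℝ), 1 ≤ m → 1 ≤ v → Nice F → 0 < Y → 0 ≤ b → 1 ≤ R →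
      ∫ x, Real.exp (3 * |x|) * ‖F x‖ ≤ b → ∫ x, Real.exp (3 * |x|) * ‖deriv (deriv F) x‖ ≤ b * R ^ 2 →
      ‖SU m v F Y‖ ≤ C * b * R ^ (1 + ε') * Y ^ (σ₀ + ε') * ((m : ℝ) * v) ^ (2 * ε') := by
  obtain ⟨C1, hC1, H1⟩ := inv_Lpsi (by linarith) h2 hε hε2 hZ
  obtain ⟨C2, hC2, H2⟩ := int_Lap_le hε hε2
  refine ⟨C1 * C2, mul_pos hC1 hC2, ?_⟩
  intro m v F b R Y hm hv hF hY hb hR hb0 hb2
  have hmv : 1 ≤ m * v ^ 2 := Nat.succ_le_of_lt (by positivity)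
  have hmv' : (0 : ℝ) < ((m * v ^ 2 : ℕ) : ℝ) := by exact_mod_cast hmv
  set f : ℂ → ℂ := fun s => Lap F s * (Y : ℂ) ^ s * (Lpsi (m * v ^ 2) s)⁻¹ with hf
  have h12 : σ₀ + ε' ≤ 2 := by linarith
  have hstrip : ∀ s : ℂ, σ₀ + ε' ≤ s.re → s.re ≤ 2 → |s.re| ≤ 2 := by
    intro s h3 h4
    rw [abs_le]
    constructor <;> linarith
  have hfd : DifferentiableOn ℂ f {s : ℂ | σ₀ + ε' ≤ s.re ∧ s.re ≤ 2} := by
    refine DifferentiableOn.mul (sm_diff hF hY ?_) (DifferentiableOn.inv ?_ ?_)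
    · rintro s ⟨h3, h4⟩
      have := hstrip s h3 h4
      linarith
    · exact (differentiable_Lpsi _).differentiableOn
    · rintro s ⟨h3, h4⟩
      exact hZ _ hmv s (by linarith)
  set B0 : ℝ := (∫ x, Real.exp (3 * |x|) * ‖F x‖) +
      ∫ x, Real.exp (3 * |x|) * ‖deriv (deriv F) x‖ with hB0
  have hB0' : 0 ≤ B0 := by
    refine add_nonneg (integral_nonneg fun x => ?_) (integral_nonneg fun x => ?_) <;> positivity
  have hfB : ∀ s : ℂ, σ₀ + ε' ≤ s.re → s.re ≤ 2 → ‖f s‖ * (1 + |s.im|) ^ (3 / 2 : ℝ) ≤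
      4 * B0 * (1 + Y ^ (2 : ℝ)) * (C1 * ((m * v ^ 2 : ℕ) : ℝ) ^ ε') := by
    intro s h3 h4
    have e1 := sm_dec hF (hstrip s h3 h4)
    rw [← hB0] at e1
    have e2 : ‖(Y : ℂ) ^ s‖ ≤ 1 + Y ^ (2 : ℝ) := by
      rw [sm_norm_cpow hY]
      have h5 : 0 ≤ Y ^ (2 : ℝ) := Real.rpow_nonneg hY.le _
      rcases le_total Y 1 with h6 | h6
      · have : Y ^ s.re ≤ 1 := Real.rpow_le_one hY.le h6 (by linarith)
        linarith
      · have := Real.rpow_le_rpow_of_exponent_le h6 h4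
        linarith
    have e3 := H1 _ hmv s h3
    have hx : (0 : ℝ) ≤ |s.im| := abs_nonneg _
    have e4 : (((m * v ^ 2 : ℕ) : ℝ) * (|s.im| + 2)) ^ ε' ≤
        ((m * v ^ 2 : ℕ) : ℝ) ^ ε' * (2 * (1 + |s.im|) ^ (1 / 2 : ℝ)) := by
      rw [Real.mul_rpow hmv'.le (by positivity)]
      refine mul_le_mul_of_nonneg_left ?_ (by positivity)
      calc (|s.im| + 2) ^ ε' ≤ (|s.im| + 2) ^ (1 / 2 : ℝ) :=
            Real.rpow_le_rpow_of_exponent_le (by linarith) (by linarith)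
        _ ≤ (2 * (1 + |s.im|)) ^ (1 / 2 : ℝ) :=
            Real.rpow_le_rpow (by positivity) (by linarith) (by norm_num)
        _ = 2 ^ (1 / 2 : ℝ) * (1 + |s.im|) ^ (1 / 2 : ℝ) :=
            Real.mul_rpow (by norm_num) (by positivity)
        _ ≤ 2 * (1 + |s.im|) ^ (1 / 2 : ℝ) := by
            refine mul_le_mul_of_nonneg_right ?_ (by positivity)
            calc (2 : ℝ) ^ (1 / 2 : ℝ) ≤ 2 ^ (1 : ℝ) :=
                  Real.rpow_le_rpow_of_exponent_le (by norm_num) (by norm_num)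
              _ = 2 := Real.rpow_one 2
    have e5 : (1 + |s.im|) ^ (1 / 2 : ℝ) * (1 + |s.im|) ^ (3 / 2 : ℝ) ≤ 2 * (1 + s.im ^ 2) := by
      rw [← Real.rpow_add (by positivity)]
      norm_num
      nlinarith [sq_abs s.im, sq_nonneg (|s.im| - 1)]
    have hM : 0 ≤ ((m * v ^ 2 : ℕ) : ℝ) ^ ε' := by positivity
    have hf' : ‖f s‖ = ‖Lap F s‖ * ‖(Y : ℂ) ^ s‖ * ‖(Lpsi (m * v ^ 2) s)⁻¹‖ := by
      simp only [hf, norm_mul]
    rw [hf']
    have hL : 0 ≤ ‖Lap F s‖ := norm_nonneg _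
    calc ‖Lap F s‖ * ‖(Y : ℂ) ^ s‖ * ‖(Lpsi (m * v ^ 2) s)⁻¹‖ * (1 + |s.im|) ^ (3 / 2 : ℝ)
        ≤ ‖Lap F s‖ * (1 + Y ^ (2 : ℝ)) *
          (C1 * (((m * v ^ 2 : ℕ) : ℝ) ^ ε' * (2 * (1 + |s.im|) ^ (1 / 2 : ℝ)))) *
            (1 + |s.im|) ^ (3 / 2 : ℝ) := by
          refine mul_le_mul_of_nonneg_right ?_ (by positivity)
          refine mul_le_mul (mul_le_mul_of_nonneg_left e2 hL) ?_ (norm_nonneg _) (by positivity)
          exact e3.trans (mul_le_mul_of_nonneg_left e4 hC1.le)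
      _ = 2 * (1 + Y ^ (2 : ℝ)) * (C1 * ((m * v ^ 2 : ℕ) : ℝ) ^ ε') * (‖Lap F s‖ *
            ((1 + |s.im|) ^ (1 / 2 : ℝ) * (1 + |s.im|) ^ (3 / 2 : ℝ))) := by ring
      _ ≤ 2 * (1 + Y ^ (2 : ℝ)) * (C1 * ((m * v ^ 2 : ℕ) : ℝ) ^ ε') * (‖Lap F s‖ *
            (2 * (1 + s.im ^ 2))) := by
          refine mul_le_mul_of_nonneg_left ?_ (by positivity)
          exact mul_le_mul_of_nonneg_left e5 hL
      _ = 2 * (1 + Y ^ (2 : ℝ)) * (C1 * ((m * v ^ 2 : ℕ) : ℝ) ^ ε') * (2 * (‖Lap F s‖ *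
            (1 + s.im ^ 2))) := by ring
      _ ≤ 2 * (1 + Y ^ (2 : ℝ)) * (C1 * ((m * v ^ 2 : ℕ) : ℝ) ^ ε') * (2 * B0) := by
          refine mul_le_mul_of_nonneg_left ?_ (by positivity)
          linarith
      _ = _ := by ring
  obtain ⟨hi1, hi2, hsh⟩ := shift_line' h12 hfd hfB
  obtain ⟨hL1, hL2⟩ := H2 F b R (σ₀ + ε') hF hb hR (by linarith) h12 hb0 hb2
  have hSU : SU m v F Y = (1 / (2 * Real.pi) : ℂ) * ∫ t : ℝ, f ((σ₀ + ε' : ℝ) + t * I) := by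
    rw [SU_eq_two hm hv hF hY, hsh]
    simp only [hf, ofReal_ofNat]
  have hpi : ‖(1 / (2 * Real.pi) : ℂ)‖ ≤ 1 := by
    rw [norm_div, norm_one, norm_mul, Complex.norm_real, Real.norm_of_nonneg Real.pi_pos.le,
      Complex.norm_ofNat, div_le_one (by positivity)]
    nlinarith [Real.pi_gt_three]
  have hint : ‖∫ t : ℝ, f ((σ₀ + ε' : ℝ) + t * I)‖ ≤
      Y ^ (σ₀ + ε') * (C1 * ((m * v ^ 2 : ℕ) : ℝ) ^ ε') * (C2 * b * R ^ (1 + ε')) := by
    calc ‖∫ t : ℝ, f ((σ₀ + ε' : ℝ) + t * I)‖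
        ≤ ∫ t : ℝ, Y ^ (σ₀ + ε') * (C1 * ((m * v ^ 2 : ℕ) : ℝ) ^ ε') *
          (‖Lap F ((σ₀ + ε' : ℝ) + t * I)‖ * (|t| + 2) ^ ε') := by
          refine norm_integral_le_of_norm_le (hL1.const_mul _)
            (Filter.Eventually.of_forall fun t => ?_)
          have hre : (((σ₀ + ε' : ℝ) : ℂ) + t * I).re = σ₀ + ε' := by simp
          have him : (((σ₀ + ε' : ℝ) : ℂ) + t * I).im = t := by simp
          have e3 := H1 _ hmv (((σ₀ + ε' : ℝ) : ℂ) + t * I) hre.ge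
          rw [him, Real.mul_rpow hmv'.le (by positivity)] at e3
          simp only [hf, norm_mul]
          rw [sm_norm_cpow hY, hre]
          have hYn : 0 ≤ Y ^ (σ₀ + ε') := Real.rpow_nonneg hY.le _
          calc ‖Lap F (((σ₀ + ε' : ℝ) : ℂ) + t * I)‖ * Y ^ (σ₀ + ε') *
                ‖(Lpsi (m * v ^ 2) (((σ₀ + ε' : ℝ) : ℂ) + t * I))⁻¹‖
              ≤ ‖Lap F (((σ₀ + ε' : ℝ) : ℂ) + t * I)‖ * Y ^ (σ₀ + ε') *
                (C1 * (((m * v ^ 2 : ℕ) : ℝ) ^ ε' * (|t| + 2) ^ ε')) :=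
                mul_le_mul_of_nonneg_left e3 (mul_nonneg (norm_nonneg _) hYn)
            _ = _ := by ring
      _ = Y ^ (σ₀ + ε') * (C1 * ((m * v ^ 2 : ℕ) : ℝ) ^ ε') *
          ∫ t : ℝ, ‖Lap F ((σ₀ + ε' : ℝ) + t * I)‖ * (|t| + 2) ^ ε' := integral_const_mul _ _
      _ ≤ _ := by
          refine mul_le_mul_of_nonneg_left hL2 ?_
          have hYn : 0 ≤ Y ^ (σ₀ + ε') := Real.rpow_nonneg hY.le _
          positivity
  have hmv2 : ((m * v ^ 2 : ℕ) : ℝ) ^ ε' ≤ ((m : ℝ) * v) ^ (2 * ε') := by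
    have hm1 : (1 : ℝ) ≤ m := by exact_mod_cast hm
    have h7 : ((m * v ^ 2 : ℕ) : ℝ) ≤ ((m : ℝ) * v) ^ (2 : ℝ) := by
      rw [Real.rpow_two]
      push_cast
      nlinarith [sq_nonneg (v : ℝ), mul_nonneg (sub_nonneg.2 hm1) (mul_nonneg (by linarith : (0 : ℝ) ≤ m) (sq_nonneg (v : ℝ)))]
    calc ((m * v ^ 2 : ℕ) : ℝ) ^ ε' ≤ (((m : ℝ) * v) ^ (2 : ℝ)) ^ ε' :=
          Real.rpow_le_rpow hmv'.le h7 hε.le
      _ = ((m : ℝ) * v) ^ (2 * ε') := by rw [← Real.rpow_mul (by positivity)]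
  rw [hSU, norm_mul]
  have hYn : 0 ≤ Y ^ (σ₀ + ε') := Real.rpow_nonneg hY.le _
  have hRn : 0 ≤ R ^ (1 + ε') := Real.rpow_nonneg (by linarith) _
  calc ‖(1 / (2 * Real.pi) : ℂ)‖ * ‖∫ t : ℝ, f ((σ₀ + ε' : ℝ) + t * I)‖
      ≤ 1 * (Y ^ (σ₀ + ε') * (C1 * ((m * v ^ 2 : ℕ) : ℝ) ^ ε') * (C2 * b * R ^ (1 + ε'))) :=
        mul_le_mul hpi hint (norm_nonneg _) zero_le_one
    _ ≤ 1 * (Y ^ (σ₀ + ε') * (C1 * ((m : ℝ) * v) ^ (2 * ε')) * (C2 * b * R ^ (1 + ε'))) := by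
        refine mul_le_mul_of_nonneg_left ?_ zero_le_one
        refine mul_le_mul_of_nonneg_right ?_ (by positivity)
        exact mul_le_mul_of_nonneg_left (mul_le_mul_of_nonneg_left hmv2 hC1.le) hYn
    _ = _ := by ring

end Pool.Agent.MP_291b24_nt.Sm
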