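import Pool.Agent.Lib.MP_291b24_nt.Sm.Arith
import Pool.Agent.Lib.MP_14ee70_nt.Div

/-! Sums over `V` -/

set_option autoImplicit false

namespace Pool.Agent.MP_291b24_nt.Sm

/-- `v = ε a² b³` -/
private theorem vsum_repr {v : ℕ} (hv : VV v) :
    ∃ q : ℕ × ℕ × ℕ, (q.1 = 1 ∨ q.1 = 2) ∧ q.2.1 ≠ 0 ∧ q.2.2 ≠ 0 ∧
      v = q.1 * (q.2.1 ^ 2 * q.2.2 ^ 3) := by
  obtain ⟨s, c, hcs, hs⟩ := Nat.sq_mul_squarefree v
  have hv0 : v ≠ 0 := hv.1
  have hs0 : s ≠ 0 := by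
    rintro rfl
    exact hv0 (by rw [← hcs, mul_zero])
  have hc0 : c ≠ 0 := by
    rintro rfl
    exact hv0 (by rw [← hcs]; ring)
  -- the odd part of `s`
  have hodd : ∀ t : ℕ, t ∣ s → ¬ 2 ∣ t → t ∣ c := by
    intro t ht ht2
    have htsq : Squarefree t := hs.squarefree_of_dvd ht
    rw [← Nat.prod_primeFactors_of_squarefree htsq]
    refine Finset.prod_primes_dvd c (fun p hp => (Nat.prime_of_mem_primeFactors hp).prime) ?_
    intro p hp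
    have hpp := Nat.prime_of_mem_primeFactors hp
    have hpt := Nat.dvd_of_mem_primeFactors hp
    have hp2 : p ≠ 2 := by
      rintro rfl
      exact ht2 hpt
    have h1 : p ^ 2 ∣ v := hv.2 p hpp hp2 (by
      rw [← hcs]
      exact Dvd.dvd.mul_left (hpt.trans ht) _)
    by_contra hpc
    have h2 : Nat.Coprime (p ^ 2) (c ^ 2) :=
      Nat.Coprime.pow 2 2 ((Nat.Prime.coprime_iff_not_dvd hpp).2 hpc)
    rw [← hcs] at h1
    have h3 : p ^ 2 ∣ s := h2.dvd_of_dvd_mul_left h1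
    exact hpp.one_lt.ne' (Nat.isUnit_iff.1 (hs p (by rw [← sq]; exact h3)))
  by_cases h2 : 2 ∣ s
  · obtain ⟨t, ht⟩ := h2
    have ht2 : ¬ 2 ∣ t := by
      intro h3
      have h4 : 2 * 2 ∣ s := by
        rw [ht]
        exact Nat.mul_dvd_mul_left 2 h3
      exact absurd (Nat.isUnit_iff.1 (hs 2 h4)) (by norm_num)
    obtain ⟨d, hd⟩ := hodd t ⟨2, by rw [ht]; ring⟩ ht2
    refine ⟨(2, d, t), Or.inr rfl, ?_, ?_, ?_⟩
    · rintro rfl
      exact hc0 (by rw [hd, mul_zero])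
    · rintro rfl
      exact hs0 (by rw [ht, mul_zero])
    · change v = 2 * (d ^ 2 * t ^ 3)
      rw [← hcs, hd, ht]
      ring
  · obtain ⟨d, hd⟩ := hodd s dvd_rfl h2
    refine ⟨(1, d, s), Or.inl rfl, ?_, hs0, ?_⟩
    · rintro rfl
      exact hc0 (by rw [hd, mul_zero])
    · change v = 1 * (d ^ 2 * s ^ 3)
      rw [← hcs, hd]
      ring

private theorem vsum_rad {v ε a b : ℕ} (hε : ε = 1 ∨ ε = 2) (ha : a ≠ 0) (hb : b ≠ 0)
    (h : v = ε * (a ^ 2 * b ^ 3)) : rad v ≤ 2 * a * b := by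
  have h1 : rad v ∣ ε * a * b := by
    unfold rad
    refine Finset.prod_primes_dvd _ (fun p hp => (Nat.prime_of_mem_primeFactors hp).prime) ?_
    intro p hp
    have hpp := Nat.prime_of_mem_primeFactors hp
    have hpv := Nat.dvd_of_mem_primeFactors hp
    rw [h] at hpv
    rcases (Nat.Prime.dvd_mul hpp).1 hpv with h2 | h2
    · exact (h2.mul_right a).mul_right b
    · rcases (Nat.Prime.dvd_mul hpp).1 h2 with h3 | h3
      · exact (Dvd.dvd.mul_left (hpp.dvd_of_dvd_pow h3) ε).mul_right b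
      · exact Dvd.dvd.mul_left (hpp.dvd_of_dvd_pow h3) _
  have h2 : ε ≤ 2 := by omega
  have h3 : 0 < ε * a * b := by
    have : 0 < ε := by omega
    positivity
  exact (Nat.le_of_dvd h3 h1).trans (Nat.mul_le_mul_right _ (Nat.mul_le_mul_right _ h2))

private theorem vsum_term {v ε a b : ℕ} (hε : ε = 1 ∨ ε = 2) (ha : a ≠ 0) (hb : b ≠ 0)
    (h : v = ε * (a ^ 2 * b ^ 3)) :
    (gg v : ℝ) ^ (-(3 / 4) : ℝ) * (rad v : ℝ) ^ (-(1 / 2) : ℝ) * (v : ℝ) ^ (1 / 16 : ℝ) ≤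
      2 * ((a : ℝ) ^ (-(9 / 8) : ℝ) * (b : ℝ) ^ (-(29 / 16) : ℝ)) := by
  have hv0 : v ≠ 0 := by
    rw [h]
    have : ε ≠ 0 := by omega
    positivity
  have hr : (0 : ℝ) < rad v := by exact_mod_cast rad_pos v
  have hg : (0 : ℝ) < gg v := by exact_mod_cast gg_pos hv0
  have ha' : (0 : ℝ) < a := by exact_mod_cast Nat.pos_of_ne_zero ha
  have hb' : (0 : ℝ) < b := by exact_mod_cast Nat.pos_of_ne_zero hb
  have hv' : (0 : ℝ) < v := by exact_mod_cast Nat.pos_of_ne_zero hv0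
  have hvr : (v : ℝ) = gg v * rad v := by exact_mod_cast (gg_mul_rad v).symm
  have e1 : (gg v : ℝ) = v * (rad v : ℝ)⁻¹ := by
    rw [hvr, mul_assoc, mul_inv_cancel₀ hr.ne', mul_one]
  have h1 : (gg v : ℝ) ^ (-(3 / 4) : ℝ) * (rad v : ℝ) ^ (-(1 / 2) : ℝ) * (v : ℝ) ^ (1 / 16 : ℝ) =
      (v : ℝ) ^ (-(11 / 16) : ℝ) * (rad v : ℝ) ^ (1 / 4 : ℝ) := by
    rw [e1, Real.mul_rpow hv'.le (inv_nonneg.2 hr.le), Real.inv_rpow hr.le, ← Real.rpow_neg hr.le]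
    have e2 : (v : ℝ) ^ (-(11 / 16) : ℝ) = (v : ℝ) ^ (-(3 / 4) : ℝ) * (v : ℝ) ^ (1 / 16 : ℝ) := by
      rw [← Real.rpow_add hv']
      norm_num
    have e3 : (rad v : ℝ) ^ (1 / 4 : ℝ) =
        (rad v : ℝ) ^ (-(-(3 / 4)) : ℝ) * (rad v : ℝ) ^ (-(1 / 2) : ℝ) := by
      rw [← Real.rpow_add hr]
      norm_num
    rw [e2, e3]
    ring
  rw [h1]
  have h2 : (rad v : ℝ) ≤ 2 * (a * b) := by
    have := vsum_rad hε ha hb h
    have h3 : (rad v : ℝ) ≤ ((2 * a * b : ℕ) : ℝ) := by exact_mod_cast this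
    push_cast at h3
    linarith
  have h3 : ((a : ℝ) ^ 2 * (b : ℝ) ^ 3) ≤ v := by
    have h4 : a ^ 2 * b ^ 3 ≤ v := by
      rw [h]
      exact Nat.le_mul_of_pos_left _ (by omega)
    exact_mod_cast h4
  have h4 : (v : ℝ) ^ (-(11 / 16) : ℝ) ≤ ((a : ℝ) ^ 2 * (b : ℝ) ^ 3) ^ (-(11 / 16) : ℝ) :=
    Real.rpow_le_rpow_of_nonpos (by positivity) h3 (by norm_num)
  have h5 : (rad v : ℝ) ^ (1 / 4 : ℝ) ≤ (2 * (a * b : ℝ)) ^ (1 / 4 : ℝ) :=
    Real.rpow_le_rpow hr.le h2 (by norm_num)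
  have h6 : ((a : ℝ) ^ 2 * (b : ℝ) ^ 3) ^ (-(11 / 16) : ℝ) =
      (a : ℝ) ^ (-(22 / 16) : ℝ) * (b : ℝ) ^ (-(33 / 16) : ℝ) := by
    rw [Real.mul_rpow (by positivity) (by positivity), ← Real.rpow_natCast, ← Real.rpow_natCast,
      ← Real.rpow_mul ha'.le, ← Real.rpow_mul hb'.le]
    norm_num
  have h7 : (2 * (a * b : ℝ)) ^ (1 / 4 : ℝ) ≤ 2 * ((a : ℝ) ^ (1 / 4 : ℝ) * (b : ℝ) ^ (1 / 4 : ℝ)) := by
    rw [Real.mul_rpow (by norm_num) (by positivity), Real.mul_rpow ha'.le hb'.le]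
    refine mul_le_mul_of_nonneg_right ?_ (by positivity)
    calc (2 : ℝ) ^ (1 / 4 : ℝ) ≤ (2 : ℝ) ^ (1 : ℝ) :=
          Real.rpow_le_rpow_of_exponent_le (by norm_num) (by norm_num)
      _ = 2 := Real.rpow_one 2
  calc (v : ℝ) ^ (-(11 / 16) : ℝ) * (rad v : ℝ) ^ (1 / 4 : ℝ) ≤
        ((a : ℝ) ^ (-(22 / 16) : ℝ) * (b : ℝ) ^ (-(33 / 16) : ℝ)) *
          (2 * ((a : ℝ) ^ (1 / 4 : ℝ) * (b : ℝ) ^ (1 / 4 : ℝ))) := by
        rw [← h6]
        exact mul_le_mul h4 (h5.trans h7) (by positivity) (by positivity)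
    _ = 2 * (((a : ℝ) ^ (-(22 / 16) : ℝ) * (a : ℝ) ^ (1 / 4 : ℝ)) *
          ((b : ℝ) ^ (-(33 / 16) : ℝ) * (b : ℝ) ^ (1 / 4 : ℝ))) := by ring
    _ = _ := by
        rw [← Real.rpow_add ha', ← Real.rpow_add hb']
        norm_num

open Classical in
/-- For `v ∈ V`: `v = g rad v` with `rad v = rad g` or `2 rad g`, so `v ↦ g` is at most two to one and `v ≤ 2 g²`. `g = s t²` with `s` squarefree, `s ≤ rad g`:
the term is `≤ 2 g^(-3/4 + 1/8) (rad g)^(-1/2) ≤ 2 s^(-9/8) t^(-5/4)`. -/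
theorem summable_V : Summable (fun v : ℕ => if VV v then
    (gg v : ℝ) ^ (-(3 / 4) : ℝ) * (rad v : ℝ) ^ (-(1 / 2) : ℝ) * (v : ℝ) ^ (1 / 16 : ℝ) else 0) := by
  have hab : Summable fun q : ℕ × ℕ =>
      (q.1 : ℝ) ^ (-(9 / 8) : ℝ) * (q.2 : ℝ) ^ (-(29 / 16) : ℝ) := by
    refine Summable.mul_of_nonneg (Real.summable_nat_rpow.2 (by norm_num))
      (Real.summable_nat_rpow.2 (by norm_num)) (fun _ => ?_) (fun _ => ?_)
    · positivity
    · positivity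
  choose φ hφ1 hφ2 hφ3 hφ4 using fun v : {v : ℕ // VV v} => vsum_repr v.2
  let ψ : {v : ℕ // VV v} → Bool × (ℕ × ℕ) := fun v => (decide ((φ v).1 = 1), (φ v).2)
  have hψ : Function.Injective ψ := by
    intro v w hvw
    have h1 : (φ v).2 = (φ w).2 := congrArg (fun q : Bool × (ℕ × ℕ) => q.2) hvw
    have h2 : decide ((φ v).1 = 1) = decide ((φ w).1 = 1) :=
      congrArg (fun q : Bool × (ℕ × ℕ) => q.1) hvw
    have h3 : (φ v).1 = (φ w).1 := by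
      rw [decide_eq_decide] at h2
      rcases hφ1 v with h4 | h4 <;> rcases hφ1 w with h5 | h5
      · rw [h4, h5]
      · have := h2.1 h4
        omega
      · have := h2.2 h5
        omega
      · rw [h4, h5]
    apply Subtype.ext
    rw [hφ4 v, hφ4 w, h1, h3]
  have hB : Summable fun q : Bool × (ℕ × ℕ) =>
      2 * ((q.2.1 : ℝ) ^ (-(9 / 8) : ℝ) * (q.2.2 : ℝ) ^ (-(29 / 16) : ℝ)) := by
    rw [summable_prod_of_nonneg (fun q => by positivity)]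
    exact ⟨fun _ => hab.mul_left 2, Summable.of_finite⟩
  have h1 : Summable fun v : {v : ℕ // VV v} =>
      (gg v.1 : ℝ) ^ (-(3 / 4) : ℝ) * (rad v.1 : ℝ) ^ (-(1 / 2) : ℝ) *
        ((v.1 : ℕ) : ℝ) ^ (1 / 16 : ℝ) := by
    refine Summable.of_nonneg_of_le (fun v => by positivity) (fun v => ?_)
      (hB.comp_injective hψ)
    exact vsum_term (hφ1 v) (hφ2 v) (hφ3 v) (hφ4 v)
  have h2 := (summable_subtype_iff_indicator (s := {v : ℕ | VV v}) (f := fun v : ℕ =>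
    (gg v : ℝ) ^ (-(3 / 4) : ℝ) * (rad v : ℝ) ^ (-(1 / 2) : ℝ) * (v : ℝ) ^ (1 / 16 : ℝ))).1 h1
  refine h2.congr fun v => ?_
  rw [Set.indicator_apply]
  rfl

/-- the divisor bound -/
theorem card_divisors_le : ∃ C : ℝ, 0 < C ∧ ∀ n : ℕ, 1 ≤ n → (n.divisors.card : ℝ) ≤ C * (n : ℝ) ^ (1 / 64 : ℝ) := by
  obtain ⟨K, hK, h⟩ := MP14ee70.card_divisors_le (1 / 64) (by norm_num)
  exact ⟨K, by linarith, fun n hn => h n (by omega)⟩

end Pool.Agent.MP_291b24_nt.Sm
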