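import Pool.Agent.Lib.MP_291b24_nt.Sm.Far
import Pool.Agent.Lib.MP_291b24_nt.Sm.SMB
import Pool.Agent.Lib.MP_291b24_nt.Sm.KerB
import Pool.Agent.Lib.MP_291b24_nt.Sm.VSum

/-! The frequencies near `b0` -/

set_option autoImplicit false

open Complex

namespace Pool.Agent.MP_291b24_nt.Sm

private theorem near_gcd {r : ℕ} (hr : r ≠ 0) (k : ℕ) :
    Real.sqrt (Nat.gcd k r : ℕ) ≤ ∑ e ∈ r.divisors, if e ∣ k then Real.sqrt (e : ℕ) else 0 := by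
  refine (le_of_eq ?_).trans (Finset.single_le_sum
    (f := fun e : ℕ => if e ∣ k then Real.sqrt (e : ℕ) else 0) (fun e _ => ?_)
    (Nat.mem_divisors.2 ⟨Nat.gcd_dvd_right k r, hr⟩))
  · change _ = if Nat.gcd k r ∣ k then Real.sqrt (Nat.gcd k r : ℕ) else 0
    rw [if_pos (Nat.gcd_dvd_left k r)]
  · change 0 ≤ if e ∣ k then Real.sqrt (e : ℕ) else 0
    split_ifs
    · exact Real.sqrt_nonneg _
    · exact le_rfl

private theorem near_count (N : ℕ) {e : ℕ} (he : 0 < e) :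
    ∑ k ∈ Finset.Ioc 0 N, (if e ∣ k then Real.sqrt (e : ℕ) else 0) ≤ (N : ℝ) := by
  have he' : (1 : ℝ) ≤ e := by exact_mod_cast he
  have he0 : (0 : ℝ) < e := by linarith
  rw [← Finset.sum_filter, Finset.sum_const, Nat.Ioc_filter_dvd_card_eq_div, nsmul_eq_mul]
  have h1 : ((N / e : ℕ) : ℝ) ≤ N / e := Nat.cast_div_le
  have h2 : Real.sqrt e ≤ e := by
    rw [Real.sqrt_le_left he0.le]
    nlinarith
  calc ((N / e : ℕ) : ℝ) * Real.sqrt e ≤ (N / e) * e := by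
        apply mul_le_mul h1 h2 (Real.sqrt_nonneg _) (by positivity)
    _ = N := by field_simp

private theorem near_side {r : ℕ} (hr : r ≠ 0) (N : ℕ) :
    ∑ k ∈ Finset.Ioc 0 N, Real.sqrt (Nat.gcd k r : ℕ) ≤ (N : ℝ) * (r.divisors.card : ℝ) := by
  refine (Finset.sum_le_sum fun k _ => near_gcd hr k).trans ?_
  rw [Finset.sum_comm]
  refine (Finset.sum_le_card_nsmul _ _ (N : ℝ) fun e he => ?_).trans (le_of_eq ?_)
  · exact near_count N (Nat.pos_of_mem_divisors he)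
  · rw [nsmul_eq_mul, mul_comm]

private theorem near_CN {D v c : ℕ} (hv : VV v) (k : ℤ) :
    ‖CN v ((b0 D v c : ℤ) + k)‖ ≤ 8 * Real.sqrt (rad v) * Real.sqrt (Nat.gcd k.natAbs (rad v) : ℕ) := by
  have h1 := norm_CN_le hv.1 ((b0 D v c : ℤ) + k)
  have h2 : Int.gcd ((b0 D v c : ℤ) + k) (rad v) ∣ Nat.gcd k.natAbs (rad v) := by
    have h3 : ((Int.gcd ((b0 D v c : ℤ) + k) (rad v) : ℕ) : ℤ) ∣ (rad v : ℤ) := Int.gcd_dvd_right _ _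
    have h4 : (rad v : ℤ) ∣ (b0 D v c : ℤ) := by
      exact_mod_cast (Dvd.intro_left 4 rfl).trans (four_rad_dvd_b0 hv D c)
    have h5 : ((Int.gcd ((b0 D v c : ℤ) + k) (rad v) : ℕ) : ℤ) ∣ k :=
      (dvd_add_right (h3.trans h4)).1 (Int.gcd_dvd_left _ _)
    refine Nat.dvd_gcd ?_ (by exact_mod_cast h3)
    exact Int.natCast_dvd.1 h5
  have h3 : Int.gcd ((b0 D v c : ℤ) + k) (rad v) ≤ Nat.gcd k.natAbs (rad v) :=
    Nat.le_of_dvd (Nat.gcd_pos_of_pos_right _ (rad_pos v)) h2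
  have h4 : Real.sqrt ((rad v : ℝ) * (Int.gcd ((b0 D v c : ℤ) + k) (rad v) : ℕ)) ≤
      Real.sqrt (rad v) * Real.sqrt (Nat.gcd k.natAbs (rad v) : ℕ) := by
    rw [← Real.sqrt_mul (Nat.cast_nonneg _)]
    apply Real.sqrt_le_sqrt
    apply mul_le_mul_of_nonneg_left _ (Nat.cast_nonneg _)
    exact_mod_cast h3
  calc _ ≤ 8 * Real.sqrt ((rad v : ℝ) * (Int.gcd ((b0 D v c : ℤ) + k) (rad v) : ℕ)) := h1
    _ ≤ 8 * (Real.sqrt (rad v) * Real.sqrt (Nat.gcd k.natAbs (rad v) : ℕ)) := by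
        apply mul_le_mul_of_nonneg_left h4 (by norm_num)
    _ = _ := by ring

private theorem near_abs {B : ℕ} (hB : 0 < B) {δ : ℝ} {b : ℤ}
    (h : |(b : ℝ) / (B : ℝ) - 1| < δ) : |(b : ℝ) - B| < δ * B := by
  have hB' : (0 : ℝ) < B := by exact_mod_cast hB
  have h1 : (b : ℝ) - B = ((b : ℝ) / B - 1) * B := by
    field_simp
  rw [h1, abs_mul, abs_of_pos hB']
  exact mul_lt_mul_of_pos_right h hB'

open Classical in
/-- `b ≠ b0`, `|b - b0| < δ b0`: `rad v ∣ b0` (`four_rad_dvd_b0`), so `e ∣ rad v`, `e ∣ b` imply `|b - b0| ≥ e`; at most `2 δ b0 / e` such `b`;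
`√gcd ≤ ∑_{e ∣ gcd} √e`. -/
theorem sum_CN {D v c : ℕ} (hD : 1 ≤ D) (hv : VV v) {δ : ℝ} (hδ : 0 < δ) (hδ1 : δ ≤ 1 / 2) :
    ∑' b : ℤ, (if b ≠ (b0 D v c : ℤ) ∧ |(b : ℝ) / (b0 D v c : ℝ) - 1| < δ then ‖CN v b‖ else 0) ≤
      16 * δ * (b0 D v c : ℝ) * Real.sqrt (rad v) * ((rad v).divisors.card : ℝ) ∧
    ((b0 D v c : ℝ) * δ < 1 → ∀ b : ℤ, b ≠ (b0 D v c : ℤ) → ¬ |(b : ℝ) / (b0 D v c : ℝ) - 1| < δ) := by
  have hB : 0 < b0 D v c := b0_pos hv.1 hD c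
  have hB' : (0 : ℝ) < (b0 D v c : ℝ) := by exact_mod_cast hB
  refine ⟨?_, ?_⟩
  · obtain ⟨N, hN⟩ : ∃ N : ℕ, N = ⌊δ * (b0 D v c : ℝ)⌋₊ := ⟨_, rfl⟩
    have hN1 : (N : ℝ) ≤ δ * (b0 D v c : ℝ) := by
      rw [hN]
      exact Nat.floor_le (by positivity)
    obtain ⟨f, hf⟩ : ∃ f : ℤ → ℝ, f = fun b : ℤ => (if b ≠ (b0 D v c : ℤ) ∧
      |(b : ℝ) / (b0 D v c : ℝ) - 1| < δ then ‖CN v b‖ else 0) := ⟨_, rfl⟩
    have hf0 : ∀ b, 0 ≤ f b := by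
      intro b
      rw [hf]
      change 0 ≤ (if b ≠ (b0 D v c : ℤ) ∧ |(b : ℝ) / (b0 D v c : ℝ) - 1| < δ then ‖CN v b‖ else 0)
      split_ifs
      · exact norm_nonneg _
      · exact le_rfl
    have hf1 : ∀ b, f b ≤ ‖CN v b‖ := by
      intro b
      rw [hf]
      change (if b ≠ (b0 D v c : ℤ) ∧ |(b : ℝ) / (b0 D v c : ℝ) - 1| < δ then ‖CN v b‖ else 0) ≤ _
      split_ifs
      · exact le_rfl
      · exact norm_nonneg _
    obtain ⟨S1, hS1⟩ : ∃ S1 : Finset ℤ, S1 = (Finset.Ioc 0 N).image fun k : ℕ => (b0 D v c : ℤ) + k :=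
      ⟨_, rfl⟩
    obtain ⟨S2, hS2⟩ : ∃ S2 : Finset ℤ, S2 = (Finset.Ioc 0 N).image fun k : ℕ => (b0 D v c : ℤ) + -k :=
      ⟨_, rfl⟩
    have hsupp : ∀ b ∉ S1 ∪ S2, f b = 0 := by
      intro b hb
      rw [hf]
      change (if b ≠ (b0 D v c : ℤ) ∧ |(b : ℝ) / (b0 D v c : ℝ) - 1| < δ then ‖CN v b‖ else 0) = _
      rw [if_neg]
      rintro ⟨h1, h2⟩
      apply hb
      have h3 := near_abs hB h2
      have h4 : (b - (b0 D v c : ℤ)).natAbs ∈ Finset.Ioc 0 N := by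
        rw [Finset.mem_Ioc]
        refine ⟨Int.natAbs_pos.2 (sub_ne_zero.2 h1), ?_⟩
        rw [hN]
        apply Nat.le_floor
        rw [Nat.cast_natAbs, Int.cast_abs]
        push_cast
        exact h3.le
      rw [Finset.mem_union, hS1, hS2, Finset.mem_image, Finset.mem_image]
      rcases le_total 0 (b - (b0 D v c : ℤ)) with h5 | h5
      · left
        refine ⟨_, h4, ?_⟩
        rw [Int.natAbs_of_nonneg h5]
        ring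
      · right
        refine ⟨_, h4, ?_⟩
        rw [Int.ofNat_natAbs_of_nonpos h5]
        ring
    have h1 : ∑' b, f b = ∑ b ∈ S1 ∪ S2, f b := tsum_eq_sum hsupp
    have h2 : ∑ b ∈ S1 ∪ S2, f b ≤ ∑ b ∈ S1, f b + ∑ b ∈ S2, f b := by
      rw [← Finset.sum_union_inter]
      exact le_add_of_nonneg_right (Finset.sum_nonneg fun b _ => hf0 b)
    have h3 : ∑ b ∈ S1, f b ≤ 8 * Real.sqrt (rad v) * ((N : ℝ) * ((rad v).divisors.card : ℝ)) := by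
      rw [hS1, Finset.sum_image fun x _ y _ h => by
        have h' : (x : ℤ) = y := add_left_cancel h
        exact_mod_cast h']
      refine (Finset.sum_le_sum fun (k : ℕ) _ => (hf1 _).trans (near_CN (D := D) (c := c) hv (k : ℤ))).trans ?_
      rw [← Finset.mul_sum]
      apply mul_le_mul_of_nonneg_left _ (by positivity)
      exact near_side (rad_pos v).ne' N
    have h4 : ∑ b ∈ S2, f b ≤ 8 * Real.sqrt (rad v) * ((N : ℝ) * ((rad v).divisors.card : ℝ)) := by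
      rw [hS2, Finset.sum_image fun x _ y _ h => by
        have h' : (-x : ℤ) = -y := add_left_cancel h
        exact_mod_cast neg_injective h']
      refine (Finset.sum_le_sum fun (k : ℕ) _ => (hf1 _).trans (near_CN (D := D) (c := c) hv (-(k : ℤ)))).trans ?_
      rw [← Finset.mul_sum]
      apply mul_le_mul_of_nonneg_left _ (by positivity)
      simp only [Int.natAbs_neg, Int.natAbs_natCast]
      exact near_side (rad_pos v).ne' N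
    have h5 : ∑' b : ℤ, (if b ≠ (b0 D v c : ℤ) ∧ |(b : ℝ) / (b0 D v c : ℝ) - 1| < δ then ‖CN v b‖ else 0) =
        ∑' b, f b := by
      rw [hf]
    rw [h5, h1]
    have h6 : (N : ℝ) * ((rad v).divisors.card : ℝ) ≤
        δ * (b0 D v c : ℝ) * ((rad v).divisors.card : ℝ) :=
      mul_le_mul_of_nonneg_right hN1 (Nat.cast_nonneg _)
    have h7 : 8 * Real.sqrt (rad v) * ((N : ℝ) * ((rad v).divisors.card : ℝ)) ≤
        8 * Real.sqrt (rad v) * (δ * (b0 D v c : ℝ) * ((rad v).divisors.card : ℝ)) :=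
      mul_le_mul_of_nonneg_left h6 (by positivity)
    calc _ ≤ 8 * Real.sqrt (rad v) * (δ * (b0 D v c : ℝ) * ((rad v).divisors.card : ℝ)) +
          8 * Real.sqrt (rad v) * (δ * (b0 D v c : ℝ) * ((rad v).divisors.card : ℝ)) := by linarith
      _ = _ := by ring
  · intro h b hb h1
    have h2 := near_abs hB h1
    have h3 : (1 : ℝ) ≤ |(b : ℝ) - (b0 D v c : ℝ)| := by
      have h4 : (1 : ℤ) ≤ |b - (b0 D v c : ℤ)| := Int.one_le_abs (sub_ne_zero.2 hb)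
      have h5 : ((1 : ℤ) : ℝ) ≤ ((|b - (b0 D v c : ℤ)| : ℤ) : ℝ) := Int.cast_le.2 h4
      push_cast at h5
      exact h5
    linarith

private theorem near_nice {K : ℕ} (hK : 16 ≤ K) {δ ρ : ℝ} (h1 : (Real.sqrt K)⁻¹ ≤ δ)
    (h2 : δ ≤ 1 / 2) (h3 : |ρ - 1| ≤ δ) : Nice (Fk K ρ) := by
  obtain ⟨C, hC, h⟩ := Fk_near
  obtain ⟨C', hC', h'⟩ := Fk_dec
  obtain ⟨a, b, c, _, _⟩ := h K hK δ h1 h2 ρ h3
  exact ⟨contDiff_Fk K ρ, ⟨C' * Real.sqrt K * ((1 + |ρ|) ^ 2)⁻¹, fun x => h' K (by omega) ρ x⟩,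
    a, b, c⟩

private theorem near_cf {v D c : ℕ} (hv : v ≠ 0) :
    |cf v c| * (b0 D v c : ℝ) ≤ 48 * D * (Real.sqrt v)⁻¹ := by
  have h1 : |(kap v c : ℝ)| ≤ 3 := by
    unfold kap
    split_ifs <;> norm_num
  have h2 : |((ArithmeticFunction.moebius (rad v) : ℤ) : ℝ)| ≤ 1 := by
    exact_mod_cast ArithmeticFunction.abs_moebius_le_one
  have hg0 : (0 : ℝ) < gg v := by exact_mod_cast gg_pos hv
  have h3 : |(kap v c : ℝ)| * |((ArithmeticFunction.moebius (rad v) : ℤ) : ℝ)| ≤ 3 := by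
    calc _ ≤ (3 : ℝ) * 1 := mul_le_mul h1 h2 (abs_nonneg _) (by norm_num)
      _ = 3 := by norm_num
  have h4 : |cf v c| ≤ 3 * ((4 : ℝ) ^ c)⁻¹ * (Real.sqrt v)⁻¹ * ((gg v : ℝ))⁻¹ := by
    unfold cf
    rw [abs_mul, abs_mul, abs_mul, abs_mul, abs_of_nonneg (by positivity : 0 ≤ ((4 : ℝ) ^ c)⁻¹),
      abs_of_nonneg (by positivity : 0 ≤ (Real.sqrt v)⁻¹),
      abs_of_nonneg (by positivity : 0 ≤ ((gg v : ℝ))⁻¹)]
    gcongr
  have h7 : (b0 D v c : ℝ) = (4 : ℝ) ^ c * gg v * (16 * D) := by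
    unfold b0
    push_cast
    ring
  calc |cf v c| * (b0 D v c : ℝ) ≤
        3 * ((4 : ℝ) ^ c)⁻¹ * (Real.sqrt v)⁻¹ * ((gg v : ℝ))⁻¹ * (b0 D v c : ℝ) :=
        mul_le_mul_of_nonneg_right h4 (by positivity)
    _ = _ := by
        rw [h7]
        field_simp
        ring

private theorem near_delta {K : ℕ} (hK : 16 ≤ K) :
    (Real.sqrt K)⁻¹ ≤ (K : ℝ) ^ (-(17 / 36) : ℝ) ∧ (K : ℝ) ^ (-(17 / 36) : ℝ) ≤ 1 / 2 ∧
      1 ≤ (K : ℝ) * (K : ℝ) ^ (-(17 / 36) : ℝ) := by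
  have hK1 : (16 : ℝ) ≤ K := by exact_mod_cast hK
  have hK0 : (0 : ℝ) < K := by linarith
  refine ⟨?_, ?_, ?_⟩
  · rw [Real.sqrt_eq_rpow, ← Real.rpow_neg hK0.le]
    exact Real.rpow_le_rpow_of_exponent_le (by linarith) (by norm_num)
  · have h6 : (K : ℝ) ^ (-(17 / 36) : ℝ) ≤ (16 : ℝ) ^ (-(17 / 36) : ℝ) :=
      Real.rpow_le_rpow_of_nonpos (by norm_num) hK1 (by norm_num)
    have h7 : (16 : ℝ) ^ (-(17 / 36) : ℝ) ≤ (16 : ℝ) ^ (-(1 / 4) : ℝ) :=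
      Real.rpow_le_rpow_of_exponent_le (by norm_num) (by norm_num)
    have h8 : (16 : ℝ) ^ (-(1 / 4) : ℝ) = 1 / 2 := by
      rw [show (16 : ℝ) = 2 ^ (4 : ℝ) by norm_num, ← Real.rpow_mul (by norm_num)]
      norm_num
    linarith
  · have h1 : (K : ℝ) * (K : ℝ) ^ (-(17 / 36) : ℝ) = (K : ℝ) ^ (19 / 36 : ℝ) := by
      nth_rewrite 1 [← Real.rpow_one (K : ℝ)]
      rw [← Real.rpow_add hK0]
      norm_num
    rw [h1]
    exact Real.one_le_rpow (by linarith) (by norm_num)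

/-- the exponent of `K` -/
private theorem near_K {K : ℕ} (hK : 16 ≤ K) {ε' : ℝ} (hε : 0 < ε') (hε2 : ε' ≤ 1 / 256) :
    (K : ℝ) ^ (-(17 / 36) : ℝ) * ((K : ℝ) ^ (-(17 / 36) : ℝ)) ^ (1 / 4 : ℝ) *
      ((K : ℝ) * (K : ℝ) ^ (-(17 / 36) : ℝ)) ^ (1 + ε') ≤ (K : ℝ) ^ (-(1 / 32) : ℝ) := by
  have hK1 : (16 : ℝ) ≤ K := by exact_mod_cast hK
  have hK0 : (0 : ℝ) < K := by linarith
  have h1 : (K : ℝ) * (K : ℝ) ^ (-(17 / 36) : ℝ) = (K : ℝ) ^ (19 / 36 : ℝ) := by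
    nth_rewrite 1 [← Real.rpow_one (K : ℝ)]
    rw [← Real.rpow_add hK0]
    norm_num
  rw [h1, ← Real.rpow_mul hK0.le, ← Real.rpow_mul hK0.le, ← Real.rpow_add hK0, ← Real.rpow_add hK0]
  apply Real.rpow_le_rpow_of_exponent_le (by linarith)
  nlinarith

/-- one near frequency -/
private theorem near_one {σ₀ ε' : ℝ} (h1 : 1 / 2 ≤ σ₀) (h2 : σ₀ ≤ 1) (hε : 0 < ε')
    (hε2 : ε' ≤ 1 / 256) (hZ : ZZ σ₀) {D : ℕ} (hD : 1 ≤ D) :
    ∃ C : ℝ, 0 < C ∧ ∀ K : ℕ, 16 ≤ K → ∀ X : ℝ, 2 ≤ X → ∀ v c : ℕ, VV v → c < 3 → ∀ b : ℤ,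
      |(b : ℝ) / (b0 D v c : ℝ) - 1| < (K : ℝ) ^ (-(17 / 36) : ℝ) →
      ‖trm K D X v c b‖ ≤ |cf v c| * (C * ((K : ℝ) * (K : ℝ) ^ (-(17 / 36) : ℝ)) ^ (1 + ε') *
        X ^ (σ₀ + ε') * (Real.sqrt v)⁻¹ * (v : ℝ) ^ (3 / 128 : ℝ)) * ‖CN v b‖ := by
  obtain ⟨C₁, hC₁, hF⟩ := Fk_near
  obtain ⟨C₂, hC₂, hS⟩ := SMB h1 h2 hε (by linarith) hZ
  have hD0 : (0 : ℝ) < D := by exact_mod_cast hD
  have hD1 : (1 : ℝ) ≤ D := by exact_mod_cast hD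
  refine ⟨C₂ * C₁ * (4 * D) ^ 2 * (512 * D), by positivity, ?_⟩
  intro K hK X hX v c hv hc b hb
  have hX0 : 0 < X := by linarith
  have hv0 : (0 : ℝ) < v := by exact_mod_cast Nat.pos_of_ne_zero hv.1
  have hv1 : (1 : ℝ) ≤ v := by exact_mod_cast Nat.pos_of_ne_zero hv.1
  have hB : 0 < b0 D v c := b0_pos hv.1 hD c
  have hB' : (0 : ℝ) < (b0 D v c : ℝ) := by exact_mod_cast hB
  obtain ⟨hd1, hd2, hd3⟩ := near_delta hK
  have h3 := near_abs hB hb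
  rw [abs_lt] at h3
  have hb0 : (0 : ℝ) < b := by nlinarith
  have hbi : 0 < b := by exact_mod_cast hb0
  have hb2 : (b : ℝ) ≤ 2 * (b0 D v c : ℝ) := by nlinarith
  obtain ⟨m, rfl⟩ : ∃ m : ℕ, b = m := ⟨b.toNat, (Int.toNat_of_nonneg hbi.le).symm⟩
  have hm : 1 ≤ m * gg v := by
    have := gg_pos hv.1
    have h4 : 0 < m := by exact_mod_cast hbi
    exact Nat.mul_pos h4 this
  obtain ⟨_, _, _, hI0, hI2⟩ := hF K hK _ hd1 hd2 _ hb.le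
  have h4 := hS (m * gg v) v (Fk K (((m : ℤ) : ℝ) / (b0 D v c : ℝ))) C₁
    ((K : ℝ) * (K : ℝ) ^ (-(17 / 36) : ℝ)) (4 * D * X / v) hm (Nat.pos_of_ne_zero hv.1)
    (near_nice hK hd1 hd2 hb.le) (by positivity) hC₁.le hd3 hI0 hI2
  have e1 : (((m * gg v : ℕ) : ℤ)) = (m : ℤ) * (gg v : ℤ) := by push_cast; rfl
  rw [e1] at h4
  -- the two factors
  have h5 : (4 * (D : ℝ) * X / v) ^ (σ₀ + ε') ≤ (4 * D) ^ 2 * X ^ (σ₀ + ε') * (Real.sqrt v)⁻¹ := by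
    have e2 : 4 * (D : ℝ) * X / v = (4 * D) * X * (v : ℝ)⁻¹ := by ring
    rw [e2, Real.mul_rpow (by positivity) (by positivity), Real.mul_rpow (by positivity) hX0.le]
    have h6 : (4 * (D : ℝ)) ^ (σ₀ + ε') ≤ (4 * (D : ℝ)) ^ 2 := by
      rw [← Real.rpow_natCast (4 * (D : ℝ)) 2]
      exact Real.rpow_le_rpow_of_exponent_le (by linarith) (by push_cast; linarith)
    have h7 : ((v : ℝ)⁻¹) ^ (σ₀ + ε') ≤ (Real.sqrt v)⁻¹ := by
      have h8 : (Real.sqrt v)⁻¹ = ((v : ℝ)⁻¹) ^ (1 / 2 : ℝ) := by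
        rw [Real.sqrt_eq_rpow, Real.inv_rpow hv0.le]
      rw [h8]
      exact Real.rpow_le_rpow_of_exponent_ge (by positivity) (inv_le_one_of_one_le₀ hv1)
        (by linarith)
    have h9 : 0 ≤ X ^ (σ₀ + ε') := Real.rpow_nonneg hX0.le _
    have h10 : 0 ≤ ((v : ℝ)⁻¹) ^ (σ₀ + ε') := Real.rpow_nonneg (by positivity) _
    gcongr
  have h6 : (((m * gg v : ℕ) : ℝ) * v) ^ (2 * ε') ≤ 512 * D * (v : ℝ) ^ (3 / 128 : ℝ) := by
    have hg1 : (gg v : ℝ) ≤ v := by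
      have : gg v ≤ v := Nat.div_le_self _ _
      exact_mod_cast this
    have hg0 : (0 : ℝ) ≤ gg v := Nat.cast_nonneg _
    have h4c : (4 : ℝ) ^ c ≤ 16 := by
      calc (4 : ℝ) ^ c ≤ (4 : ℝ) ^ 2 := pow_le_pow_right₀ (by norm_num) (by omega)
        _ = 16 := by norm_num
    have hb3 : (b0 D v c : ℝ) ≤ 256 * D * v := by
      have h7 : (b0 D v c : ℝ) = (4 : ℝ) ^ c * gg v * (16 * D) := by
        unfold b0
        push_cast
        ring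
      rw [h7]
      calc (4 : ℝ) ^ c * gg v * (16 * D) ≤ 16 * v * (16 * D) := by gcongr
        _ = 256 * D * v := by ring
    have h7 : ((m * gg v : ℕ) : ℝ) * v ≤ 512 * D * (v : ℝ) ^ 3 := by
      push_cast
      have h8 : (m : ℝ) ≤ 2 * (256 * D * v) := by
        have h9 : ((m : ℤ) : ℝ) = (m : ℝ) := Int.cast_natCast m
        rw [h9] at hb2
        linarith
      calc (m : ℝ) * gg v * v ≤ (2 * (256 * D * v)) * v * v := by gcongr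
        _ = 512 * D * (v : ℝ) ^ 3 := by ring
    calc (((m * gg v : ℕ) : ℝ) * v) ^ (2 * ε') ≤ (512 * D * (v : ℝ) ^ 3) ^ (2 * ε') :=
          Real.rpow_le_rpow (by positivity) h7 (by linarith)
      _ = (512 * (D : ℝ)) ^ (2 * ε') * (v : ℝ) ^ (3 * (2 * ε')) := by
          rw [Real.mul_rpow (by positivity) (by positivity), ← Real.rpow_natCast (v : ℝ) 3,
            ← Real.rpow_mul hv0.le]
          push_cast
          rfl
      _ ≤ (512 * (D : ℝ)) ^ (1 : ℝ) * (v : ℝ) ^ (3 / 128 : ℝ) := by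
          have h8 : (512 * (D : ℝ)) ^ (2 * ε') ≤ (512 * (D : ℝ)) ^ (1 : ℝ) :=
            Real.rpow_le_rpow_of_exponent_le (by linarith) (by linarith)
          have h9 : (v : ℝ) ^ (3 * (2 * ε')) ≤ (v : ℝ) ^ (3 / 128 : ℝ) :=
            Real.rpow_le_rpow_of_exponent_le hv1 (by linarith)
          exact mul_le_mul h8 h9 (Real.rpow_nonneg hv0.le _) (Real.rpow_nonneg (by positivity) _)
      _ = _ := by rw [Real.rpow_one]
  have hR0 : 0 ≤ ((K : ℝ) * (K : ℝ) ^ (-(17 / 36) : ℝ)) ^ (1 + ε') :=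
    Real.rpow_nonneg (by linarith) _
  have hY0 : 0 ≤ (4 * (D : ℝ) * X / v) ^ (σ₀ + ε') := Real.rpow_nonneg (by positivity) _
  have hM0 : 0 ≤ (((m * gg v : ℕ) : ℝ) * v) ^ (2 * ε') := Real.rpow_nonneg (by positivity) _
  have h7 : ‖SU ((m : ℤ) * (gg v : ℤ)) v (Fk K (((m : ℤ) : ℝ) / (b0 D v c : ℝ))) (4 * D * X / v)‖ ≤
      C₂ * C₁ * (4 * D) ^ 2 * (512 * D) * ((K : ℝ) * (K : ℝ) ^ (-(17 / 36) : ℝ)) ^ (1 + ε') *
        X ^ (σ₀ + ε') * (Real.sqrt v)⁻¹ * (v : ℝ) ^ (3 / 128 : ℝ) := by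
    refine h4.trans ?_
    calc C₂ * C₁ * ((K : ℝ) * (K : ℝ) ^ (-(17 / 36) : ℝ)) ^ (1 + ε') *
          (4 * (D : ℝ) * X / v) ^ (σ₀ + ε') * (((m * gg v : ℕ) : ℝ) * v) ^ (2 * ε') ≤
          C₂ * C₁ * ((K : ℝ) * (K : ℝ) ^ (-(17 / 36) : ℝ)) ^ (1 + ε') *
          ((4 * D) ^ 2 * X ^ (σ₀ + ε') * (Real.sqrt v)⁻¹) * (512 * D * (v : ℝ) ^ (3 / 128 : ℝ)) := by
          gcongr
      _ = _ := by ring
  unfold trm
  rw [norm_mul, norm_mul, Complex.norm_real, Real.norm_eq_abs]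
  calc |cf v c| * ‖CN v (m : ℤ)‖ *
        ‖SU ((m : ℤ) * (gg v : ℤ)) v (Fk K (((m : ℤ) : ℝ) / (b0 D v c : ℝ))) (4 * D * X / v)‖ ≤
        |cf v c| * ‖CN v (m : ℤ)‖ * (C₂ * C₁ * (4 * D) ^ 2 * (512 * D) *
          ((K : ℝ) * (K : ℝ) ^ (-(17 / 36) : ℝ)) ^ (1 + ε') *
          X ^ (σ₀ + ε') * (Real.sqrt v)⁻¹ * (v : ℝ) ^ (3 / 128 : ℝ)) :=
        mul_le_mul_of_nonneg_left h7 (by positivity)
    _ = _ := by ring

open Classical in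
/-- `SMB` with `F = Fk K (b / b0)`, `m = b g` (`b > 0`), `R = K δ` (times a constant), `δ = K^(-17/36)`, `Y = 4 D X / v`, and `Fk_near`;
`sum_CN`, `card_divisors_le`; `(b0 δ)^(1/4) ≥ 1` if the sum is not empty; `v = g rad v`. The exponent of `K` is
`(1/2 + 1/36)(1 + ε') - (5/4)(17/36) ≤ -1/16 + ε'`; the exponents of `v`: `v^(-1/2 - σ₀ - ε') √(rad v) g^(1/4) v^(1/64) (b g v)^(2ε')`, `b g v ≤ C_D v³`, `σ₀ ≥ 1/2`. -/
theorem near_sum {σ₀ ε' : ℝ} (h1 : 1 / 2 ≤ σ₀) (h2 : σ₀ ≤ 1) (hε : 0 < ε') (hε2 : ε' ≤ 1 / 256) (hZ : ZZ σ₀) {D : ℕ} (hD : 1 ≤ D) :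
    ∃ C : ℝ, 0 < C ∧ ∀ K : ℕ, 16 ≤ K → ∀ X : ℝ, 2 ≤ X → ∀ v c : ℕ, VV v → c < 3 →
      ∑' b : ℤ, (if b ≠ (b0 D v c : ℤ) ∧ |(b : ℝ) / (b0 D v c : ℝ) - 1| < (K : ℝ) ^ (-(17 / 36) : ℝ) then ‖trm K D X v c b‖ else 0) ≤
        C * X ^ (σ₀ + ε') * (K : ℝ) ^ (-(1 / 32) : ℝ) *
          ((gg v : ℝ) ^ (-(3 / 4) : ℝ) * (rad v : ℝ) ^ (-(1 / 2) : ℝ) * (v : ℝ) ^ (1 / 16 : ℝ)) := by
  obtain ⟨C₁, hC₁, hO⟩ := near_one h1 h2 hε hε2 hZ hD
  obtain ⟨C₃, hC₃, hDiv⟩ := card_divisors_le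
  have hD0 : (0 : ℝ) < D := by exact_mod_cast hD
  have hD1 : (1 : ℝ) ≤ D := by exact_mod_cast hD
  refine ⟨48 * D * C₁ * 16 * C₃ * (256 * D), by positivity, ?_⟩
  intro K hK X hX v c hv hc
  have hX0 : 0 < X := by linarith
  have hK1 : (16 : ℝ) ≤ K := by exact_mod_cast hK
  have hK0 : (0 : ℝ) < K := by linarith
  have hv0 : (0 : ℝ) < v := by exact_mod_cast Nat.pos_of_ne_zero hv.1
  have hv1 : (1 : ℝ) ≤ v := by exact_mod_cast Nat.pos_of_ne_zero hv.1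
  have hB : 0 < b0 D v c := b0_pos hv.1 hD c
  have hB' : (0 : ℝ) < (b0 D v c : ℝ) := by exact_mod_cast hB
  have hg0 : (0 : ℝ) < gg v := by exact_mod_cast gg_pos hv.1
  have hr0 : (0 : ℝ) < rad v := by exact_mod_cast rad_pos v
  have hr1 : (1 : ℝ) ≤ rad v := by exact_mod_cast rad_pos v
  have hgr : (gg v : ℝ) * rad v = v := by exact_mod_cast gg_mul_rad v
  obtain ⟨hd1, hd2, hd3⟩ := near_delta hK
  have hKe := near_K hK hε hε2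
  have hδ0 : 0 < (K : ℝ) ^ (-(17 / 36) : ℝ) := Real.rpow_pos_of_pos hK0 _
  have hO' := hO K hK X hX v c hv hc
  obtain ⟨δ, hδ⟩ : ∃ δ : ℝ, δ = (K : ℝ) ^ (-(17 / 36) : ℝ) := ⟨_, rfl⟩
  rw [← hδ] at hd1 hd2 hd3 hKe hδ0 hO' ⊢
  obtain ⟨U, hU⟩ : ∃ U : ℝ, U = C₁ * ((K : ℝ) * δ) ^ (1 + ε') * X ^ (σ₀ + ε') * (Real.sqrt v)⁻¹ *
    (v : ℝ) ^ (3 / 128 : ℝ) := ⟨_, rfl⟩
  rw [← hU] at hO'
  have hXp : 0 ≤ X ^ (σ₀ + ε') := Real.rpow_nonneg hX0.le _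
  have hRp : 0 ≤ ((K : ℝ) * δ) ^ (1 + ε') := Real.rpow_nonneg (by linarith) _
  have hvp : 0 ≤ (v : ℝ) ^ (3 / 128 : ℝ) := Real.rpow_nonneg hv0.le _
  have hU0 : 0 ≤ U := by
    rw [hU]
    positivity
  obtain ⟨hs1, hs2⟩ := sum_CN (c := c) hD hv hδ0 hd2
  have hR0 : 0 ≤ 48 * D * C₁ * 16 * C₃ * (256 * D) * X ^ (σ₀ + ε') * (K : ℝ) ^ (-(1 / 32) : ℝ) *
      ((gg v : ℝ) ^ (-(3 / 4) : ℝ) * (rad v : ℝ) ^ (-(1 / 2) : ℝ) * (v : ℝ) ^ (1 / 16 : ℝ)) := by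
    have := Real.rpow_nonneg hK0.le (-(1 / 32) : ℝ)
    have := Real.rpow_nonneg hg0.le (-(3 / 4) : ℝ)
    have := Real.rpow_nonneg hr0.le (-(1 / 2) : ℝ)
    have := Real.rpow_nonneg hv0.le (1 / 16 : ℝ)
    positivity
  rcases lt_or_ge ((b0 D v c : ℝ) * δ) 1 with hcase | hcase
  · -- no near frequency
    have h3 : ∀ b : ℤ, (if b ≠ (b0 D v c : ℤ) ∧ |(b : ℝ) / (b0 D v c : ℝ) - 1| < δ then
        ‖trm K D X v c b‖ else 0) = 0 := by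
      intro b
      rw [if_neg]
      rintro ⟨h4, h5⟩
      exact hs2 hcase b h4 h5
    rw [tsum_congr h3, tsum_zero]
    exact hR0
  · have hfin : {b : ℤ | |(b : ℝ) / (b0 D v c : ℝ) - 1| < δ}.Finite := by
      refine (Set.finite_Icc (-(2 * (b0 D v c : ℤ))) (2 * (b0 D v c : ℤ))).subset fun b hb => ?_
      have h3 := near_abs hB hb
      rw [abs_lt] at h3
      rw [Set.mem_Icc]
      constructor
      · have h4 : ((-(2 * (b0 D v c : ℤ)) : ℤ) : ℝ) ≤ (b : ℝ) := by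
          push_cast
          nlinarith
        exact_mod_cast h4
      · have h4 : (b : ℝ) ≤ ((2 * (b0 D v c : ℤ) : ℤ) : ℝ) := by
          push_cast
          nlinarith
        exact_mod_cast h4
    have hsm : ∀ g : ℤ → ℝ, Summable fun b : ℤ => (if b ≠ (b0 D v c : ℤ) ∧
        |(b : ℝ) / (b0 D v c : ℝ) - 1| < δ then g b else 0) := by
      intro g
      refine summable_of_hasFiniteSupport (hfin.subset fun b hb => ?_)
      by_contra h4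
      apply hb
      change (if b ≠ (b0 D v c : ℤ) ∧ |(b : ℝ) / (b0 D v c : ℝ) - 1| < δ then g b else 0) = _
      rw [if_neg fun h5 => h4 h5.2]
    have h3 : ∑' b : ℤ, (if b ≠ (b0 D v c : ℤ) ∧ |(b : ℝ) / (b0 D v c : ℝ) - 1| < δ then
        ‖trm K D X v c b‖ else 0) ≤ ∑' b : ℤ, |cf v c| * U *
        (if b ≠ (b0 D v c : ℤ) ∧ |(b : ℝ) / (b0 D v c : ℝ) - 1| < δ then ‖CN v b‖ else 0) := by
      refine (hsm _).tsum_le_tsum (fun b => ?_) ((hsm _).mul_left _)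
      split_ifs with h4
      · exact hO' b h4.2
      · rw [mul_zero]
    rw [tsum_mul_left] at h3
    have h4 : |cf v c| * U * ∑' b : ℤ, (if b ≠ (b0 D v c : ℤ) ∧
        |(b : ℝ) / (b0 D v c : ℝ) - 1| < δ then ‖CN v b‖ else 0) ≤
        |cf v c| * U * (16 * δ * (b0 D v c : ℝ) * Real.sqrt (rad v) * ((rad v).divisors.card : ℝ)) :=
      mul_le_mul_of_nonneg_left hs1 (by positivity)
    refine (h3.trans h4).trans ?_
    -- the factors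
    have f1 := near_cf (D := D) (c := c) hv.1
    have f2 : ((rad v).divisors.card : ℝ) ≤ C₃ * (v : ℝ) ^ (1 / 64 : ℝ) := by
      refine (hDiv (rad v) (rad_pos v)).trans ?_
      apply mul_le_mul_of_nonneg_left _ hC₃.le
      apply Real.rpow_le_rpow hr0.le _ (by norm_num)
      have : rad v ≤ v := Nat.le_of_dvd (Nat.pos_of_ne_zero hv.1) (rad_dvd v)
      exact_mod_cast this
    have f3 : (Real.sqrt v)⁻¹ * (Real.sqrt v)⁻¹ * Real.sqrt (rad v) =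
        (gg v : ℝ)⁻¹ * (rad v : ℝ) ^ (-(1 / 2) : ℝ) := by
      have h5 : (Real.sqrt v)⁻¹ * (Real.sqrt v)⁻¹ = (v : ℝ)⁻¹ := by
        rw [← mul_inv, Real.mul_self_sqrt hv0.le]
      have h6 : (rad v : ℝ) ^ (-(1 / 2) : ℝ) = (Real.sqrt (rad v))⁻¹ := by
        rw [Real.rpow_neg hr0.le, Real.sqrt_eq_rpow]
      have h7 : (rad v : ℝ) = Real.sqrt (rad v) * Real.sqrt (rad v) :=
        (Real.mul_self_sqrt hr0.le).symm
      have h8 : Real.sqrt (rad v) ≠ 0 := (Real.sqrt_pos.2 hr0).ne'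
      rw [h5, h6, ← hgr, mul_inv, mul_assoc]
      congr 1
      rw [inv_mul_eq_div, div_eq_iff hr0.ne']
      nth_rewrite 3 [h7]
      field_simp
    have f4 : (gg v : ℝ)⁻¹ ≤ (gg v : ℝ) ^ (-(3 / 4) : ℝ) * (256 * D * δ ^ (1 / 4 : ℝ)) := by
      have h4c : (4 : ℝ) ^ c ≤ 16 := by
        calc (4 : ℝ) ^ c ≤ (4 : ℝ) ^ 2 := pow_le_pow_right₀ (by norm_num) (by omega)
          _ = 16 := by norm_num
      have h7 : (b0 D v c : ℝ) = (4 : ℝ) ^ c * gg v * (16 * D) := by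
        unfold b0
        push_cast
        ring
      have h8 : 1 ≤ gg v * (256 * D * δ) := by
        calc (1 : ℝ) ≤ (b0 D v c : ℝ) * δ := hcase
          _ = (4 : ℝ) ^ c * gg v * (16 * D) * δ := by rw [h7]
          _ ≤ 16 * gg v * (16 * D) * δ := by gcongr
          _ = gg v * (256 * D * δ) := by ring
      have h9 : (gg v : ℝ)⁻¹ ≤ 256 * D * δ := by
        rw [inv_le_iff_one_le_mul₀' hg0]
        exact h8
      have h10 : (gg v : ℝ)⁻¹ = (gg v : ℝ) ^ (-(3 / 4) : ℝ) * ((gg v : ℝ)⁻¹) ^ (1 / 4 : ℝ) := by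
        rw [Real.inv_rpow hg0.le, ← Real.rpow_neg hg0.le, ← Real.rpow_add hg0, ← Real.rpow_neg_one]
        norm_num
      have h11 : ((gg v : ℝ)⁻¹) ^ (1 / 4 : ℝ) ≤ 256 * D * δ ^ (1 / 4 : ℝ) := by
        calc ((gg v : ℝ)⁻¹) ^ (1 / 4 : ℝ) ≤ (256 * D * δ) ^ (1 / 4 : ℝ) :=
              Real.rpow_le_rpow (by positivity) h9 (by norm_num)
          _ = (256 * (D : ℝ)) ^ (1 / 4 : ℝ) * δ ^ (1 / 4 : ℝ) :=
              Real.mul_rpow (by positivity) hδ0.le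
          _ ≤ (256 * (D : ℝ)) ^ (1 : ℝ) * δ ^ (1 / 4 : ℝ) := by
              apply mul_le_mul_of_nonneg_right _ (Real.rpow_nonneg hδ0.le _)
              exact Real.rpow_le_rpow_of_exponent_le (by linarith) (by norm_num)
          _ = _ := by rw [Real.rpow_one]
      calc (gg v : ℝ)⁻¹ = (gg v : ℝ) ^ (-(3 / 4) : ℝ) * ((gg v : ℝ)⁻¹) ^ (1 / 4 : ℝ) := h10
        _ ≤ _ := mul_le_mul_of_nonneg_left h11 (Real.rpow_nonneg hg0.le _)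
    have f5 : (v : ℝ) ^ (3 / 128 : ℝ) * (v : ℝ) ^ (1 / 64 : ℝ) ≤ (v : ℝ) ^ (1 / 16 : ℝ) := by
      rw [← Real.rpow_add hv0]
      exact Real.rpow_le_rpow_of_exponent_le hv1 (by norm_num)
    obtain ⟨G, hG⟩ : ∃ G : ℝ, G = (gg v : ℝ) ^ (-(3 / 4) : ℝ) := ⟨_, rfl⟩
    obtain ⟨H, hH⟩ : ∃ H : ℝ, H = (rad v : ℝ) ^ (-(1 / 2) : ℝ) := ⟨_, rfl⟩
    have hG0 : 0 ≤ G := by rw [hG]; exact Real.rpow_nonneg hg0.le _
    have hH0 : 0 ≤ H := by rw [hH]; exact Real.rpow_nonneg hr0.le _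
    rw [← hH] at f3
    rw [← hG] at f4
    rw [← hG, ← hH]
    have hq0 : 0 ≤ δ ^ (1 / 4 : ℝ) := Real.rpow_nonneg hδ0.le _
    have hv16 : 0 ≤ (v : ℝ) ^ (1 / 16 : ℝ) := Real.rpow_nonneg hv0.le _
    have hv64 : 0 ≤ (v : ℝ) ^ (1 / 64 : ℝ) := Real.rpow_nonneg hv0.le _
    calc |cf v c| * U * (16 * δ * (b0 D v c : ℝ) * Real.sqrt (rad v) * ((rad v).divisors.card : ℝ))
        = (|cf v c| * (b0 D v c : ℝ)) * (U * 16 * δ * Real.sqrt (rad v)) *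
            ((rad v).divisors.card : ℝ) := by ring
      _ ≤ (48 * D * (Real.sqrt v)⁻¹) * (U * 16 * δ * Real.sqrt (rad v)) *
            (C₃ * (v : ℝ) ^ (1 / 64 : ℝ)) := by
          gcongr
      _ = 48 * D * C₁ * 16 * C₃ * X ^ (σ₀ + ε') * (δ * ((K : ℝ) * δ) ^ (1 + ε')) *
            ((v : ℝ) ^ (3 / 128 : ℝ) * (v : ℝ) ^ (1 / 64 : ℝ)) *
            ((Real.sqrt v)⁻¹ * (Real.sqrt v)⁻¹ * Real.sqrt (rad v)) := by
          rw [hU]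
          ring
      _ = 48 * D * C₁ * 16 * C₃ * X ^ (σ₀ + ε') * (δ * ((K : ℝ) * δ) ^ (1 + ε')) *
            ((v : ℝ) ^ (3 / 128 : ℝ) * (v : ℝ) ^ (1 / 64 : ℝ)) * ((gg v : ℝ)⁻¹ * H) := by
          rw [f3]
      _ ≤ 48 * D * C₁ * 16 * C₃ * X ^ (σ₀ + ε') * (δ * ((K : ℝ) * δ) ^ (1 + ε')) *
            (v : ℝ) ^ (1 / 16 : ℝ) * ((G * (256 * D * δ ^ (1 / 4 : ℝ))) * H) := by
          gcongr
      _ = 48 * D * C₁ * 16 * C₃ * (256 * D) * X ^ (σ₀ + ε') *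
            (δ * δ ^ (1 / 4 : ℝ) * ((K : ℝ) * δ) ^ (1 + ε')) * (G * H * (v : ℝ) ^ (1 / 16 : ℝ)) := by
          ring
      _ ≤ 48 * D * C₁ * 16 * C₃ * (256 * D) * X ^ (σ₀ + ε') *
            (K : ℝ) ^ (-(1 / 32) : ℝ) * (G * H * (v : ℝ) ^ (1 / 16 : ℝ)) := by
          gcongr

end Pool.Agent.MP_291b24_nt.Sm
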