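import Pool.Agent.Lib.MP_291b24_nt.Sm.KerA

/-! Mellin inversion for the Gaussian -/

set_option autoImplicit false

open Complex MeasureTheory

namespace Pool.Agent.MP_291b24_nt.Sm

theorem norm_pM (K : ℕ) (hK : 1 ≤ K) (z : ℂ) :
    ‖pM K z‖ = Real.sqrt (2 * Real.pi / K) * Real.exp ((z.re ^ 2 - (z.im - 2 * Real.pi * K) ^ 2) / (2 * K)) := by
  unfold pM
  rw [norm_mul, Complex.norm_exp, Complex.norm_real, Real.norm_of_nonneg (Real.sqrt_nonneg _)]
  have h1 : ((z - 2 * (Real.pi : ℂ) * K * I) ^ 2 / (2 * K)).re =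
      (z.re ^ 2 - (z.im - 2 * Real.pi * K) ^ 2) / (2 * K) := by
    have h2 : ((z - 2 * (Real.pi : ℂ) * K * I) ^ 2 / (2 * K)) =
        (z - ((2 * Real.pi * K : ℝ) : ℂ) * I) ^ 2 / ((2 * K : ℝ) : ℂ) := by
      push_cast
      ring
    rw [h2, Complex.div_ofReal_re]
    congr 1
    rw [pow_two, Complex.mul_re]
    simp only [Complex.sub_re, Complex.sub_im, Complex.mul_re, Complex.mul_im, Complex.ofReal_re,
      Complex.ofReal_im, Complex.I_re, Complex.I_im]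
    ring
  rw [h1]

/-- a Gaussian integral; `σ` is any real number -/
theorem ph_inv {K : ℕ} (hK : 1 ≤ K) (σ : ℝ) {y : ℝ} (hy : 0 < y) :
    ph K (Real.log y) = (1 / (2 * Real.pi) : ℂ) * ∫ t : ℝ, pM K (σ + t * I) * (y : ℂ) ^ (-(σ + t * I)) := by
  have hK0 : (K : ℂ) ≠ 0 := by
    have : K ≠ 0 := by omega
    exact_mod_cast this
  have hKr : (0 : ℝ) < K := by exact_mod_cast hK
  obtain ⟨x, hx⟩ : ∃ x, Real.log y = x := ⟨_, rfl⟩
  rw [hx]
  have hcp : ∀ t : ℝ, (y : ℂ) ^ (-(σ + t * I) : ℂ) = cexp (-(σ + t * I) * x) := by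
    intro t
    rw [Complex.cpow_def_of_ne_zero (by exact_mod_cast hy.ne'), ← Complex.ofReal_log hy.le, hx,
      mul_comm]
  have h1 : ∀ t : ℝ, pM K (σ + t * I) * (y : ℂ) ^ (-(σ + t * I) : ℂ) =
      (Real.sqrt (2 * Real.pi / K) : ℂ) * cexp ((-(1 / (2 * K)) : ℂ) * t ^ 2 +
        (I * (σ - 2 * Real.pi * K * I) / K - I * x) * t +
          ((σ - 2 * Real.pi * K * I) ^ 2 / (2 * K) - σ * x)) := by
    intro t
    rw [hcp, pM, mul_assoc, ← Complex.exp_add]
    congr 2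
    linear_combination ((t : ℂ) ^ 2 / (2 * K)) * I_sq
  have hb : (-(1 / (2 * K)) : ℂ).re < 0 := by
    have h2 : (-(1 / (2 * K)) : ℂ) = ((-(1 / (2 * K)) : ℝ) : ℂ) := by push_cast; ring
    rw [h2, Complex.ofReal_re]
    have : 0 < 1 / (2 * (K : ℝ)) := by positivity
    linarith
  rw [integral_congr_ae (Filter.Eventually.of_forall h1), integral_const_mul,
    integral_cexp_quadratic hb]
  have h3 : ((Real.pi : ℂ) / -(-(1 / (2 * K)))) ^ (1 / 2 : ℂ) =
      (Real.sqrt (2 * Real.pi * K) : ℂ) := by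
    have h4 : ((Real.pi : ℂ) / -(-(1 / (2 * K)))) = ((2 * Real.pi * K : ℝ) : ℂ) := by
      push_cast
      field_simp
    rw [h4, Real.sqrt_eq_rpow, Complex.ofReal_cpow (by positivity)]
    push_cast
    rfl
  have h5 : (Real.sqrt (2 * Real.pi / K) : ℂ) * (Real.sqrt (2 * Real.pi * K) : ℂ) =
      2 * Real.pi := by
    rw [← Complex.ofReal_mul, ← Real.sqrt_mul (by positivity)]
    have h6 : 2 * Real.pi / K * (2 * Real.pi * K) = (2 * Real.pi) ^ 2 := by
      field_simp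
    rw [h6, Real.sqrt_sq (by positivity)]
    push_cast
    rfl
  have hpi : (2 * Real.pi : ℂ) ≠ 0 := by
    have : (2 * Real.pi : ℝ) ≠ 0 := by positivity
    exact_mod_cast this
  rw [h3, ← mul_assoc, ← mul_assoc, mul_assoc (1 / (2 * Real.pi) : ℂ), h5,
    one_div_mul_cancel hpi, one_mul]
  unfold ph
  congr 1
  push_cast
  field_simp
  have hI3 : I ^ 3 = -I := by rw [pow_succ, I_sq, neg_one_mul]
  have hI4 : I ^ 4 = 1 := I_pow_four
  ring_nf
  simp only [I_sq, hI3, hI4]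
  ring

end Pool.Agent.MP_291b24_nt.Sm
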