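import Pool.Agent.Lib.MP_291b24_nt.Sm.GV

/-! CLAIM A -/

set_option autoImplicit false

open Complex MeasureTheory

namespace Pool.Agent.MP_291b24_nt.Sm

/-- powers are beaten by the exponential function -/
private theorem expb {τ c : ℝ} (hτ : 0 < τ) (hc : 0 < c) (B P : ℝ) (hB : 0 ≤ B) :
    ∃ C : ℝ, 0 < C ∧ ∀ K : ℕ, 16 ≤ K → ∀ X : ℝ, 2 ≤ X → X ^ (τ / 2) ≤ K →
    X ^ B * (K : ℝ) ^ P * Real.exp (-(c * K)) ≤ C := by
  obtain ⟨n, hn⟩ := exists_nat_ge (2 * B / τ + P)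
  refine ⟨n.factorial / c ^ n, by positivity, fun K hK X hX hXK => ?_⟩
  have hK1 : (1 : ℝ) ≤ K := by exact_mod_cast (by omega : 1 ≤ K)
  have hK0 : (0 : ℝ) < K := by linarith
  have hX0 : (0 : ℝ) < X := by linarith
  have h1 : X ^ B ≤ (K : ℝ) ^ (2 * B / τ) := by
    calc X ^ B = (X ^ (τ / 2)) ^ (2 * B / τ) := by
          rw [← Real.rpow_mul hX0.le]; congr 1; field_simp
      _ ≤ _ := Real.rpow_le_rpow (by positivity) hXK (by positivity)
  have h2 : X ^ B * (K : ℝ) ^ P ≤ (K : ℝ) ^ n := by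
    calc X ^ B * (K : ℝ) ^ P ≤ (K : ℝ) ^ (2 * B / τ) * (K : ℝ) ^ P := by gcongr
      _ = (K : ℝ) ^ (2 * B / τ + P) := (Real.rpow_add hK0 _ _).symm
      _ ≤ (K : ℝ) ^ (n : ℝ) := Real.rpow_le_rpow_of_exponent_le hK1 hn
      _ = _ := Real.rpow_natCast _ _
  have h3 : (c * K) ^ n / n.factorial ≤ Real.exp (c * K) := Real.pow_div_factorial_le_exp _ (by positivity) n
  rw [Real.exp_neg, ← div_eq_mul_inv, div_le_iff₀ (Real.exp_pos _)]
  calc X ^ B * (K : ℝ) ^ P ≤ (K : ℝ) ^ n := h2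
    _ = n.factorial / c ^ n * ((c * K) ^ n / n.factorial) := by rw [mul_pow]; field_simp
    _ ≤ _ := by gcongr

/-- exponential decay against `1 / (1 + t²)` -/
private theorem decay {c A : ℝ} (hc : 0 < c) : ∃ C : ℝ, 0 < C ∧ ∀ t : ℝ,
    Real.exp (-(c * |t|)) * (|t| + 2) ^ A ≤ C * (1 + t ^ 2)⁻¹ := by
  obtain ⟨n, hn⟩ := exists_nat_ge (A + 2)
  refine ⟨n.factorial / c ^ n * Real.exp (2 * c), by positivity, fun t => ?_⟩
  have ht : 0 ≤ |t| := abs_nonneg t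
  have h0 : 0 < 1 + t ^ 2 := by positivity
  rw [← div_eq_mul_inv, le_div_iff₀ h0, Real.exp_neg, mul_assoc, ← div_eq_inv_mul, div_le_iff₀ (Real.exp_pos _),
    mul_assoc, ← Real.exp_add]
  have h1 : 1 + t ^ 2 ≤ (|t| + 2) ^ (2 : ℝ) := by
    rw [show (2 : ℝ) = ((2 : ℕ) : ℝ) by norm_num, Real.rpow_natCast]
    nlinarith [sq_abs t, Nat.cast_ofNat (R := ℝ) (n := 2)]
  have h3 : (c * (|t| + 2)) ^ n / n.factorial ≤ Real.exp (c * (|t| + 2)) :=
    Real.pow_div_factorial_le_exp _ (by positivity) n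
  calc (|t| + 2) ^ A * (1 + t ^ 2) ≤ (|t| + 2) ^ A * (|t| + 2) ^ (2 : ℝ) := by gcongr
    _ = (|t| + 2) ^ (A + 2) := (Real.rpow_add (by positivity) _ _).symm
    _ ≤ (|t| + 2) ^ (n : ℝ) := Real.rpow_le_rpow_of_exponent_le (by linarith) hn
    _ = (|t| + 2) ^ n := Real.rpow_natCast _ _
    _ = n.factorial / c ^ n * ((c * (|t| + 2)) ^ n / n.factorial) := by rw [mul_pow]; field_simp
    _ ≤ n.factorial / c ^ n * Real.exp (c * (|t| + 2)) := by gcongr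
    _ = _ := by ring_nf

private theorem dbl {F : ℝ → ℝ → ℂ} {K : ℕ} {Bi Bo : ℝ} (hBi : 0 ≤ Bi) (hBo : 0 ≤ Bo) {h : ℝ → ℝ}
    (hh : Integrable h) (hp : ∀ t, 0 ≤ h t)
    (h1 : ∀ t y, |t + 2 * Real.pi * K| ≤ K / 2 → |y - 2 * Real.pi * K| ≤ K / 2 → ‖F t y‖ ≤ Bi)
    (h2 : ∀ t y, ((K : ℝ) / 2 ≤ |t + 2 * Real.pi * K| ∨ (K : ℝ) / 2 ≤ |y - 2 * Real.pi * K|) →
      ‖F t y‖ ≤ Bo * h t * h y) :
    ‖∫ y, ∫ t, F t y‖ ≤ Bi * (K : ℝ) ^ 2 + Bo * (∫ t, h t) ^ 2 := by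
  have hK0 : (0 : ℝ) ≤ K := Nat.cast_nonneg K
  obtain ⟨J, hJ⟩ : ∃ J : ℝ → ℝ → ℝ, J = fun v t => (Set.Icc (v - (K : ℝ) / 2) (v + (K : ℝ) / 2)).indicator (fun _ => (1 : ℝ)) t := ⟨_, rfl⟩
  have hJi : ∀ v, Integrable (J v) := fun v => by
    rw [hJ]
    exact (continuous_const.integrableOn_Icc).integrable_indicator measurableSet_Icc
  have hJI : ∀ v, ∫ t, J v t = K := fun v => by
    rw [hJ]
    have := MeasureTheory.integral_indicator_one (μ := (volume : Measure ℝ)) (s := Set.Icc (v - (K : ℝ) / 2) (v + (K : ℝ) / 2)) measurableSet_Icc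
    simp only [Pi.one_def] at this
    rw [this, Real.volume_real_Icc_of_le (by linarith)]
    ring
  have hJ1 : ∀ v t : ℝ, |t - v| ≤ (K : ℝ) / 2 → J v t = 1 := fun v t ht => by
    rw [hJ]
    simp only
    rw [Set.indicator_of_mem]
    rw [abs_le] at ht
    exact ⟨by linarith [ht.1], by linarith [ht.2]⟩
  have hJ0 : ∀ v t, 0 ≤ J v t := fun v t => by
    rw [hJ]
    exact Set.indicator_nonneg (fun _ _ => zero_le_one) _
  have hF : ∀ t y, ‖F t y‖ ≤ Bi * J (2 * Real.pi * K) y * J (-(2 * Real.pi * K)) t + Bo * h y * h t := fun t y => by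
    have e1 : 0 ≤ Bi * J (2 * Real.pi * K) y * J (-(2 * Real.pi * K)) t :=
      mul_nonneg (mul_nonneg hBi (hJ0 _ _)) (hJ0 _ _)
    have e2 : 0 ≤ Bo * h y * h t := mul_nonneg (mul_nonneg hBo (hp _)) (hp _)
    by_cases ha : |t + 2 * Real.pi * K| ≤ K / 2
    · by_cases hb : |y - 2 * Real.pi * K| ≤ K / 2
      · have := h1 t y ha hb
        rw [hJ1 _ y hb, hJ1 (-(2 * Real.pi * K)) t (by rwa [sub_neg_eq_add]), mul_one, mul_one]
        linarith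
      · have := h2 t y (Or.inr (not_le.1 hb).le)
        have e3 : Bo * h t * h y = Bo * h y * h t := by ring
        linarith
    · have := h2 t y (Or.inl (not_le.1 ha).le)
      have e3 : Bo * h t * h y = Bo * h y * h t := by ring
      linarith
  have hin : ∀ y, ‖∫ t, F t y‖ ≤ Bi * K * J (2 * Real.pi * K) y + Bo * (∫ t, h t) * h y := fun y => by
    calc ‖∫ t, F t y‖ ≤ ∫ t, (Bi * J (2 * Real.pi * K) y * J (-(2 * Real.pi * K)) t + Bo * h y * h t) :=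
          norm_integral_le_of_norm_le (((hJi _).const_mul _).add (hh.const_mul _)) (ae_of_all _ fun t => hF t y)
      _ = Bi * J (2 * Real.pi * K) y * K + Bo * h y * ∫ t, h t := by
          rw [integral_add ((hJi _).const_mul _) (hh.const_mul _), integral_const_mul, integral_const_mul, hJI]
      _ = _ := by ring
  calc ‖∫ y, ∫ t, F t y‖ ≤ ∫ y, (Bi * K * J (2 * Real.pi * K) y + Bo * (∫ t, h t) * h y) :=
        norm_integral_le_of_norm_le (((hJi _).const_mul _).add (hh.const_mul _)) (ae_of_all _ hin)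
    _ = Bi * K * K + Bo * (∫ t, h t) * ∫ t, h t := by
        rw [integral_add ((hJi _).const_mul _) (hh.const_mul _), integral_const_mul, integral_const_mul, hJI]
    _ = _ := by ring

/-- separate the term `n = 1` -/
private theorem split1 (f : ℕ → ℂ) :
    ‖∑' n : ℕ, (if Odd n ∧ Squarefree n then f n else 0)‖ ≤
      ‖f 1‖ + ‖∑' n : ℕ, (if Odd n ∧ Squarefree n ∧ n ≠ 1 then f n else 0)‖ := by
  have e : (fun n : ℕ => if Odd n ∧ Squarefree n then f n else 0) =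
      fun n => (if Odd n ∧ Squarefree n ∧ n ≠ 1 then f n else 0) + Pi.single (M := fun _ => ℂ) 1 (f 1) n := by
    funext n
    by_cases h : n = 1
    · subst h
      simp
    · simp [h]
  have hs : Summable (Pi.single (M := fun _ : ℕ => ℂ) 1 (f 1)) := (hasSum_pi_single 1 (f 1)).summable
  by_cases hg : Summable (fun n : ℕ => if Odd n ∧ Squarefree n ∧ n ≠ 1 then f n else 0)
  · rw [e, hg.tsum_add hs, tsum_pi_single, add_comm]
    exact norm_add_le _ _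
  · have : ¬ Summable (fun n : ℕ => if Odd n ∧ Squarefree n then f n else 0) := fun h => hg (by
      rw [e] at h
      simpa using h.sub hs)
    rw [tsum_eq_zero_of_not_summable this, norm_zero]
    positivity

/-- `M = ⌈(2A' + 20)/τ⌉₊`; `cut`, `T1_bound`, `QQ_eq` with `σ = (a - r)/2`, `QQ_GG`, `GG_bound` on the window (area `K²`, `norm_WW_le`),
`norm_WW_off`, `norm_QQ_le` outside. `e^(-cK) X^A ≤ C` because `K ≥ X^(τ/2)`. -/
theorem partA (hG : GRH) {r a ε θ C₁ K₀ X₀ : ℝ} (hr : 0 < r) (hra : r < a) (ha : a < 1 / 4) (hε : 0 < ε) (hε1 : ε < a - r) (hθ : 0 < θ)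
    (hC₁ : 0 < C₁) (hX₀ : 2 ≤ X₀) (hB : Bd r a ε θ C₁ K₀ X₀) : ∃ A : ℝ, 0 < A ∧ ∀ τ : ℝ, 0 < τ → τ ≤ 1 → ∀ D : ℕ, 1 ≤ D → ∃ C : ℝ, 0 < C ∧
    ∀ K : ℕ, 16 ≤ K → ∀ X : ℝ, 2 ≤ X → X ^ (τ / 2) ≤ K → (K : ℝ) ≤ X ^ τ →
      ‖TT K D X‖ ≤ C * X ^ (1 / 2 - min (a - r - ε) (1 / 4 - r)) * (K : ℝ) ^ A := by
  have hr1 : r < 1 / 4 := by linarith
  obtain ⟨σ, hσ⟩ : ∃ σ : ℝ, σ = (a - r) / 2 := ⟨_, rfl⟩
  have h0 : 0 < σ := by rw [hσ]; linarith
  have h1 : σ ≤ 1 := by rw [hσ]; linarith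
  obtain ⟨A₁, C₁', hA₁, hC₁', hT1⟩ := T1_bound hG hr hr1
  obtain ⟨A₂, hA₂, hQl⟩ := norm_QQ_le hG hr hr1 h0 h1
  obtain ⟨A₃, hA₃, hQG⟩ := QQ_GG hG hr hra ha
  obtain ⟨A₄, hA₄, hGG⟩ := GG_bound hG hr hra ha hε hε1 hθ hC₁ hX₀ hB
  obtain ⟨C₅, hC₅, hW⟩ := norm_WW_le hr hr1 h0 h1
  obtain ⟨c₆, C₆, hc₆, hC₆, hWo⟩ := norm_WW_off hr hr1 h0 h1
  rw [← hσ] at hQG hGG
  refine ⟨A₁ + A₃ + A₄ + 4, by positivity, fun τ hτ hτ1 D hD => ?_⟩
  obtain ⟨M, hM⟩ : ∃ M : ℕ, 20 / τ ≤ M := exists_nat_ge _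
  have hM20 : (20 : ℝ) ≤ M := by
    refine le_trans ?_ hM
    rw [le_div_iff₀ hτ]
    linarith
  have hM1 : 1 ≤ M := by
    have : ((1 : ℕ) : ℝ) ≤ M := by push_cast; linarith
    exact_mod_cast this
  obtain ⟨Cc, hCc, hcut⟩ := cut hM1
  obtain ⟨C₂, hC₂, hQl⟩ := hQl M hM1
  obtain ⟨C₃, hC₃, hQG⟩ := hQG M hM1
  obtain ⟨c₄, C₄, hc₄, hC₄, hGG⟩ := hGG M hM1
  obtain ⟨C₀, hC₀, hdec⟩ := decay (A := A₂) hc₆
  obtain ⟨E₁, hE₁, hE1⟩ := expb hτ one_pos 3 3 (by norm_num)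
  obtain ⟨E₂, hE₂, hE2⟩ := expb hτ hc₄ (σ + r + 1) (A₄ + 4) (by positivity)
  obtain ⟨E₃, hE₃, hE3⟩ := expb hτ one_pos (σ + r + A₃) (4 + 2 * A₃) (by positivity)
  obtain ⟨E₄, hE₄, hE4⟩ := expb hτ hc₆ (σ + r + A₂) (1 + 2 * A₂) (by positivity)
  obtain ⟨H, hH⟩ : ∃ H : ℝ, H = ∫ t : ℝ, C₀ * (1 + t ^ 2)⁻¹ := ⟨_, rfl⟩
  refine ⟨Cc * D ^ 3 * (8 ^ M + E₁) + C₁' * D + 8 * C₅ * D * C₃ * (C₄ + C₄ * E₂ + 1 + E₃) +
    C₆ * D * C₂ * E₄ * H ^ 2, ?_, fun K hK X hX hXK hXK' => ?_⟩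
  · have : (0 : ℝ) < D := by exact_mod_cast hD
    positivity
  have hD0 : (0 : ℝ) < D := by exact_mod_cast hD
  have hK1 : (1 : ℝ) ≤ K := by exact_mod_cast (by omega : 1 ≤ K)
  have hK0 : (0 : ℝ) < K := by linarith
  have hX0 : (0 : ℝ) < X := by linarith
  have hX1 : (1 : ℝ) ≤ X := by linarith
  have hE1 := hE1 K hK X hX hXK
  have hE2 := hE2 K hK X hX hXK
  have hE3 := hE3 K hK X hX hXK
  have hE4 := hE4 K hK X hX hXK
  obtain ⟨δ, hδ⟩ : ∃ δ : ℝ, δ = min (a - r - ε) (1 / 4 - r) := ⟨_, rfl⟩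
  have hδ1 : δ ≤ a - r - ε := hδ ▸ min_le_left _ _
  have hδ2 : δ ≤ 1 / 4 - r := hδ ▸ min_le_right _ _
  rw [← hδ]
  obtain ⟨P, hP⟩ : ∃ P : ℝ, P = X ^ (1 / 2 - δ) * (K : ℝ) ^ (A₁ + A₃ + A₄ + 4) := ⟨_, rfl⟩
  have hP1 : 1 ≤ P := by
    rw [hP]
    exact one_le_mul_of_one_le_of_one_le (Real.one_le_rpow hX1 (by linarith)) (Real.one_le_rpow hK1 (by positivity))
  -- the error of the cutoff
  have b1 : Cc * (D * K * X) ^ 3 * ((8 / K) ^ M + Real.exp (-K)) ≤ Cc * D ^ 3 * (8 ^ M + E₁) := by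
    have e1 : (K * X) ^ 3 * Real.exp (-(K : ℝ)) ≤ E₁ := by
      have : (K * X) ^ 3 * Real.exp (-(K : ℝ)) = X ^ (3 : ℝ) * (K : ℝ) ^ (3 : ℝ) * Real.exp (-(1 * K)) := by
        rw [show (3 : ℝ) = ((3 : ℕ) : ℝ) by norm_num, Real.rpow_natCast, Real.rpow_natCast, one_mul]
        ring
      rw [this]
      exact hE1
    have e2 : (K * X) ^ 3 * (8 / (K : ℝ)) ^ M ≤ 8 ^ M := by
      have e3 : X ^ 3 ≤ (K : ℝ) ^ (6 / τ) := by
        calc X ^ 3 = (X ^ (τ / 2)) ^ (6 / τ) := by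
              rw [← Real.rpow_mul hX0.le, show τ / 2 * (6 / τ) = ((3 : ℕ) : ℝ) by field_simp; norm_num, Real.rpow_natCast]
          _ ≤ _ := Real.rpow_le_rpow (by positivity) hXK (by positivity)
      have e4 : (K * X) ^ 3 ≤ (K : ℝ) ^ M := by
        calc (K * X) ^ 3 = (K : ℝ) ^ ((3 : ℕ) : ℝ) * X ^ 3 := by rw [Real.rpow_natCast]; ring
          _ ≤ (K : ℝ) ^ ((3 : ℕ) : ℝ) * (K : ℝ) ^ (6 / τ) := by gcongr
          _ = (K : ℝ) ^ (((3 : ℕ) : ℝ) + 6 / τ) := (Real.rpow_add hK0 _ _).symm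
          _ ≤ (K : ℝ) ^ (M : ℝ) := by
              refine Real.rpow_le_rpow_of_exponent_le hK1 (le_trans ?_ hM)
              have : (1 : ℝ) ≤ 1 / τ := by rw [le_div_iff₀ hτ]; linarith
              have e5 : 20 / τ = 20 * (1 / τ) := by ring
              have e6 : 6 / τ = 6 * (1 / τ) := by ring
              rw [e5, e6]
              push_cast
              linarith
          _ = _ := Real.rpow_natCast _ _
      rw [div_pow, mul_div_assoc', div_le_iff₀ (by positivity), mul_comm]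
      gcongr
    calc Cc * (D * K * X) ^ 3 * ((8 / K) ^ M + Real.exp (-K)) =
        Cc * D ^ 3 * ((K * X) ^ 3 * (8 / (K : ℝ)) ^ M + (K * X) ^ 3 * Real.exp (-(K : ℝ))) := by ring
      _ ≤ _ := by gcongr
  -- the term n = 1
  have b2 : ‖Tn K D X 1‖ ≤ C₁' * D * P := by
    refine (hT1 K D hK hD X hX).trans ?_
    rw [hP, mul_assoc (C₁' * D)]
    gcongr
    · linarith
    · linarith
  -- the integral
  have b3 : ‖∫ y : ℝ, ∫ t : ℝ, WW K D X (σ + t * I) (r + y * I) * QQ M K X (σ + t * I) (r + y * I)‖ ≤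
      8 * C₅ * D * C₃ * (C₄ + C₄ * E₂ + 1 + E₃) * P + C₆ * D * C₂ * E₄ * H ^ 2 * P := by
    have hint : Integrable (fun t : ℝ => C₀ * (1 + t ^ 2)⁻¹) := integrable_inv_one_add_sq.const_mul _
    have key := dbl (F := fun t y => WW K D X (σ + t * I) (r + y * I) * QQ M K X (σ + t * I) (r + y * I)) (K := K)
      (Bi := C₅ * D * X ^ (σ + r) * K * (8 * K) * (C₃ * (C₄ * (K : ℝ) ^ A₄ *
        (X ^ (1 / 2 + ε - (a + σ)) + Real.exp (-(c₄ * K)) * X) + (K : ℝ) ^ A₃ + Real.exp (-K) * (K ^ 2 * X) ^ A₃)))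
      (Bo := C₆ * D * X ^ (σ + r) * K * Real.exp (-(c₆ * K)) * (C₂ * (K ^ 2 * X) ^ A₂))
      (h := fun t : ℝ => C₀ * (1 + t ^ 2)⁻¹) (by positivity) (by positivity) hint (fun t => by positivity) ?_ ?_
    · refine key.trans ?_
      rw [← hH]
      gcongr ?_ + ?_
      · have x1 : X ^ (σ + r) * X ^ (1 / 2 + ε - (a + σ)) * (K : ℝ) ^ (A₄ + 4) ≤ P := by
          rw [hP, ← Real.rpow_add hX0]
          gcongr
          · linarith
          · linarith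
        have x2 : X ^ (σ + r) * X * (K : ℝ) ^ (A₄ + 4) * Real.exp (-(c₄ * K)) ≤ E₂ * P := by
          have : X ^ (σ + r) * X = X ^ (σ + r + 1) := by rw [Real.rpow_add hX0 (σ + r) 1, Real.rpow_one]
          rw [this]
          calc _ ≤ E₂ := hE2
            _ ≤ _ := le_mul_of_one_le_right hE₂.le hP1
        have x3 : X ^ (σ + r) * (K : ℝ) ^ (A₃ + 4) ≤ P := by
          rw [hP]
          gcongr
          · rw [hσ]; linarith
          · linarith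
        have x4 : X ^ (σ + r) * (K : ℝ) ^ (4 : ℝ) * (Real.exp (-K) * (K ^ 2 * X) ^ A₃) ≤ E₃ * P := by
          have : X ^ (σ + r) * (K : ℝ) ^ (4 : ℝ) * (Real.exp (-K) * (K ^ 2 * X) ^ A₃) =
              X ^ (σ + r + A₃) * (K : ℝ) ^ (4 + 2 * A₃) * Real.exp (-(1 * K)) := by
            rw [Real.mul_rpow (by positivity) hX0.le, ← Real.rpow_natCast (K : ℝ) 2, ← Real.rpow_mul hK0.le,
              Real.rpow_add hX0 (σ + r), Real.rpow_add hK0, one_mul]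
            push_cast
            ring
          rw [this]
          calc _ ≤ E₃ := hE3
            _ ≤ _ := le_mul_of_one_le_right hE₃.le hP1
        have k4 : (K : ℝ) ^ (4 : ℝ) = K ^ 4 := by
          rw [show (4 : ℝ) = ((4 : ℕ) : ℝ) by norm_num, Real.rpow_natCast]
        have k5 : (K : ℝ) ^ (A₄ + 4) = (K : ℝ) ^ A₄ * K ^ 4 := by rw [Real.rpow_add hK0, k4]
        have k6 : (K : ℝ) ^ (A₃ + 4) = (K : ℝ) ^ A₃ * K ^ 4 := by rw [Real.rpow_add hK0, k4]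
        rw [k5] at x1 x2
        rw [k6] at x3
        rw [k4] at x4
        calc _ = 8 * C₅ * D * C₃ * (C₄ * (X ^ (σ + r) * X ^ (1 / 2 + ε - (a + σ)) * ((K : ℝ) ^ A₄ * K ^ 4)) +
              C₄ * (X ^ (σ + r) * X * ((K : ℝ) ^ A₄ * K ^ 4) * Real.exp (-(c₄ * K))) +
              X ^ (σ + r) * ((K : ℝ) ^ A₃ * K ^ 4) +
              X ^ (σ + r) * K ^ 4 * (Real.exp (-K) * (K ^ 2 * X) ^ A₃)) := by ring
          _ ≤ 8 * C₅ * D * C₃ * (C₄ * P + C₄ * (E₂ * P) + P + E₃ * P) := by gcongr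
          _ = _ := by ring
      · have x1 : X ^ (σ + r) * K * Real.exp (-(c₆ * K)) * (K ^ 2 * X) ^ A₂ ≤ E₄ * P := by
          have : X ^ (σ + r) * K * Real.exp (-(c₆ * K)) * (K ^ 2 * X) ^ A₂ =
              X ^ (σ + r + A₂) * (K : ℝ) ^ (1 + 2 * A₂) * Real.exp (-(c₆ * K)) := by
            rw [Real.mul_rpow (by positivity) hX0.le, ← Real.rpow_natCast (K : ℝ) 2, ← Real.rpow_mul hK0.le,
              Real.rpow_add hX0 (σ + r), Real.rpow_add hK0, Real.rpow_one]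
            push_cast
            ring
          rw [this]
          calc _ ≤ E₄ := hE4
            _ ≤ _ := le_mul_of_one_le_right hE₄.le hP1
        calc _ = C₆ * D * C₂ * (X ^ (σ + r) * K * Real.exp (-(c₆ * K)) * (K ^ 2 * X) ^ A₂) * H ^ 2 := by ring
          _ ≤ C₆ * D * C₂ * (E₄ * P) * H ^ 2 := by gcongr
          _ = _ := by ring
    · intro t y ht hy
      rw [norm_mul]
      have htb : |t| + 2 ≤ 8 * K := by
        have h1 := abs_le.1 ht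
        have hpi := Real.pi_lt_d2
        have hpi0 := Real.pi_pos
        have h3 : 2 * Real.pi * K ≤ 6.3 * K := by
          have : 2 * Real.pi ≤ 6.3 := by linarith
          gcongr
        have hK16 : (16 : ℝ) ≤ K := by exact_mod_cast hK
        have h4 : 0 < 2 * Real.pi * K := by positivity
        have : |t| ≤ 6.8 * K := by
          rw [abs_le]
          constructor <;> linarith [h1.1, h1.2]
        linarith
      have hw := hW K D hK hD X hX t y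
      have hq := (hQG K hK X hX t y ht hy)
      have hg := hGG K hK X hX t y ht hy
      gcongr
      · exact hw.trans (by gcongr)
      · exact hq.trans (by gcongr)
    · intro t y hty
      rw [norm_mul]
      have hw := hWo K D hK hD X hX t y hty
      have hq := hQl K hK X hX t y
      have hd1 := hdec t
      have hd2 := hdec y
      have ht0 : 0 ≤ |t| := abs_nonneg t
      have hy0 : 0 ≤ |y| := abs_nonneg y
      calc _ ≤ (C₆ * (D : ℝ) * X ^ (σ + r) * K * Real.exp (-(c₆ * K)) * Real.exp (-(c₆ * (|t| + |y|)))) *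
            (C₂ * (K ^ 2 * X * (|t| + 2) * (|y| + 2)) ^ A₂) := by gcongr
        _ = C₆ * D * X ^ (σ + r) * K * Real.exp (-(c₆ * K)) * (C₂ * (K ^ 2 * X) ^ A₂) *
            (Real.exp (-(c₆ * |t|)) * (|t| + 2) ^ A₂) * (Real.exp (-(c₆ * |y|)) * (|y| + 2) ^ A₂) := by
            rw [Real.mul_rpow (by positivity) (by positivity), Real.mul_rpow (by positivity) (by positivity),
              show -(c₆ * (|t| + |y|)) = -(c₆ * |t|) + -(c₆ * |y|) by ring, Real.exp_add]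
            ring
        _ ≤ _ := by gcongr
  -- collect
  have hc := hcut K D hK hD X hX
  have hsp := split1 (fun n => (ups M (n / (K ^ 2 * X)) : ℂ) * (epsb n * Tn K D X n))
  rw [QQ_eq hG hr hr1 hK hD hM1 hX h0 h1, norm_mul (1 / (4 * Real.pi ^ 2) : ℂ)] at hsp
  have hf1 : ‖(ups M ((1 : ℕ) / (K ^ 2 * X)) : ℂ) * (epsb 1 * Tn K D X 1)‖ ≤ ‖Tn K D X 1‖ := by
    have u1 : ups M ((1 : ℕ) / (K ^ 2 * X)) ≤ 1 := by
      rw [ups, Real.exp_le_one_iff]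
      have : (0 : ℝ) ≤ ((1 : ℕ) / (K ^ 2 * X)) ^ M := by positivity
      linarith
    have u0 : 0 ≤ ups M ((1 : ℕ) / (K ^ 2 * X)) := (Real.exp_pos _).le
    have : epsb 1 = 1 := by simp [epsb]
    rw [this, one_mul, norm_mul, Complex.norm_real, Real.norm_of_nonneg u0]
    exact mul_le_of_le_one_left (norm_nonneg _) u1
  have hpi4 : ‖(1 / (4 * Real.pi ^ 2) : ℂ)‖ ≤ 1 := by
    have h3 := Real.pi_gt_three
    have : (1 / (4 * Real.pi ^ 2) : ℂ) = ((1 / (4 * Real.pi ^ 2) : ℝ) : ℂ) := by push_cast; ring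
    rw [this, Complex.norm_real, Real.norm_of_nonneg (by positivity), div_le_one (by positivity)]
    nlinarith
  have hm : ‖(1 / (4 * Real.pi ^ 2) : ℂ)‖ * ‖∫ y : ℝ, ∫ t : ℝ, WW K D X (σ + t * I) (r + y * I) * QQ M K X (σ + t * I) (r + y * I)‖ ≤
      8 * C₅ * D * C₃ * (C₄ + C₄ * E₂ + 1 + E₃) * P + C₆ * D * C₂ * E₄ * H ^ 2 * P :=
    (mul_le_of_le_one_left (norm_nonneg _) hpi4).trans b3
  have hCb : Cc * D ^ 3 * (8 ^ M + E₁) ≤ Cc * D ^ 3 * (8 ^ M + E₁) * P := le_mul_of_one_le_right (by positivity) hP1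
  have htri : ‖TT K D X‖ ≤ ‖TT K D X - ∑' n : ℕ, (if Odd n ∧ Squarefree n then (ups M (n / (K ^ 2 * X)) : ℂ) * (epsb n * Tn K D X n) else 0)‖ +
      ‖∑' n : ℕ, (if Odd n ∧ Squarefree n then (ups M (n / (K ^ 2 * X)) : ℂ) * (epsb n * Tn K D X n) else 0)‖ := by
    have := norm_add_le (TT K D X - ∑' n : ℕ, (if Odd n ∧ Squarefree n then (ups M (n / (K ^ 2 * X)) : ℂ) * (epsb n * Tn K D X n) else 0))
      (∑' n : ℕ, (if Odd n ∧ Squarefree n then (ups M (n / (K ^ 2 * X)) : ℂ) * (epsb n * Tn K D X n) else 0))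
    rwa [sub_add_cancel] at this
  rw [mul_assoc, ← hP]
  calc ‖TT K D X‖ ≤ _ := htri
    _ ≤ Cc * D ^ 3 * (8 ^ M + E₁) * P + (C₁' * D * P +
        (8 * C₅ * D * C₃ * (C₄ + C₄ * E₂ + 1 + E₃) * P + C₆ * D * C₂ * E₄ * H ^ 2 * P)) := by
        refine add_le_add ((hc.trans b1).trans hCb) (hsp.trans (add_le_add (hf1.trans b2) hm))
    _ = _ := by ring

end Pool.Agent.MP_291b24_nt.Sm
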