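import Pool.Agent.Lib.MP_291b24_nt.Sm.B4
import Pool.Agent.Lib.MP_291b24_nt.Sm.CvM
import Pool.Agent.Lib.MP_291b24_nt.Sm.Near

/-! CLAIM B -/

set_option autoImplicit false

open Complex

namespace Pool.Agent.MP_291b24_nt.Sm

private theorem tot_two_mul (m : ℕ) : Nat.totient (2 * m) ≤ m := by
  induction m using Nat.strong_induction_on with
  | _ m ih =>
    rcases Nat.even_or_odd m with he | ho
    · obtain ⟨k, hk⟩ := he
      by_cases hk0 : k = 0
      · subst hk0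
        simp at hk
        subst hk
        simp
      · have h1 : m = 2 * k := by omega
        rw [h1, Nat.totient_mul_of_prime_of_dvd Nat.prime_two (Dvd.intro k rfl)]
        have := ih k (by omega)
        omega
    · have h2 : ¬ 2 ∣ m := fun h => by
        rw [Nat.odd_iff] at ho
        omega
      rw [Nat.totient_mul_of_prime_of_not_dvd Nat.prime_two h2]
      have := Nat.totient_le m
      omega

private theorem tot_four_mul (m : ℕ) : Nat.totient (4 * m) ≤ 2 * m := by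
  have : 4 * m = 2 * (2 * m) := by ring
  rw [this]
  exact tot_two_mul _

private theorem norm_mu_le (n : ℕ) : ‖((ArithmeticFunction.moebius n : ℤ) : ℂ)‖ ≤ 1 := by
  rw [Complex.norm_intCast]
  have h1 : |ArithmeticFunction.moebius n| ≤ 1 := ArithmeticFunction.abs_moebius_le_one
  exact_mod_cast h1

private theorem norm_jac_le (a : ℤ) (b : ℕ) : ‖((jacobiSym a b : ℤ) : ℂ)‖ ≤ 1 := by
  rcases jacobiSym.trichotomy a b with h | h | h <;> rw [h] <;> simp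

theorem norm_bet_le (h : ℕ) : ‖bet h‖ ≤ 1 / h := by
  by_cases hh : h = 0
  · subst hh
    simp [bet]
  have hpos : (0 : ℝ) < h := by exact_mod_cast Nat.pos_of_ne_zero hh
  have hk : ‖(if h % 2 = 1 then (1 / 2 : ℂ) else 3 / 8)‖ ≤ 1 / 2 := by
    split_ifs
    · norm_num
    · norm_num
  have hmu := norm_mu_le (rad h)
  have hI : ‖(1 : ℂ) - I‖ ≤ 2 := by
    calc ‖(1 : ℂ) - I‖ ≤ ‖(1 : ℂ)‖ + ‖I‖ := norm_sub_le _ _
      _ = 2 := by simp; norm_num
  have hphi : ‖(Nat.totient (4 * rad h) : ℂ) / 2‖ ≤ rad h := by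
    rw [norm_div, Complex.norm_natCast]
    have h1 : (Nat.totient (4 * rad h) : ℝ) ≤ 2 * rad h := by exact_mod_cast tot_four_mul (rad h)
    have h2 : ‖(2 : ℂ)‖ = 2 := by norm_num
    rw [h2]
    linarith
  have hrad : (rad h : ℝ) ≤ h := by exact_mod_cast Nat.le_of_dvd (Nat.pos_of_ne_zero hh) (rad_dvd h)
  have hr0 : (0 : ℝ) ≤ rad h := Nat.cast_nonneg _
  unfold bet
  rw [norm_div, norm_mul, norm_mul, norm_mul, norm_mul, norm_pow, Complex.norm_natCast, Complex.norm_natCast,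
    div_le_div_iff₀ (by positivity) hpos]
  calc ‖(if h % 2 = 1 then (1 / 2 : ℂ) else 3 / 8)‖ * ‖((ArithmeticFunction.moebius (rad h) : ℤ) : ℂ)‖ * ‖(1 : ℂ) - I‖ *
        ‖(Nat.totient (4 * rad h) : ℂ) / 2‖ * (rad h : ℝ) * h ≤ 1 / 2 * 1 * 2 * h * h * h := by
        have := hphi.trans hrad
        gcongr
    _ = 1 * (h : ℝ) ^ 3 := by ring

private theorem jac_eq {D u h c : ℕ} (hu : Odd u) (hc : u.Coprime h) :
    jacobiSym (-((b0 D (h ^ 2) c : ℤ) * (gg (h ^ 2) : ℤ))) u = jacobiSym (-(D : ℤ)) u := by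
  have h1 : -((b0 D (h ^ 2) c : ℤ) * (gg (h ^ 2) : ℤ)) = (-(D : ℤ)) * ((2 ^ c * 4 * gg (h ^ 2) : ℕ) : ℤ) ^ 2 := by
    unfold b0
    push_cast
    have : (4 : ℤ) ^ c = (2 ^ c) ^ 2 := by
      rw [← pow_mul, mul_comm, pow_mul]
      norm_num
    rw [this]
    ring
  have h2 : (2 ^ c * 4 * gg (h ^ 2)).Coprime u := by
    have ha : (2 : ℕ).Coprime u := hu.coprime_two_left
    have hb : (2 ^ c).Coprime u := Nat.Coprime.pow_left c ha
    have hd : (4 : ℕ).Coprime u := by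
      have : (4 : ℕ) = 2 ^ 2 := by norm_num
      rw [this]
      exact Nat.Coprime.pow_left 2 ha
    have he : (gg (h ^ 2)).Coprime u := by
      refine Nat.Coprime.coprime_dvd_left (Dvd.intro _ (gg_sq h)) ?_
      exact Nat.Coprime.pow_left 2 hc.symm
    exact (hb.mul_left hd).mul_left he
  rw [h1, jacobiSym.mul_left, jacobiSym.sq_one' (by rw [Int.gcd_natCast_natCast]; exact h2), mul_one]

private theorem SU_eq {D h c : ℕ} (F : ℝ → ℂ) (Y : ℝ) :
    SU ((b0 D (h ^ 2) c : ℤ) * (gg (h ^ 2) : ℤ)) (h ^ 2) F Y = SU (D : ℤ) h F Y := by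
  unfold SU
  refine tsum_congr fun u => ?_
  by_cases hu : Odd u ∧ u.Coprime h
  · have hu2 : Odd u ∧ u.Coprime (h ^ 2) := ⟨hu.1, Nat.Coprime.pow_right 2 hu.2⟩
    rw [if_pos hu, if_pos hu2, jac_eq hu.1 hu.2]
  · have hu2 : ¬ (Odd u ∧ u.Coprime (h ^ 2)) := fun hx => hu ⟨hx.1, (Nat.coprime_pow_right_iff (by norm_num) _ _).1 hx.2⟩
    rw [if_neg hu, if_neg hu2]

private theorem kap_sum_odd {h : ℕ} (hh : h % 2 = 1) : ∑ c ∈ Finset.range 3, (kap (h ^ 2) c : ℝ) * ((4 : ℝ) ^ c)⁻¹ = 1 / 2 := by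
  have h1 : h ^ 2 % 2 = 1 := by
    rw [Nat.pow_mod, hh]
  simp only [Finset.sum_range_succ, Finset.sum_range_zero, kap, h1, if_true]
  norm_num

private theorem kap_sum_even {h : ℕ} (hh : ¬ h % 2 = 1) : ∑ c ∈ Finset.range 3, (kap (h ^ 2) c : ℝ) * ((4 : ℝ) ^ c)⁻¹ = 3 / 8 := by
  have h0 : h % 2 = 0 := by omega
  have h1 : ¬ h ^ 2 % 2 = 1 := by
    rw [Nat.pow_mod, h0]
    norm_num
  simp only [Finset.sum_range_succ, Finset.sum_range_zero, kap, h1, if_false]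
  norm_num

private theorem main_val {K D : ℕ} (hD : 1 ≤ D) (X : ℝ) {h : ℕ} (hh : h ≠ 0) :
    ∑ c ∈ Finset.range 3, trm K D X (h ^ 2) c (b0 D (h ^ 2) c : ℤ) =
      bet h * SU (D : ℤ) h (Fk K 1) (4 * D * X / (h : ℝ) ^ 2) := by
  have hpos : (0 : ℝ) < h := by exact_mod_cast Nat.pos_of_ne_zero hh
  have hterm : ∀ c, trm K D X (h ^ 2) c (b0 D (h ^ 2) c : ℤ) =
      ((((kap (h ^ 2) c : ℝ) * ((4 : ℝ) ^ c)⁻¹ : ℝ)) : ℂ) *
      (((ArithmeticFunction.moebius (rad h) : ℤ) : ℂ) * (1 - I) *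
        ((Nat.totient (4 * rad h) : ℂ) / 2) * (rad h : ℂ) / (h : ℂ) ^ 3 *
        SU (D : ℤ) h (Fk K 1) (4 * D * X / (h : ℝ) ^ 2)) := by
    intro c
    unfold trm
    rw [CN_b0_sq hh, SU_eq]
    have hb : (((b0 D (h ^ 2) c : ℕ) : ℤ) : ℝ) / ((b0 D (h ^ 2) c : ℕ) : ℝ) = 1 := by
      rw [Int.cast_natCast]
      refine div_self ?_
      have := b0_pos (pow_ne_zero 2 hh) hD c
      exact_mod_cast this.ne'
    rw [hb]
    have hgg : (gg (h ^ 2) : ℝ) = (h : ℝ) ^ 2 / rad h := by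
      rw [eq_div_iff (by exact_mod_cast (rad_pos h).ne')]
      exact_mod_cast gg_sq h
    have hcf : cf (h ^ 2) c = (kap (h ^ 2) c : ℝ) * ((4 : ℝ) ^ c)⁻¹ * ((ArithmeticFunction.moebius (rad h) : ℝ) * (rad h : ℝ) / (h : ℝ) ^ 3) := by
      unfold cf
      rw [rad_sq, hgg]
      push_cast
      rw [Real.sqrt_sq hpos.le]
      have hr : (rad h : ℝ) ≠ 0 := by exact_mod_cast (rad_pos h).ne'
      field_simp
    rw [hcf]
    push_cast
    ring
  rw [Finset.sum_congr rfl fun c _ => hterm c, ← Finset.sum_mul]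
  have hsum : (∑ c ∈ Finset.range 3, ((((kap (h ^ 2) c : ℝ) * ((4 : ℝ) ^ c)⁻¹ : ℝ)) : ℂ)) =
      (if h % 2 = 1 then (1 / 2 : ℂ) else 3 / 8) := by
    rw [← Complex.ofReal_sum]
    split_ifs with h2
    · rw [kap_sum_odd h2]
      push_cast
      rfl
    · rw [kap_sum_even h2]
      push_cast
      rfl
  rw [hsum]
  unfold bet
  ring

private theorem SU_bound {K : ℕ} (hK : 2 ≤ K) : ∃ C : ℝ, 0 < C ∧ ∀ (m : ℤ) (v : ℕ) (Y : ℝ), 0 < Y →
    ‖SU m v (Fk K 1) Y‖ ≤ C * Y ^ 3 := by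
  obtain ⟨C1, hC1, hF⟩ := Fk_dec
  obtain ⟨C2, hC2, hE⟩ := sum_exp_log
  refine ⟨C1 * Real.sqrt K * C2 + 1, by positivity, fun m v Y hY => ?_⟩
  obtain ⟨hs, hle⟩ := hE Y hY
  have hb : ‖SU m v (Fk K 1) Y‖ ≤ C1 * Real.sqrt K *
      ∑' u : ℕ, (if u = 0 then 0 else Real.exp (-(3 * |Real.log (u / Y)|))) := by
    unfold SU
    refine tsum_of_norm_bounded (hs.hasSum.mul_left (C1 * Real.sqrt K)) fun u => ?_
    by_cases hu : Odd u ∧ u.Coprime v
    · have hu0 : u ≠ 0 := by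
        rintro rfl
        simp at hu
      rw [if_pos hu, if_neg hu0, norm_mul, norm_mul]
      have h1 := hF K hK 1 (Real.log (u / Y))
      have h2 := norm_mu_le u
      have h3 := norm_jac_le (-m) u
      have h4 : ((1 + |(1 : ℝ)|) ^ 2)⁻¹ ≤ 1 := by
        rw [abs_one]
        norm_num
      calc ‖((ArithmeticFunction.moebius u : ℤ) : ℂ)‖ * ‖((jacobiSym (-m) u : ℤ) : ℂ)‖ * ‖Fk K 1 (Real.log (u / Y))‖
          ≤ 1 * 1 * (C1 * Real.sqrt K * ((1 + |(1 : ℝ)|) ^ 2)⁻¹ * Real.exp (-(3 * |Real.log (u / Y)|))) := by gcongr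
        _ ≤ 1 * 1 * (C1 * Real.sqrt K * 1 * Real.exp (-(3 * |Real.log (u / Y)|))) := by gcongr
        _ = C1 * Real.sqrt K * Real.exp (-(3 * |Real.log (u / Y)|)) := by ring
    · rw [if_neg hu, norm_zero]
      split_ifs
      · simp
      · positivity
  calc ‖SU m v (Fk K 1) Y‖ ≤ C1 * Real.sqrt K *
      ∑' u : ℕ, (if u = 0 then 0 else Real.exp (-(3 * |Real.log (u / Y)|))) := hb
    _ ≤ C1 * Real.sqrt K * (C2 * Y ^ 3) := by
        refine mul_le_mul_of_nonneg_left (hle.trans ?_) (by positivity)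
        exact mul_le_mul_of_nonneg_left (min_le_right _ _) hC2.le
    _ ≤ (C1 * Real.sqrt K * C2 + 1) * Y ^ 3 := by nlinarith [pow_pos hY 3]

open Classical in
/-- the terms `b = b0`: zero unless `v = h²` (`CN_b0_nonsq`, `CN_b0_sq`), `∑_c kap 4^(-c) = 1/2` or `3/8`; `(-b0 g / u) = (-D / u)` for odd `u`
prime to `v` -/
theorem main_eq {K D : ℕ} (hK : 2 ≤ K) (hD : 1 ≤ D) {X : ℝ} (hX : 2 ≤ X) :
    ((16 * D : ℕ) : ℂ)⁻¹ * (∑' v : ℕ, if VV v then ∑ c ∈ Finset.range 3, trm K D X v c (b0 D v c : ℤ) else 0) = SS D (Fk K 1) X ∧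
    Summable (fun v : ℕ => if VV v then ∑ c ∈ Finset.range 3, trm K D X v c (b0 D v c : ℤ) else 0) := by
  have hval : ∀ h : ℕ, (if VV (h ^ 2) then ∑ c ∈ Finset.range 3, trm K D X (h ^ 2) c (b0 D (h ^ 2) c : ℤ) else 0) =
      bet h * SU (D : ℤ) h (Fk K 1) (4 * D * X / (h : ℝ) ^ 2) := by
    intro h
    by_cases hh : h = 0
    · subst hh
      have h1 : ¬ VV (0 ^ 2) := fun hx => hx.1 (by norm_num)
      rw [if_neg h1]
      simp [bet]
    · rw [if_pos (VV_sq hh), main_val hD X hh]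
  have hinj : Function.Injective (fun h : ℕ => h ^ 2) := fun a b hab => by
    simpa using (Nat.pow_left_injective (n := 2) (by norm_num)) hab
  have hzero : ∀ v ∉ Set.range (fun h : ℕ => h ^ 2),
      (if VV v then ∑ c ∈ Finset.range 3, trm K D X v c (b0 D v c : ℤ) else 0) = 0 := by
    intro v hv
    by_cases hVV : VV v
    · have hns : ¬ IsSquare v := by
        rintro ⟨r, hr⟩
        exact hv ⟨r, by simp only; rw [hr]; ring⟩
      rw [if_pos hVV]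
      refine Finset.sum_eq_zero fun c _ => ?_
      unfold trm
      rw [CN_b0_nonsq hVV hns]
      ring
    · rw [if_neg hVV]
  have hsq : Summable (fun h : ℕ => bet h * SU (D : ℤ) h (Fk K 1) (4 * D * X / (h : ℝ) ^ 2)) := by
    obtain ⟨C, hC, hb⟩ := SU_bound hK
    have hs : Summable (fun h : ℕ => C * (4 * D * X) ^ 3 * (1 / (h : ℝ) ^ 2)) :=
      (Real.summable_one_div_nat_pow.2 (by norm_num : 1 < 2)).mul_left _
    refine Summable.of_norm_bounded hs fun h => ?_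
    by_cases hh : h = 0
    · subst hh
      simp [bet]
    have hD0 : (0 : ℝ) < D := by exact_mod_cast hD
    have hpos : (1 : ℝ) ≤ h := by exact_mod_cast Nat.pos_of_ne_zero hh
    have hpos0 : (0 : ℝ) < h := by linarith
    have hY : 0 < 4 * D * X / (h : ℝ) ^ 2 := by positivity
    rw [norm_mul]
    calc ‖bet h‖ * ‖SU (D : ℤ) h (Fk K 1) (4 * D * X / (h : ℝ) ^ 2)‖
        ≤ (1 / h) * (C * (4 * D * X / (h : ℝ) ^ 2) ^ 3) :=
          mul_le_mul (norm_bet_le h) (hb _ _ _ hY) (norm_nonneg _) (by positivity)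
      _ = C * (4 * D * X) ^ 3 * (1 / (h : ℝ) ^ 7) := by
          field_simp
      _ ≤ C * (4 * D * X) ^ 3 * (1 / (h : ℝ) ^ 2) := by
          refine mul_le_mul_of_nonneg_left ?_ (by positivity)
          exact one_div_le_one_div_of_le (by positivity) (pow_le_pow_right₀ hpos (by norm_num))
  have hsum : Summable (fun v : ℕ => if VV v then ∑ c ∈ Finset.range 3, trm K D X v c (b0 D v c : ℤ) else 0) := by
    rw [← hinj.summable_iff hzero]
    refine hsq.congr fun h => ?_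
    simp only [Function.comp]
    exact (hval h).symm
  refine ⟨?_, hsum⟩
  unfold SS
  congr 1
  rw [← hinj.tsum_eq (f := fun v : ℕ => if VV v then ∑ c ∈ Finset.range 3, trm K D X v c (b0 D v c : ℤ) else 0)
    (fun v hv => by
      by_contra hx
      exact hv (hzero v hx))]
  exact tsum_congr fun h => hval h

open Classical in
private theorem diff_bound {K D : ℕ} (hK : 2 ≤ K) (hD : 1 ≤ D) {X : ℝ} (hX : 0 < X) {v : ℕ} (hv : v ≠ 0) (c : ℕ) (δ : ℝ) :
    ‖(∑' b : ℤ, trm K D X v c b) - trm K D X v c (b0 D v c : ℤ)‖ ≤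
      ∑' b : ℤ, (if b ≠ (b0 D v c : ℤ) ∧ |(b : ℝ) / (b0 D v c : ℝ) - 1| < δ then ‖trm K D X v c b‖ else 0) +
      ∑' b : ℤ, (if δ ≤ |(b : ℝ) / (b0 D v c : ℝ) - 1| then ‖trm K D X v c b‖ else 0) := by
  have hs := summable_trm hK hD hX hv c
  have hs' : Summable (fun b : ℤ => trm K D X v c b) := hs.of_norm
  have h1 := hs'.tsum_eq_add_tsum_ite (b0 D v c : ℤ)
  rw [h1, add_sub_cancel_left]
  have hsN : Summable (fun b : ℤ => (if b ≠ (b0 D v c : ℤ) ∧ |(b : ℝ) / (b0 D v c : ℝ) - 1| < δ then ‖trm K D X v c b‖ else 0)) := by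
    refine Summable.of_nonneg_of_le (fun b => ?_) (fun b => ?_) hs
    · split_ifs
      · exact norm_nonneg _
      · exact le_rfl
    · split_ifs
      · exact le_rfl
      · exact norm_nonneg _
  have hsF : Summable (fun b : ℤ => (if δ ≤ |(b : ℝ) / (b0 D v c : ℝ) - 1| then ‖trm K D X v c b‖ else 0)) := by
    refine Summable.of_nonneg_of_le (fun b => ?_) (fun b => ?_) hs
    · split_ifs
      · exact norm_nonneg _
      · exact le_rfl
    · split_ifs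
      · exact le_rfl
      · exact norm_nonneg _
  rw [← hsN.tsum_add hsF]
  refine tsum_of_norm_bounded (hsN.add hsF).hasSum fun b => ?_
  by_cases hb : b = (b0 D v c : ℤ)
  · rw [if_pos hb, norm_zero]
    refine add_nonneg ?_ ?_
    · split_ifs
      · exact norm_nonneg _
      · exact le_rfl
    · split_ifs
      · exact norm_nonneg _
      · exact le_rfl
  · rw [if_neg hb]
    by_cases hn : |(b : ℝ) / (b0 D v c : ℝ) - 1| < δ
    · rw [if_pos ⟨hb, hn⟩, if_neg (not_le.2 hn), add_zero]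
    · rw [if_neg (fun h => hn h.2), if_pos (not_lt.1 hn), zero_add]

private theorem exp_bound {c : ℝ} (hc : 0 < c) (A : ℝ) : ∃ C : ℝ, 0 < C ∧ ∀ y : ℝ, 1 ≤ y →
    y ^ A * Real.exp (-(c * y ^ (1 / 18 : ℝ))) ≤ C := by
  obtain ⟨n, hn⟩ := exists_nat_ge (18 * A)
  refine ⟨n.factorial / c ^ n, by positivity, fun y hy => ?_⟩
  have hy0 : 0 < y := by linarith
  set t : ℝ := y ^ (1 / 18 : ℝ) with ht
  have ht1 : 1 ≤ t := Real.one_le_rpow hy (by norm_num)
  have ht0 : 0 < t := by linarith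
  have hyt : y ^ A ≤ t ^ n := by
    have h1 : y ^ A = t ^ (18 * A) := by
      rw [ht, ← Real.rpow_mul hy0.le]
      congr 1
      ring
    rw [h1, ← Real.rpow_natCast t n]
    exact Real.rpow_le_rpow_of_exponent_le ht1 hn
  have h2 := Real.pow_div_factorial_le_exp (c * t) (by positivity) n
  have h3 : t ^ n ≤ n.factorial / c ^ n * Real.exp (c * t) := by
    rw [mul_pow, div_le_iff₀ (by positivity)] at h2
    rw [div_mul_eq_mul_div, le_div_iff₀ (by positivity)]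
    linarith
  calc y ^ A * Real.exp (-(c * t)) ≤ (n.factorial / c ^ n * Real.exp (c * t)) * Real.exp (-(c * t)) := by
        refine mul_le_mul_of_nonneg_right (hyt.trans h3) (Real.exp_pos _).le
    _ = n.factorial / c ^ n := by
        rw [mul_assoc, ← Real.exp_add, add_neg_cancel, Real.exp_zero, mul_one]

/-- `TT_eq`, `main_eq`, `near_sum`, `far_sum`, `summable_trm`, `summable_V`; `X³ √K exp (-c K^(1/18)) ≤ C` because `K ≥ X^(τ/2)`. -/
theorem partB {σ₀ ε' : ℝ} (h1 : 1 / 2 ≤ σ₀) (h2 : σ₀ ≤ 1) (hε : 0 < ε') (hε2 : ε' ≤ 1 / 256) (hZ : ZZ σ₀) {D : ℕ} (hD : 1 ≤ D)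
    {τ : ℝ} (hτ : 0 < τ) (hτ1 : τ ≤ 1) :
    ∃ C : ℝ, 0 < C ∧ ∀ K : ℕ, 16 ≤ K → ∀ X : ℝ, 2 ≤ X → X ^ (τ / 2) ≤ K → (K : ℝ) ≤ X ^ τ →
      ‖TT K D X - SS D (Fk K 1) X‖ ≤ C * X ^ (σ₀ + ε') * (K : ℝ) ^ (-(1 / 32) : ℝ) := by
  classical
  obtain ⟨C1, hC1, hnear⟩ := near_sum h1 h2 hε hε2 hZ hD
  obtain ⟨c, C2, hc, hC2, hfar⟩ := far_sum hD
  obtain ⟨C3, hC3, hexp⟩ := exp_bound hc (6 / τ + 1 / 2 + 1 / 32)
  set W : ℕ → ℝ := fun v => if VV v then
    (gg v : ℝ) ^ (-(3 / 4) : ℝ) * (rad v : ℝ) ^ (-(1 / 2) : ℝ) * (v : ℝ) ^ (1 / 16 : ℝ) else 0 with hW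
  have hWs : Summable W := by
    have h := summable_V
    refine h.congr fun v => ?_
    rw [hW]
  have hW0 : ∀ v, 0 ≤ W v := by
    intro v
    rw [hW]
    by_cases hv : VV v
    · simp only [if_pos hv]
      positivity
    · simp only [if_neg hv]
      exact le_rfl
  have hZs : Summable (fun v : ℕ => (v : ℝ) ^ (-(3 / 2) : ℝ)) := Real.summable_nat_rpow.2 (by norm_num)
  have hZ0 : ∀ v : ℕ, 0 ≤ (v : ℝ) ^ (-(3 / 2) : ℝ) := fun v => Real.rpow_nonneg (Nat.cast_nonneg _) _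
  set SV : ℝ := ∑' v, W v with hSV
  set SZ : ℝ := ∑' v : ℕ, (v : ℝ) ^ (-(3 / 2) : ℝ) with hSZ
  have hSV0 : 0 ≤ SV := tsum_nonneg hW0
  have hSZ0 : 0 ≤ SZ := tsum_nonneg hZ0
  refine ⟨3 * C1 * SV + 3 * (C2 * C3) * SZ + 1, by positivity, fun K hK X hX hKX1 hKX2 => ?_⟩
  have hK2 : 2 ≤ K := by omega
  have hKr : (1 : ℝ) ≤ K := by
    have : (1 : ℕ) ≤ K := by omega
    exact_mod_cast this
  have hK0 : (0 : ℝ) < K := by linarith
  have hX0 : 0 < X := by linarith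
  have hX1 : 1 ≤ X := by linarith
  set B1 : ℝ := C1 * X ^ (σ₀ + ε') * (K : ℝ) ^ (-(1 / 32) : ℝ) with hB1
  set B2 : ℝ := C2 * X ^ 3 * Real.sqrt K * Real.exp (-(c * (K : ℝ) ^ (1 / 18 : ℝ))) with hB2
  have hB10 : 0 ≤ B1 := by positivity
  have hB20 : 0 ≤ B2 := by positivity
  set f : ℕ → ℂ := fun v => if VV v then ∑ c ∈ Finset.range 3, ∑' b : ℤ, trm K D X v c b else 0 with hf
  set g : ℕ → ℂ := fun v => if VV v then ∑ c ∈ Finset.range 3, trm K D X v c (b0 D v c : ℤ) else 0 with hg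
  have hTT : TT K D X = ((16 * D : ℕ) : ℂ)⁻¹ * ∑' v, f v := by
    rw [TT_eq hK2 hD hX]
  obtain ⟨hm1, hm2⟩ := main_eq hK2 hD hX
  have hgs : Summable g := by
    refine hm2.congr fun v => ?_
    rw [hg]
  have hSS : SS D (Fk K 1) X = ((16 * D : ℕ) : ℂ)⁻¹ * ∑' v, g v := by
    rw [← hm1]
  have hd : ∀ v, ‖f v - g v‖ ≤ 3 * B1 * W v + 3 * B2 * (v : ℝ) ^ (-(3 / 2) : ℝ) := by
    intro v
    by_cases hv : VV v
    · have hfv : f v = ∑ c ∈ Finset.range 3, ∑' b : ℤ, trm K D X v c b := by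
        rw [hf]
        simp only [if_pos hv]
      have hgv : g v = ∑ c ∈ Finset.range 3, trm K D X v c (b0 D v c : ℤ) := by
        rw [hg]
        simp only [if_pos hv]
      have hWv : W v = (gg v : ℝ) ^ (-(3 / 4) : ℝ) * (rad v : ℝ) ^ (-(1 / 2) : ℝ) * (v : ℝ) ^ (1 / 16 : ℝ) := by
        rw [hW]
        simp only [if_pos hv]
      rw [hfv, hgv, ← Finset.sum_sub_distrib]
      have hcb : ∀ c' ∈ Finset.range 3, ‖(∑' b : ℤ, trm K D X v c' b) - trm K D X v c' (b0 D v c' : ℤ)‖ ≤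
          B1 * W v + B2 * (v : ℝ) ^ (-(3 / 2) : ℝ) := by
        intro c' hc'
        have hc3 := Finset.mem_range.1 hc'
        have hd1 := diff_bound hK2 hD hX0 hv.1 c' ((K : ℝ) ^ (-(17 / 36) : ℝ))
        have hn := hnear K hK X hX v c' hv hc3
        have hfa := hfar K hK X hX v c' hv.1 hc3
        refine hd1.trans ?_
        refine add_le_add ?_ ?_
        · rw [hWv]
          refine le_trans (le_of_eq ?_) hn
          refine tsum_congr fun b => ?_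
          by_cases hb : b ≠ (b0 D v c' : ℤ) ∧ |(b : ℝ) / (b0 D v c' : ℝ) - 1| < (K : ℝ) ^ (-(17 / 36) : ℝ)
          · simp only [if_pos hb]
          · simp only [if_neg hb]
        · refine le_trans (le_of_eq ?_) hfa
          refine tsum_congr fun b => ?_
          by_cases hb : (K : ℝ) ^ (-(17 / 36) : ℝ) ≤ |(b : ℝ) / (b0 D v c' : ℝ) - 1|
          · simp only [if_pos hb]
          · simp only [if_neg hb]
      refine (norm_sum_le _ _).trans ((Finset.sum_le_sum hcb).trans (le_of_eq ?_))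
      rw [Finset.sum_const, Finset.card_range, nsmul_eq_mul]
      push_cast
      ring
    · have hfv : f v = 0 := by
        rw [hf]
        simp only [if_neg hv]
      have hgv : g v = 0 := by
        rw [hg]
        simp only [if_neg hv]
      rw [hfv, hgv, sub_zero, norm_zero]
      have := hW0 v
      have := hZ0 v
      positivity
  have hbs : Summable (fun v : ℕ => 3 * B1 * W v + 3 * B2 * (v : ℝ) ^ (-(3 / 2) : ℝ)) :=
    (hWs.mul_left _).add (hZs.mul_left _)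
  have hfgs : Summable (fun v => f v - g v) := Summable.of_norm_bounded hbs hd
  have hfs : Summable f := by
    have := hfgs.add hgs
    refine this.congr fun v => ?_
    ring
  have hmain : ‖∑' v, (f v - g v)‖ ≤ 3 * B1 * SV + 3 * B2 * SZ := by
    refine tsum_of_norm_bounded ?_ hd
    exact (hWs.hasSum.mul_left _).add (hZs.hasSum.mul_left _)
  have hdiff : TT K D X - SS D (Fk K 1) X = ((16 * D : ℕ) : ℂ)⁻¹ * ∑' v, (f v - g v) := by
    rw [hTT, hSS, hfs.tsum_sub hgs]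
    ring
  have hinv : ‖((16 * D : ℕ) : ℂ)⁻¹‖ ≤ 1 := by
    rw [norm_inv, Complex.norm_natCast]
    refine inv_le_one_of_one_le₀ ?_
    have : 1 ≤ 16 * D := by omega
    exact_mod_cast this
  have hX3 : X ^ 3 ≤ (K : ℝ) ^ (6 / τ) := by
    have ha : X ≤ (K : ℝ) ^ (2 / τ) := by
      calc X = (X ^ (τ / 2)) ^ (2 / τ) := by
            rw [← Real.rpow_mul hX0.le]
            have : τ / 2 * (2 / τ) = 1 := by
              field_simp
            rw [this, Real.rpow_one]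
        _ ≤ (K : ℝ) ^ (2 / τ) := Real.rpow_le_rpow (Real.rpow_nonneg hX0.le _) hKX1 (by positivity)
    calc X ^ 3 ≤ ((K : ℝ) ^ (2 / τ)) ^ 3 := pow_le_pow_left₀ hX0.le ha 3
      _ = (K : ℝ) ^ (6 / τ) := by
          rw [← Real.rpow_natCast, ← Real.rpow_mul hK0.le]
          congr 1
          push_cast
          ring
  have hB2le : B2 ≤ C2 * C3 * (X ^ (σ₀ + ε') * (K : ℝ) ^ (-(1 / 32) : ℝ)) := by
    have he := hexp K hKr
    have hk : (K : ℝ) ^ (6 / τ + 1 / 2 + 1 / 32) = (K : ℝ) ^ (6 / τ) * Real.sqrt K * (K : ℝ) ^ (1 / 32 : ℝ) := by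
      rw [Real.rpow_add hK0, Real.rpow_add hK0, Real.sqrt_eq_rpow]
    rw [hk] at he
    have hk32 : (K : ℝ) ^ (1 / 32 : ℝ) * (K : ℝ) ^ (-(1 / 32) : ℝ) = 1 := by
      rw [← Real.rpow_add hK0]
      norm_num
    have hXge : 1 ≤ X ^ (σ₀ + ε') := Real.one_le_rpow hX1 (by linarith)
    have hkm : 0 < (K : ℝ) ^ (-(1 / 32) : ℝ) := Real.rpow_pos_of_pos hK0 _
    calc B2 = C2 * (X ^ 3 * Real.sqrt K * Real.exp (-(c * (K : ℝ) ^ (1 / 18 : ℝ)))) := by
          rw [hB2]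
          ring
      _ ≤ C2 * ((K : ℝ) ^ (6 / τ) * Real.sqrt K * Real.exp (-(c * (K : ℝ) ^ (1 / 18 : ℝ)))) := by gcongr
      _ = C2 * (((K : ℝ) ^ (6 / τ) * Real.sqrt K * (K : ℝ) ^ (1 / 32 : ℝ) * Real.exp (-(c * (K : ℝ) ^ (1 / 18 : ℝ)))) *
            (K : ℝ) ^ (-(1 / 32) : ℝ)) := by
          linear_combination (-(C2 * (K : ℝ) ^ (6 / τ) * Real.sqrt K * Real.exp (-(c * (K : ℝ) ^ (1 / 18 : ℝ))))) * hk32
      _ ≤ C2 * (C3 * (K : ℝ) ^ (-(1 / 32) : ℝ)) := by gcongr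
      _ = C2 * C3 * (1 * (K : ℝ) ^ (-(1 / 32) : ℝ)) := by ring
      _ ≤ C2 * C3 * (X ^ (σ₀ + ε') * (K : ℝ) ^ (-(1 / 32) : ℝ)) := by gcongr
  rw [hdiff, norm_mul]
  calc ‖((16 * D : ℕ) : ℂ)⁻¹‖ * ‖∑' v, (f v - g v)‖ ≤ 1 * (3 * B1 * SV + 3 * B2 * SZ) :=
        mul_le_mul hinv hmain (norm_nonneg _) (by norm_num)
    _ ≤ 1 * (3 * B1 * SV + 3 * (C2 * C3 * (X ^ (σ₀ + ε') * (K : ℝ) ^ (-(1 / 32) : ℝ))) * SZ) := by gcongr
    _ = (3 * C1 * SV + 3 * (C2 * C3) * SZ) * X ^ (σ₀ + ε') * (K : ℝ) ^ (-(1 / 32) : ℝ) := by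
        rw [hB1]
        ring
    _ ≤ (3 * C1 * SV + 3 * (C2 * C3) * SZ + 1) * X ^ (σ₀ + ε') * (K : ℝ) ^ (-(1 / 32) : ℝ) := by
        have hp : 0 ≤ X ^ (σ₀ + ε') * (K : ℝ) ^ (-(1 / 32) : ℝ) := by positivity
        linarith

end Pool.Agent.MP_291b24_nt.Sm
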