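import Pool.Agent.Lib.MP_291b24_nt.Sm.Lb

/-! The functions `L(s, ψ_{-m})` -/

set_option autoImplicit false

open Complex

namespace Pool.Agent.MP_291b24_nt.Sm

theorem Lpsi_eq {m : ℕ} [NeZero m] (s : ℂ) : Lpsi m s = (psi m).LFunction s := by
  simp [Lpsi, NeZero.ne m]

private theorem psi_apply (m : ℕ) [NeZero m] (a : ZMod (4 * m)) :
    psi m a = if Odd a.val then ((jacobiSym (-(m : ℤ)) a.val : ℤ) : ℂ) else 0 := rfl

private theorem psi_natCast (m : ℕ) [NeZero m] (u : ℕ) :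
    psi m (u : ZMod (4 * m)) = if Odd u then ((jacobiSym (-(m : ℤ)) u : ℤ) : ℂ) else 0 := by
  rw [psi_apply, ZMod.val_natCast]
  by_cases h : Odd u
  · rw [if_pos h, if_pos ((odd_mod _).2 h), psi_mod _ h]
  · rw [if_neg h, if_neg (fun h' => h ((odd_mod _).1 h'))]

private theorem psi_zero' (m : ℕ) [NeZero m] : psi m ((0 : ℕ) : ZMod (4 * m)) = 0 := by
  rw [psi_natCast]
  simp

/-- `(-m / (4m-1)) = (-4m / (4m-1)) = (-1 / (4m-1)) = -1` -/
theorem psi_ne_one (m : ℕ) [NeZero m] : psi m ≠ 1 := by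
  intro h
  have hm : 0 < m := Nat.pos_of_ne_zero (NeZero.ne m)
  set n : ℕ := 4 * m - 1 with hn
  have h4 : n % 4 = 3 := by omega
  have hodd : Odd n := by rw [Nat.odd_iff]; omega
  have hcop : n.Coprime (4 * m) := by
    have h1 : 4 * m = n + 1 := by omega
    rw [h1]
    simp
  have h1 : psi m (n : ZMod (4 * m)) = 1 := by
    rw [h]
    exact MulChar.one_apply ((ZMod.isUnit_iff_coprime n (4 * m)).2 hcop)
  rw [psi_natCast, if_pos hodd] at h1
  have h2 : jacobiSym (-(m : ℤ)) n = -1 := by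
    have e1 : jacobiSym (4 * (-(m : ℤ))) n = jacobiSym (-(m : ℤ)) n := by
      rw [jacobiSym.mul_left, jacobiSym.at_four hodd, one_mul]
    have e2 : jacobiSym (4 * (-(m : ℤ))) n = jacobiSym (-1) n := by
      refine jacobiSym.mod_left' ?_
      have h5 : (4 * (-(m : ℤ))) ≡ -1 [ZMOD (n : ℤ)] := by
        rw [Int.modEq_iff_dvd]
        refine ⟨1, ?_⟩
        have : ((n : ℕ) : ℤ) = 4 * m - 1 := by omega
        rw [this]
        ring
      exact h5
    rw [← e1, e2, jacobiSym.at_neg_one hodd, ZMod.χ₄_nat_three_mod_four h4]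
  rw [h2] at h1
  norm_num at h1

theorem differentiable_Lpsi (m : ℕ) : Differentiable ℂ (Lpsi m) := by
  rcases Nat.eq_zero_or_pos m with rfl | hm
  · have : Lpsi 0 = fun _ => 0 := by
      funext s
      simp [Lpsi]
    rw [this]
    exact differentiable_const _
  · have : NeZero m := ⟨hm.ne'⟩
    have e : Lpsi m = DirichletCharacter.LFunction (psi m) := by
      funext s
      exact Lpsi_eq s
    rw [e]
    exact DirichletCharacter.differentiable_LFunction (psi_ne_one m)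

theorem norm_Lpsi_le (m : ℕ) (s : ℂ) (hs : 0 < s.re) : ‖Lpsi m s‖ ≤ 4 * m * ‖s‖ / s.re := by
  rcases Nat.eq_zero_or_pos m with rfl | hm
  · simp [Lpsi]
  · have : NeZero m := ⟨hm.ne'⟩
    rw [Lpsi_eq]
    refine (norm_LFunction_le (fun j => psi m j) ((psi m).sum_eq_zero_of_ne_one (psi_ne_one m)) s
      hs).trans ?_
    have h1 : ∑ j, ‖psi m j‖ ≤ 4 * m := by
      calc ∑ j, ‖psi m j‖ ≤ ∑ _j : ZMod (4 * m), (1 : ℝ) :=
            Finset.sum_le_sum fun j _ => (psi m).norm_le_one j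
        _ = 4 * m := by
            rw [Finset.sum_const, Finset.card_univ, ZMod.card]
            simp
    gcongr

private theorem term_eq {f : ℕ → ℂ} (h0 : f 0 = 0) (s : ℂ) (n : ℕ) :
    LSeries.term f s n = f n * (n : ℂ) ^ (-s) := by
  rcases eq_or_ne n 0 with rfl | hn
  · rw [LSeries.term_zero, h0, zero_mul]
  · rw [LSeries.term_of_ne_zero hn, Complex.cpow_neg, div_eq_mul_inv]

/-- Dirichlet series -/
theorem hasSum_Lpsi {m : ℕ} (hm : 1 ≤ m) {s : ℂ} (hs : 1 < s.re) :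
    HasSum (fun u : ℕ => if Odd u then ((jacobiSym (-(m : ℤ)) u : ℤ) : ℂ) * (u : ℂ) ^ (-s) else 0) (Lpsi m s) := by
  have : NeZero m := ⟨by omega⟩
  rw [Lpsi_eq, DirichletCharacter.LFunction_eq_LSeries _ hs]
  have h := (DirichletCharacter.LSeriesSummable_of_one_lt_re (psi m) hs).LSeriesHasSum
  rw [LSeriesHasSum] at h
  convert h using 1
  funext u
  rw [term_eq (psi_zero' m) s u, psi_natCast]
  split_ifs
  · rfl
  · rw [zero_mul]

/-- `∑ μ(u) ψ(u) u^(-s) = 1 / L(s, ψ)` (`DirichletCharacter.LSeries...moebius`), with `(-m v² / u) = (-m / u) 1_{(u, v) = 1}` -/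
theorem hasSum_mu_psi {m v : ℕ} (hm : 1 ≤ m) (hv : 1 ≤ v) {s : ℂ} (hs : 1 < s.re) :
    HasSum (fun u : ℕ => if Odd u ∧ u.Coprime v then ((ArithmeticFunction.moebius u : ℤ) : ℂ) *
      ((jacobiSym (-(m : ℤ)) u : ℤ) : ℂ) * (u : ℂ) ^ (-s) else 0) (Lpsi (m * v ^ 2) s)⁻¹ := by
  have : NeZero (m * v ^ 2) := ⟨by positivity⟩
  rw [Lpsi_eq, DirichletCharacter.LFunction_eq_LSeries _ hs]
  have h1 := DirichletCharacter.LSeries.mul_mu_eq_one (psi (m * v ^ 2)) hs
  rw [inv_eq_of_mul_eq_one_right h1]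
  have h := (DirichletCharacter.LSeriesSummable_mul (psi (m * v ^ 2))
    (ArithmeticFunction.LSeriesSummable_moebius_iff.mpr hs)).LSeriesHasSum
  rw [LSeriesHasSum] at h
  convert h using 1
  funext u
  rw [term_eq (by rw [Pi.mul_apply, psi_zero', zero_mul]) s u]
  simp only [Pi.mul_apply]
  rw [psi_natCast]
  by_cases hu : Odd u
  · rw [if_pos hu]
    have e1 : jacobiSym (-((m * v ^ 2 : ℕ) : ℤ)) u =
        jacobiSym (-(m : ℤ)) u * jacobiSym (v : ℤ) u ^ 2 := by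
      push_cast
      rw [← neg_mul, jacobiSym.mul_left, jacobiSym.pow_left]
    by_cases hc : u.Coprime v
    · rw [if_pos ⟨hu, hc⟩, e1, jacobiSym.sq_one (by
        rw [Int.gcd_natCast_natCast]; exact hc.symm), mul_one]
      ring
    · have : NeZero u := ⟨by rintro rfl; simp at hu⟩
      have e2 : jacobiSym (v : ℤ) u = 0 := jacobiSym.eq_zero_iff_not_coprime.2 (by
        rw [Int.gcd_natCast_natCast]; exact fun h => hc (Nat.Coprime.symm h))
      rw [if_neg (fun h => hc h.2), e1, e2]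
      simp
  · rw [if_neg (fun h => hu h.1), if_neg hu]
    simp

theorem ZZ_one : ZZ 1 := by
  intro m hm s hs
  have : NeZero m := ⟨by omega⟩
  rw [Lpsi_eq, DirichletCharacter.LFunction_eq_LSeries _ hs]
  exact DirichletCharacter.LSeries_ne_zero_of_one_lt_re _ hs

/-- `‖L‖, ‖L⁻¹‖ ≤ ∑ n^(-Re s)` -/
theorem norm_Lpsi_le' {x : ℝ} (hx : 1 < x) : ∃ C : ℝ, 0 < C ∧ ∀ m : ℕ, 1 ≤ m → ∀ s : ℂ, x ≤ s.re →
    ‖Lpsi m s‖ ≤ C ∧ ‖(Lpsi m s)⁻¹‖ ≤ C := by
  have hsum : Summable fun n : ℕ => (n : ℝ) ^ (-x) :=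
    Real.summable_nat_rpow.2 (by linarith)
  refine ⟨(∑' n : ℕ, (n : ℝ) ^ (-x)) + 1, ?_, ?_⟩
  · have : 0 ≤ ∑' n : ℕ, (n : ℝ) ^ (-x) := tsum_nonneg fun n => by positivity
    linarith
  intro m hm s hs
  have hs1 : 1 < s.re := by linarith
  have key : ∀ (f : ℕ → ℂ) (S : ℂ), HasSum f S → (∀ n, ‖f n‖ ≤ (n : ℝ) ^ (-x)) →
      ‖S‖ ≤ (∑' n : ℕ, (n : ℝ) ^ (-x)) + 1 := by
    intro f S hf hn
    rw [← hf.tsum_eq]
    have := tsum_of_norm_bounded hsum.hasSum hn
    linarith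
  have hpow : ∀ n : ℕ, n ≠ 0 → ‖(n : ℂ) ^ (-s)‖ ≤ (n : ℝ) ^ (-x) := by
    intro n hn
    rw [Complex.norm_natCast_cpow_of_pos (Nat.pos_of_ne_zero hn)]
    refine Real.rpow_le_rpow_of_exponent_le ?_ ?_
    · exact_mod_cast Nat.pos_of_ne_zero hn
    · rw [Complex.neg_re]
      linarith
  have hJ : ∀ (a : ℤ) (n : ℕ), ‖((jacobiSym a n : ℤ) : ℂ)‖ ≤ 1 := by
    intro a n
    rcases jacobiSym.trichotomy a n with h | h | h <;> rw [h] <;> simp
  constructor
  · refine key _ _ (hasSum_Lpsi hm hs1) fun n => ?_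
    split_ifs with h
    · have hn : n ≠ 0 := by rintro rfl; simp at h
      rw [norm_mul]
      calc _ ≤ 1 * ‖(n : ℂ) ^ (-s)‖ := by gcongr; exact hJ _ _
        _ ≤ _ := by rw [one_mul]; exact hpow n hn
    · rw [norm_zero]
      positivity
  · have h1 := hasSum_mu_psi hm le_rfl hs1
    rw [one_pow, mul_one] at h1
    refine key _ _ h1 fun n => ?_
    split_ifs with h
    · have hn : n ≠ 0 := by rintro rfl; simp at h
      have hmu : ‖((ArithmeticFunction.moebius n : ℤ) : ℂ)‖ ≤ 1 := by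
        rw [Complex.norm_intCast]
        exact_mod_cast ArithmeticFunction.abs_moebius_le_one
      rw [norm_mul, norm_mul]
      calc _ ≤ 1 * 1 * ‖(n : ℂ) ^ (-s)‖ := by gcongr; exact hJ _ _
        _ ≤ _ := by rw [one_mul, one_mul]; exact hpow n hn
    · rw [norm_zero]
      positivity

end Pool.Agent.MP_291b24_nt.Sm
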