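import Pool.Agent.Lib.MP_291b24_nt.Sm.PartB

/-! The sums SS D F Y -/

set_option autoImplicit false

open Complex MeasureTheory

namespace Pool.Agent.MP_291b24_nt.Sm

/-- the coefficient of the pair `(h, u)` -/
private noncomputable def ssaC (D : ℕ) (p : ℕ × ℕ) : ℂ :=
  bet p.1 * (if Odd p.2 ∧ p.2.Coprime p.1 then
    ((ArithmeticFunction.moebius p.2 : ℤ) : ℂ) * ((jacobiSym (-(D : ℤ)) p.2 : ℤ) : ℂ) else 0)

/-- the argument of `F` -/
private noncomputable def ssaX (D : ℕ) (Y : ℝ) (p : ℕ × ℕ) : ℝ :=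
  Real.log (p.2 / (4 * D * Y / (p.1 : ℝ) ^ 2))

private theorem ssa_term (D : ℕ) (F : ℝ → ℂ) (Y : ℝ) (p : ℕ × ℕ) :
    bet p.1 * (if Odd p.2 ∧ p.2.Coprime p.1 then
      ((ArithmeticFunction.moebius p.2 : ℤ) : ℂ) * ((jacobiSym (-(D : ℤ)) p.2 : ℤ) : ℂ) *
        F (Real.log (p.2 / (4 * D * Y / (p.1 : ℝ) ^ 2))) else 0) = ssaC D p * F (ssaX D Y p) := by
  unfold ssaC ssaX
  split_ifs
  · ring
  · ring

private theorem ssa_mu (u : ℕ) : ‖((ArithmeticFunction.moebius u : ℤ) : ℂ)‖ ≤ 1 := by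
  rw [Complex.norm_intCast]
  exact_mod_cast ArithmeticFunction.abs_moebius_le_one

private theorem ssa_jac (a : ℤ) (u : ℕ) : ‖((jacobiSym a u : ℤ) : ℂ)‖ ≤ 1 := by
  rcases jacobiSym.trichotomy a u with h | h | h <;> rw [h] <;> norm_num

/-- the majorant -/
private noncomputable def ssaG (D : ℕ) (Y : ℝ) (p : ℕ × ℕ) : ℝ :=
  if p.1 = 0 then 0 else 1 / (p.1 : ℝ) * (if p.2 = 0 then 0 else Real.exp (-(3 * |ssaX D Y p|)))

private theorem ssaG_nonneg (D : ℕ) (Y : ℝ) (p : ℕ × ℕ) : 0 ≤ ssaG D Y p := by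
  unfold ssaG
  split_ifs
  · exact le_rfl
  · rw [mul_zero]
  · positivity

private theorem ssaC_le (D : ℕ) (Y : ℝ) (p : ℕ × ℕ) {B : ℝ} {z : ℂ}
    (hz : ‖z‖ ≤ B * Real.exp (-(3 * |ssaX D Y p|))) : ‖ssaC D p * z‖ ≤ B * ssaG D Y p := by
  have hB : 0 ≤ B := by
    have h1 := (norm_nonneg z).trans hz
    by_contra h2
    push Not at h2
    have h3 : B * Real.exp (-(3 * |ssaX D Y p|)) < 0 := mul_neg_of_neg_of_pos h2 (Real.exp_pos _)
    linarith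
  by_cases hh : p.1 = 0
  · have h1 : ssaC D p = 0 := by
      have h2 := norm_bet_le p.1
      rw [hh, Nat.cast_zero, div_zero] at h2
      have h3 : bet p.1 = 0 := by
        rw [hh]
        exact norm_le_zero_iff.1 h2
      rw [ssaC, h3, zero_mul]
    rw [h1, zero_mul, norm_zero]
    exact mul_nonneg hB (ssaG_nonneg D Y p)
  by_cases hu : Odd p.2 ∧ p.2.Coprime p.1
  · have hu0 : p.2 ≠ 0 := by
      intro h
      rw [h] at hu
      exact absurd hu.1 (by decide)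
    rw [ssaC, if_pos hu, ssaG, if_neg hh, if_neg hu0]
    have h4 : ‖((ArithmeticFunction.moebius p.2 : ℤ) : ℂ) * ((jacobiSym (-(D : ℤ)) p.2 : ℤ) : ℂ)‖
        ≤ 1 := by
      rw [norm_mul]
      exact mul_le_one₀ (ssa_mu _) (norm_nonneg _) (ssa_jac _ _)
    rw [norm_mul, norm_mul]
    have h5 : ‖bet p.1‖ * ‖((ArithmeticFunction.moebius p.2 : ℤ) : ℂ) *
        ((jacobiSym (-(D : ℤ)) p.2 : ℤ) : ℂ)‖ ≤ 1 / (p.1 : ℝ) * 1 :=
      mul_le_mul (norm_bet_le p.1) h4 (norm_nonneg _) (by positivity)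
    calc _ ≤ (1 / (p.1 : ℝ) * 1) * (B * Real.exp (-(3 * |ssaX D Y p|))) :=
          mul_le_mul h5 hz (norm_nonneg _) (by positivity)
      _ = _ := by ring
  · rw [ssaC, if_neg hu, mul_zero, zero_mul, norm_zero]
    exact mul_nonneg hB (ssaG_nonneg D Y p)

private theorem ssa_min {D : ℕ} (hD : 1 ≤ D) {Y : ℝ} (hY : 0 < Y) {h : ℕ} (hh : h ≠ 0) :
    min (4 * D * Y / (h : ℝ) ^ 2) ((4 * D * Y / (h : ℝ) ^ 2) ^ 3) ≤
      (4 * D : ℝ) ^ 3 * min Y (Y ^ 3) * (1 / (h : ℝ) ^ 2) := by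
  have h1 : (1 : ℝ) ≤ h := by exact_mod_cast Nat.pos_of_ne_zero hh
  have hD1 : (1 : ℝ) ≤ D := by exact_mod_cast hD
  have h2 : (1 : ℝ) ≤ (h : ℝ) ^ 2 := one_le_pow₀ h1
  have h3 : (4 * D : ℝ) ≤ (4 * D : ℝ) ^ 3 := le_self_pow₀ (by linarith) (by norm_num)
  have h4 : 4 * D * Y / (h : ℝ) ^ 2 ≤ (4 * D : ℝ) ^ 3 * Y * (1 / (h : ℝ) ^ 2) := by
    rw [div_eq_mul_one_div]
    gcongr
  have h5 : (4 * D * Y / (h : ℝ) ^ 2) ^ 3 ≤ (4 * D : ℝ) ^ 3 * Y ^ 3 * (1 / (h : ℝ) ^ 2) := by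
    have h6 : (4 * D * Y / (h : ℝ) ^ 2) ^ 3 = (4 * D : ℝ) ^ 3 * Y ^ 3 * (1 / ((h : ℝ) ^ 2) ^ 3) := by
      field_simp
    rw [h6]
    have h7 : (h : ℝ) ^ 2 ≤ ((h : ℝ) ^ 2) ^ 3 := le_self_pow₀ h2 (by norm_num)
    gcongr
  rcases le_total Y (Y ^ 3) with h8 | h8
  · rw [min_eq_left h8]
    exact (min_le_left _ _).trans h4
  · rw [min_eq_right h8]
    exact (min_le_right _ _).trans h5

private theorem ssaG_sum {D : ℕ} (hD : 1 ≤ D) : ∃ C : ℝ, 0 < C ∧ ∀ Y : ℝ, 0 < Y →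
    Summable (ssaG D Y) ∧ ∑' p, ssaG D Y p ≤ C * min Y (Y ^ 3) := by
  obtain ⟨C₀, hC₀, hC⟩ := sum_exp_log
  have hD0 : (0 : ℝ) < D := by exact_mod_cast hD
  have hz : Summable (fun h : ℕ => 1 / (h : ℝ) ^ 3) := by
    exact_mod_cast Real.summable_one_div_nat_pow.2 (by norm_num : 1 < 3)
  have hz0 : 0 ≤ ∑' h : ℕ, 1 / (h : ℝ) ^ 3 := tsum_nonneg fun h => by positivity
  refine ⟨C₀ * (4 * D : ℝ) ^ 3 * (∑' h : ℕ, 1 / (h : ℝ) ^ 3 + 1), by positivity, fun Y hY => ?_⟩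
  have hm : 0 < min Y (Y ^ 3) := lt_min hY (by positivity)
  have hin : ∀ h : ℕ, Summable (fun u : ℕ => ssaG D Y (h, u)) ∧
      ∑' u : ℕ, ssaG D Y (h, u) ≤ C₀ * (4 * D : ℝ) ^ 3 * min Y (Y ^ 3) * (1 / (h : ℝ) ^ 3) := by
    intro h
    by_cases hh : h = 0
    · have e1 : (fun u : ℕ => ssaG D Y (h, u)) = fun _ => 0 := by
        funext u
        rw [ssaG, if_pos hh]
      rw [e1, tsum_zero]
      exact ⟨summable_zero, by positivity⟩
    · have hh0 : (0 : ℝ) < h := by exact_mod_cast Nat.pos_of_ne_zero hh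
      have hY' : 0 < 4 * D * Y / (h : ℝ) ^ 2 := by positivity
      obtain ⟨h1, h2⟩ := hC _ hY'
      have e1 : (fun u : ℕ => ssaG D Y (h, u)) = fun u : ℕ => 1 / (h : ℝ) *
          (if u = 0 then 0 else Real.exp (-(3 * |Real.log (u / (4 * D * Y / (h : ℝ) ^ 2))|))) := by
        funext u
        rw [ssaG, if_neg hh]
        rfl
      rw [e1, tsum_mul_left]
      refine ⟨h1.mul_left _, ?_⟩
      calc _ ≤ 1 / (h : ℝ) * (C₀ * ((4 * D : ℝ) ^ 3 * min Y (Y ^ 3) * (1 / (h : ℝ) ^ 2))) := by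
            refine mul_le_mul_of_nonneg_left (h2.trans ?_) (by positivity)
            exact mul_le_mul_of_nonneg_left (ssa_min hD hY hh) hC₀.le
        _ = _ := by
            field_simp
  have hout : Summable (fun h : ℕ => ∑' u : ℕ, ssaG D Y (h, u)) :=
    Summable.of_nonneg_of_le (fun h => tsum_nonneg fun u => ssaG_nonneg D Y _)
      (fun h => (hin h).2) (hz.mul_left _)
  have hs : Summable (ssaG D Y) :=
    (summable_prod_of_nonneg (ssaG_nonneg D Y)).2 ⟨fun h => (hin h).1, hout⟩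
  refine ⟨hs, ?_⟩
  rw [hs.tsum_prod]
  calc _ ≤ ∑' h : ℕ, C₀ * (4 * D : ℝ) ^ 3 * min Y (Y ^ 3) * (1 / (h : ℝ) ^ 3) :=
        hout.tsum_le_tsum (fun h => (hin h).2) (hz.mul_left _)
    _ = C₀ * (4 * D : ℝ) ^ 3 * min Y (Y ^ 3) * ∑' h : ℕ, 1 / (h : ℝ) ^ 3 := tsum_mul_left
    _ ≤ C₀ * (4 * D : ℝ) ^ 3 * min Y (Y ^ 3) * (∑' h : ℕ, 1 / (h : ℝ) ^ 3 + 1) := by
        refine mul_le_mul_of_nonneg_left (by linarith) (by positivity)
    _ = _ := by ring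

private theorem ssa_eq (D : ℕ) (F : ℝ → ℂ) (Y : ℝ)
    (hs : Summable fun p : ℕ × ℕ => ssaC D p * F (ssaX D Y p)) :
    SS D F Y = ((16 * D : ℕ) : ℂ)⁻¹ * ∑' p : ℕ × ℕ, ssaC D p * F (ssaX D Y p) := by
  rw [SS, hs.tsum_prod]
  congr 1
  refine tsum_congr fun h => ?_
  rw [SU, ← tsum_mul_left]
  exact tsum_congr fun u => ssa_term D F Y (h, u)

private theorem ssa_summable {D : ℕ} (hD : 1 ≤ D) {F : ℝ → ℂ} {B Y : ℝ} (hY : 0 < Y)
    (hF : ∀ x, ‖F x‖ ≤ B * Real.exp (-(3 * |x|))) :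
    Summable fun p : ℕ × ℕ => ‖ssaC D p * F (ssaX D Y p)‖ := by
  obtain ⟨C, -, hC⟩ := ssaG_sum hD
  exact Summable.of_nonneg_of_le (fun p => norm_nonneg _) (fun p => ssaC_le D Y p (hF _))
    ((hC Y hY).1.mul_left B)

/-- crude bound and absolute convergence: `sum_exp_log`, `‖bet h‖ ≤ 1 / h`; `min (Y', Y'³)` with `Y' = 4 D Y / h²` -/
theorem SS_crude {D : ℕ} (hD : 1 ≤ D) : ∃ C : ℝ, 0 < C ∧ ∀ (F : ℝ → ℂ) (B Y : ℝ), 0 < Y → 0 ≤ B →
    (∀ x, ‖F x‖ ≤ B * Real.exp (-(3 * |x|))) →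
    Summable (fun p : ℕ × ℕ => ‖bet p.1 * (if Odd p.2 ∧ p.2.Coprime p.1 then
      ((ArithmeticFunction.moebius p.2 : ℤ) : ℂ) * ((jacobiSym (-(D : ℤ)) p.2 : ℤ) : ℂ) *
        F (Real.log (p.2 / (4 * D * Y / (p.1 : ℝ) ^ 2))) else 0)‖) ∧
    ‖SS D F Y‖ ≤ C * B * min Y (Y ^ 3) := by
  obtain ⟨C, hC0, hC⟩ := ssaG_sum hD
  refine ⟨C, hC0, fun F B Y hY hB hF => ?_⟩
  obtain ⟨h1, h2⟩ := hC Y hY
  have hs := ssa_summable hD hY hF
  refine ⟨?_, ?_⟩
  · refine hs.congr fun p => ?_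
    rw [ssa_term]
  · rw [ssa_eq D F Y hs.of_norm, norm_mul]
    have h3 : ‖((16 * D : ℕ) : ℂ)⁻¹‖ ≤ 1 := by
      rw [norm_inv, Complex.norm_natCast]
      apply inv_le_one_of_one_le₀
      exact_mod_cast (by omega : 1 ≤ 16 * D)
    have h4 : ‖∑' p : ℕ × ℕ, ssaC D p * F (ssaX D Y p)‖ ≤ B * ∑' p, ssaG D Y p :=
      tsum_of_norm_bounded (h1.hasSum.mul_left B) fun p => ssaC_le D Y p (hF _)
    calc _ ≤ 1 * (B * ∑' p, ssaG D Y p) :=
          mul_le_mul h3 h4 (norm_nonneg _) zero_le_one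
      _ ≤ 1 * (B * (C * min Y (Y ^ 3))) := by gcongr
      _ = _ := by ring

theorem SS_sub {D : ℕ} (hD : 1 ≤ D) {F G : ℝ → ℂ} {B Y : ℝ} (hY : 0 < Y) (hF : ∀ x, ‖F x‖ ≤ B * Real.exp (-(3 * |x|)))
    (hG : ∀ x, ‖G x‖ ≤ B * Real.exp (-(3 * |x|))) (c : ℂ) :
    SS D (fun x => F x - c * G x) Y = SS D F Y - c * SS D G Y := by
  have h1 := (ssa_summable hD hY hF).of_norm
  have h2 := (ssa_summable hD hY hG).of_norm
  have e1 : (fun p : ℕ × ℕ => ssaC D p * (fun x => F x - c * G x) (ssaX D Y p)) =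
      fun p : ℕ × ℕ => ssaC D p * F (ssaX D Y p) - c * (ssaC D p * G (ssaX D Y p)) := by
    funext p
    ring
  rw [ssa_eq D F Y h1, ssa_eq D G Y h2, ssa_eq D (fun x => F x - c * G x) Y
    (by rw [e1]; exact h1.sub (h2.mul_left c)), e1, h1.tsum_sub (h2.mul_left c), tsum_mul_left]
  ring

private theorem ssa_om (t : ℝ) : ‖om t‖ * Real.exp (3 * |t|) ≤
    Real.exp 9 * Real.exp (-(1 / 4 : ℝ) * t ^ 2) := by
  rw [om, Complex.norm_real, Real.norm_eq_abs, abs_of_pos (Real.exp_pos _), ← Real.exp_add,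
    ← Real.exp_add, Real.exp_le_exp]
  have h1 : 0 ≤ (|t| / 2 - 3) ^ 2 := sq_nonneg _
  have h2 : |t| ^ 2 = t ^ 2 := sq_abs t
  nlinarith

private theorem ssa_om_cont : Continuous om := by
  unfold om
  fun_prop

private theorem ssa_exp (x t : ℝ) :
    Real.exp (-(3 * |x - t|)) ≤ Real.exp (-(3 * |x|)) * Real.exp (3 * |t|) := by
  rw [← Real.exp_add, Real.exp_le_exp]
  have h1 : |x| ≤ |x - t| + |t| := by
    have h2 := abs_add_le (x - t) t
    rwa [sub_add_cancel] at h2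
  linarith

/-- Fubini: `∫ om(t) F(x - t) dt` and `log (u h² / (4 D Y e^t)) = log (u h² / (4 D Y)) - t`; `om t ≤ e^8 exp (-4|t|)`. -/
theorem SS_conv {D : ℕ} (hD : 1 ≤ D) {F : ℝ → ℂ} {B Y : ℝ} (hY : 0 < Y) (hFc : Continuous F)
    (hF : ∀ x, ‖F x‖ ≤ B * Real.exp (-(3 * |x|))) :
    SS D (fun x => ∫ t : ℝ, om t * F (x - t)) Y = ∫ t : ℝ, om t * SS D F (Y * Real.exp t) := by
  have hB : 0 ≤ B := by
    have h3 := (norm_nonneg (F 0)).trans (hF 0)
    rw [abs_zero, mul_zero, neg_zero, Real.exp_zero, mul_one] at h3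
    exact h3
  have hD0 : (0 : ℝ) < D := by exact_mod_cast hD
  obtain ⟨C, -, hC⟩ := ssaG_sum hD
  obtain ⟨hG1, -⟩ := hC Y hY
  -- the terms
  have hgi : Integrable (fun t : ℝ => Real.exp 9 * Real.exp (-(1 / 4 : ℝ) * t ^ 2)) :=
    (integrable_exp_neg_mul_sq (by norm_num)).const_mul _
  have hle : ∀ (p : ℕ × ℕ) (t : ℝ), ‖ssaC D p * (om t * F (ssaX D Y p - t))‖ ≤
      B * ssaG D Y p * (Real.exp 9 * Real.exp (-(1 / 4 : ℝ) * t ^ 2)) := by
    intro p t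
    have h1 : ‖om t * F (ssaX D Y p - t)‖ ≤
        (B * (Real.exp 9 * Real.exp (-(1 / 4 : ℝ) * t ^ 2))) * Real.exp (-(3 * |ssaX D Y p|)) := by
      rw [norm_mul]
      calc _ ≤ ‖om t‖ * (B * (Real.exp (-(3 * |ssaX D Y p|)) * Real.exp (3 * |t|))) := by
            refine mul_le_mul_of_nonneg_left ((hF _).trans ?_) (norm_nonneg _)
            exact mul_le_mul_of_nonneg_left (ssa_exp _ _) hB
        _ = B * (‖om t‖ * Real.exp (3 * |t|)) * Real.exp (-(3 * |ssaX D Y p|)) := by ring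
        _ ≤ _ := by
            refine mul_le_mul_of_nonneg_right ?_ (Real.exp_pos _).le
            exact mul_le_mul_of_nonneg_left (ssa_om t) hB
    refine (ssaC_le D Y p h1).trans (le_of_eq ?_)
    ring
  have hcont : ∀ p : ℕ × ℕ, Continuous fun t : ℝ => ssaC D p * (om t * F (ssaX D Y p - t)) := by
    intro p
    exact continuous_const.mul (ssa_om_cont.mul (hFc.comp (continuous_const.sub continuous_id)))
  have hint : ∀ p : ℕ × ℕ, Integrable fun t : ℝ => ssaC D p * (om t * F (ssaX D Y p - t)) := by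
    intro p
    exact (hgi.const_mul (B * ssaG D Y p)).mono' (hcont p).aestronglyMeasurable
      (Filter.Eventually.of_forall (hle p))
  have hsum : Summable fun p : ℕ × ℕ => ∫ t : ℝ, ‖ssaC D p * (om t * F (ssaX D Y p - t))‖ := by
    refine Summable.of_nonneg_of_le (fun p => integral_nonneg fun t => norm_nonneg _) (fun p => ?_)
      ((hG1.mul_left B).mul_right (∫ t : ℝ, Real.exp 9 * Real.exp (-(1 / 4 : ℝ) * t ^ 2)))
    rw [← integral_const_mul]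
    exact integral_mono (hint p).norm (hgi.const_mul _) (hle p)
  have hmain := hasSum_integral_of_summable_integral_norm hint hsum
  -- the left side
  have e1 : (fun p : ℕ × ℕ => ∫ t : ℝ, ssaC D p * (om t * F (ssaX D Y p - t))) =
      fun p : ℕ × ℕ => ssaC D p * (fun x => ∫ t : ℝ, om t * F (x - t)) (ssaX D Y p) := by
    funext p
    exact integral_const_mul _ _
  rw [e1] at hmain
  have e3 := ssa_eq D (fun x => ∫ t : ℝ, om t * F (x - t)) Y hmain.summable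
  have e4 := integral_const_mul (((16 * D : ℕ) : ℂ)⁻¹)
    (fun t : ℝ => ∑' p : ℕ × ℕ, ssaC D p * (om t * F (ssaX D Y p - t))) (μ := volume)
  rw [e3, hmain.tsum_eq, ← e4]
  -- the right side
  refine integral_congr_ae (Filter.Eventually.of_forall fun t => ?_)
  have hYt : 0 < Y * Real.exp t := by positivity
  have e2 : ∀ p : ℕ × ℕ, ssaC D p * F (ssaX D (Y * Real.exp t) p) =
      ssaC D p * F (ssaX D Y p - t) := by
    intro p
    by_cases h1 : ssaC D p = 0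
    · rw [h1, zero_mul, zero_mul]
    · have hp1 : p.1 ≠ 0 := by
        intro h2
        apply h1
        have h3 := norm_bet_le p.1
        rw [h2, Nat.cast_zero, div_zero] at h3
        rw [ssaC, h2, norm_le_zero_iff.1 h3, zero_mul]
      have hp2 : p.2 ≠ 0 := by
        intro h2
        apply h1
        rw [ssaC, if_neg, mul_zero]
        rintro ⟨h3, -⟩
        rw [h2] at h3
        exact absurd h3 (by decide)
      have h4 : (0 : ℝ) < p.1 := by exact_mod_cast Nat.pos_of_ne_zero hp1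
      have h5 : (0 : ℝ) < p.2 := by exact_mod_cast Nat.pos_of_ne_zero hp2
      have h6 : ssaX D (Y * Real.exp t) p = ssaX D Y p - t := by
        rw [ssaX, ssaX]
        have h7 : (p.2 : ℝ) / (4 * D * (Y * Real.exp t) / (p.1 : ℝ) ^ 2) =
            ((p.2 : ℝ) / (4 * D * Y / (p.1 : ℝ) ^ 2)) / Real.exp t := by
          have h8 := (Real.exp_pos t).ne'
          field_simp
        rw [h7, Real.log_div (by positivity) (Real.exp_pos t).ne', Real.log_exp]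
      rw [h6]
  have h7 : SS D F (Y * Real.exp t) = ((16 * D : ℕ) : ℂ)⁻¹ *
      ∑' p : ℕ × ℕ, ssaC D p * F (ssaX D Y p - t) := by
    rw [ssa_eq D F _ (ssa_summable hD hYt hF).of_norm]
    congr 1
    exact tsum_congr e2
  change ((16 * D : ℕ) : ℂ)⁻¹ * (∑' p : ℕ × ℕ, ssaC D p * (om t * F (ssaX D Y p - t))) =
    om t * SS D F (Y * Real.exp t)
  have h8 : ∑' p : ℕ × ℕ, ssaC D p * (om t * F (ssaX D Y p - t)) =
      om t * ∑' p : ℕ × ℕ, ssaC D p * F (ssaX D Y p - t) := by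
    rw [← tsum_mul_left]
    exact tsum_congr fun p => by ring
  rw [h7, h8]
  ring

end Pool.Agent.MP_291b24_nt.Sm
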