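import Pool.Agent.Lib.MP_291b24_nt.Sm.SSa

/-! The bound of SS from SMB -/

set_option autoImplicit false

open Complex MeasureTheory

namespace Pool.Agent.MP_291b24_nt.Sm

private lemma ssb_pow {σ₀ ε' : ℝ} (h1 : 1 / 2 ≤ σ₀) {D : ℕ} (hD : 1 ≤ D) {Y : ℝ} (hY : 0 < Y)
    {h : ℕ} (hh : 1 ≤ h) :
    (1 / (h : ℝ)) * ((4 * D * Y / (h : ℝ) ^ 2) ^ (σ₀ + ε') * ((D : ℝ) * h) ^ (2 * ε')) ≤
      (4 * (D : ℝ)) ^ (σ₀ + ε') * (D : ℝ) ^ (2 * ε') * Y ^ (σ₀ + ε') * ((h : ℝ) ^ 2)⁻¹ := by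
  have hD' : (0 : ℝ) < D := by exact_mod_cast hD
  have hh' : (1 : ℝ) ≤ h := by exact_mod_cast hh
  have hh0 : (0 : ℝ) < h := by linarith
  rw [Real.div_rpow (by positivity) (by positivity), Real.mul_rpow hD'.le hh0.le,
    Real.mul_rpow (by positivity : (0 : ℝ) ≤ 4 * D) hY.le, ← Real.rpow_natCast (h : ℝ) 2,
    ← Real.rpow_mul hh0.le]
  have e1 : (1 / (h : ℝ)) * ((4 * (D : ℝ)) ^ (σ₀ + ε') * Y ^ (σ₀ + ε') / (h : ℝ) ^ (((2 : ℕ) : ℝ) * (σ₀ + ε')) *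
      ((D : ℝ) ^ (2 * ε') * (h : ℝ) ^ (2 * ε'))) =
      (4 * (D : ℝ)) ^ (σ₀ + ε') * (D : ℝ) ^ (2 * ε') * Y ^ (σ₀ + ε') *
        ((h : ℝ)⁻¹ * ((h : ℝ) ^ (2 * ε') / (h : ℝ) ^ (((2 : ℕ) : ℝ) * (σ₀ + ε')))) := by
    rw [one_div]; ring
  rw [e1]
  refine mul_le_mul_of_nonneg_left ?_ (by positivity)
  rw [← Real.rpow_sub hh0, ← Real.rpow_neg_one (h : ℝ), ← Real.rpow_add hh0, ← Real.rpow_neg hh0.le]
  refine Real.rpow_le_rpow_of_exponent_le hh' ?_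
  push_cast
  linarith

/-- `SMB` for every `h`; `∑ h^(-1) h^(-2σ₀ - 2ε') h^(2ε')` converges -/
theorem SS_bound {σ₀ ε' : ℝ} (h1 : 1 / 2 ≤ σ₀) (h2 : σ₀ ≤ 1) (hε : 0 < ε') (hε2 : ε' ≤ 1 / 4) (hZ : ZZ σ₀) {D : ℕ} (hD : 1 ≤ D) :
    ∃ C : ℝ, 0 < C ∧ ∀ (F : ℝ → ℂ) (b R Y : ℝ), Nice F → 0 < Y → 0 ≤ b → 1 ≤ R →
      ∫ x, Real.exp (3 * |x|) * ‖F x‖ ≤ b → ∫ x, Real.exp (3 * |x|) * ‖deriv (deriv F) x‖ ≤ b * R ^ 2 →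
      ‖SS D F Y‖ ≤ C * b * R ^ (1 + ε') * Y ^ (σ₀ + ε') := by
  obtain ⟨C₁, hC₁, hb⟩ := SMB h1 h2 hε hε2 hZ
  have hD' : (0 : ℝ) < D := by exact_mod_cast hD
  have hsum : Summable (fun h : ℕ => ((h : ℝ) ^ 2)⁻¹) := Real.summable_nat_pow_inv.2 (by norm_num)
  have hS : 0 ≤ ∑' h : ℕ, ((h : ℝ) ^ 2)⁻¹ := tsum_nonneg fun h => by positivity
  set S : ℝ := ∑' h : ℕ, ((h : ℝ) ^ 2)⁻¹ with hSdef
  refine ⟨C₁ * ((4 * (D : ℝ)) ^ (σ₀ + ε') * (D : ℝ) ^ (2 * ε')) * (S + 1), by positivity,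
    fun F b R Y hF hY hb0 hR hF1 hF2 => ?_⟩
  set G : ℝ := C₁ * b * R ^ (1 + ε') * ((4 * (D : ℝ)) ^ (σ₀ + ε') * (D : ℝ) ^ (2 * ε') * Y ^ (σ₀ + ε'))
    with hG
  have hR0 : 0 < R := by linarith
  have hG0 : 0 ≤ G := by positivity
  have hterm : ∀ h : ℕ, ‖bet h * SU (D : ℤ) h F (4 * D * Y / (h : ℝ) ^ 2)‖ ≤ G * ((h : ℝ) ^ 2)⁻¹ := by
    intro h
    rcases Nat.eq_zero_or_pos h with h0 | h0
    · subst h0
      have : bet 0 = 0 := by simp [bet]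
      rw [this, zero_mul, norm_zero]
      positivity
    · have hh' : (0 : ℝ) < h := by exact_mod_cast h0
      rw [norm_mul]
      calc ‖bet h‖ * ‖SU (D : ℤ) h F (4 * D * Y / (h : ℝ) ^ 2)‖
          ≤ (1 / (h : ℝ)) * (C₁ * b * R ^ (1 + ε') * (4 * D * Y / (h : ℝ) ^ 2) ^ (σ₀ + ε') *
              ((D : ℝ) * h) ^ (2 * ε')) :=
            mul_le_mul (norm_bet_le h) (hb D h F b R _ hD h0 hF (by positivity) hb0 hR hF1 hF2)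
              (norm_nonneg _) (by positivity)
        _ = C₁ * b * R ^ (1 + ε') * ((1 / (h : ℝ)) * ((4 * D * Y / (h : ℝ) ^ 2) ^ (σ₀ + ε') *
              ((D : ℝ) * h) ^ (2 * ε'))) := by ring
        _ ≤ C₁ * b * R ^ (1 + ε') * ((4 * (D : ℝ)) ^ (σ₀ + ε') * (D : ℝ) ^ (2 * ε') * Y ^ (σ₀ + ε') *
              ((h : ℝ) ^ 2)⁻¹) :=
            mul_le_mul_of_nonneg_left (ssb_pow h1 hD hY h0) (by positivity)
        _ = G * ((h : ℝ) ^ 2)⁻¹ := by rw [hG]; ring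
  have htot : ‖∑' h : ℕ, bet h * SU (D : ℤ) h F (4 * D * Y / (h : ℝ) ^ 2)‖ ≤ G * S :=
    tsum_of_norm_bounded (hsum.hasSum.mul_left G) hterm
  unfold SS
  rw [norm_mul]
  have hinv : ‖(((16 * D : ℕ) : ℂ))⁻¹‖ ≤ 1 := by
    rw [norm_inv, Complex.norm_natCast]
    exact inv_le_one_of_one_le₀ (by
      have : 1 ≤ 16 * D := by omega
      exact_mod_cast this)
  calc ‖(((16 * D : ℕ) : ℂ))⁻¹‖ * ‖∑' h : ℕ, bet h * SU (D : ℤ) h F (4 * D * Y / (h : ℝ) ^ 2)‖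
      ≤ 1 * (G * S) := mul_le_mul hinv htot (norm_nonneg _) zero_le_one
    _ ≤ G * (S + 1) := by rw [one_mul]; exact mul_le_mul_of_nonneg_left (by linarith) hG0
    _ = _ := by rw [hG]; ring

end Pool.Agent.MP_291b24_nt.Sm
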