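import Pool.Agent.Lib.MP_291b24_nt.Sm.KerB
import Pool.Agent.Lib.MP_291b24_nt.Sm.KerC
import Pool.Agent.Lib.MP_291b24_nt.Sm.LapA

/-! The difference kernel -/

set_option autoImplicit false

open Complex MeasureTheory

namespace Pool.Agent.MP_291b24_nt.Sm

/-- `P x * e^(-x^2/2)` -/
private noncomputable def sscG (P : Polynomial ℝ) (x : ℝ) : ℂ :=
  ((P.eval x * Real.exp (-(x ^ 2 / 2)) : ℝ) : ℂ)

private noncomputable def sscD (P : Polynomial ℝ) : Polynomial ℝ :=
  Polynomial.derivative P - Polynomial.X * P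

private theorem sscG_one (x : ℝ) : sscG 1 x = om x := by
  unfold sscG om
  rw [Polynomial.eval_one, one_mul]

private theorem sscG_deriv (P : Polynomial ℝ) (x : ℝ) : HasDerivAt (sscG P) (sscG (sscD P) x) x := by
  have h1 : HasDerivAt (fun x : ℝ => P.eval x * Real.exp (-(x ^ 2 / 2)))
      (P.derivative.eval x * Real.exp (-(x ^ 2 / 2)) +
        P.eval x * (Real.exp (-(x ^ 2 / 2)) * (-x))) x := by
    refine (P.hasDerivAt x).mul (HasDerivAt.exp ?_)
    have h2 := ((hasDerivAt_pow 2 x).div_const 2).neg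
    refine h2.congr_deriv ?_
    simp
  have h3 := h1.ofReal_comp
  refine h3.congr_deriv ?_
  unfold sscG sscD
  rw [Polynomial.eval_sub, Polynomial.eval_mul, Polynomial.eval_X]
  congr 1
  ring

private theorem sscG_bound (P : Polynomial ℝ) : ∃ C : ℝ, 0 ≤ C ∧ ∀ x, ‖sscG P x‖ ≤ C * Real.exp (-(4 * |x|)) := by
  induction P using Polynomial.induction_on' with
  | add p q hp hq =>
    obtain ⟨C, hC, h1⟩ := hp
    obtain ⟨D, hD, h2⟩ := hq
    refine ⟨C + D, add_nonneg hC hD, fun x => ?_⟩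
    have h3 : sscG (p + q) x = sscG p x + sscG q x := by
      unfold sscG
      rw [Polynomial.eval_add, add_mul, Complex.ofReal_add]
    rw [h3, add_mul]
    exact (norm_add_le _ _).trans (add_le_add (h1 x) (h2 x))
  | monomial n a =>
    refine ⟨|a| * n.factorial * Real.exp (25 / 2), by positivity, fun x => ?_⟩
    unfold sscG
    rw [Complex.norm_real, Real.norm_eq_abs, Polynomial.eval_monomial, abs_mul, abs_mul, abs_pow,
      Real.abs_exp, mul_assoc, mul_assoc, mul_assoc]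
    refine mul_le_mul_of_nonneg_left ?_ (abs_nonneg a)
    have h1 : |x| ^ n ≤ n.factorial * Real.exp |x| := by
      have h2 := Real.pow_div_factorial_le_exp |x| (abs_nonneg x) n
      rw [div_le_iff₀ (by positivity)] at h2
      linarith
    calc |x| ^ n * Real.exp (-(x ^ 2 / 2))
        ≤ n.factorial * Real.exp |x| * Real.exp (-(x ^ 2 / 2)) :=
          mul_le_mul_of_nonneg_right h1 (Real.exp_pos _).le
      _ = n.factorial * Real.exp (|x| - x ^ 2 / 2) := by
          rw [mul_assoc, ← Real.exp_add]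
          rfl
      _ ≤ n.factorial * (Real.exp (25 / 2) * Real.exp (-(4 * |x|))) := by
          refine mul_le_mul_of_nonneg_left ?_ (by positivity)
          rw [← Real.exp_add]
          refine Real.exp_le_exp.2 ?_
          nlinarith [sq_nonneg (|x| - 5), sq_abs x]

private theorem sscG_cont (P : Polynomial ℝ) : Continuous (sscG P) :=
  continuous_iff_continuousAt.2 fun x => (sscG_deriv P x).continuousAt

private theorem sscG_bdd (P : Polynomial ℝ) : ∃ C : ℝ, 0 ≤ C ∧ ∀ x, ‖sscG P x‖ ≤ C := by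
  obtain ⟨C, hC, h⟩ := sscG_bound P
  refine ⟨C, hC, fun x => (h x).trans ?_⟩
  have h1 : Real.exp (-(4 * |x|)) ≤ 1 := Real.exp_le_one_iff.2 (by
    have := abs_nonneg x
    linarith)
  exact mul_le_of_le_one_right hC h1

/-- the difference -/
private theorem sscG_diff (P : Polynomial ℝ) : ∃ C : ℝ, 0 ≤ C ∧ ∀ x y,
    ‖sscG P (x - y) - sscG P x‖ ≤ C * Real.exp (-(4 * |x|)) * (|y| * Real.exp (4 * |y|)) := by
  obtain ⟨C, hC, h⟩ := sscG_bound (sscD P)
  refine ⟨C, hC, fun x y => ?_⟩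
  have h1 : ∀ z ∈ Metric.closedBall x |y|, ‖sscG (sscD P) z‖ ≤
      C * Real.exp (-(4 * |x|)) * Real.exp (4 * |y|) := by
    intro z hz
    refine (h z).trans ?_
    rw [mul_assoc, ← Real.exp_add]
    refine mul_le_mul_of_nonneg_left (Real.exp_le_exp.2 ?_) hC
    rw [Metric.mem_closedBall, Real.dist_eq] at hz
    have h2 : |x| ≤ |z| + |z - x| := by
      have := abs_sub_abs_le_abs_sub x z
      rw [abs_sub_comm x z] at this
      linarith
    linarith
  have h2 := Convex.norm_image_sub_le_of_norm_hasDerivWithin_le (f := sscG P)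
    (f' := sscG (sscD P)) (s := Metric.closedBall x |y|) (x := x) (y := x - y)
    (fun z _ => (sscG_deriv P z).hasDerivWithinAt) h1 (convex_closedBall x |y|)
    (Metric.mem_closedBall_self (abs_nonneg y)) (by
      rw [Metric.mem_closedBall, Real.dist_eq]
      rw [show x - y - x = -y by ring, abs_neg])
  refine h2.trans (le_of_eq ?_)
  rw [show x - y - x = -y by ring, norm_neg, Real.norm_eq_abs]
  ring

/-- the convolution -/
private noncomputable def sscH (F : ℝ → ℂ) (P : Polynomial ℝ) (x : ℝ) : ℂ :=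
  (∫ y, F y * sscG P (x - y)) - (∫ y, F y) * sscG P x

private theorem sscH_int {F : ℝ → ℂ} (hF : Integrable F) (P : Polynomial ℝ) (x : ℝ) :
    Integrable fun y => F y * sscG P (x - y) := by
  obtain ⟨C, hC, h⟩ := sscG_bdd P
  refine hF.mul_bdd (c := C)
    ((sscG_cont P).comp (continuous_const.sub continuous_id)).aestronglyMeasurable
    (Filter.Eventually.of_forall fun y => h _)

private theorem sscH_deriv {F : ℝ → ℂ} (hF : Integrable F) (P : Polynomial ℝ) (x : ℝ) :
    HasDerivAt (sscH F P) (sscH F (sscD P) x) x := by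
  obtain ⟨C, hC, h⟩ := sscG_bdd (sscD P)
  have h1 := hasDerivAt_integral_of_dominated_loc_of_deriv_le (μ := volume) (𝕜 := ℝ)
    (F := fun x y => F y * sscG P (x - y)) (F' := fun x y => F y * sscG (sscD P) (x - y))
    (x₀ := x) (s := Set.univ) (bound := fun y => ‖F y‖ * C) Filter.univ_mem
    (Filter.Eventually.of_forall fun x => (sscH_int hF P x).aestronglyMeasurable)
    (sscH_int hF P x) (sscH_int hF (sscD P) x).aestronglyMeasurable
    (Filter.Eventually.of_forall fun y z _ => by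
      rw [norm_mul]
      exact mul_le_mul_of_nonneg_left (h _) (norm_nonneg _))
    (hF.norm.mul_const C)
    (Filter.Eventually.of_forall fun y z _ => by
      have h2 : HasDerivAt (fun z : ℝ => z - y) 1 z := (hasDerivAt_id z).sub_const y
      have h3 := (sscG_deriv P (z - y)).scomp z h2
      rw [one_smul] at h3
      exact h3.const_mul (F y))
  exact h1.2.sub ((sscG_deriv P x).const_mul _)

private theorem sscH_bound (P : Polynomial ℝ) : ∃ C : ℝ, 0 ≤ C ∧ ∀ (F : ℝ → ℂ) (B : ℝ),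
    Integrable F → Integrable (fun y => ‖F y‖ * (|y| * Real.exp (4 * |y|))) →
    ∫ y, ‖F y‖ * (|y| * Real.exp (4 * |y|)) ≤ B →
    ∀ x, ‖sscH F P x‖ ≤ C * B * Real.exp (-(4 * |x|)) := by
  obtain ⟨C, hC, h⟩ := sscG_diff P
  refine ⟨C, hC, fun F B hF hi hB x => ?_⟩
  have h1 : sscH F P x = ∫ y, F y * (sscG P (x - y) - sscG P x) := by
    unfold sscH
    rw [← integral_mul_const, ← integral_sub (sscH_int hF P x) (hF.mul_const _)]
    refine integral_congr_ae (Filter.Eventually.of_forall fun y => ?_)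
    show F y * sscG P (x - y) - F y * sscG P x = F y * (sscG P (x - y) - sscG P x)
    ring
  rw [h1]
  refine (norm_integral_le_integral_norm _).trans ?_
  have h2 : ∫ y, ‖F y * (sscG P (x - y) - sscG P x)‖ ≤
      ∫ y, (C * Real.exp (-(4 * |x|))) * (‖F y‖ * (|y| * Real.exp (4 * |y|))) := by
    refine integral_mono_of_nonneg (Filter.Eventually.of_forall fun y => norm_nonneg _)
      (hi.const_mul _) (Filter.Eventually.of_forall fun y => ?_)
    show ‖F y * (sscG P (x - y) - sscG P x)‖ ≤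
      (C * Real.exp (-(4 * |x|))) * (‖F y‖ * (|y| * Real.exp (4 * |y|)))
    rw [norm_mul]
    refine (mul_le_mul_of_nonneg_left (h x y) (norm_nonneg (F y))).trans (le_of_eq ?_)
    ring
  refine h2.trans ?_
  rw [integral_const_mul]
  have h3 := mul_le_mul_of_nonneg_left hB (mul_nonneg hC (Real.exp_pos (-(4 * |x|))).le)
  refine h3.trans (le_of_eq ?_)
  ring

private theorem ssc_exp (x : ℝ) : Real.exp (3 * |x|) * Real.exp (-(4 * |x|)) ≤ 2 * (1 + x ^ 2)⁻¹ := by
  rw [← Real.exp_add, show 3 * |x| + -(4 * |x|) = -|x| by ring, Real.exp_neg, ← div_eq_mul_inv,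
    inv_eq_one_div, div_le_div_iff₀ (Real.exp_pos _) (by positivity)]
  have h1 := Real.quadratic_le_exp_of_nonneg (abs_nonneg x)
  have h2 := sq_abs x
  have h3 := abs_nonneg x
  nlinarith

/-- the weighted integral -/
private theorem sscH_weight {F : ℝ → ℂ} (hF : Integrable F) (P : Polynomial ℝ) {B : ℝ} (hB : 0 ≤ B)
    (h : ∀ x, ‖sscH F P x‖ ≤ B * Real.exp (-(4 * |x|))) :
    Integrable (fun x => Real.exp (3 * |x|) * ‖sscH F P x‖) ∧
      ∫ x, Real.exp (3 * |x|) * ‖sscH F P x‖ ≤ B * (2 * Real.pi) := by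
  have hc : Continuous (sscH F P) :=
    continuous_iff_continuousAt.2 fun x => (sscH_deriv hF P x).continuousAt
  have h1 : ∀ x, Real.exp (3 * |x|) * ‖sscH F P x‖ ≤ B * (2 * (1 + x ^ 2)⁻¹) := by
    intro x
    calc Real.exp (3 * |x|) * ‖sscH F P x‖ ≤ Real.exp (3 * |x|) * (B * Real.exp (-(4 * |x|))) :=
          mul_le_mul_of_nonneg_left (h x) (Real.exp_pos _).le
      _ = B * (Real.exp (3 * |x|) * Real.exp (-(4 * |x|))) := by ring
      _ ≤ _ := mul_le_mul_of_nonneg_left (ssc_exp x) hB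
  have h2 : Integrable fun x : ℝ => B * (2 * (1 + x ^ 2)⁻¹) :=
    (integrable_inv_one_add_sq.const_mul 2).const_mul B
  have h3 : Integrable (fun x => Real.exp (3 * |x|) * ‖sscH F P x‖) := by
    refine h2.mono' ?_ (Filter.Eventually.of_forall fun x => ?_)
    · exact ((Real.continuous_exp.comp (continuous_const.mul continuous_abs)).mul
        hc.norm).aestronglyMeasurable
    · rw [Real.norm_of_nonneg (mul_nonneg (Real.exp_pos _).le (norm_nonneg _))]
      exact h1 x
  refine ⟨h3, (integral_mono h3 h2 h1).trans (le_of_eq ?_)⟩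
  rw [integral_const_mul, integral_const_mul, integral_univ_inv_one_add_sq]

/-- the moment -/
private theorem ssc_moment : ∃ C : ℝ, 0 ≤ C ∧ ∀ K : ℕ, 16 ≤ K → Integrable (Fk K 1) ∧
    Integrable (fun y => ‖Fk K 1 y‖ * (|y| * Real.exp (4 * |y|))) ∧
    ∫ y, ‖Fk K 1 y‖ * (|y| * Real.exp (4 * |y|)) ≤ C / Real.sqrt K := by
  obtain ⟨_, _, hN⟩ := norm_deriv_Fk
  let g : ℝ → ℝ := fun t => |t| * Real.exp (-(1 / 4) * t ^ 2)
  have hg : Integrable g := by
    have h1 := (integrable_mul_exp_neg_mul_sq (b := 1 / 4) (by norm_num)).abs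
    refine h1.congr (Filter.Eventually.of_forall fun x => ?_)
    show |x * Real.exp (-(1 / 4) * x ^ 2)| = |x| * Real.exp (-(1 / 4) * x ^ 2)
    rw [abs_mul, Real.abs_exp]
  have hg0 : 0 ≤ ∫ t, g t := integral_nonneg fun t => mul_nonneg (abs_nonneg _) (Real.exp_pos _).le
  refine ⟨Real.exp 2 * ∫ t, g t, mul_nonneg (Real.exp_pos _).le hg0, fun K hK => ?_⟩
  have hK' : (16 : ℝ) ≤ K := by exact_mod_cast hK
  have hK0 : (0 : ℝ) < K := by linarith
  have hs : 0 < Real.sqrt K := Real.sqrt_pos.2 hK0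
  have hF : ∀ y, ‖Fk K 1 y‖ ≤ Real.sqrt K * Real.exp (|y| - K / 2 * y ^ 2) := fun y =>
    (hN K (by omega) (1 / 2) (by norm_num) le_rfl 1 (by norm_num) y).1
  have hc : Continuous (Fk K 1) := (contDiff_Fk K 1).continuous
  have hI : Integrable (Fk K 1) := by
    have h1 := ((integrable_exp_neg_mul_sq (b := (K : ℝ) / 4) (by positivity)).const_mul
      (Real.sqrt K * Real.exp 2))
    refine h1.mono' hc.aestronglyMeasurable (Filter.Eventually.of_forall fun y => ?_)
    refine (hF y).trans ?_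
    rw [mul_assoc, ← Real.exp_add]
    refine mul_le_mul_of_nonneg_left (Real.exp_le_exp.2 ?_) hs.le
    have h3 := sq_abs y
    have h4 : 16 * y ^ 2 ≤ K * y ^ 2 := mul_le_mul_of_nonneg_right hK' (sq_nonneg y)
    nlinarith [sq_nonneg (|y| - 1)]
  have hle : ∀ y, ‖Fk K 1 y‖ * (|y| * Real.exp (4 * |y|)) ≤ Real.exp 2 * g (Real.sqrt K * y) := by
    intro y
    have h1 : g (Real.sqrt K * y) = Real.sqrt K * (|y| * Real.exp (-(K / 4 * y ^ 2))) := by
      show |Real.sqrt K * y| * Real.exp (-(1 / 4) * (Real.sqrt K * y) ^ 2) = _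
      rw [abs_mul, abs_of_pos hs, mul_pow, Real.sq_sqrt hK0.le, mul_assoc]
      congr 3
      ring
    rw [h1]
    calc ‖Fk K 1 y‖ * (|y| * Real.exp (4 * |y|))
        ≤ Real.sqrt K * Real.exp (|y| - K / 2 * y ^ 2) * (|y| * Real.exp (4 * |y|)) :=
          mul_le_mul_of_nonneg_right (hF y) (mul_nonneg (abs_nonneg _) (Real.exp_pos _).le)
      _ = Real.sqrt K * |y| * Real.exp (|y| - K / 2 * y ^ 2 + 4 * |y|) := by
          rw [Real.exp_add]
          ring
      _ ≤ Real.sqrt K * |y| * Real.exp (2 + -(K / 4 * y ^ 2)) := by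
          refine mul_le_mul_of_nonneg_left (Real.exp_le_exp.2 ?_)
            (mul_nonneg hs.le (abs_nonneg _))
          have h3 := sq_abs y
          have h4 : 16 * y ^ 2 ≤ K * y ^ 2 := mul_le_mul_of_nonneg_right hK' (sq_nonneg y)
          nlinarith [sq_nonneg (|y| - 5 / 8)]
      _ = _ := by
          rw [Real.exp_add]
          ring
  have hgi : Integrable fun y => Real.exp 2 * g (Real.sqrt K * y) :=
    (hg.comp_mul_left' hs.ne').const_mul _
  have hmi : Integrable (fun y => ‖Fk K 1 y‖ * (|y| * Real.exp (4 * |y|))) := by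
    refine hgi.mono' ?_ (Filter.Eventually.of_forall fun y => ?_)
    · exact (hc.norm.mul (continuous_abs.mul (Real.continuous_exp.comp
        (continuous_const.mul continuous_abs)))).aestronglyMeasurable
    · rw [Real.norm_of_nonneg (mul_nonneg (norm_nonneg _)
        (mul_nonneg (abs_nonneg _) (Real.exp_pos _).le))]
      exact hle y
  refine ⟨hI, hmi, (integral_mono hmi hgi hle).trans (le_of_eq ?_)⟩
  rw [integral_const_mul, Measure.integral_comp_mul_left g (Real.sqrt K), abs_of_pos (inv_pos.2 hs),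
    smul_eq_mul]
  ring

/-- `F_D x = ∫ F_1(y) (om(x - y) - om x) dy`: all derivatives up to the order 2 are `≤ C e^(-3|x|) ∫ |F_1(y)| |y| e^(3|y|) dy ≤ C K^(-1/2) e^(-3|x|)`
(`moment_Fk`); here with the constant for `e^(-4|x|)` so that the weighted integrals converge. -/
theorem nice_diff : ∃ C : ℝ, 0 < C ∧ ∀ K : ℕ, 16 ≤ K →
    Nice (fun x => (∫ t : ℝ, om t * Fk K 1 (x - t)) - (∫ y, Fk K 1 y) * om x) ∧
    ∫ x, Real.exp (3 * |x|) * ‖(∫ t : ℝ, om t * Fk K 1 (x - t)) - (∫ y, Fk K 1 y) * om x‖ ≤ C / Real.sqrt K ∧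
    ∫ x, Real.exp (3 * |x|) * ‖deriv (deriv (fun x => (∫ t : ℝ, om t * Fk K 1 (x - t)) - (∫ y, Fk K 1 y) * om x)) x‖ ≤
      C / Real.sqrt K := by
  obtain ⟨C₀, hC₀, hM⟩ := ssc_moment
  obtain ⟨A, hA, h0⟩ := sscH_bound 1
  obtain ⟨B, hB, h1⟩ := sscH_bound (sscD 1)
  obtain ⟨C, hC, h2⟩ := sscH_bound (sscD (sscD 1))
  refine ⟨(A + C) * C₀ * (2 * Real.pi) + 1, by positivity, fun K hK => ?_⟩
  obtain ⟨hF, hm, hb⟩ := hM K hK
  have hs : 0 < Real.sqrt K := Real.sqrt_pos.2 (by
    have : (16 : ℝ) ≤ K := by exact_mod_cast hK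
    linarith)
  have hb0 : 0 ≤ C₀ / Real.sqrt K := div_nonneg hC₀ hs.le
  have e0 : (fun x => (∫ t : ℝ, om t * Fk K 1 (x - t)) - (∫ y, Fk K 1 y) * om x) =
      sscH (Fk K 1) 1 := by
    funext x
    unfold sscH
    have h3 : (∫ t : ℝ, om t * Fk K 1 (x - t)) = ∫ y, Fk K 1 y * sscG 1 (x - y) := by
      rw [← integral_sub_left_eq_self (fun y => Fk K 1 y * sscG 1 (x - y)) volume x]
      refine integral_congr_ae (Filter.Eventually.of_forall fun t => ?_)
      show om t * Fk K 1 (x - t) = Fk K 1 (x - t) * sscG 1 (x - (x - t))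
      rw [sub_sub_cancel, sscG_one, mul_comm]
    rw [h3, sscG_one]
  have e1 : deriv (sscH (Fk K 1) 1) = sscH (Fk K 1) (sscD 1) :=
    funext fun x => (sscH_deriv hF 1 x).deriv
  have e2 : deriv (sscH (Fk K 1) (sscD 1)) = sscH (Fk K 1) (sscD (sscD 1)) :=
    funext fun x => (sscH_deriv hF (sscD 1) x).deriv
  have w0 := sscH_weight hF 1 (mul_nonneg hA hb0) (h0 _ _ hF hm hb)
  have w1 := sscH_weight hF (sscD 1) (mul_nonneg hB hb0) (h1 _ _ hF hm hb)
  have w2 := sscH_weight hF (sscD (sscD 1)) (mul_nonneg hC hb0) (h2 _ _ hF hm hb)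
  have hdiff : ∀ P, Differentiable ℝ (sscH (Fk K 1) P) := fun P x =>
    (sscH_deriv hF P x).differentiableAt
  have hbig : ∀ D : ℝ, 0 ≤ D → D ≤ A + C →
      D * (C₀ / Real.sqrt K) * (2 * Real.pi) ≤ ((A + C) * C₀ * (2 * Real.pi) + 1) / Real.sqrt K := by
    intro D hD hDA
    rw [div_eq_mul_inv, div_eq_mul_inv]
    have h3 : D * (C₀ * (Real.sqrt K)⁻¹) * (2 * Real.pi) =
        (D * C₀ * (2 * Real.pi)) * (Real.sqrt K)⁻¹ := by ring
    rw [h3]
    refine mul_le_mul_of_nonneg_right ?_ (inv_pos.2 hs).le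
    have h4 : D * C₀ * (2 * Real.pi) ≤ (A + C) * C₀ * (2 * Real.pi) :=
      mul_le_mul_of_nonneg_right (mul_le_mul_of_nonneg_right hDA hC₀) (by positivity)
    linarith
  have e0' : ∀ x, (∫ t : ℝ, om t * Fk K 1 (x - t)) - (∫ y, Fk K 1 y) * om x =
      sscH (Fk K 1) 1 x := fun x => congrFun e0 x
  refine ⟨?_, ?_, ?_⟩
  · rw [e0]
    refine ⟨?_, ⟨A * (C₀ / Real.sqrt K), fun x => ?_⟩, w0.1, ?_, ?_⟩
    · rw [show (2 : WithTop ℕ∞) = 1 + 1 from rfl, contDiff_succ_iff_deriv]
      refine ⟨hdiff 1, ?_, ?_⟩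
      · intro h
        exact absurd h (by decide)
      · rw [e1, contDiff_one_iff_deriv]
        refine ⟨hdiff _, ?_⟩
        rw [e2]
        exact (hdiff _).continuous
    · refine (h0 _ _ hF hm hb x).trans (mul_le_mul_of_nonneg_left (Real.exp_le_exp.2 ?_)
        (mul_nonneg hA hb0))
      have := abs_nonneg x
      linarith
    · rw [e1]
      exact w1.1
    · rw [e1, e2]
      exact w2.1
  · rw [funext fun x => congrArg (fun u => Real.exp (3 * |x|) * ‖u‖) (e0' x)]
    exact w0.2.trans (hbig A hA (le_add_of_nonneg_right hC))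
  · rw [e0, e1, e2]
    exact w2.2.trans (hbig C hC (le_add_of_nonneg_left hA))

end Pool.Agent.MP_291b24_nt.Sm
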