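import Pool.Agent.Lib.MP_291b24_nt.Sm.SSb
import Pool.Agent.Lib.MP_291b24_nt.Sm.SSc

/-! The bound of SS D om -/

set_option autoImplicit false

open Complex MeasureTheory

namespace Pool.Agent.MP_291b24_nt.Sm

private theorem norm_om' (x : ℝ) : ‖om x‖ = Real.exp (-(x ^ 2 / 2)) := by
  unfold om
  rw [Complex.norm_real, Real.norm_of_nonneg (Real.exp_pos _).le]

private theorem om_exp3 (x : ℝ) : ‖om x‖ ≤ Real.exp (9 / 2) * Real.exp (-(3 * |x|)) := by
  rw [norm_om', ← Real.exp_add]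
  apply Real.exp_le_exp.2
  nlinarith [sq_nonneg (|x| - 3), sq_abs x]

private theorem om_exp35 (x : ℝ) :
    ‖om x‖ * Real.exp (35 * |x|) ≤ Real.exp 1225 * Real.exp (-(1 / 4) * x ^ 2) := by
  rw [norm_om', ← Real.exp_add, ← Real.exp_add]
  apply Real.exp_le_exp.2
  nlinarith [sq_nonneg (|x| / 2 - 35), sq_abs x]

private theorem conv_le {K : ℕ} (hK : 2 ≤ K) (x : ℝ) :
    ‖∫ t : ℝ, om t * Fk K 1 (x - t)‖ ≤
      (Real.exp 4 * Real.sqrt K * (Real.exp 1225 * ∫ t : ℝ, Real.exp (-(1 / 4) * t ^ 2))) * Real.exp (-(3 * |x|)) := by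
  have hint := integrable_exp_neg_mul_sq (b := 1 / 4) (by norm_num)
  have h0 : ‖∫ t : ℝ, om t * Fk K 1 (x - t)‖ ≤
      ∫ t : ℝ, (Real.exp 4 * Real.sqrt K * Real.exp 1225 * Real.exp (-(3 * |x|))) * Real.exp (-(1 / 4) * t ^ 2) := by
    refine norm_integral_le_of_norm_le (hint.const_mul _) (Filter.Eventually.of_forall fun t => ?_)
    rw [norm_mul]
    have h1 := norm_Fk_le hK 1 (x - t)
    have h2 := om_exp35 t
    have h3 : Real.exp (-(3 * |x - t|)) ≤ Real.exp (-(3 * |x|)) * Real.exp (35 * |t|) := by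
      rw [← Real.exp_add]
      apply Real.exp_le_exp.2
      have := abs_sub_abs_le_abs_sub x t
      linarith [abs_nonneg t]
    have h4 : 0 ≤ Real.exp 4 * Real.sqrt K := by positivity
    calc ‖om t‖ * ‖Fk K 1 (x - t)‖
        ≤ ‖om t‖ * (Real.exp 4 * Real.sqrt K * (Real.exp (-(3 * |x|)) * Real.exp (35 * |t|))) :=
          mul_le_mul_of_nonneg_left (h1.trans (mul_le_mul_of_nonneg_left h3 h4)) (norm_nonneg _)
      _ = Real.exp 4 * Real.sqrt K * Real.exp (-(3 * |x|)) * (‖om t‖ * Real.exp (35 * |t|)) := by ring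
      _ ≤ Real.exp 4 * Real.sqrt K * Real.exp (-(3 * |x|)) * (Real.exp 1225 * Real.exp (-(1 / 4) * t ^ 2)) :=
          mul_le_mul_of_nonneg_left h2 (by positivity)
      _ = (Real.exp 4 * Real.sqrt K * Real.exp 1225 * Real.exp (-(3 * |x|))) * Real.exp (-(1 / 4) * t ^ 2) := by
          ring
  rw [integral_const_mul] at h0
  refine h0.trans (le_of_eq ?_)
  ring

private theorem J_le (S : ℝ → ℂ) {K τ β' C₁ C₂ L : ℝ} (hC₁ : 0 ≤ C₁) (hC₂ : 0 ≤ C₂) (hK : 1 ≤ K)
    (hτ : 0 < τ) (hτ1 : τ ≤ 1) (hβ : 0 ≤ β') (hβ1 : β' ≤ 1) (hL : 0 ≤ L) (hL2 : 2 ≤ Real.exp (7 / 8 * L))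
    (hK1 : Real.exp (9 / 16 * τ * L) ≤ K) (hK2 : K ≤ Real.exp (7 / 8 * τ * L))
    (hm : ∀ X : ℝ, 2 ≤ X → X ^ (τ / 2) ≤ K → K ≤ X ^ τ → ‖S X‖ ≤ C₁ * X ^ β')
    (hc : ∀ X : ℝ, 0 < X → ‖S X‖ ≤ C₂ * Real.sqrt K * X ^ 3) :
    ‖∫ t : ℝ, om t * S (Real.exp L * Real.exp t)‖ ≤
      (C₁ + C₂) * Real.exp (β' * L) * (Real.exp 1225 * ∫ t : ℝ, Real.exp (-(1 / 4) * t ^ 2)) := by
  have hint := integrable_exp_neg_mul_sq (b := 1 / 4) (by norm_num)
  have hpt : ∀ t : ℝ, ‖S (Real.exp L * Real.exp t)‖ ≤ (C₁ + C₂) * Real.exp (β' * L) * Real.exp (35 * |t|) := by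
    intro t
    rw [← Real.exp_add]
    have hpow : ∀ a : ℝ, Real.exp (L + t) ^ a = Real.exp ((L + t) * a) := fun a => by
      rw [← Real.exp_mul]
    have hβL : 1 ≤ Real.exp (β' * L) := Real.one_le_exp (mul_nonneg hβ hL)
    by_cases ht : |t| ≤ L / 8
    · have ht1 := neg_abs_le t
      have ht2 := le_abs_self t
      have e1 : 2 ≤ Real.exp (L + t) := hL2.trans (Real.exp_le_exp.2 (by linarith))
      have e2 : Real.exp (L + t) ^ (τ / 2) ≤ K := by
        rw [hpow]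
        refine le_trans (Real.exp_le_exp.2 ?_) hK1
        nlinarith [mul_le_mul_of_nonneg_left (ht2.trans ht) hτ.le]
      have e3 : K ≤ Real.exp (L + t) ^ τ := by
        rw [hpow]
        refine hK2.trans (Real.exp_le_exp.2 ?_)
        have : -(L / 8) ≤ t := by linarith
        nlinarith [mul_le_mul_of_nonneg_left this hτ.le]
      refine (hm _ e1 e2 e3).trans ?_
      rw [hpow]
      have e4 : Real.exp ((L + t) * β') ≤ Real.exp (β' * L) * Real.exp (35 * |t|) := by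
        rw [← Real.exp_add]
        apply Real.exp_le_exp.2
        have : t * β' ≤ |t| * 1 := mul_le_mul ht2 hβ1 hβ (abs_nonneg t)
        nlinarith [abs_nonneg t]
      calc C₁ * Real.exp ((L + t) * β') ≤ C₁ * (Real.exp (β' * L) * Real.exp (35 * |t|)) :=
            mul_le_mul_of_nonneg_left e4 hC₁
        _ ≤ (C₁ + C₂) * Real.exp (β' * L) * Real.exp (35 * |t|) := by
            have : 0 ≤ C₂ * (Real.exp (β' * L) * Real.exp (35 * |t|)) := by positivity
            linarith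
    · push Not at ht
      refine (hc _ (Real.exp_pos _)).trans ?_
      have e1 : Real.sqrt K ≤ Real.exp L := by
        have f1 : Real.sqrt K ≤ K := Real.sqrt_le_self_iff.2 (Or.inr hK)
        refine f1.trans (hK2.trans (Real.exp_le_exp.2 ?_))
        nlinarith [mul_le_mul_of_nonneg_right hτ1 hL]
      have e2 : Real.sqrt K * Real.exp (L + t) ^ 3 ≤ Real.exp (35 * |t|) := by
        calc Real.sqrt K * Real.exp (L + t) ^ 3 ≤ Real.exp L * Real.exp (L + t) ^ 3 :=
              mul_le_mul_of_nonneg_right e1 (by positivity)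
          _ = Real.exp (L + 3 * (L + t)) := by
              rw [← Real.exp_nat_mul, ← Real.exp_add]
              norm_num
          _ ≤ Real.exp (35 * |t|) := by
              apply Real.exp_le_exp.2
              linarith [le_abs_self t]
      calc C₂ * Real.sqrt K * Real.exp (L + t) ^ 3 = C₂ * (Real.sqrt K * Real.exp (L + t) ^ 3) := by ring
        _ ≤ C₂ * Real.exp (35 * |t|) := mul_le_mul_of_nonneg_left e2 hC₂
        _ ≤ C₂ * Real.exp (β' * L) * Real.exp (35 * |t|) := by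
            have f1 : C₂ * 1 ≤ C₂ * Real.exp (β' * L) := mul_le_mul_of_nonneg_left hβL hC₂
            have f2 := mul_le_mul_of_nonneg_right f1 (Real.exp_pos (35 * |t|)).le
            linarith
        _ ≤ (C₁ + C₂) * Real.exp (β' * L) * Real.exp (35 * |t|) := by
            have : 0 ≤ C₁ * (Real.exp (β' * L) * Real.exp (35 * |t|)) := by positivity
            linarith
  have h0 : ‖∫ t : ℝ, om t * S (Real.exp L * Real.exp t)‖ ≤
      ∫ t : ℝ, ((C₁ + C₂) * Real.exp (β' * L) * Real.exp 1225) * Real.exp (-(1 / 4) * t ^ 2) := by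
    refine norm_integral_le_of_norm_le (hint.const_mul _) (Filter.Eventually.of_forall fun t => ?_)
    rw [norm_mul]
    calc ‖om t‖ * ‖S (Real.exp L * Real.exp t)‖
        ≤ ‖om t‖ * ((C₁ + C₂) * Real.exp (β' * L) * Real.exp (35 * |t|)) :=
          mul_le_mul_of_nonneg_left (hpt t) (norm_nonneg _)
      _ = (C₁ + C₂) * Real.exp (β' * L) * (‖om t‖ * Real.exp (35 * |t|)) := by ring
      _ ≤ (C₁ + C₂) * Real.exp (β' * L) * (Real.exp 1225 * Real.exp (-(1 / 4) * t ^ 2)) :=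
          mul_le_mul_of_nonneg_left (om_exp35 t) (by positivity)
      _ = ((C₁ + C₂) * Real.exp (β' * L) * Real.exp 1225) * Real.exp (-(1 / 4) * t ^ 2) := by ring
  rw [integral_const_mul] at h0
  refine h0.trans (le_of_eq ?_)
  ring

/-- Write `J(Y) = ∫ om(t) SS D (Fk K 1) (Y e^t) dt`, `K = ⌈Y^(3τ/4)⌉₊`: for `|t| ≤ (log Y)/8` the hypothesis applies, for the other `t` use
`SS_crude` (`≤ C √K Y³ e^(3|t|)`) and `om(t) = e^(-t²/2)`. `J(Y) - M_K SS D om Y` is bounded by `SS_bound` with `b = C/√K`, `R = 1`; `mass_lower`. -/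
theorem om_bound {σ₀ τ β' : ℝ} (h1 : 1 / 2 ≤ σ₀) (h2 : σ₀ ≤ 1) (hZ : ZZ σ₀) {D : ℕ} (hD : 1 ≤ D) (hτ : 0 < τ) (hτ1 : τ ≤ 1)
    (hβ : 1 / 4 ≤ β') (hβ1 : β' ≤ 1) (hβσ : σ₀ - τ / 16 ≤ β')
    (hmain : ∃ C : ℝ, 0 < C ∧ ∀ K : ℕ, 16 ≤ K → ∀ X : ℝ, 2 ≤ X → X ^ (τ / 2) ≤ K → (K : ℝ) ≤ X ^ τ →
      ‖SS D (Fk K 1) X‖ ≤ C * X ^ β') :
    ∃ C : ℝ, 0 < C ∧ ∀ Y : ℝ, 1 ≤ Y → ‖SS D om Y‖ ≤ C * Y ^ β' := by
  obtain ⟨C₁, hC₁, hm⟩ := hmain
  obtain ⟨Cc, hCc, hcr⟩ := SS_crude hD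
  obtain ⟨Cb, hCb, hbd⟩ := SS_bound (ε' := τ / 4) h1 h2 (by positivity) (by linarith) hZ hD
  obtain ⟨Cn, hCn, hnd⟩ := nice_diff
  obtain ⟨c, hc, K₁, hK₁⟩ := mass_lower
  set G : ℝ := Real.exp 1225 * ∫ t : ℝ, Real.exp (-(1 / 4) * t ^ 2) with hG
  have hG0 : 0 ≤ G := mul_nonneg (Real.exp_pos _).le (integral_nonneg fun t => (Real.exp_pos _).le)
  -- the threshold
  set L₀ : ℝ := 8 / τ * Real.log (16 + K₁) with hL₀
  set A : ℝ := Cc * Real.exp (9 / 2) * Real.exp L₀ with hA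
  set B : ℝ := c⁻¹ * ((C₁ + Cc * Real.exp 4) * G + Cb * Cn) with hB
  have hA0 : 0 < A := by positivity
  have hB0 : 0 ≤ B := by positivity
  refine ⟨A + B, by positivity, fun Y hY => ?_⟩
  have hY0 : 0 < Y := by linarith
  have hβ0 : 0 ≤ β' := by linarith
  have hYβ : 1 ≤ Y ^ β' := Real.one_le_rpow hY hβ0
  have homc := (hcr om (Real.exp (9 / 2)) Y hY0 (Real.exp_pos _).le om_exp3).2
  by_cases hYL : Real.log Y < L₀
  · have e1 : Y ≤ Real.exp L₀ := by
      rw [← Real.exp_log hY0]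
      exact Real.exp_le_exp.2 hYL.le
    calc ‖SS D om Y‖ ≤ Cc * Real.exp (9 / 2) * min Y (Y ^ 3) := homc
      _ ≤ Cc * Real.exp (9 / 2) * Real.exp L₀ :=
          mul_le_mul_of_nonneg_left ((min_le_left _ _).trans e1) (by positivity)
      _ = A * 1 := by rw [hA]; ring
      _ ≤ (A + B) * Y ^ β' := mul_le_mul (by linarith) hYβ zero_le_one (by linarith)
  · push Not at hYL
    set L : ℝ := Real.log Y with hL
    have hYe : Real.exp L = Y := Real.exp_log hY0
    have hlog16 : 0 < Real.log (16 + K₁) := Real.log_pos (by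
      have : (0 : ℝ) ≤ K₁ := Nat.cast_nonneg _
      linarith)
    have hL₀0 : 0 < L₀ := by positivity
    have hL0 : 0 ≤ L := hL₀0.le.trans hYL
    -- z = exp (τ L / 8) ≥ 16 + K₁
    set z : ℝ := Real.exp (τ / 8 * L) with hz
    have hz16 : 16 + (K₁ : ℝ) ≤ z := by
      have e1 : Real.log (16 + K₁) ≤ τ / 8 * L := by
        have : τ / 8 * L₀ = Real.log (16 + K₁) := by
          rw [hL₀]
          field_simp
        rw [← this]
        exact mul_le_mul_of_nonneg_left hYL (by positivity)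
      have e2 : Real.exp (Real.log (16 + K₁)) = 16 + K₁ := Real.exp_log (by positivity)
      rw [← e2]
      exact Real.exp_le_exp.2 e1
    have hK₁0 : (0 : ℝ) ≤ K₁ := Nat.cast_nonneg _
    have hz1 : 16 ≤ z := by linarith
    have hz6 : z ≤ z ^ 6 := by
      calc z = z ^ 1 := (pow_one z).symm
        _ ≤ z ^ 6 := pow_le_pow_right₀ (by linarith) (by norm_num)
    set K : ℕ := ⌈z ^ 6⌉₊ with hKdef
    have hKl : z ^ 6 ≤ (K : ℝ) := Nat.le_ceil _
    have hKu : (K : ℝ) < z ^ 6 + 1 := Nat.ceil_lt_add_one (by positivity)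
    have hK16 : 16 ≤ K := by
      have : (16 : ℝ) ≤ K := by linarith
      exact_mod_cast this
    have hKK₁ : K₁ ≤ K := by
      have : (K₁ : ℝ) ≤ K := by linarith
      exact_mod_cast this
    have hK1R : (1 : ℝ) ≤ K := by exact_mod_cast (by omega : 1 ≤ K)
    have hKub : (K : ℝ) ≤ Real.exp (7 / 8 * τ * L) := by
      have e1 : Real.exp (7 / 8 * τ * L) = z ^ 7 := by
        rw [hz, ← Real.exp_nat_mul]
        congr 1
        push_cast
        ring
      rw [e1]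
      have : z ^ 7 = z * z ^ 6 := by ring
      have e2 : 1 ≤ z ^ 6 := by linarith
      nlinarith
    have hz6e : z ^ 6 = Real.exp (3 / 4 * τ * L) := by
      rw [hz, ← Real.exp_nat_mul]
      congr 1
      push_cast
      ring
    have hKlb : Real.exp (9 / 16 * τ * L) ≤ K := by
      refine le_trans (Real.exp_le_exp.2 ?_) (hz6e ▸ hKl)
      have : 0 ≤ τ * L := by positivity
      nlinarith
    have hL2 : 2 ≤ Real.exp (7 / 8 * L) := by
      have e1 : z ≤ Real.exp (7 / 8 * L) := by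
        refine Real.exp_le_exp.2 ?_
        nlinarith [mul_le_mul_of_nonneg_right hτ1 hL0]
      linarith
    have hYexp : Y ^ β' = Real.exp (β' * L) := by
      rw [Real.rpow_def_of_pos hY0, ← hL, mul_comm]
    -- the integral
    have hJ := J_le (fun X => SS D (Fk K 1) X) (K := (K : ℝ)) (C₁ := C₁) (C₂ := Cc * Real.exp 4) (β' := β')
      hC₁.le (by positivity) hK1R hτ hτ1 hβ0 hβ1 hL0 hL2 hKlb hKub
      (fun X hX hX1 hX2 => hm K hK16 X hX hX1 hX2)
      (fun X hX => by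
        have e1 := (hcr (Fk K 1) (Real.exp 4 * Real.sqrt K) X hX (by positivity)
          (fun x => norm_Fk_le (by omega) 1 x)).2
        refine e1.trans ?_
        calc Cc * (Real.exp 4 * Real.sqrt K) * min X (X ^ 3) ≤ Cc * (Real.exp 4 * Real.sqrt K) * X ^ 3 :=
              mul_le_mul_of_nonneg_left (min_le_right _ _) (by positivity)
          _ = Cc * Real.exp 4 * Real.sqrt K * X ^ 3 := by ring)
    rw [hYe, ← hYexp, ← hG] at hJ
    have hconv := SS_conv hD hY0 (contDiff_Fk K 1).continuous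
      (fun x => norm_Fk_le (by omega : 2 ≤ K) 1 x)
    rw [← hconv] at hJ
    -- the difference
    obtain ⟨hn1, hn2, hn3⟩ := hnd K hK16
    set M : ℂ := ∫ y, Fk K 1 y with hM
    have hdiff := hbd _ (Cn / Real.sqrt K) 1 Y hn1 hY0 (by positivity) le_rfl hn2 (by simpa using hn3)
    set BB : ℝ := max (Real.exp 4 * Real.sqrt K * G) (Real.exp (9 / 2)) with hBB
    have hsub := SS_sub hD (F := fun x => ∫ t : ℝ, om t * Fk K 1 (x - t)) (G := om) (B := BB) hY0
      (fun x => (conv_le (by omega : 2 ≤ K) x).trans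
        (mul_le_mul_of_nonneg_right (le_max_left _ _) (Real.exp_pos _).le))
      (fun x => (om_exp3 x).trans (mul_le_mul_of_nonneg_right (le_max_right _ _) (Real.exp_pos _).le)) M
    rw [hsub] at hdiff
    have hsq : (Real.sqrt K)⁻¹ * Y ^ (σ₀ + τ / 4) ≤ Y ^ β' := by
      have e1 : Real.exp (3 / 8 * τ * L) ≤ Real.sqrt K := by
        apply Real.le_sqrt_of_sq_le
        refine le_trans (le_of_eq ?_) hKl
        rw [hz6e, ← Real.exp_nat_mul]
        congr 1
        push_cast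
        ring
      have e2 : (Real.sqrt K)⁻¹ ≤ Real.exp (-(3 / 8 * τ * L)) := by
        rw [Real.exp_neg]
        exact inv_anti₀ (Real.exp_pos _) e1
      have e3 : Y ^ (σ₀ + τ / 4) = Real.exp ((σ₀ + τ / 4) * L) := by
        rw [Real.rpow_def_of_pos hY0, ← hL, mul_comm]
      rw [e3, hYexp]
      calc (Real.sqrt K)⁻¹ * Real.exp ((σ₀ + τ / 4) * L)
          ≤ Real.exp (-(3 / 8 * τ * L)) * Real.exp ((σ₀ + τ / 4) * L) :=
            mul_le_mul_of_nonneg_right e2 (Real.exp_pos _).le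
        _ = Real.exp ((σ₀ - τ / 8) * L) := by
            rw [← Real.exp_add]
            congr 1
            ring
        _ ≤ Real.exp (β' * L) := Real.exp_le_exp.2 (mul_le_mul_of_nonneg_right (by linarith) hL0)
    have hdiff2 : ‖SS D (fun x => ∫ t : ℝ, om t * Fk K 1 (x - t)) Y - M * SS D om Y‖ ≤ Cb * Cn * Y ^ β' := by
      refine hdiff.trans ?_
      rw [Real.one_rpow]
      calc Cb * (Cn / Real.sqrt K) * 1 * Y ^ (σ₀ + τ / 4)
          = Cb * Cn * ((Real.sqrt K)⁻¹ * Y ^ (σ₀ + τ / 4)) := by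
            rw [div_eq_mul_inv]; ring
        _ ≤ Cb * Cn * Y ^ β' := mul_le_mul_of_nonneg_left hsq (by positivity)
    have hMc : c ≤ ‖M‖ := hK₁ K hKK₁
    have hfin : ‖M‖ * ‖SS D om Y‖ ≤ ((C₁ + Cc * Real.exp 4) * G + Cb * Cn) * Y ^ β' := by
      rw [← norm_mul]
      have e1 : M * SS D om Y = SS D (fun x => ∫ t : ℝ, om t * Fk K 1 (x - t)) Y -
          (SS D (fun x => ∫ t : ℝ, om t * Fk K 1 (x - t)) Y - M * SS D om Y) := by ring
      rw [e1]
      refine (norm_sub_le _ _).trans ?_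
      calc _ ≤ (C₁ + Cc * Real.exp 4) * Y ^ β' * G + Cb * Cn * Y ^ β' := add_le_add hJ hdiff2
        _ = ((C₁ + Cc * Real.exp 4) * G + Cb * Cn) * Y ^ β' := by ring
    have hfin2 : c * ‖SS D om Y‖ ≤ ((C₁ + Cc * Real.exp 4) * G + Cb * Cn) * Y ^ β' :=
      (mul_le_mul_of_nonneg_right hMc (norm_nonneg _)).trans hfin
    have hfin3 : ‖SS D om Y‖ ≤ B * Y ^ β' := by
      rw [hB, mul_assoc, ← div_eq_inv_mul, le_div_iff₀ hc, mul_comm]
      exact hfin2
    refine hfin3.trans (mul_le_mul_of_nonneg_right (by linarith) (by linarith))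

end Pool.Agent.MP_291b24_nt.Sm
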