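import Pool.Agent.Lib.MP_291b24_nt.Sm.WWB

/-! The term n = 1 -/

set_option autoImplicit false

open Complex MeasureTheory

namespace Pool.Agent.MP_291b24_nt.Sm

private theorem t1_int {c : ℝ} (hc : 0 < c) : Integrable fun t : ℝ => Real.exp (-(c * |t|)) := by
  refine (integrable_inv_one_add_sq.const_mul (1 + 2 / c ^ 2)).mono'
    (by fun_prop) (ae_of_all _ fun t => ?_)
  rw [Real.norm_eq_abs, abs_of_pos (Real.exp_pos _), Real.exp_neg]
  have h1 : 1 + c * |t| + (c * |t|) ^ 2 / 2 ≤ Real.exp (c * |t|) :=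
    Real.quadratic_le_exp_of_nonneg (by positivity)
  have h2 : (c * |t|) ^ 2 = c ^ 2 * t ^ 2 := by rw [mul_pow, sq_abs]
  have h3 : 0 ≤ c * |t| := by positivity
  have h4 : 1 + c ^ 2 * t ^ 2 / 2 ≤ Real.exp (c * |t|) := by
    rw [h2] at h1
    linarith
  have h5 : (0 : ℝ) < 1 + c ^ 2 * t ^ 2 / 2 := by positivity
  refine (inv_anti₀ h5 h4).trans ?_
  rw [← div_eq_mul_inv, inv_eq_one_div, div_le_div_iff₀ h5 (by positivity)]
  have h6 : (1 + 2 / c ^ 2) * (1 + c ^ 2 * t ^ 2 / 2) =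
      1 + t ^ 2 + (c ^ 2 * t ^ 2 / 2 + 2 / c ^ 2) := by
    field_simp
    ring
  rw [h6, one_mul]
  have h7 : 0 ≤ c ^ 2 * t ^ 2 / 2 + 2 / c ^ 2 := by positivity
  linarith

private theorem t1_pow {A c : ℝ} (hA : 0 < A) (hc : 0 < c) (y : ℝ) :
    Real.exp (-(c * |y|)) * (|y| + 2) ^ A ≤
      Real.exp c * (2 * A / c) ^ A * Real.exp (-(c / 2 * |y|)) := by
  have h1 : (|y| + 2) ≤ 2 * A / c * Real.exp (c / (2 * A) * (|y| + 2)) := by
    have h2 := Real.add_one_le_exp (c / (2 * A) * (|y| + 2))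
    have h3 : 2 * A / c * (c / (2 * A) * (|y| + 2)) = |y| + 2 := by
      field_simp
    calc |y| + 2 = 2 * A / c * (c / (2 * A) * (|y| + 2)) := h3.symm
      _ ≤ _ := mul_le_mul_of_nonneg_left (by linarith) (by positivity)
  have h2 : (|y| + 2) ^ A ≤ (2 * A / c) ^ A * Real.exp (c / 2 * (|y| + 2)) := by
    refine (Real.rpow_le_rpow (by positivity) h1 hA.le).trans (le_of_eq ?_)
    rw [Real.mul_rpow (by positivity) (Real.exp_pos _).le, ← Real.exp_mul]
    congr 2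
    field_simp
  calc Real.exp (-(c * |y|)) * (|y| + 2) ^ A ≤
      Real.exp (-(c * |y|)) * ((2 * A / c) ^ A * Real.exp (c / 2 * (|y| + 2))) :=
        mul_le_mul_of_nonneg_left h2 (Real.exp_pos _).le
    _ = (2 * A / c) ^ A * (Real.exp (-(c * |y|)) * Real.exp (c / 2 * (|y| + 2))) := by ring
    _ = (2 * A / c) ^ A * (Real.exp c * Real.exp (-(c / 2 * |y|))) := by
        rw [← Real.exp_add, ← Real.exp_add]
        congr 2
        ring
    _ = _ := by ring

/-- the indicator of the window -/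
private noncomputable def win (K : ℕ) (a : ℝ) (t : ℝ) : ℝ :=
  (Set.Icc (a - (K : ℝ) / 2) (a + (K : ℝ) / 2)).indicator 1 t

private theorem win_int (K : ℕ) (a : ℝ) : Integrable (win K a) :=
  (continuous_const.integrableOn_Icc).integrable_indicator measurableSet_Icc

private theorem win_integral (K : ℕ) (a : ℝ) : ∫ t, win K a t = K := by
  unfold win
  have hK : (0 : ℝ) ≤ K := Nat.cast_nonneg K
  rw [integral_indicator_one measurableSet_Icc, Real.volume_real_Icc_of_le (by linarith)]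
  ring

private theorem win_nonneg (K : ℕ) (a t : ℝ) : 0 ≤ win K a t :=
  Set.indicator_nonneg (fun _ _ => zero_le_one) t

private theorem win_one {K : ℕ} {a t : ℝ} (h : |t - a| ≤ (K : ℝ) / 2) : win K a t = 1 := by
  unfold win
  rw [Set.indicator_of_mem, Pi.one_apply]
  have := abs_le.1 h
  exact ⟨by linarith [this.1], by linarith [this.2]⟩

/-- `Tn_eq` with `σ = 1/4`: `|ζ(1/2 + z + 2s)| ≤ ζ(1 + r)`, `inv_Lchi`; `norm_WW_le` on `V`, `norm_WW_off` outside. -/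
theorem T1_bound (hG : GRH) {r : ℝ} (hr : 0 < r) (hr1 : r < 1 / 4) : ∃ A C : ℝ, 0 < A ∧ 0 < C ∧ ∀ K D : ℕ, 16 ≤ K → 1 ≤ D →
    ∀ X : ℝ, 2 ≤ X → ‖Tn K D X 1‖ ≤ C * D * X ^ (1 / 4 + r) * (K : ℝ) ^ A := by
  obtain ⟨σ, hσ⟩ : ∃ σ : ℝ, σ = 1 / 4 := ⟨_, rfl⟩
  have h0 : 0 < σ := by rw [hσ]; norm_num
  have h1 : σ ≤ 1 := by rw [hσ]; norm_num
  obtain ⟨c, C₁, hc, hC₁, hoff⟩ := norm_WW_off hr hr1 h0 h1
  obtain ⟨C₂, hC₂, hle⟩ := norm_WW_le hr hr1 h0 h1
  obtain ⟨A, C₃, hA, hC₃, hinv⟩ := inv_Lchi hG hr (by linarith : r < 1 / 2)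
  obtain ⟨C₄, hC₄, hL⟩ := norm_Lchi_le' (x := 1 + r) (by linarith)
  -- the factor `qn`
  have hq : ∀ t y : ℝ, ‖qn 1 (σ + t * I) (r + y * I)‖ ≤ C₄ * (C₃ * (|y| + 2) ^ A) := by
    intro t y
    have e1 : (epsb 1 : ℂ) = 1 := by
      unfold epsb
      norm_num
    unfold qn
    rw [e1, Nat.cast_one, Complex.one_cpow, one_mul, one_mul, norm_mul]
    have e2 := (hL 1 odd_one (1 / 2 + (r + y * I) + 2 * (σ + t * I)) (by
      simp [hσ]
      linarith)).1
    have e3 := hinv 1 odd_one squarefree_one (1 / 2 + (r + y * I)) (by simp)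
    have e4 : (1 / 2 + ((r : ℂ) + y * I)).im = y := by simp
    rw [e4, Nat.cast_one, one_mul] at e3
    exact mul_le_mul e2 e3 (norm_nonneg _) hC₄.le
  obtain ⟨C₅, hC₅⟩ : ∃ C₅ : ℝ, C₅ = Real.exp c * (2 * A / c) ^ A := ⟨_, rfl⟩
  have hC₅0 : 0 < C₅ := by rw [hC₅]; positivity
  obtain ⟨I₁, hI₁⟩ : ∃ I₁ : ℝ, I₁ = ∫ t : ℝ, Real.exp (-(c * |t|)) := ⟨_, rfl⟩
  obtain ⟨I₂, hI₂⟩ : ∃ I₂ : ℝ, I₂ = ∫ t : ℝ, Real.exp (-(c / 2 * |t|)) := ⟨_, rfl⟩
  have hI₁0 : 0 ≤ I₁ := by rw [hI₁]; exact integral_nonneg fun t => (Real.exp_pos _).le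
  have hI₂0 : 0 ≤ I₂ := by rw [hI₂]; exact integral_nonneg fun t => (Real.exp_pos _).le
  refine ⟨A + 4, C₁ * C₄ * C₃ * C₅ * I₁ * I₂ + C₂ * C₄ * C₃ * 8 * (8 : ℝ) ^ A, by linarith,
    by positivity, fun K D hK hD X hX => ?_⟩
  have hK16 : (16 : ℝ) ≤ K := by exact_mod_cast hK
  have hK0 : (0 : ℝ) < K := by linarith
  have hX0 : (0 : ℝ) < X := by linarith
  obtain ⟨P, hP⟩ : ∃ P : ℝ, P = (D : ℝ) * X ^ (σ + r) := ⟨_, rfl⟩
  have hP0 : 0 ≤ P := by rw [hP]; positivity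
  obtain ⟨a₁, ha₁⟩ : ∃ a₁ : ℝ, a₁ = P * (C₁ * K * C₄ * C₃ * C₅) := ⟨_, rfl⟩
  obtain ⟨a₂, ha₂⟩ : ∃ a₂ : ℝ, a₂ = P * (C₂ * K * (8 * K) * C₄ * C₃ * (8 * K) ^ A) := ⟨_, rfl⟩
  have ha₁0 : 0 ≤ a₁ := by rw [ha₁]; positivity
  have ha₂0 : 0 ≤ a₂ := by rw [ha₂]; positivity
  -- the pointwise bound
  have hpt : ∀ y t : ℝ, ‖WW K D X (σ + t * I) (r + y * I) * qn 1 (σ + t * I) (r + y * I)‖ ≤
      a₁ * Real.exp (-(c / 2 * |y|)) * Real.exp (-(c * |t|)) +
        a₂ * win K (2 * Real.pi * K) y * win K (-(2 * Real.pi * K)) t := by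
    intro y t
    have hb1 : 0 ≤ a₁ * Real.exp (-(c / 2 * |y|)) * Real.exp (-(c * |t|)) := by positivity
    have hb2 : 0 ≤ a₂ * win K (2 * Real.pi * K) y * win K (-(2 * Real.pi * K)) t :=
      mul_nonneg (mul_nonneg ha₂0 (win_nonneg _ _ _)) (win_nonneg _ _ _)
    rw [norm_mul]
    by_cases hV : (K : ℝ) / 2 ≤ |t + 2 * Real.pi * K| ∨ (K : ℝ) / 2 ≤ |y - 2 * Real.pi * K|
    · refine le_trans ?_ (le_add_of_nonneg_right hb2)
      have e1 := mul_le_mul (hoff K D hK hD X hX t y hV) (hq t y) (norm_nonneg _) (by positivity)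
      refine e1.trans ?_
      have e2 : Real.exp (-(c * (|t| + |y|))) = Real.exp (-(c * |t|)) * Real.exp (-(c * |y|)) := by
        rw [← Real.exp_add]
        congr 1
        ring
      have e3 : Real.exp (-(c * K)) ≤ 1 := Real.exp_le_one_iff.2 (by
        have : 0 < c * K := by positivity
        linarith)
      have e4 := t1_pow hA hc y
      rw [← hC₅] at e4
      have e5 : C₁ * (D : ℝ) * X ^ (σ + r) * K * Real.exp (-(c * K)) *
          Real.exp (-(c * (|t| + |y|))) * (C₄ * (C₃ * (|y| + 2) ^ A)) =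
          (P * (C₁ * K * C₄ * C₃)) * Real.exp (-(c * |t|)) *
            (Real.exp (-(c * K)) * (Real.exp (-(c * |y|)) * (|y| + 2) ^ A)) := by
        rw [e2, hP]
        ring
      rw [e5]
      have e6 : Real.exp (-(c * K)) * (Real.exp (-(c * |y|)) * (|y| + 2) ^ A) ≤
          1 * (C₅ * Real.exp (-(c / 2 * |y|))) :=
        mul_le_mul e3 e4 (by positivity) zero_le_one
      refine (mul_le_mul_of_nonneg_left e6 (by positivity)).trans (le_of_eq ?_)
      rw [ha₁]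
      ring
    · rw [not_or, not_le, not_le] at hV
      obtain ⟨ht, hy⟩ := hV
      refine le_trans ?_ (le_add_of_nonneg_left hb1)
      have w1 : win K (2 * Real.pi * K) y = 1 := win_one hy.le
      have w2 : win K (-(2 * Real.pi * K)) t = 1 := win_one (by
        rw [sub_neg_eq_add]
        exact ht.le)
      rw [w1, w2, mul_one, mul_one]
      have hpi := Real.pi_lt_d2
      have hpi0 := Real.pi_pos
      have hpK : 2 * Real.pi * K ≤ 6.3 * K := mul_le_mul_of_nonneg_right (by linarith) hK0.le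
      have hpK0 : 0 < 2 * Real.pi * K := by positivity
      have t1 : |t| + 2 ≤ 8 * K := by
        have h3 := abs_lt.1 ht
        have h4 : |t| ≤ 7 * K - 2 + K := by
          rw [abs_le]
          constructor
          · linarith [h3.1]
          · linarith [h3.2]
        linarith
      have t2 : |y| + 2 ≤ 8 * K := by
        have h3 := abs_lt.1 hy
        have h4 : |y| ≤ 7 * K - 2 + K := by
          rw [abs_le]
          constructor
          · linarith [h3.1]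
          · linarith [h3.2]
        linarith
      have e1 := mul_le_mul (hle K D hK hD X hX t y) (hq t y) (norm_nonneg _) (by positivity)
      refine e1.trans ?_
      have t3 : (|y| + 2) ^ A ≤ (8 * K) ^ A := Real.rpow_le_rpow (by positivity) t2 hA.le
      have e5 : C₂ * (D : ℝ) * X ^ (σ + r) * K * (|t| + 2) * (C₄ * (C₃ * (|y| + 2) ^ A)) =
          P * (C₂ * K * C₄ * C₃) * ((|t| + 2) * (|y| + 2) ^ A) := by
        rw [hP]
        ring
      rw [e5]
      have e6 : (|t| + 2) * (|y| + 2) ^ A ≤ (8 * K) * (8 * K) ^ A :=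
        mul_le_mul t1 t3 (by positivity) (by positivity)
      refine (mul_le_mul_of_nonneg_left e6 (by positivity)).trans (le_of_eq ?_)
      rw [ha₂]
      ring
  -- the inner integral
  have hin : ∀ y : ℝ, ‖∫ t : ℝ, WW K D X (σ + t * I) (r + y * I) *
      qn 1 (σ + t * I) (r + y * I)‖ ≤
      a₁ * I₁ * Real.exp (-(c / 2 * |y|)) + a₂ * K * win K (2 * Real.pi * K) y := by
    intro y
    refine (norm_integral_le_of_norm_le (((t1_int hc).const_mul _).add
      ((win_int K _).const_mul _)) (ae_of_all _ (hpt y))).trans (le_of_eq ?_)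
    simp only [Pi.add_apply]
    rw [integral_add ((t1_int hc).const_mul _) ((win_int K _).const_mul _), integral_const_mul,
      integral_const_mul, ← hI₁, win_integral]
    ring
  have hout : ‖∫ y : ℝ, ∫ t : ℝ, WW K D X (σ + t * I) (r + y * I) *
      qn 1 (σ + t * I) (r + y * I)‖ ≤ a₁ * I₁ * I₂ + a₂ * K * K := by
    refine (norm_integral_le_of_norm_le (((t1_int (half_pos hc)).const_mul _).add
      ((win_int K _).const_mul _)) (ae_of_all _ hin)).trans (le_of_eq ?_)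
    simp only [Pi.add_apply]
    rw [integral_add ((t1_int (half_pos hc)).const_mul _) ((win_int K _).const_mul _),
      integral_const_mul, integral_const_mul, ← hI₂, win_integral]
  -- conclusion
  have e1 : (epsb 1 : ℂ) = 1 := by
    unfold epsb
    norm_num
  have hT := Tn_eq hG hr hr1 (K := K) (D := D) (n := 1) (by omega) hD odd_one squarefree_one hX
    h0 h1 (fun _ => by rw [hσ]; linarith)
  rw [e1, one_mul] at hT
  rw [hT, norm_mul]
  have e2 : ‖(1 / (4 * Real.pi ^ 2) : ℂ)‖ ≤ 1 := by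
    have e3 : (1 / (4 * Real.pi ^ 2) : ℂ) = ((1 / (4 * Real.pi ^ 2) : ℝ) : ℂ) := by
      push_cast
      ring
    have hpi : (3 : ℝ) < Real.pi := Real.pi_gt_three
    rw [e3, Complex.norm_real, Real.norm_eq_abs, abs_of_pos (by positivity),
      div_le_one (by positivity)]
    nlinarith
  refine (mul_le_mul e2 hout (norm_nonneg _) zero_le_one).trans ?_
  rw [one_mul]
  have hKA : (K : ℝ) ^ (A + 4) = (K : ℝ) ^ A * (K : ℝ) ^ 4 := by
    rw [Real.rpow_add hK0]
    norm_cast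
  have hK1 : (K : ℝ) ≤ (K : ℝ) ^ (A + 4) := by
    have := Real.rpow_le_rpow_of_exponent_le (by linarith : (1 : ℝ) ≤ K)
      (by linarith : (1 : ℝ) ≤ A + 4)
    rwa [Real.rpow_one] at this
  have g1 : a₁ * I₁ * I₂ ≤ (C₁ * C₄ * C₃ * C₅ * I₁ * I₂) * P * (K : ℝ) ^ (A + 4) := by
    have : a₁ * I₁ * I₂ = (C₁ * C₄ * C₃ * C₅ * I₁ * I₂) * P * K := by
      rw [ha₁]
      ring
    rw [this]
    exact mul_le_mul_of_nonneg_left hK1 (by positivity)
  have g2 : a₂ * K * K = (C₂ * C₄ * C₃ * 8 * (8 : ℝ) ^ A) * P * (K : ℝ) ^ (A + 4) := by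
    rw [ha₂, hKA, Real.mul_rpow (by norm_num) hK0.le]
    ring
  rw [g2]
  refine (add_le_add_left g1 _).trans (le_of_eq ?_)
  rw [hP, hσ]
  ring

end Pool.Agent.MP_291b24_nt.Sm
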