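import Pool.Agent.Lib.MP_291b24_nt.Sm.KerA
import Pool.Agent.Lib.MP_291b24_nt.Theta

/-! Fourier transform of `w` and Poisson summation -/

set_option autoImplicit false

open Complex

namespace Pool.Agent.MP_291b24_nt.Sm

section aux

open Filter Topology MeasureTheory Set Asymptotics

private theorem WFour_norm (a : ℂ) (K : ℕ) (t : ℝ) :
    ‖(t : ℂ) ^ K * cexp (-a * t)‖ = |t| ^ K * Real.exp (-a.re * t) := by
  rw [norm_mul, norm_pow, Complex.norm_real, Real.norm_eq_abs, Complex.norm_exp, re_mul_ofReal,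
    neg_re]

private theorem WFour_small {r : ℝ} (hr : 0 < r) (K : ℕ) :
    (fun t : ℝ => |t| ^ K * Real.exp (-r * t)) =O[atTop] fun t => Real.exp (-(r / 2) * t) := by
  have h1 := (isLittleO_pow_exp_pos_mul_atTop K (half_pos hr)).isBigO
  have h2 := h1.mul (isBigO_refl (fun t : ℝ => Real.exp (-r * t)) atTop)
  have h3 : (fun t : ℝ => |t| ^ K * Real.exp (-r * t)) =ᶠ[atTop]
      fun t => t ^ K * Real.exp (-r * t) := by
    filter_upwards [eventually_ge_atTop (0 : ℝ)] with t ht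
    rw [abs_of_nonneg ht]
  refine h3.trans_isBigO (h2.congr_right fun t => ?_)
  rw [← Real.exp_add]
  congr 1
  ring

private theorem WFour_integrable {a : ℂ} (ha : 0 < a.re) (K : ℕ) :
    IntegrableOn (fun t : ℝ => (t : ℂ) ^ K * cexp (-a * t)) (Ioi 0) := by
  have hc : Continuous fun t : ℝ => (t : ℂ) ^ K * cexp (-a * t) := by fun_prop
  have h1 : IntegrableOn (fun t : ℝ => |t| ^ K * Real.exp (-a.re * t)) (Ioi 0) :=
    integrable_of_isBigO_exp_neg (half_pos ha) (by fun_prop) (WFour_small ha K)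
  refine h1.mono' hc.aestronglyMeasurable ?_
  exact Filter.Eventually.of_forall fun t => (WFour_norm a K t).le

private theorem WFour_tendsto {a : ℂ} (ha : 0 < a.re) (K : ℕ) :
    Tendsto (fun t : ℝ => (t : ℂ) ^ K * cexp (-a * t)) atTop (𝓝 0) := by
  rw [tendsto_zero_iff_norm_tendsto_zero]
  simp only [WFour_norm]
  refine (WFour_small ha K).trans_tendsto ?_
  have h1 : Tendsto (fun t : ℝ => a.re / 2 * t) atTop atTop :=
    tendsto_id.const_mul_atTop (half_pos ha)
  have h2 := Real.tendsto_exp_neg_atTop_nhds_zero.comp h1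
  refine h2.congr fun t => ?_
  simp only [Function.comp]
  congr 1
  ring

private theorem WFour_gamma {a : ℂ} (ha : 0 < a.re) (K : ℕ) :
    ∫ t in Ioi (0 : ℝ), (t : ℂ) ^ K * cexp (-a * t) = K.factorial / a ^ (K + 1) := by
  have ha0 : a ≠ 0 := by
    rintro rfl
    simp at ha
  induction K with
  | zero =>
    have h1 := integral_exp_mul_complex_Ioi (a := -a) (by simpa using ha) 0
    simp only [pow_zero, one_mul]
    rw [h1]
    simp
  | succ K ih =>
    have h1 : ∀ t ∈ Ici (0 : ℝ), HasDerivAt (fun t : ℝ => (t : ℂ) ^ (K + 1) * cexp (-a * t))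
        (((K + 1 : ℕ) : ℂ) * ((t : ℂ) ^ K * cexp (-a * t)) -
          a * ((t : ℂ) ^ (K + 1) * cexp (-a * t))) t := by
      intro t _
      have e1 : HasDerivAt (fun t : ℝ => (t : ℂ)) 1 t := by
        simpa using (hasDerivAt_id t).ofReal_comp
      have e2 := e1.pow (K + 1)
      have e3 := (e1.const_mul (-a)).cexp
      have e4 := e2.mul e3
      refine e4.congr_deriv ?_
      simp only [Nat.add_sub_cancel, Pi.pow_apply]
      ring
    have h2 := integral_Ioi_of_hasDerivAt_of_tendsto' h1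
      (((WFour_integrable ha K).const_mul _).sub ((WFour_integrable ha (K + 1)).const_mul _))
      (WFour_tendsto ha (K + 1))
    rw [integral_sub ((WFour_integrable ha K).const_mul _)
      ((WFour_integrable ha (K + 1)).const_mul _), integral_const_mul, integral_const_mul, ih] at h2
    have h3 : a * ∫ t in Ioi (0 : ℝ), (t : ℂ) ^ (K + 1) * cexp (-a * t) =
        ((K + 1 : ℕ) : ℂ) * (K.factorial / a ^ (K + 1)) := by
      have h4 : (0 : ℂ) - ((0 : ℝ) : ℂ) ^ (K + 1) * cexp (-a * ((0 : ℝ) : ℂ)) = 0 := by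
        simp
      rw [h4] at h2
      linear_combination -h2
    rw [Nat.factorial_succ, pow_succ a (K + 1), eq_div_iff (mul_ne_zero (pow_ne_zero _ ha0) ha0),
      mul_comm _ (a ^ (K + 1) * a), mul_assoc (a ^ (K + 1)), h3]
    push_cast
    field_simp

end aux

open FourierTransform in
/-- `Complex.integral_cpow_mul_exp_neg_mul_Ioi` (or `Complex.GammaIntegral`) with the exponent `1 - 2 π i + 2 π i ξ`, real part `1` -/
theorem fourier_wk {K : ℕ} (hK : 1 ≤ K) (ξ : ℝ) : 𝓕 (wk K) ξ = wh K ξ := by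
  obtain ⟨a, ha⟩ : ∃ a : ℂ, a = 1 + 2 * Real.pi * I * ((ξ - 1 : ℝ) : ℂ) := ⟨_, rfl⟩
  have ha1 : a.re = 1 := by
    rw [ha]
    have : (2 * Real.pi * I * ((ξ - 1 : ℝ) : ℂ)) = ((2 * Real.pi * (ξ - 1) : ℝ) : ℂ) * I := by
      push_cast
      ring
    rw [this]
    simp
  have h1 : ∀ v : ℝ, cexp (((-2 * Real.pi * v * ξ : ℝ) : ℂ) * I) • wk K v =
      Set.indicator (Set.Ioi 0) (fun t : ℝ => ((Real.sqrt K / (K.factorial : ℝ) : ℝ) : ℂ) *
        ((t : ℂ) ^ K * cexp (-a * t))) v := by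
    intro v
    by_cases hv : 0 < v
    · rw [Set.indicator_of_mem (Set.mem_Ioi.2 hv)]
      unfold wk
      rw [if_pos hv, smul_eq_mul, ha]
      have e1 : cexp (-(1 + 2 * Real.pi * I * ((ξ - 1 : ℝ) : ℂ)) * v) =
          cexp (((-2 * Real.pi * v * ξ : ℝ) : ℂ) * I) * cexp (-(1 - 2 * Real.pi * I) * v) := by
        rw [← Complex.exp_add]
        congr 1
        push_cast
        ring
      rw [e1]
      push_cast
      ring
    · rw [Set.indicator_of_notMem (by simpa using hv)]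
      unfold wk
      rw [if_neg hv, smul_zero]
  rw [Real.fourier_real_eq_integral_exp_smul]
  simp only [h1]
  rw [MeasureTheory.integral_indicator measurableSet_Ioi, MeasureTheory.integral_const_mul,
    WFour_gamma (by rw [ha1]; exact one_pos) K]
  unfold wh
  rw [← ha]
  have hf : ((K.factorial : ℕ) : ℂ) ≠ 0 := by exact_mod_cast K.factorial_ne_zero
  push_cast
  field_simp

section aux2

open Filter Topology MeasureTheory Set Asymptotics FourierTransform

private theorem WFour_sq (K : ℕ) (v : ℝ) :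
    ‖wk K v‖ * v ^ 2 ≤ Real.sqrt K / K.factorial * (K + 2).factorial := by
  unfold wk
  split_ifs with hv
  · have h1 := Real.pow_div_factorial_le_exp v hv.le (K + 2)
    have hf : (0 : ℝ) < (K + 2).factorial := by exact_mod_cast (K + 2).factorial_pos
    rw [div_le_iff₀ hf] at h1
    have h2 : ‖((Real.sqrt K / (K.factorial : ℝ) * v ^ K : ℝ) : ℂ) *
        cexp (-(1 - 2 * Real.pi * I) * v)‖ =
        Real.sqrt K / (K.factorial : ℝ) * v ^ K * Real.exp (-v) := by
      rw [norm_mul, Complex.norm_real, Real.norm_eq_abs, abs_of_nonneg (by positivity),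
        Complex.norm_exp]
      congr 2
      simp
    rw [h2]
    have h3 : v ^ (K + 2) * Real.exp (-v) ≤ (K + 2).factorial := by
      rw [Real.exp_neg, ← div_eq_mul_inv, div_le_iff₀ (Real.exp_pos v), mul_comm]
      exact h1
    calc Real.sqrt K / (K.factorial : ℝ) * v ^ K * Real.exp (-v) * v ^ 2 =
          Real.sqrt K / (K.factorial : ℝ) * (v ^ (K + 2) * Real.exp (-v)) := by ring
      _ ≤ _ := mul_le_mul_of_nonneg_left h3 (by positivity)
  · rw [norm_zero, zero_mul]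
    positivity

private theorem WFour_dec (K : ℕ) {α : ℝ} (hα : 0 < α) (β : ℝ) :
    (fun u : ℝ => wk K (β + α * u)) =O[cocompact ℝ] fun u => |u| ^ (-2 : ℝ) := by
  refine IsBigO.of_bound (4 / α ^ 2 * (Real.sqrt K / K.factorial * (K + 2).factorial)) ?_
  have h1 : ∀ᶠ u in cocompact ℝ, 2 * |β| / α + 1 ≤ ‖u‖ :=
    (tendsto_norm_cocompact_atTop (E := ℝ)).eventually_ge_atTop _
  filter_upwards [h1] with u hu
  rw [Real.norm_eq_abs] at hu
  have hb0 : 0 ≤ |β| := abs_nonneg _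
  have hu0 : 0 < |u| := by
    have : 0 ≤ 2 * |β| / α := by positivity
    linarith
  have h2 : α * |u| / 2 ≤ |β + α * u| := by
    have e1 : 2 * |β| ≤ α * |u| := by
      have e2 : 2 * |β| / α ≤ |u| := by linarith
      rw [div_le_iff₀ hα] at e2
      linarith
    have e3 : |α * u| - |β| ≤ |β + α * u| := by
      have := abs_sub_abs_le_abs_sub (α * u) (-β)
      rw [abs_neg, sub_neg_eq_add, add_comm (α * u)] at this
      exact this
    rw [abs_mul, abs_of_pos hα] at e3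
    linarith
  have h3 : (α * |u| / 2) ^ 2 ≤ (β + α * u) ^ 2 := by
    rw [← sq_abs (β + α * u)]
    exact pow_le_pow_left₀ (by positivity) h2 2
  have h4 := WFour_sq K (β + α * u)
  have h5 : ‖wk K (β + α * u)‖ * (α * |u| / 2) ^ 2 ≤
      Real.sqrt K / K.factorial * (K + 2).factorial :=
    (mul_le_mul_of_nonneg_left h3 (norm_nonneg _)).trans h4
  have h6 : ‖|u| ^ (-2 : ℝ)‖ = (|u| ^ 2)⁻¹ := by
    rw [Real.norm_eq_abs, abs_of_nonneg (Real.rpow_nonneg hu0.le _), Real.rpow_neg hu0.le]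
    norm_cast
  rw [h6]
  have h7 : 0 < |u| ^ 2 := by positivity
  rw [← div_eq_mul_inv, le_div_iff₀ h7]
  have h8 : 0 < α ^ 2 := by positivity
  have h9 : ‖wk K (β + α * u)‖ * |u| ^ 2 = 4 / α ^ 2 * (‖wk K (β + α * u)‖ *
      (α * |u| / 2) ^ 2) := by
    field_simp
    ring
  rw [h9]
  exact mul_le_mul_of_nonneg_left h5 (by positivity)

private theorem WFour_four {K : ℕ} (hK : 1 ≤ K) {α : ℝ} (hα : 0 < α) (β b : ℝ) :
    𝓕 (fun u : ℝ => wk K (β + α * u)) b =
      ((α : ℝ) : ℂ)⁻¹ * (cexp (2 * Real.pi * I * ((b * β / α : ℝ) : ℂ)) * wh K (b / α)) := by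
  rw [Real.fourier_real_eq_integral_exp_smul, ← fourier_wk hK,
    Real.fourier_real_eq_integral_exp_smul]
  obtain ⟨g, hg⟩ : ∃ g : ℝ → ℂ, g = fun y =>
      cexp (((-2 * Real.pi * ((y - β) / α) * b : ℝ) : ℂ) * I) • wk K y := ⟨_, rfl⟩
  have h1 : (fun v : ℝ => cexp (((-2 * Real.pi * v * b : ℝ) : ℂ) * I) • wk K (β + α * v)) =
      fun v => (fun y => g (β + y)) (α * v) := by
    funext v
    rw [hg]
    simp only
    congr 5
    field_simp
    ring
  have h2 : ∀ y, g y = cexp (2 * Real.pi * I * ((b * β / α : ℝ) : ℂ)) *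
      (cexp (((-2 * Real.pi * y * (b / α) : ℝ) : ℂ) * I) • wk K y) := by
    intro y
    rw [hg]
    simp only
    rw [smul_eq_mul, smul_eq_mul, ← mul_assoc, ← Complex.exp_add]
    congr 2
    have hα' : (α : ℂ) ≠ 0 := by exact_mod_cast hα.ne'
    push_cast
    field_simp
    ring
  rw [h1, Measure.integral_comp_mul_left (fun y => g (β + y)) α,
    integral_add_left_eq_self g β, abs_of_pos (inv_pos.2 hα)]
  simp only [h2]
  rw [integral_const_mul, real_smul]
  push_cast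
  rfl

private theorem WFour_wh {K : ℕ} (hK : 1 ≤ K) {α : ℝ} (hα : 0 < α) :
    (fun b : ℝ => wh K (b / α)) =O[cocompact ℝ] fun b => |b| ^ (-2 : ℝ) := by
  refine IsBigO.of_bound (Real.sqrt K * α ^ 2) ?_
  have h1 : ∀ᶠ b in cocompact ℝ, 2 * α ≤ ‖b‖ :=
    (tendsto_norm_cocompact_atTop (E := ℝ)).eventually_ge_atTop _
  filter_upwards [h1] with b hb
  rw [Real.norm_eq_abs] at hb
  have hb0 : 0 < |b| := by linarith
  obtain ⟨ξ, hξ⟩ : ∃ ξ : ℝ, ξ = b / α := ⟨_, rfl⟩
  have hξ2 : 2 ≤ |ξ| := by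
    rw [hξ, abs_div, abs_of_pos hα, le_div_iff₀ hα]
    exact hb
  rw [norm_wh, ← hξ]
  obtain ⟨S, hS⟩ : ∃ S : ℝ, S = Real.sqrt (1 + 4 * Real.pi ^ 2 * (ξ - 1) ^ 2) := ⟨_, rfl⟩
  rw [← hS]
  have h2 : |ξ| ≤ S := by
    rw [hS]
    refine Real.le_sqrt_of_sq_le ?_
    have e1 : |ξ| / 2 ≤ |ξ - 1| := by
      have := abs_sub_abs_le_abs_sub ξ 1
      rw [abs_one] at this
      linarith
    have e2 : (|ξ| / 2) ^ 2 ≤ (ξ - 1) ^ 2 := by
      rw [← sq_abs (ξ - 1)]
      exact pow_le_pow_left₀ (by positivity) e1 2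
    have e3 : (3 : ℝ) ≤ Real.pi := Real.pi_gt_three.le
    have e4 : (9 : ℝ) ≤ Real.pi ^ 2 := by nlinarith
    nlinarith [sq_nonneg ξ, sq_abs ξ]
  have hS1 : 1 ≤ S := by linarith
  have h3 : ξ ^ 2 ≤ S ^ (K + 1) := by
    calc ξ ^ 2 = |ξ| ^ 2 := (sq_abs ξ).symm
      _ ≤ S ^ 2 := pow_le_pow_left₀ (abs_nonneg _) h2 2
      _ ≤ S ^ (K + 1) := pow_le_pow_right₀ hS1 (by omega)
  have h6 : ‖|b| ^ (-2 : ℝ)‖ = (|b| ^ 2)⁻¹ := by
    rw [Real.norm_eq_abs, abs_of_nonneg (Real.rpow_nonneg hb0.le _), Real.rpow_neg hb0.le]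
    norm_cast
  rw [h6, mul_assoc]
  refine mul_le_mul_of_nonneg_left ?_ (Real.sqrt_nonneg _)
  have h7 : α ^ 2 * (|b| ^ 2)⁻¹ = (ξ ^ 2)⁻¹ := by
    rw [hξ, sq_abs, div_pow, inv_div, div_eq_mul_inv]
  rw [h7]
  exact inv_anti₀ (by nlinarith [sq_abs ξ]) h3

private theorem WFour_summable_wh {K : ℕ} (hK : 1 ≤ K) {α : ℝ} (hα : 0 < α) :
    Summable fun b : ℤ => ‖wh K ((b : ℝ) / α)‖ := by
  refine summable_of_isBigO (Real.summable_abs_int_rpow (b := 2) (by norm_num)) ?_
  exact ((WFour_wh hK hα).norm_left).comp_tendsto Int.tendsto_coe_cofinite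

private theorem WFour_poisson {K : ℕ} (hK : 1 ≤ K) {α : ℝ} (hα : 0 < α) (β : ℝ) :
    ∑' m : ℤ, wk K (β + α * m) =
      ∑' b : ℤ, ((α : ℝ) : ℂ)⁻¹ *
        (cexp (2 * Real.pi * I * (((b : ℝ) * β / α : ℝ) : ℂ)) * wh K ((b : ℝ) / α)) := by
  have hF : (𝓕 (fun u : ℝ => wk K (β + α * u))) =O[cocompact ℝ] fun b => |b| ^ (-2 : ℝ) := by
    refine IsBigO.trans ?_ (WFour_wh hK hα)
    refine IsBigO.of_bound α⁻¹ (Filter.Eventually.of_forall fun b => ?_)
    rw [WFour_four hK hα, norm_mul, norm_mul, norm_inv, Complex.norm_real, Real.norm_eq_abs,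
      abs_of_pos hα]
    have e1 : ‖cexp (2 * Real.pi * I * ((b * β / α : ℝ) : ℂ))‖ = 1 := by
      have : 2 * Real.pi * I * ((b * β / α : ℝ) : ℂ) =
          ((2 * Real.pi * (b * β / α) : ℝ) : ℂ) * I := by
        push_cast
        ring
      rw [this, Complex.norm_exp_ofReal_mul_I]
    rw [e1, one_mul]
  have h1 := Real.tsum_eq_tsum_fourier_of_rpow_decay (f := fun u : ℝ => wk K (β + α * u))
    (by
      have := continuous_wk hK
      fun_prop) (b := 2) (by norm_num) (WFour_dec K hα β) hF 0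
  simp only [zero_add] at h1
  rw [h1]
  refine tsum_congr fun b => ?_
  rw [WFour_four hK hα]
  simp

end aux2

/-- Poisson summation for a periodic weight: split into the classes mod `Q` and use `Real.tsum_eq_tsum_fourier_of_rpow_decay`
for `u ↦ wk K (θ (r + Q u))` (continuous, `O(|u| ^ (-2))`, the transform is `O(|ξ| ^ (-2))`, since `K ≥ 2`). Note `wk K u = 0` for `u ≤ 0`. -/
theorem poisson_wk {K : ℕ} (hK : 2 ≤ K) {θ : ℝ} (hθ : 0 < θ) {Q : ℕ} (hQ : 0 < Q) (c : ℕ → ℂ)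
    (hc : ∀ n, c (n + Q) = c n) :
    ∑' n : ℕ, c n * wk K (θ * n) = ((θ * Q : ℝ) : ℂ)⁻¹ * ∑' b : ℤ,
      (∑ n ∈ Finset.range Q, c n * cexp (2 * Real.pi * I * ((b : ℂ) * n / (Q : ℂ)))) * wh K ((b : ℝ) / (θ * Q)) := by
  have hK1 : 1 ≤ K := by omega
  have hQr : (0 : ℝ) < Q := by exact_mod_cast hQ
  have hα : 0 < θ * Q := mul_pos hθ hQr
  have : NeZero Q := ⟨hQ.ne'⟩
  have hper : Function.Periodic c Q := hc
  obtain ⟨F, hF⟩ : ∃ F : ℤ → ℂ, ∀ n, F n = c (n % (Q : ℤ)).toNat * wk K (θ * n) :=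
    ⟨_, fun _ => rfl⟩
  have hFs : Summable F := by
    have h1 : Summable fun n : ℤ => ‖wk K (0 + θ * (n : ℝ))‖ := by
      refine summable_of_isBigO (Real.summable_abs_int_rpow (b := 2) (by norm_num)) ?_
      exact ((WFour_dec K hθ 0).norm_left).comp_tendsto Int.tendsto_coe_cofinite
    refine Summable.of_norm_bounded (h1.mul_left (∑ i ∈ Finset.range Q, ‖c i‖)) fun n => ?_
    rw [hF, norm_mul, zero_add]
    refine mul_le_mul_of_nonneg_right ?_ (norm_nonneg _)
    refine Finset.single_le_sum (f := fun i => ‖c i‖) (fun _ _ => norm_nonneg _)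
      (Finset.mem_range.2 ?_)
    have h2 := Int.emod_lt_of_pos n (show (0 : ℤ) < Q by exact_mod_cast hQ)
    have h3 := Int.emod_nonneg n (show (Q : ℤ) ≠ 0 by exact_mod_cast hQ.ne')
    omega
  have h1 : ∑' n : ℕ, c n * wk K (θ * n) = ∑' n : ℤ, F n := by
    have h2 : Function.support F ⊆ Set.range ((↑) : ℕ → ℤ) := by
      intro n hn
      by_contra hcon
      apply hn
      have hn0 : n < 0 := by
        by_contra h
        exact hcon ⟨n.toNat, Int.toNat_of_nonneg (not_lt.1 h)⟩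
      rw [hF]
      have h3 : θ * (n : ℝ) < 0 := mul_neg_of_pos_of_neg hθ (by exact_mod_cast hn0)
      unfold wk
      rw [if_neg (not_lt.2 h3.le), mul_zero]
    rw [← Function.Injective.tsum_eq Nat.cast_injective h2]
    refine tsum_congr fun n => ?_
    rw [hF, ← Int.natCast_mod, Int.toNat_natCast, hper.map_mod_nat]
    push_cast
    rfl
  rw [h1, tsum_by_class hFs Q]
  have h2 : ∀ r : Fin Q, ∑' k : ℤ, F (k * Q + (r : ℕ)) = c r * ∑' b : ℤ,
      (((θ * Q : ℝ) : ℂ)⁻¹ * (cexp (2 * Real.pi * I * ((b : ℂ) * (r : ℕ) / (Q : ℂ))) *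
        wh K ((b : ℝ) / (θ * Q)))) := by
    intro r
    have h3 : ∀ k : ℤ, F (k * Q + (r : ℕ)) = c r * wk K (θ * (r : ℕ) + θ * Q * k) := by
      intro k
      rw [hF]
      have h4 : (k * (Q : ℤ) + ((r : ℕ) : ℤ)) % (Q : ℤ) = ((r : ℕ) : ℤ) := by
        rw [add_comm, Int.add_mul_emod_self_right]
        exact Int.emod_eq_of_lt (Int.natCast_nonneg _) (by exact_mod_cast r.2)
      rw [h4, Int.toNat_natCast]
      congr 2
      push_cast
      ring
    simp only [h3]
    rw [tsum_mul_left, WFour_poisson hK1 hα]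
    congr 1
    refine tsum_congr fun b => ?_
    congr 4
    have hθ' : (θ : ℂ) ≠ 0 := by exact_mod_cast hθ.ne'
    have hQ' : (Q : ℂ) ≠ 0 := by exact_mod_cast hQ.ne'
    push_cast
    field_simp
  have hsum : ∀ r : ℕ, Summable fun b : ℤ =>
      c r * cexp (2 * Real.pi * I * ((b : ℂ) * r / (Q : ℂ))) * wh K ((b : ℝ) / (θ * Q)) := by
    intro r
    refine Summable.of_norm ?_
    refine ((WFour_summable_wh hK1 hα).mul_left ‖c r‖).congr fun b => ?_
    rw [norm_mul, norm_mul]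
    have e1 : ‖cexp (2 * Real.pi * I * ((b : ℂ) * r / (Q : ℂ)))‖ = 1 := by
      have : 2 * Real.pi * I * ((b : ℂ) * r / (Q : ℂ)) =
          ((2 * Real.pi * ((b : ℝ) * r / Q) : ℝ) : ℂ) * I := by
        push_cast
        ring
      rw [this, Complex.norm_exp_ofReal_mul_I]
    rw [e1, mul_one]
  rw [Finset.sum_congr rfl fun r _ => h2 r]
  have h5 : ∑' b : ℤ, (∑ n ∈ Finset.range Q, c n *
      cexp (2 * Real.pi * I * ((b : ℂ) * n / (Q : ℂ)))) * wh K ((b : ℝ) / (θ * Q)) =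
      ∑ n ∈ Finset.range Q, ∑' b : ℤ, c n *
        cexp (2 * Real.pi * I * ((b : ℂ) * n / (Q : ℂ))) * wh K ((b : ℝ) / (θ * Q)) := by
    rw [← Summable.tsum_finsetSum fun n _ => hsum n]
    refine tsum_congr fun b => ?_
    rw [Finset.sum_mul]
  rw [h5, Finset.mul_sum, Finset.sum_range]
  refine Finset.sum_congr rfl fun r _ => ?_
  rw [tsum_mul_left, mul_left_comm]
  congr 1
  rw [← tsum_mul_left]
  refine tsum_congr fun b => ?_
  ring

end Pool.Agent.MP_291b24_nt.Sm
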