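import Pool.Agent.Lib.MP_291b24_nt.Sm.WMelA

/-! Mellin inversion for w -/

set_option autoImplicit false

open Complex MeasureTheory

namespace Pool.Agent.MP_291b24_nt.Sm

private theorem wmc_exp_int {c : ℝ} (hc : 0 < c) :
    Integrable (fun t : ℝ => Real.exp (-(c * |t|))) := by
  have h1 : IntegrableOn (fun t : ℝ => Real.exp (-(c * |t|))) (Set.Ioi 0) := by
    refine (integrableOn_exp_mul_Ioi (a := -c) (by linarith) 0).congr_fun (fun t ht => ?_)
      measurableSet_Ioi
    change Real.exp (-c * t) = Real.exp (-(c * |t|))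
    rw [abs_of_pos (show 0 < t from ht), neg_mul]
  have h2 : IntegrableOn (fun t : ℝ => Real.exp (-(c * |t|))) (Set.Iic 0) := by
    refine (integrableOn_exp_mul_Iic (a := c) hc 0).congr_fun (fun t ht => ?_)
      measurableSet_Iic
    change Real.exp (c * t) = Real.exp (-(c * |t|))
    rw [abs_of_nonpos (show t ≤ 0 from ht), mul_neg, neg_neg]
  have h3 := h2.union h1
  rw [Set.Iic_union_Ioi] at h3
  exact integrableOn_univ.1 h3

/-- Mellin inversion (`mellin_inversion`) -/
theorem wk_inv {K : ℕ} (hK : 2 ≤ K) {σ : ℝ} (h0 : 0 < σ) (h2 : σ ≤ 2) {y : ℝ} (hy : 0 < y) :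
    wk K y = (1 / (2 * Real.pi) : ℂ) * ∫ t : ℝ, wM K (σ + t * I) * (y : ℂ) ^ (-(σ + t * I)) := by
  have hre : ∀ t : ℝ, ((σ : ℂ) + t * I).re = σ := fun t => by simp
  have him : ∀ t : ℝ, ((σ : ℂ) + t * I).im = t := fun t => by simp
  have hm : ∀ t : ℝ, mellin (wk K) ((σ : ℂ) + t * I) = wM K (σ + t * I) := fun t =>
    (mellin_wk (by omega) (by rw [hre]; exact h0)).1
  have hcont : Continuous fun t : ℝ => wM K (σ + t * I) := by
    refine (differentiableOn_wM (K := K) (by omega)).continuousOn.comp_continuous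
      (by fun_prop) fun t => ?_
    change 0 < ((σ : ℂ) + t * I).re
    rw [hre]
    exact h0
  have hint : Complex.VerticalIntegrable (mellin (wk K)) σ := by
    unfold Complex.VerticalIntegrable
    simp only [hm]
    obtain ⟨c, C, hc, hC, hb⟩ := norm_wM_decay hK
    refine ((wmc_exp_int hc).const_mul C).mono' hcont.aestronglyMeasurable
      (Filter.Eventually.of_forall fun t => ?_)
    have := hb ((σ : ℂ) + t * I) (by rw [hre]; exact h0) (by rw [hre]; exact h2)
    rwa [him] at this
  have hcy : ContinuousAt (wk K) y := by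
    have h3 : wk K =ᶠ[nhds y] fun u : ℝ =>
        ((Real.sqrt K / (K.factorial : ℝ) * u ^ K : ℝ) : ℂ) * cexp (-(1 - 2 * Real.pi * I) * u) := by
      filter_upwards [lt_mem_nhds hy] with u hu
      unfold wk
      rw [if_pos hu]
    refine ContinuousAt.congr ?_ h3.symm
    fun_prop
  have hconv : MellinConvergent (wk K) (σ : ℂ) :=
    (mellin_wk (by omega) (by rw [Complex.ofReal_re]; exact h0)).2
  have key := mellinInv_mellin_eq σ (wk K) hy hconv hint hcy
  rw [← key]
  unfold mellinInv
  rw [Complex.real_smul]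
  push_cast
  congr 1
  refine integral_congr_ae (Filter.Eventually.of_forall fun t => ?_)
  change (y : ℂ) ^ (-((σ : ℂ) + t * I)) • mellin (wk K) ((σ : ℂ) + t * I) = _
  rw [hm, smul_eq_mul, mul_comm]

end Pool.Agent.MP_291b24_nt.Sm
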