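import Pool.Agent.Lib.MP_291b24_nt.Sm.WMelB
import Pool.Agent.Lib.MP_291b24_nt.Sm.WMelC
import Pool.Agent.Lib.MP_291b24_nt.Sm.PMel

/-! Mellin transforms, collected -/

set_option autoImplicit false

open Complex MeasureTheory

namespace Pool.Agent.MP_291b24_nt.Sm



end Pool.Agent.MP_291b24_nt.Sm
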