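import Pool.Agent.Lib.MP_291b24_nt.Sm.KerA

/-! Mellin transform of w -/

set_option autoImplicit false

open Complex MeasureTheory

namespace Pool.Agent.MP_291b24_nt.Sm

section laplace

open Set Filter
open scoped Real Topology

private lemma wmA_int {a x : ℝ} (ha : 0 < a) (hx : 0 < x) :
    IntegrableOn (fun t : ℝ => t ^ (a - 1) * Real.exp (-(x * t))) (Ioi 0) := by
  have := Real.GammaIntegral_convergent ha
  have h2 := (integrableOn_Ioi_comp_mul_left_iff
    (fun t : ℝ => Real.exp (-t) * t ^ (a - 1)) 0 hx).2 (by simpa using this)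
  have h3 : IntegrableOn (fun t : ℝ => (x ^ (a-1))⁻¹ * (Real.exp (-(x * t)) * (x * t) ^ (a - 1)))
      (Ioi 0) := h2.const_mul _
  refine h3.congr_fun ?_ measurableSet_Ioi
  intro t ht
  have ht' : (0:ℝ) < t := ht
  simp only
  rw [Real.mul_rpow hx.le ht'.le]
  have : x ^ (a-1) ≠ 0 := (Real.rpow_pos_of_pos hx _).ne'
  field_simp

private lemma wmA_meas (a : ℂ) :
    AEStronglyMeasurable (fun t : ℝ => (t : ℂ) ^ (a - 1)) (volume.restrict (Ioi (0:ℝ))) := by
  refine ContinuousOn.aestronglyMeasurable (fun t ht => ?_) measurableSet_Ioi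
  have ht' : (0:ℝ) < t := ht
  refine ContinuousAt.continuousWithinAt ?_
  exact Complex.continuousAt_ofReal_cpow_const t (a - 1) (Or.inr ht'.ne')

private lemma wmA_norm {a z : ℂ} {t : ℝ} (ht : 0 < t) :
    ‖(t : ℂ) ^ (a - 1) * cexp (-(z * t))‖ = t ^ (a.re - 1) * Real.exp (-(z.re * t)) := by
  rw [norm_mul, Complex.norm_cpow_eq_rpow_re_of_pos ht, Complex.norm_exp, sub_re, one_re]
  congr 2
  simp

private lemma wmA_intc {a z : ℂ} (ha : 0 < a.re) (hz : 0 < z.re) :
    IntegrableOn (fun t : ℝ => (t : ℂ) ^ (a - 1) * cexp (-(z * t))) (Ioi 0) := by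
  refine Integrable.mono' (wmA_int ha hz) ?_ ?_
  · refine AEStronglyMeasurable.mul (wmA_meas a) ?_
    exact (by fun_prop : Continuous fun t : ℝ => cexp (-(z * t))).aestronglyMeasurable
  · refine (ae_restrict_iff' measurableSet_Ioi).2 (Eventually.of_forall fun t ht => ?_)
    rw [wmA_norm ht]

private lemma wmA_laplace {a : ℂ} (ha : 0 < a.re) {z : ℂ} (hz : 0 < z.re) :
    ∫ t : ℝ in Ioi 0, (t : ℂ) ^ (a - 1) * cexp (-(z * t)) = Gamma a * z ^ (-a) := by
  let L : ℂ → ℂ := fun z => ∫ t : ℝ in Ioi 0, (t : ℂ) ^ (a - 1) * cexp (-(z * t))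
  let R : ℂ → ℂ := fun z => Gamma a * z ^ (-a)
  let U : Set ℂ := {z : ℂ | 0 < z.re}
  have hU : IsOpen U := isOpen_lt continuous_const continuous_re
  have hUc : IsPreconnected U := (convex_halfSpace_re_gt 0).isPreconnected
  have hLd : DifferentiableOn ℂ L U := by
    intro z₀ hz₀
    have hz₀' : 0 < z₀.re := hz₀
    have hder := hasDerivAt_integral_of_dominated_loc_of_deriv_le
      (μ := volume.restrict (Ioi (0:ℝ)))
      (F := fun (z : ℂ) (t : ℝ) => (t : ℂ) ^ (a - 1) * cexp (-(z * t)))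
      (F' := fun (z : ℂ) (t : ℝ) => (t : ℂ) ^ (a - 1) * (cexp (-(z * t)) * (-t)))
      (x₀ := z₀) (s := Metric.ball z₀ (z₀.re / 2))
      (bound := fun t => t ^ ((a.re + 1) - 1) * Real.exp (-(z₀.re / 2 * t)))
      (Metric.ball_mem_nhds _ (by positivity)) ?_ ?_ ?_ ?_ ?_ ?_
    · exact hder.2.differentiableAt.differentiableWithinAt
    · refine Eventually.of_forall fun z => ?_
      refine AEStronglyMeasurable.mul (wmA_meas a) ?_
      exact (by fun_prop : Continuous fun t : ℝ => cexp (-(z * t))).aestronglyMeasurable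
    · exact wmA_intc ha hz₀'
    · refine AEStronglyMeasurable.mul (wmA_meas a) ?_
      exact (by fun_prop : Continuous fun t : ℝ =>
          cexp (-(z₀ * t)) * (-(t:ℂ))).aestronglyMeasurable
    · refine (ae_restrict_iff' measurableSet_Ioi).2 (Eventually.of_forall fun t ht z hz => ?_)
      have ht' : (0:ℝ) < t := ht
      have hzre : z₀.re / 2 ≤ z.re := by
        have h1 : |(z - z₀).re| ≤ ‖z - z₀‖ := abs_re_le_norm _
        have h2 : ‖z - z₀‖ < z₀.re / 2 := by simpa [dist_eq_norm] using hz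
        have h3 := (abs_le.1 h1).1
        rw [sub_re] at h3
        linarith
      rw [← mul_assoc, norm_mul, wmA_norm ht', norm_neg, norm_real, Real.norm_of_nonneg ht'.le]
      rw [show (a.re + 1) - 1 = (a.re - 1) + 1 by ring, Real.rpow_add ht', Real.rpow_one]
      have h5 : Real.exp (-(z.re * t)) ≤ Real.exp (-(z₀.re / 2 * t)) := by
        apply Real.exp_le_exp.2
        nlinarith
      calc t ^ (a.re-1) * Real.exp (-(z.re * t)) * t
          = t ^ (a.re-1) * t * Real.exp (-(z.re * t)) := by ring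
        _ ≤ t ^ (a.re-1) * t * Real.exp (-(z₀.re / 2 * t)) := by gcongr
    · exact wmA_int (by linarith) (by positivity)
    · refine Eventually.of_forall fun t z _ => ?_
      have h1 : HasDerivAt (fun z : ℂ => -(z * (t:ℂ))) (-(t:ℂ)) z := by
        have h0 := ((hasDerivAt_id z).mul_const (t:ℂ)).neg
        rw [one_mul] at h0
        exact h0
      exact (h1.cexp).const_mul _
  have hRd : DifferentiableOn ℂ R U := by
    intro z₀ hz₀
    have hz₀' : 0 < z₀.re := hz₀
    have h1 : DifferentiableAt ℂ (fun z : ℂ => z ^ (-a : ℂ)) z₀ :=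
      (differentiableAt_id).cpow_const (Or.inl hz₀')
    exact (h1.const_mul _).differentiableWithinAt
  have hreal : ∀ x : ℝ, 0 < x → L x = R x := by
    intro x hx
    have h := Complex.integral_cpow_mul_exp_neg_mul_Ioi (a := a) ha hx
    show (∫ t : ℝ in Ioi 0, (t : ℂ) ^ (a - 1) * cexp (-((x:ℂ) * t))) = Gamma a * (x : ℂ) ^ (-a)
    rw [h, mul_comm]
    congr 1
    rw [one_div, Complex.inv_cpow _ _ (by rw [Complex.arg_ofReal_of_nonneg hx.le]; exact Real.pi_ne_zero.symm),
      Complex.cpow_neg]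
  have hLa : AnalyticOnNhd ℂ L U := hLd.analyticOnNhd hU
  have hRa : AnalyticOnNhd ℂ R U := hRd.analyticOnNhd hU
  have h1U : (1:ℂ) ∈ U := by simp [U]
  have hfreq : ∃ᶠ w in 𝓝[≠] (1:ℂ), L w = R w := by
    have hseq : Tendsto (fun n : ℕ => (((1 + 1 / ((n:ℝ) + 1) : ℝ)) : ℂ)) atTop (𝓝[≠] (1:ℂ)) := by
      rw [tendsto_nhdsWithin_iff]
      constructor
      · have h := tendsto_one_div_add_atTop_nhds_zero_nat (𝕜 := ℝ)
        have h2 : Tendsto (fun n : ℕ => (1 + 1 / ((n:ℝ) + 1) : ℝ)) atTop (𝓝 (1 + 0)) :=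
          tendsto_const_nhds.add h
        have h3 := (continuous_ofReal.tendsto (1 + 0 : ℝ)).comp h2
        simpa [Function.comp_def] using h3
      · refine Eventually.of_forall fun n => ?_
        rw [mem_compl_iff, mem_singleton_iff]
        intro h
        have h2 : (1 + 1 / ((n:ℝ) + 1) : ℝ) = 1 := by exact_mod_cast h
        have h3 : (0:ℝ) < 1 / ((n:ℝ) + 1) := by positivity
        linarith
    refine hseq.frequently (Frequently.of_forall fun n => ?_)
    exact hreal _ (by positivity)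
  exact hLa.eqOn_of_preconnected_of_frequently_eq hRa hUc h1U hfreq hz

private lemma wmA_re : (0 : ℝ) < ((1 : ℂ) - 2 * Real.pi * I).re := by simp

private lemma wmA_ne : ((1 : ℂ) - 2 * Real.pi * I) ≠ 0 := by
  intro h
  have := wmA_re
  rw [h] at this
  simp at this

end laplace

/-- `∫ u^(K + s - 1) e^(-(1 - 2πi) u) du` (`Complex.integral_cpow_mul_exp_neg_mul_Ioi`) -/
theorem mellin_wk {K : ℕ} (hK : 1 ≤ K) {s : ℂ} (hs : 0 < s.re) : mellin (wk K) s = wM K s ∧ MellinConvergent (wk K) s := by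
  have ha : 0 < ((K : ℂ) + s).re := by
    rw [add_re, natCast_re]
    positivity
  have key : ∀ t ∈ Set.Ioi (0 : ℝ), (t : ℂ) ^ (s - 1) • wk K t =
      ((Real.sqrt K / (K.factorial : ℝ) : ℝ) : ℂ) *
        ((t : ℂ) ^ ((K : ℂ) + s - 1) * cexp (-((1 - 2 * Real.pi * I) * t))) := by
    intro t ht
    have ht' : (0 : ℝ) < t := ht
    unfold wk
    rw [if_pos ht', smul_eq_mul, show ((K : ℂ) + s - 1) = (s - 1) + K by ring,
      Complex.cpow_add _ _ (by exact_mod_cast ht'.ne'), Complex.cpow_natCast, neg_mul]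
    push_cast
    ring
  constructor
  · unfold mellin
    rw [setIntegral_congr_fun measurableSet_Ioi key, integral_const_mul, wmA_laplace ha wmA_re]
    unfold wM
    ring
  · unfold MellinConvergent
    have h1 : IntegrableOn (fun t : ℝ => ((Real.sqrt K / (K.factorial : ℝ) : ℝ) : ℂ) *
        ((t : ℂ) ^ ((K : ℂ) + s - 1) * cexp (-((1 - 2 * Real.pi * I) * t)))) (Set.Ioi 0) :=
      (wmA_intc ha wmA_re).const_mul _
    exact h1.congr_fun (fun t ht => (key t ht).symm) measurableSet_Ioi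

theorem differentiableOn_wM {K : ℕ} (hK : 1 ≤ K) : DifferentiableOn ℂ (wM K) {s : ℂ | 0 < s.re} := by
  intro s hs
  have hs' : 0 < s.re := hs
  refine DifferentiableAt.differentiableWithinAt ?_
  unfold wM
  refine DifferentiableAt.mul (DifferentiableAt.mul (differentiableAt_const _) ?_) ?_
  · refine DifferentiableAt.comp s (Complex.differentiableAt_Gamma _ fun m h => ?_)
      ((differentiableAt_const _).add differentiableAt_id)
    have h1 := congrArg Complex.re h
    simp only [id, add_re, natCast_re, neg_re] at h1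
    have h2 : (0 : ℝ) ≤ (K : ℝ) := Nat.cast_nonneg _
    have h3 : (0 : ℝ) ≤ (m : ℝ) := Nat.cast_nonneg _
    linarith
  · exact ((differentiableAt_const _).add differentiableAt_id).neg.const_cpow (Or.inl wmA_ne)

/-- Rotation of the line of integration: `|Γ(x + iy)| |ρ^(-(x+iy))| ≤ Γ(x) (Re ρ)^(-x)` for `Re ρ > 0`, because
`Γ(z) ρ^(-z) = ∫ t^(z-1) e^(-ρ t) dt`. -/
theorem norm_Gamma_mul_cpow_le {z ρ : ℂ} (hz : 0 < z.re) (hρ : 0 < ρ.re) :
    ‖Gamma z * ρ ^ (-z)‖ ≤ Real.Gamma z.re * ρ.re ^ (-z.re) := by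
  rw [← wmA_laplace hz hρ]
  refine (norm_integral_le_integral_norm _).trans (le_of_eq ?_)
  rw [setIntegral_congr_fun measurableSet_Ioi fun t ht => wmA_norm ht,
    Real.integral_rpow_mul_exp_neg_mul_Ioi hz hρ, mul_comm, one_div, Real.inv_rpow hρ.le,
    Real.rpow_neg hρ.le]

private lemma wmA_rot {x y θ : ℝ} (hx : 0 < x) (hθ : 0 < Real.cos θ) (hθ1 : -Real.pi < θ)
    (hθ2 : θ ≤ Real.pi) :
    ‖Gamma (x + y * I)‖ * Real.exp (θ * y) ≤ Real.Gamma x * (Real.cos θ) ^ (-x) := by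
  have hz : 0 < ((x : ℂ) + y * I).re := by simpa using hx
  have hρ : 0 < (cexp (θ * I)).re := by
    rw [Complex.exp_ofReal_mul_I_re]
    exact hθ
  have h := norm_Gamma_mul_cpow_le hz hρ
  have h1 : ‖cexp (θ * I) ^ (-((x : ℂ) + y * I))‖ = Real.exp (θ * y) := by
    rw [Complex.cpow_def_of_ne_zero (Complex.exp_ne_zero _), Complex.log_exp (by simpa using hθ1)
      (by simpa using hθ2), Complex.norm_exp]
    congr 1
    simp
  rw [norm_mul, h1, Complex.exp_ofReal_mul_I_re] at h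
  simpa using h

/-- `ρ = e^{± i}` -/
theorem norm_Gamma_le {x : ℝ} (hx : 0 < x) (y : ℝ) :
    ‖Gamma (x + y * I)‖ ≤ Real.Gamma x * (Real.cos 1) ^ (-x) * Real.exp (-|y|) := by
  have hpi := Real.pi_gt_three
  have hc : 0 < Real.cos 1 := Real.cos_one_pos
  have key : ‖Gamma (x + y * I)‖ * Real.exp |y| ≤ Real.Gamma x * (Real.cos 1) ^ (-x) := by
    rcases le_total 0 y with h | h
    · rw [abs_of_nonneg h]
      have h1 := wmA_rot (y := y) hx hc (by linarith) (by linarith)
      rwa [one_mul] at h1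
    · rw [abs_of_nonpos h]
      have h1 := wmA_rot (y := y) (θ := -1) hx (by rw [Real.cos_neg]; exact hc) (by linarith)
        (by linarith)
      rwa [Real.cos_neg, neg_one_mul] at h1
  have h2 : Real.exp |y| * Real.exp (-|y|) = 1 := by rw [← Real.exp_add]; simp
  calc ‖Gamma (x + y * I)‖ = ‖Gamma (x + y * I)‖ * Real.exp |y| * Real.exp (-|y|) := by
        rw [mul_assoc, h2, mul_one]
    _ ≤ Real.Gamma x * (Real.cos 1) ^ (-x) * Real.exp (-|y|) :=
        mul_le_mul_of_nonneg_right key (Real.exp_pos _).le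

/-- `Γ(K + σ) ≤ K!` for `0 < σ ≤ 1`, `K ≥ 2` -/
theorem norm_wM_le {K : ℕ} (hK : 2 ≤ K) {s : ℂ} (hs : 0 < s.re) (hs1 : s.re ≤ 1) : ‖wM K s‖ ≤ Real.sqrt K := by
  have hK' : (2 : ℝ) ≤ K := by exact_mod_cast hK
  have ha : 0 < ((K : ℂ) + s).re := by
    rw [add_re, natCast_re]
    positivity
  have h := norm_Gamma_mul_cpow_le ha wmA_re
  have h1 : ((1 : ℂ) - 2 * Real.pi * I).re = 1 := by simp
  rw [h1, Real.one_rpow, mul_one] at h
  have h2 : Real.Gamma ((K : ℂ) + s).re ≤ (K.factorial : ℝ) := by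
    rw [← Real.Gamma_nat_eq_factorial, add_re, natCast_re]
    exact Real.Gamma_strictMonoOn_Ici.monotoneOn (Set.mem_Ici.2 (by linarith))
      (Set.mem_Ici.2 (by linarith)) (by linarith)
  have hf : (0 : ℝ) < K.factorial := by exact_mod_cast K.factorial_pos
  unfold wM
  rw [mul_assoc, norm_mul, Complex.norm_real, Real.norm_of_nonneg (by positivity)]
  calc Real.sqrt K / (K.factorial : ℝ) * ‖Gamma (K + s) * (1 - 2 * Real.pi * I) ^ (-(K + s))‖
      ≤ Real.sqrt K / (K.factorial : ℝ) * K.factorial :=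
        mul_le_mul_of_nonneg_left (h.trans h2) (by positivity)
    _ = Real.sqrt K := by field_simp

/-- for fixed `K`: exponential decay on the strip `0 < Re s ≤ 2` -/
theorem norm_wM_decay {K : ℕ} (hK : 2 ≤ K) : ∃ c C : ℝ, 0 < c ∧ 0 < C ∧ ∀ s : ℂ, 0 < s.re → s.re ≤ 2 →
    ‖wM K s‖ ≤ C * Real.exp (-(c * |s.im|)) := by
  have hK' : (2 : ℝ) ≤ K := by exact_mod_cast hK
  have hpi := Real.pi_gt_three
  obtain ⟨φ, hφ⟩ : ∃ φ, φ = ((1 : ℂ) - 2 * Real.pi * I).arg := ⟨_, rfl⟩
  have hφ1 : |φ| < Real.pi / 2 := by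
    rw [hφ]
    exact Complex.abs_arg_lt_pi_div_two_iff.2 (Or.inl wmA_re)
  have hφ0 : φ < 0 := by
    rw [hφ, Complex.arg_neg_iff]
    simp
    exact Real.pi_pos
  rw [abs_of_neg hφ0] at hφ1
  obtain ⟨θ, hθ⟩ : ∃ θ, θ = (-φ + Real.pi / 2) / 2 := ⟨_, rfl⟩
  have hθ1 : -φ < θ := by rw [hθ]; linarith
  have hθ2 : θ < Real.pi / 2 := by rw [hθ]; linarith
  have hcos : 0 < Real.cos θ := Real.cos_pos_of_mem_Ioo ⟨by linarith, hθ2⟩
  have hcos1 : Real.cos θ ≤ 1 := Real.cos_le_one _
  have hf : (0 : ℝ) < K.factorial := by exact_mod_cast K.factorial_pos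
  have hf1 : (0 : ℝ) < (K + 1).factorial := by exact_mod_cast (K + 1).factorial_pos
  have hsK : 0 < Real.sqrt K := Real.sqrt_pos.2 (by linarith)
  have hn1 : 1 ≤ ‖(1 : ℂ) - 2 * Real.pi * I‖ := by
    have h1 : ((1 : ℂ) - 2 * Real.pi * I).re = 1 := by simp
    have h2 := Complex.abs_re_le_norm ((1 : ℂ) - 2 * Real.pi * I)
    rw [h1, abs_one] at h2
    exact h2
  refine ⟨min (-φ) (θ + φ), Real.sqrt K / K.factorial * ((K + 1).factorial *
    (Real.cos θ) ^ (-((K : ℝ) + 2))), lt_min (by linarith) (by linarith), by positivity,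
    fun s hs hs2 => ?_⟩
  obtain ⟨x, hx⟩ : ∃ x, x = (K : ℝ) + s.re := ⟨_, rfl⟩
  have hx0 : 0 < x := by rw [hx]; linarith
  have hKs : (K : ℂ) + s = (x : ℂ) + s.im * I := by
    apply Complex.ext
    · simp [hx]
    · simp
  have hG : Real.Gamma x ≤ ((K + 1).factorial : ℝ) := by
    rw [← Real.Gamma_nat_eq_factorial]
    refine Real.Gamma_strictMonoOn_Ici.monotoneOn (Set.mem_Ici.2 (by linarith))
      (Set.mem_Ici.2 ?_) ?_
    · push_cast; linarith
    · push_cast; linarith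
  have hG0 : 0 < Real.Gamma x := Real.Gamma_pos_of_pos hx0
  have hc1 : (1 : ℝ) ≤ (Real.cos θ) ^ (-((K : ℝ) + 2)) :=
    Real.one_le_rpow_of_pos_of_le_one_of_nonpos hcos hcos1 (by linarith)
  have hc2 : (Real.cos θ) ^ (-x) ≤ (Real.cos θ) ^ (-((K : ℝ) + 2)) :=
    Real.rpow_le_rpow_of_exponent_ge hcos hcos1 (by linarith)
  have hr : ‖((1 : ℂ) - 2 * Real.pi * I) ^ (-((x : ℂ) + s.im * I))‖ ≤ Real.exp (φ * s.im) := by
    rw [Complex.norm_cpow_of_ne_zero wmA_ne, ← hφ]
    have e1 : (-((x : ℂ) + s.im * I)).re = -x := by simp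
    have e2 : (-((x : ℂ) + s.im * I)).im = -s.im := by simp
    rw [e1, e2, mul_neg, Real.exp_neg, div_inv_eq_mul]
    refine mul_le_of_le_one_left (Real.exp_pos _).le ?_
    exact Real.rpow_le_one_of_one_le_of_nonpos hn1 (by linarith)
  have key : ‖Gamma ((x : ℂ) + s.im * I)‖ * ‖((1 : ℂ) - 2 * Real.pi * I) ^ (-((x : ℂ) + s.im * I))‖ ≤
      ((K + 1).factorial * (Real.cos θ) ^ (-((K : ℝ) + 2))) *
        Real.exp (-(min (-φ) (θ + φ) * |s.im|)) := by
    rcases le_total 0 s.im with h | h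
    · rw [abs_of_nonneg h]
      have h1 := wmA_rot (y := s.im) (θ := 0) hx0 (by rw [Real.cos_zero]; norm_num)
        (by linarith) (by linarith)
      rw [zero_mul, Real.exp_zero, mul_one, Real.cos_zero, Real.one_rpow, mul_one] at h1
      have h2 : Real.exp (φ * s.im) ≤ Real.exp (-(min (-φ) (θ + φ) * s.im)) := by
        apply Real.exp_le_exp.2
        have h3 : min (-φ) (θ + φ) * s.im ≤ -φ * s.im :=
          mul_le_mul_of_nonneg_right (min_le_left _ _) h
        linarith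
      refine mul_le_mul ?_ (hr.trans h2) (norm_nonneg _) (by positivity)
      calc ‖Gamma ((x : ℂ) + s.im * I)‖ ≤ (K + 1).factorial := h1.trans hG
        _ = (K + 1).factorial * 1 := (mul_one _).symm
        _ ≤ (K + 1).factorial * (Real.cos θ) ^ (-((K : ℝ) + 2)) :=
          mul_le_mul_of_nonneg_left hc1 hf1.le
    · rw [abs_of_nonpos h]
      have h1 := wmA_rot (y := s.im) (θ := -θ) hx0 (by rw [Real.cos_neg]; exact hcos)
        (by linarith) (by linarith)
      rw [Real.cos_neg] at h1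
      have h4 : Real.exp (-θ * s.im) * Real.exp (-(-θ * s.im)) = 1 := by
        rw [← Real.exp_add]; simp
      have h5 : ‖Gamma ((x : ℂ) + s.im * I)‖ ≤
          Real.Gamma x * (Real.cos θ) ^ (-x) * Real.exp (-(-θ * s.im)) := by
        calc ‖Gamma ((x : ℂ) + s.im * I)‖ = ‖Gamma ((x : ℂ) + s.im * I)‖ *
              Real.exp (-θ * s.im) * Real.exp (-(-θ * s.im)) := by rw [mul_assoc, h4, mul_one]
          _ ≤ _ := mul_le_mul_of_nonneg_right h1 (Real.exp_pos _).le
      have h6 : Real.exp (-(-θ * s.im)) * Real.exp (φ * s.im) ≤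
          Real.exp (-(min (-φ) (θ + φ) * -s.im)) := by
        rw [← Real.exp_add]
        apply Real.exp_le_exp.2
        have h3 : min (-φ) (θ + φ) * -s.im ≤ (θ + φ) * -s.im :=
          mul_le_mul_of_nonneg_right (min_le_right _ _) (by linarith)
        linarith
      have h7 : Real.Gamma x * (Real.cos θ) ^ (-x) ≤
          (K + 1).factorial * (Real.cos θ) ^ (-((K : ℝ) + 2)) :=
        mul_le_mul hG hc2 (by positivity) hf1.le
      calc ‖Gamma ((x : ℂ) + s.im * I)‖ *
            ‖((1 : ℂ) - 2 * Real.pi * I) ^ (-((x : ℂ) + s.im * I))‖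
          ≤ (Real.Gamma x * (Real.cos θ) ^ (-x) * Real.exp (-(-θ * s.im))) *
              Real.exp (φ * s.im) := mul_le_mul h5 hr (norm_nonneg _) (by positivity)
        _ = (Real.Gamma x * (Real.cos θ) ^ (-x)) *
              (Real.exp (-(-θ * s.im)) * Real.exp (φ * s.im)) := by ring
        _ ≤ _ := mul_le_mul h7 h6 (by positivity) (by positivity)
  unfold wM
  rw [mul_assoc, norm_mul, norm_mul, Complex.norm_real, Real.norm_of_nonneg (by positivity), hKs,
    mul_assoc (Real.sqrt K / (K.factorial : ℝ))]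
  exact mul_le_mul_of_nonneg_left key (by positivity)

end Pool.Agent.MP_291b24_nt.Sm
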