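import Pool.Agent.Lib.MP_291b24_nt.Sm.WMelA

/-! The Mellin transform of w off the window -/

set_option autoImplicit false

open Complex MeasureTheory

namespace Pool.Agent.MP_291b24_nt.Sm

private theorem wMelB_norm (y : ℝ) : ‖(1 : ℂ) - y * I‖ = Real.sqrt (1 + y ^ 2) := by
  rw [Complex.norm_def, Complex.normSq_apply]
  congr 1
  simp
  ring

private theorem wMelB_arg (y : ℝ) : Complex.arg ((1 : ℂ) - y * I) = -Real.arctan y := by
  have hre : ((1 : ℂ) - y * I).re = 1 := by simp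
  have him : ((1 : ℂ) - y * I).im = -y := by simp
  rw [Complex.arg_of_re_nonneg (by rw [hre]; exact zero_le_one), wMelB_norm, him, neg_div,
    Real.arcsin_neg, ← Real.arctan_eq_arcsin]

/-- The absolute value of a power. -/
private theorem wMelB_pow (y : ℝ) (z : ℂ) : ‖((1 : ℂ) - y * I) ^ (-z)‖ =
    Real.exp (-(z.re / 2 * Real.log (1 + y ^ 2)) - Real.arctan y * z.im) := by
  have hpos : 0 < 1 + y ^ 2 := by positivity
  have hne : (1 : ℂ) - y * I ≠ 0 := by
    intro h
    have h1 := congrArg Complex.re h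
    simp at h1
  rw [Complex.norm_cpow_of_ne_zero hne, wMelB_norm, wMelB_arg, Complex.neg_re, Complex.neg_im,
    Real.sqrt_eq_rpow, ← Real.rpow_mul hpos.le, Real.rpow_def_of_pos hpos, ← Real.exp_sub]
  congr 1
  ring

/-- The bound with the parameter `y`. -/
private theorem wMelB_key {K : ℕ} (hK : 16 ≤ K) {s : ℂ} (h0 : 0 < s.re) (h1 : s.re ≤ 1) (y : ℝ) :
    ‖wM K s‖ ≤ Real.sqrt K * Real.exp ((K + s.re) / 2 *
      (Real.log (1 + y ^ 2) - Real.log (1 + (2 * Real.pi) ^ 2)) +
        s.im * (Real.arctan y - Real.arctan (2 * Real.pi))) := by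
  have hK' : (16 : ℝ) ≤ K := by exact_mod_cast hK
  obtain ⟨z, hz⟩ : ∃ z : ℂ, z = (K : ℂ) + s := ⟨_, rfl⟩
  have hzre : z.re = K + s.re := by rw [hz]; simp
  have hzim : z.im = s.im := by rw [hz]; simp
  have hzpos : 0 < z.re := by rw [hzre]; linarith
  have hrho : ((1 : ℂ) - 2 * Real.pi * I) = (1 : ℂ) - ((2 * Real.pi : ℝ) : ℂ) * I := by
    push_cast
    ring
  have hΓ : Real.Gamma z.re ≤ (K.factorial : ℝ) := by
    rw [← Real.Gamma_nat_eq_factorial]
    refine Real.Gamma_strictMonoOn_Ici.monotoneOn ?_ ?_ ?_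
    · rw [Set.mem_Ici, hzre]; linarith
    · rw [Set.mem_Ici]; linarith
    · rw [hzre]; linarith
  have hfac : (0 : ℝ) < K.factorial := by exact_mod_cast Nat.factorial_pos K
  have hA : ‖Gamma z‖ ≤ Real.Gamma z.re *
      Real.exp (z.re / 2 * Real.log (1 + y ^ 2) + Real.arctan y * z.im) := by
    have h2 := norm_Gamma_mul_cpow_le (z := z) (ρ := (1 : ℂ) - y * I) hzpos (by simp)
    rw [norm_mul, wMelB_pow] at h2
    have h3 : ((1 : ℂ) - y * I).re ^ (-z.re) = 1 := by
      have : ((1 : ℂ) - y * I).re = 1 := by simp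
      rw [this, Real.one_rpow]
    rw [h3, mul_one] at h2
    have h4 : ‖Gamma z‖ = ‖Gamma z‖ *
        Real.exp (-(z.re / 2 * Real.log (1 + y ^ 2)) - Real.arctan y * z.im) *
        Real.exp (z.re / 2 * Real.log (1 + y ^ 2) + Real.arctan y * z.im) := by
      rw [mul_assoc, ← Real.exp_add]
      have : -(z.re / 2 * Real.log (1 + y ^ 2)) - Real.arctan y * z.im +
          (z.re / 2 * Real.log (1 + y ^ 2) + Real.arctan y * z.im) = 0 := by ring
      rw [this, Real.exp_zero, mul_one]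
    rw [h4]
    exact mul_le_mul_of_nonneg_right h2 (Real.exp_pos _).le
  have hB : ‖wM K s‖ = Real.sqrt K / K.factorial * (‖Gamma z‖ *
      Real.exp (-(z.re / 2 * Real.log (1 + (2 * Real.pi) ^ 2)) -
        Real.arctan (2 * Real.pi) * z.im)) := by
    unfold wM
    rw [← hz, hrho, norm_mul, norm_mul, wMelB_pow, Complex.norm_real, Real.norm_eq_abs,
      abs_of_nonneg (by positivity), mul_assoc]
  rw [hB]
  calc Real.sqrt K / K.factorial * (‖Gamma z‖ *
      Real.exp (-(z.re / 2 * Real.log (1 + (2 * Real.pi) ^ 2)) -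
        Real.arctan (2 * Real.pi) * z.im))
      ≤ Real.sqrt K / K.factorial * (((K.factorial : ℝ) *
        Real.exp (z.re / 2 * Real.log (1 + y ^ 2) + Real.arctan y * z.im)) *
      Real.exp (-(z.re / 2 * Real.log (1 + (2 * Real.pi) ^ 2)) -
        Real.arctan (2 * Real.pi) * z.im)) := by
        refine mul_le_mul_of_nonneg_left (mul_le_mul_of_nonneg_right (hA.trans ?_)
          (Real.exp_pos _).le) (by positivity)
        exact mul_le_mul_of_nonneg_right hΓ (Real.exp_pos _).le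
    _ = Real.sqrt K * Real.exp ((K + s.re) / 2 *
      (Real.log (1 + y ^ 2) - Real.log (1 + (2 * Real.pi) ^ 2)) +
        s.im * (Real.arctan y - Real.arctan (2 * Real.pi))) := by
        rw [mul_assoc (K.factorial : ℝ), ← Real.exp_add, ← mul_assoc, div_mul_cancel₀ _ hfac.ne']
        congr 2
        rw [hzre, hzim]
        ring

private theorem wMelB_log (y p : ℝ) : Real.log (1 + y ^ 2) - Real.log (1 + p ^ 2) ≤
    (y ^ 2 - p ^ 2) / (1 + p ^ 2) := by
  have h1 : 0 < 1 + y ^ 2 := by positivity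
  have h2 : 0 < 1 + p ^ 2 := by positivity
  rw [← Real.log_div h1.ne' h2.ne']
  refine (Real.log_le_sub_one_of_pos (div_pos h1 h2)).trans (le_of_eq ?_)
  field_simp
  ring

private theorem wMelB_arctan {a b : ℝ} (ha : 0 ≤ a) (hab : a < b) :
    (b - a) / (1 + b ^ 2) ≤ Real.arctan b - Real.arctan a ∧
      Real.arctan b - Real.arctan a ≤ (b - a) / (1 + a ^ 2) := by
  obtain ⟨ξ, ⟨h1, h2⟩, h3⟩ := exists_deriv_eq_slope Real.arctan hab
    Real.continuous_arctan.continuousOn Real.differentiable_arctan.differentiableOn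
  have hd : 0 < b - a := sub_pos.2 hab
  have h3' : Real.arctan b - Real.arctan a = (b - a) / (1 + ξ ^ 2) := by
    rw [Real.deriv_arctan] at h3
    simp only at h3
    rw [eq_div_iff hd.ne'] at h3
    rw [← h3]
    ring
  have hξ : 0 ≤ ξ := ha.trans h1.le
  rw [h3']
  constructor
  · refine div_le_div_of_nonneg_left hd.le (by positivity) ?_
    nlinarith
  · refine div_le_div_of_nonneg_left hd.le (by positivity) ?_
    nlinarith

/-- Off the window. `‖wM K s‖ ≤ (√K Γ(K+σ) / K!) (|ρ|/|1 - 2πi|)^(K+σ) exp (t (arg(1 - 2πi) - arg ρ))` with `ρ = 1 - iy`, `s = σ + it`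
(`norm_Gamma_mul_cpow_le`). For `t ≤ -(2π + 1/2) K` take `y = 2π + 1/10`, for `-(2π - 1/2) K ≤ t ≤ 0` take `y = 2π - 1/10`, for `t ≥ 0` take
`y = 0`; `log ((1+y²)/(1+4π²)) ≤ (y² - 4π²)/(1+4π²)`, `arctan` is concave. -/
theorem norm_wM_off : ∃ c C : ℝ, 0 < c ∧ 0 < C ∧ ∀ K : ℕ, 16 ≤ K → ∀ s : ℂ, 0 < s.re → s.re ≤ 1 →
    (K : ℝ) / 2 ≤ |s.im + 2 * Real.pi * K| → ‖wM K s‖ ≤ C * Real.sqrt K * Real.exp (-(c * (K + |s.im|))) := by
  refine ⟨1 / 16000, Real.exp 1, by norm_num, Real.exp_pos 1, fun K hK s h0 h1 hoff => ?_⟩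
  have hK' : (16 : ℝ) ≤ K := by exact_mod_cast hK
  obtain ⟨p, hp⟩ : ∃ p, p = 2 * Real.pi := ⟨_, rfl⟩
  have hp1 : 6.28 < p := by
    rw [hp]
    have := Real.pi_gt_d2
    linarith
  have hp2 : p < 6.29 := by
    rw [hp]
    have := Real.pi_lt_d4
    linarith
  rw [← hp] at hoff
  obtain ⟨t, ht⟩ : ∃ t, t = s.im := ⟨_, rfl⟩
  obtain ⟨σ, hσ⟩ : ∃ σ, σ = s.re := ⟨_, rfl⟩
  have hkey : ∀ y φ : ℝ, (K + σ) / 2 * (Real.log (1 + y ^ 2) - Real.log (1 + p ^ 2)) +
      t * (Real.arctan y - Real.arctan p) ≤ φ → φ ≤ 1 - 1 / 16000 * (K + |t|) →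
      ‖wM K s‖ ≤ Real.exp 1 * Real.sqrt K * Real.exp (-(1 / 16000 * (K + |s.im|))) := by
    intro y φ h2 h3
    have h4 := wMelB_key hK h0 h1 y
    rw [← hp, ← ht, ← hσ] at h4
    refine h4.trans ?_
    rw [← ht, mul_comm (Real.exp 1), mul_assoc, ← Real.exp_add]
    refine mul_le_mul_of_nonneg_left (Real.exp_le_exp.2 ?_) (Real.sqrt_nonneg _)
    linarith
  rw [← ht] at hoff
  rw [← hσ] at h0 h1
  clear ht hσ
  have hp0 : 0 < 1 + p ^ 2 := by positivity
  rcases le_or_gt 0 t with ht0 | ht0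
  · -- `t ≥ 0`
    have hlog : 1 ≤ Real.log (1 + p ^ 2) := by
      rw [Real.le_log_iff_exp_le hp0]
      have := Real.exp_one_lt_d9
      nlinarith
    have harc : 1 / 2 ≤ Real.arctan p := by
      have h2 : Real.arctan 1 ≤ Real.arctan p := Real.arctan_strictMono.monotone (by linarith)
      rw [Real.arctan_one] at h2
      have := Real.pi_gt_d2
      linarith
    refine hkey 0 (-(K / 2) - t / 2) ?_ ?_
    · rw [Real.arctan_zero]
      have e1 : Real.log (1 + (0 : ℝ) ^ 2) = 0 := by norm_num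
      rw [e1]
      have h2 : (K : ℝ) / 2 * 1 ≤ (K + σ) / 2 * Real.log (1 + p ^ 2) :=
        mul_le_mul (by linarith) hlog zero_le_one (by linarith)
      have h3 : t * (1 / 2) ≤ t * Real.arctan p := mul_le_mul_of_nonneg_left harc ht0
      nlinarith
    · rw [abs_of_nonneg ht0]
      linarith
  · rw [abs_of_neg ht0] at hkey
    obtain ⟨u, hu⟩ : ∃ u, u = -t := ⟨_, rfl⟩
    have htu : t = -u := by rw [hu, neg_neg]
    subst htu
    rw [neg_neg] at hkey
    have hu0 : 0 < u := by linarith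
    rcases le_or_gt 0 (-u + p * K) with hs | hs
    · -- `u ≤ (p - 1/2) K`
      rw [abs_of_nonneg hs] at hoff
      have huK : u ≤ (p - 1 / 2) * K := by linarith
      have hlog := wMelB_log (p - 1 / 10) p
      have harc := (wMelB_arctan (a := p - 1 / 10) (b := p) (by linarith) (by linarith)).2
      have hden : 0 < 1 + (p - 1 / 10) ^ 2 := by positivity
      have e1 : ((p - 1 / 10) ^ 2 - p ^ 2) / (1 + p ^ 2) =
          -(1 / 5 * ((p - 1 / 20) / (1 + p ^ 2))) := by
        field_simp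
        ring
      have e2 : (p - (p - 1 / 10)) / (1 + (p - 1 / 10) ^ 2) =
          1 / 10 * (1 / (1 + (p - 1 / 10) ^ 2)) := by
        field_simp
        ring
      rw [e1] at hlog
      rw [e2] at harc
      have hf : 1 / 200 ≤ (p - 1 / 20) / (1 + p ^ 2) -
          (p - 1 / 2) * (1 / (1 + (p - 1 / 10) ^ 2)) := by
        have e3 : (p - 1 / 20) / (1 + p ^ 2) - (p - 1 / 2) * (1 / (1 + (p - 1 / 10) ^ 2)) =
            (1 / 4 * p ^ 2 + 1 / 50 * p + 4495 / 10000) /
              ((1 + p ^ 2) * (1 + (p - 1 / 10) ^ 2)) := by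
          field_simp
          ring
        rw [e3, div_le_div_iff₀ (by norm_num) (by positivity)]
        have h5 : 1 + p ^ 2 ≤ 41 := by nlinarith
        have h6 : 1 + (p - 1 / 10) ^ 2 ≤ 40 := by nlinarith
        have h7 : (1 + p ^ 2) * (1 + (p - 1 / 10) ^ 2) ≤ 41 * 40 :=
          mul_le_mul h5 h6 hden.le (by norm_num)
        nlinarith
      obtain ⟨A, hA⟩ : ∃ A, A = (p - 1 / 20) / (1 + p ^ 2) := ⟨_, rfl⟩
      obtain ⟨B, hB⟩ : ∃ B, B = 1 / (1 + (p - 1 / 10) ^ 2) := ⟨_, rfl⟩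
      rw [← hA] at hlog hf
      rw [← hB] at harc hf
      have hA0 : 0 ≤ A := by
        rw [hA]
        exact div_nonneg (by linarith) hp0.le
      have hB0 : 0 ≤ B := by
        rw [hB]
        positivity
      refine hkey (p - 1 / 10) (-(K / 2000)) ?_ ?_
      · have h5 : (K + σ) / 2 * (Real.log (1 + (p - 1 / 10) ^ 2) - Real.log (1 + p ^ 2)) ≤
            (K + σ) / 2 * (-(1 / 5 * A)) := mul_le_mul_of_nonneg_left hlog (by linarith)
        have h6 : -u * (Real.arctan (p - 1 / 10) - Real.arctan p) =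
            u * (Real.arctan p - Real.arctan (p - 1 / 10)) := by ring
        have h7 : u * (Real.arctan p - Real.arctan (p - 1 / 10)) ≤ u * (1 / 10 * B) :=
          mul_le_mul_of_nonneg_left harc hu0.le
        have h8 : u * (1 / 10 * B) ≤ (p - 1 / 2) * K * (1 / 10 * B) :=
          mul_le_mul_of_nonneg_right huK (by positivity)
        have h9 : (K + σ) / 2 * (-(1 / 5 * A)) ≤ -(1 / 10 * (K * A)) := by
          have := mul_nonneg h0.le hA0
          nlinarith
        have h10 : (1 / 200) * (K : ℝ) ≤ (A - (p - 1 / 2) * B) * K :=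
          mul_le_mul_of_nonneg_right hf (by linarith)
        nlinarith
      · nlinarith
    · -- `u ≥ (p + 1/2) K`
      rw [abs_of_neg hs] at hoff
      have huK : (p + 1 / 2) * K ≤ u := by linarith
      have hlog := wMelB_log (p + 1 / 10) p
      have harc := (wMelB_arctan (a := p) (b := p + 1 / 10) (by linarith) (by linarith)).1
      have hden : 0 < 1 + (p + 1 / 10) ^ 2 := by positivity
      have e1 : ((p + 1 / 10) ^ 2 - p ^ 2) / (1 + p ^ 2) =
          1 / 5 * ((p + 1 / 20) / (1 + p ^ 2)) := by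
        field_simp
        ring
      have e2 : (p + 1 / 10 - p) / (1 + (p + 1 / 10) ^ 2) =
          1 / 10 * (1 / (1 + (p + 1 / 10) ^ 2)) := by
        field_simp
        ring
      rw [e1] at hlog
      rw [e2] at harc
      have hf : 1 / 200 ≤ (p + 1 / 2) * (1 / (1 + (p + 1 / 10) ^ 2)) -
          (p + 1 / 20) / (1 + p ^ 2) := by
        have e3 : (p + 1 / 2) * (1 / (1 + (p + 1 / 10) ^ 2)) - (p + 1 / 20) / (1 + p ^ 2) =
            (1 / 4 * p ^ 2 - 1 / 50 * p + 4495 / 10000) /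
              ((1 + p ^ 2) * (1 + (p + 1 / 10) ^ 2)) := by
          field_simp
          ring
        rw [e3, div_le_div_iff₀ (by norm_num) (by positivity)]
        have h5 : 1 + p ^ 2 ≤ 41 := by nlinarith
        have h6 : 1 + (p + 1 / 10) ^ 2 ≤ 42 := by nlinarith
        have h7 : (1 + p ^ 2) * (1 + (p + 1 / 10) ^ 2) ≤ 41 * 42 :=
          mul_le_mul h5 h6 hden.le (by norm_num)
        nlinarith
      have hBlo : 1 / 42 ≤ 1 / (1 + (p + 1 / 10) ^ 2) := by
        refine one_div_le_one_div_of_le hden ?_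
        nlinarith
      have hAhi : (p + 1 / 20) / (1 + p ^ 2) ≤ 1 := by
        rw [div_le_one hp0]
        nlinarith
      obtain ⟨A, hA⟩ : ∃ A, A = (p + 1 / 20) / (1 + p ^ 2) := ⟨_, rfl⟩
      obtain ⟨B, hB⟩ : ∃ B, B = 1 / (1 + (p + 1 / 10) ^ 2) := ⟨_, rfl⟩
      rw [← hA] at hlog hf hAhi
      rw [← hB] at harc hf hBlo
      have hA0 : 0 ≤ A := by
        rw [hA]
        exact div_nonneg (by linarith) hp0.le
      obtain ⟨w, hw⟩ : ∃ w, w = u - (p + 1 / 2) * K := ⟨_, rfl⟩
      have hw0 : 0 ≤ w := by linarith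
      have huw : u = (p + 1 / 2) * K + w := by linarith
      refine hkey (p + 1 / 10) (-(K / 2000) - w / 420 + 1) ?_ ?_
      · have h5 : (K + σ) / 2 * (Real.log (1 + (p + 1 / 10) ^ 2) - Real.log (1 + p ^ 2)) ≤
            (K + σ) / 2 * (1 / 5 * A) := mul_le_mul_of_nonneg_left hlog (by linarith)
        have h6 : -u * (Real.arctan (p + 1 / 10) - Real.arctan p) =
            -(u * (Real.arctan (p + 1 / 10) - Real.arctan p)) := by ring
        have h7 : u * (1 / 10 * B) ≤ u * (Real.arctan (p + 1 / 10) - Real.arctan p) :=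
          mul_le_mul_of_nonneg_left harc hu0.le
        have h8 : u * (1 / 10 * B) = 1 / 10 * (K * ((p + 1 / 2) * B)) + 1 / 10 * (w * B) := by
          rw [huw]
          ring
        have h9 : w * (1 / 42) ≤ w * B := mul_le_mul_of_nonneg_left hBlo hw0
        have h10 : (K + σ) / 2 * (1 / 5 * A) ≤ 1 / 10 * (K * A) + 1 := by
          have : σ * A ≤ 1 * 1 := mul_le_mul h1 hAhi hA0 zero_le_one
          nlinarith
        have h11 : (1 / 200) * (K : ℝ) ≤ ((p + 1 / 2) * B - A) * K :=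
          mul_le_mul_of_nonneg_right hf (by linarith)
        nlinarith
      · rw [huw]
        nlinarith

end Pool.Agent.MP_291b24_nt.Sm
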