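import Pool.Agent.Lib.MP_291b24_nt.Sm.A1c

/-! Bounds for the common factor and crude bounds -/

set_option autoImplicit false

open Complex MeasureTheory

namespace Pool.Agent.MP_291b24_nt.Sm

/-- the part of the common factor without the decay: powers and `HH` -/
private theorem wwB_rest {r σ : ℝ} (hr : 0 < r) (hr1 : r < 1 / 4) (h0 : 0 < σ) (h1 : σ ≤ 1)
    (K D : ℕ) (hK : 16 ≤ K) (hD : 1 ≤ D) (X : ℝ) (hX : 2 ≤ X) (t y : ℝ) :
    ‖WW K D X (σ + t * I) (r + y * I)‖ ≤ ‖wM K (σ + t * I)‖ * ‖pM K (r + y * I)‖ *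
      (16 / σ * (D : ℝ) * X ^ (σ + r) * (|t| + 2)) := by
  have hX0 : 0 < X := by linarith
  have hDr : (1 : ℝ) ≤ D := by exact_mod_cast hD
  have hsre : ((σ : ℂ) + t * I).re = σ := by simp
  have hzre : ((r : ℂ) + y * I).re = r := by simp
  have e1 : ‖(X : ℂ) ^ ((σ : ℂ) + t * I)‖ = X ^ σ := by
    rw [Complex.norm_cpow_eq_rpow_re_of_pos hX0, hsre]
  have hDX : 0 < 4 * (D : ℝ) * X := by positivity
  have e2 : ‖((4 * D * X : ℝ) : ℂ) ^ ((r : ℂ) + y * I)‖ ≤ 4 * D * X ^ r := by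
    rw [Complex.norm_cpow_eq_rpow_re_of_pos hDX, hzre, Real.mul_rpow (by positivity) hX0.le]
    refine mul_le_mul_of_nonneg_right ?_ (Real.rpow_nonneg hX0.le _)
    calc (4 * (D : ℝ)) ^ r ≤ (4 * (D : ℝ)) ^ (1 : ℝ) :=
          Real.rpow_le_rpow_of_exponent_le (by linarith) (by linarith)
      _ = 4 * D := Real.rpow_one _
  have e3 : ‖HH (2 * ((σ : ℂ) + t * I))‖ ≤ 4 / σ * (|t| + 2) := by
    have h2 : (2 * ((σ : ℂ) + t * I)).re = 2 * σ := by simp
    have h3 := norm_HH_le (2 * ((σ : ℂ) + t * I)) (by rw [h2]; linarith)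
    rw [h2] at h3
    refine h3.trans ?_
    have h4 : ‖2 * ((σ : ℂ) + t * I)‖ ≤ 2 * (σ + |t|) := by
      rw [norm_mul, Complex.norm_two]
      refine mul_le_mul_of_nonneg_left ((norm_add_le _ _).trans ?_) (by norm_num)
      rw [norm_mul, Complex.norm_I, mul_one, Complex.norm_real, Complex.norm_real,
        Real.norm_eq_abs, Real.norm_eq_abs, abs_of_pos h0]
    calc 4 * ‖2 * ((σ : ℂ) + t * I)‖ / (2 * σ) ≤ 4 * (2 * (σ + |t|)) / (2 * σ) := by gcongr
      _ = 4 / σ * (|t| + σ) := by field_simp; ring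
      _ ≤ 4 / σ * (|t| + 2) := by gcongr; linarith
  unfold WW
  rw [norm_mul, norm_mul, norm_mul, norm_mul, e1]
  have hW : 0 ≤ ‖wM K ((σ : ℂ) + t * I)‖ * ‖pM K ((r : ℂ) + y * I)‖ := by positivity
  calc ‖wM K ((σ : ℂ) + t * I)‖ * ‖pM K ((r : ℂ) + y * I)‖ * X ^ σ *
        ‖((4 * D * X : ℝ) : ℂ) ^ ((r : ℂ) + y * I)‖ * ‖HH (2 * ((σ : ℂ) + t * I))‖
      ≤ ‖wM K ((σ : ℂ) + t * I)‖ * ‖pM K ((r : ℂ) + y * I)‖ * X ^ σ *
        (4 * D * X ^ r) * (4 / σ * (|t| + 2)) := by gcongr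
    _ = ‖wM K ((σ : ℂ) + t * I)‖ * ‖pM K ((r : ℂ) + y * I)‖ *
        (16 / σ * (D : ℝ) * X ^ (σ + r) * (|t| + 2)) := by
      rw [Real.rpow_add hX0]
      ring

/-- the factor `pM` -/
private theorem wwB_pM {r : ℝ} (hr : 0 < r) (hr1 : r < 1 / 4) (K : ℕ) (hK : 16 ≤ K) (y : ℝ) :
    ‖pM K (r + y * I)‖ ≤ 3 / Real.sqrt K * (3 * Real.exp (-((y - 2 * Real.pi * K) ^ 2 / (2 * K)))) := by
  have hzre : ((r : ℂ) + y * I).re = r := by simp
  have hzim : ((r : ℂ) + y * I).im = y := by simp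
  have hKr : (16 : ℝ) ≤ K := by exact_mod_cast hK
  have hK0 : (0 : ℝ) < K := by linarith
  rw [norm_pM K (by omega), hzre, hzim]
  have h1 : Real.sqrt (2 * Real.pi / K) ≤ 3 / Real.sqrt K := by
    rw [Real.sqrt_div (by positivity)]
    refine div_le_div_of_nonneg_right ?_ (Real.sqrt_nonneg _)
    rw [Real.sqrt_le_left (by norm_num)]
    linarith [Real.pi_lt_four]
  have h2 : Real.exp ((r ^ 2 - (y - 2 * Real.pi * K) ^ 2) / (2 * K)) ≤
      3 * Real.exp (-((y - 2 * Real.pi * K) ^ 2 / (2 * K))) := by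
    rw [sub_div, sub_eq_add_neg, Real.exp_add]
    refine mul_le_mul_of_nonneg_right ?_ (Real.exp_pos _).le
    have h3 : r ^ 2 / (2 * K) ≤ 1 := by
      rw [div_le_one (by positivity)]
      nlinarith
    calc Real.exp (r ^ 2 / (2 * K)) ≤ Real.exp 1 := Real.exp_le_exp.2 h3
      _ ≤ 3 := by linarith [Real.exp_one_lt_d9]
  exact mul_le_mul h1 h2 (Real.exp_pos _).le (by positivity)

/-- the decay of the product of the two transforms -/
private theorem wwB_decay {r σ : ℝ} (hr : 0 < r) (hr1 : r < 1 / 4) (h0 : 0 < σ) (h1 : σ ≤ 1) :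
    ∃ c C : ℝ, 0 < c ∧ 0 < C ∧ ∀ K : ℕ, 16 ≤ K → ∀ t y : ℝ,
      (K : ℝ) / 2 ≤ |t + 2 * Real.pi * K| ∨ (K : ℝ) / 2 ≤ |y - 2 * Real.pi * K| →
      ‖wM K (σ + t * I)‖ * ‖pM K (r + y * I)‖ ≤ C * Real.exp (-(c * K)) *
        Real.exp (-(c * (|t| + |y|))) := by
  obtain ⟨c₁, C₁, hc₁, hC₁, hoff⟩ := norm_wM_off
  set a : ℝ := min (c₁ / 14) 1 with ha
  have ha0 : 0 < a := lt_min (by positivity) one_pos
  have ha1 : a ≤ 1 := min_le_right _ _
  have hac : a ≤ c₁ / 14 := min_le_left _ _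
  set c : ℝ := min (min (c₁ / 2) a) (1 / 512) with hc
  have hc0 : 0 < c := lt_min (lt_min (by positivity) ha0) (by norm_num)
  have hcc : c ≤ c₁ / 2 := (min_le_left _ _).trans (min_le_left _ _)
  have hca : c ≤ a := (min_le_left _ _).trans (min_le_right _ _)
  have hc5 : c ≤ 1 / 512 := min_le_right _ _
  refine ⟨c, 9 * C₁ + 9, hc0, by positivity, fun K hK t y hty => ?_⟩
  have hKr : (16 : ℝ) ≤ K := by exact_mod_cast hK
  have hK0 : (0 : ℝ) < K := by linarith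
  have hsK : 0 < Real.sqrt K := Real.sqrt_pos.2 hK0
  have hsre : ((σ : ℂ) + t * I).re = σ := by simp
  have hsim : ((σ : ℂ) + t * I).im = t := by simp
  have hpM := wwB_pM hr hr1 K hK y
  set u : ℝ := y - 2 * Real.pi * K with hu
  have hpi : Real.pi < 3.15 := Real.pi_lt_d2
  have hpi0 : 0 < Real.pi := Real.pi_pos
  have hy : |y| ≤ |u| + 2 * Real.pi * K := by
    have h2 : y = u + 2 * Real.pi * K := by rw [hu]; ring
    calc |y| = |u + 2 * Real.pi * K| := by rw [← h2]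
      _ ≤ |u| + |2 * Real.pi * K| := abs_add_le _ _
      _ = |u| + 2 * Real.pi * K := by rw [abs_of_pos (show 0 < 2 * Real.pi * (K : ℝ) by positivity)]
  have hu2 : u ^ 2 = |u| ^ 2 := (sq_abs u).symm
  have hexp : ∀ x : ℝ, x ≤ -(c * K) - c * (|t| + |y|) → Real.exp x ≤
      Real.exp (-(c * K)) * Real.exp (-(c * (|t| + |y|))) := by
    intro x hx
    rw [← Real.exp_add]
    exact Real.exp_le_exp.2 (by linarith)
  by_cases hcase : (K : ℝ) / 2 ≤ |t + 2 * Real.pi * K|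
  · have hw := hoff K hK ((σ : ℂ) + t * I) (by rw [hsre]; exact h0) (by rw [hsre]; exact h1)
      (by rw [hsim]; exact hcase)
    rw [hsim] at hw
    have hq : a * |u| - a ^ 2 * K / 2 ≤ u ^ 2 / (2 * K) := by
      rw [le_div_iff₀ (by positivity), hu2]
      nlinarith [sq_nonneg (|u| - a * K)]
    have hle : -(c₁ * (K + |t|)) + -(u ^ 2 / (2 * K)) ≤ -(c * K) - c * (|t| + |y|) := by
      have h3 : c * |t| ≤ c₁ * |t| := mul_le_mul_of_nonneg_right (by linarith) (abs_nonneg t)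
      have h4 : c * |y| ≤ a * |y| := mul_le_mul_of_nonneg_right hca (abs_nonneg y)
      have h5 : a * |y| ≤ a * (|u| + 2 * Real.pi * K) := mul_le_mul_of_nonneg_left hy ha0.le
      have h6 : c * K ≤ c₁ / 2 * K := mul_le_mul_of_nonneg_right hcc hK0.le
      have h7 : a * (2 * Real.pi * K) + a ^ 2 * K / 2 ≤ c₁ / 2 * K := by
        have h8 : a * (2 * Real.pi) + a ^ 2 / 2 ≤ c₁ / 2 := by nlinarith
        nlinarith
      linarith
    calc ‖wM K ((σ : ℂ) + t * I)‖ * ‖pM K ((r : ℂ) + y * I)‖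
        ≤ (C₁ * Real.sqrt K * Real.exp (-(c₁ * (K + |t|)))) *
          (3 / Real.sqrt K * (3 * Real.exp (-(u ^ 2 / (2 * K))))) :=
          mul_le_mul hw hpM (norm_nonneg _) (by positivity)
      _ = 9 * C₁ * Real.exp (-(c₁ * (K + |t|)) + -(u ^ 2 / (2 * K))) := by
          rw [Real.exp_add]
          field_simp
          ring
      _ ≤ 9 * C₁ * (Real.exp (-(c * K)) * Real.exp (-(c * (|t| + |y|)))) := by
          refine mul_le_mul_of_nonneg_left (hexp _ hle) (by positivity)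
      _ ≤ (9 * C₁ + 9) * (Real.exp (-(c * K)) * Real.exp (-(c * (|t| + |y|)))) := by
          refine mul_le_mul_of_nonneg_right (by linarith) (by positivity)
      _ = _ := by ring
  · have hu' : (K : ℝ) / 2 ≤ |u| := hty.resolve_left hcase
    push Not at hcase
    have hw := norm_wM_le (K := K) (by omega) (s := (σ : ℂ) + t * I) (by rw [hsre]; exact h0)
      (by rw [hsre]; exact h1)
    have ht : |t| ≤ 7 * K := by
      have h2 : t = (t + 2 * Real.pi * K) - 2 * Real.pi * K := by ring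
      calc |t| = |(t + 2 * Real.pi * K) - 2 * Real.pi * K| := by rw [← h2]
        _ ≤ |t + 2 * Real.pi * K| + |2 * Real.pi * K| := abs_sub _ _
        _ ≤ K / 2 + 2 * Real.pi * K := by
            rw [abs_of_pos (show 0 < 2 * Real.pi * (K : ℝ) by positivity)]
            linarith
        _ ≤ 7 * K := by nlinarith
    have hq : K / 16 + |u| / 8 ≤ u ^ 2 / (2 * K) := by
      rw [le_div_iff₀ (by positivity), hu2]
      nlinarith
    have hle : -(u ^ 2 / (2 * K)) ≤ -(c * K) - c * (|t| + |y|) := by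
      have h3 : c * K ≤ 1 / 512 * K := mul_le_mul_of_nonneg_right hc5 hK0.le
      have h4 : c * |t| ≤ 1 / 512 * (7 * K) :=
        mul_le_mul hc5 ht (abs_nonneg t) (by norm_num)
      have h5 : c * |y| ≤ 1 / 512 * (|u| + 2 * Real.pi * K) :=
        mul_le_mul hc5 hy (abs_nonneg y) (by norm_num)
      have h6 : Real.pi * K ≤ 3.15 * K := mul_le_mul_of_nonneg_right hpi.le hK0.le
      linarith [abs_nonneg u]
    calc ‖wM K ((σ : ℂ) + t * I)‖ * ‖pM K ((r : ℂ) + y * I)‖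
        ≤ Real.sqrt K * (3 / Real.sqrt K * (3 * Real.exp (-(u ^ 2 / (2 * K))))) :=
          mul_le_mul hw hpM (norm_nonneg _) (by positivity)
      _ = 9 * Real.exp (-(u ^ 2 / (2 * K))) := by
          field_simp
          ring
      _ ≤ 9 * (Real.exp (-(c * K)) * Real.exp (-(c * (|t| + |y|)))) := by
          refine mul_le_mul_of_nonneg_left (hexp _ hle) (by positivity)
      _ ≤ (9 * C₁ + 9) * (Real.exp (-(c * K)) * Real.exp (-(c * (|t| + |y|)))) := by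
          refine mul_le_mul_of_nonneg_right (by linarith) (by positivity)
      _ = _ := by ring

/-- everywhere: `norm_wM_le`, `norm_pM`, `norm_HH_le`; outside the window `V` there is the factor `e^(-c K)`. For `|t + 2πK| ≥ K/2`: `norm_wM_off`; otherwise
`|y - 2πK| ≥ K/2` and `(y - 2πK)² / (2K) ≥ K/16 + |y - 2πK|/8`. -/
theorem norm_WW_off {r σ : ℝ} (hr : 0 < r) (hr1 : r < 1 / 4) (h0 : 0 < σ) (h1 : σ ≤ 1) :
    ∃ c C : ℝ, 0 < c ∧ 0 < C ∧ ∀ K D : ℕ, 16 ≤ K → 1 ≤ D → ∀ X : ℝ, 2 ≤ X → ∀ t y : ℝ,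
      (K : ℝ) / 2 ≤ |t + 2 * Real.pi * K| ∨ (K : ℝ) / 2 ≤ |y - 2 * Real.pi * K| →
      ‖WW K D X (σ + t * I) (r + y * I)‖ ≤ C * (D : ℝ) * X ^ (σ + r) * K * Real.exp (-(c * K)) *
        Real.exp (-(c * (|t| + |y|))) := by
  obtain ⟨c, C, hc, hC, hd⟩ := wwB_decay hr hr1 h0 h1
  refine ⟨c / 2, C * (16 / σ) * (2 / c + 2), by positivity, by positivity,
    fun K D hK hD X hX t y hty => ?_⟩
  have hKr : (16 : ℝ) ≤ K := by exact_mod_cast hK
  have hX0 : 0 < X := by linarith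
  have h2 := wwB_rest hr hr1 h0 h1 K D hK hD X hX t y
  have h3 := hd K hK t y hty
  have h4 : |t| + 2 ≤ (2 / c + 2) * Real.exp (c / 2 * |t|) := by
    have h5 := Real.add_one_le_exp (c / 2 * |t|)
    have h6 : 0 ≤ c / 2 * |t| := by positivity
    have h7 : |t| = 2 / c * (c / 2 * |t|) := by field_simp
    have h8 : 2 / c * (c / 2 * |t|) ≤ 2 / c * Real.exp (c / 2 * |t|) :=
      mul_le_mul_of_nonneg_left (by linarith) (by positivity)
    have h9 : (2 : ℝ) ≤ 2 * Real.exp (c / 2 * |t|) := by linarith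
    calc |t| + 2 = 2 / c * (c / 2 * |t|) + 2 := by rw [← h7]
      _ ≤ 2 / c * Real.exp (c / 2 * |t|) + 2 * Real.exp (c / 2 * |t|) := add_le_add h8 h9
      _ = _ := by ring
  calc ‖WW K D X (σ + t * I) (r + y * I)‖
      ≤ ‖wM K (σ + t * I)‖ * ‖pM K (r + y * I)‖ *
        (16 / σ * (D : ℝ) * X ^ (σ + r) * (|t| + 2)) := h2
    _ ≤ (C * Real.exp (-(c * K)) * Real.exp (-(c * (|t| + |y|)))) *
        (16 / σ * (D : ℝ) * X ^ (σ + r) * ((2 / c + 2) * Real.exp (c / 2 * |t|))) := by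
        gcongr
    _ = C * (16 / σ) * (2 / c + 2) * D * X ^ (σ + r) * 1 * (Real.exp (-(c * K)) *
        (Real.exp (-(c * (|t| + |y|))) * Real.exp (c / 2 * |t|))) := by ring
    _ ≤ C * (16 / σ) * (2 / c + 2) * D * X ^ (σ + r) * K * (Real.exp (-(c / 2 * K)) *
        Real.exp (-(c / 2 * (|t| + |y|)))) := by
        rw [← Real.exp_add (-(c * (|t| + |y|)))]
        have e1 : Real.exp (-(c * K)) ≤ Real.exp (-(c / 2 * K)) :=
          Real.exp_le_exp.2 (by nlinarith)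
        have e2 : Real.exp (-(c * (|t| + |y|)) + c / 2 * |t|) ≤
            Real.exp (-(c / 2 * (|t| + |y|))) :=
          Real.exp_le_exp.2 (by nlinarith [abs_nonneg y])
        have e3 : (1 : ℝ) ≤ K := by linarith
        gcongr
    _ = _ := by ring

/-- everywhere -/
theorem norm_WW_le {r σ : ℝ} (hr : 0 < r) (hr1 : r < 1 / 4) (h0 : 0 < σ) (h1 : σ ≤ 1) :
    ∃ C : ℝ, 0 < C ∧ ∀ K D : ℕ, 16 ≤ K → 1 ≤ D → ∀ X : ℝ, 2 ≤ X → ∀ t y : ℝ,
      ‖WW K D X (σ + t * I) (r + y * I)‖ ≤ C * (D : ℝ) * X ^ (σ + r) * K * (|t| + 2) := by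
  refine ⟨9 * (16 / σ), by positivity, fun K D hK hD X hX t y => ?_⟩
  have hKr : (16 : ℝ) ≤ K := by exact_mod_cast hK
  have hK0 : (0 : ℝ) < K := by linarith
  have hX0 : 0 < X := by linarith
  have hsK : 0 < Real.sqrt K := Real.sqrt_pos.2 hK0
  have hsre : ((σ : ℂ) + t * I).re = σ := by simp
  have h2 := wwB_rest hr hr1 h0 h1 K D hK hD X hX t y
  have hw := norm_wM_le (K := K) (by omega) (s := (σ : ℂ) + t * I) (by rw [hsre]; exact h0)
      (by rw [hsre]; exact h1)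
  have hpM := wwB_pM hr hr1 K hK y
  have h3 : Real.exp (-((y - 2 * Real.pi * K) ^ 2 / (2 * K))) ≤ 1 :=
    Real.exp_le_one_iff.2 (by have : 0 ≤ (y - 2 * Real.pi * K) ^ 2 / (2 * K) := by positivity
                              linarith)
  have h4 : ‖wM K (σ + t * I)‖ * ‖pM K (r + y * I)‖ ≤ 9 := by
    calc ‖wM K (σ + t * I)‖ * ‖pM K (r + y * I)‖
        ≤ Real.sqrt K * (3 / Real.sqrt K * (3 * Real.exp (-((y - 2 * Real.pi * K) ^ 2 / (2 * K))))) :=
          mul_le_mul hw hpM (norm_nonneg _) (by positivity)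
      _ ≤ Real.sqrt K * (3 / Real.sqrt K * (3 * 1)) := by gcongr
      _ = 9 := by
          field_simp
          norm_num
  have hK1 : (1 : ℝ) ≤ K := by linarith
  calc ‖WW K D X (σ + t * I) (r + y * I)‖
      ≤ ‖wM K (σ + t * I)‖ * ‖pM K (r + y * I)‖ *
        (16 / σ * (D : ℝ) * X ^ (σ + r) * (|t| + 2)) := h2
    _ ≤ 9 * (16 / σ * (D : ℝ) * X ^ (σ + r) * (|t| + 2)) :=
        mul_le_mul_of_nonneg_right h4 (by positivity)
    _ = 9 * (16 / σ) * (D : ℝ) * X ^ (σ + r) * 1 * (|t| + 2) := by ring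
    _ ≤ 9 * (16 / σ) * (D : ℝ) * X ^ (σ + r) * K * (|t| + 2) := by gcongr

/-- crude bound: `norm_Lchi_le_of_ne` (real part `1/2 + r + 2σ`), `inv_Lchi` -/
theorem norm_qn_le (hG : GRH) {r σ : ℝ} (hr : 0 < r) (hr1 : r < 1 / 4) (h0 : 0 < σ) (h1 : σ ≤ 1) :
    ∃ A C : ℝ, 0 < A ∧ 0 < C ∧ ∀ n : ℕ, Odd n → Squarefree n → n ≠ 1 → ∀ t y : ℝ,
      ‖qn n (σ + t * I) (r + y * I)‖ ≤ C * ((n : ℝ) * (|t| + 2) * (|y| + 2)) ^ A := by
  obtain ⟨A, C, hA, hC, hinv⟩ := inv_Lchi hG hr (by linarith : r < 1 / 2)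
  refine ⟨1 + A, 2 * C, by positivity, by positivity, fun n hn hs hn1 t y => ?_⟩
  have hn0 : 0 < n := hn.pos
  have hnr : (1 : ℝ) ≤ n := by exact_mod_cast hn0
  have hat := abs_nonneg t
  have hay := abs_nonneg y
  -- the four factors
  have f1 : ‖epsb n‖ ≤ 1 := by
    unfold epsb
    split_ifs <;> simp
  have f2 : ‖(n : ℂ) ^ (-((σ : ℂ) + t * I))‖ ≤ 1 := by
    have h2 : (-((σ : ℂ) + t * I)).re = -σ := by simp
    have h3 : (n : ℂ) = ((n : ℝ) : ℂ) := by norm_cast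
    rw [h3, Complex.norm_cpow_eq_rpow_re_of_pos (by linarith), h2]
    exact Real.rpow_le_one_of_one_le_of_nonpos hnr (by linarith)
  have f3 : ‖Lchi n (1 / 2 + ((r : ℂ) + y * I) + 2 * ((σ : ℂ) + t * I))‖ ≤
      2 * ((n : ℝ) * (|t| + 2) * (|y| + 2)) := by
    have h2 : (1 / 2 + ((r : ℂ) + y * I) + 2 * ((σ : ℂ) + t * I)).re = 1 / 2 + r + 2 * σ := by
      simp
    have h3 : (1 / 2 + ((r : ℂ) + y * I) + 2 * ((σ : ℂ) + t * I)).im = y + 2 * t := by
      simp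
    have h4 := norm_Lchi_le_of_ne hn hs hn1 (1 / 2 + ((r : ℂ) + y * I) + 2 * ((σ : ℂ) + t * I))
      (by rw [h2]; linarith)
    rw [h2] at h4
    refine h4.trans ?_
    have h5 : ‖1 / 2 + ((r : ℂ) + y * I) + 2 * ((σ : ℂ) + t * I)‖ ≤
        (1 / 2 + r + 2 * σ) + (|y| + 2 * |t|) := by
      refine (Complex.norm_le_abs_re_add_abs_im _).trans ?_
      rw [h2, h3, abs_of_pos (show 0 < 1 / 2 + r + 2 * σ by linarith)]
      have h6 : |y + 2 * t| ≤ |y| + 2 * |t| := by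
        refine (abs_add_le _ _).trans ?_
        rw [abs_mul, abs_of_pos (show (0 : ℝ) < 2 by norm_num)]
      linarith
    rw [div_le_iff₀ (by linarith : 0 < 1 / 2 + r + 2 * σ)]
    have h7 : ‖1 / 2 + ((r : ℂ) + y * I) + 2 * ((σ : ℂ) + t * I)‖ ≤
        2 * ((|t| + 2) * (|y| + 2)) * (1 / 2 + r + 2 * σ) := by
      have h8 : |y| + 2 * |t| ≤ (2 * |y| + 4 * |t|) * (1 / 2 + r + 2 * σ) := by nlinarith
      nlinarith [mul_nonneg hat hay]
    calc (n : ℝ) * ‖1 / 2 + ((r : ℂ) + y * I) + 2 * ((σ : ℂ) + t * I)‖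
        ≤ n * (2 * ((|t| + 2) * (|y| + 2)) * (1 / 2 + r + 2 * σ)) :=
          mul_le_mul_of_nonneg_left h7 (by linarith)
      _ = _ := by ring
  have f4 : ‖(Lchi n (1 / 2 + ((r : ℂ) + y * I)))⁻¹‖ ≤
      C * ((n : ℝ) * (|t| + 2) * (|y| + 2)) ^ A := by
    have h2 : (1 / 2 + ((r : ℂ) + y * I)).re = 1 / 2 + r := by simp
    have h3 : (1 / 2 + ((r : ℂ) + y * I)).im = y := by simp
    have h4 := hinv n hn hs (1 / 2 + ((r : ℂ) + y * I)) (by rw [h2])
    rw [h3] at h4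
    refine h4.trans (mul_le_mul_of_nonneg_left (Real.rpow_le_rpow (by positivity) ?_ hA.le) hC.le)
    calc (n : ℝ) * (|y| + 2) = n * 1 * (|y| + 2) := by ring
      _ ≤ n * (|t| + 2) * (|y| + 2) := by gcongr; linarith
  have hB : 0 < (n : ℝ) * (|t| + 2) * (|y| + 2) := by positivity
  unfold qn
  rw [norm_mul, norm_mul, norm_mul]
  calc ‖epsb n‖ * ‖(n : ℂ) ^ (-((σ : ℂ) + t * I))‖ *
        ‖Lchi n (1 / 2 + ((r : ℂ) + y * I) + 2 * ((σ : ℂ) + t * I))‖ *
        ‖(Lchi n (1 / 2 + ((r : ℂ) + y * I)))⁻¹‖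
      ≤ 1 * 1 * (2 * ((n : ℝ) * (|t| + 2) * (|y| + 2))) *
        (C * ((n : ℝ) * (|t| + 2) * (|y| + 2)) ^ A) := by gcongr
    _ = 2 * C * (((n : ℝ) * (|t| + 2) * (|y| + 2)) ^ (1 : ℝ) *
        ((n : ℝ) * (|t| + 2) * (|y| + 2)) ^ A) := by
        rw [Real.rpow_one]
        ring
    _ = _ := by rw [← Real.rpow_add hB]

/-- powers against the exponential function -/
private theorem wwB_pow (A : ℝ) (hA : 0 ≤ A) : ∃ C : ℝ, 0 < C ∧ ∀ x : ℝ, 0 ≤ x →
    x ^ A ≤ C * Real.exp (x / 2) := by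
  obtain ⟨k, hk⟩ := exists_nat_ge A
  refine ⟨1 + (k.factorial : ℝ) * 2 ^ k, by positivity, fun x hx => ?_⟩
  have h1 : x ^ A ≤ 1 + x ^ k := by
    rcases le_total x 1 with h | h
    · have h2 : x ^ A ≤ 1 := Real.rpow_le_one hx h hA
      have h3 : 0 ≤ x ^ k := pow_nonneg hx k
      linarith
    · have h2 : x ^ A ≤ x ^ (k : ℝ) := Real.rpow_le_rpow_of_exponent_le h hk
      rw [Real.rpow_natCast] at h2
      linarith
  have h2 : (x / 2) ^ k / (k.factorial : ℝ) ≤ Real.exp (x / 2) :=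
    Real.pow_div_factorial_le_exp (x / 2) (by positivity) k
  have h3 : x ^ k ≤ (k.factorial : ℝ) * 2 ^ k * Real.exp (x / 2) := by
    rw [div_le_iff₀ (by positivity), div_pow, div_le_iff₀ (by positivity)] at h2
    linarith
  have h4 : 1 ≤ Real.exp (x / 2) := Real.one_le_exp (by positivity)
  calc x ^ A ≤ 1 + x ^ k := h1
    _ ≤ Real.exp (x / 2) + (k.factorial : ℝ) * 2 ^ k * Real.exp (x / 2) := add_le_add h4 h3
    _ = _ := by ring

/-- `∑ n^A exp (-(n / N₀)^M) ≤ C N₀^(A+1)` -/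
theorem ups_sum (A : ℝ) (hA : 0 ≤ A) (M : ℕ) (hM : 1 ≤ M) : ∃ C : ℝ, 0 < C ∧ ∀ N₀ : ℝ, 1 ≤ N₀ →
    Summable (fun n : ℕ => (n : ℝ) ^ A * ups M (n / N₀)) ∧ ∑' n : ℕ, (n : ℝ) ^ A * ups M (n / N₀) ≤ C * N₀ ^ (A + 1) := by
  obtain ⟨C, hC, hpow⟩ := wwB_pow A hA
  refine ⟨3 * C * 3, by positivity, fun N₀ hN => ?_⟩
  have hN0 : 0 < N₀ := by linarith
  set q : ℝ := Real.exp (-(1 / (2 * N₀))) with hq
  have hq0 : 0 < q := Real.exp_pos _
  have hq1 : q < 1 := by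
    rw [hq, Real.exp_lt_one_iff]
    have : 0 < 1 / (2 * N₀) := by positivity
    linarith
  have hterm : ∀ n : ℕ, (n : ℝ) ^ A * ups M (n / N₀) ≤ 3 * C * N₀ ^ A * q ^ n := by
    intro n
    set x : ℝ := (n : ℝ) / N₀ with hx
    have hx0 : 0 ≤ x := by positivity
    have hnx : (n : ℝ) = N₀ * x := by rw [hx]; field_simp
    have h1 : ups M x ≤ 3 * Real.exp (-x) := by
      have h2 : x - 1 ≤ x ^ M := by
        rcases le_total x 1 with h | h
        · have : 0 ≤ x ^ M := pow_nonneg hx0 M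
          linarith
        · have : x ^ 1 ≤ x ^ M := pow_le_pow_right₀ h hM
          rw [pow_one] at this
          linarith
      calc ups M x ≤ Real.exp (1 + -x) := by
            unfold ups
            exact Real.exp_le_exp.2 (by linarith)
        _ = Real.exp 1 * Real.exp (-x) := Real.exp_add _ _
        _ ≤ 3 * Real.exp (-x) :=
            mul_le_mul_of_nonneg_right (by linarith [Real.exp_one_lt_d9]) (Real.exp_pos _).le
    have h3 : q ^ n = Real.exp (-(x / 2)) := by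
      rw [hq, ← Real.exp_nat_mul]
      congr 1
      rw [hx]
      field_simp
    calc (n : ℝ) ^ A * ups M x = N₀ ^ A * x ^ A * ups M x := by
          rw [hnx, Real.mul_rpow hN0.le hx0]
      _ ≤ N₀ ^ A * (C * Real.exp (x / 2)) * (3 * Real.exp (-x)) := by
          have h4 : 0 ≤ ups M x := (Real.exp_pos _).le
          have h5 := hpow x hx0
          have h6 : 0 ≤ x ^ A := Real.rpow_nonneg hx0 _
          gcongr
      _ = 3 * C * N₀ ^ A * (Real.exp (x / 2) * Real.exp (-x)) := by ring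
      _ = 3 * C * N₀ ^ A * q ^ n := by
          rw [← Real.exp_add, h3]
          congr 2
          ring
  have hnn : ∀ n : ℕ, 0 ≤ (n : ℝ) ^ A * ups M (n / N₀) := fun n =>
    mul_nonneg (Real.rpow_nonneg (Nat.cast_nonneg n) _) (Real.exp_pos _).le
  have hgeo : Summable (fun n : ℕ => 3 * C * N₀ ^ A * q ^ n) :=
    (summable_geometric_of_lt_one hq0.le hq1).mul_left _
  have hsum : Summable (fun n : ℕ => (n : ℝ) ^ A * ups M (n / N₀)) :=
    Summable.of_nonneg_of_le hnn hterm hgeo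
  refine ⟨hsum, (hsum.tsum_le_tsum hterm hgeo).trans ?_⟩
  rw [tsum_mul_left, tsum_geometric_of_lt_one hq0.le hq1]
  have h1 : (1 - q)⁻¹ ≤ 3 * N₀ := by
    have h2 : 0 < 1 - q := by linarith
    rw [inv_le_iff_one_le_mul₀ h2]
    have h3 : Real.exp (1 / (2 * N₀)) * q = 1 := by
      rw [hq, ← Real.exp_add, add_neg_cancel, Real.exp_zero]
    have h4 := Real.add_one_le_exp (1 / (2 * N₀))
    have h5 : (1 / (2 * N₀) + 1) * q ≤ 1 :=
      (mul_le_mul_of_nonneg_right h4 hq0.le).trans h3.le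
    have h6 : (1 + 2 * N₀) * q ≤ 2 * N₀ := by
      have h7 : (1 + 2 * N₀) * q = 2 * N₀ * ((1 / (2 * N₀) + 1) * q) := by
        field_simp
      rw [h7]
      nlinarith
    nlinarith
  calc 3 * C * N₀ ^ A * (1 - q)⁻¹ ≤ 3 * C * N₀ ^ A * (3 * N₀) := by gcongr
    _ = 3 * C * 3 * N₀ ^ (A + 1) := by
        rw [Real.rpow_add hN0, Real.rpow_one]
        ring

end Pool.Agent.MP_291b24_nt.Sm
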