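import Pool.Agent.Lib.MP_291b24_nt.Sm.Mel
import Pool.Agent.Lib.MP_291b24_nt.Sm.EEb

/-! From the bound of `SS D om` to the zeros of `L(s, ψ_{-D})` -/

set_option autoImplicit false

open Complex MeasureTheory

namespace Pool.Agent.MP_291b24_nt.Sm

private lemma zf_norm_om (x : ℝ) : ‖om x‖ ≤ Real.exp (9 / 2) * Real.exp (-(3 * |x|)) := by
  unfold om
  rw [Complex.norm_real, Real.norm_eq_abs, abs_of_pos (Real.exp_pos _), ← Real.exp_add]
  refine Real.exp_le_exp.2 ?_
  have h1 : x ^ 2 = |x| ^ 2 := (sq_abs x).symm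
  rw [h1]
  nlinarith [sq_nonneg (|x| - 3)]

/-- `mellin_differentiableAt_of_isBigO_rpow` (`O(Y^β)` at infinity, `O(Y³)` at zero by `SS_crude`): the Mellin transform at `-s` is holomorphic for
`β < Re s < 3`. The identity `L(s) · mellin = (16D)^(-1) (4D)^s √(2π) e^(s²/2) E(s)` extends from `1 < Re s < 3` to `β < Re s < 3`
(identity theorem on a convex set). At a zero: `E(ρ) = 0`, against `EE_ne_zero`. For `Re s > 1` use `ZZ_one`. -/
theorem zero_free {D : ℕ} (hD : 1 ≤ D) {β : ℝ} (hβ : 1 / 4 ≤ β) (hβ1 : β ≤ 1)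
    (h : ∃ C : ℝ, 0 < C ∧ ∀ Y : ℝ, 1 ≤ Y → ‖SS D om Y‖ ≤ C * Y ^ β) {s : ℂ} (hs : β < s.re) (hs2 : 1 / 2 ≤ s.re) :
    Lpsi D s ≠ 0 := by
  by_cases hs1 : 1 < s.re
  · exact ZZ_one D hD s hs1
  push Not at hs1
  intro hzero
  obtain ⟨C, hC, hb⟩ := h
  obtain ⟨C', hC', hcr⟩ := SS_crude hD
  have hDc : ((4 * D : ℂ)) ≠ 0 := by
    have : (D : ℂ) ≠ 0 := by
      exact_mod_cast (by omega : D ≠ 0)
    simp [this]
  set U : Set ℂ := {z : ℂ | β < z.re ∧ z.re < 3} with hU
  have hUo : IsOpen U := by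
    rw [hU]
    exact (isOpen_lt continuous_const continuous_re).inter (isOpen_lt continuous_re continuous_const)
  have hUc : IsPreconnected U := by
    have h1 : Convex ℝ U := by
      have h2 : U = {z : ℂ | β < z.re} ∩ {z : ℂ | z.re < 3} := rfl
      rw [h2]
      exact (convex_halfSpace_re_gt β).inter (convex_halfSpace_re_lt 3)
    exact h1.isPreconnected
  -- holomorphy of the Mellin transform
  have hmd : ∀ z ∈ U, DifferentiableAt ℂ (fun z : ℂ => mellin (fun Y : ℝ => SS D om Y) (-z)) z := by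
    intro z hz
    have h1 : DifferentiableAt ℂ (mellin (fun Y : ℝ => SS D om Y)) (-z) := by
      refine mellin_differentiableAt_of_isBigO_rpow (a := -β) (b := -3)
        ((continuousOn_SS hD).locallyIntegrableOn measurableSet_Ioi) ?_ ?_ ?_ ?_
      · refine Asymptotics.IsBigO.of_bound C ?_
        filter_upwards [Filter.eventually_ge_atTop 1] with Y hY
        rw [neg_neg, Real.norm_eq_abs, abs_of_pos (Real.rpow_pos_of_pos (by linarith) _)]
        exact hb Y hY
      · rw [neg_re]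
        linarith [hz.1]
      · refine Asymptotics.IsBigO.of_bound (C' * Real.exp (9 / 2)) ?_
        filter_upwards [self_mem_nhdsWithin] with Y hY
        have hY0 : (0 : ℝ) < Y := hY
        rw [neg_neg, Real.norm_eq_abs, abs_of_pos (Real.rpow_pos_of_pos hY0 _)]
        refine ((hcr om (Real.exp (9 / 2)) Y hY0 (Real.exp_pos _).le zf_norm_om).2).trans ?_
        refine mul_le_mul_of_nonneg_left ?_ (by positivity)
        refine (min_le_right _ _).trans (le_of_eq ?_)
        rw [show (3 : ℝ) = ((3 : ℕ) : ℝ) by norm_num, Real.rpow_natCast]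
      · rw [neg_re]
        linarith [hz.2]
    exact h1.comp z (differentiable_neg z)
  -- the function `G`
  set G : ℂ → ℂ := fun z => Lpsi D z * mellin (fun Y : ℝ => SS D om Y) (-z) -
    ((16 * D : ℕ) : ℂ)⁻¹ * (4 * D : ℂ) ^ z * (Real.sqrt (2 * Real.pi) : ℂ) * cexp (z ^ 2 / 2) * EE D z with hG
  have hGd : DifferentiableOn ℂ G U := by
    intro z hz
    refine DifferentiableAt.differentiableWithinAt ?_
    have hE : DifferentiableAt ℂ (EE D) z := by
      refine (differentiableOn_EE D z ?_).differentiableAt ?_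
      · exact lt_of_le_of_lt hβ hz.1
      · exact (isOpen_lt continuous_const continuous_re).mem_nhds (lt_of_le_of_lt hβ hz.1)
    have hp : DifferentiableAt ℂ (fun z : ℂ => (4 * D : ℂ) ^ z) z :=
      differentiableAt_id.const_cpow (Or.inl hDc)
    refine ((differentiable_Lpsi D z).mul (hmd z hz)).sub ?_
    refine DifferentiableAt.mul (DifferentiableAt.mul (DifferentiableAt.mul (DifferentiableAt.mul ?_ hp) ?_) ?_) hE
    · fun_prop
    · fun_prop
    · fun_prop
  have hGa : AnalyticOnNhd ℂ G U := hGd.analyticOnNhd hUo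
  have h2U : (2 : ℂ) ∈ U := by
    refine ⟨?_, ?_⟩
    · simp only [Complex.re_ofNat]
      linarith
    · simp only [Complex.re_ofNat]
      norm_num
  have hG0 : G =ᶠ[nhds (2 : ℂ)] 0 := by
    have hV : {z : ℂ | 1 < z.re ∧ z.re < 3} ∈ nhds (2 : ℂ) := by
      refine IsOpen.mem_nhds ?_ ?_
      · exact (isOpen_lt continuous_const continuous_re).inter (isOpen_lt continuous_re continuous_const)
      · constructor
        · simp only [Complex.re_ofNat]
          norm_num
        · simp only [Complex.re_ofNat]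
          norm_num
    filter_upwards [hV] with z hz
    have hL : Lpsi D z ≠ 0 := ZZ_one D hD z hz.1
    rw [hG]
    simp only [Pi.zero_apply]
    rw [mellin_SS hD hz.1 hz.2]
    field_simp
    ring
  have hall : Set.EqOn G 0 U := hGa.eqOn_zero_of_preconnected_of_eventuallyEq_zero hUc h2U hG0
  have hsU : s ∈ U := ⟨hs, by linarith⟩
  have h3 := hall hsU
  rw [hG] at h3
  simp only [Pi.zero_apply, hzero, zero_mul, zero_sub, neg_eq_zero] at h3
  have hne : ((16 * D : ℕ) : ℂ)⁻¹ * (4 * D : ℂ) ^ s * (Real.sqrt (2 * Real.pi) : ℂ) * cexp (s ^ 2 / 2) ≠ 0 := by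
    have h4 : ((16 * D : ℕ) : ℂ)⁻¹ ≠ 0 := by
      refine inv_ne_zero ?_
      exact_mod_cast (by omega : 16 * D ≠ 0)
    have h5 : (4 * D : ℂ) ^ s ≠ 0 := by
      rw [Complex.cpow_def_of_ne_zero hDc]
      exact Complex.exp_ne_zero _
    have h6 : (Real.sqrt (2 * Real.pi) : ℂ) ≠ 0 := by
      have : Real.sqrt (2 * Real.pi) ≠ 0 := (Real.sqrt_pos.2 (by positivity)).ne'
      exact_mod_cast this
    exact mul_ne_zero (mul_ne_zero (mul_ne_zero h4 h5) h6) (Complex.exp_ne_zero _)
  rcases mul_eq_zero.1 h3 with h4 | h4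
  · exact hne h4
  · exact EE_ne_zero D hD hs2 h4

end Pool.Agent.MP_291b24_nt.Sm
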